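import Mathlib.LinearAlgebra.Matrix.Hermitian
import Mathlib.Analysis.Normed.Algebra.Exponential
import Mathlib.GroupTheory.PresentedGroup
import Pool.Agent.MP_94b95a_al.Defs
import Mathlib.RingTheory.FiniteType
import Mathlib.GroupTheory.SemidirectProduct
import Mathlib.GroupTheory.FinitelyPresentedGroup
import Mathlib.LinearAlgebra.FreeModule.PID
import Mathlib.RingTheory.Flat.FaithfullyFlat.Algebra
import Mathlib.RingTheory.Flat.TorsionFree
import Mathlib.Algebra.Order.Ring.Star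
import Mathlib.Algebra.Order.Star.Real
import Mathlib.Analysis.Complex.Polynomial.Basic
import Mathlib.Analysis.Normed.Algebra.Spectrum
import Mathlib.LinearAlgebra.Matrix.Charpoly.Eigs
import Mathlib.Analysis.Normed.Algebra.MatrixExponential
import Mathlib.RingTheory.SimpleRing.Principal
import Mathlib.Algebra.MvPolynomial.PDeriv
import Mathlib.Analysis.Complex.TaylorSeries
import Mathlib.RingTheory.PiTensorProduct
import Mathlib.RingTheory.MvPolynomial.IrreducibleQuadratic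
import Mathlib.Topology.Algebra.MvPolynomial
import Mathlib.LinearAlgebra.Matrix.PosDef
import Mathlib.LinearAlgebra.Matrix.FiniteDimensional
import Mathlib.RingTheory.TotallySplit
import Mathlib.Tactic.Monotonicity.Lemmas
import Mathlib.Analysis.CStarAlgebra.Matrix
import Mathlib.GroupTheory.FiniteAbelian.Basic

-- ======== part 0: formerly Pool.Agent.MP_94b95a_al.fl.Base
section MrgPart0

/-! PROJECT FLAW: working definitions. -/

namespace Pool.Agent.MP_94b95a_al.Fl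

open NormedSpace Matrix
open scoped commutatorElement

abbrev Mat (N : ℕ) : Type := Matrix (Fin N) (Fin N) ℂ
abbrev GLN (N : ℕ) : Type := GL (Fin N) ℂ

section Lin
variable {N : ℕ}

/-- Zariski closed. -/
def Alg (G : Subgroup (GLN N)) : Prop :=
  ∃ S : Set (MvPolynomial (Fin N × Fin N) ℂ), ∀ g : GLN N,
      g ∈ G ↔ ∀ p ∈ S, MvPolynomial.eval (fun ij => (g : Mat N) ij.1 ij.2) p = 0

/-- Zariski closed and self adjoint. -/
structure SA (G : Subgroup (GLN N)) : Prop where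
  alg : Alg G
  star_mem : ∀ g ∈ G, star g ∈ G

def InG (G : Subgroup (GLN N)) (m : Mat N) : Prop := ∃ g ∈ G, (g : Mat N) = m

/-- The (complex) Lie algebra of `G`. -/
def InLie (G : Subgroup (GLN N)) (X : Mat N) : Prop := ∀ z : ℂ, InG G (exp (z • X))

def BddM (S : Set (Mat N)) : Prop := ∃ C : ℝ, ∀ m ∈ S, ∀ a b, ‖m a b‖ ≤ C

/-- Elliptic: all powers bounded. -/
def Ell (e : GLN N) : Prop := BddM (Set.range fun k : ℤ => ((e ^ k : GLN N) : Mat N))

/-- Real diagonalizable: `exp (i t A)` bounded. -/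
def Hyp (A : Mat N) : Prop := BddM (Set.range fun t : ℝ => exp ((Complex.I * t) • A))

/-- Unitary element. -/
def Uni (g : GLN N) : Prop := (g : Mat N)ᴴ * (g : Mat N) = 1

/-- Complete multiplicative Jordan decomposition. -/
structure JD (g e : GLN N) (A ν : Mat N) : Prop where
  eq : (g : Mat N) = (e : Mat N) * exp A * exp ν
  ell : Ell e
  hyp : Hyp A
  nil : IsNilpotent ν
  eA : Commute (e : Mat N) A
  eν : Commute (e : Mat N) ν
  Aν : Commute A ν

/-- Centralizer in `G` of a set of matrices. -/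
def cent (G : Subgroup (GLN N)) (S : Set (Mat N)) : Subgroup (GLN N) where
  carrier := {g | g ∈ G ∧ ∀ s ∈ S, Commute (g : Mat N) s}
  one_mem' := ⟨G.one_mem, fun s _ => Commute.one_left s⟩
  mul_mem' := fun ha hb => ⟨G.mul_mem ha.1 hb.1, fun s hs => (ha.2 s hs).mul_left (hb.2 s hs)⟩
  inv_mem' := fun ha => ⟨G.inv_mem ha.1, fun s hs => (ha.2 s hs).units_inv_left⟩

/-- Conjugation of tuples. -/
noncomputable def cj {ι : Type} (g : GLN N) (x : ι → Mat N) : ι → Mat N :=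
  fun j => (g : Mat N) * x j * ((g⁻¹ : GLN N) : Mat N)

def orb {ι : Type} (G : Subgroup (GLN N)) (x : ι → Mat N) : Set (ι → Mat N) :=
  {y | ∃ g ∈ G, y = cj g x}

noncomputable def FN {ι : Type} [Fintype ι] (x : ι → Mat N) : ℝ := ∑ j, ∑ a, ∑ b, ‖x j a b‖ ^ 2

def IsMinV {ι : Type} [Fintype ι] (G : Subgroup (GLN N)) (x : ι → Mat N) : Prop :=
  ∀ g ∈ G, FN x ≤ FN (cj g x)

noncomputable def mu {ι : Type} [Fintype ι] (x : ι → Mat N) : Mat N :=
  ∑ j, (x j * (x j)ᴴ - (x j)ᴴ * x j)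

/-- Commuting representations of `gl_5` (through `sl_5`). -/
structure GlFam {κ : Type} (L : κ → Fin 5 → Fin 5 → Mat N) : Prop where
  rel : ∀ k a b c d, L k a b * L k c d - L k c d * L k a b =
    (if b = c then L k a d else 0) - (if d = a then L k c b else 0)
  tr : ∀ k, ∑ a, L k a a = 0
  comm : ∀ k k', k ≠ k' → ∀ a b c d, Commute (L k a b) (L k' c d)

/-- The off diagonal part of the same data. -/
structure OffFam {κ : Type} (L : κ → Fin 5 → Fin 5 → Mat N) : Prop where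
  heis : ∀ k i j l, i ≠ j → j ≠ l → i ≠ l → L k i j * L k j l - L k j l * L k i j = L k i l
  comm : ∀ k i j p q, i ≠ j → p ≠ q → j ≠ p → i ≠ q → Commute (L k i j) (L k p q)
  cross : ∀ k k', k ≠ k' → ∀ i j p q, i ≠ j → p ≠ q → Commute (L k i j) (L k' p q)

end Lin

section Net
variable {R : Type} [CommRing R]

/-- The net: `R` above the diagonal, `I` below. -/
def sig (I : Ideal R) (i j : Fin 5) : Ideal R := if i < j then ⊤ else I

/-- Legitimate root elements. -/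
def Leg (I : Ideal R) (i j : Fin 5) (a : R) : Prop := i ≠ j ∧ a ∈ sig I i j

/-- Steinberg relations in a group. -/
structure StFam (I : Ideal R) {H : Type} [Group H] (x : Fin 5 → Fin 5 → R → H) : Prop where
  add : ∀ i j a b, Leg I i j a → Leg I i j b → x i j (a + b) = x i j a * x i j b
  heis : ∀ i j k a b, i ≠ k → Leg I i j a → Leg I j k b → ⁅x i j a, x j k b⁆ = x i k (a * b)
  comm : ∀ i j k l a b, j ≠ k → i ≠ l → Leg I i j a → Leg I k l b → Commute (x i j a) (x k l b)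

def gens (I : Ideal R) {H : Type} (x : Fin 5 → Fin 5 → R → H) : Set H :=
  {g | ∃ i j a, Leg I i j a ∧ g = x i j a}

def rootSet (I : Ideal R) {H : Type} (x : Fin 5 → Fin 5 → R → H) (i j : Fin 5) : Set H :=
  {g | ∃ a, Leg I i j a ∧ g = x i j a}

/-- Level of a root element with coefficient in `I ^ e`. -/
def lev (i j : Fin 5) (e : ℕ) : ℤ := (j : ℤ) - (i : ℤ) + 5 * e

/-- Root elements and opposite commutators of level at least `k`. -/
def levSet (I : Ideal R) {H : Type} [Group H] (x : Fin 5 → Fin 5 → R → H) (k : ℤ) : Set H :=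
  {g | ∃ i j a e, i ≠ j ∧ a ∈ I ^ e ∧ 1 ≤ lev i j e ∧ k ≤ lev i j e ∧ g = x i j a} ∪
  {g | ∃ i j a b e f, i ≠ j ∧ a ∈ I ^ e ∧ b ∈ I ^ f ∧ 1 ≤ lev i j e ∧ 1 ≤ lev j i f ∧
      k ≤ lev i j e + lev j i f ∧ g = ⁅x i j a, x j i b⁆}

def stRels (I : Ideal R) : Set (FreeGroup (Fin 5 × Fin 5 × R)) :=
  {r | ∃ i j a b, Leg I i j a ∧ Leg I i j b ∧
      r = FreeGroup.of (i, j, a) * FreeGroup.of (i, j, b) * (FreeGroup.of (i, j, a + b))⁻¹} ∪
  {r | ∃ i j k a b, i ≠ k ∧ Leg I i j a ∧ Leg I j k b ∧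
      r = ⁅FreeGroup.of (i, j, a), FreeGroup.of (j, k, b)⁆ * (FreeGroup.of (i, k, a * b))⁻¹} ∪
  {r | ∃ i j k l a b, j ≠ k ∧ i ≠ l ∧ Leg I i j a ∧ Leg I k l b ∧
      r = ⁅FreeGroup.of (i, j, a), FreeGroup.of (k, l, b)⁆} ∪
  {r | ∃ i j a, ¬ Leg I i j a ∧ r = FreeGroup.of (i, j, a)}

/-- The Steinberg group of the net. -/
def St (I : Ideal R) : Type := PresentedGroup (stRels I)

instance instGroupSt (I : Ideal R) : Group (St I) :=
  inferInstanceAs (Group (PresentedGroup (stRels I)))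

/-- The generators. -/
def X (I : Ideal R) (i j : Fin 5) (a : R) : St I := PresentedGroup.of (rels := stRels I) (i, j, a)

theorem rel_one (I : Ideal R) {r : FreeGroup (Fin 5 × Fin 5 × R)} (h : r ∈ stRels I) :
    PresentedGroup.mk (stRels I) r = 1 := PresentedGroup.one_of_mem h

theorem stFam_X (I : Ideal R) : StFam I (X I) where
  add i j a b ha hb := by
    have h := rel_one I (Or.inl (Or.inl (Or.inl ⟨i, j, a, b, ha, hb, rfl⟩)))
    rw [map_mul, map_mul, map_inv, mul_inv_eq_one] at h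
    exact h.symm
  heis i j k a b hik ha hb := by
    have h := rel_one I (Or.inl (Or.inl (Or.inr ⟨i, j, k, a, b, hik, ha, hb, rfl⟩)))
    rw [map_mul, map_commutatorElement, map_inv, mul_inv_eq_one] at h
    exact h
  comm i j k l a b hjk hil ha hb := by
    have h := rel_one I (Or.inl (Or.inr ⟨i, j, k, l, a, b, hjk, hil, ha, hb, rfl⟩))
    rw [map_commutatorElement] at h
    exact commutatorElement_eq_one_iff_commute.mp h

theorem X_of_not_leg (I : Ideal R) {i j : Fin 5} {a : R} (h : ¬ Leg I i j a) : X I i j a = 1 :=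
  rel_one I (Or.inr ⟨i, j, a, h, rfl⟩)

theorem closure_gens_X (I : Ideal R) : Subgroup.closure (gens I (X I)) = ⊤ := by
  have h0 : Subgroup.closure (Set.range fun p : Fin 5 × Fin 5 × R => X I p.1 p.2.1 p.2.2) = ⊤ :=
    PresentedGroup.closure_range_of (stRels I)
  rw [eq_top_iff, ← h0]
  refine (Subgroup.closure_le _).mpr ?_
  rintro _ ⟨⟨i, j, a⟩, rfl⟩
  by_cases h : Leg I i j a
  · exact Subgroup.subset_closure ⟨i, j, a, h, rfl⟩
  · show X I i j a ∈ _
    rw [X_of_not_leg I h]; exact Subgroup.one_mem _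

theorem Leg.mul {I : Ideal R} {i j k : Fin 5} {a b : R} (hik : i ≠ k) (ha : Leg I i j a)
    (hb : Leg I j k b) : Leg I i k (a * b) := by
  refine ⟨hik, ?_⟩
  have h1 := ha.2; have h2 := hb.2
  unfold sig at h1 h2 ⊢
  by_cases h : i < k
  · simp [h]
  · rw [if_neg h]
    by_cases h' : i < j
    · have : ¬ j < k := fun h'' => h (h'.trans h'')
      rw [if_neg this] at h2; exact I.mul_mem_left _ h2
    · rw [if_neg h'] at h1; exact I.mul_mem_right _ h1

theorem Leg.add {I : Ideal R} {i j : Fin 5} {a b : R} (ha : Leg I i j a) (hb : Leg I i j b) :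
    Leg I i j (a + b) := ⟨ha.1, (sig I i j).add_mem ha.2 hb.2⟩

theorem Leg.neg {I : Ideal R} {i j : Fin 5} {a : R} (ha : Leg I i j a) : Leg I i j (-a) :=
  ⟨ha.1, (sig I i j).neg_mem ha.2⟩

theorem Leg.zero {I : Ideal R} {i j : Fin 5} (h : i ≠ j) : Leg I i j 0 :=
  ⟨h, (sig I i j).zero_mem⟩

theorem Leg.mul_left {I : Ideal R} {i j : Fin 5} {a : R} (r : R) (ha : Leg I i j a) :
    Leg I i j (r * a) := ⟨ha.1, (sig I i j).mul_mem_left r ha.2⟩

theorem leg_of_mem {I : Ideal R} {i j : Fin 5} {a : R} (h : i ≠ j) (ha : a ∈ I) : Leg I i j a := by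
  refine ⟨h, ?_⟩
  unfold sig; split_ifs
  · trivial
  · exact ha

theorem leg_of_lt {I : Ideal R} {i j : Fin 5} (a : R) (h : i < j) : Leg I i j a :=
  ⟨h.ne, by unfold sig; rw [if_pos h]; trivial⟩

open Classical in
/-- Universal property. -/
theorem exists_lift {I : Ideal R} {H : Type} [Group H] {x : Fin 5 → Fin 5 → R → H}
    (hx : StFam I x) : ∃ f : St I →* H, ∀ i j a, Leg I i j a → f (X I i j a) = x i j a := by
  let y : Fin 5 × Fin 5 × R → H := fun p => if Leg I p.1 p.2.1 p.2.2 then x p.1 p.2.1 p.2.2 else 1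
  have hy : ∀ r ∈ stRels I, FreeGroup.lift y r = 1 := by
    rintro r (((⟨i, j, a, b, ha, hb, rfl⟩ | ⟨i, j, k, a, b, hik, ha, hb, rfl⟩) |
      ⟨i, j, k, l, a, b, hjk, hil, ha, hb, rfl⟩) | ⟨i, j, a, h, rfl⟩)
    · simp [y, ha, hb, ha.add hb, hx.add i j a b ha hb]
    · rw [map_mul, map_commutatorElement, map_inv]
      simp [y, ha, hb, ha.mul hik hb, hx.heis i j k a b hik ha hb]
    · rw [map_commutatorElement]
      simp only [FreeGroup.lift_apply_of, y, ha, hb, if_true]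
      exact commutatorElement_eq_one_iff_commute.mpr (hx.comm i j k l a b hjk hil ha hb)
    · simp [y, h]
  refine ⟨PresentedGroup.toGroup hy, fun i j a h => ?_⟩
  have : PresentedGroup.toGroup hy (PresentedGroup.of (rels := stRels I) (i, j, a)) = y (i, j, a) :=
    PresentedGroup.toGroup.of hy
  exact this.trans (by simp [y, h])

theorem hom_ext {I : Ideal R} {H : Type} [Group H] {f g : St I →* H}
    (h : ∀ i j a, Leg I i j a → f (X I i j a) = g (X I i j a)) : f = g := by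
  refine MonoidHom.eq_of_eqOn_dense (closure_gens_X I) ?_
  rintro _ ⟨i, j, a, ha, rfl⟩
  exact h i j a ha

theorem StFam.map {I : Ideal R} {H H' : Type} [Group H] [Group H'] {x : Fin 5 → Fin 5 → R → H}
    (hx : StFam I x) (f : H →* H') : StFam I (fun i j a => f (x i j a)) where
  add i j a b ha hb := by rw [hx.add i j a b ha hb, map_mul]
  heis i j k a b hik ha hb := by rw [← map_commutatorElement, hx.heis i j k a b hik ha hb]
  comm i j k l a b h1 h2 ha hb := (hx.comm i j k l a b h1 h2 ha hb).map f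

theorem StFam.zero {I : Ideal R} {H : Type} [Group H] {x : Fin 5 → Fin 5 → R → H}
    (hx : StFam I x) {i j : Fin 5} (h : i ≠ j) : x i j 0 = 1 := by
  have := hx.add i j 0 0 (Leg.zero h) (Leg.zero h)
  rw [add_zero] at this
  exact left_eq_mul.mp this

theorem StFam.neg {I : Ideal R} {H : Type} [Group H] {x : Fin 5 → Fin 5 → R → H}
    (hx : StFam I x) {i j : Fin 5} {a : R} (h : Leg I i j a) : x i j (-a) = (x i j a)⁻¹ := by
  have := hx.add i j a (-a) h h.neg
  rw [add_neg_cancel, hx.zero h.1] at this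
  exact eq_inv_of_mul_eq_one_right this.symm

/-- Roots whose elements need not be commutators. -/
def Simple (i j : Fin 5) : Prop := (j : ℕ) = i + 1 ∨ ((i : ℕ) = 4 ∧ (j : ℕ) = 0)

instance (i j : Fin 5) : Decidable (Simple i j) := by unfold Simple; infer_instance

theorem not_simple_or (i j : Fin 5) : ¬ Simple i j ∨ ¬ Simple j i := by revert i j; decide

/-- A non simple root element is one commutator, and levels add up. -/
theorem exists_mid {i j : Fin 5} (h : i ≠ j) (hs : ¬ Simple i j) :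
    ∃ m : Fin 5, m ≠ i ∧ m ≠ j ∧ ((i < m ∧ (i < j → m < j)) ∨ (m < j ∧ (i < j → i < m))) := by
  revert i j; decide

theorem exists_dec {I : Ideal R} {i j : Fin 5} {a : R} (ha : Leg I i j a) (hs : ¬ Simple i j) :
    ∃ m a' a'', Leg I i m a' ∧ Leg I m j a'' ∧ a = a' * a'' := by
  obtain ⟨m, hi, hj, h⟩ := exists_mid ha.1 hs
  by_cases hij : i < j
  · rcases h with h | h
    · exact ⟨m, 1, a, leg_of_lt _ h.1, leg_of_lt _ (h.2 hij), (one_mul a).symm⟩
    · exact ⟨m, 1, a, leg_of_lt _ (h.2 hij), leg_of_lt _ h.1, (one_mul a).symm⟩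
  · have hI : a ∈ I := by have := ha.2; unfold sig at this; rwa [if_neg hij] at this
    rcases h with h | h
    · exact ⟨m, 1, a, leg_of_lt _ h.1, leg_of_mem hj hI, (one_mul a).symm⟩
    · exact ⟨m, a, 1, leg_of_mem hi.symm hI, leg_of_lt _ h.1, (mul_one a).symm⟩

variable {N : ℕ}

/-- Steinberg relations in the Lie algebra, with nilpotent values. -/
structure LieFam (I : Ideal R) (ν : Fin 5 → Fin 5 → R → Mat N) : Prop where
  add : ∀ i j a b, Leg I i j a → Leg I i j b → ν i j (a + b) = ν i j a + ν i j b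
  heis : ∀ i j k a b, i ≠ k → Leg I i j a → Leg I j k b →
    ν i j a * ν j k b - ν j k b * ν i j a = ν i k (a * b)
  comm : ∀ i j k l a b, j ≠ k → i ≠ l → Leg I i j a → Leg I k l b → Commute (ν i j a) (ν k l b)
  nil : ∀ i j a, Leg I i j a → IsNilpotent (ν i j a)

/-- A representation split into unipotent, elliptic and hyperbolic parts. -/
structure Tri (I : Ideal R) (N : ℕ) where
  ν : Fin 5 → Fin 5 → R → Mat N
  e : St I →* GLN N
  A : St I → Mat N

structure Tri.Good {I : Ideal R} (G : Subgroup (GLN N)) (T : Tri I N) : Prop where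
  lie : LieFam I T.ν
  νG : ∀ i j a, Leg I i j a → InLie G (T.ν i j a)
  eG : ∀ γ, T.e γ ∈ G
  AG : ∀ γ, InLie G (T.A γ)
  Aadd : ∀ γ δ, T.A (γ * δ) = T.A γ + T.A δ
  eA : ∀ γ δ, Commute (T.e γ : Mat N) (T.A δ)
  AA : ∀ γ δ, Commute (T.A γ) (T.A δ)
  eν : ∀ γ i j a, Leg I i j a → Commute (T.e γ : Mat N) (T.ν i j a)
  Aν : ∀ γ i j a, Leg I i j a → Commute (T.A γ) (T.ν i j a)
  ell : ∀ i j a, Leg I i j a → Ell (T.e (X I i j a))
  hyp : ∀ γ, Hyp (T.A γ)

def Tri.IsRep {I : Ideal R} (T : Tri I N) (ρ : St I → GLN N) : Prop :=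
  ∀ i j a, Leg I i j a →
    (ρ (X I i j a) : Mat N) = (T.e (X I i j a) : Mat N) * exp (T.A (X I i j a)) * exp (T.ν i j a)

/-- Complex points. -/
abbrev Pt (R : Type) [CommRing R] : Type := R →+* ℂ

noncomputable instance ptTop (R : Type) [CommRing R] : TopologicalSpace (Pt R) :=
  TopologicalSpace.induced (fun c : Pt R => (c : R → ℂ)) inferInstance

/-- The base point. -/
def org (ε : R →+* ℤ) : Pt R := (Int.castRingHom ℂ).comp ε

/-- Rescaled evaluation. -/
noncomputable def wt (lam : Pt R → ℝ) (i j : Fin 5) (a : R) (c : Pt R) : ℂ :=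
  (lam c : ℂ) ^ ((j : ℤ) - (i : ℤ)) * c a

structure Lam (ε : R →+* ℤ) (lam : Pt R → ℝ) : Prop where
  pos : ∀ c, c ≠ org ε → 0 < lam c
  zero : lam (org ε) = 0
  cont : ∀ i j a, Leg (RingHom.ker ε) i j a → Continuous fun c => wt lam i j a c

/-- Normal form data. -/
structure NF (ε : R →+* ℤ) (N : ℕ) (κ : Type) where
  c : κ → Pt R
  L : κ → Fin 5 → Fin 5 → Mat N
  e : St (RingHom.ker ε) →* GLN N
  A : St (RingHom.ker ε) → Mat N

structure NF.Good {ε : R →+* ℤ} {κ : Type} (G : Subgroup (GLN N)) (D : NF ε N κ) : Prop where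
  gl : GlFam D.L
  star : ∀ k a b, (D.L k a b)ᴴ = D.L k b a
  LG : ∀ k a b, InLie G (D.L k a b)
  eG : ∀ γ, D.e γ ∈ G
  eU : ∀ γ, Uni (D.e γ)
  AG : ∀ γ, InLie G (D.A γ)
  AH : ∀ γ, (D.A γ).IsHermitian
  Aadd : ∀ γ δ, D.A (γ * δ) = D.A γ + D.A δ
  eA : ∀ γ δ, Commute (D.e γ : Mat N) (D.A δ)
  AA : ∀ γ δ, Commute (D.A γ) (D.A δ)
  eL : ∀ γ k a b, Commute (D.e γ : Mat N) (D.L k a b)
  AL : ∀ γ k a b, Commute (D.A γ) (D.L k a b)

noncomputable def NF.tri {ε : R →+* ℤ} {κ : Type} [Fintype κ] (lam : Pt R → ℝ) (D : NF ε N κ) :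
    Tri (RingHom.ker ε) N :=
  ⟨fun i j a => ∑ k, wt lam i j a (D.c k) • D.L k i j, D.e, D.A⟩

/-- Move the points by `f` and scale the hyperbolic part by `s`. -/
noncomputable def NF.deform {ε : R →+* ℤ} {κ : Type} (D : NF ε N κ) (f : Pt R → Pt R) (s : ℝ) :
    NF ε N κ :=
  ⟨fun k => f (D.c k), D.L, D.e, fun γ => (s : ℂ) • D.A γ⟩

/-- A contraction of the complex points to the base point. -/
def Contr (ε : R →+* ℤ) : Prop :=
  ∃ h : C(Pt R × unitInterval, Pt R),
    (∀ c, h (c, 0) = c) ∧ (∀ c, h (c, 1) = org ε) ∧ ∀ t, h (org ε, t) = org ε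

end Net

/-- Complex points of the affine Stanley Reisner scheme of the complex generated by the faces
(bit masks) in `L`. -/
def VV (L : List ℕ) : Set (Fin 19 → ℂ) :=
  {x | ∑ i, x i = 1 ∧ ∃ ρ ∈ L, ∀ i : Fin 19, x i ≠ 0 → ρ.testBit i = true}

/-- The 90 facets. Vertices: `p = 0`, `s l = 1 + l`, `x i l = 4 + 3 l + i`, `y j l = 13 + 2 l + j`. -/
def L0 : List ℕ :=
  [8214, 8230, 8262, 9249, 9250, 10305, 10306, 12305, 12306, 16406, 16422, 16454,
   17441, 17442, 18497, 18498, 20497, 20498, 32908, 32913, 32916, 33036, 33057, 33060,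
   33292, 33345, 33348, 40977, 40980, 40993, 40996, 41025, 41028, 65676, 65681, 65684,
   65804, 65825, 65828, 66060, 66113, 66116, 81937, 81940, 81953, 81956, 81985, 81988,
   132106, 132225, 132232, 133130, 133377, 133384, 135178, 135681, 135688, 148481, 148482, 149505,
   149506, 151553, 151554, 163969, 163976, 164097, 164104, 164353, 164360, 263178, 263297, 263304,
   264202, 264449, 264456, 266250, 266753, 266760, 271361, 271362, 272385, 272386, 274433, 274434,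
   327809, 327816, 327937, 327944, 328193, 328200]

end Pool.Agent.MP_94b95a_al.Fl

end MrgPart0

-- ======== part 1: formerly Pool.Agent.MP_94b95a_al.fl.Spec
section MrgPart1

/-! PROJECT FLAW: statements of the modules. -/

namespace Pool.Agent.MP_94b95a_al.Fl

open NormedSpace Matrix Filter Topology
open scoped commutatorElement

/-! ### Jordan decomposition and Lie algebra -/

def LogStmt : Prop := ∀ N : ℕ, ∃ ℓ : Polynomial ℂ,
  (∀ ν : Mat N, IsNilpotent ν → Polynomial.aeval (exp ν) ℓ = ν) ∧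
  ∀ u : Mat N, IsNilpotent (u - 1) →
    IsNilpotent (Polynomial.aeval u ℓ) ∧ exp (Polynomial.aeval u ℓ) = u

def JexStmt : Prop := ∀ (N : ℕ) (g : GLN N), ∃ (e : GLN N) (A ν : Mat N), JD g e A ν ∧
  (e : Mat N) ∈ Algebra.adjoin ℂ {(g : Mat N)} ∧ A ∈ Algebra.adjoin ℂ {(g : Mat N)} ∧
  ν ∈ Algebra.adjoin ℂ {(g : Mat N)} ∧
  (∀ G : Subgroup (GLN N), Alg G → g ∈ G → e ∈ G ∧ InLie G A ∧ InLie G ν) ∧
  ∀ η ζ : Mat N, (g : Mat N) * η = (η + ζ) * (g : Mat N) → Commute (g : Mat N) ζ →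
    Commute (e : Mat N) η ∧ Commute A η ∧ ν * η - η * ν = ζ

def JunStmt : Prop := ∀ (N : ℕ) (g e e' : GLN N) (A ν A' ν' : Mat N),
  JD g e A ν → JD g e' A' ν' → e = e' ∧ A = A' ∧ ν = ν'

/-- Small facts on elliptic and hyperbolic elements. -/
structure EllStmt : Prop where
  ell_one : ∀ N, Ell (1 : GLN N)
  ell_mul : ∀ N (e e' : GLN N), Ell e → Ell e' → Commute e e' → Ell (e * e')
  ell_inv : ∀ N (e : GLN N), Ell e → Ell e⁻¹
  ell_conj : ∀ N (e g : GLN N), Ell e → Ell (g * e * g⁻¹)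
  ell_uni : ∀ N (e : GLN N), Uni e → Ell e
  hyp_zero : ∀ N, Hyp (0 : Mat N)
  hyp_add : ∀ N (A B : Mat N), Hyp A → Hyp B → Commute A B → Hyp (A + B)
  hyp_smul : ∀ N (A : Mat N) (s : ℝ), Hyp A → Hyp ((s : ℂ) • A)
  hyp_conj : ∀ N (A : Mat N) (g : GLN N), Hyp A →
    Hyp ((g : Mat N) * A * ((g⁻¹ : GLN N) : Mat N))
  hyp_herm : ∀ N (A : Mat N), A.IsHermitian → Hyp A
  herm_of_uni : ∀ N (A : Mat N),
    (∀ t : ℝ, (exp ((Complex.I * t) • A))ᴴ * exp ((Complex.I * t) • A) = 1) → A.IsHermitian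
  jd_conj : ∀ N (g e h : GLN N) (A ν : Mat N), JD g e A ν →
    JD (h * g * h⁻¹) (h * e * h⁻¹) ((h : Mat N) * A * ((h⁻¹ : GLN N) : Mat N))
      ((h : Mat N) * ν * ((h⁻¹ : GLN N) : Mat N))
  jd_mul : ∀ N (g e g' e' : GLN N) (A ν A' ν' : Mat N), JD g e A ν → JD g' e' A' ν' →
    (∀ x ∈ ({(e : Mat N), A, ν} : Set (Mat N)), ∀ y ∈ ({(e' : Mat N), A', ν'} : Set (Mat N)),
      Commute x y) → JD (g * g') (e * e') (A + A') (ν + ν')
  uni_bdd : ∀ N (g : GLN N), Uni g → ∀ a b, ‖(g : Mat N) a b‖ ≤ 1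
  gl_tendsto : ∀ N (ι : Type) (F : Filter ι) (g : ι → GLN N) (g₀ : GLN N),
    Tendsto (fun m => (g m : Mat N)) F (𝓝 (g₀ : Mat N)) → Tendsto g F (𝓝 g₀)
  exp_cont : ∀ N, Continuous (fun A : Mat N => exp A)
  ulim : ∀ N (ι : Type) (U : Ultrafilter ι) (x : ι → Mat N) (C : ℝ),
    (∀ᶠ m in (U : Filter ι), ∀ a b, ‖x m a b‖ ≤ C) → ∃ y, Tendsto x U (𝓝 y)

structure LieStmt : Prop where
  closedG : ∀ N (G : Subgroup (GLN N)), Alg G → ∀ g : GLN N,
    (g : Mat N) ∈ closure {m | InG G m} → g ∈ G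
  closedL : ∀ N (G : Subgroup (GLN N)), Alg G → IsClosed {X | InLie G X}
  zero : ∀ N (G : Subgroup (GLN N)), InLie G 0
  add : ∀ N (G : Subgroup (GLN N)), Alg G → ∀ X Y, InLie G X → InLie G Y → InLie G (X + Y)
  smul : ∀ N (G : Subgroup (GLN N)) (z : ℂ) X, InLie G X → InLie G (z • X)
  br : ∀ N (G : Subgroup (GLN N)), Alg G → ∀ X Y, InLie G X → InLie G Y → InLie G (X * Y - Y * X)
  conj : ∀ N (G : Subgroup (GLN N)) (g : GLN N) X, g ∈ G → InLie G X →
    InLie G ((g : Mat N) * X * ((g⁻¹ : GLN N) : Mat N))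
  star : ∀ N (G : Subgroup (GLN N)), SA G → ∀ X, InLie G X → InLie G Xᴴ
  span : ∀ N (G : Subgroup (GLN N)), Alg G → ∀ (S : Set (Mat N)), (∀ X ∈ S, InLie G X) →
    ∀ X ∈ Submodule.span ℂ S, InLie G X
  centSA : ∀ N (G : Subgroup (GLN N)) (S : Set (Mat N)), SA G → (∀ s ∈ S, sᴴ ∈ S) → SA (cent G S)
  centL : ∀ N (G : Subgroup (GLN N)) (S : Set (Mat N)) X,
    InLie (cent G S) X ↔ InLie G X ∧ ∀ s ∈ S, Commute X s

def PolStmt : Prop := ∀ (N : ℕ) (G : Subgroup (GLN N)), SA G → ∀ g ∈ G,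
  ∃ k ∈ G, ∃ X : Mat N, Uni k ∧ X.IsHermitian ∧ InLie G X ∧ (g : Mat N) = (k : Mat N) * exp X

def RatStmt : Prop := ∀ (N : ℕ) (G : Subgroup (GLN N)), Alg G →
  ∀ (ι : Type) (U : Ultrafilter ι) (u : ι → Mat N) (u₀ : Mat N) (D : ι → Fin N → ℝ),
    (∀ m, (u m)ᴴ * u m = 1) → Tendsto u U (𝓝 u₀) →
    (∀ m, InLie G (u m * diagonal (fun a => (D m a : ℂ)) * (u m)ᴴ)) →
    ∀ᶠ m in (U : Filter ι), InLie G (u₀ * diagonal (fun a => (D m a : ℂ)) * u₀ᴴ)

/-! ### Kempf Ness -/

def MinStmt : Prop := ∀ (N : ℕ) (G : Subgroup (GLN N)), SA G →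
  ∀ (ι : Type) [Fintype ι] (x : ι → Mat N), (∀ j, InLie G (x j)) →
    ∃ y ∈ closure (orb G x), mu y = 0

def MuMinStmt : Prop := ∀ (N : ℕ) (G : Subgroup (GLN N)), SA G →
  ∀ (ι : Type) [Fintype ι] (x : ι → Mat N), mu x = 0 → IsMinV G x

def ClosedStmt : Prop := ∀ (N : ℕ) (G : Subgroup (GLN N)), SA G →
  ∀ (ι : Type) [Fintype ι] (x : ι → Mat N), IsMinV G x → IsClosed (orb G x)

def SepStmt : Prop := ∀ (N : ℕ) (G : Subgroup (GLN N)), SA G →
  ∀ (ι : Type) [Fintype ι] (x y : ι → Mat N), IsMinV G x → IsMinV G y →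
    ∀ (τ : Type) (U : Ultrafilter τ) (xs : τ → ι → Mat N) (g : τ → GLN N), (∀ m, g m ∈ G) →
      Tendsto xs U (𝓝 x) → Tendsto (fun m => cj (g m) (xs m)) U (𝓝 y) → y ∈ orb G x

def UnitStmt : Prop := ∀ (N : ℕ) (G C : Subgroup (GLN N)), SA G → C ≤ G →
  BddM {m | InG C m} → ∃ g ∈ G, ∀ c ∈ C, Uni (g * c * g⁻¹)

def NilStmt : Prop := ∀ (N : ℕ) (ι : Type) [Fintype ι] (x : ι → Mat N), mu x = 0 →
  ∀ M : Set (Mat N), (∀ m ∈ M, m ∈ Algebra.adjoin ℂ (Set.range x)) → (∀ m ∈ M, IsNilpotent m) →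
    (∀ m ∈ M, ∀ m' ∈ M, Commute m m') →
    (∀ j, ∀ m ∈ M, x j * m - m * x j ∈ Submodule.span ℂ M) → ∀ m ∈ M, m = 0

def BochStmt : Prop := ∀ (N : ℕ) (κ : Type) [Fintype κ] (L : κ → Fin 5 → Fin 5 → Mat N),
  GlFam L → mu (fun p : κ × Fin 5 × Fin 5 => L p.1 p.2.1 p.2.2) = 0 →
    ∀ k a b, (L k a b)ᴴ = L k b a

def ClRepStmt : Prop := ∀ (N : ℕ) (G : Subgroup (GLN N)), SA G →
  ∀ (Γ : Type) [Group Γ] (ρ : Rep Γ G),
    (∀ γ, (ρ.1 γ : Mat N)ᴴ ∈ Submodule.span ℂ (Set.range fun δ => (ρ.1 δ : Mat N))) →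
    IsClosed {ρ' : Rep Γ G | Conj ρ ρ'}

def SepRepStmt : Prop := ∀ (N : ℕ) (G : Subgroup (GLN N)), SA G →
  ∀ (Γ : Type) [Group Γ], Group.FG Γ → ∀ (ρ ρ' : Rep Γ G),
    IsClosed {σ : Rep Γ G | Conj ρ σ} → IsClosed {σ : Rep Γ G | Conj ρ' σ} →
    ∀ (τ : Type) (U : Ultrafilter τ) (ρs σs : τ → Rep Γ G), (∀ m, Conj (ρs m) (σs m)) →
      Tendsto ρs U (𝓝 ρ) → Tendsto σs U (𝓝 ρ') → Conj ρ ρ'

/-! ### Group theory -/

def FpAStmt : Prop := ∀ m : ℕ, Group.IsFinitelyPresented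
  (St (RingHom.ker (MvPolynomial.constantCoeff : MvPolynomial (Fin m) ℤ →+* ℤ)))

def FpStmt : Prop := ∀ (R : Type) [CommRing R] [Algebra.FiniteType ℤ R] (ε : R →+* ℤ),
  Group.IsFinitelyPresented (St (RingHom.ker ε))

def SemiStmt : Prop := ∀ (Γ Q : Type) [Group Γ] [Group Q] [Finite Q] (ψ : Q →* MulAut Γ),
  Group.IsFinitelyPresented Γ → Group.IsFinitelyPresented (Γ ⋊[ψ] Q)

def ActStmt : Prop := ∀ (R : Type) [CommRing R] (ε : R →+* ℤ) (Q : Type) [Group Q]
  (φ : Q →* RingAut R), (∀ q a, ε (φ q a) = ε a) →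
    ∃ ψ : Q →* MulAut (St (RingHom.ker ε)),
      ∀ q i j a, ψ q (X (RingHom.ker ε) i j a) = X (RingHom.ker ε) i j (φ q a)

def FiltStmt : Prop := ∀ (R : Type) [CommRing R] (I : Ideal R) (H : Type) [Group H]
  (x : Fin 5 → Fin 5 → R → H), StFam I x → ∀ k : ℤ, (∀ s ∈ levSet I x (k + 1), s = 1) →
    ∀ s ∈ levSet I x k, ∀ g ∈ gens I x, Commute s g

def Fin0Stmt : Prop := ∀ (R : Type) [CommRing R] (I : Ideal R) (H : Type) [Group H]
  (x : Fin 5 → Fin 5 → R → H), StFam I x → Subgroup.closure (gens I x) = ⊤ →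
    (∀ i j, (rootSet I x i j).Finite) →
    (∃ K : ℕ, ∀ i j a, Leg I i j a → a ∈ I ^ K → x i j a = 1) → Finite H

def Fin1Stmt : Prop := ∀ (R : Type) [CommRing R] (H : Type) [Group H]
  (x : Fin 5 → Fin 5 → R → H), StFam ⊤ x → Subgroup.closure (gens ⊤ x) = ⊤ →
    (∀ i j, (rootSet ⊤ x i j).Finite) → Finite H

def FinStmt : Prop := ∀ (R : Type) [CommRing R] (ε : R →+* ℤ) (H : Type) [Group H]
  (x : Fin 5 → Fin 5 → R → H), StFam (RingHom.ker ε) x →
    Subgroup.closure (gens (RingHom.ker ε) x) = ⊤ →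
    (∀ i j, (rootSet (RingHom.ker ε) x i j).Finite) → Finite H

def HordStmt : Prop := ∀ (N : ℕ) (x y : GLN N), Commute ⁅x, y⁆ x → Commute ⁅x, y⁆ y →
  Ell ⁅x, y⁆ → ⁅x, y⁆ ^ N.factorial = 1

def BurnStmt : Prop := ∀ (N : ℕ) (S : Subgroup (GLN N)) (M : ℕ), 0 < M →
  (∀ g ∈ S, g ^ M = 1) → Finite S

def BndStmt : Prop := ∀ (N : ℕ) (R : Type) [CommRing R] [Algebra.FiniteType ℤ R] (ε : R →+* ℤ)
  (e : St (RingHom.ker ε) →* GLN N),
    (∀ i j a, Leg (RingHom.ker ε) i j a → Ell (e (X (RingHom.ker ε) i j a))) →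
    BddM (Set.range fun γ => (e γ : Mat N))

/-! ### Splitting and normal forms -/

def SplitStmt : Prop := ∀ (N : ℕ) (G : Subgroup (GLN N)), Alg G →
  ∀ (R : Type) [CommRing R] (I : Ideal R) (ρ : Rep (St I) G),
    ∃ T : Tri I N, T.Good G ∧ T.IsRep ρ.1

def ExpFamStmt : Prop := ∀ (N : ℕ) (R : Type) [CommRing R] (I : Ideal R)
  (ν : Fin 5 → Fin 5 → R → Mat N), LieFam I ν →
    ∃ x : Fin 5 → Fin 5 → R → GLN N, StFam I x ∧ ∀ i j a, (x i j a : Mat N) = exp (ν i j a)

def TriRepStmt : Prop := ∀ (N : ℕ) (G : Subgroup (GLN N)) (R : Type) [CommRing R] (I : Ideal R)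
  (T : Tri I N), T.Good G → ∃ ρ : Rep (St I) G, T.IsRep ρ.1

def RepLimStmt : Prop := ∀ (N : ℕ) (G : Subgroup (GLN N)) (R : Type) [CommRing R] (I : Ideal R)
  (τ : Type) (F : Filter τ) (ρs : τ → Rep (St I) G) (ρ : Rep (St I) G),
    (∀ i j a, Leg I i j a → Tendsto (fun m => ((ρs m).1 (X I i j a) : Mat N)) F
      (𝓝 (ρ.1 (X I i j a) : Mat N))) → Tendsto ρs F (𝓝 ρ)

def RepExtStmt : Prop := ∀ (N : ℕ) (R : Type) [CommRing R] (I : Ideal R)
  (G : Subgroup (GLN N)) (ρ ρ' : Rep (St I) G) (g : GLN N),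
    (∀ i j a, Leg I i j a → (ρ'.1 (X I i j a) : Mat N) =
      (g : Mat N) * (ρ.1 (X I i j a) : Mat N) * ((g⁻¹ : GLN N) : Mat N)) →
    ∀ γ, ρ'.1 γ = g * ρ.1 γ * g⁻¹

def NuStmt : Prop := ∀ N : ℕ, ∃ ℓ : Polynomial ℂ, ∀ (G : Subgroup (GLN N)) (R : Type) [CommRing R]
  (I : Ideal R) (T : Tri I N) (ρ : St I → GLN N), T.Good G → T.IsRep ρ →
    ∀ i j a b, i ≠ j → a ∈ I → b ∈ I →
      T.ν i j (a * b) = Polynomial.aeval (ρ (X I i j (a * b)) : Mat N) ℓ

def GlRelStmt : Prop := ∀ (N : ℕ) (κ : Type) (L : κ → Fin 5 → Fin 5 → Mat N), OffFam L →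
  ∃ L' : κ → Fin 5 → Fin 5 → Mat N, GlFam L' ∧ (∀ k i j, i ≠ j → L' k i j = L k i j) ∧
    ∀ k a, L' k a a = (1 / 5 : ℂ) • ∑ b, (L k a b * L k b a - L k b a * L k a b)

def Ph2Stmt : Prop := ∀ (N : ℕ) (R : Type) [CommRing R] (I : Ideal R)
  (ν : Fin 5 → Fin 5 → R → Mat N), LieFam I ν →
    (∃ K : ℕ, ∀ i j a, Leg I i j a → a ∈ I ^ K → ν i j a = 0) →
    (∀ m ∈ Algebra.adjoin ℂ (gens I ν), IsNilpotent m → (∀ y ∈ gens I ν, Commute m y) → m = 0) →
    ∀ i j a, Leg I i j a → ν i j a = 0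

def Ph1Stmt : Prop := ∀ (N : ℕ) (R : Type) [CommRing R] (J : Ideal R)
  (ν : Fin 5 → Fin 5 → R → Mat N), LieFam ⊤ ν →
    (∃ K : ℕ, ∀ i j a, i ≠ j → a ∈ J ^ K → ν i j a = 0) →
    (∀ M : Set (Mat N), (∀ m ∈ M, m ∈ Algebra.adjoin ℂ (gens ⊤ ν)) → (∀ m ∈ M, IsNilpotent m) →
      (∀ m ∈ M, ∀ m' ∈ M, Commute m m') →
      (∀ y ∈ gens ⊤ ν, ∀ m ∈ M, y * m - m * y ∈ Submodule.span ℂ M) → ∀ m ∈ M, m = 0) →
    ∀ i j a, i ≠ j → a ∈ J → ν i j a = 0

def PhaseStmt : Prop := ∀ (N : ℕ) (S : Type) [CommRing S] [Algebra ℂ S] (ε : S →ₐ[ℂ] ℂ)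
  (ν : Fin 5 → Fin 5 → S →ₗ[ℂ] Mat N), LieFam (RingHom.ker ε) (fun i j a => ν i j a) →
    ∀ (ι : Type) [Fintype ι] (x : ι → Mat N), mu x = 0 →
    Submodule.span ℂ (Set.range x) =
      Submodule.span ℂ (gens (RingHom.ker ε) (fun i j a => ν i j a)) →
    ∃ (r : ℕ) (φ : Fin r → S →ₐ[ℂ] ℂ) (L : Fin r → Fin 5 → Fin 5 → Mat N),
      (∀ k, φ k ≠ ε) ∧ OffFam L ∧
      (∀ i j a, Leg (RingHom.ker ε) i j a → ν i j a = ∑ k, φ k a • L k i j) ∧
      (∀ k i j, i ≠ j → ∃ b, Leg (RingHom.ker ε) i j b ∧ L k i j = ν i j b) ∧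
      ∀ k, ∃ i j, i ≠ j ∧ L k i j ≠ 0

def PointsStmt : Prop := ∀ (N : ℕ) (R : Type) [CommRing R] (ε : R →+* ℤ)
  (ν : Fin 5 → Fin 5 → R → Mat N), LieFam (RingHom.ker ε) ν →
    ∀ (ι : Type) [Fintype ι] (x : ι → Mat N), mu x = 0 →
    Submodule.span ℂ (Set.range x) = Submodule.span ℂ (gens (RingHom.ker ε) ν) →
    ∃ (r : ℕ) (c : Fin r → Pt R) (L : Fin r → Fin 5 → Fin 5 → Mat N),
      (∀ k, c k ≠ org ε) ∧ OffFam L ∧
      (∀ i j a, Leg (RingHom.ker ε) i j a → ν i j a = ∑ k, c k a • L k i j) ∧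
      (∀ k i j, i ≠ j → L k i j ∈ Submodule.span ℂ (gens (RingHom.ker ε) ν)) ∧
      ∀ k, ∃ i j, i ≠ j ∧ L k i j ≠ 0

/-- Facts on `gl_5` families. -/
structure GlStmt : Prop where
  count : ∀ (N : ℕ) (κ : Type) [Fintype κ] (L : κ → Fin 5 → Fin 5 → Mat N), GlFam L →
    (∀ k, ∃ i j, i ≠ j ∧ L k i j ≠ 0) → 20 * Fintype.card κ ≤ N * N
  off : ∀ (N : ℕ) (κ : Type) (L : κ → Fin 5 → Fin 5 → Mat N), GlFam L →
    ∀ k, L k ≠ 0 → ∀ i j, i ≠ j → L k i j ≠ 0
  nil : ∀ (N : ℕ) (κ : Type) [Fintype κ] (L : κ → Fin 5 → Fin 5 → Mat N), GlFam L →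
    ∀ (z : κ → ℂ) i j, i ≠ j → IsNilpotent (∑ k, z k • L k i j)
  upper : ∀ N : ℕ, ∃ C : ℝ, ∀ (κ : Type) (L : κ → Fin 5 → Fin 5 → Mat N), GlFam L →
    (∀ k a b, (L k a b)ᴴ = L k b a) → ∀ k a b p q, ‖L k a b p q‖ ≤ C
  lower : ∀ (N : ℕ) (κ : Type) (L : κ → Fin 5 → Fin 5 → Mat N), GlFam L →
    (∀ k a b, (L k a b)ᴴ = L k b a) → ∀ k i j, i ≠ j → L k i j ≠ 0 →
      ∃ w : ℝ, 1 / 2 ≤ w ∧ (L k i j * L k j i).trace = (w : ℂ)
  cross : ∀ (N : ℕ) (κ : Type) (L : κ → Fin 5 → Fin 5 → Mat N), GlFam L →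
    ∀ k k' i j, k ≠ k' → i ≠ j → (L k i j * L k' j i).trace = 0

def LamStmt : Prop := ∀ (R : Type) [CommRing R] [Algebra.FiniteType ℤ R] (ε : R →+* ℤ),
  ∃ lam : Pt R → ℝ, Lam ε lam

def FunStmt : Prop := ∀ (R : Type) [CommRing R] (ε : R →+* ℤ) (lam : Pt R → ℝ), Lam ε lam →
  ∀ (κ : Type) [Fintype κ] (c : κ → Pt R) (φ : Pt R → ℂ), φ (org ε) = 0 → ∀ i j : Fin 5, i ≠ j →
    ∃ (s : Finset R) (z : R → ℂ), (∀ b ∈ s, b ∈ RingHom.ker ε) ∧
      ∀ k, ∑ b ∈ s, z b * wt lam i j b (c k) = φ (c k)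

def NfTriStmt : Prop := ∀ (N : ℕ) (G : Subgroup (GLN N)), Alg G →
  ∀ (R : Type) [CommRing R] (ε : R →+* ℤ) (lam : Pt R → ℝ), Lam ε lam →
  ∀ (κ : Type) [Fintype κ] (D : NF ε N κ), D.Good G → (D.tri lam).Good G

def WdStmt : Prop := ∀ (N : ℕ) (G : Subgroup (GLN N)), Alg G →
  ∀ (R : Type) [CommRing R] (ε : R →+* ℤ) (lam : Pt R → ℝ), Lam ε lam →
  ∀ (κ κ' : Type) [Fintype κ] [Fintype κ'] (D : NF ε N κ) (D' : NF ε N κ'),
    D.Good G → D'.Good G → ∀ (f : Pt R → Pt R) (s : ℝ), f (org ε) = org ε →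
    ∀ ρ ρ' ρ₁ ρ₁' : Rep (St (RingHom.ker ε)) G,
      (D.tri lam).IsRep ρ.1 → (D'.tri lam).IsRep ρ'.1 →
      ((D.deform f s).tri lam).IsRep ρ₁.1 → ((D'.deform f s).tri lam).IsRep ρ₁'.1 →
      Conj ρ ρ' → Conj ρ₁ ρ₁'

def ClNfStmt : Prop := ∀ (N : ℕ) (G : Subgroup (GLN N)), SA G →
  ∀ (R : Type) [CommRing R] (ε : R →+* ℤ) (lam : Pt R → ℝ), Lam ε lam →
  ∀ (κ : Type) [Fintype κ] (D : NF ε N κ), D.Good G →
    ∀ ρ : Rep (St (RingHom.ker ε)) G, (D.tri lam).IsRep ρ.1 →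
      IsClosed {ρ' : Rep (St (RingHom.ker ε)) G | Conj ρ ρ'}

/-- First half of the normal form: unitary elliptic part, Hermitian hyperbolic part. -/
def NfAStmt : Prop := ∀ (N : ℕ) (G : Subgroup (GLN N)), SA G →
  ∀ (R : Type) [CommRing R] [Algebra.FiniteType ℤ R] (ε : R →+* ℤ)
    (ρ : Rep (St (RingHom.ker ε)) G),
    ∃ (T : Tri (RingHom.ker ε) N) (ρ' : Rep (St (RingHom.ker ε)) G), T.Good G ∧ T.IsRep ρ'.1 ∧
      Conj ρ ρ' ∧ (∀ γ, Uni (T.e γ)) ∧ ∀ γ, (T.A γ).IsHermitian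

/-- Degeneration step: conjugate the unipotent part inside the centralizer until a given finite
spanning family has `mu = 0`. The limit is given by a linear map `P` on matrices. -/
def DegStmt : Prop := ∀ (N : ℕ) (G : Subgroup (GLN N)), SA G →
  ∀ (R : Type) [CommRing R] (I : Ideal R) (T : Tri I N) (ρ : Rep (St I) G), T.Good G →
    T.IsRep ρ.1 → (∀ γ, Uni (T.e γ)) → (∀ γ, (T.A γ).IsHermitian) →
    ∀ (ι : Type) [Fintype ι] (x : ι → Mat N), (∀ j, InLie G (x j)) →
      (∀ j γ, Commute (T.e γ : Mat N) (x j)) → (∀ j γ, Commute (T.A γ) (x j)) →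
      (∀ y ∈ gens I T.ν, y ∈ Submodule.span ℂ (Set.range x)) →
    ∃ (P : Mat N →ₗ[ℂ] Mat N) (ρ' : Rep (St I) G),
      mu (fun j => P (x j)) = 0 ∧
      (∀ y ∈ Algebra.adjoin ℂ (Set.range x), ∀ y' ∈ Algebra.adjoin ℂ (Set.range x),
        P (y * y') = P y * P y') ∧
      (∀ j, InLie G (P (x j))) ∧ (∀ j γ, Commute (T.e γ : Mat N) (P (x j))) ∧
      (∀ j γ, Commute (T.A γ) (P (x j))) ∧
      (Tri.mk (fun i j a => P (T.ν i j a)) T.e T.A).Good G ∧
      (Tri.mk (fun i j a => P (T.ν i j a)) T.e T.A).IsRep ρ'.1 ∧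
      ρ' ∈ closure {σ : Rep (St I) G | Conj ρ σ}

def NfexStmt : Prop := ∀ (N : ℕ) (G : Subgroup (GLN N)), SA G →
  ∀ (R : Type) [CommRing R] [Algebra.FiniteType ℤ R] (ε : R →+* ℤ) (lam : Pt R → ℝ), Lam ε lam →
  ∀ ρ : Rep (St (RingHom.ker ε)) G,
    ∃ (D : NF ε N (Fin (N * N))) (ρ' : Rep (St (RingHom.ker ε)) G), D.Good G ∧
      (∀ k, D.L k = 0 → D.c k = org ε) ∧ (D.tri lam).IsRep ρ'.1 ∧
      ρ' ∈ closure {σ : Rep (St (RingHom.ker ε)) G | Conj ρ σ}

def ContStmt : Prop := ∀ (N : ℕ) (G : Subgroup (GLN N)), Alg G →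
  ∀ (R : Type) [CommRing R] (ε : R →+* ℤ) (lam : Pt R → ℝ), Lam ε lam →
  ∀ (κ : Type) [Fintype κ] (τ : Type) (U : Ultrafilter τ) (Ds : τ → NF ε N κ)
    (ρs σs : τ → Rep (St (RingHom.ker ε)) G) (ρ : Rep (St (RingHom.ker ε)) G),
    (∀ m, (Ds m).Good G) → (∀ m k, (Ds m).L k = 0 → (Ds m).c k = org ε) →
    (∀ m, ((Ds m).tri lam).IsRep (σs m).1) → (∀ m, Conj (ρs m) (σs m)) →
    Tendsto ρs U (𝓝 ρ) →
    ∃ D : NF ε N κ, D.Good G ∧ (∀ k, Tendsto (fun m => (Ds m).c k) U (𝓝 (D.c k))) ∧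
      (∀ k a b, Tendsto (fun m => (Ds m).L k a b) U (𝓝 (D.L k a b))) ∧
      (∀ γ, Tendsto (fun m => ((Ds m).e γ : Mat N)) U (𝓝 (D.e γ : Mat N))) ∧
      ∀ γ, Tendsto (fun m => (Ds m).A γ) U (𝓝 (D.A γ))

/-- Bound for the hyperbolic part. -/
def HypBdStmt : Prop := ∀ (N : ℕ) (C : ℝ), ∃ C' : ℝ, ∀ (g e h : GLN N) (A ν : Mat N),
  JD (h * g * h⁻¹) e A ν → A.IsHermitian →
    (∀ a b, ‖(g : Mat N) a b‖ ≤ C) → (∀ a b, ‖((g⁻¹ : GLN N) : Mat N) a b‖ ≤ C) →
    ∀ a b, ‖A a b‖ ≤ C'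

def FlawStmt : Prop := ∀ (R : Type) [CommRing R] [Algebra.FiniteType ℤ R] (ε : R →+* ℤ),
  Contr ε → ∀ (N : ℕ) (G K : Subgroup (GLN N)), SA G → IsMaxCompact G K →
    IsSDR (CompactPart (St (RingHom.ker ε)) G K)

/-- Closed connected groups with a Zariski dense compact subgroup. -/
def RedB {N : ℕ} (G : Subgroup (GL (Fin N) ℂ)) : Prop :=
  (∃ S : Set (MvPolynomial (Fin N × Fin N) ℂ), ∀ g, g ∈ G ↔ ∀ p ∈ S, ev g p = 0) ∧
    IsConnected (G : Set (GL (Fin N) ℂ)) ∧
    ∃ C : Subgroup (GL (Fin N) ℂ), C ≤ G ∧ IsCompact (C : Set (GL (Fin N) ℂ)) ∧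
      ∀ p, (∀ c ∈ C, ev c p = 0) → ∀ g ∈ G, ev g p = 0

/-- Such groups are conjugate to self adjoint groups. -/
def RedStmt : Prop := ∀ (N : ℕ) (G : Subgroup (GLN N)), RedB G →
  ∃ h : GLN N, SA (G.map (MulAut.conj h).toMonoidHom)

/-- Transport of the whole question along a conjugation. -/
structure TransStmt : Prop where
  maxc : ∀ (N : ℕ) (G K : Subgroup (GLN N)) (h : GLN N), IsMaxCompact G K →
    IsMaxCompact (G.map (MulAut.conj h).toMonoidHom) (K.map (MulAut.conj h).toMonoidHom)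
  sdr : ∀ (Γ : Type) [Group Γ] (N : ℕ) (G K : Subgroup (GLN N)) (h : GLN N),
    IsSDR (CompactPart Γ (G.map (MulAut.conj h).toMonoidHom) (K.map (MulAut.conj h).toMonoidHom)) →
      IsSDR (CompactPart Γ G K)

/-! ### The example -/

def TopAStmt : Prop := ∃ h : C(VV L0 × unitInterval, VV L0),
  (∀ x, h (x, 0) = x) ∧ (∀ x, (h (x, 1)).1 = Pi.single 0 1) ∧
    ∀ x t, x.1 = Pi.single 0 1 → h (x, t) = x

def TopStmt : Prop := ∃ (R : Type) (_ : CommRing R) (_ : Algebra.FiniteType ℤ R) (ε : R →+* ℤ)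
  (Q : Type) (_ : Group Q) (_ : Finite Q) (φ : Q →* RingAut R) (u : R) (c₁ : Pt R),
    (∀ q a, ε (φ q a) = ε a) ∧ Contr ε ∧ ε u = 0 ∧ c₁ u = 1 ∧ (∀ q a, c₁ (φ q a) = c₁ a) ∧
    ∀ c : Pt R, (∀ q a, c (φ q a) = c a) → c u = 0 ∨ c u = 1

def Gl5Stmt : Prop := RedB (⊤ : Subgroup (GLN 5)) ∧
  ∃ K : Subgroup (GLN 5), IsMaxCompact ⊤ K ∧ ∀ g ∈ K, Uni g

/-- Maximal compact subgroups are the conjugates of the unitary part. -/
def MaxKStmt : Prop := ∀ (N : ℕ) (G K : Subgroup (GLN N)), SA G → IsMaxCompact G K →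
  ∃ g ∈ G, ∀ k ∈ G, (k ∈ K ↔ Uni (g * k * g⁻¹))

def NotFlawStmt : Prop := ∀ (R : Type) [CommRing R] [Algebra.FiniteType ℤ R] (ε : R →+* ℤ)
  (Q : Type) [Group Q] (φ : Q →* RingAut R) (ψ : Q →* MulAut (St (RingHom.ker ε))) (u : R)
  (c₁ : Pt R), (∀ q a, ε (φ q a) = ε a) →
    (∀ q i j a, ψ q (X (RingHom.ker ε) i j a) = X (RingHom.ker ε) i j (φ q a)) →
    ε u = 0 → c₁ u = 1 → (∀ q a, c₁ (φ q a) = c₁ a) →
    (∀ c : Pt R, (∀ q a, c (φ q a) = c a) → c u = 0 ∨ c u = 1) →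
    ∀ K : Subgroup (GLN 5), (∀ g ∈ K, Uni g) →
      ¬ IsSDR (CompactPart (St (RingHom.ker ε) ⋊[ψ] Q) ⊤ K)

end Pool.Agent.MP_94b95a_al.Fl

end MrgPart1

-- ======== part 2: formerly Pool.Agent.MP_94b95a_al.fl.MSpec
section MrgPart2

/-! PROJECT FLAW, part M: a reductive group (trivial unipotent radical) is conjugate to a self
adjoint group. -/

namespace Pool.Agent.MP_94b95a_al.Fl

open NormedSpace Matrix Filter Topology

variable {N : ℕ}

/-- Textbook definition: Zariski closed, connected, trivial unipotent radical. -/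
def RedC (G : Subgroup (GLN N)) : Prop :=
  Alg G ∧ IsConnected (G : Set (GLN N)) ∧
    ∀ U : Subgroup (GLN N), U ≤ G → Alg U → IsConnected (U : Set (GLN N)) →
      (∀ g ∈ G, ∀ u ∈ U, g * u * g⁻¹ ∈ U) → (∀ u ∈ U, IsNilpotent ((u : Mat N) - 1)) → U = ⊥

abbrev Op (N : ℕ) : Type := Mat N →ₗ[ℂ] Mat N

/-- Trace symmetric projector onto a Lie subalgebra. -/
structure GP (w : Op N) : Prop where
  idem : ∀ X, w (w X) = w X
  symm : ∀ X Y, (w X * Y).trace = (X * w Y).trace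
  lie : ∀ X Y, w (w X * w Y - w Y * w X) = w X * w Y - w Y * w X

/-- Conjugation as a linear map. -/
noncomputable def Ad (h : GLN N) : Op N :=
  LinearMap.mulLeftRight ℂ ((h : Mat N), ((h⁻¹ : GLN N) : Mat N))

noncomputable def act (h : GLN N) (w : Op N) : Op N := Ad h ∘ₗ w ∘ₗ Ad h⁻¹

/-- Diagonalizable with real eigenvalues. -/
def RD (A : Mat N) : Prop :=
  ∃ s : Finset ℝ, Polynomial.aeval A (∏ r ∈ s, (Polynomial.X - Polynomial.C (r : ℂ))) = 0

/-- Additive complete Jordan decomposition. -/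
structure AJ (X A B ν : Mat N) : Prop where
  eq : X = A + Complex.I • B + ν
  rdA : RD A
  rdB : RD B
  nil : IsNilpotent ν
  AB : Commute A B
  Aν : Commute A ν
  Bν : Commute B ν

/-- The range of `w` contains the Jordan parts of its elements. -/
def JC (w : Op N) : Prop := ∀ X A B ν, w X = X → AJ X A B ν → w A = A ∧ w B = B ∧ w ν = ν

def Pure (D : Fin N → ℝ) (c : ℝ) (X : Mat N) : Prop := ∀ a b, X a b ≠ 0 → D a - D b = c

def OPure (D : Fin N → ℝ) (c : ℝ) (φ : Op N) : Prop :=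
  ∀ a b p q, φ (single a b 1) p q ≠ 0 → (D p - D q) - (D a - D b) = c

def OPos (D : Fin N → ℝ) (φ : Op N) : Prop :=
  ∀ a b p q, φ (single a b 1) p q ≠ 0 → 0 < (D p - D q) - (D a - D b)

/-- Critical point of the norm on the orbit. -/
def Crit (w : Op N) : Prop := ∀ Y : Mat N, ∑ a, ∑ b,
  ((Y * w (single a b 1) - w (single a b 1) * Y - w (Y * single a b 1 - single a b 1 * Y)) *
    (w (single a b 1))ᴴ).trace = 0

structure AjStmt : Prop where
  ex : ∀ (N : ℕ) (X : Mat N), ∃ A B ν, AJ X A B ν ∧ A ∈ Algebra.adjoin ℂ {X} ∧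
    B ∈ Algebra.adjoin ℂ {X} ∧ ν ∈ Algebra.adjoin ℂ {X}
  un : ∀ (N : ℕ) (X A B ν A' B' ν' : Mat N), AJ X A B ν → AJ X A' B' ν' →
    A = A' ∧ B = B' ∧ ν = ν'
  lie : ∀ (N : ℕ) (G : Subgroup (GLN N)) (X A B ν : Mat N), Alg G → InLie G X → AJ X A B ν →
    InLie G A ∧ InLie G B ∧ InLie G ν
  herm : ∀ (N : ℕ) (A : Mat N), A.IsHermitian → RD A
  sq : ∀ (N : ℕ) (A B : Mat N), RD A → RD B → (A * A).trace + (B * B).trace = 0 → A = 0 ∧ B = 0
  gpAct : ∀ (N : ℕ) (h : GLN N) (w : Op N), GP w → GP (act h w)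
  jcAct : ∀ (N : ℕ) (h : GLN N) (w : Op N), JC w → JC (act h w)

def NondegStmt : Prop := ∀ (N : ℕ) (G : Subgroup (GLN N)), RedC G →
  ∃ w : Op N, GP w ∧ ∀ X, w X = X ↔ InLie G X

def DegenStmt : Prop := ∀ (N : ℕ) (z : Op N), GP z →
  ∃ (h : GLN N) (D : Fin N → ℝ) (w : Op N),
    GP w ∧ Crit w ∧ OPure D 0 w ∧ OPos D (act h z - w)

def StarStmt : Prop := ∀ (N : ℕ) (D : Fin N → ℝ) (z w : Op N), GP z → JC z → GP w → Crit w →
  OPure D 0 w → OPos D (z - w) → ∀ X, w Xᴴ = (w X)ᴴ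

def HodgeStmt : Prop := ∀ (N : ℕ) (D : Fin N → ℝ) (k : ℝ) (w φ : Op N), GP w →
  (∀ X, w Xᴴ = (w X)ᴴ) → OPure D 0 w → OPure D k φ → (∀ X, w (φ X) = 0) → (∀ X, φ (w X) = φ X) →
  (∀ X Y, φ (w X * w Y - w Y * w X) = (φ X * w Y - w Y * φ X) + (w X * φ Y - φ Y * w X)) →
  ∃ ω : Mat N, Pure D k ω ∧ w ω = 0 ∧
    ∀ X Y, Commute (w Y) (φ X - (w X * ω - ω * w X))

def RigidStmt : Prop := ∀ (N : ℕ) (D : Fin N → ℝ) (z w : Op N), GP z → JC z → GP w →
  (∀ X, w Xᴴ = (w X)ᴴ) → OPure D 0 w → OPos D (z - w) → ∃ h : GLN N, act h z = w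

def ConnStmt : Prop := ∀ (N : ℕ) (G : Subgroup (GLN N)), Alg G → IsConnected (G : Set (GLN N)) →
  (∀ X, InLie G X → InLie G Xᴴ) → ∀ g ∈ G, star g ∈ G

def MostowStmt : Prop := ∀ (N : ℕ) (G : Subgroup (GLN N)), RedC G →
  ∃ h : GLN N, SA (G.map (MulAut.conj h).toMonoidHom)

def Gl5CStmt : Prop := RedC (⊤ : Subgroup (GLN 5))

end Pool.Agent.MP_94b95a_al.Fl

end MrgPart2

-- ======== part 3: formerly Pool.Agent.MP_94b95a_al.fl.JA
section MrgPart3

/-! Shared lemmas on exponentials of matrices. -/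

namespace Pool.Agent.MP_94b95a_al.Fl

open NormedSpace Matrix Filter Topology Polynomial
open scoped Matrix.Norms.Operator Nat

namespace JA

variable {N : ℕ}

theorem nil_pow {ν : Mat N} (h : IsNilpotent ν) : ν ^ N = 0 := by
  have h1 := (Matrix.isNilpotent_charpoly_sub_pow_of_isNilpotent h).eq_zero
  have h2 := Matrix.aeval_self_charpoly ν
  rw [sub_eq_zero.1 h1, Fintype.card_fin, map_pow, aeval_X] at h2
  exact h2

theorem exp_sum {ν : Mat N} {n : ℕ} (h : ν ^ n = 0) :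
    exp ν = ∑ k ∈ Finset.range n, (k !⁻¹ : ℂ) • ν ^ k := by
  rw [exp_eq_tsum ℂ]
  refine tsum_eq_sum fun k hk => ?_
  rw [pow_eq_zero_of_le (by simpa using hk) h, smul_zero]

theorem der_pow {x η Z : Mat N} (hc : Commute x Z) (h : x * η - η * x = Z) (k : ℕ) :
    x ^ (k + 1) * η - η * x ^ (k + 1) = ((k + 1 : ℕ) : ℂ) • (x ^ k * Z) := by
  induction k with
  | zero => simpa using h
  | succ k ih =>
    have e : x ^ (k + 1 + 1) * η - η * x ^ (k + 1 + 1) =
        x * (x ^ (k + 1) * η - η * x ^ (k + 1)) + (x * η - η * x) * x ^ (k + 1) := by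
      rw [pow_succ' x (k + 1)]; noncomm_ring
    rw [e, ih, h, ← (hc.pow_left (k + 1)).eq, mul_smul_comm, ← mul_assoc, ← pow_succ',
      Nat.cast_succ (k + 1), add_smul, one_smul]

theorem der_aeval {x η Z : Mat N} (hc : Commute x Z) (h : x * η - η * x = Z) (p : ℂ[X]) :
    aeval x p * η - η * aeval x p = aeval x (derivative p) * Z := by
  induction p using Polynomial.induction_on' with
  | add p q hp hq => rw [map_add, map_add, map_add, add_mul, mul_add, add_mul, ← hp, ← hq]; abel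
  | monomial k a =>
    rw [derivative_monomial, aeval_monomial, aeval_monomial, ← Algebra.smul_def,
      ← Algebra.smul_def, smul_mul_assoc, mul_smul_comm, ← smul_sub, smul_mul_assoc]
    rcases k with _ | k
    · simp
    · rw [der_pow hc h, smul_smul, Nat.add_sub_cancel]

theorem der_exp {x η Z : Mat N} (hx : IsNilpotent x) (hc : Commute x Z)
    (h : x * η - η * x = Z) : exp x * η - η * exp x = exp x * Z := by
  have h1 := nil_pow hx
  conv_lhs => rw [exp_sum (pow_eq_zero_of_le (Nat.le_succ N) h1)]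
  rw [exp_sum h1, Finset.sum_mul, Finset.mul_sum, ← Finset.sum_sub_distrib, Finset.sum_mul,
    Finset.sum_range_succ']
  simp only [pow_zero, smul_mul_assoc, mul_smul_comm, one_mul, mul_one, sub_self, add_zero]
  refine Finset.sum_congr rfl fun k _ => ?_
  rw [← smul_sub, der_pow hc h, smul_smul, Nat.factorial_succ]
  congr 1
  have : (k ! : ℂ) ≠ 0 := by exact_mod_cast k.factorial_ne_zero
  have : ((k + 1 : ℕ) : ℂ) ≠ 0 := by exact_mod_cast k.succ_ne_zero
  rw [Nat.cast_mul]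
  field_simp

theorem exp_add' {A B : Mat N} (h : Commute A B) : exp (A + B) = exp A * exp B :=
  Matrix.exp_add_of_commute A B h

theorem exp_mul_neg (A : Mat N) : exp A * exp (-A) = 1 := by
  rw [← exp_add' (Commute.refl A).neg_right, add_neg_cancel, exp_zero]

theorem exp_neg_mul (A : Mat N) : exp (-A) * exp A = 1 := by
  rw [← exp_add' (Commute.refl A).neg_left, neg_add_cancel, exp_zero]

/-- The exponential as a unit. -/
noncomputable def expU (A : Mat N) : GLN N := ⟨exp A, exp (-A), exp_mul_neg A, exp_neg_mul A⟩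

theorem expU_val (A : Mat N) : (expU A : Mat N) = exp A := rfl

theorem expU_inv (A : Mat N) : (((expU A)⁻¹ : GLN N) : Mat N) = exp (-A) := rfl

theorem inG_exp {G : Subgroup (GLN N)} {A : Mat N} : InG G (exp A) ↔ expU A ∈ G :=
  ⟨fun ⟨g, hg, h⟩ => (Units.ext h : g = expU A) ▸ hg, fun h => ⟨_, h, rfl⟩⟩

theorem entry_le (m : Mat N) (a b : Fin N) : ‖m a b‖ ≤ ‖m‖ := by
  rw [linfty_opNorm_def]
  have h1 : ‖m a b‖₊ ≤ ∑ j, ‖m a j‖₊ :=
    Finset.single_le_sum (f := fun j => ‖m a j‖₊) (fun _ _ => zero_le) (Finset.mem_univ b)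
  exact NNReal.coe_le_coe.2
    (h1.trans (Finset.le_sup (f := fun i => ∑ j, ‖m i j‖₊) (Finset.mem_univ a)))

theorem norm_le {m : Mat N} {C : ℝ} (h : ∀ a b, ‖m a b‖ ≤ C) : ‖m‖ ≤ N * |C| := by
  rw [linfty_opNorm_def, ← NNReal.coe_mk (N * |C|) (by positivity), NNReal.coe_le_coe]
  refine Finset.sup_le fun i _ => ?_
  rw [← NNReal.coe_le_coe, NNReal.coe_sum, NNReal.coe_mk]
  refine (Finset.sum_le_sum fun j _ => (h i j).trans (le_abs_self C)).trans ?_
  simp

theorem bdd_iff {S : Set (Mat N)} : BddM S ↔ ∃ C : ℝ, ∀ m ∈ S, ‖m‖ ≤ C :=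
  ⟨fun ⟨_, h⟩ => ⟨_, fun m hm => norm_le (h m hm)⟩,
    fun ⟨C, h⟩ => ⟨C, fun m hm a b => (entry_le m a b).trans (h m hm)⟩⟩

theorem bdd_range {ι : Type} {f : ι → Mat N} : BddM (Set.range f) ↔ ∃ C : ℝ, ∀ i, ‖f i‖ ≤ C := by
  simp only [bdd_iff, Set.forall_mem_range]

theorem spec_smul {A : Mat N} {c : ℂ} (h : c ∈ spectrum ℂ A) (z : ℂ) :
    z * c ∈ spectrum ℂ (z • A) := by
  have := spectrum.subset_polynomial_aeval A (C z * Polynomial.X) ⟨c, h, rfl⟩
  simpa [Algebra.smul_def] using this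

theorem spec_exp {A : Mat N} {c : ℂ} (h : c ∈ spectrum ℂ A) :
    Real.exp c.re ≤ ‖exp A‖ * ‖(1 : Mat N)‖ := by
  have := spectrum.norm_le_norm_mul_of_mem (spectrum.exp_mem_exp A h)
  rwa [← Complex.exp_eq_exp_ℂ, Complex.norm_exp] at this

theorem spec_le {A : Mat N} {c : ℂ} (h : c ∈ spectrum ℂ A) {K r : ℝ} (hr : 0 ≤ r)
    (hK : ∀ k : ℕ, ‖exp ((k : ℂ) • A)‖ ≤ K * r ^ k) : Real.exp c.re ≤ r := by
  by_contra! hlt
  have h0 := Real.exp_pos c.re
  have h1 : Tendsto (fun k : ℕ => K * ‖(1 : Mat N)‖ * (r / Real.exp c.re) ^ k) atTop (𝓝 0) := by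
    simpa using (tendsto_pow_atTop_nhds_zero_of_lt_one (by positivity)
      ((div_lt_one h0).2 hlt)).const_mul (K * ‖(1 : Mat N)‖)
  obtain ⟨k, hk⟩ := (h1.eventually (gt_mem_nhds one_pos)).exists
  have h2 := (spec_exp (spec_smul h k)).trans
    (mul_le_mul_of_nonneg_right (hK k) (norm_nonneg _))
  rw [show ((k : ℂ) * c).re = k * c.re by simp, Real.exp_nat_mul] at h2
  rw [div_pow, ← mul_div_assoc, div_lt_one (by positivity)] at hk
  linarith

theorem spec_add {A n : Mat N} (hn : IsNilpotent n) (hc : Commute n A) {c : ℂ}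
    (h : c ∈ spectrum ℂ A) : c ∈ spectrum ℂ (A + n) := by
  rw [spectrum.mem_iff] at h ⊢
  refine fun hu => h ?_
  have := hn.isUnit_add_left_of_commute hu
    ((Algebra.commute_algebraMap_right c n).sub_right (hc.add_right (Commute.refl n)))
  rwa [show algebraMap ℂ (Mat N) c - (A + n) + n = algebraMap ℂ (Mat N) c - A by abel] at this

theorem nil_of_spec {A : Mat N} (h : ∀ c ∈ spectrum ℂ A, c = 0) : IsNilpotent A := by
  have h1 := (IsAlgClosed.splits A.charpoly).eq_prod_roots_of_monic A.charpoly_monic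
  rw [Multiset.map_congr rfl (g := fun _ => Polynomial.X) fun c hc => by
    rw [h c (Matrix.mem_spectrum_iff_isRoot_charpoly.2 (isRoot_of_mem_roots hc)), C_0, sub_zero],
    Multiset.map_const', Multiset.prod_replicate] at h1
  have h2 := Matrix.aeval_self_charpoly A
  rw [h1, map_pow, aeval_X] at h2
  exact ⟨_, h2⟩

theorem exp_mul_of {y w : Mat N} (hy : IsNilpotent y) (h : y ^ 2 * w = 0) :
    exp y * w = w + y * w := by
  rw [exp_sum (pow_eq_zero_of_le (Nat.le_add_right N 2) (nil_pow hy)), Finset.sum_mul,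
    Finset.sum_range_succ', Finset.sum_range_succ', Finset.sum_eq_zero fun k _ => by
      rw [smul_mul_assoc, add_assoc, pow_add, mul_assoc, h, mul_zero, smul_zero]]
  simp [add_comm]

theorem nil_bdd {n : Mat N} (hn : IsNilpotent n) {C : ℝ}
    (h : ∀ k : ℕ, ‖exp ((k : ℂ) • n)‖ ≤ C) : n = 0 := by
  classical
  have hex : ∃ j, n ^ (j + 1) = 0 := ⟨N, pow_eq_zero_of_le (Nat.le_succ N) (nil_pow hn)⟩
  have h0 := Nat.find_spec hex
  rcases hj : Nat.find hex with _ | j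
  · rwa [hj, zero_add, pow_one] at h0
  have h1 := norm_pos_iff.2 (Nat.find_min hex (m := j) (by omega))
  rw [hj] at h0
  obtain ⟨k, hk⟩ := exists_nat_gt ((C * ‖n ^ j‖ + ‖n ^ j‖) / ‖n ^ (j + 1)‖)
  have h2 := exp_mul_of (hn.smul (k : ℂ)) (w := n ^ j) (by
    rw [_root_.smul_pow, smul_mul_assoc, ← pow_add, add_comm 2, h0, smul_zero])
  rw [smul_mul_assoc, ← pow_succ', ← sub_eq_iff_eq_add'] at h2
  have h3 := (norm_sub_le _ _).trans (add_le_add_left ((norm_mul_le _ _).trans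
    (mul_le_mul_of_nonneg_right (h k) (norm_nonneg (n ^ j)))) ‖n ^ j‖)
  rw [h2, norm_smul, Complex.norm_natCast] at h3
  rw [div_lt_iff₀ h1] at hk
  linarith

theorem comm_adj {g x y : Mat N} (hx : x ∈ Algebra.adjoin ℂ {g}) (h : Commute g y) :
    Commute x y :=
  (Algebra.commute_of_mem_adjoin_singleton_of_commute hx h.symm).symm

theorem comm_adj' {g x y : Mat N} (hx : x ∈ Algebra.adjoin ℂ {g})
    (hy : y ∈ Algebra.adjoin ℂ {g}) : Commute x y :=
  comm_adj hx (comm_adj hy (Commute.refl g)).symm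

end JA

end Pool.Agent.MP_94b95a_al.Fl

end MrgPart3

-- ======== part 4: formerly Pool.Agent.MP_94b95a_al.fl.Lie
section MrgPart4

/-! The Lie algebra of a Zariski closed group. -/

namespace Pool.Agent.MP_94b95a_al.Fl

open NormedSpace Matrix Filter Topology JA
open scoped Matrix.Norms.Operator

namespace Lie

variable {N : ℕ}

/-- Evaluation at a matrix. -/
noncomputable def evm (m : Mat N) : MvPolynomial (Fin N × Fin N) ℂ →+* ℂ :=
  MvPolynomial.eval fun ij => m ij.1 ij.2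

theorem cont (p : MvPolynomial (Fin N × Fin N) ℂ) : Continuous fun m : Mat N => evm m p :=
  (MvPolynomial.continuous_eval p).comp (by fun_prop)

/-- The left invariant derivations. -/
noncomputable def D (Z : Mat N) :
    Derivation ℂ (MvPolynomial (Fin N × Fin N) ℂ) (MvPolynomial (Fin N × Fin N) ℂ) :=
  MvPolynomial.mkDerivation ℂ fun ij => ∑ k, Z k ij.2 • MvPolynomial.X (ij.1, k)

theorem D_add (Y Z : Mat N) : D (Y + Z) = D Y + D Z :=
  MvPolynomial.derivation_ext fun ij => by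
    simp [D, add_smul, Finset.sum_add_distrib]

theorem deriv_entry (g Z : Mat N) (z : ℂ) (a b : Fin N) :
    HasDerivAt (fun z : ℂ => (g * exp (z • Z)) a b) ((g * exp (z • Z) * Z) a b) z := by
  let L : Mat N →ₗ[ℂ] ℂ := entryLinearMap ℂ ℂ a b
  have h := ((hasDerivAt_exp_smul_const Z z).const_mul g)
  rw [← mul_assoc] at h
  exact (L.mkContinuous 1 fun m => by
    rw [one_mul]; exact entry_le m a b).hasFDerivAt.comp_hasDerivAt z h

theorem deriv_ev (g Z : Mat N) (p : MvPolynomial (Fin N × Fin N) ℂ) (z : ℂ) :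
    HasDerivAt (fun z : ℂ => evm (g * exp (z • Z)) p) (evm (g * exp (z • Z)) (D Z p)) z := by
  induction p using MvPolynomial.induction_on with
  | C a => simpa [evm] using hasDerivAt_const z a
  | add p q hp hq => simpa only [map_add] using hp.fun_add hq
  | mul_X p ij hp =>
    have h := hp.fun_mul (deriv_entry g Z z ij.1 ij.2)
    simp only [map_mul, Derivation.leibniz, smul_eq_mul, map_add]
    refine (h.congr_deriv ?_).congr_of_eventuallyEq (Eventually.of_forall fun z => by simp [evm])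
    rw [add_comm, mul_comm (evm _ (D Z p)), D, MvPolynomial.mkDerivation_X, Matrix.mul_apply]
    simp [evm, mul_comm]

theorem iff {G : Subgroup (GLN N)} (hG : Alg G) {Z : Mat N} : InLie G Z ↔
    ∀ p, (∀ g ∈ G, evm (g : Mat N) p = 0) → ∀ g ∈ G, evm (g : Mat N) (D Z p) = 0 := by
  refine ⟨fun h p hp g hg => ?_, fun h z => ?_⟩
  · have h1 := deriv_ev (g : Mat N) Z p 0
    rw [show (fun z : ℂ => evm ((g : Mat N) * exp (z • Z)) p) = fun _ => 0 from funext fun z =>
      hp (g * expU (z • Z)) (G.mul_mem hg (inG_exp.1 (h z))), zero_smul, exp_zero, mul_one] at h1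
    exact h1.unique (hasDerivAt_const _ _)
  · obtain ⟨S, hS⟩ := hG
    refine inG_exp.2 ((hS _).2 fun p hp => ?_)
    have key : ∀ (n : ℕ) (p : MvPolynomial (Fin N × Fin N) ℂ), (∀ g ∈ G, evm (g : Mat N) p = 0) →
        iteratedDeriv n (fun z : ℂ => evm (1 * exp (z • Z)) p) 0 = 0 := by
      intro n
      induction n with
      | zero => exact fun p hp => by simpa using hp 1 G.one_mem
      | succ n ih =>
        intro p hp
        rw [iteratedDeriv_succ', show deriv (fun z : ℂ => evm (1 * exp (z • Z)) p) = _ from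
          funext fun z => (deriv_ev 1 Z p z).deriv]
        exact ih _ (h p hp)
    have h1 := Complex.taylorSeries_eq_of_entire (fun z => (deriv_ev 1 Z p z).differentiableAt) 0 z
    simp only [key _ p fun g hg => (hS g).1 hg p hp, smul_zero, tsum_zero] at h1
    rw [one_mul] at h1
    exact h1.symm

theorem closedG {G : Subgroup (GLN N)} (hG : Alg G) (g : GLN N)
    (h : (g : Mat N) ∈ closure {m | InG G m}) : g ∈ G := by
  obtain ⟨S, hS⟩ := hG
  refine (hS g).2 fun p hp => closure_minimal (t := {m | evm m p = 0}) ?_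
    (isClosed_eq (cont p) continuous_const) h
  rintro _ ⟨x, hx, rfl⟩
  exact (hS x).1 hx p hp

theorem closedL {G : Subgroup (GLN N)} (hG : Alg G) : IsClosed {Z | InLie G Z} := by
  refine isClosed_of_closure_subset fun Z hZ z => inG_exp.2 (closedG hG _ ?_)
  have hc : Continuous fun Z : Mat N => exp (z • Z) :=
    (exp_continuous (𝔸 := Mat N)).comp (continuous_const_smul z)
  exact map_mem_closure (f := fun Z : Mat N => exp (z • Z)) hc hZ fun Y hY => hY z

theorem zero (G : Subgroup (GLN N)) : InLie G 0 := fun z =>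
  ⟨1, G.one_mem, by rw [smul_zero, exp_zero, Units.val_one]⟩

theorem smul {G : Subgroup (GLN N)} (z : ℂ) {Z : Mat N} (h : InLie G Z) : InLie G (z • Z) :=
  fun w => by rw [smul_smul]; exact h _

theorem add {G : Subgroup (GLN N)} (hG : Alg G) {Y Z : Mat N} (hY : InLie G Y) (hZ : InLie G Z) :
    InLie G (Y + Z) := (iff hG).2 fun p hp g hg => by
  rw [D_add, Derivation.add_apply, map_add, (iff hG).1 hY p hp g hg, (iff hG).1 hZ p hp g hg,
    add_zero]

theorem conj {G : Subgroup (GLN N)} {g : GLN N} {Z : Mat N} (hg : g ∈ G) (h : InLie G Z) :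
    InLie G ((g : Mat N) * Z * ((g⁻¹ : GLN N) : Mat N)) := fun z => by
  rw [← smul_mul_assoc, ← mul_smul_comm, Matrix.exp_units_conj]
  exact ⟨_, G.mul_mem (G.mul_mem hg (inG_exp.1 (h z))) (G.inv_mem hg), rfl⟩

/-- The Lie algebra as a subspace. -/
def sub {G : Subgroup (GLN N)} (hG : Alg G) : Submodule ℂ (Mat N) where
  carrier := {Z | InLie G Z}
  zero_mem' := zero G
  add_mem' := add hG
  smul_mem' z _ h := smul z h

theorem br {G : Subgroup (GLN N)} (hG : Alg G) {Y Z : Mat N} (hY : InLie G Y) (hZ : InLie G Z) :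
    InLie G (Y * Z - Z * Y) := by
  have h := ((hasDerivAt_exp_smul_const Y (0 : ℂ)).mul_const Z).fun_mul
    (hasDerivAt_exp_smul_const (-Y) (0 : ℂ))
  simp only [zero_smul, exp_zero, one_mul, mul_one, mul_neg, ← sub_eq_add_neg] at h
  have h1 : ∀ t : ℂ, exp (t • Y) * Z * exp (t • -Y) ∈ sub hG := fun t => by
    have h2 := conj (inG_exp.1 (hY t)) hZ
    rw [expU_val, expU_inv, ← smul_neg] at h2
    exact h2
  exact (closedL hG).mem_of_tendsto (hasDerivAt_iff_tendsto_slope_zero.1 h)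
    (Eventually.of_forall fun t => (sub hG).smul_mem _ ((sub hG).sub_mem (h1 _) (h1 _)))

theorem centSA {G : Subgroup (GLN N)} {S : Set (Mat N)} (hG : SA G) (hS : ∀ s ∈ S, sᴴ ∈ S) :
    SA (cent G S) := by
  refine ⟨?_, fun g hg => ⟨hG.star_mem g hg.1, fun s hs => ?_⟩⟩
  · obtain ⟨T, hT⟩ := hG.alg
    refine ⟨T ∪ {p | ∃ s ∈ S, ∃ a b, p = ∑ k, (s k b • MvPolynomial.X (a, k) -
      s a k • MvPolynomial.X (k, b))}, fun g => ?_⟩
    have e : ∀ (s : Mat N) (a b : Fin N), MvPolynomial.eval (fun ij => (g : Mat N) ij.1 ij.2)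
        (∑ k, (s k b • MvPolynomial.X (a, k) - s a k • MvPolynomial.X (k, b))) =
          ((g : Mat N) * s - s * g) a b := fun s a b => by
      simp [Matrix.mul_apply, mul_comm]
    constructor
    · rintro ⟨h1, h2⟩ p (hp | ⟨s, hs, a, b, rfl⟩)
      · exact (hT g).1 h1 p hp
      · rw [e, (h2 s hs).eq, sub_self, Matrix.zero_apply]
    · refine fun h => ⟨(hT g).2 fun p hp => h p (Or.inl hp), fun s hs => sub_eq_zero.1 ?_⟩
      ext a b
      rw [← e]
      exact h _ (Or.inr ⟨s, hs, a, b, rfl⟩)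
  · have := (hg.2 _ (hS s hs)).star_star
    rwa [star_eq_conjTranspose sᴴ, conjTranspose_conjTranspose] at this

theorem centL (G : Subgroup (GLN N)) (S : Set (Mat N)) (Z : Mat N) :
    InLie (cent G S) Z ↔ InLie G Z ∧ ∀ s ∈ S, Commute Z s := by
  refine ⟨fun h => ⟨fun z => inG_exp.2 (inG_exp.1 (h z)).1, fun s hs => ?_⟩,
    fun h z => inG_exp.2 ⟨inG_exp.1 (h.1 z), fun s hs => ((h.2 s hs).smul_left z).exp_left⟩⟩
  have h1 := (hasDerivAt_exp_smul_const Z (0 : ℂ)).mul_const s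
  have h2 := (hasDerivAt_exp_smul_const Z (0 : ℂ)).const_mul s
  have h3 := h1.unique (h2.congr_of_eventuallyEq
    (Eventually.of_forall fun z => ((inG_exp.1 (h z)).2 s hs).eq))
  rw [zero_smul, exp_zero, one_mul] at h3
  exact h3

end Lie

theorem lie_thm : LieStmt where
  closedG _ _ := Lie.closedG
  closedL _ _ := Lie.closedL
  zero _ := Lie.zero
  add _ _ hG _ _ := Lie.add hG
  smul _ _ z _ := Lie.smul z
  br _ _ hG _ _ := Lie.br hG
  conj _ _ _ _ := Lie.conj
  star _ _ hG Z h z := by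
    have := hG.star_mem _ (inG_exp.1 (h (star z)))
    refine ⟨_, this, ?_⟩
    rw [Units.coe_star, expU_val, star_eq_conjTranspose, ← exp_conjTranspose, conjTranspose_smul,
      star_star]
  span _ _ hG _ h _ hZ := Submodule.span_le (p := Lie.sub hG) |>.2 h hZ
  centSA _ _ _ := Lie.centSA
  centL _ := Lie.centL

end Pool.Agent.MP_94b95a_al.Fl

end MrgPart4

-- ======== part 5: formerly Pool.Agent.MP_94b95a_al.fl.Hodge
section MrgPart5

/-! A cocycle is a coboundary up to central values. -/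

namespace Pool.Agent.MP_94b95a_al.Fl

open NormedSpace Matrix Filter Topology

namespace Hodge

variable {N : ℕ}

/-- The commutator as a bilinear map. -/
noncomputable def br : Mat N →ₗ[ℂ] Mat N →ₗ[ℂ] Mat N :=
  LinearMap.mul ℂ (Mat N) - (LinearMap.mul ℂ (Mat N)).flip

theorem br_apply (x y : Mat N) : br x y = x * y - y * x := rfl

theorem br_swap (x y : Mat N) : br x y = -br y x := by simp [br_apply]

theorem leib (x y z : Mat N) : br x (br y z) = br (br x y) z + br y (br x z) := by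
  simp only [br_apply]; noncomm_ring

theorem tr_br (x y z : Mat N) : (br x y * z).trace = (y * br z x).trace := by
  simp only [br_apply, sub_mul, mul_sub, trace_sub, mul_assoc]
  rw [trace_mul_comm x (y * z), mul_assoc]

theorem br_star (x y : Mat N) : (br x y)ᴴ = br yᴴ xᴴ := by
  simp [br_apply, conjTranspose_mul]

open scoped ComplexOrder in
theorem eq_zero_of_tr {x : Mat N} (h : ∀ t, (x * t).trace = 0) : x = 0 :=
  trace_mul_conjTranspose_self_eq_zero_iff.mp (h xᴴ)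

theorem factB {w : Op N} (h : GP w) (y z : Mat N) : w (br (w y) z) = br (w y) (w z) := by
  have h1 : w (br (w y) (z - w z)) = 0 := by
    refine eq_zero_of_tr fun t => ?_
    have e : br (w t) (w y) = w (br (w t) (w y)) := (h.lie t y).symm
    rw [h.symm, tr_br, e, ← h.symm, map_sub, h.idem, sub_self, zero_mul, trace_zero]
  rw [map_sub, map_sub, sub_eq_zero] at h1
  rw [h1]
  exact h.lie y z

theorem factB' {w : Op N} (h : GP w) (y z : Mat N) : w (br z (w y)) = br (w z) (w y) := by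
  rw [br_swap, map_neg, factB h, ← br_swap]

theorem single_mul (a b : Fin N) (y : Mat N) :
    single a b (1 : ℂ) * y = ∑ c, y b c • single a c (1 : ℂ) := by
  ext p q
  by_cases hp : p = a
  · subst hp
    simp [Matrix.sum_apply, single_apply]
  · simp [Matrix.sum_apply, hp, Ne.symm hp]

theorem mul_single (a b : Fin N) (y : Mat N) :
    y * single a b (1 : ℂ) = ∑ c, y c a • single c b (1 : ℂ) := by
  ext p q
  by_cases hq : q = b
  · subst hq
    simp [Matrix.sum_apply, single_apply]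
  · simp [Matrix.sum_apply, hq, Ne.symm hq]

theorem invar (β : Mat N →ₗ[ℂ] Mat N →ₗ[ℂ] Mat N) (y : Mat N) :
    ∑ a, ∑ b, (β (single b a 1) (br (single a b 1) y) + β (br (single b a 1) y) (single a b 1)) =
      0 := by
  have h1 : ∑ a, ∑ b, β (single b a 1) (single a b 1 * y) =
      ∑ a, ∑ b, β (y * single b a 1) (single a b 1) := by
    refine Finset.sum_congr rfl fun a _ => ?_
    simp only [single_mul, mul_single, map_sum, map_smul, LinearMap.sum_apply,
      LinearMap.smul_apply]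
    exact Finset.sum_comm
  have h2 : ∑ a, ∑ b, β (single b a 1) (y * single a b 1) =
      ∑ a, ∑ b, β (single b a 1 * y) (single a b 1) := by
    rw [Finset.sum_comm, Finset.sum_comm (f := fun a b => β (single b a 1 * y) (single a b 1))]
    refine Finset.sum_congr rfl fun b _ => ?_
    simp only [single_mul, mul_single, map_sum, map_smul, LinearMap.sum_apply,
      LinearMap.smul_apply]
    exact Finset.sum_comm
  simp only [br_apply, map_sub, LinearMap.sub_apply, Finset.sum_add_distrib,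
    Finset.sum_sub_distrib]
  rw [h1, h2]
  abel

theorem solve (Ω : Op N) (V : Submodule ℂ (Mat N)) (hV : ∀ c ∈ V, Ω c ∈ V)
    (h : ∀ c, Ω (Ω c) = 0 → Ω c = 0) {d : Mat N} (hd : d ∈ V) :
    ∃ κ ω, ω ∈ V ∧ Ω κ = 0 ∧ d = κ + Ω ω := by
  let T : V →ₗ[ℂ] V := Ω.restrict hV
  have h1 : Disjoint (LinearMap.range T) (LinearMap.ker T) := by
    rw [Submodule.disjoint_def]
    rintro _ ⟨c, rfl⟩ hc
    exact Subtype.ext (h c (congrArg Subtype.val (LinearMap.mem_ker.mp hc)))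
  have h2 := Submodule.eq_top_of_disjoint _ _ (LinearMap.finrank_range_add_finrank_ker T).ge h1
  have h3 : (⟨d, hd⟩ : V) ∈ LinearMap.range T ⊔ LinearMap.ker T := by rw [h2]; trivial
  obtain ⟨_, ⟨ω, rfl⟩, κ, hκ, e⟩ := Submodule.mem_sup.mp h3
  refine ⟨κ, ω, ω.2, congrArg Subtype.val (LinearMap.mem_ker.mp hκ), ?_⟩
  rw [add_comm]
  exact (congrArg Subtype.val e).symm

theorem pure_iff (D : Fin N → ℝ) (c : ℝ) (X : Mat N) :
    Pure D c X ↔ br (diagonal fun a => (D a : ℂ)) X = (c : ℂ) • X := by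
  have e : ∀ a b, (br (diagonal fun a => (D a : ℂ)) X) a b = ((D a - D b : ℝ) : ℂ) * X a b := by
    intro a b
    rw [br_apply, Matrix.sub_apply, diagonal_mul, mul_diagonal]
    push_cast
    ring
  constructor
  · intro h
    ext a b
    rw [e, Matrix.smul_apply, smul_eq_mul]
    by_cases h0 : X a b = 0
    · rw [h0, mul_zero, mul_zero]
    · rw [h a b h0]
  · intro h a b h0
    have h1 := congrFun (congrFun h a) b
    rw [e, Matrix.smul_apply, smul_eq_mul] at h1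
    exact_mod_cast mul_right_cancel₀ h0 h1

/-- The Laplace operator. -/
noncomputable def lap (w : Op N) : Op N :=
  ∑ a, ∑ b, br (w (single b a 1)) ∘ₗ br (w (single a b 1))

theorem lap_apply (w : Op N) (c : Mat N) :
    lap w c = ∑ a, ∑ b, br (w (single b a 1)) (br (w (single a b 1)) c) := by
  simp [lap, LinearMap.sum_apply]

theorem pair {w : Op N} (hs : ∀ X, w Xᴴ = (w X)ᴴ) (f : Fin N → Fin N → Mat N) (d : Mat N) :
    ((∑ a, ∑ b, br (w (single b a 1)) (f a b)) * dᴴ).trace =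
      ∑ a, ∑ b, (f a b * (br (w (single a b 1)) d)ᴴ).trace := by
  simp only [Finset.sum_mul, trace_sum]
  refine Finset.sum_congr rfl fun a _ => Finset.sum_congr rfl fun b _ => ?_
  rw [tr_br, br_star, ← hs, conjTranspose_single, star_one]

open scoped ComplexOrder in
theorem lap_ker {w : Op N} (hs : ∀ X, w Xᴴ = (w X)ᴴ) {c : Mat N} (h : (lap w c * cᴴ).trace = 0)
    (a b : Fin N) : br (w (single a b 1)) c = 0 := by
  rw [lap_apply, pair hs] at h
  have h0 : ∀ x : Mat N, 0 ≤ (x * xᴴ).trace := fun x =>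
    (posSemidef_self_mul_conjTranspose x).trace_nonneg
  have h1 := (Finset.sum_eq_zero_iff_of_nonneg fun a _ =>
    Finset.sum_nonneg fun b _ => h0 _).mp h a (Finset.mem_univ a)
  have h2 := (Finset.sum_eq_zero_iff_of_nonneg fun b _ => h0 _).mp h1 b (Finset.mem_univ b)
  exact trace_mul_conjTranspose_self_eq_zero_iff.mp h2

open scoped ComplexOrder in
theorem orth {w : Op N} (hs : ∀ X, w Xᴴ = (w X)ᴴ) (f : Fin N → Fin N → Mat N) {κ : Mat N}
    (h : lap w κ = 0) : ((∑ a, ∑ b, br (w (single b a 1)) (f a b)) * κᴴ).trace = 0 := by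
  rw [pair hs]
  have h1 := lap_ker hs (c := κ) (by rw [h, zero_mul, trace_zero])
  simp [h1]

end Hodge

open Hodge in
open scoped ComplexOrder in
theorem hodge_thm : HodgeStmt := by
  intro N D k w φ hw hs hw0 hφk hwφ hφw hco
  have hco' : ∀ X Y, φ (br (w X) (w Y)) = br (φ X) (w Y) + br (w X) (φ Y) := hco
  let H : Mat N := diagonal fun a => (D a : ℂ)
  have hx : ∀ a b, br H (w (single a b 1)) = ((D a - D b : ℝ) : ℂ) • w (single a b 1) :=
    fun a b => (pure_iff D _ _).mp fun p q h => by have := hw0 a b p q h; linarith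
  have hφ : ∀ a b, br H (φ (single a b 1)) = ((k + (D a - D b) : ℝ) : ℂ) • φ (single a b 1) :=
    fun a b => (pure_iff D _ _).mp fun p q h => by have := hφk a b p q h; linarith
  let V : Submodule ℂ (Mat N) := LinearMap.ker (br H - (k : ℂ) • LinearMap.id) ⊓ LinearMap.ker w
  have hV : ∀ c, c ∈ V ↔ br H c = (k : ℂ) • c ∧ w c = 0 := by
    intro c
    simp only [V, Submodule.mem_inf, LinearMap.mem_ker, LinearMap.sub_apply, LinearMap.smul_apply,
      LinearMap.id_apply, sub_eq_zero]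
  have hgen : ∀ f : Fin N → Fin N → Mat N,
      (∀ a b, br H (f a b) = ((k + (D a - D b) : ℝ) : ℂ) • f a b) → (∀ a b, w (f a b) = 0) →
      ∑ a, ∑ b, br (w (single b a 1)) (f a b) ∈ V := by
    intro f h1 h2
    refine V.sum_mem fun a _ => V.sum_mem fun b _ => (hV _).mpr ⟨?_, ?_⟩
    · rw [leib, hx, h1, map_smul, map_smul, LinearMap.smul_apply, ← add_smul]
      congr 1
      push_cast
      ring
    · rw [factB hw, h2, map_zero]
  have hΩ : ∀ c ∈ V, lap w c ∈ V := by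
    intro c hc
    obtain ⟨h1, h2⟩ := (hV c).mp hc
    rw [lap_apply]
    refine hgen _ (fun a b => ?_) fun a b => ?_
    · rw [leib, hx, h1, map_smul, map_smul, LinearMap.smul_apply, ← add_smul]
      congr 1
      push_cast
      ring
    · rw [factB hw, h2, map_zero]
  have hΩΩ : ∀ c, lap w (lap w c) = 0 → lap w c = 0 := by
    intro c hc
    have h1 := orth hs (fun a b => br (w (single a b 1)) c) hc
    rw [← lap_apply] at h1
    exact trace_mul_conjTranspose_self_eq_zero_iff.mp h1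
  obtain ⟨κ, ω, hω, hκ, e⟩ := solve (lap w) V hΩ hΩΩ (hgen _ hφ fun a b => hwφ _)
  have hκ0 : κ = 0 := by
    have h1 := orth hs (fun a b => φ (single a b 1)) hκ
    have h2 := orth hs (fun a b => br (w (single a b 1)) ω) hκ
    rw [← lap_apply] at h2
    rw [e, add_mul, trace_add, h2, add_zero] at h1
    exact trace_mul_conjTranspose_self_eq_zero_iff.mp h1
  rw [hκ0, zero_add, lap_apply] at e
  let ψ : Op N := φ - br.flip ω ∘ₗ w
  have hψ : ∀ X, ψ X = φ X - br (w X) ω := fun X => rfl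
  have hψw : ∀ X, ψ (w X) = ψ X := fun X => by rw [hψ, hψ, hφw, hw.idem]
  have hψc : ∀ X Y, ψ (br (w X) (w Y)) = br (ψ X) (w Y) + br (w X) (ψ Y) := by
    intro X Y
    have e1 : w (br (w X) (w Y)) = br (w X) (w Y) := hw.lie X Y
    rw [hψ, hψ, hψ, hco', e1]
    simp only [br_apply]
    noncomm_ring
  have hδ : ∑ a, ∑ b, br (w (single b a 1)) (ψ (single a b 1)) = 0 := by
    simp only [hψ, map_sub, Finset.sum_sub_distrib]
    rw [e, sub_self]
  have hfin : ∀ Y, lap w (ψ Y) = 0 := by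
    intro Y
    have h1 := invar (br.compl₁₂ w ψ) (w Y)
    simp only [LinearMap.compl₁₂_apply] at h1
    have h2 : ∑ a, ∑ b, br (br (w (single b a 1)) (ψ (single a b 1))) (w Y) = 0 := by
      have := congrArg (fun t => br t (w Y)) hδ
      simpa only [map_sum, LinearMap.sum_apply, map_zero, LinearMap.zero_apply] using this
    rw [lap_apply, ← sub_zero (0 : Mat N)]
    nth_rewrite 1 [← h1]
    rw [← h2, ← Finset.sum_sub_distrib]
    refine Finset.sum_congr rfl fun a _ => ?_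
    rw [← Finset.sum_sub_distrib]
    refine Finset.sum_congr rfl fun b _ => ?_
    rw [← hψw (br _ _), factB' hw, factB' hw, hψc]
    simp only [br_apply]
    noncomm_ring
  refine ⟨ω, (pure_iff D k ω).mpr ((hV ω).mp hω).1, ((hV ω).mp hω).2, fun X Y => ?_⟩
  have h1 := lap_ker hs (c := ψ X) (by rw [hfin, zero_mul, trace_zero])
  have h2 : br (w Y) (ψ X) = 0 := by
    have e1 : Y = ∑ a, ∑ b, Y a b • single a b (1 : ℂ) := by
      conv_lhs => rw [matrix_eq_sum_single Y]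
      simp
    rw [e1]
    simp only [map_sum, map_smul, LinearMap.sum_apply, LinearMap.smul_apply, h1, smul_zero,
      Finset.sum_const_zero]
  exact sub_eq_zero.mp h2

end Pool.Agent.MP_94b95a_al.Fl

end MrgPart5

-- ======== part 6: formerly Pool.Agent.MP_94b95a_al.fl.GlRel
section MrgPart6

/-! Off diagonal families extend to `gl_5` families. -/

namespace Pool.Agent.MP_94b95a_al.Fl

open NormedSpace Matrix Filter Topology

namespace GlRel

variable {N : ℕ}

/-- Commutator. -/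
def br (x y : Mat N) : Mat N := x * y - y * x

theorem br_swap (x y : Mat N) : br x y = -br y x := by simp [br]
theorem br_self (x : Mat N) : br x x = 0 := by simp [br]
theorem br_zero (x : Mat N) : br x 0 = 0 := by simp [br]
theorem br_neg (x y : Mat N) : br x (-y) = -br x y := by unfold br; noncomm_ring
theorem neg_br (x y : Mat N) : br (-x) y = -br x y := by unfold br; noncomm_ring
theorem leib (x y z : Mat N) : br x (br y z) = br (br x y) z + br y (br x z) := by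
  unfold br; noncomm_ring
theorem leib' (x y z : Mat N) : br (br x y) z = br x (br y z) - br y (br x z) := by
  unfold br; noncomm_ring
theorem br_smul (c : ℂ) (x y : Mat N) : br x (c • y) = c • br x y := by
  simp [br, smul_sub]
theorem smul_br (c : ℂ) (x y : Mat N) : br (c • x) y = c • br x y := by
  simp [br, smul_sub]
theorem sum_br (f : Fin 5 → Mat N) (y : Mat N) : br (∑ b, f b) y = ∑ b, br (f b) y := by
  simp [br, Finset.sum_mul, Finset.mul_sum, Finset.sum_sub_distrib]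
theorem br_sum (f : Fin 5 → Mat N) (y : Mat N) : br y (∑ b, f b) = ∑ b, br y (f b) := by
  simp [br, Finset.sum_mul, Finset.mul_sum, Finset.sum_sub_distrib]

/-- Kronecker symbol. -/
noncomputable def dl (a b : Fin 5) : ℂ := if a = b then 1 else 0

theorem third (i j : Fin 5) : ∃ m : Fin 5, m ≠ i ∧ m ≠ j := by revert i j; decide

/-- One off diagonal family. -/
structure Off (E : Fin 5 → Fin 5 → Mat N) : Prop where
  heis : ∀ i j l, i ≠ j → j ≠ l → i ≠ l → br (E i j) (E j l) = E i l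
  comm : ∀ i j p q, i ≠ j → p ≠ q → j ≠ p → i ≠ q → br (E i j) (E p q) = 0

variable {E : Fin 5 → Fin 5 → Mat N}

/-- Opposite commutators. -/
def D (E : Fin 5 → Fin 5 → Mat N) (a b : Fin 5) : Mat N := br (E a b) (E b a)

theorem D_swap (a b : Fin 5) : D E a b = -D E b a := br_swap _ _
theorem D_self (a : Fin 5) : D E a a = 0 := br_self _

theorem Off.heis' (h : Off E) {i j l : Fin 5} (h1 : i ≠ j) (h2 : j ≠ l) (h3 : i ≠ l) :
    br (E j l) (E i j) = -E i l := by rw [br_swap, h.heis i j l h1 h2 h3]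

theorem Off.D_add (h : Off E) (i j m : Fin 5) : D E i j = D E i m + D E m j := by
  by_cases h1 : i = j
  · subst h1; rw [D_self, D_swap i m, neg_add_cancel]
  by_cases h2 : m = i
  · subst h2; rw [D_self, zero_add]
  by_cases h3 : m = j
  · subst h3; rw [D_self, add_zero]
  unfold D
  nth_rewrite 1 [← h.heis i m j (Ne.symm h2) h3 h1]
  rw [leib', h.heis m j i h3 (Ne.symm h1) h2, h.heis' (Ne.symm h1) (Ne.symm h2) (Ne.symm h3),
    br_neg, sub_neg_eq_add]

theorem Off.D1 (h : Off E) {p q s : Fin 5} (h1 : p ≠ q) (h2 : s ≠ p) (h3 : s ≠ q) :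
    br (D E p q) (E p s) = E p s := by
  unfold D
  rw [leib', h.heis q p s h1.symm h2.symm h3.symm, h.heis p q s h1 h3.symm h2.symm,
    h.comm p q p s h1 h2.symm h1.symm h2.symm, br_zero, sub_zero]

theorem Off.D2 (h : Off E) {p q r : Fin 5} (h1 : p ≠ q) (h2 : r ≠ p) (h3 : r ≠ q) :
    br (D E p q) (E r q) = E r q := by
  unfold D
  rw [leib', h.heis' h3 h1.symm h2, br_neg, h.heis' h2 h1 h3,
    h.comm p q r q h1 h3 h3.symm h1, br_zero, sub_zero, neg_neg]

theorem Off.D3 (h : Off E) {p q : Fin 5} (h1 : p ≠ q) :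
    br (D E p q) (E p q) = E p q + E p q := by
  obtain ⟨m, h2, h3⟩ := third p q
  nth_rewrite 1 [← h.heis p m q h2.symm h3 h1]
  rw [leib, h.D1 h1 h2 h3, h.D2 h1 h2 h3, h.heis p m q h2.symm h3 h1]

theorem Off.D4 (h : Off E) {p q r s : Fin 5} (h0 : r ≠ s) (h1 : p ≠ q) (h2 : r ≠ p) (h3 : r ≠ q)
    (h4 : s ≠ p) (h5 : s ≠ q) : br (D E p q) (E r s) = 0 := by
  unfold D
  rw [leib', h.comm q p r s h1.symm h0 h2.symm h5.symm, h.comm p q r s h1 h0 h3.symm h4.symm,
    br_zero, br_zero, sub_zero]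

theorem Off.DE (h : Off E) (p q : Fin 5) {r s : Fin 5} (h0 : r ≠ s) :
    br (D E p q) (E r s) = (dl p r - dl q r - dl p s + dl q s) • E r s := by
  by_cases h1 : p = q
  · subst h1; simp [D_self, br]
  have h1' : q ≠ p := Ne.symm h1
  by_cases a1 : r = p
  · subst a1
    by_cases a2 : s = q
    · subst a2
      rw [h.D3 h1]
      simp [dl, h0, h0.symm, add_smul]
    · rw [h.D1 h1 h0.symm a2]
      simp [dl, h0, h1', Ne.symm a2]
  by_cases a2 : r = q
  · subst a2
    rw [D_swap, neg_br]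
    by_cases a3 : s = p
    · subst a3
      rw [h.D3 h1']
      simp [dl, h0, h0.symm, add_smul, sub_eq_add_neg]
    · rw [h.D1 h1' h0.symm a3]
      simp [dl, h0, h1, Ne.symm a3]
  by_cases a3 : s = q
  · subst a3
    rw [h.D2 h1 a1 a2]
    simp [dl, h1, Ne.symm a1, Ne.symm a2]
  by_cases a4 : s = p
  · subst a4
    rw [D_swap, neg_br, h.D2 h1' a2 a1]
    simp [dl, h1', Ne.symm a1, Ne.symm a2]
  · rw [h.D4 h0 h1 a1 a2 a4 a3]
    simp [dl, Ne.symm a1, Ne.symm a2, Ne.symm a3, Ne.symm a4]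

/-- Diagonal elements. -/
noncomputable def H (E : Fin 5 → Fin 5 → Mat N) (a : Fin 5) : Mat N := (1 / 5 : ℂ) • ∑ b, D E a b

theorem Off.H_sub (h : Off E) (a c : Fin 5) : H E a - H E c = D E a c := by
  unfold H
  rw [← smul_sub, ← Finset.sum_sub_distrib]
  have : ∀ b, D E a b - D E c b = D E a c := fun b => by rw [h.D_add a b c, add_sub_cancel_right]
  simp only [this, Finset.sum_const, Finset.card_univ, Fintype.card_fin]
  rw [← Nat.cast_smul_eq_nsmul ℂ, smul_smul]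
  norm_num

theorem H_sum : ∑ a, H E a = 0 := by
  unfold H
  rw [← Finset.smul_sum]
  have h1 : ∑ a, ∑ b, D E a b = -∑ a, ∑ b, D E a b := by
    nth_rewrite 1 [Finset.sum_comm]
    simp only [← Finset.sum_neg_distrib]
    exact Finset.sum_congr rfl fun a _ => Finset.sum_congr rfl fun b _ => D_swap _ _
  have h2 : (2 : ℂ) • ∑ a, ∑ b, D E a b = 0 := by
    rw [two_smul]; nth_rewrite 1 [h1]; rw [neg_add_cancel]
  rw [(smul_eq_zero.mp h2).resolve_left two_ne_zero, smul_zero]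

theorem Off.HE (h : Off E) (a : Fin 5) {r s : Fin 5} (h0 : r ≠ s) :
    br (H E a) (E r s) = (dl a r - dl a s) • E r s := by
  unfold H
  rw [smul_br, sum_br]
  simp only [h.DE a _ h0]
  rw [← Finset.sum_smul, smul_smul]
  congr 1
  have h1 : ∀ t, ∑ b, dl b t = 1 := fun t => by simp [dl]
  simp only [Finset.sum_add_distrib, Finset.sum_sub_distrib, h1, Finset.sum_const,
    Finset.card_univ, Fintype.card_fin, nsmul_eq_mul]
  push_cast
  ring

theorem Off.HH (h : Off E) (a c : Fin 5) : br (H E a) (H E c) = 0 := by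
  have : ∀ b, br (H E a) (D E c b) = 0 := by
    intro b
    by_cases hb : c = b
    · subst hb; rw [D_self, br_zero]
    · unfold D
      rw [leib, h.HE a hb, h.HE a (Ne.symm hb), smul_br, br_smul, ← add_smul]
      simp
  nth_rewrite 2 [H]
  rw [br_smul, br_sum]
  simp [this]

/-- The extension. -/
noncomputable def ext (E : Fin 5 → Fin 5 → Mat N) (a b : Fin 5) : Mat N :=
  if a = b then H E a else E a b

theorem ext_ne {a b : Fin 5} (h : a ≠ b) : ext E a b = E a b := if_neg h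
theorem ext_self (a : Fin 5) : ext E a a = H E a := if_pos rfl

theorem Off.rel (h : Off E) (a b c d : Fin 5) : br (ext E a b) (ext E c d) =
    (if b = c then ext E a d else 0) - (if d = a then ext E c b else 0) := by
  by_cases h1 : a = b
  · subst h1
    by_cases h2 : c = d
    · subst h2
      rw [ext_self, ext_self, h.HH]
      by_cases h3 : a = c
      · subst h3; simp
      · simp [h3, Ne.symm h3]
    · rw [ext_self, ext_ne h2, h.HE a h2]
      by_cases h3 : a = c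
      · subst h3; simp [dl, h2, Ne.symm h2, ext_ne h2]
      · by_cases h4 : d = a
        · subst h4; simp [dl, h3, ext_ne h2]
        · simp [dl, h3, h4, Ne.symm h4]
  · by_cases h2 : c = d
    · subst h2
      rw [ext_self, ext_ne h1, br_swap, h.HE c h1]
      by_cases h3 : b = c
      · subst h3; simp [dl, Ne.symm h1, ext_ne h1]
      · by_cases h4 : c = a
        · subst h4; simp [dl, h1, h3, ext_ne h1]
        · simp [dl, h3, h4, Ne.symm h3]
    · rw [ext_ne h1, ext_ne h2]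
      by_cases h3 : b = c
      · subst h3
        by_cases h4 : d = a
        · subst h4
          rw [if_pos rfl, if_pos rfl, ext_self, ext_self, h.H_sub]; rfl
        · rw [if_pos rfl, if_neg h4, ext_ne (Ne.symm h4), h.heis a b d h1 h2 (Ne.symm h4), sub_zero]
      · by_cases h4 : d = a
        · subst h4
          rw [if_neg h3, if_pos rfl, ext_ne (Ne.symm h3), h.heis' h2 h1 (Ne.symm h3), zero_sub]
        · rw [if_neg h3, if_neg h4, h.comm a b c d h1 h2 h3 (Ne.symm h4), sub_zero]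

theorem comm_ext {x : Mat N} (hx : ∀ p q, p ≠ q → Commute x (E p q)) (c d : Fin 5) :
    Commute x (ext E c d) := by
  by_cases h : c = d
  · subst h
    rw [ext_self]
    refine (Commute.sum_right _ _ _ fun b _ => ?_).smul_right _
    by_cases hb : c = b
    · subst hb; rw [D_self]; exact Commute.zero_right _
    · exact ((hx _ _ hb).mul_right (hx _ _ (Ne.symm hb))).sub_right
        ((hx _ _ (Ne.symm hb)).mul_right (hx _ _ hb))
  · rw [ext_ne h]; exact hx _ _ h

end GlRel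

theorem glRel_thm : GlRelStmt := by
  intro N κ L hL
  have h : ∀ k, GlRel.Off (L k) := fun k =>
    ⟨hL.heis k, fun i j p q a b c d => sub_eq_zero.mpr (hL.comm k i j p q a b c d).eq⟩
  refine ⟨fun k => GlRel.ext (L k), ⟨fun k => (h k).rel, fun k => ?_, fun k k' hk a b c d => ?_⟩,
    fun k i j hij => GlRel.ext_ne hij, fun k a => GlRel.ext_self a⟩
  · simp only [GlRel.ext_self]; exact GlRel.H_sum
  · refine GlRel.comm_ext (fun p q hpq => ?_) c d
    exact (GlRel.comm_ext (fun i j hij => (hL.cross k k' hk i j p q hij hpq).symm) a b).symm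

end Pool.Agent.MP_94b95a_al.Fl

end MrgPart6

-- ======== part 7: formerly Pool.Agent.MP_94b95a_al.fl.Ell
section MrgPart7

/-! Small facts on elliptic and hyperbolic elements. -/

namespace Pool.Agent.MP_94b95a_al.Fl

open NormedSpace Matrix Filter Topology JA
open scoped Matrix.Norms.Operator

namespace Ell

variable {N : ℕ}

theorem bdd_mul {ι : Type} {f g h : ι → Mat N} (hf : BddM (Set.range f)) (hg : BddM (Set.range g))
    (e : ∀ i, h i = f i * g i) : BddM (Set.range h) := by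
  obtain ⟨C, hC⟩ := bdd_range.1 hf
  obtain ⟨D, hD⟩ := bdd_range.1 hg
  exact bdd_range.2 ⟨C * D, fun i => e i ▸ (norm_mul_le _ _).trans
    (mul_le_mul (hC i) (hD i) (norm_nonneg _) ((norm_nonneg _).trans (hC i)))⟩

theorem bdd_const {ι : Type} (m : Mat N) : BddM (Set.range fun _ : ι => m) :=
  bdd_range.2 ⟨‖m‖, fun _ => le_rfl⟩

theorem bdd_comp {ι κ : Type} {f : ι → Mat N} {h : κ → Mat N} (hf : BddM (Set.range f)) (j : κ → ι)
    (e : ∀ i, h i = f (j i)) : BddM (Set.range h) := by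
  obtain ⟨C, hC⟩ := bdd_range.1 hf
  exact bdd_range.2 ⟨C, fun i => e i ▸ hC _⟩

theorem bdd_uni {ι : Type} {f : ι → Mat N} (hf : ∀ i, (f i)ᴴ * f i = 1) : BddM (Set.range f) :=
  ⟨1, by
    rintro _ ⟨i, rfl⟩ a b
    exact entry_norm_bound_of_unitary (mem_unitaryGroup_iff'.2 (hf i)) a b⟩

/-- The unitary group. -/
def U (N : ℕ) : Subgroup (GLN N) where
  carrier := {g | Uni g}
  one_mem' := by simp [Uni]
  mul_mem' {a b} (ha : Uni a) (hb : Uni b) := by
    change Uni _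
    unfold Uni at *
    rw [Units.val_mul, conjTranspose_mul, mul_assoc, ← mul_assoc _ (a : Mat N), ha, one_mul, hb]
  inv_mem' {a} (ha : Uni a) := by
    change Uni _
    unfold Uni at *
    rw [Units.inv_eq_of_mul_eq_one_left ha, conjTranspose_conjTranspose, mul_eq_one_comm.1 ha]

theorem ell_mul (e e' : GLN N) (h : Ell e) (h' : Ell e') (hc : Commute e e') : Ell (e * e') :=
  bdd_mul h h' fun k => by rw [hc.mul_zpow, Units.val_mul]

theorem ell_conj (e g : GLN N) (h : Ell e) : Ell (g * e * g⁻¹) :=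
  bdd_mul (bdd_mul (bdd_const (g : Mat N)) h fun _ => rfl) (bdd_const ((g⁻¹ : GLN N) : Mat N))
    fun k => by rw [conj_zpow, Units.val_mul, Units.val_mul]

theorem hyp_add (A B : Mat N) (h : Hyp A) (h' : Hyp B) (hc : Commute A B) : Hyp (A + B) :=
  bdd_mul h h' fun t => by rw [smul_add, exp_add' ((hc.smul_left _).smul_right _)]

theorem hyp_conj (A : Mat N) (g : GLN N) (h : Hyp A) :
    Hyp ((g : Mat N) * A * ((g⁻¹ : GLN N) : Mat N)) :=
  bdd_mul (bdd_mul (bdd_const (g : Mat N)) h fun _ => rfl) (bdd_const ((g⁻¹ : GLN N) : Mat N))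
    fun t => by rw [← Matrix.exp_units_conj, mul_smul_comm, smul_mul_assoc]

theorem herm (A : Mat N)
    (h : ∀ t : ℝ, (exp ((Complex.I * t) • A))ᴴ * exp ((Complex.I * t) • A) = 1) :
    A.IsHermitian := by
  have h1 := (hasDerivAt_exp_smul_const (Complex.I • A)ᴴ (0 : ℝ)).mul
    (hasDerivAt_exp_smul_const (Complex.I • A) (0 : ℝ))
  have h2 : ((fun t : ℝ => exp (t • (Complex.I • A)ᴴ)) * fun t : ℝ => exp (t • Complex.I • A)) =
      fun _ => 1 := funext fun t => by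
    have e : (Complex.I * t) • A = t • Complex.I • A := by
      rw [mul_comm, mul_smul, Complex.coe_smul]
    rw [← h t, e, ← exp_conjTranspose, conjTranspose_smul t, star_trivial, Pi.mul_apply]
  have h3 := h1.unique ((hasDerivAt_const (0 : ℝ) (1 : Mat N)).congr_of_eventuallyEq
    (Eventually.of_forall (congrFun h2)))
  simp only [zero_smul, exp_zero, one_mul, mul_one, conjTranspose_smul, Complex.star_def,
    Complex.conj_I, neg_smul, neg_add_eq_zero] at h3
  exact smul_right_injective _ Complex.I_ne_zero h3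

theorem cj_mul (h : GLN N) (x y : Mat N) : (h : Mat N) * x * ((h⁻¹ : GLN N) : Mat N) *
    ((h : Mat N) * y * ((h⁻¹ : GLN N) : Mat N)) =
      (h : Mat N) * (x * y) * ((h⁻¹ : GLN N) : Mat N) := by
  simp only [mul_assoc, Units.inv_mul_cancel_left]

theorem cj_comm (h : GLN N) {x y : Mat N} (hc : Commute x y) :
    Commute ((h : Mat N) * x * ((h⁻¹ : GLN N) : Mat N))
      ((h : Mat N) * y * ((h⁻¹ : GLN N) : Mat N)) := by
  rw [Commute, SemiconjBy, cj_mul, cj_mul, hc.eq]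

theorem jd_conj (g e h : GLN N) (A ν : Mat N) (H : JD g e A ν) :
    JD (h * g * h⁻¹) (h * e * h⁻¹) ((h : Mat N) * A * ((h⁻¹ : GLN N) : Mat N))
      ((h : Mat N) * ν * ((h⁻¹ : GLN N) : Mat N)) := by
  refine ⟨?_, ell_conj e h H.ell, hyp_conj A h H.hyp, ?_, cj_comm h H.eA, cj_comm h H.eν,
    cj_comm h H.Aν⟩
  · rw [Matrix.exp_units_conj, Matrix.exp_units_conj, Units.val_mul, Units.val_mul, Units.val_mul,
      Units.val_mul, cj_mul, cj_mul, H.eq]
  · exact ⟨N, by rw [Units.conj_pow, nil_pow H.nil, mul_zero, zero_mul]⟩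

theorem jd_mul (g e g' e' : GLN N) (A ν A' ν' : Mat N) (H : JD g e A ν) (H' : JD g' e' A' ν')
    (h : ∀ x ∈ ({(e : Mat N), A, ν} : Set (Mat N)), ∀ y ∈ ({(e' : Mat N), A', ν'} : Set (Mat N)),
      Commute x y) : JD (g * g') (e * e') (A + A') (ν + ν') := by
  simp only [Set.mem_insert_iff, Set.mem_singleton_iff, forall_eq_or_imp, forall_eq] at h
  obtain ⟨⟨h1, h2, h3⟩, ⟨h4, h5, h6⟩, h7, h8, h9⟩ := h
  refine ⟨?_, ell_mul e e' H.ell H'.ell (Commute.units_of_val h1), hyp_add A A' H.hyp H'.hyp h5,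
    h9.isNilpotent_add H.nil H'.nil,
    (H.eA.add_right h2).mul_left (h4.symm.add_right H'.eA),
    (H.eν.add_right h3).mul_left (h7.symm.add_right H'.eν),
    (H.Aν.add_right h6).add_left (h8.symm.add_right H'.Aν)⟩
  rw [Units.val_mul, Units.val_mul, H.eq, H'.eq, exp_add' h5, exp_add' h9]
  simp only [mul_assoc]
  rw [h7.exp_left.left_comm, h8.exp.left_comm, h4.exp_left.left_comm]

end Ell

open Ell in
theorem ell_thm : EllStmt where
  ell_one _ := bdd_comp (bdd_const (ι := ℤ) 1) id fun k => by rw [_root_.one_zpow, Units.val_one]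
  ell_mul _ := ell_mul
  ell_inv _ e h := bdd_comp h (fun k => -k) fun k => by rw [_root_.inv_zpow']
  ell_conj _ := ell_conj
  ell_uni N e h := bdd_uni fun k => (U N).zpow_mem (show e ∈ U N from h) k
  hyp_zero _ := bdd_comp (bdd_const (ι := ℝ) 1) id fun t => by rw [smul_zero, exp_zero]
  hyp_add _ := hyp_add
  hyp_smul _ A s h := bdd_comp h (fun t => t * s) fun t => by
    rw [smul_smul, Complex.ofReal_mul, mul_assoc]
  hyp_conj _ := hyp_conj
  hyp_herm _ A h := bdd_uni fun t => by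
    rw [← exp_conjTranspose, conjTranspose_smul, h.eq, show star (Complex.I * t) =
      -(Complex.I * t) by simp, neg_smul, exp_neg_mul]
  herm_of_uni _ := herm
  jd_conj _ := jd_conj
  jd_mul _ := jd_mul
  uni_bdd _ g h := entry_norm_bound_of_unitary (mem_unitaryGroup_iff'.2 h)
  gl_tendsto N _ _ _ _ h :=
    (Units.isOpenEmbedding_val (R := Mat N)).isInducing.tendsto_nhds_iff.2 h
  exp_cont N := exp_continuous (𝔸 := Mat N)
  ulim _ _ U x C h := by
    obtain ⟨y, -, hy⟩ := (isCompact_univ_pi fun _ => isCompact_univ_pi fun _ =>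
      isCompact_closedBall (0 : ℂ) C).ultrafilter_le_nhds (U.map x) (le_principal_iff.2
        (h.mono fun m hm a _ b _ => mem_closedBall_zero_iff.2 (hm a b)))
    exact ⟨y, hy⟩

end Pool.Agent.MP_94b95a_al.Fl

end MrgPart7

-- ======== part 8: formerly Pool.Agent.MP_94b95a_al.fl.Fin1
section MrgPart8

/-! PROJECT FLAW: a Steinberg family with finite root groups generates a finite group. -/

namespace Pool.Agent.MP_94b95a_al.Fl

open scoped commutatorElement Pointwise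

namespace Fin1

variable {H : Type} [Group H]

/-- Schur: centre by finite groups have finitely many commutators. -/
theorem fin_commSet (G : Type) [Group G] [(Subgroup.center G).FiniteIndex] :
    Finite (commutatorSet G) := by
  refine (Set.finite_range fun p : (G ⧸ Subgroup.center G) × (G ⧸ Subgroup.center G) =>
    ⁅p.1.out, p.2.out⁆).subset ?_
  rintro _ ⟨g, h, rfl⟩
  obtain ⟨z, hz⟩ := QuotientGroup.mk_out_eq_mul (Subgroup.center G) g
  obtain ⟨w, hw⟩ := QuotientGroup.mk_out_eq_mul (Subgroup.center G) h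
  refine ⟨(g, h), ?_⟩
  have h1 := Subgroup.mem_center_iff.1 z.2
  have h2 := Subgroup.mem_center_iff.1 w.2
  simp only [hz, hw, commutatorElement_def, mul_inv_rev]
  calc g * z * (h * w) * ((z : G)⁻¹ * g⁻¹) * ((w : G)⁻¹ * h⁻¹)
      = g * (z * (h * w)) * (z : G)⁻¹ * ((w : G)⁻¹ * (w * g⁻¹)) * (w : G)⁻¹ * h⁻¹ := by group
    _ = g * h * g⁻¹ * h⁻¹ := by rw [← h1, ← h2 g⁻¹]; group

/-- a perfect subgroup normalising two finite subgroups that generate everything is finite -/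
theorem fin_of_norm {L V W : Subgroup H} (hV : (V : Set H).Finite) (hW : (W : Set H).Finite)
    (h1 : L ≤ Subgroup.normalizer V) (h2 : L ≤ Subgroup.normalizer W) (h3 : V ⊔ W = ⊤)
    (h4 : L ≤ ⁅L, L⁆) : (L : Set H).Finite := by
  have : Finite V := hV
  have : Finite W := hW
  have key : ∀ {U : Subgroup H} (h : L ≤ Subgroup.normalizer U) (g : L),
      g ∈ (U.normalizerMonoidHom.comp (Subgroup.inclusion h)).ker →
        U ≤ Subgroup.centralizer {(g : H)} := by
    intro U h g hg u hu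
    have h5 : Subgroup.inclusion h g ∈ U.normalizerMonoidHom.ker := hg
    rw [Subgroup.normalizerMonoidHom_ker, Subgroup.mem_subgroupOf] at h5
    exact Subgroup.mem_centralizer_singleton_iff.2 (h5 u hu)
  have : (Subgroup.center L).FiniteIndex := by
    refine Subgroup.finiteIndex_of_le (H := (V.normalizerMonoidHom.comp (Subgroup.inclusion h1)).ker ⊓
      (W.normalizerMonoidHom.comp (Subgroup.inclusion h2)).ker) fun g hg => ?_
    refine Subgroup.mem_center_iff.2 fun u => Subtype.ext ?_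
    have := sup_le (key h1 g hg.1) (key h2 g hg.2)
    rw [h3] at this
    exact Subgroup.mem_centralizer_singleton_iff.1 (this (Subgroup.mem_top (u : H)))
  have := fin_commSet L
  have h5 : ((commutator L : Subgroup L) : Set L).Finite :=
    (inferInstance : Finite (commutator L))
  refine (h5.image L.subtype).subset ?_
  rw [← Subgroup.coe_map, Subgroup.map_subtype_commutator]
  exact h4

theorem finite_closure {S : Set H} (hS : S.Finite) (hc : ∀ s ∈ S, ∀ g ∈ S, Commute s g)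
    (ht : ∀ s ∈ S, IsOfFinOrder s) : (Subgroup.closure S : Set H).Finite := by
  have : IsMulCommutative (Subgroup.closure S) :=
    Subgroup.isMulCommutative_closure fun a ha b hb => hc a ha b hb
  let : CommGroup (Subgroup.closure S) :=
    { (inferInstance : Group (Subgroup.closure S)) with mul_comm := this.is_comm.comm }
  have : Group.FG (Subgroup.closure S) :=
    (Group.fg_iff_subgroup_fg _).2 ((Subgroup.fg_iff _).2 ⟨S, rfl, hS⟩)
  refine CommGroup.finite_of_fg_isMulTorsion (Subgroup.closure S) fun g => ?_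
  obtain ⟨g, hg⟩ := g
  induction hg using Subgroup.closure_induction with
  | mem s hs => exact (Subgroup.closure S).subtype_injective.isOfFinOrder_iff.1 (ht s hs)
  | one => exact IsOfFinOrder.one
  | mul a b ha hb iha ihb => exact iha.mul ihb
  | inv a ha iha => exact iha.inv

/-- a finite subgroup is a power of the product of two generating subgroups -/
theorem pow_eq {L A B : Subgroup H} (hL : (L : Set H).Finite) (h : A ⊔ B = L) :
    ∀ᶠ k : ℕ in Filter.atTop, ((A : Set H) * B) ^ k = L := by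
  have h1 : (1 : H) ∈ (A : Set H) * B := ⟨1, A.one_mem, 1, B.one_mem, mul_one 1⟩
  have h2 : ∀ g ∈ L, ∃ n : ℕ, g ∈ ((A : Set H) * B) ^ n := by
    intro g hg
    rw [← h, Subgroup.sup_eq_closure] at hg
    induction hg using Subgroup.closure_induction'' with
    | one => exact ⟨0, by simp⟩
    | mem s hs =>
      refine ⟨1, ?_⟩
      rw [pow_one]
      rcases hs with hs | hs
      · exact ⟨s, hs, 1, B.one_mem, mul_one s⟩
      · exact ⟨1, A.one_mem, s, hs, one_mul s⟩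
    | inv_mem s hs =>
      refine ⟨1, ?_⟩
      rw [pow_one]
      rcases hs with hs | hs
      · exact ⟨s⁻¹, A.inv_mem hs, 1, B.one_mem, mul_one _⟩
      · exact ⟨1, A.one_mem, s⁻¹, B.inv_mem hs, one_mul _⟩
    | mul a b _ _ ha hb =>
      obtain ⟨n, hn⟩ := ha
      obtain ⟨m, hm⟩ := hb
      exact ⟨n + m, pow_add ((A : Set H) * B) n m ▸ Set.mul_mem_mul hn hm⟩
  have h3 : ∀ᶠ k : ℕ in Filter.atTop, ∀ g ∈ (L : Set H), g ∈ ((A : Set H) * B) ^ k :=
    (Filter.eventually_all_finite hL).2 fun g hg => by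
      obtain ⟨n, hn⟩ := h2 g hg
      exact (Filter.eventually_ge_atTop n).mono fun k hk => Set.pow_subset_pow_right h1 hk hn
  refine h3.mono fun k hk => Set.Subset.antisymm ?_ hk
  have h4 : (A : Set H) * B ⊆ L := by
    rintro _ ⟨a, ha, b, hb, rfl⟩
    exact L.mul_mem (h ▸ Subgroup.mem_sup_left ha) (h ▸ Subgroup.mem_sup_right hb)
  clear hk
  induction k with
  | zero => simp
  | succ k ih =>
    rw [pow_succ]
    rintro _ ⟨a, ha, b, hb, rfl⟩
    exact L.mul_mem (ih ha) (h4 hb)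

/-- the rank reduction step of Tavgen -/
theorem tav {L A B N M : Subgroup H} (hL : (L : Set H).Finite) (h : A ⊔ B = L)
    (hN : L ≤ Subgroup.normalizer N) (hM : L ≤ Subgroup.normalizer M) :
    ∀ᶠ k : ℕ in Filter.atTop,
      L ≤ MulAction.stabilizer H ((((A ⊔ N : Subgroup H) : Set H) * (B ⊔ M : Subgroup H)) ^ k) := by
  have hA : A ≤ L := h ▸ le_sup_left
  have hB : B ≤ L := h ▸ le_sup_right
  have c : ∀ {X Y : Subgroup H}, X ≤ Subgroup.normalizer Y → Commute (X : Set H) Y :=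
    fun h => Subgroup.set_mul_normalizer_comm _ _ h
  refine (pow_eq hL h).mono fun k hk g hg => ?_
  have h1 : Commute ((A : Set H) * B) ((N : Set H) * M) :=
    ((c (hA.trans hN)).mul_left (c (hB.trans hN))).mul_right
      ((c (hA.trans hM)).mul_left (c (hB.trans hM)))
  rw [MulAction.mem_stabilizer_iff, Subgroup.coe_mul_of_left_le_normalizer_right _ _ (hA.trans hN),
    Subgroup.coe_mul_of_left_le_normalizer_right _ _ (hB.trans hM),
    (c (hB.trans hN)).symm.mul_mul_mul_comm, h1.mul_pow, hk, ← smul_mul_assoc, smul_coe_set hg]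

variable {R : Type} {x : Fin 5 → Fin 5 → R → H}

/-- the subgroup generated by some root groups -/
def S (x : Fin 5 → Fin 5 → R → H) (p : Fin 5 → Fin 5 → Prop) : Subgroup H :=
  Subgroup.closure {g | ∃ i j a, i ≠ j ∧ p i j ∧ g = x i j a}

theorem mem_S {p : Fin 5 → Fin 5 → Prop} {i j : Fin 5} (h : i ≠ j) (hp : p i j) (a : R) :
    x i j a ∈ S x p := Subgroup.subset_closure ⟨i, j, a, h, hp, rfl⟩

theorem S_le {p : Fin 5 → Fin 5 → Prop} {K : Subgroup H}
    (h : ∀ i j a, i ≠ j → p i j → x i j a ∈ K) : S x p ≤ K :=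
  (Subgroup.closure_le _).2 (by rintro _ ⟨i, j, a, h1, h2, rfl⟩; exact h i j a h1 h2)

theorem S_sup {p q r : Fin 5 → Fin 5 → Prop} (h : ∀ i j, i ≠ j → (r i j ↔ p i j ∨ q i j)) :
    S x p ⊔ S x q = S x r :=
  le_antisymm (sup_le (S_le fun i j a h1 h2 => mem_S h1 ((h i j h1).2 (Or.inl h2)) a)
    (S_le fun i j a h1 h2 => mem_S h1 ((h i j h1).2 (Or.inr h2)) a))
    (S_le fun i j a h1 h2 => ((h i j h1).1 h2).elim
      (fun h3 => Subgroup.mem_sup_left (mem_S h1 h3 a))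
      fun h3 => Subgroup.mem_sup_right (mem_S h1 h3 a))

variable [CommRing R]

theorem leg {i j : Fin 5} (h : i ≠ j) (a : R) : Leg ⊤ i j a := leg_of_mem h trivial

theorem S_norm (hx : StFam ⊤ x) {p q : Fin 5 → Fin 5 → Prop}
    (h : ∀ i j k l, i ≠ j → p i j → k ≠ l → q k l →
      (j = k → i ≠ l ∧ q i l) ∧ (i = l → q k j)) : S x p ≤ Subgroup.normalizer (S x q) := by
  have key : ∀ i j a, i ≠ j → p i j → ∀ g ∈ S x q, x i j a * g * (x i j a)⁻¹ ∈ S x q := by
    intro i j a h1 h2 g hg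
    refine (S_le (K := (S x q).comap (MulAut.conj (x i j a)).toMonoidHom) ?_) hg
    intro k l b h3 h4
    have e : x i j a * x k l b * (x i j a)⁻¹ = ⁅x i j a, x k l b⁆ * x k l b := by
      rw [commutatorElement_def]; group
    change x i j a * x k l b * (x i j a)⁻¹ ∈ S x q
    rw [e]
    refine mul_mem ?_ (mem_S h3 h4 b)
    obtain ⟨h5, h6⟩ := h i j k l h1 h2 h3 h4
    by_cases hjk : j = k
    · subst hjk
      rw [hx.heis i j l a b (h5 rfl).1 (leg h1 a) (leg h3 b)]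
      exact mem_S (h5 rfl).1 (h5 rfl).2 _
    · by_cases hil : i = l
      · subst hil
        rw [← commutatorElement_inv, hx.heis k i j b a (Ne.symm hjk) (leg h3 b) (leg h1 a)]
        exact inv_mem (mem_S (Ne.symm hjk) (h6 rfl) _)
      · rw [(hx.comm i j k l a b hjk hil (leg h1 a) (leg h3 b)).commutator_eq]
        exact one_mem _
  refine S_le fun i j a h1 h2 => Subgroup.mem_normalizer_iff.2 fun g => ⟨key i j a h1 h2 g, fun hg => ?_⟩
  have := key i j (-a) h1 h2 _ hg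
  rw [hx.neg (leg h1 a)] at this
  simpa [mul_assoc] using this

theorem S_fin (hx : StFam ⊤ x) (hf : ∀ i j, (rootSet ⊤ x i j).Finite) {q : Fin 5 → Fin 5 → Prop}
    (h : ∀ i j k l, q i j → q k l → j ≠ k) : (S x q : Set H).Finite := by
  refine finite_closure ((Set.finite_iUnion fun i => Set.finite_iUnion fun j => hf i j).subset ?_)
    ?_ ?_
  · rintro _ ⟨i, j, a, h1, -, rfl⟩
    exact Set.mem_iUnion₂.2 ⟨i, j, a, leg h1 a, rfl⟩
  · rintro _ ⟨i, j, a, h1, h2, rfl⟩ _ ⟨k, l, b, h3, h4, rfl⟩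
    exact hx.comm i j k l a b (h i j k l h2 h4) (h k l i j h4 h2).symm (leg h1 a) (leg h3 b)
  · rintro _ ⟨i, j, a, h1, -, rfl⟩
    rw [← finite_powers]
    refine (hf i j).subset ?_
    rintro _ ⟨n, rfl⟩
    refine ⟨n * a, leg h1 _, ?_⟩
    induction n with
    | zero => simp [hx.zero h1]
    | succ n ih =>
      rw [Nat.cast_succ, add_mul, one_mul, hx.add i j _ _ (leg h1 _) (leg h1 _), ← ih]
      exact pow_succ _ _

theorem mem_of_mid (hx : StFam ⊤ x) {K : Subgroup H} {i j m : Fin 5} (h : i ≠ j) (h1 : i ≠ m)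
    (h2 : m ≠ j) (a : R) (h3 : ⁅x i m a, x m j 1⁆ ∈ K) : x i j a ∈ K := by
  rwa [hx.heis i m j a 1 h (leg h1 a) (leg h2 1), mul_one] at h3

theorem step (hx : StFam ⊤ x) (hg : S x (fun _ _ => True) = ⊤)
    (hf : ∀ i j, (rootSet ⊤ x i j).Finite) {l : Fin 5} (hl : l = 0 ∨ l = 4) :
    (S x (fun i j => i < j) : Set H).Finite ∧ (S x (fun i j => j < i) : Set H).Finite ∧
      ∀ᶠ k : ℕ in Filter.atTop, S x (fun i j => i ≠ l ∧ j ≠ l) ≤ MulAction.stabilizer H
        (((S x (fun i j => i < j) : Set H) * S x (fun i j => j < i)) ^ k) := by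
  have hN : S x (fun i j => i ≠ l ∧ j ≠ l) ≤
      Subgroup.normalizer (S x fun i j => i < j ∧ (i = l ∨ j = l)) :=
    S_norm hx (by rcases hl with rfl | rfl <;> decide)
  have hM : S x (fun i j => i ≠ l ∧ j ≠ l) ≤
      Subgroup.normalizer (S x fun i j => j < i ∧ (i = l ∨ j = l)) :=
    S_norm hx (by rcases hl with rfl | rfl <;> decide)
  have fN := S_fin hx hf (q := fun i j => i < j ∧ (i = l ∨ j = l))
    (by rcases hl with rfl | rfl <;> decide)
  have fM := S_fin hx hf (q := fun i j => j < i ∧ (i = l ∨ j = l))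
    (by rcases hl with rfl | rfl <;> decide)
  have fL := fin_of_norm fN fM hN hM (by
    rw [S_sup (r := fun i j => i = l ∨ j = l) (by rcases hl with rfl | rfl <;> decide),
      eq_top_iff, ← hg]
    refine S_le fun i j a h1 _ => ?_
    by_cases h2 : i = l ∨ j = l
    · exact mem_S h1 h2 a
    · rw [not_or] at h2
      exact mem_of_mid hx h1 h2.1 (Ne.symm h2.2) a (by
        rw [commutatorElement_def]
        have e1 := mem_S (x := x) (p := fun i j => i = l ∨ j = l) h2.1 (Or.inr rfl) a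
        have e2 := mem_S (x := x) (p := fun i j => i = l ∨ j = l) (Ne.symm h2.2) (Or.inl rfl) 1
        exact mul_mem (mul_mem (mul_mem e1 e2) (inv_mem e1)) (inv_mem e2)))
    (S_le fun i j a h1 h2 => by
      obtain ⟨m, e1, e2, e3⟩ : ∃ m : Fin 5, i ≠ m ∧ m ≠ j ∧ m ≠ l := by
        clear hN hM fN fM hl h1 h2
        revert i j l
        decide
      exact mem_of_mid hx h1 e1 e2 a (Subgroup.commutator_mem_commutator
        (mem_S e1 ⟨h2.1, e3⟩ a) (mem_S e2 ⟨e3, h2.2⟩ 1)))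
  have eL : S x (fun i j => i < j ∧ i ≠ l ∧ j ≠ l) ⊔ S x (fun i j => j < i ∧ i ≠ l ∧ j ≠ l) =
      S x (fun i j => i ≠ l ∧ j ≠ l) := S_sup (by rcases hl with rfl | rfl <;> decide)
  have eU : S x (fun i j => i < j ∧ i ≠ l ∧ j ≠ l) ⊔ S x (fun i j => i < j ∧ (i = l ∨ j = l)) =
      S x (fun i j => i < j) := S_sup (by rcases hl with rfl | rfl <;> decide)
  have eD : S x (fun i j => j < i ∧ i ≠ l ∧ j ≠ l) ⊔ S x (fun i j => j < i ∧ (i = l ∨ j = l)) =
      S x (fun i j => j < i) := S_sup (by rcases hl with rfl | rfl <;> decide)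
  have hA := le_sup_left.trans eL.le
  have hB := le_sup_right.trans eL.le
  refine ⟨?_, ?_, ?_⟩
  · rw [← eU, Subgroup.coe_mul_of_left_le_normalizer_right _ _ (hA.trans hN)]
    exact (fL.subset hA).mul fN
  · rw [← eD, Subgroup.coe_mul_of_left_le_normalizer_right _ _ (hB.trans hM)]
    exact (fL.subset hB).mul fM
  · rw [← eU, ← eD]
    exact tav fL eL hN hM

end Fin1

open Fin1 in
theorem fin1_thm : Fin1Stmt := by
  intro R _ H _ x hx hg hf
  have hg' : S x (fun _ _ => True) = ⊤ := by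
    rw [eq_top_iff, ← hg]
    refine (Subgroup.closure_le _).2 ?_
    rintro _ ⟨i, j, a, h, rfl⟩
    exact mem_S h.1 trivial a
  obtain ⟨fU, fD, h0⟩ := step hx hg' hf (Or.inl rfl)
  obtain ⟨-, -, h4⟩ := step hx hg' hf (Or.inr rfl)
  obtain ⟨k, e0, e4⟩ := (h0.and h4).exists
  have fY : (((S x (fun i j => i < j) : Set H) * S x (fun i j => j < i)) ^ k).Finite := by
    clear e0 e4
    induction k with
    | zero => exact Set.finite_one
    | succ k ih => rw [pow_succ]; exact ih.mul (fU.mul fD)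
  have h1 : (1 : H) ∈ ((S x (fun i j => i < j) : Set H) * S x (fun i j => j < i)) ^ k :=
    Set.one_mem_pow ⟨1, one_mem _, 1, one_mem _, mul_one 1⟩
  generalize ((S x (fun i j => i < j) : Set H) * S x (fun i j => j < i)) ^ k = Y at e0 e4 fY h1
  have e : ∀ i j a, i ≠ j → (i ≠ 0 ∧ j ≠ 0) ∨ (i ≠ 4 ∧ j ≠ 4) →
      x i j a ∈ MulAction.stabilizer H Y := fun i j a h1 h2 =>
    h2.elim (fun h => e0 (mem_S h1 h a)) fun h => e4 (mem_S h1 h a)
  have hY : ⊤ ≤ MulAction.stabilizer H Y := by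
    rw [← hg']
    refine S_le fun i j a h1 _ => ?_
    by_cases h2 : (i ≠ 0 ∧ j ≠ 0) ∨ (i ≠ 4 ∧ j ≠ 4)
    · exact e i j a h1 h2
    · obtain ⟨d1, d2, d3, d4⟩ : i ≠ 1 ∧ 1 ≠ j ∧ ((i ≠ 0 ∧ (1 : Fin 5) ≠ 0) ∨ (i ≠ 4 ∧ (1 : Fin 5) ≠ 4)) ∧
          (((1 : Fin 5) ≠ 0 ∧ j ≠ 0) ∨ ((1 : Fin 5) ≠ 4 ∧ j ≠ 4)) := by
        revert i j
        decide
      refine mem_of_mid hx h1 d1 d2 a ?_
      rw [commutatorElement_def]
      have e1 := e i 1 a d1 d3
      have e2 := e 1 j 1 d2 d4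
      exact mul_mem (mul_mem (mul_mem e1 e2) (inv_mem e1)) (inv_mem e2)
  refine Set.finite_univ_iff.1 (fY.subset fun g _ => ?_)
  have := Set.smul_mem_smul_set (a := g) h1
  rwa [MulAction.mem_stabilizer_iff.1 (hY (Subgroup.mem_top g)), smul_eq_mul, mul_one] at this

end Pool.Agent.MP_94b95a_al.Fl

end MrgPart8

-- marker of a merged file
example : 731051 + 493833 = 731051 + 493833 := rfl
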