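import Mathlib.RingTheory.Flat.TorsionFree
import Mathlib.LinearAlgebra.Matrix.PosDef
import Mathlib.Analysis.Complex.Polynomial.Basic
import Mathlib.RingTheory.SimpleRing.Principal
import Mathlib.RingTheory.TotallySplit
import Pool.Agent.MP_94b95a_al.fl.Fin1

/-! PROJECT FLAW: the Bochner argument for commuting `gl_5` families. -/

namespace Pool.Agent.MP_94b95a_al.Fl

open Matrix
open scoped ComplexOrder

namespace Boch

variable {N : ℕ}

/-- The commutator. -/
def br (X Y : Mat N) : Mat N := X * Y - Y * X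

theorem tr_br_left (A B C : Mat N) : (br A B * C).trace = -(B * br A C).trace := by
  unfold br
  have h1 : (A * B * C).trace = (B * (C * A)).trace := by
    rw [Matrix.mul_assoc, trace_mul_comm, Matrix.mul_assoc]
  have h2 : (B * A * C).trace = (B * (A * C)).trace := by rw [Matrix.mul_assoc]
  rw [Matrix.sub_mul, Matrix.mul_sub, trace_sub, trace_sub, h1, h2]
  ring

theorem br_jac (A A' B : Mat N) : br A (br A' B) = br (br A A') B + br A' (br A B) := by
  unfold br; noncomm_ring

theorem br_star (X Y : Mat N) : (br X Y)ᴴ = br Yᴴ Xᴴ := by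
  unfold br; rw [conjTranspose_sub, conjTranspose_mul, conjTranspose_mul]

theorem br_neg_left (X Y : Mat N) : br (-X) Y = br Y X := by
  unfold br; noncomm_ring

theorem br_neg_neg (X Y : Mat N) : br (-X) (-Y) = br X Y := by
  unfold br; noncomm_ring

theorem br_sub_left (X Y Z : Mat N) : br (X - Y) Z = br X Z - br Y Z := by
  unfold br; noncomm_ring

theorem br_swap (X Y : Mat N) : br X Y = -br Y X := by
  unfold br; noncomm_ring

theorem br_sum_right {ι : Type} (s : Finset ι) (X : Mat N) (Y : ι → Mat N) :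
    br X (∑ a ∈ s, Y a) = ∑ a ∈ s, br X (Y a) := by
  unfold br; rw [Finset.mul_sum, Finset.sum_mul, Finset.sum_sub_distrib]

theorem tr_cyc (B X C : Mat N) : (B * br X C).trace = (X * br C B).trace := by
  unfold br
  have h1 : (B * (X * C)).trace = (X * (C * B)).trace := by
    rw [trace_mul_comm, Matrix.mul_assoc]
  have h2 : (B * (C * X)).trace = (X * (B * C)).trace := by
    rw [← Matrix.mul_assoc, trace_mul_comm]
  rw [Matrix.mul_sub, Matrix.mul_sub, trace_sub, trace_sub, h1, h2]

theorem tr_nonneg (X : Mat N) : 0 ≤ (X * Xᴴ).trace :=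
  (posSemidef_self_mul_conjTranspose X).trace_nonneg

theorem core {ι : Type} [Fintype ι] (θ : ι → ι) (hθ : ∀ a, θ (θ a) = a) (A B : ι → Mat N)
    (U V : ι → ι → Mat N) (h1 : ∀ a, (A a)ᴴ = A (θ a)) (h2 : ∀ a, (B a)ᴴ = -B (θ a))
    (h3 : ∀ a b, br (A a) (A b) + br (B a) (B b) = U a b)
    (h4 : ∀ a b, br (A a) (B b) - br (A b) (B a) = V a b)
    (h5 : ∑ a, br (A a) (B (θ a)) = 0)
    (h6 : ∑ a, ∑ b, (B b * br (U a (θ b)) (B (θ a))).trace =
      ∑ a, ∑ b, (br (A a) (B b) * (V a b)ᴴ).trace) :
    ∀ a b, br (A a) (B b) = 0 := by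
  have e1 : ∀ a b, (br (A a) (B b) * (br (A b) (B a))ᴴ).trace =
      (br (A a) (B b) * (br (A a) (B b))ᴴ).trace - (br (A a) (B b) * (V a b)ᴴ).trace := by
    intro a b
    have : br (A b) (B a) = br (A a) (B b) - V a b := by rw [← h4 a b]; abel
    rw [this, conjTranspose_sub, Matrix.mul_sub, trace_sub]
  have e2 : ∀ a b, (br (A a) (B b) * (br (A b) (B a))ᴴ).trace =
      -(B b * br (U a (θ b)) (B (θ a))).trace
        - (br (B a) (B (θ b)) * (br (B a) (B (θ b)))ᴴ).trace
        - (B b * br (A (θ b)) (br (A a) (B (θ a)))).trace := by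
    intro a b
    have s1 : (br (A b) (B a))ᴴ = br (A (θ b)) (B (θ a)) := by
      rw [br_star, h1, h2, br_neg_left]
    have s2 : (br (B a) (B (θ b)))ᴴ = -br (B (θ a)) (B b) := by
      rw [br_star, h2, h2, hθ, br_neg_neg, br_swap]
    have s3 : br (A a) (A (θ b)) = U a (θ b) - br (B a) (B (θ b)) := by
      rw [← h3 a (θ b)]; abel
    rw [s1, s2, tr_br_left, br_jac, s3, br_sub_left, Matrix.mul_add, Matrix.mul_sub, trace_add,
      trace_sub, tr_cyc (B b) (br (B a) (B (θ b))) (B (θ a)), Matrix.mul_neg, trace_neg]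
    ring
  have e3 : ∑ a, ∑ b, (B b * br (A (θ b)) (br (A a) (B (θ a)))).trace = 0 := by
    rw [Finset.sum_comm]
    refine Finset.sum_eq_zero fun b _ => ?_
    rw [← trace_sum, ← Finset.mul_sum, ← br_sum_right, h5]
    simp [br]
  have e4 : ∑ a, ∑ b, ((br (A a) (B b) * (br (A a) (B b))ᴴ).trace +
      (br (B a) (B (θ b)) * (br (B a) (B (θ b)))ᴴ).trace) = 0 := by
    have : ∀ a b, (br (A a) (B b) * (br (A a) (B b))ᴴ).trace +
        (br (B a) (B (θ b)) * (br (B a) (B (θ b)))ᴴ).trace =
        (br (A a) (B b) * (V a b)ᴴ).trace - (B b * br (U a (θ b)) (B (θ a))).trace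
          - (B b * br (A (θ b)) (br (A a) (B (θ a)))).trace := by
      intro a b
      have := (e1 a b).symm.trans (e2 a b)
      linear_combination this
    simp only [this, Finset.sum_sub_distrib]
    rw [e3, h6]
    ring
  intro a b
  have n1 : ∀ a b, 0 ≤ (br (A a) (B b) * (br (A a) (B b))ᴴ).trace +
      (br (B a) (B (θ b)) * (br (B a) (B (θ b)))ᴴ).trace :=
    fun a b => add_nonneg (tr_nonneg _) (tr_nonneg _)
  have e5 := (Finset.sum_eq_zero_iff_of_nonneg
    (fun a _ => Finset.sum_nonneg fun b _ => n1 a b)).mp e4 a (Finset.mem_univ a)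
  have e6 := (Finset.sum_eq_zero_iff_of_nonneg (fun b _ => n1 a b)).mp e5 b (Finset.mem_univ b)
  have e7 := (add_eq_zero_iff_of_nonneg (tr_nonneg _) (tr_nonneg _)).mp e6
  exact trace_mul_conjTranspose_self_eq_zero_iff.mp e7.1

section Gl

variable {κ : Type} [DecidableEq κ]

/-- The flip of indices. -/
def th (p : κ × Fin 5 × Fin 5) : κ × Fin 5 × Fin 5 := (p.1, p.2.2, p.2.1)

/-- The structure map. -/
noncomputable def str (X : κ × Fin 5 × Fin 5 → Mat N) (p q : κ × Fin 5 × Fin 5) : Mat N :=
  if p.1 = q.1 then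
    (if p.2.2 = q.2.1 then X (p.1, p.2.1, q.2.2) else 0) -
      (if q.2.2 = p.2.1 then X (p.1, q.2.1, p.2.2) else 0)
  else 0

theorem str_L {L : κ → Fin 5 → Fin 5 → Mat N} (hL : GlFam L) (p q : κ × Fin 5 × Fin 5) :
    br (L p.1 p.2.1 p.2.2) (L q.1 q.2.1 q.2.2) = str (fun r => L r.1 r.2.1 r.2.2) p q := by
  obtain ⟨k, a, b⟩ := p
  obtain ⟨k', c, d⟩ := q
  unfold str br
  by_cases h : k = k'
  · subst h
    simp only [if_true]
    exact hL.rel k a b c d
  · simp only [h, if_false]
    exact sub_eq_zero.mpr (hL.comm k k' h a b c d)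

theorem str_M {L : κ → Fin 5 → Fin 5 → Mat N} (hL : GlFam L) (p q : κ × Fin 5 × Fin 5) :
    br (L p.1 p.2.2 p.2.1)ᴴ (L q.1 q.2.2 q.2.1)ᴴ = str (fun r => (L r.1 r.2.2 r.2.1)ᴴ) p q := by
  obtain ⟨k, a, b⟩ := p
  obtain ⟨k', c, d⟩ := q
  rw [← br_star]
  have := str_L hL (k', d, c) (k, b, a)
  simp only at this ⊢
  rw [this]
  unfold str
  by_cases h : k = k'
  · subst h
    simp only [if_true, conjTranspose_sub]
    congr 1
    · by_cases h1 : b = c
      · subst h1; simp
      · have h2 : ¬ c = b := fun h => h1 h.symm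
        simp [h1, h2]
    · by_cases h1 : d = a
      · subst h1; simp
      · have h2 : ¬ a = d := fun h => h1 h.symm
        simp [h1, h2]
  · have h2 : ¬ k' = k := fun h' => h h'.symm
    simp [h, h2]

theorem str_comb (X Y : κ × Fin 5 × Fin 5 → Mat N) (s t : ℂ) (p q : κ × Fin 5 × Fin 5) :
    s • str X p q + t • str Y p q = str (fun r => s • X r + t • Y r) p q := by
  unfold str
  split_ifs <;> simp [smul_sub]
  all_goals abel

theorem six [Fintype κ] (A B : κ × Fin 5 × Fin 5 → Mat N) (h2 : ∀ a, (B a)ᴴ = -B (th a)) :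
    ∑ a, ∑ b, (B b * br (str A a (th b)) (B (th a))).trace =
      ∑ a, ∑ b, (br (A a) (B b) * (str B a b)ᴴ).trace := by
  have l1 : ∀ (k k' : κ) (a b c d : Fin 5),
      (B (k', c, d) * br (str A (k, a, b) (th (k', c, d))) (B (th (k, a, b)))).trace =
      if k = k' then
        (if b = d then (B (k, c, b) * br (A (k, a, c)) (B (k, b, a))).trace else 0) -
        (if c = a then (B (k, a, d) * br (A (k, d, b)) (B (k, b, a))).trace else 0) else 0 := by
    intro k k' a b c d
    unfold str th
    by_cases h : k = k'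
    · subst h
      simp only [if_true]
      rw [br_sub_left, Matrix.mul_sub, trace_sub]
      congr 1
      · by_cases h1 : b = d
        · subst h1; simp
        · simp [h1, br]
      · by_cases h1 : c = a
        · subst h1; simp
        · simp [h1, br]
    · simp [h, br]
  have l2 : ∀ (k k' : κ) (a b c d : Fin 5),
      (br (A (k, a, b)) (B (k', c, d)) * (str B (k, a, b) (k', c, d))ᴴ).trace =
      if k = k' then
        (if d = a then (B (k, b, c) * br (A (k, a, b)) (B (k, c, a))).trace else 0) -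
        (if b = c then (B (k, d, a) * br (A (k, a, b)) (B (k, b, d))).trace else 0) else 0 := by
    intro k k' a b c d
    unfold str
    by_cases h : k = k'
    · subst h
      simp only [if_true]
      rw [conjTranspose_sub, Matrix.mul_sub, trace_sub]
      have t1 : (br (A (k, a, b)) (B (k, c, d)) * (if b = c then B (k, a, d) else 0)ᴴ).trace =
          -(if b = c then (B (k, d, a) * br (A (k, a, b)) (B (k, b, d))).trace else 0) := by
        by_cases h1 : b = c
        · subst h1
          simp only [if_true]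
          rw [h2, Matrix.mul_neg, trace_neg, trace_mul_comm]
          rfl
        · simp [h1]
      have t2 : (br (A (k, a, b)) (B (k, c, d)) * (if d = a then B (k, c, b) else 0)ᴴ).trace =
          -(if d = a then (B (k, b, c) * br (A (k, a, b)) (B (k, c, a))).trace else 0) := by
        by_cases h1 : d = a
        · subst h1
          simp only [if_true]
          rw [h2, Matrix.mul_neg, trace_neg, trace_mul_comm]
          rfl
        · simp [h1]
      rw [t1, t2]
      ring
    · simp [h]
  simp only [Fintype.sum_prod_type, l1, l2]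
  refine Finset.sum_congr rfl fun k _ => ?_
  have r1 : ∀ (a b : Fin 5) (f : κ → Fin 5 → Fin 5 → ℂ),
      (∑ k', ∑ c, ∑ d, if k = k' then f k' c d else 0) = ∑ c, ∑ d, f k c d := by
    intro a b f
    rw [Finset.sum_eq_single k]
    · simp
    · intro k' _ hk
      have : ¬ k = k' := fun h => hk h.symm
      simp [this]
    · simp
  have r2 : ∀ a b : Fin 5, (∑ k' : κ, ∑ c, ∑ d, if k = k' then
        (if b = d then (B (k, c, b) * br (A (k, a, c)) (B (k, b, a))).trace else 0) -
        (if c = a then (B (k, a, d) * br (A (k, d, b)) (B (k, b, a))).trace else 0) else 0) =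
      (∑ c, (B (k, c, b) * br (A (k, a, c)) (B (k, b, a))).trace) -
        ∑ d, (B (k, a, d) * br (A (k, d, b)) (B (k, b, a))).trace := by
    intro a b
    rw [r1 a b (fun _ c d =>
        (if b = d then (B (k, c, b) * br (A (k, a, c)) (B (k, b, a))).trace else 0) -
        (if c = a then (B (k, a, d) * br (A (k, d, b)) (B (k, b, a))).trace else 0))]
    simp only [Finset.sum_sub_distrib]
    congr 1
    · simp
    · rw [Finset.sum_comm]; simp
  have r3 : ∀ a b : Fin 5, (∑ k' : κ, ∑ c, ∑ d, if k = k' then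
        (if d = a then (B (k, b, c) * br (A (k, a, b)) (B (k, c, a))).trace else 0) -
        (if b = c then (B (k, d, a) * br (A (k, a, b)) (B (k, b, d))).trace else 0) else 0) =
      (∑ c, (B (k, b, c) * br (A (k, a, b)) (B (k, c, a))).trace) -
        ∑ d, (B (k, d, a) * br (A (k, a, b)) (B (k, b, d))).trace := by
    intro a b
    rw [r1 a b (fun _ c d =>
        (if d = a then (B (k, b, c) * br (A (k, a, b)) (B (k, c, a))).trace else 0) -
        (if b = c then (B (k, d, a) * br (A (k, a, b)) (B (k, b, d))).trace else 0))]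
    simp only [Finset.sum_sub_distrib]
    congr 1
    · simp
    · rw [Finset.sum_comm]; simp
  simp only [r2, r3, Finset.sum_sub_distrib]
  congr 1
  · refine Finset.sum_congr rfl fun a _ => ?_
    rw [Finset.sum_comm]
  · have : ∀ g : Fin 5 → Fin 5 → Fin 5 → ℂ,
        ∑ a, ∑ b, ∑ d, g a b d = ∑ a, ∑ b, ∑ d, g d b a := by
      intro g
      rw [Finset.sum_comm]
      conv_rhs => rw [Finset.sum_comm]
      refine Finset.sum_congr rfl fun b _ => ?_
      rw [Finset.sum_comm]
    exact this fun a b d => (B (k, a, d) * br (A (k, d, b)) (B (k, b, a))).trace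

end Gl

end Boch

open Boch in
theorem boch_thm : BochStmt := by
  intro N κ _ L hL hmu
  classical
  let X : κ × Fin 5 × Fin 5 → Mat N := fun r => L r.1 r.2.1 r.2.2
  let Y : κ × Fin 5 × Fin 5 → Mat N := fun r => (L r.1 r.2.2 r.2.1)ᴴ
  let A : κ × Fin 5 × Fin 5 → Mat N := fun r => (1 / 2 : ℂ) • X r + (1 / 2 : ℂ) • Y r
  let B : κ × Fin 5 × Fin 5 → Mat N := fun r => (1 / 2 : ℂ) • X r + (-1 / 2 : ℂ) • Y r
  have hX : ∀ p q, br (X p) (X q) = str X p q := str_L hL
  have hY : ∀ p q, br (Y p) (Y q) = str Y p q := str_M hL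
  have sX : ∀ p, (X p)ᴴ = Y (th p) := fun p => rfl
  have sY : ∀ p, (Y p)ᴴ = X (th p) := fun p => conjTranspose_conjTranspose _
  have h1 : ∀ p, (A p)ᴴ = A (th p) := by
    intro p
    simp only [A, conjTranspose_add, conjTranspose_smul, sX, sY]
    simp [add_comm]
  have h2 : ∀ p, (B p)ᴴ = -B (th p) := by
    intro p
    simp only [B, conjTranspose_add, conjTranspose_smul, sX, sY]
    have c1 : star (1 / 2 : ℂ) = 1 / 2 := by simp
    have c2 : star (-1 / 2 : ℂ) = -1 / 2 := by simp
    rw [c1, c2]
    module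
  have h3 : ∀ p q, br (A p) (A q) + br (B p) (B q) = str A p q := by
    intro p q
    rw [← str_comb X Y (1 / 2) (1 / 2) p q, ← hX, ← hY]
    simp only [A, B, br, Matrix.add_mul, Matrix.mul_add, Matrix.smul_mul, Matrix.mul_smul]
    module
  have h4 : ∀ p q, br (A p) (B q) - br (A q) (B p) = str B p q := by
    intro p q
    rw [← str_comb X Y (1 / 2) (-1 / 2) p q, ← hX, ← hY]
    simp only [A, B, br, Matrix.add_mul, Matrix.mul_add, Matrix.smul_mul, Matrix.mul_smul]
    module
  have hth : ∀ p : κ × Fin 5 × Fin 5, th (th p) = p := fun p => rfl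
  let e : (κ × Fin 5 × Fin 5) ≃ (κ × Fin 5 × Fin 5) := ⟨th, th, hth, hth⟩
  have flip : ∀ f : κ × Fin 5 × Fin 5 → Mat N, ∑ p, f (th p) = ∑ p, f p :=
    fun f => Equiv.sum_comp e f
  have m0 : ∑ p, br (X p) (Y (th p)) = 0 := hmu
  have anti : ∀ Z : κ × Fin 5 × Fin 5 → Mat N, ∑ p, br (Z p) (Z (th p)) = 0 := by
    intro Z
    have a1 := flip fun p => br (Z p) (Z (th p))
    simp only [hth] at a1
    have a2 : ∑ p, br (Z (th p)) (Z p) = -∑ p, br (Z p) (Z (th p)) := by
      rw [← Finset.sum_neg_distrib]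
      exact Finset.sum_congr rfl fun p _ => br_swap _ _
    have a3 : (2 : ℂ) • ∑ p, br (Z p) (Z (th p)) = 0 := by
      rw [two_smul]
      nth_rewrite 1 [← a1]
      rw [a2, neg_add_cancel]
    exact (smul_eq_zero.mp a3).resolve_left two_ne_zero
  have m1 : ∑ p, br (Y p) (X (th p)) = 0 := by
    have a1 := flip fun p => br (Y p) (X (th p))
    simp only [hth] at a1
    rw [← a1]
    have a2 : ∑ p, br (Y (th p)) (X p) = -∑ p, br (X p) (Y (th p)) := by
      rw [← Finset.sum_neg_distrib]
      exact Finset.sum_congr rfl fun p _ => br_swap _ _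
    rw [a2, m0, neg_zero]
  have h5 : ∑ p, br (A p) (B (th p)) = 0 := by
    have : ∀ p, br (A p) (B (th p)) = (1 / 4 : ℂ) • br (X p) (X (th p)) +
        (-1 / 4 : ℂ) • br (X p) (Y (th p)) + (1 / 4 : ℂ) • br (Y p) (X (th p)) +
        (-1 / 4 : ℂ) • br (Y p) (Y (th p)) := by
      intro p
      simp only [A, B, br, Matrix.add_mul, Matrix.mul_add, Matrix.smul_mul, Matrix.mul_smul]
      module
    simp only [this, Finset.sum_add_distrib, ← Finset.smul_sum]
    rw [anti X, anti Y, m0, m1]
    simp
  have hT := core th hth A B (str A) (str B) h1 h2 h3 h4 h5 (six A B h2)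
  have hS : ∀ p q, str B p q = 0 := by
    intro p q
    rw [← h4, hT, hT, sub_zero]
  have hB : ∀ k a b, B (k, a, b) = 0 := by
    intro k a b
    by_cases hab : b = a
    · subst hab
      have d1 : ∀ c, B (k, c, c) = B (k, b, b) := by
        intro c
        have := hS (k, c, b) (k, b, c)
        simp only [str, if_true] at this
        exact sub_eq_zero.mp this
      have d2 : ∑ c, B (k, c, c) = 0 := by
        simp only [B, X, Y, Finset.sum_add_distrib, ← Finset.smul_sum, ← conjTranspose_sum]
        rw [hL.tr k]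
        simp
      simp only [d1, Finset.sum_const, Finset.card_univ, Fintype.card_fin] at d2
      have d3 : (5 : ℂ) • B (k, b, b) = 0 := by
        rw [← d2, ← Nat.cast_smul_eq_nsmul ℂ]
        norm_num
      exact (smul_eq_zero.mp d3).resolve_left (by norm_num)
    · have := hS (k, a, a) (k, a, b)
      simpa only [str, if_true, hab, if_false, sub_zero] using this
  intro k a b
  have := hB k b a
  simp only [B, X, Y] at this
  have h7 : (1 / 2 : ℂ) • (L k b a - (L k a b)ᴴ) = 0 := by
    rw [← this]; module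
  have h8 := (smul_eq_zero.mp h7).resolve_left (by norm_num)
  exact (sub_eq_zero.mp h8).symm

end Pool.Agent.MP_94b95a_al.Fl
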