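import Mathlib.RingTheory.Flat.TorsionFree
import Mathlib.RingTheory.PicardGroup
import Mathlib.Algebra.Order.Star.Real
import Mathlib.Algebra.Ring.IsFormallyReal
import Mathlib.Analysis.Complex.Polynomial.Basic
import Mathlib.RingTheory.Finiteness.ModuleFinitePresentation
import Mathlib.Analysis.Matrix.Normed
import Mathlib.LinearAlgebra.Matrix.FiniteDimensional
import Mathlib.Analysis.Matrix.Spectrum
import Mathlib.RingTheory.SimpleRing.Principal
import Mathlib.RingTheory.TotallySplit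
import Mathlib.RingTheory.Etale.Weakly
import Pool.Agent.MP_94b95a_al.fl.Fin1

/-! Facts on `gl_5` families. -/

namespace Pool.Agent.MP_94b95a_al.Fl

open NormedSpace Matrix Filter Topology

namespace Gl

variable {N : ℕ} {κ : Type} {L : κ → Fin 5 → Fin 5 → Mat N}

/-- The adjoint action. -/
noncomputable def ad (H : Mat N) : Module.End ℂ (Mat N) :=
  LinearMap.mulLeft ℂ H - LinearMap.mulRight ℂ H

theorem ad_apply (H X : Mat N) : ad H X = H * X - X * H := rfl

theorem third (i j : Fin 5) : ∃ m : Fin 5, m ≠ i ∧ m ≠ j := by revert i j; decide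

theorem diag_sub (h : GlFam L) (k : κ) (a b : Fin 5) :
    L k a b * L k b a - L k b a * L k a b = L k a a - L k b b := by
  rw [h.rel, if_pos rfl, if_pos rfl]

theorem diag_eq (h : GlFam L) (k : κ) (a : Fin 5) :
    L k a a = (1 / 5 : ℂ) • ∑ b, (L k a a - L k b b) := by
  rw [Finset.sum_sub_distrib, h.tr, sub_zero, Finset.sum_const, Finset.card_univ, Fintype.card_fin,
    ← Nat.cast_smul_eq_nsmul ℂ, smul_smul]
  norm_num

theorem off (h : GlFam L) (k : κ) (hk : L k ≠ 0) (i j : Fin 5) (_hij : i ≠ j) : L k i j ≠ 0 := by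
  intro h0
  apply hk
  have s1 : ∀ l, l ≠ i → L k i l = 0 := by
    intro l hl
    have := h.rel k i j j l
    rw [h0, if_pos rfl, if_neg hl] at this
    simpa using this.symm
  have s2 : ∀ p l, l ≠ p → l ≠ i → L k p l = 0 := by
    intro p l hp hl
    have := h.rel k p i i l
    rw [s1 l hl, if_pos rfl, if_neg hp] at this
    simpa using this.symm
  have s3 : ∀ p l, l ≠ p → L k p l = 0 := by
    intro p l hp
    obtain ⟨m, h1, h2⟩ := third i p
    have := h.rel k p m m l
    rw [s2 p m h2 h1, if_pos rfl, if_neg hp] at this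
    simpa using this.symm
  funext a b
  by_cases hab : b = a
  · subst hab
    rw [diag_eq h k b]
    have : ∀ c, L k b b - L k c c = 0 := by
      intro c
      by_cases hc : c = b
      · rw [hc, sub_self]
      · rw [← diag_sub h, s3 b c hc]; simp
    simp [this]
  · exact s3 a b hab

theorem ad_diag (h : GlFam L) (k : κ) (t : Fin 5 → ℂ) (i j : Fin 5) :
    ad (∑ a, t a • L k a a) (L k i j) = (t i - t j) • L k i j := by
  rw [ad_apply, Finset.sum_mul, Finset.mul_sum, ← Finset.sum_sub_distrib]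
  have : ∀ a, t a • L k a a * L k i j - L k i j * t a • L k a a =
      (if a = i then t i • L k i j else 0) - (if a = j then t j • L k i j else 0) := by
    intro a
    rw [smul_mul_assoc, mul_smul_comm, ← smul_sub, h.rel, smul_sub]
    congr 1
    · split_ifs with h1
      · rw [h1]
      · rw [smul_zero]
    · by_cases h1 : a = j
      · rw [if_pos h1.symm, if_pos h1, h1]
      · rw [if_neg (Ne.symm h1), if_neg h1, smul_zero]
  simp only [this, Finset.sum_sub_distrib, Finset.sum_ite_eq', Finset.mem_univ, if_true, sub_smul]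

theorem ad_other (h : GlFam L) {k k' : κ} (hk : k ≠ k') (t : Fin 5 → ℂ) (i j : Fin 5) :
    ad (∑ a, t a • L k a a) (L k' i j) = 0 := by
  rw [ad_apply, sub_eq_zero]
  exact (Commute.sum_left _ _ _ fun a _ => (h.comm k k' hk a a i j).smul_left _).eq

theorem w_inj : ∀ i j p q : Fin 5, i ≠ j → p ≠ q →
    (2 ^ (i : ℕ) - 2 ^ (j : ℕ) : ℤ) = 2 ^ (p : ℕ) - 2 ^ (q : ℕ) → i = p ∧ j = q := by decide

theorem w_ne : ∀ i j : Fin 5, i ≠ j → (2 ^ (i : ℕ) - 2 ^ (j : ℕ) : ℤ) ≠ 0 := by decide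

theorem count [Fintype κ] (h : GlFam L) (hk : ∀ k, ∃ i j, i ≠ j ∧ L k i j ≠ 0) :
    20 * Fintype.card κ ≤ N * N := by
  classical
  let P := {p : Fin 5 × Fin 5 // p.1 ≠ p.2}
  have hP : Fintype.card P = 20 := by decide
  let w : P → ℂ := fun p => 2 ^ (p.1.1 : ℕ) - 2 ^ (p.1.2 : ℕ)
  have hw : Function.Injective w := by
    intro p q e
    have := w_inj _ _ _ _ p.2 q.2 (by simp only [w] at e; exact_mod_cast e)
    exact Subtype.ext (Prod.ext this.1 this.2)
  have hw0 : ∀ p, w p ≠ 0 := fun p => by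
    have := w_ne _ _ p.2
    simp only [w]; exact_mod_cast this
  have hne : ∀ k (p : P), L k p.1.1 p.1.2 ≠ 0 := by
    intro k p
    obtain ⟨i, j, -, h2⟩ := hk k
    exact off h k (fun e => h2 (by rw [e]; rfl)) _ _ p.2
  have h1 : ∀ k, LinearIndependent ℂ fun p : P => L k p.1.1 p.1.2 := fun k =>
    Module.End.eigenvectors_linearIndependent' (ad (∑ a : Fin 5, (2 : ℂ) ^ (a : ℕ) • L k a a)) w hw
      _ fun p => ⟨Module.End.mem_eigenspace_iff.mpr (ad_diag h k _ _ _), hne k p⟩
  have h2 : LinearIndependent ℂ fun x : κ × P => L x.1 x.2.1.1 x.2.1.2 := by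
    rw [Fintype.linearIndependent_iff]
    intro g hg x
    have h3 := congrArg (ad (∑ a : Fin 5, (2 : ℂ) ^ (a : ℕ) • L x.1 a a)) hg
    rw [map_zero, Fintype.sum_prod_type, map_sum, Finset.sum_eq_single x.1] at h3
    · rw [map_sum] at h3
      simp only [map_smul, ad_diag h, smul_smul] at h3
      have h4 := Fintype.linearIndependent_iff.mp (h1 x.1) (fun p => g (x.1, p) * w p) h3 x.2
      exact (mul_eq_zero.mp h4).resolve_right (hw0 _)
    · intro k _ hk'
      rw [map_sum]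
      exact Finset.sum_eq_zero fun p _ => by rw [map_smul, ad_other h (Ne.symm hk'), smul_zero]
    · intro hx; exact absurd (Finset.mem_univ _) hx
  have h5 := h2.fintype_card_le_finrank
  rw [Fintype.card_prod, hP, Module.finrank_matrix] at h5
  simpa [mul_comm] using h5

theorem nil_of_ad {H X : Mat N} (h : H * X - X * H = X) : IsNilpotent X := by
  by_contra hn
  have h1 : ∀ n : ℕ, ad H (X ^ n) = (n : ℂ) • X ^ n := by
    intro n
    induction n with
    | zero => simp [ad_apply]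
    | succ n ih =>
      rw [ad_apply] at ih ⊢
      have e : H * X ^ (n + 1) - X ^ (n + 1) * H =
          (H * X ^ n - X ^ n * H) * X + X ^ n * (H * X - X * H) := by
        rw [pow_succ]; noncomm_ring
      rw [e, ih, h, smul_mul_assoc, ← pow_succ, Nat.cast_succ, add_smul, one_smul]
  have h2 : LinearIndependent ℂ fun n : ℕ => X ^ n :=
    Module.End.eigenvectors_linearIndependent' (ad H) (fun n : ℕ => (n : ℂ)) Nat.cast_injective
      _ fun n => ⟨Module.End.mem_eigenspace_iff.mpr (h1 n), fun e => hn ⟨n, e⟩⟩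
  have := h2.finite
  exact not_finite ℕ

theorem nil [Fintype κ] (h : GlFam L) (z : κ → ℂ) {i j : Fin 5} (hij : i ≠ j) :
    IsNilpotent (∑ k, z k • L k i j) := by
  classical
  refine nil_of_ad (H := ∑ k, L k i i) ?_
  rw [Finset.sum_mul_sum, Finset.sum_mul_sum, Finset.sum_comm (f := fun x y => _ • L x i j * _),
    ← Finset.sum_sub_distrib]
  refine Finset.sum_congr rfl fun k _ => ?_
  rw [← Finset.sum_sub_distrib, Finset.sum_eq_single k]
  · rw [mul_smul_comm, smul_mul_assoc, ← smul_sub, h.rel, if_pos rfl, if_neg hij.symm, sub_zero]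
  · intro k' _ hk
    rw [mul_smul_comm, smul_mul_assoc, (h.comm k k' hk.symm i i i j).eq, sub_self]
  · intro hk; exact absurd (Finset.mem_univ k) hk

theorem cross (h : GlFam L) {k k' : κ} {i j : Fin 5} (hk : k ≠ k') (hij : i ≠ j) :
    (L k i j * L k' j i).trace = 0 := by
  have h1 := h.rel k i i i j
  rw [if_pos rfl, if_neg hij.symm, sub_zero] at h1
  rw [← h1, sub_mul, trace_sub, mul_assoc (L k i j), (h.comm k k' hk i i j i).eq, mul_assoc,
    trace_mul_comm, mul_assoc, sub_self]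

/-- Squared Frobenius norm. -/
noncomputable def fn (X : Mat N) : ℝ := ∑ a, ∑ b, ‖X a b‖ ^ 2

theorem tr_fn (X : Mat N) : (X * Xᴴ).trace = (fn X : ℂ) := by
  simp only [fn, trace, diag_apply, mul_apply, conjTranspose_apply]
  push_cast
  exact Finset.sum_congr rfl fun a _ => Finset.sum_congr rfl fun b _ => Complex.mul_conj' _

theorem entry_le (X : Mat N) (p q : Fin N) : ‖X p q‖ ^ 2 ≤ fn X :=
  (Finset.single_le_sum (f := fun b => ‖X p b‖ ^ 2) (fun _ _ => sq_nonneg _)
    (Finset.mem_univ q)).trans (Finset.single_le_sum (f := fun a => ∑ b, ‖X a b‖ ^ 2)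
      (fun _ _ => Finset.sum_nonneg fun _ _ => sq_nonneg _) (Finset.mem_univ p))

theorem fn_pos {X : Mat N} (h : X ≠ 0) : 0 < fn X := by
  by_contra h0
  apply h
  ext p q
  have h1 := (entry_le X p q).trans (not_lt.mp h0)
  have h2 : ‖X p q‖ ^ 2 = 0 := le_antisymm h1 (sq_nonneg _)
  simpa using h2

set_option backward.isDefEq.respectTransparency false in
open scoped Matrix.Norms.Frobenius in
theorem fn_br (E : Mat N) : fn (E * Eᴴ - Eᴴ * E) ≤ 4 * fn E ^ 2 := by
  have h1 : ∀ X : Mat N, fn X = ‖X‖ ^ 2 := by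
    intro X
    rw [frobenius_norm_def, ← Real.sqrt_eq_rpow, Real.sq_sqrt
      (Finset.sum_nonneg fun _ _ => Finset.sum_nonneg fun _ _ => by positivity)]
    simp only [fn, Real.rpow_two]
  have h2 : ‖E * Eᴴ - Eᴴ * E‖ ≤ 2 * ‖E‖ ^ 2 := by
    have a1 := frobenius_norm_mul E Eᴴ
    have a2 := frobenius_norm_mul Eᴴ E
    rw [frobenius_norm_conjTranspose] at a1 a2
    have a3 := norm_sub_le (E * Eᴴ) (Eᴴ * E)
    nlinarith
  rw [h1, h1]
  have h3 := pow_le_pow_left₀ (norm_nonneg _) h2 2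
  nlinarith

/-- A self adjoint triple. -/
structure Tr (E H : Mat N) : Prop where
  eq : H = E * Eᴴ - Eᴴ * E
  br : H * E - E * H = E + E

theorem Tr.herm {E H : Mat N} (h : Tr E H) : H.IsHermitian := by
  rw [h.eq]
  simp [IsHermitian, conjTranspose_mul]

theorem Tr.br' {E H : Mat N} (h : Tr E H) : H * Eᴴ - Eᴴ * H = -(Eᴴ + Eᴴ) := by
  have := congrArg conjTranspose h.br
  rw [conjTranspose_sub, conjTranspose_mul, conjTranspose_mul, h.herm.eq, conjTranspose_add] at this
  rw [← this, neg_sub]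

theorem Tr.neg {E H : Mat N} (h : Tr E H) : Tr Eᴴ (-H) := by
  refine ⟨by rw [conjTranspose_conjTranspose, h.eq, neg_sub], ?_⟩
  have := h.br'
  rw [neg_mul, mul_neg, sub_neg_eq_add, ← neg_neg (Eᴴ + Eᴴ), ← this]
  abel

theorem Tr.fn_eq {E H : Mat N} (h : Tr E H) : fn H = 2 * fn E := by
  have h1 : (H * Hᴴ).trace = (E * Eᴴ).trace + (E * Eᴴ).trace := by
    rw [h.herm.eq]
    nth_rewrite 2 [h.eq]
    rw [← trace_add, ← add_mul, ← h.br, mul_sub, sub_mul, trace_sub, trace_sub, ← mul_assoc,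
      ← mul_assoc H Eᴴ, trace_mul_comm (H * Eᴴ) E, ← mul_assoc]
  rw [tr_fn, tr_fn] at h1
  have h2 : fn H = fn E + fn E := by exact_mod_cast h1
  linarith

theorem Tr.lower {E H : Mat N} (h : Tr E H) (hE : E ≠ 0) : 1 / 2 ≤ fn E := by
  have h1 := fn_br E
  rw [← h.eq, h.fn_eq] at h1
  have h2 := fn_pos hE
  nlinarith

open scoped ComplexOrder in
theorem Tr.step {E H : Mat N} (h : Tr E H) {w : Fin N → ℂ} {μ : ℝ} (hw : w ≠ 0) (hμ : 0 < μ)
    (he : H *ᵥ w = (μ : ℂ) • w) : Eᴴ *ᵥ w ≠ 0 := by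
  intro h0
  have h1 : star w ⬝ᵥ (H *ᵥ w) = -(star (E *ᵥ w) ⬝ᵥ (E *ᵥ w)) := by
    rw [h.eq, sub_mulVec, ← mulVec_mulVec, ← mulVec_mulVec, h0, mulVec_zero, zero_sub,
      dotProduct_neg, dotProduct_mulVec, star_mulVec]
  rw [he, dotProduct_smul, smul_eq_mul] at h1
  have h2 : 0 < (μ : ℂ) * (star w ⬝ᵥ w) :=
    mul_pos (by exact_mod_cast hμ) (dotProduct_star_self_pos_iff.mpr hw)
  rw [h1] at h2
  exact absurd (neg_pos.mp h2) (not_lt_of_ge (dotProduct_star_self_nonneg _))

theorem Tr.eig_le {E H : Mat N} (h : Tr E H) {w : Fin N → ℂ} {μ : ℝ} (hw : w ≠ 0)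
    (he : H *ᵥ w = (μ : ℂ) • w) : μ ≤ 2 * N := by
  by_contra hc
  rw [not_le] at hc
  have h1 : ∀ m : ℕ, m ≤ N →
      (Eᴴ ^ m) *ᵥ w ≠ 0 ∧ H *ᵥ ((Eᴴ ^ m) *ᵥ w) = ((μ - 2 * m : ℝ) : ℂ) • ((Eᴴ ^ m) *ᵥ w) := by
    intro m
    induction m with
    | zero => intro _; simpa using ⟨hw, he⟩
    | succ m ih =>
      intro hm
      obtain ⟨i1, i2⟩ := ih (by omega)
      have hm' : (m : ℝ) ≤ N := by exact_mod_cast (by omega : m ≤ N)
      rw [pow_succ', ← mulVec_mulVec]
      refine ⟨h.step i1 (by linarith) i2, ?_⟩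
      have e : H * Eᴴ = Eᴴ * H - (Eᴴ + Eᴴ) := by
        rw [sub_eq_add_neg, ← h.br']; abel
      rw [mulVec_mulVec, e, sub_mulVec, add_mulVec, ← mulVec_mulVec, i2, mulVec_smul]
      push_cast
      module
  have h2 : LinearIndependent ℂ fun m : Fin (N + 1) => (Eᴴ ^ (m : ℕ)) *ᵥ w := by
    refine Module.End.eigenvectors_linearIndependent' (Matrix.mulVecLin H)
      (fun m : Fin (N + 1) => ((μ - 2 * (m : ℕ) : ℝ) : ℂ)) ?_ _ fun m =>
        ⟨Module.End.mem_eigenspace_iff.mpr (h1 m (by omega)).2, (h1 m (by omega)).1⟩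
    intro a b e
    have e1 : μ - 2 * (a : ℕ) = μ - 2 * (b : ℕ) := Complex.ofReal_injective e
    have e2 : ((a : ℕ) : ℝ) = (b : ℕ) := by linarith
    exact Fin.ext (by exact_mod_cast e2)
  have h3 := h2.fintype_card_le_finrank
  simp at h3

theorem fn_herm {H : Mat N} (h : H.IsHermitian) : fn H = ∑ j, h.eigenvalues j ^ 2 := by
  have h1 : (H * Hᴴ).trace = ∑ j, (h.eigenvalues j : ℂ) ^ 2 := by
    rw [h.eq]
    conv_lhs => rw [h.spectral_theorem, ← map_mul, Unitary.conjStarAlgAut_apply, trace_mul_comm,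
      ← mul_assoc]
    simp [sq]
  rw [tr_fn] at h1
  exact_mod_cast h1

theorem Tr.upper {E H : Mat N} (h : Tr E H) : fn H ≤ N * (2 * N) ^ 2 := by
  rw [fn_herm h.herm]
  have : ∀ j, h.herm.eigenvalues j ^ 2 ≤ (2 * N : ℝ) ^ 2 := by
    intro j
    have hw : (⇑(h.herm.eigenvectorBasis j) : Fin N → ℂ) ≠ 0 := by
      intro e
      exact h.herm.eigenvectorBasis.orthonormal.ne_zero j (by ext a; exact congrFun e a)
    have he : H *ᵥ ⇑(h.herm.eigenvectorBasis j) =
        (h.herm.eigenvalues j : ℂ) • ⇑(h.herm.eigenvectorBasis j) := by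
      rw [h.herm.mulVec_eigenvectorBasis j]; rfl
    have h1 := h.eig_le hw he
    have h2 := h.neg.eig_le (μ := -h.herm.eigenvalues j) hw (by
      rw [neg_mulVec, he, Complex.ofReal_neg, neg_smul])
    exact sq_le_sq' (by linarith) h1
  calc _ ≤ ∑ _j : Fin N, (2 * N : ℝ) ^ 2 := Finset.sum_le_sum fun j _ => this j
    _ = _ := by simp

theorem tr_of (h : GlFam L) (hs : ∀ k a b, (L k a b)ᴴ = L k b a) (k : κ) {i j : Fin 5}
    (hij : i ≠ j) : Tr (L k i j) (L k i i - L k j j) := by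
  refine ⟨by rw [hs, diag_sub h], ?_⟩
  have h1 := h.rel k i i i j
  have h2 := h.rel k j j i j
  rw [if_pos rfl, if_neg hij.symm, sub_zero] at h1
  rw [if_pos rfl, if_neg hij.symm, zero_sub] at h2
  have e : (L k i i - L k j j) * L k i j - L k i j * (L k i i - L k j j) =
      (L k i i * L k i j - L k i j * L k i i) - (L k j j * L k i j - L k i j * L k j j) := by
    noncomm_ring
  rw [e, h1, h2, sub_neg_eq_add]

theorem upper (h : GlFam L) (hs : ∀ k a b, (L k a b)ᴴ = L k b a) (k : κ) (a b : Fin 5)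
    (p q : Fin N) : ‖L k a b p q‖ ≤ Real.sqrt (N * (2 * N) ^ 2) := by
  by_cases hab : a = b
  · subst hab
    have h1 : ∀ c, ‖(L k a a - L k c c) p q‖ ≤ Real.sqrt (N * (2 * N) ^ 2) := by
      intro c
      by_cases hc : a = c
      · subst hc
        rw [sub_self, Matrix.zero_apply, norm_zero]
        exact Real.sqrt_nonneg _
      · exact Real.le_sqrt_of_sq_le ((entry_le _ p q).trans (tr_of h hs k hc).upper)
    rw [diag_eq h k a, Matrix.smul_apply, Matrix.sum_apply, norm_smul]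
    have h2 := (norm_sum_le _ _).trans (Finset.sum_le_sum fun c (_ : c ∈ Finset.univ) => h1 c)
    simp only [Finset.sum_const, Finset.card_univ, Fintype.card_fin, nsmul_eq_mul] at h2
    have h3 : ‖(1 / 5 : ℂ)‖ = 1 / 5 := by simp
    rw [h3]
    push_cast at h2
    linarith
  · have h1 := (tr_of h hs k hab).upper
    rw [(tr_of h hs k hab).fn_eq] at h1
    have h2 := entry_le (L k a b) p q
    refine Real.le_sqrt_of_sq_le ?_
    nlinarith [sq_nonneg ‖L k a b p q‖]

end Gl

theorem gl_thm : GlStmt where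
  count _ _ _ _ h hk := Gl.count h hk
  off _ _ _ h k hk i j hij := Gl.off h k hk i j hij
  nil _ _ _ _ h z _ _ hij := Gl.nil h z hij
  upper _ := ⟨_, fun _ _ h hs k a b p q => Gl.upper h hs k a b p q⟩
  lower _ _ L h hs k i j hij h0 :=
    ⟨Gl.fn (L k i j), (Gl.tr_of h hs k hij).lower h0, by rw [← hs k i j, Gl.tr_fn]⟩
  cross _ _ _ h _ _ _ _ hk hij := Gl.cross h hk hij

end Pool.Agent.MP_94b95a_al.Fl
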