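import Mathlib.Topology.Sheaves.Presheaf
import Mathlib.Algebra.Order.Star.Real
import Mathlib.Algebra.Ring.IsFormallyReal
import Mathlib.Analysis.SpecialFunctions.ExpDeriv
import Mathlib.Analysis.Calculus.LocalExtr.Basic
import Mathlib.Analysis.Matrix.Spectrum
import Mathlib.Analysis.Normed.Algebra.MatrixExponential
import Pool.Agent.MP_94b95a_al.fl.Fin1
import Mathlib.LinearAlgebra.FreeModule.PID
import Mathlib.RingTheory.Flat.FaithfullyFlat.Algebra
import Mathlib.Tactic.Monotonicity.Lemmas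
import Mathlib.RingTheory.Flat.TorsionFree
import Mathlib.LinearAlgebra.Complex.FiniteDimensional
import Mathlib.Topology.Algebra.Polynomial
import Mathlib.Analysis.SpecialFunctions.Trigonometric.DerivHyp
import Mathlib.Combinatorics.SimpleGraph.Basic
import Mathlib.RingTheory.PiTensorProduct
import Mathlib.RingTheory.SimpleRing.Principal
import Mathlib.Tactic.Polynomial.Basic

-- ======== part 0: formerly Pool.Agent.MP_94b95a_al.fl.Kn
section MrgPart0

/-! Common tools for the Kempf Ness modules. -/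

namespace Pool.Agent.MP_94b95a_al.Fl

open NormedSpace Matrix Filter Topology

namespace Kn

variable {N : ℕ}

/-- squared Frobenius norm -/
noncomputable def fn (m : Mat N) : ℝ := ∑ a, ∑ b, ‖m a b‖ ^ 2

theorem FN_eq {ι : Type} [Fintype ι] (x : ι → Mat N) : FN x = ∑ j, fn (x j) := rfl

theorem fn_nonneg (m : Mat N) : 0 ≤ fn m := by unfold fn; positivity

theorem fn_tr (m : Mat N) : (fn m : ℂ) = (m * mᴴ).trace := by
  simp only [fn, trace, diag_apply, mul_apply, conjTranspose_apply, Complex.star_def,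
    Complex.mul_conj, Complex.normSq_eq_norm_sq]
  push_cast
  rfl

theorem fn_left {u : Mat N} (hu : uᴴ * u = 1) (m : Mat N) : fn (u * m) = fn m := by
  apply Complex.ofReal_injective
  rw [fn_tr, fn_tr, conjTranspose_mul, ← Matrix.mul_assoc, trace_mul_comm, ← Matrix.mul_assoc,
    ← Matrix.mul_assoc, hu, Matrix.one_mul]

theorem uni_symm {u : Mat N} (hu : uᴴ * u = 1) : u * uᴴ = 1 := mul_eq_one_comm.1 hu

theorem uni_star {u : Mat N} (hu : uᴴ * u = 1) : uᴴᴴ * uᴴ = 1 := by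
  rw [conjTranspose_conjTranspose, uni_symm hu]

theorem uni_mul {u v : Mat N} (hu : uᴴ * u = 1) (hv : vᴴ * v = 1) : (u * v)ᴴ * (u * v) = 1 := by
  rw [conjTranspose_mul, Matrix.mul_assoc, ← Matrix.mul_assoc uᴴ, hu, Matrix.one_mul, hv]

theorem fn_right {u : Mat N} (hu : uᴴ * u = 1) (m : Mat N) : fn (m * u) = fn m := by
  apply Complex.ofReal_injective
  rw [fn_tr, fn_tr, conjTranspose_mul, Matrix.mul_assoc, ← Matrix.mul_assoc u, uni_symm hu,
    Matrix.one_mul]

theorem entry_le (m : Mat N) (a b : Fin N) : ‖m a b‖ ^ 2 ≤ fn m :=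
  (Finset.single_le_sum (f := fun b => ‖m a b‖ ^ 2) (fun _ _ => by positivity)
    (Finset.mem_univ b)).trans (Finset.single_le_sum (f := fun a => ∑ b, ‖m a b‖ ^ 2)
      (fun _ _ => by positivity) (Finset.mem_univ a))

theorem fn_eq_zero {m : Mat N} (h : fn m = 0) : m = 0 := by
  ext a b
  have := entry_le m a b
  rw [h] at this
  exact norm_eq_zero.1 (pow_eq_zero_iff two_ne_zero |>.1 (le_antisymm this (by positivity)))

theorem cont_fn : Continuous (fn : Mat N → ℝ) := by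
  unfold fn
  fun_prop

theorem cont_FN {ι : Type} [Fintype ι] : Continuous (FN : (ι → Mat N) → ℝ) :=
  continuous_finsetSum _ fun j _ => cont_fn.comp (continuous_apply j)

theorem compact_fn (C : ℝ) : IsCompact {m : Mat N | fn m ≤ C} := by
  have h : IsCompact (Set.pi Set.univ fun _ : Fin N => Set.pi Set.univ fun _ : Fin N =>
      Metric.closedBall (0 : ℂ) (C + 1)) :=
    isCompact_univ_pi fun _ => isCompact_univ_pi fun _ => isCompact_closedBall _ _
  refine h.of_isClosed_subset (isClosed_le cont_fn continuous_const) fun m hm a _ b _ => ?_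
  have h1 := (entry_le m a b).trans hm
  rw [mem_closedBall_zero_iff]
  nlinarith [sq_nonneg (‖m a b‖ - 1), norm_nonneg (m a b), sq_nonneg (‖m a b‖)]

theorem compact_FN {ι : Type} [Fintype ι] (C : ℝ) : IsCompact {x : ι → Mat N | FN x ≤ C} := by
  refine (isCompact_univ_pi fun _ : ι => compact_fn (N := N) C).of_isClosed_subset
    (isClosed_le cont_FN continuous_const) fun x hx j _ => ?_
  exact (Finset.single_le_sum (f := fun j => fn (x j)) (fun _ _ => fn_nonneg _)
    (Finset.mem_univ j)).trans hx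

theorem min_FN {ι : Type} [Fintype ι] {S : Set (ι → Mat N)} (hS : IsClosed S) {x : ι → Mat N}
    (hx : x ∈ S) : ∃ y ∈ S, ∀ z ∈ S, FN y ≤ FN z := by
  obtain ⟨y, hy, h⟩ := ((compact_FN (FN x)).inter_left hS).exists_isMinOn ⟨x, hx, le_refl (FN x)⟩
    cont_FN.continuousOn
  refine ⟨y, hy.1, fun z hz => ?_⟩
  rcases le_total (FN z) (FN x) with h' | h'
  · exact h ⟨hz, h'⟩
  · exact le_trans hy.2 h'

/-- the proper function on the general linear group -/
noncomputable def psi (g : GLN N) : ℝ := fn (g : Mat N) + fn ((g⁻¹ : GLN N) : Mat N)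

theorem cont_psi : Continuous (psi : GLN N → ℝ) :=
  (cont_fn.comp Units.continuous_val).add (cont_fn.comp Units.continuous_coe_inv)

theorem compact_psi (C : ℝ) : IsCompact {g : GLN N | psi g ≤ C} := by
  have h := (Units.isClosedEmbedding_embedProduct (α := Mat N)).isCompact_preimage
    ((compact_fn C).prod ((compact_fn C).image MulOpposite.continuous_op))
  refine h.of_isClosed_subset (isClosed_le cont_psi continuous_const) fun g hg => ?_
  have h1 := fn_nonneg (g : Mat N)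
  have h2 := fn_nonneg ((g⁻¹ : GLN N) : Mat N)
  have h3 : fn (g : Mat N) + fn ((g⁻¹ : GLN N) : Mat N) ≤ C := hg
  exact ⟨show fn (g : Mat N) ≤ C by linarith,
    ((g⁻¹ : GLN N) : Mat N), show fn _ ≤ C by linarith, rfl⟩

theorem min_psi {S : Set (GLN N)} (hS : IsClosed S) {Φ : GLN N → ℝ} (hΦ : LowerSemicontinuous Φ)
    (hle : ∀ g, psi g ≤ Φ g) {g : GLN N} (hg : g ∈ S) : ∃ h ∈ S, ∀ h' ∈ S, Φ h ≤ Φ h' := by
  obtain ⟨y, hy, h⟩ := LowerSemicontinuousOn.exists_isMinOn
    (s := S ∩ {h | psi h ≤ Φ g}) ⟨g, hg, hle g⟩ ((compact_psi (Φ g)).inter_left hS)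
    (hΦ.lowerSemicontinuousOn _)
  refine ⟨y, hy.1, fun z hz => ?_⟩
  rcases le_total (psi z) (Φ g) with h' | h'
  · exact h ⟨hz, h'⟩
  · exact le_trans (h ⟨hg, hle g⟩) (h'.trans (hle z))

theorem closed_G (hl : LieStmt) {G : Subgroup (GLN N)} (hG : Alg G) :
    IsClosed (G : Set (GLN N)) := by
  refine isClosed_of_closure_subset fun g hg => hl.closedG N G hG g ?_
  exact map_mem_closure Units.continuous_val hg fun h hh => ⟨h, hh, rfl⟩

theorem compact_uni : IsCompact {u : Mat N | uᴴ * u = 1} := by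
  refine (compact_fn (fn (1 : Mat N))).of_isClosed_subset
    (isClosed_eq (by fun_prop) continuous_const) fun u hu => ?_
  have := fn_left hu 1
  rw [Matrix.mul_one] at this
  exact this.le

theorem ulim_uni {τ : Type} (U : Ultrafilter τ) {u : τ → Mat N} (hu : ∀ m, (u m)ᴴ * u m = 1) :
    ∃ u₀ : Mat N, u₀ᴴ * u₀ = 1 ∧ Tendsto u U (𝓝 u₀) := by
  obtain ⟨u₀, h1, h2⟩ := compact_uni.ultrafilter_le_nhds (U.map u)
    (le_principal_iff.2 (mem_map.2 (Eventually.of_forall hu)))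
  exact ⟨u₀, h1, h2⟩

theorem cj_mul {ι : Type} (g h : GLN N) (x : ι → Mat N) : cj (g * h) x = cj g (cj h x) := by
  funext j
  simp only [cj, _root_.mul_inv_rev, Units.val_mul, Matrix.mul_assoc]

theorem cj_one {ι : Type} (x : ι → Mat N) : cj 1 x = x := by
  funext j
  simp [cj]

theorem cj_inv {ι : Type} (g : GLN N) (x : ι → Mat N) : cj g⁻¹ (cj g x) = x := by
  rw [← cj_mul, inv_mul_cancel, cj_one]

theorem cont_cj {ι τ : Type} [TopologicalSpace τ] {g : τ → GLN N} {x : τ → ι → Mat N}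
    (hg : Continuous g) (hx : Continuous x) : Continuous fun p => cj (g p) (x p) :=
  continuous_pi fun j => ((Units.continuous_val.comp hg).matrix_mul
    ((continuous_apply j).comp hx)).matrix_mul (Units.continuous_coe_inv.comp hg)

theorem cont_cj1 {ι : Type} (x : ι → Mat N) : Continuous fun g : GLN N => cj g x :=
  cont_cj continuous_id' continuous_const

theorem cont_cj2 {ι : Type} (g : GLN N) : Continuous fun x : ι → Mat N => cj g x :=
  cont_cj continuous_const continuous_id'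

/-- a Hermitian matrix with given eigenvectors and eigenvalues -/
noncomputable def hm (u : Mat N) (D : Fin N → ℝ) : Mat N :=
  u * diagonal (fun a => (D a : ℂ)) * uᴴ

/-- the exponential of a real diagonal matrix -/
noncomputable def ex (D : Fin N → ℝ) : Mat N := diagonal fun a => (Real.exp (D a) : ℂ)

theorem ex_neg (D : Fin N → ℝ) : ex D * ex (-D) = 1 := by
  rw [ex, ex, diagonal_mul_diagonal, ← diagonal_one]
  congr 1
  funext a
  rw [← Complex.ofReal_mul, ← Real.exp_add]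
  simp

theorem ex_add (D D' : Fin N → ℝ) : ex (D + D') = ex D * ex D' := by
  rw [ex, ex, ex, diagonal_mul_diagonal]
  congr 1
  funext a
  rw [← Complex.ofReal_mul, ← Real.exp_add, Pi.add_apply]

theorem exists_hm {X : Mat N} (hX : X.IsHermitian) : ∃ (u : Mat N) (D : Fin N → ℝ),
    uᴴ * u = 1 ∧ X = hm u D :=
  ⟨hX.eigenvectorUnitary, hX.eigenvalues, hX.eigenvectorUnitary.2.1, hX.spectral_theorem⟩

theorem exp_hm {u : Mat N} (hu : uᴴ * u = 1) (D : Fin N → ℝ) (z : ℂ) :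
    exp (z • hm u D) = u * diagonal (fun a => Complex.exp (z * D a)) * uᴴ := by
  let U : (Mat N)ˣ := ⟨u, uᴴ, uni_symm hu, hu⟩
  have h := Matrix.exp_units_conj U (diagonal fun a => z * (D a : ℂ))
  have e : z • hm u D = (U : Mat N) * (diagonal fun a => z * (D a : ℂ)) * (U⁻¹ : (Mat N)ˣ) := by
    rw [hm, ← Matrix.smul_mul, ← Matrix.mul_smul, ← diagonal_smul]
    rfl
  rw [e, h, Matrix.exp_diagonal, Pi.exp_def]
  simp only [← Complex.exp_eq_exp_ℂ]
  rfl

theorem exp_hm' {u : Mat N} (hu : uᴴ * u = 1) (D : Fin N → ℝ) (t : ℝ) :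
    exp ((t : ℂ) • hm u D) = u * ex (t • D) * uᴴ := by
  rw [exp_hm hu, ex]
  simp

theorem smul_hm (u : Mat N) (D : Fin N → ℝ) (t : ℝ) : (t : ℂ) • hm u D = hm u (t • D) := by
  rw [hm, hm, ← Matrix.smul_mul, ← Matrix.mul_smul, ← diagonal_smul]
  congr 3
  funext a
  simp

theorem cont_hm : Continuous fun p : Mat N × (Fin N → ℝ) => hm p.1 p.2 := by
  unfold hm
  refine (continuous_fst.matrix_mul (Continuous.matrix_diagonal ?_)).matrix_mul
    continuous_fst.matrix_conjTranspose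
  fun_prop

/-- polar data -/
structure Pd (g : GLN N) (k u : Mat N) (D : Fin N → ℝ) : Prop where
  hk : kᴴ * k = 1
  hu : uᴴ * u = 1
  val : (g : Mat N) = k * (u * ex D * uᴴ)

theorem Pd.inv {g : GLN N} {k u : Mat N} {D : Fin N → ℝ} (h : Pd g k u D) :
    ((g⁻¹ : GLN N) : Mat N) = u * ex (-D) * uᴴ * kᴴ := by
  refine Units.inv_eq_of_mul_eq_one_right ?_
  rw [h.val]
  calc k * (u * ex D * uᴴ) * (u * ex (-D) * uᴴ * kᴴ)
      = k * (u * (ex D * ((uᴴ * u) * ex (-D))) * uᴴ) * kᴴ := by simp only [Matrix.mul_assoc]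
    _ = 1 := by
      rw [h.hu, Matrix.one_mul, ex_neg, Matrix.mul_one, uni_symm h.hu, Matrix.mul_one,
        uni_symm h.hk]

theorem polar (hp : PolStmt) {G : Subgroup (GLN N)} (hG : SA G) {g : GLN N} (hg : g ∈ G) :
    ∃ (k : GLN N) (u : Mat N) (D : Fin N → ℝ), k ∈ G ∧ InLie G (hm u D) ∧ Pd g k u D := by
  obtain ⟨k, hk, X, h1, h2, h3, h4⟩ := hp N G hG g hg
  obtain ⟨u, D, hu, rfl⟩ := exists_hm h2
  refine ⟨k, u, D, hk, h3, h1, hu, ?_⟩
  have := exp_hm' hu D 1
  rw [Complex.ofReal_one, one_smul, one_smul] at this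
  rw [h4, this]

theorem one_param {G : Subgroup (GLN N)} {u : Mat N} (hu : uᴴ * u = 1) {D : Fin N → ℝ}
    (h : InLie G (hm u D)) (t : ℝ) : ∃ p ∈ G, Pd p 1 u (t • D) := by
  obtain ⟨p, hp, e⟩ := h t
  exact ⟨p, hp, by simp, hu, by rw [e, exp_hm' hu, Matrix.one_mul]⟩

theorem ex_apply (D D' : Fin N → ℝ) (m : Mat N) (a b : Fin N) :
    (ex D * m * ex D') a b = (Real.exp (D a + D' b) : ℝ) * m a b := by
  rw [ex, ex, mul_diagonal, diagonal_mul, Real.exp_add]
  push_cast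
  ring

theorem fn_ex (D D' : Fin N → ℝ) (m : Mat N) :
    fn (ex D * m * ex D') = ∑ a, ∑ b, ‖m a b‖ ^ 2 * Real.exp (2 * (D a + D' b)) := by
  refine Finset.sum_congr rfl fun a _ => Finset.sum_congr rfl fun b _ => ?_
  rw [ex_apply, norm_mul, Complex.norm_real, Real.norm_of_nonneg (Real.exp_pos _).le, mul_pow,
    two_mul, Real.exp_add (D a + D' b), mul_comm, sq (Real.exp _)]

theorem Pd.cj_eq {g : GLN N} {k u : Mat N} {D : Fin N → ℝ} (h : Pd g k u D) {ι : Type}
    (x : ι → Mat N) (j : ι) :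
    cj g x j = (k * u) * (ex D * (uᴴ * x j * u) * ex (-D)) * (k * u)ᴴ := by
  rw [cj, h.inv, h.val, conjTranspose_mul]
  simp only [Matrix.mul_assoc]

theorem fn_conj {u : Mat N} (hu : uᴴ * u = 1) (m : Mat N) : fn (u * m * uᴴ) = fn m := by
  rw [fn_right (uni_star hu), fn_left hu]

theorem fn_conj' {u : Mat N} (hu : uᴴ * u = 1) (m : Mat N) : fn (uᴴ * m * u) = fn m := by
  rw [fn_right hu, fn_left (uni_star hu)]

theorem Pd.FN_cj {g : GLN N} {k u : Mat N} {D : Fin N → ℝ} (h : Pd g k u D) {ι : Type}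
    [Fintype ι] (x : ι → Mat N) : FN (cj g x) =
      ∑ j, ∑ a, ∑ b, ‖(uᴴ * x j * u) a b‖ ^ 2 * Real.exp (2 * (D a - D b)) := by
  rw [FN_eq]
  refine Finset.sum_congr rfl fun j _ => ?_
  rw [h.cj_eq, fn_conj (uni_mul h.hk h.hu), fn_ex]
  simp only [Pi.neg_apply, sub_eq_add_neg]

theorem FN_conj {u : Mat N} (hu : uᴴ * u = 1) {ι : Type} [Fintype ι] (x : ι → Mat N) :
    ∑ j, ∑ a, ∑ b, ‖(uᴴ * x j * u) a b‖ ^ 2 = FN x :=
  Finset.sum_congr rfl fun j _ => fn_conj' hu (x j)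

theorem mu_conj {u : Mat N} (hu : uᴴ * u = 1) {ι : Type} [Fintype ι] (x : ι → Mat N) :
    mu (fun j => uᴴ * x j * u) = uᴴ * mu x * u := by
  have h : ∀ m : Mat N, u * (uᴴ * m) = m := fun m => by
    rw [← Matrix.mul_assoc, uni_symm hu, Matrix.one_mul]
  simp only [mu, Finset.mul_sum, Finset.sum_mul, conjTranspose_mul, conjTranspose_conjTranspose,
    Matrix.mul_sub, Matrix.sub_mul, Matrix.mul_assoc, h]

theorem lin {ι : Type} [Fintype ι] (z : ι → Mat N) (D : Fin N → ℝ) :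
    ((∑ j, ∑ a, ∑ b, ‖z j a b‖ ^ 2 * (D a - D b) : ℝ) : ℂ) = ∑ a, D a * mu z a a := by
  simp only [mu, Matrix.sum_apply, Matrix.sub_apply, mul_apply, conjTranspose_apply,
    Complex.star_def, Complex.mul_conj, Complex.conj_mul', Complex.normSq_eq_norm_sq,
    Finset.mul_sum, mul_sub, Finset.sum_sub_distrib]
  push_cast
  congr 1
  · rw [Finset.sum_comm]
    simp only [mul_comm]
  · rw [Finset.sum_comm (s := (Finset.univ : Finset (Fin N)))]
    refine Finset.sum_congr rfl fun j _ => ?_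
    rw [Finset.sum_comm]
    simp only [mul_comm]

theorem deriv2 (c δ : Fin N → Fin N → ℝ) (η : Fin N → Fin N → ℝ) :
    HasDerivAt (fun t : ℝ => ∑ a, ∑ b, c a b * Real.exp (η a b + t * δ a b))
      (∑ a, ∑ b, c a b * (Real.exp (η a b) * δ a b)) 0 := by
  refine HasDerivAt.fun_sum fun a _ => HasDerivAt.fun_sum fun b _ => HasDerivAt.const_mul _ ?_
  have h := (((hasDerivAt_id (0 : ℝ)).mul_const (δ a b)).const_add (η a b)).exp
  simpa using h

/-- a minimal vector is critical -/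
theorem crit {G : Subgroup (GLN N)} {ι : Type} [Fintype ι] {x : ι → Mat N} (hx : IsMinV G x)
    {u : Mat N} (hu : uᴴ * u = 1) {D : Fin N → ℝ} (h : InLie G (hm u D)) :
    ∑ j, ∑ a, ∑ b, ‖(uᴴ * x j * u) a b‖ ^ 2 * (D a - D b) = 0 := by
  have h1 := HasDerivAt.fun_sum (u := Finset.univ) fun j _ =>
    deriv2 (fun a b => ‖(uᴴ * x j * u) a b‖ ^ 2) (fun a b => 2 * (D a - D b)) fun _ _ => 0
  have h2 := IsLocalMin.hasDerivAt_eq_zero (Eventually.of_forall fun t => by
    obtain ⟨p, hp, e⟩ := one_param hu h t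
    have h3 := hx p hp
    rw [e.FN_cj, ← FN_conj hu] at h3
    simp only [zero_mul, add_zero, Real.exp_zero, mul_one, zero_add]
    refine h3.trans (le_of_eq ?_)
    simp only [Pi.smul_apply, smul_eq_mul, ← mul_sub, mul_left_comm t]) h1
  simp only [Real.exp_zero, one_mul, mul_left_comm _ (2 : ℝ), ← Finset.mul_sum] at h2
  linarith

end Kn

end Pool.Agent.MP_94b95a_al.Fl

end MrgPart0

-- ======== part 1: formerly Pool.Agent.MP_94b95a_al.fl.NotFlaw
section MrgPart1

-- ======== part 0: formerly Pool.Agent.MP_94b95a_al.fl.Unit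
section MrgPart0

/-! Bounded subgroups are conjugate into the unitary group. -/

namespace Pool.Agent.MP_94b95a_al.Fl

open NormedSpace Matrix Filter Topology Kn

namespace Unt

variable {N : ℕ}

theorem psi_pd {p : GLN N} {k u : Mat N} {D : Fin N → ℝ} (h : Pd p k u D) (g : GLN N) :
    psi (p * g) = ∑ a, ((∑ b, ‖(uᴴ * (g : Mat N)) a b‖ ^ 2) * Real.exp (2 * D a) +
      (∑ b, ‖(((g⁻¹ : GLN N) : Mat N) * u) b a‖ ^ 2) * Real.exp (-(2 * D a))) := by
  have e0 : ex (0 : Fin N → ℝ) = 1 := by simp [ex]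
  rw [psi, _root_.mul_inv_rev, Units.val_mul, Units.val_mul, h.inv, h.val, Finset.sum_add_distrib]
  congr 1
  · rw [show k * (u * ex D * uᴴ) * (g : Mat N) = k * (u * (ex D * (uᴴ * (g : Mat N)) * ex 0)) by
      simp only [Matrix.mul_assoc, e0, Matrix.mul_one], fn_left h.hk, fn_left h.hu, fn_ex]
    simp only [Pi.zero_apply, add_zero, Finset.sum_mul]
  · rw [show ((g⁻¹ : GLN N) : Mat N) * (u * ex (-D) * uᴴ * kᴴ) =
      ex 0 * (((g⁻¹ : GLN N) : Mat N) * u) * ex (-D) * uᴴ * kᴴ by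
        simp only [Matrix.mul_assoc, e0, Matrix.one_mul],
      fn_right (uni_star h.hk), fn_right (uni_star h.hu), fn_ex, Finset.sum_comm]
    simp only [Pi.zero_apply, zero_add, Pi.neg_apply, mul_neg, Finset.sum_mul]

theorem one_le {A B : Mat N} (h : A * B = 1) (a : Fin N) :
    1 ≤ (∑ b, ‖A a b‖ ^ 2) * ∑ b, ‖B b a‖ ^ 2 := by
  have h1 : (1 : ℝ) ≤ ∑ b, ‖A a b‖ * ‖B b a‖ := by
    have := congrFun (congrFun h a) a
    rw [mul_apply, one_apply_eq] at this
    calc (1 : ℝ) = ‖∑ b, A a b * B b a‖ := by rw [this, norm_one]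
      _ ≤ _ := (norm_sum_le _ _).trans (le_of_eq (by simp only [norm_mul]))
  exact (one_le_pow₀ h1).trans (Finset.sum_mul_sq_le_sq_mul_sq _ _ _)

theorem gap {α β d : ℝ} (hα : 0 ≤ α) (h : 1 ≤ α * β) :
    α * Real.exp (2 * (1 / 2 * d)) + β * Real.exp (-(2 * (1 / 2 * d))) +
        (Real.exp d - 1) ^ 2 * Real.exp (-d) ≤
      1 / 2 * (α * Real.exp (2 * (0 * d)) + β * Real.exp (-(2 * (0 * d)))) +
        1 / 2 * (α * Real.exp (2 * d) + β * Real.exp (-(2 * d))) := by
  rw [show 2 * (1 / 2 * d) = d by ring, zero_mul, mul_zero, neg_zero, Real.exp_zero, two_mul d,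
    neg_add, Real.exp_add, Real.exp_add]
  have h1 : Real.exp d * Real.exp (-d) = 1 := by rw [← Real.exp_add]; simp
  generalize Real.exp d = E at *
  generalize Real.exp (-d) = F at *
  have h2 : 0 < α := hα.lt_of_ne fun h' => by rw [← h'] at h; linarith
  have h3 : 0 ≤ α + β * F ^ 2 - 2 * F := by
    refine nonneg_of_mul_nonneg_right ?_ h2
    nlinarith [sq_nonneg (α - F), mul_le_mul_of_nonneg_right h (sq_nonneg F)]
  have h4 : (F - 1) ^ 2 = (E - 1) ^ 2 * F ^ 2 := by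
    rw [← mul_pow, sub_mul, h1]
    ring
  nlinarith [mul_nonneg (sq_nonneg (E - 1)) h3]

theorem fn_mul (A B : Mat N) : fn (A * B) ≤ fn A * fn B := by
  rw [fn, fn, fn, Finset.sum_comm (f := fun a b => ‖B a b‖ ^ 2), Finset.sum_mul_sum]
  refine Finset.sum_le_sum fun a _ => Finset.sum_le_sum fun b _ => ?_
  refine le_trans ?_ (Finset.sum_mul_sq_le_sq_mul_sq _ _ _)
  rw [mul_apply]
  gcongr
  exact (norm_sum_le _ _).trans (le_of_eq (by simp only [norm_mul]))

end Unt

open Unt in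
theorem unit_thm (hl : LieStmt) (hp : PolStmt) : UnitStmt := by
  intro N G C hG hCG ⟨B, hB⟩
  have hB' : ∀ c ∈ C, fn (c : Mat N) ≤ ∑ _a : Fin N, ∑ _b : Fin N, B ^ 2 := fun c hc =>
    Finset.sum_le_sum fun a _ => Finset.sum_le_sum fun b _ => by
      have := hB _ ⟨c, hc, rfl⟩ a b
      gcongr
  generalize ∑ _a : Fin N, ∑ _b : Fin N, B ^ 2 = B' at hB'
  have hbd : ∀ g : GLN N, BddAbove (Set.range fun c : C => psi (g * c.1)) := fun g =>
    ⟨fn (g : Mat N) * B' + B' * fn ((g⁻¹ : GLN N) : Mat N), by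
      rintro _ ⟨c, rfl⟩
      simp only [psi, _root_.mul_inv_rev, Units.val_mul]
      exact add_le_add ((fn_mul _ _).trans (mul_le_mul_of_nonneg_left (hB' _ c.2) (fn_nonneg _)))
        ((fn_mul _ _).trans (mul_le_mul_of_nonneg_right (hB' _ (C.inv_mem c.2)) (fn_nonneg _)))⟩
  have hle : ∀ (g : GLN N), ∀ c ∈ C, psi (g * c) ≤ ⨆ c : C, psi (g * c.1) := fun g c hc =>
    le_ciSup (hbd g) ⟨c, hc⟩
  obtain ⟨g, hg, hmin⟩ := min_psi (closed_G hl hG.alg) (Φ := fun g => ⨆ c : C, psi (g * c.1))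
    (lowerSemicontinuous_ciSup hbd fun c =>
      (cont_psi.comp (continuous_mul_const c.1)).lowerSemicontinuous)
    (fun g => by simpa using hle g 1 C.one_mem) G.one_mem
  refine ⟨g, hg, fun c hc => ?_⟩
  obtain ⟨k, u, D, -, hL, h⟩ := polar hp hG (G.mul_mem (G.mul_mem hg (hCG hc)) (G.inv_mem hg))
  obtain ⟨p, hpG, hp'⟩ := one_param h.hu hL (1 / 2)
  have h0 : Pd (1 : GLN N) 1 u ((0 : ℝ) • D) := ⟨by simp, h.hu, by simp [ex, uni_symm h.hu]⟩
  have h1 : (⨆ c : C, psi (p * g * c.1)) ≤ (⨆ c : C, psi (g * c.1)) -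
      ∑ a, (Real.exp (D a) - 1) ^ 2 * Real.exp (-D a) := ciSup_le fun c' => by
    have a1 := hle g c'.1 c'.2
    have a2 := hle g (c * c'.1) (C.mul_mem hc c'.2)
    rw [show g * (c * c'.1) = g * c * g⁻¹ * (g * c'.1) by group, psi_pd h] at a2
    rw [← one_mul (g * c'.1), psi_pd h0] at a1
    rw [mul_assoc, psi_pd hp', le_sub_iff_add_le, ← Finset.sum_add_distrib]
    refine le_trans (Finset.sum_le_sum fun a _ => gap (by positivity) (one_le ?_ a)) ?_
    · rw [Matrix.mul_assoc, ← Matrix.mul_assoc ((g * c'.1 : GLN N) : Mat N), Units.mul_inv,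
        Matrix.one_mul, h.hu]
    · rw [Finset.sum_add_distrib, ← Finset.mul_sum, ← Finset.mul_sum]
      simp only [Pi.smul_apply, smul_eq_mul] at a1
      linarith
  have h2 := (hmin _ (G.mul_mem hpG hg)).trans h1
  have h3 : D = 0 := funext fun a => by
    have := (Finset.sum_eq_zero_iff_of_nonneg (s := Finset.univ)
      (f := fun a => (Real.exp (D a) - 1) ^ 2 * Real.exp (-D a)) fun _ _ => by positivity).1
      (le_antisymm (by linarith) (by positivity)) a (Finset.mem_univ a)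
    rw [mul_eq_zero, or_iff_left (Real.exp_pos _).ne', pow_eq_zero_iff two_ne_zero,
      sub_eq_zero] at this
    exact Real.exp_eq_one_iff _ |>.1 this
  have h4 : ((g * c * g⁻¹ : GLN N) : Mat N) = k := by
    rw [h.val, h3]
    simp [ex, uni_symm h.hu]
  rw [Uni, h4]
  exact h.hk

end Pool.Agent.MP_94b95a_al.Fl

end MrgPart0

-- ======== part 1: formerly Pool.Agent.MP_94b95a_al.fl.Split
section MrgPart1

/-! Splitting of a representation into elliptic, hyperbolic and unipotent parts. -/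

namespace Pool.Agent.MP_94b95a_al.Fl

open NormedSpace Matrix Filter Topology
open scoped commutatorElement

namespace Split

variable {N : ℕ}

/-- A canonical choice of Jordan decompositions. -/
structure Can (E : GLN N → GLN N) (A ν : GLN N → Mat N) : Prop where
  jd : ∀ g, JD g (E g) (A g) (ν g)
  adj : ∀ g, ∀ x ∈ ({(E g : Mat N), A g, ν g} : Set (Mat N)), x ∈ Algebra.adjoin ℂ {(g : Mat N)}
  hei : ∀ g : GLN N, ∀ η ζ : Mat N, (g : Mat N) * η = (η + ζ) * (g : Mat N) →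
    Commute (g : Mat N) ζ → Commute (E g : Mat N) η ∧ Commute (A g) η ∧ ν g * η - η * ν g = ζ

/-- The cross commutation relations. -/
structure PC (E : GLN N → GLN N) (A ν : GLN N → Mat N) (g g' : GLN N) : Prop where
  eA : Commute (E g : Mat N) (A g')
  AA : Commute (A g) (A g')
  eν : Commute (E g : Mat N) (ν g')
  Aν : Commute (A g) (ν g')

variable {E : GLN N → GLN N} {A ν : GLN N → Mat N}

theorem val_comm {g g' : GLN N} (h : Commute g g') : Commute (g : Mat N) (g' : Mat N) :=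
  h.map (Units.coeHom (Mat N))

theorem Can.left (hC : Can E A ν) {g : GLN N} {y : Mat N} (h : Commute (g : Mat N) y) :
    ∀ x ∈ ({(E g : Mat N), A g, ν g} : Set (Mat N)), Commute x y := fun x hx =>
  (Algebra.commute_of_mem_adjoin_singleton_of_commute (hC.adj g x hx) h.symm).symm

theorem Can.both (hC : Can E A ν) {g g' : GLN N} (h : Commute g g') :
    ∀ x ∈ ({(E g : Mat N), A g, ν g} : Set (Mat N)),
      ∀ y ∈ ({(E g' : Mat N), A g', ν g'} : Set (Mat N)), Commute x y := fun x hx y hy =>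
  (hC.left (hC.left (val_comm h) x hx).symm y hy).symm

theorem Can.pc (hC : Can E A ν) {g g' : GLN N} (h : Commute g g') : PC E A ν g g' :=
  ⟨hC.both h _ (by simp) _ (by simp), hC.both h _ (by simp) _ (by simp),
    hC.both h _ (by simp) _ (by simp), hC.both h _ (by simp) _ (by simp)⟩

theorem Can.mul (hC : Can E A ν) (hU : JunStmt) (hE : EllStmt) {g g' : GLN N} (h : Commute g g') :
    E (g * g') = E g * E g' ∧ A (g * g') = A g + A g' ∧ ν (g * g') = ν g + ν g' :=
  hU N _ _ _ _ _ _ _ (hC.jd (g * g')) (hE.jd_mul N _ _ _ _ _ _ _ _ (hC.jd g) (hC.jd g') (hC.both h))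

theorem Can.half (hC : Can E A ν) (hU : JunStmt) (hE : EllStmt) {x y : GLN N}
    (hx : Commute ⁅x, y⁆ x) (hy : Commute ⁅x, y⁆ y) :
    PC E A ν x y ∧ ν x * ν y - ν y * ν x = ν ⁅x, y⁆ ∧ ν x * A y - A y * ν x = A ⁅x, y⁆ ∧
      x * E y * x⁻¹ = E ⁅x, y⁆ * E y := by
  have h0 : x * y * x⁻¹ = ⁅x, y⁆ * y := by rw [commutatorElement_def]; group
  obtain ⟨m1, m2, m3⟩ := hC.mul hU hE hy
  have h1 := hE.jd_conj N _ _ x _ _ (hC.jd y)
  rw [h0] at h1
  obtain ⟨c1, c2, c3⟩ := hU N _ _ _ _ _ _ _ h1 (hC.jd _)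
  have conj : ∀ η ζ : Mat N, (x : Mat N) * η * ((x⁻¹ : GLN N) : Mat N) = ζ + η →
      (x : Mat N) * η = (η + ζ) * (x : Mat N) := fun η ζ h => by
    rw [add_comm, ← h, mul_assoc, Units.inv_mul, mul_one]
  have hz := hC.left (val_comm hx)
  obtain ⟨a1, a2, a3⟩ := hC.hei x _ _ (conj _ _ (c2.trans m2)) (hz _ (by simp)).symm
  obtain ⟨b1, b2, b3⟩ := hC.hei x _ _ (conj _ _ (c3.trans m3)) (hz _ (by simp)).symm
  exact ⟨⟨a1, a2, b1, b2⟩, b3, a3, c1.trans m1⟩

theorem Can.full (hC : Can E A ν) (hU : JunStmt) (hE : EllStmt) {x y : GLN N}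
    (hx : Commute ⁅x, y⁆ x) (hy : Commute ⁅x, y⁆ y) :
    PC E A ν x y ∧ PC E A ν y x ∧ ν x * ν y - ν y * ν x = ν ⁅x, y⁆ ∧ A ⁅x, y⁆ = 0 ∧
      ⁅E x, E y⁆ = E ⁅x, y⁆ := by
  obtain ⟨p1, p2, p3, p4⟩ := hC.half hU hE hx hy
  have hx' : Commute ⁅y, x⁆ x := by rw [← commutatorElement_inv]; exact hx.inv_left
  have hy' : Commute ⁅y, x⁆ y := by rw [← commutatorElement_inv]; exact hy.inv_left
  obtain ⟨q1, -⟩ := hC.half hU hE hy' hx'
  refine ⟨p1, q1, p2, ?_, ?_⟩
  · rw [← p3, q1.Aν.eq, sub_self]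
  · have h1 : Commute ((E x)⁻¹ * x) (E y) := by
      apply Units.ext
      have : (((E x)⁻¹ * x : GLN N) : Mat N) = exp (A x) * exp (ν x) := by
        rw [Units.val_mul]
        conv_lhs => rw [(hC.jd x).eq]
        rw [mul_assoc, Units.inv_mul_cancel_left]
      rw [Units.val_mul, Units.val_mul (E y), this]
      exact (q1.eA.exp_right.mul_right q1.eν.exp_right).symm
    have h2 : E x * E y * (E x)⁻¹ = x * E y * x⁻¹ := by
      calc E x * E y * (E x)⁻¹ = E x * (E y * ((E x)⁻¹ * x)) * x⁻¹ := by group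
        _ = E x * (((E x)⁻¹ * x) * E y) * x⁻¹ := by rw [h1.eq]
        _ = _ := by group
    rw [commutatorElement_def, h2, p4, mul_inv_cancel_right]

theorem opp {g u v z : GLN N} (h1 : PC E A ν g u) (h2 : PC E A ν g v) (h3 : PC E A ν u g)
    (h4 : PC E A ν v g) (hν : ν u * ν v - ν v * ν u = ν z) (hA : A z = 0)
    (he : ⁅E u, E v⁆ = E z) : PC E A ν g z ∧ PC E A ν z g := by
  have key : ∀ y : Mat N, Commute (E u : Mat N) y → Commute (E v : Mat N) y →
      Commute (E z : Mat N) y := fun y a b => by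
    rw [← he, commutatorElement_def, Units.val_mul, Units.val_mul, Units.val_mul]
    exact ((a.mul_left b).mul_left a.units_inv_left).mul_left b.units_inv_left
  refine ⟨⟨?_, ?_, ?_, ?_⟩, ⟨key _ h3.eA h4.eA, ?_, key _ h3.eν h4.eν, ?_⟩⟩
  · rw [hA]; exact Commute.zero_right _
  · rw [hA]; exact Commute.zero_right _
  · rw [← hν]; exact (h1.eν.mul_right h2.eν).sub_right (h2.eν.mul_right h1.eν)
  · rw [← hν]; exact (h1.Aν.mul_right h2.Aν).sub_right (h2.Aν.mul_right h1.Aν)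
  · rw [hA]; exact Commute.zero_left _
  · rw [hA]; exact Commute.zero_left _

variable {R : Type} [CommRing R] {I : Ideal R}

theorem fam_heis (hC : Can E A ν) (hU : JunStmt) (hE : EllStmt) {x : Fin 5 → Fin 5 → R → GLN N}
    (hx : StFam I x) {i j k : Fin 5} {a b : R} (hik : i ≠ k) (ha : Leg I i j a)
    (hb : Leg I j k b) :
    PC E A ν (x i j a) (x j k b) ∧ PC E A ν (x j k b) (x i j a) ∧
      ν (x i j a) * ν (x j k b) - ν (x j k b) * ν (x i j a) = ν (x i k (a * b)) ∧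
      A (x i k (a * b)) = 0 ∧ ⁅E (x i j a), E (x j k b)⁆ = E (x i k (a * b)) := by
  have h := hx.heis i j k a b hik ha hb
  rw [← h]
  apply hC.full hU hE
  · rw [h]; exact hx.comm i k i j _ _ hik.symm ha.1 (ha.mul hik hb) ha
  · rw [h]; exact hx.comm i k j k _ _ hb.1.symm hik (ha.mul hik hb) hb

theorem fam_opp (hC : Can E A ν) (hU : JunStmt) (hE : EllStmt) {x : Fin 5 → Fin 5 → R → GLN N}
    (hx : StFam I x) {i j : Fin 5} {a b : R} (ha : Leg I i j a) (hb : Leg I j i b)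
    (hs : ¬ Simple j i) : PC E A ν (x i j a) (x j i b) ∧ PC E A ν (x j i b) (x i j a) := by
  obtain ⟨m, b', b'', h1, h2, rfl⟩ := exists_dec hb hs
  obtain ⟨p1, p2, -⟩ := fam_heis hC hU hE hx h2.1.symm ha h1
  obtain ⟨q1, q2, -⟩ := fam_heis hC hU hE hx h1.1.symm h2 ha
  obtain ⟨-, -, r1, r2, r3⟩ := fam_heis hC hU hE hx hb.1 h1 h2
  exact opp p1 q2 p2 q1 r1 r2 r3

theorem fam_pc (hC : Can E A ν) (hU : JunStmt) (hE : EllStmt) {x : Fin 5 → Fin 5 → R → GLN N}
    (hx : StFam I x) {i j k l : Fin 5} {a b : R} (ha : Leg I i j a) (hb : Leg I k l b) :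
    PC E A ν (x i j a) (x k l b) := by
  by_cases h1 : j = k
  · subst h1
    by_cases h2 : i = l
    · subst h2
      rcases not_simple_or i j with h | h
      · exact (fam_opp hC hU hE hx hb ha h).2
      · exact (fam_opp hC hU hE hx ha hb h).1
    · exact (fam_heis hC hU hE hx h2 ha hb).1
  · by_cases h2 : i = l
    · subst h2
      exact (fam_heis hC hU hE hx (Ne.symm h1) hb ha).2.1
    · exact hC.pc (hx.comm i j k l a b h1 h2 ha hb)

theorem st_ind {p : St I → Prop} (hX : ∀ i j a, Leg I i j a → p (X I i j a)) (h1 : p 1)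
    (hm : ∀ γ δ, p γ → p δ → p (γ * δ)) (hi : ∀ γ, p γ → p γ⁻¹) (γ : St I) : p γ := by
  have hγ : γ ∈ Subgroup.closure (gens I (X I)) := by rw [closure_gens_X]; trivial
  induction hγ using Subgroup.closure_induction with
  | mem x hx => obtain ⟨i, j, a, ha, rfl⟩ := hx; exact hX i j a ha
  | one => exact h1
  | mul x y _ _ hx hy => exact hm x y hx hy
  | inv x _ hx => exact hi x hx

theorem e_comm (e : St I →* GLN N) (y : Mat N)
    (h : ∀ i j a, Leg I i j a → Commute (e (X I i j a) : Mat N) y) (γ : St I) :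
    Commute (e γ : Mat N) y := by
  refine st_ind (p := fun γ => Commute (e γ : Mat N) y) h ?_ ?_ ?_ γ
  · simp
  · intro γ δ a b; rw [map_mul, Units.val_mul]; exact a.mul_left b
  · intro γ a; rw [map_inv]; exact a.units_inv_left

theorem a_comm (α : St I →* Multiplicative (Mat N)) (y : Mat N)
    (h : ∀ i j a, Leg I i j a → Commute (α (X I i j a)).toAdd y) (γ : St I) :
    Commute (α γ).toAdd y := by
  refine st_ind (p := fun γ => Commute (α γ).toAdd y) h ?_ ?_ ?_ γ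
  · simp
  · intro γ δ a b; rw [map_mul, toAdd_mul]; exact a.add_left b
  · intro γ a; rw [map_inv, toAdd_inv]; exact a.neg_left

end Split

open Split in
theorem split_thm (hJ : JexStmt) (hU : JunStmt) (hE : EllStmt) (hL : LieStmt) : SplitStmt := by
  intro N G hG R _ I ρ
  choose E A ν h1 h2 h3 h4 h5 h6 using hJ N
  have hC : Can E A ν := ⟨h1, fun g x hx => by
    rcases hx with rfl | rfl | rfl
    exacts [h2 g, h3 g, h4 g], h6⟩
  let f : St I →* GLN N := MonoidHom.mk' ρ.1 ρ.2.2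
  let x : Fin 5 → Fin 5 → R → GLN N := fun i j a => f (X I i j a)
  have hx : StFam I x := (stFam_X I).map f
  have hadd : ∀ i j a b, Leg I i j a → Leg I i j b → E (x i j (a + b)) = E (x i j a) * E (x i j b) ∧
      A (x i j (a + b)) = A (x i j a) + A (x i j b) ∧
      ν (x i j (a + b)) = ν (x i j a) + ν (x i j b) := fun i j a b ha hb => by
    rw [hx.add i j a b ha hb]
    exact hC.mul hU hE (hx.comm i j i j a b ha.1.symm ha.1 ha hb)
  have he : StFam I (fun i j a => E (x i j a)) :=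
    ⟨fun i j a b ha hb => (hadd i j a b ha hb).1,
      fun i j k a b hik ha hb => (fam_heis hC hU hE hx hik ha hb).2.2.2.2,
      fun i j k l a b p q ha hb => Units.ext
        (hC.both (hx.comm i j k l a b p q ha hb) _ (by simp) _ (by simp))⟩
  have hα : StFam I (fun i j a => Multiplicative.ofAdd (A (x i j a))) :=
    ⟨fun i j a b ha hb => by rw [(hadd i j a b ha hb).2.1]; rfl,
      fun i j k a b hik ha hb => by
        rw [(fam_heis hC hU hE hx hik ha hb).2.2.2.1]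
        exact commutatorElement_eq_one_iff_commute.mpr (Commute.all _ _),
      fun i j k l a b _ _ _ _ => Commute.all _ _⟩
  obtain ⟨e, hev⟩ := exists_lift he
  obtain ⟨α, hαv⟩ := exists_lift hα
  have hαv' : ∀ i j a, Leg I i j a → (α (X I i j a)).toAdd = A (x i j a) := fun i j a ha => by
    rw [hαv i j a ha]; rfl
  have hAA : ∀ γ δ, Commute (α γ).toAdd (α δ).toAdd := fun γ δ =>
    a_comm α _ (fun i j a ha => (a_comm α _ (fun k l b hb => by
      rw [hαv' i j a ha, hαv' k l b hb]; exact (fam_pc hC hU hE hx hb ha).AA) δ).symm) γ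
  refine ⟨⟨fun i j a => ν (x i j a), e, fun γ => (α γ).toAdd⟩, ⟨⟨?_, ?_, ?_, ?_⟩, ?_, ?_, ?_, ?_,
    ?_, hAA, ?_, ?_, ?_, ?_⟩, ?_⟩
  · exact fun i j a b ha hb => (hadd i j a b ha hb).2.2
  · exact fun i j k a b hik ha hb => (fam_heis hC hU hE hx hik ha hb).2.2.1
  · exact fun i j k l a b p q ha hb =>
      hC.both (hx.comm i j k l a b p q ha hb) _ (by simp) _ (by simp)
  · exact fun i j a _ => (h1 _).nil
  · exact fun i j a _ => (h5 _ G hG (ρ.2.1 _)).2.2
  · refine st_ind (p := fun γ => e γ ∈ G) (fun i j a ha => ?_) ?_ ?_ ?_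
    · rw [hev i j a ha]; exact (h5 _ G hG (ρ.2.1 _)).1
    · rw [map_one]; exact G.one_mem
    · intro γ δ a b; rw [map_mul]; exact G.mul_mem a b
    · intro γ a; rw [map_inv]; exact G.inv_mem a
  · refine st_ind (p := fun γ => InLie G (α γ).toAdd) (fun i j a ha => ?_) ?_ ?_ ?_
    · rw [hαv' i j a ha]; exact (h5 _ G hG (ρ.2.1 _)).2.1
    · rw [map_one]; exact hL.zero N G
    · intro γ δ a b; rw [map_mul, toAdd_mul]; exact hL.add N G hG _ _ a b
    · intro γ a; rw [map_inv, toAdd_inv, ← neg_one_smul ℂ]; exact hL.smul N G _ _ a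
  · intro γ δ; change (α (γ * δ)).toAdd = _; rw [map_mul, toAdd_mul]
  · exact fun γ δ => e_comm e _ (fun i j a ha => (a_comm α _ (fun k l b hb => by
      rw [hev i j a ha, hαv' k l b hb]; exact (fam_pc hC hU hE hx ha hb).eA.symm) δ).symm) γ
  · exact fun γ k l b hb => e_comm e _ (fun i j a ha => by
      rw [hev i j a ha]; exact (fam_pc hC hU hE hx ha hb).eν) γ
  · exact fun γ k l b hb => a_comm α _ (fun i j a ha => by
      rw [hαv' i j a ha]; exact (fam_pc hC hU hE hx ha hb).Aν) γ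
  · intro i j a ha; change Ell (e _); rw [hev i j a ha]; exact (h1 _).ell
  · refine st_ind (p := fun γ => Hyp (α γ).toAdd) (fun i j a ha => ?_) ?_ ?_ ?_
    · rw [hαv' i j a ha]; exact (h1 _).hyp
    · rw [map_one]; exact hE.hyp_zero N
    · intro γ δ a b; rw [map_mul, toAdd_mul]; exact hE.hyp_add N _ _ a b (hAA γ δ)
    · intro γ a
      rw [map_inv, toAdd_inv]
      simpa using hE.hyp_smul N _ (-1) a
  · intro i j a ha
    change _ = ((e _ : GLN N) : Mat N) * exp (α _).toAdd * _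
    rw [hev i j a ha, hαv' i j a ha]
    exact (h1 _).eq

end Pool.Agent.MP_94b95a_al.Fl

end MrgPart1

-- ======== part 2: formerly Pool.Agent.MP_94b95a_al.fl.NfB
section MrgPart2

/-! Conjugation of matrices and of representations. -/

namespace Pool.Agent.MP_94b95a_al.Fl

open NormedSpace Matrix Filter Topology

namespace NfB

variable {N : ℕ}

/-- conjugation as an algebra map -/
noncomputable def cf (g : GLN N) : Mat N →ₐ[ℂ] Mat N where
  toFun m := (g : Mat N) * m * ((g⁻¹ : GLN N) : Mat N)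
  map_one' := by rw [mul_one, Units.mul_inv]
  map_mul' a b := by simp only [mul_assoc, Units.inv_mul_cancel_left]
  map_zero' := by rw [mul_zero, zero_mul]
  map_add' a b := by rw [mul_add, add_mul]
  commutes' c := by
    rw [Algebra.algebraMap_eq_smul_one, mul_smul_comm, smul_mul_assoc, mul_one, Units.mul_inv]

theorem cf_apply (g : GLN N) (m : Mat N) :
    cf g m = (g : Mat N) * m * ((g⁻¹ : GLN N) : Mat N) := rfl

theorem cf_exp (g : GLN N) (m : Mat N) : cf g (exp m) = exp (cf g m) :=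
  (Matrix.exp_units_conj g m).symm

theorem cf_val (g h : GLN N) : ((g * h * g⁻¹ : GLN N) : Mat N) = cf g h := rfl

theorem cf_fix {g : GLN N} {m : Mat N} (h : Commute (g : Mat N) m) : cf g m = m := by
  rw [cf_apply, h.eq, Units.mul_inv_cancel_right]

variable {G : Subgroup (GLN N)} {Γ : Type} [Group Γ]

/-- conjugation of a representation -/
def cR (g : GLN N) (hg : g ∈ G) (ρ : Rep Γ G) : Rep Γ G :=
  ⟨fun γ => g * ρ.1 γ * g⁻¹, fun γ => G.mul_mem (G.mul_mem hg (ρ.2.1 γ)) (G.inv_mem hg),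
    fun a b => by simp only [ρ.2.2, mul_assoc, inv_mul_cancel_left]⟩

theorem conj_cR (g : GLN N) (hg : g ∈ G) (ρ : Rep Γ G) : Conj ρ (cR g hg ρ) :=
  ⟨g, hg, fun _ => rfl⟩

theorem cont_cR (g : GLN N) (hg : g ∈ G) : Continuous (cR g hg : Rep Γ G → Rep Γ G) :=
  Continuous.subtype_mk (continuous_pi fun γ => (continuous_const.mul
    ((continuous_apply γ).comp continuous_subtype_val)).mul continuous_const) _

theorem nest {ρ σ τ : Rep Γ G} (h : σ ∈ closure {s | Conj ρ s})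
    (h' : τ ∈ closure {s | Conj σ s}) : τ ∈ closure {s | Conj ρ s} := by
  refine closure_minimal ?_ isClosed_closure h'
  rintro s ⟨g, hg, e⟩
  rw [show s = cR g hg σ from Subtype.ext (funext e)]
  refine map_mem_closure (cont_cR g hg) h ?_
  rintro t ⟨k, hk, e'⟩
  refine ⟨g * k, G.mul_mem hg hk, fun γ => ?_⟩
  simp only [cR, e', mul_assoc, _root_.mul_inv_rev]

theorem comm_span {K : Type} [Field K] [Algebra K (Mat N)] {S : Set (Mat N)} {s m : Mat N}
    (h : ∀ y ∈ S, Commute s y) (hm : m ∈ Submodule.span K S) : Commute s m := by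
  induction hm using Submodule.span_induction with
  | mem y hy => exact h y hy
  | zero => exact Commute.zero_right s
  | add a b _ _ ha hb => exact ha.add_right hb
  | smul c a _ ha => exact ha.smul_right c

end NfB

end Pool.Agent.MP_94b95a_al.Fl

end MrgPart2

-- ======== part 3: formerly Pool.Agent.MP_94b95a_al.fl.NfA
section MrgPart3

/-! Unitary elliptic part and Hermitian hyperbolic part. -/

namespace Pool.Agent.MP_94b95a_al.Fl

open NormedSpace Matrix Filter Topology Kn NfB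

namespace NfA

variable {N : ℕ}

theorem fn_bdd {S : Set (Mat N)} (h : BddM S) : ∃ C, ∀ m ∈ S, fn m ≤ C := by
  obtain ⟨B, hB⟩ := h
  exact ⟨∑ _a : Fin N, ∑ _b : Fin N, B ^ 2, fun m hm =>
    Finset.sum_le_sum fun a _ => Finset.sum_le_sum fun b _ => by
      have := hB m hm a b
      gcongr⟩

theorem smul_real (t : ℝ) (a : Mat N) : Complex.I • (t • a) = (Complex.I * t) • a := by
  rw [mul_smul, Complex.coe_smul]

theorem span_bdd (s : Finset (Mat N)) (h1 : ∀ a ∈ s, Hyp a) (h2 : ∀ a ∈ s, ∀ b ∈ s, Commute a b) :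
    ∃ C, ∀ B ∈ Submodule.span ℝ (s : Set (Mat N)), fn (exp (Complex.I • B)) ≤ C := by
  classical
  induction s using Finset.induction_on with
  | empty => exact ⟨fn (1 : Mat N), fun B hB => by
      rw [Finset.coe_empty, Submodule.span_empty, Submodule.mem_bot] at hB
      rw [hB, smul_zero, exp_zero]⟩
  | insert a s _ ih =>
    obtain ⟨C, hC⟩ := ih (fun b hb => h1 b (Finset.mem_insert_of_mem hb))
      fun b hb c hc => h2 b (Finset.mem_insert_of_mem hb) c (Finset.mem_insert_of_mem hc)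
    obtain ⟨C', hC'⟩ := fn_bdd (h1 a (Finset.mem_insert_self a s))
    refine ⟨C' * C, fun B hB => ?_⟩
    rw [Finset.coe_insert, Submodule.mem_span_insert] at hB
    obtain ⟨t, B', hB', rfl⟩ := hB
    have hc : Commute a B' := comm_span (fun y hy => h2 a (Finset.mem_insert_self a s) y
      (Finset.mem_insert_of_mem hy)) hB'
    have h3 := hC' _ ⟨t, rfl⟩
    rw [smul_add, smul_real, Matrix.exp_add_of_commute _ _ ((hc.smul_left _).smul_right _)]
    exact (Unt.fn_mul _ _).trans (mul_le_mul h3 (hC _ hB') (fn_nonneg _) ((fn_nonneg _).trans h3))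

variable {R : Type} [CommRing R] {I : Ideal R} {G : Subgroup (GLN N)}

/-- conjugation of split data -/
noncomputable def cT (g : GLN N) (T : Tri I N) : Tri I N :=
  ⟨fun i j a => cf g (T.ν i j a), (MulAut.conj g).toMonoidHom.comp T.e, fun γ => cf g (T.A γ)⟩

theorem good (he : EllStmt) (hl : LieStmt) {g : GLN N} (hg : g ∈ G) {T : Tri I N}
    (h : T.Good G) : (cT g T).Good G where
  lie := ⟨fun i j a b ha hb => by simp only [cT, h.lie.add i j a b ha hb, map_add],
    fun i j k a b hik ha hb => by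
      simp only [cT, ← h.lie.heis i j k a b hik ha hb, map_sub, map_mul],
    fun i j k l a b h1 h2 ha hb => (h.lie.comm i j k l a b h1 h2 ha hb).map (cf g),
    fun i j a ha => (h.lie.nil i j a ha).map (cf g)⟩
  νG i j a ha := hl.conj N G g _ hg (h.νG i j a ha)
  eG γ := G.mul_mem (G.mul_mem hg (h.eG γ)) (G.inv_mem hg)
  AG γ := hl.conj N G g _ hg (h.AG γ)
  Aadd γ δ := by simp only [cT, h.Aadd, map_add]
  eA γ δ := (h.eA γ δ).map (cf g)
  AA γ δ := (h.AA γ δ).map (cf g)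
  eν γ i j a ha := (h.eν γ i j a ha).map (cf g)
  Aν γ i j a ha := (h.Aν γ i j a ha).map (cf g)
  ell i j a ha := he.ell_conj N _ g (h.ell i j a ha)
  hyp γ := he.hyp_conj N _ g (h.hyp γ)

end NfA

open NfA in
theorem nfA_thm (he : EllStmt) (hl : LieStmt) (hu : UnitStmt) (hb : BndStmt) (hs : SplitStmt) :
    NfAStmt := by
  intro N G hG R _ _ ε ρ
  obtain ⟨T, hT, hρ⟩ := hs N G hG.alg R _ ρ
  obtain ⟨C₁, hC₁⟩ := fn_bdd (hb N R ε T.e hT.ell)
  obtain ⟨b, hb1, hb2, -⟩ := Submodule.exists_fun_fin_finrank_span_eq ℝ (Set.range T.A)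
  obtain ⟨C₂, hC₂⟩ := span_bdd (Set.finite_range b).toFinset (fun a ha => by
    obtain ⟨j, rfl⟩ := (Set.Finite.mem_toFinset _).1 ha
    obtain ⟨γ, e⟩ := hb1 j
    exact e ▸ hT.hyp γ) fun a ha a' ha' => by
    obtain ⟨j, rfl⟩ := (Set.Finite.mem_toFinset _).1 ha
    obtain ⟨j', rfl⟩ := (Set.Finite.mem_toFinset _).1 ha'
    obtain ⟨γ, e⟩ := hb1 j
    obtain ⟨γ', e'⟩ := hb1 j'
    exact e ▸ e' ▸ hT.AA γ γ'
  rw [Set.Finite.coe_toFinset, hb2] at hC₂
  have c1 : ∀ γ, ∀ B ∈ Submodule.span ℝ (Set.range T.A),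
      Commute (T.e γ : Mat N) (exp (Complex.I • B)) := fun γ B hB =>
    ((comm_span (by rintro _ ⟨δ, rfl⟩; exact hT.eA γ δ) hB).smul_right _).exp_right
  have c2 : ∀ B ∈ Submodule.span ℝ (Set.range T.A), ∀ B' ∈ Submodule.span ℝ (Set.range T.A),
      exp (Complex.I • (B + B')) = exp (Complex.I • B) * exp (Complex.I • B') := by
    intro B hB B' hB'
    have : Commute B B' := comm_span (by
      rintro _ ⟨δ, rfl⟩
      exact (comm_span (by rintro _ ⟨δ', rfl⟩; exact hT.AA δ δ') hB).symm) hB'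
    rw [smul_add, Matrix.exp_add_of_commute _ _ ((this.smul_left _).smul_right _)]
  have c3 : ∀ γ δ, ∀ B ∈ Submodule.span ℝ (Set.range T.A),
      ∀ B' ∈ Submodule.span ℝ (Set.range T.A),
      (T.e γ : Mat N) * exp (Complex.I • B) * ((T.e δ : Mat N) * exp (Complex.I • B')) =
        (T.e (γ * δ) : Mat N) * exp (Complex.I • (B + B')) := fun γ δ B hB B' hB' => by
    rw [map_mul, Units.val_mul, c2 B hB B' hB', mul_assoc, mul_assoc, ← mul_assoc (exp _),
      ← (c1 δ B hB).eq, mul_assoc]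
  let C : Subgroup (GLN N) :=
    { carrier := {c | ∃ γ, ∃ B ∈ Submodule.span ℝ (Set.range T.A),
        (c : Mat N) = (T.e γ : Mat N) * exp (Complex.I • B)}
      one_mem' := ⟨1, 0, Submodule.zero_mem _, by simp⟩
      mul_mem' := by
        rintro c c' ⟨γ, B, hB, e⟩ ⟨δ, B', hB', e'⟩
        exact ⟨γ * δ, B + B', Submodule.add_mem _ hB hB', by
          rw [Units.val_mul, e, e', c3 γ δ B hB B' hB']⟩
      inv_mem' := by
        rintro c ⟨γ, B, hB, e⟩
        refine ⟨γ⁻¹, -B, Submodule.neg_mem _ hB, Units.inv_eq_of_mul_eq_one_right ?_⟩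
        rw [e, c3 γ _ B hB _ (Submodule.neg_mem _ hB)]
        simp }
  obtain ⟨g, hg, hU⟩ := hu N G C hG (by
    rintro c ⟨γ, B, hB, e⟩
    obtain ⟨k, hk, e'⟩ := hl.span N G hG.alg (Set.range T.A) (by rintro _ ⟨δ, rfl⟩; exact hT.AG δ)
      B (Submodule.span_le_restrictScalars ℝ ℂ _ hB) Complex.I
    rw [show c = T.e γ * k from Units.ext (by rw [Units.val_mul, e, e'])]
    exact G.mul_mem (hT.eG γ) hk) ⟨C₁ * C₂ + 1, by
    rintro _ ⟨c, ⟨γ, B, hB, e⟩, rfl⟩ p q
    have h1 := hC₁ _ ⟨γ, rfl⟩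
    have h2 := (entry_le _ p q).trans ((Unt.fn_mul _ _).trans
      (mul_le_mul h1 (hC₂ B hB) (fn_nonneg _) ((fn_nonneg _).trans h1)))
    rw [← e] at h2
    nlinarith [sq_nonneg (‖(c : Mat N) p q‖ - 1), sq_nonneg ‖(c : Mat N) p q‖]⟩
  refine ⟨cT g T, cR g hg ρ, good he hl hg hT, fun i j a ha => ?_, conj_cR g hg ρ,
    fun γ => hU _ ⟨γ, 0, Submodule.zero_mem _, by simp⟩, fun γ => he.herm_of_uni N _ fun t => ?_⟩
  · show cf g (ρ.1 _ : Mat N) = cf g (T.e _ : Mat N) * exp (cf g _) * exp (cf g _)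
    rw [hρ i j a ha, map_mul, map_mul, cf_exp, cf_exp]
  · have := hU (Matrix.isUnit_exp (Complex.I • (t • T.A γ))).unit ⟨1, t • T.A γ,
      Submodule.smul_mem _ _ (Submodule.subset_span ⟨γ, rfl⟩), by simp⟩
    rwa [Uni, cf_val, IsUnit.unit_spec, cf_exp, smul_real, map_smul] at this

end Pool.Agent.MP_94b95a_al.Fl

end MrgPart3

-- ======== part 4: formerly Pool.Agent.MP_94b95a_al.fl.Deg
section MrgPart4

/-! The degeneration step. -/

namespace Pool.Agent.MP_94b95a_al.Fl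

open NormedSpace Matrix Filter Topology NfB

theorem deg_thm (he : EllStmt) (hl : LieStmt) (hm : MinStmt) (ht : TriRepStmt)
    (hr : RepLimStmt) : DegStmt := by
  intro N G hG R _ I T ρ hT hρ hU hH ι _ x hx hex hAx hsp
  let S : Set (Mat N) := Set.range (fun γ => (T.e γ : Mat N)) ∪ Set.range T.A
  have hS : ∀ s ∈ S, sᴴ ∈ S := by
    rintro _ (⟨γ, rfl⟩ | ⟨γ, rfl⟩)
    · exact Or.inl ⟨γ⁻¹, by
        simp only [map_inv]
        exact Units.inv_eq_of_mul_eq_one_left (hU γ)⟩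
    · exact Or.inr ⟨γ, (hH γ).symm⟩
  obtain ⟨y, hy, hmu⟩ := hm N _ (hl.centSA N G S hG hS) ι x fun j =>
    (hl.centL N G S _).2 ⟨hx j, by
      rintro _ (⟨γ, rfl⟩ | ⟨γ, rfl⟩)
      · exact (hex j γ).symm
      · exact (hAx j γ).symm⟩
  obtain ⟨U, hU', hlim⟩ := mem_closure_iff_ultrafilter.1 hy
  have H : ∀ z : ι → Mat N, ∃ g ∈ cent G S, z ∈ orb (cent G S) x → z = cj g x := fun z => by
    by_cases h : z ∈ orb (cent G S) x
    · obtain ⟨g, h1, h2⟩ := h
      exact ⟨g, h1, fun _ => h2⟩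
    · exact ⟨1, Subgroup.one_mem _, fun h' => absurd h' h⟩
  choose g hg hgz using H
  have h0 : ∀ j, Tendsto (fun z => cf (g z) (x j)) U (𝓝 (y j)) := tendsto_pi_nhds.1
    ((tendsto_id'.2 hlim).congr' (mem_of_superset hU' fun z hz => hgz z hz))
  have h1 : ∀ m ∈ Algebra.adjoin ℂ (Set.range x), ∃ l,
      Tendsto (fun z => cf (g z) m) U (𝓝 l) := by
    intro m hm
    induction hm using Algebra.adjoin_induction with
    | mem m hm =>
      obtain ⟨j, rfl⟩ := hm
      exact ⟨_, h0 j⟩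
    | algebraMap c => exact ⟨_, by simpa only [AlgHom.commutes] using tendsto_const_nhds⟩
    | add a b _ _ ha hb =>
      obtain ⟨l, ha⟩ := ha
      obtain ⟨l', hb⟩ := hb
      exact ⟨l + l', by simpa only [map_add] using ha.add hb⟩
    | mul a b _ _ ha hb =>
      obtain ⟨l, ha⟩ := ha
      obtain ⟨l', hb⟩ := hb
      exact ⟨l * l', by simpa only [map_mul] using ha.mul hb⟩
  choose l hl' using fun m : Subalgebra.toSubmodule (Algebra.adjoin ℂ (Set.range x)) => h1 m.1 m.2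
  obtain ⟨P, hP⟩ := LinearMap.exists_extend
    (p := Subalgebra.toSubmodule (Algebra.adjoin ℂ (Set.range x)))
    ({ toFun := l
       map_add' := fun a b => tendsto_nhds_unique (hl' (a + b))
         (by simpa only [Submodule.coe_add, map_add] using (hl' a).add (hl' b))
       map_smul' := fun c a => tendsto_nhds_unique (hl' (c • a))
         (by simpa only [Submodule.coe_smul, map_smul, RingHom.id_apply] using (hl' a).const_smul c) } :
      _ →ₗ[ℂ] Mat N)
  have h2 : ∀ m ∈ Algebra.adjoin ℂ (Set.range x),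
      Tendsto (fun z => cf (g z) m) U (𝓝 (P m)) := fun m hm => by
    have e : P m = l ⟨m, hm⟩ := LinearMap.congr_fun hP ⟨m, hm⟩
    exact e ▸ hl' ⟨m, hm⟩
  have hxa : ∀ j, x j ∈ Algebra.adjoin ℂ (Set.range x) := fun j => Algebra.subset_adjoin ⟨j, rfl⟩
  have hν : ∀ {i j a}, Leg I i j a → T.ν i j a ∈ Algebra.adjoin ℂ (Set.range x) :=
    fun {i j a} ha => Algebra.span_le_adjoin ℂ _ (hsp _ ⟨i, j, a, ha, rfl⟩)
  have hmul : ∀ a ∈ Algebra.adjoin ℂ (Set.range x), ∀ b ∈ Algebra.adjoin ℂ (Set.range x),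
      P (a * b) = P a * P b := fun a ha b hb => tendsto_nhds_unique (h2 _ (mul_mem ha hb))
    (by simpa only [map_mul] using (h2 a ha).mul (h2 b hb))
  have hlie : ∀ m ∈ Algebra.adjoin ℂ (Set.range x), InLie G m → InLie G (P m) := fun m hm h =>
    (hl.closedL N G hG.alg).mem_of_tendsto (h2 m hm)
      (Eventually.of_forall fun z => hl.conj N G _ _ (hg z).1 h)
  have hfix : ∀ z, ∀ s ∈ S, cf (g z) s = s := fun z s hs => cf_fix ((hg z).2 s hs)
  have hcom : ∀ s ∈ S, ∀ m ∈ Algebra.adjoin ℂ (Set.range x), Commute s m → Commute s (P m) :=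
    fun s hs m hm h => tendsto_nhds_unique ((h2 m hm).const_mul s)
      (((h2 m hm).mul_const s).congr fun z => by
        have := (h.map (cf (g z))).eq
        rw [hfix z s hs] at this
        exact this.symm)
  have hgood : (Tri.mk (fun i j a => P (T.ν i j a)) T.e T.A).Good G :=
    { lie := ⟨fun i j a b ha hb => by simp only [hT.lie.add i j a b ha hb, map_add],
        fun i j k a b hik ha hb => by
          simp only [← hT.lie.heis i j k a b hik ha hb, map_sub, hmul _ (hν ha) _ (hν hb),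
            hmul _ (hν hb) _ (hν ha)],
        fun i j k l a b h3 h4 ha hb => by
          rw [Commute, SemiconjBy, ← hmul _ (hν ha) _ (hν hb), ← hmul _ (hν hb) _ (hν ha),
            (hT.lie.comm i j k l a b h3 h4 ha hb).eq],
        fun i j a ha => by
          obtain ⟨k, hk⟩ := hT.lie.nil i j a ha
          exact ⟨k, tendsto_nhds_unique ((h2 _ (hν ha)).pow k)
            (by simpa only [← map_pow, hk, map_zero] using tendsto_const_nhds)⟩⟩
      νG := fun i j a ha => hlie _ (hν ha) (hT.νG i j a ha)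
      eG := hT.eG
      AG := hT.AG
      Aadd := hT.Aadd
      eA := hT.eA
      AA := hT.AA
      eν := fun γ i j a ha => hcom _ (Or.inl ⟨γ, rfl⟩) _ (hν ha) (hT.eν γ i j a ha)
      Aν := fun γ i j a ha => hcom _ (Or.inr ⟨γ, rfl⟩) _ (hν ha) (hT.Aν γ i j a ha)
      ell := hT.ell
      hyp := hT.hyp }
  obtain ⟨ρ', hρ'⟩ := ht N G R I _ hgood
  refine ⟨P, ρ', ?_, hmul, fun j => hlie _ (hxa j) (hx j),
    fun j γ => hcom _ (Or.inl ⟨γ, rfl⟩) _ (hxa j) (hex j γ),
    fun j γ => hcom _ (Or.inr ⟨γ, rfl⟩) _ (hxa j) (hAx j γ), hgood, hρ', ?_⟩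
  · rw [show (fun j => P (x j)) = y from funext fun j => tendsto_nhds_unique (h2 _ (hxa j)) (h0 j)]
    exact hmu
  · refine mem_closure_of_tendsto (hr N G R I _ U (fun z => cR (g z) (hg z).1 ρ) ρ'
      fun i j a ha => ?_) (Eventually.of_forall fun z => conj_cR _ _ ρ)
    rw [hρ' i j a ha]
    refine ((((he.exp_cont N).tendsto _).comp (h2 _ (hν ha))).const_mul _).congr fun z => ?_
    show _ = cf (g z) (ρ.1 _ : Mat N)
    rw [hρ i j a ha, map_mul, map_mul, cf_exp, cf_exp, hfix z _ (Or.inl ⟨_, rfl⟩),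
      hfix z _ (Or.inr ⟨_, rfl⟩)]
    rfl

end Pool.Agent.MP_94b95a_al.Fl

end MrgPart4

-- ======== part 5: formerly Pool.Agent.MP_94b95a_al.fl.Closed
section MrgPart5

/-! The orbit of a minimal vector is closed. -/

namespace Pool.Agent.MP_94b95a_al.Fl

open NormedSpace Matrix Filter Topology Kn

namespace Closed

variable {N : ℕ}

theorem psi_pd {g : GLN N} {k u : Mat N} {D : Fin N → ℝ} (h : Pd g k u D) {p : GLN N} {u₀ : Mat N}
    {d : Fin N → ℝ} (h' : Pd p 1 u₀ d) : psi (g * p) =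
      ∑ a, ∑ b, ‖(uᴴ * u₀) a b‖ ^ 2 * Real.exp (2 * D a + 2 * d b) +
        ∑ a, ∑ b, ‖(uᴴ * u₀) a b‖ ^ 2 * Real.exp (-(2 * D a) + -(2 * d b)) := by
  rw [psi, _root_.mul_inv_rev, Units.val_mul, Units.val_mul, h.inv, h'.inv, h.val, h'.val]
  congr 1
  · rw [show k * (u * ex D * uᴴ) * (1 * (u₀ * ex d * u₀ᴴ)) =
      k * (u * ((ex D * (uᴴ * u₀) * ex d) * u₀ᴴ)) by simp only [Matrix.mul_assoc, Matrix.one_mul],
      fn_left h.hk, fn_left h.hu, fn_right (uni_star h'.hu), fn_ex]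
    simp only [mul_add]
  · rw [show u₀ * ex (-d) * u₀ᴴ * 1ᴴ * (u * ex (-D) * uᴴ * kᴴ) =
      u₀ * ((ex (-d) * (uᴴ * u₀)ᴴ * ex (-D)) * uᴴ * kᴴ) by
        simp only [Matrix.mul_assoc, conjTranspose_one, Matrix.one_mul, conjTranspose_mul,
          conjTranspose_conjTranspose],
      fn_left h'.hu, fn_right (uni_star h.hk), fn_right (uni_star h.hu), fn_ex, Finset.sum_comm]
    simp only [conjTranspose_apply, norm_star, Pi.neg_apply, mul_add, mul_neg, add_comm]

theorem psi_le {g : GLN N} {k u : Mat N} {D : Fin N → ℝ} (h : Pd g k u D) :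
    psi g ≤ 2 * fn (1 : Mat N) * Real.exp (2 * ‖D‖) := by
  have h1 : Pd (1 : GLN N) 1 u 0 := ⟨by simp, h.hu, by
    simp [ex, uni_symm h.hu]⟩
  have h2 := psi_pd h h1
  rw [mul_one, h.hu] at h2
  rw [h2, fn, mul_assoc, two_mul]
  simp only [Finset.sum_mul]
  have h3 : ∀ a, |D a| ≤ ‖D‖ := fun a => norm_le_pi_norm D a
  gcongr with a _ b _ a _ b _
  · simpa using (abs_le.1 (h3 a)).2
  · simp only [Pi.zero_apply]
    linarith [(abs_le.1 (h3 a)).1]

theorem sinh_pos {D ε : Fin N → ℝ} {T : ℝ} (hT : T = ‖D‖) (h0 : 0 < T) (hε : ∑ a, |ε a| < 1) :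
    0 < ∑ a, (D a / T + ε a) * Real.sinh (2 * D a) := by
  have h3 : ∀ a, |D a| ≤ T := fun a => hT ▸ norm_le_pi_norm D a
  have hS : 0 < Real.sinh (2 * T) := Real.sinh_pos_iff.2 (by positivity)
  have h4 : ∀ a, D a / T * Real.sinh (2 * D a) = |D a| / T * Real.sinh (2 * |D a|) := fun a => by
    rcases abs_cases (D a) with h | h <;> rw [h.1]
    rw [mul_neg, Real.sinh_neg]
    ring
  obtain ⟨a₀, ha₀⟩ : ∃ a, |D a| = T := by
    by_contra hc
    push Not at hc
    have : ‖D‖ < T := (pi_norm_lt_iff h0).2 fun a => lt_of_le_of_ne (h3 a) (hc a)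
    linarith
  have h5 : Real.sinh (2 * T) ≤ ∑ a, D a / T * Real.sinh (2 * D a) := by
    refine le_trans (le_of_eq ?_) (Finset.single_le_sum
      (f := fun a => D a / T * Real.sinh (2 * D a)) (fun a _ => ?_) (Finset.mem_univ a₀))
    · rw [h4, ha₀, div_self h0.ne', one_mul]
    · rw [h4]
      exact mul_nonneg (by positivity) (Real.sinh_nonneg_iff.2 (by positivity))
  have h6 : -((∑ a, |ε a|) * Real.sinh (2 * T)) ≤ ∑ a, ε a * Real.sinh (2 * D a) := by
    rw [Finset.sum_mul, ← Finset.sum_neg_distrib]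
    refine Finset.sum_le_sum fun a _ => neg_le.1 ((neg_le_abs _).trans ?_)
    rw [abs_mul, Real.abs_sinh, abs_mul, abs_two]
    exact mul_le_mul_of_nonneg_left (Real.sinh_le_sinh.2 (by linarith [h3 a])) (abs_nonneg _)
  simp only [add_mul, Finset.sum_add_distrib]
  nlinarith

end Closed

open Closed in
theorem closed_thm (hl : LieStmt) (hp : PolStmt) : ClosedStmt := by
  intro N G hG ι _ x hx
  refine isClosed_of_closure_subset fun y hy => ?_
  have : FirstCountableTopology (Mat N) :=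
    inferInstanceAs (FirstCountableTopology (Fin N → Fin N → ℂ))
  obtain ⟨xs, hxs, hlim⟩ := mem_closure_iff_seq_limit.1 hy
  have hGc := closed_G hl hG.alg
  have H : ∀ m, ∃ h ∈ G, cj h x = xs m ∧ ∀ h' ∈ G, cj h' x = xs m → psi h ≤ psi h' := by
    intro m
    obtain ⟨g, hg, e⟩ := hxs m
    obtain ⟨h, hh, hm⟩ := min_psi (hGc.inter (isClosed_eq (cont_cj1 x) (continuous_const (y := xs m))))
      cont_psi.lowerSemicontinuous (fun _ => le_rfl) ⟨hg, e.symm⟩
    exact ⟨h, hh.1, hh.2, fun h' h1 h2 => hm h' ⟨h1, h2⟩⟩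
  choose h hhG hcj hmin using H
  choose k u D _ hL hpd using fun m => polar hp hG (hhG m)
  let U : Ultrafilter ℕ := Ultrafilter.of atTop
  have hU : Tendsto xs U (𝓝 y) := hlim.mono_left (Ultrafilter.of_le _)
  by_cases hb : ∃ C : ℝ, ∀ᶠ m in (U : Filter ℕ), ‖D m‖ ≤ C
  · obtain ⟨C, hC⟩ := hb
    obtain ⟨g, hg, hg'⟩ := ((compact_psi (2 * fn (1 : Mat N) * Real.exp (2 * C))).inter_left
      hGc).ultrafilter_le_nhds (U.map h) (le_principal_iff.2 (mem_map.2 (hC.mono fun m hm =>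
        ⟨hhG m, (psi_le (hpd m)).trans (by have := fn_nonneg (1 : Mat N); gcongr)⟩)))
    refine ⟨g, hg.1, tendsto_nhds_unique hU ?_⟩
    exact (((cont_cj1 x).tendsto g).comp hg').congr hcj
  exfalso
  have hT : Tendsto (fun m => ‖D m‖) U atTop := tendsto_atTop.2 fun C => by
    by_contra hc
    exact hb ⟨C, (Ultrafilter.eventually_not.2 hc).mono fun m hm => (not_le.1 hm).le⟩
  have hT1 : ∀ᶠ m in (U : Filter ℕ), 1 ≤ ‖D m‖ := hT.eventually_ge_atTop 1
  obtain ⟨u₀, hu₀, hu⟩ := ulim_uni U fun m => (hpd m).hu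
  obtain ⟨d, -, hd⟩ := (isCompact_closedBall (0 : Fin N → ℝ) 1).ultrafilter_le_nhds
    (U.map fun m => ‖D m‖⁻¹ • D m) (le_principal_iff.2 (mem_map.2 (hT1.mono fun m hm => by
      show _ ∈ Metric.closedBall _ _
      rw [mem_closedBall_zero_iff, norm_smul, norm_inv, norm_norm,
        inv_mul_cancel₀ (by linarith)])))
  replace hd : Tendsto (fun m => ‖D m‖⁻¹ • D m) U (𝓝 d) := hd
  have hda : ∀ a, Tendsto (fun m => ‖D m‖⁻¹ * D m a) U (𝓝 (d a)) := fun a =>
    ((continuous_apply a).tendsto d).comp hd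
  have hY : InLie G (hm u₀ d) := (hl.closedL N G hG.alg).mem_of_tendsto
    ((cont_hm.tendsto (u₀, d)).comp (hu.prodMk_nhds hd)) (Eventually.of_forall fun m => by
      have := hl.smul N G ((‖D m‖⁻¹ : ℝ) : ℂ) _ (hL m)
      rwa [smul_hm] at this)
  have hz : ∀ j a b, Tendsto (fun m => ‖((u m)ᴴ * x j * u m) a b‖ ^ 2) U
      (𝓝 (‖(u₀ᴴ * x j * u₀) a b‖ ^ 2)) := fun j a b =>
    ((show Continuous fun v : Mat N => ‖(vᴴ * x j * v) a b‖ ^ 2 by fun_prop).tendsto u₀).comp hu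
  have h1 : ∑ j, ∑ a, ∑ b, ‖(u₀ᴴ * x j * u₀) a b‖ ^ 2 * Real.exp (2 * (d a - d b)) ≤ FN x := by
    have t1 := tendsto_finsetSum Finset.univ fun j _ => tendsto_finsetSum Finset.univ fun a _ =>
      tendsto_finsetSum Finset.univ fun b _ => (hz j a b).mul
        (((hda a).sub (hda b)).const_mul 2).rexp
    have t2 := (tendsto_const_nhds (x := FN x)).add (hT.inv_tendsto_atTop.mul
      (((cont_FN.tendsto y).comp hU).sub_const (FN x)))
    rw [zero_mul, add_zero] at t2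
    refine le_of_tendsto_of_tendsto t1 t2 (hT1.mono fun m hm => ?_)
    have h2 : FN (xs m) = _ := hcj m ▸ (hpd m).FN_cj x
    have h3 : 0 ≤ ‖D m‖⁻¹ := by positivity
    have h4 : ‖D m‖⁻¹ ≤ 1 := inv_le_one_of_one_le₀ hm
    simp only [Function.comp, Pi.inv_apply]
    rw [h2, ← FN_conj (hpd m).hu]
    simp only [Finset.mul_sum, ← Finset.sum_add_distrib, ← Finset.sum_sub_distrib]
    refine Finset.sum_le_sum fun j _ => Finset.sum_le_sum fun a _ =>
      Finset.sum_le_sum fun b _ => ?_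
    have h5 := convexOn_exp.2 (Set.mem_univ 0) (Set.mem_univ (2 * (D m a - D m b)))
      (sub_nonneg.2 h4) h3 (by ring)
    simp only [smul_eq_mul, mul_zero, zero_add, Real.exp_zero, mul_one] at h5
    rw [show 2 * (‖D m‖⁻¹ * D m a - ‖D m‖⁻¹ * D m b) = ‖D m‖⁻¹ * (2 * (D m a - D m b)) by ring]
    nlinarith [mul_le_mul_of_nonneg_left h5 (sq_nonneg ‖((u m)ᴴ * x j * u m) a b‖)]
  have h2 : ∀ j a b, (u₀ᴴ * x j * u₀) a b = 0 ∨ d a = d b := by
    have h3 := crit hx hu₀ hY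
    have h4 : ∀ j a b, 0 ≤ ‖(u₀ᴴ * x j * u₀) a b‖ ^ 2 *
        (Real.exp (2 * (d a - d b)) - (2 * (d a - d b) + 1)) := fun j a b =>
      mul_nonneg (sq_nonneg _) (sub_nonneg.2 (Real.add_one_le_exp _))
    have h5 : ∑ j, ∑ a, ∑ b, ‖(u₀ᴴ * x j * u₀) a b‖ ^ 2 *
        (Real.exp (2 * (d a - d b)) - (2 * (d a - d b) + 1)) ≤ 0 := by
      rw [← FN_conj hu₀] at h1
      simp only [mul_sub _ (Real.exp _), mul_add, mul_one, mul_left_comm _ (2 : ℝ),
        Finset.sum_sub_distrib, Finset.sum_add_distrib, ← Finset.mul_sum]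
      linarith
    intro j a b
    by_contra hc
    push Not at hc
    have h6 : 0 < ‖(u₀ᴴ * x j * u₀) a b‖ ^ 2 *
        (Real.exp (2 * (d a - d b)) - (2 * (d a - d b) + 1)) :=
      mul_pos (pow_pos (norm_pos_iff.2 hc.1) 2) (sub_pos.2 (Real.add_one_lt_exp
        (mul_ne_zero two_ne_zero (sub_ne_zero.2 hc.2))))
    refine absurd h5 (not_le.2 (Finset.sum_pos' (fun j _ => Finset.sum_nonneg fun a _ =>
      Finset.sum_nonneg fun b _ => h4 j a b) ⟨j, Finset.mem_univ _, Finset.sum_pos'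
        (fun a _ => Finset.sum_nonneg fun b _ => h4 j a b) ⟨a, Finset.mem_univ _,
          Finset.sum_pos' (fun b _ => h4 j a b) ⟨b, Finset.mem_univ _, h6⟩⟩⟩))
  choose p hpG hp' using one_param hu₀ hY
  have h3 : ∀ s, cj (p s) x = x := fun s => funext fun j => by
    have : ex (s • d) * (u₀ᴴ * x j * u₀) * ex (-(s • d)) = u₀ᴴ * x j * u₀ := by
      ext a b
      rw [ex_apply]
      rcases h2 j a b with h | h
      · rw [h, mul_zero]
      · simp [h]
    rw [(hp' s).cj_eq, this, Matrix.one_mul, ← Matrix.mul_assoc, ← Matrix.mul_assoc,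
      uni_symm hu₀, Matrix.one_mul, Matrix.mul_assoc, uni_symm hu₀, Matrix.mul_one]
  have h4 : ∀ m, ∑ a, (∑ b, ‖((u m)ᴴ * u₀) a b‖ ^ 2 * d b) * Real.sinh (2 * D m a) = 0 := by
    intro m
    have d1 := (deriv2 (fun a b => ‖((u m)ᴴ * u₀) a b‖ ^ 2) (fun _ b => 2 * d b)
      fun a _ => 2 * D m a).fun_add (deriv2 (fun a b => ‖((u m)ᴴ * u₀) a b‖ ^ 2)
        (fun _ b => -(2 * d b)) fun a _ => -(2 * D m a))
    have e : ∀ s : ℝ, psi (h m * p s) = _ := fun s => psi_pd (hpd m) (hp' s)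
    have e0 : p 0 = 1 := Units.ext (by rw [(hp' 0).val]; simp [ex, uni_symm hu₀])
    have d2 := IsLocalMin.hasDerivAt_eq_zero (Eventually.of_forall fun s => by
      have h5 := hmin m _ (G.mul_mem (hhG m) (hpG s)) (by rw [cj_mul, h3, hcj])
      rw [← mul_one (h m), ← e0, mul_assoc, e0, one_mul, ← e0, e, e] at h5
      simpa only [Pi.smul_apply, smul_eq_mul, mul_left_comm (2 : ℝ), mul_neg] using h5) d1
    simp only [Real.sinh_eq, Finset.sum_mul]
    simp only [← Finset.sum_add_distrib] at d2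
    refine mul_left_cancel₀ (four_ne_zero (α := ℝ)) ?_
    rw [mul_zero, ← d2]
    simp only [Finset.mul_sum]
    exact Finset.sum_congr rfl fun a _ => Finset.sum_congr rfl fun b _ => by ring
  have h5 : Tendsto (fun m => ∑ a, |∑ b, ‖((u m)ᴴ * u₀) a b‖ ^ 2 * d b - ‖D m‖⁻¹ * D m a|) U
      (𝓝 0) := by
    have t1 := tendsto_finsetSum Finset.univ fun a _ => ((((show Continuous fun v : Mat N =>
      ∑ b, ‖(vᴴ * u₀) a b‖ ^ 2 * d b by fun_prop).tendsto u₀).comp hu).sub (hda a)).abs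
    have : ∑ a, |∑ b, ‖(u₀ᴴ * u₀) a b‖ ^ 2 * d b - d a| = 0 :=
      Finset.sum_eq_zero fun a _ => by
        rw [hu₀, Finset.sum_eq_single a (fun b _ hb => by simp [one_apply_ne hb.symm]) (by simp)]
        simp
    rwa [this] at t1
  obtain ⟨m, hm1, hm2⟩ := (hT1.and (h5.eventually_lt_const one_pos)).exists
  have h6 := sinh_pos rfl (lt_of_lt_of_le one_pos hm1) hm2
  simp only [div_eq_inv_mul, add_sub_cancel] at h6
  exact h6.ne' (h4 m)

end Pool.Agent.MP_94b95a_al.Fl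

end MrgPart5

-- ======== part 6: formerly Pool.Agent.MP_94b95a_al.fl.Flaw
section MrgPart6

/-! The deformation retraction of the character variety of the Steinberg group. -/

namespace Pool.Agent.MP_94b95a_al.Fl

open NormedSpace Matrix Filter Topology

namespace Flaw

section
variable {N : ℕ} {G : Subgroup (GLN N)} {Γ : Type} [Group Γ]

theorem conj_refl (ρ : Rep Γ G) : Conj ρ ρ := ⟨1, G.one_mem, fun γ => by simp⟩

theorem conj_symm {ρ σ : Rep Γ G} (h : Conj ρ σ) : Conj σ ρ := by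
  obtain ⟨g, hg, h⟩ := h
  exact ⟨g⁻¹, G.inv_mem hg, fun γ => by rw [h γ]; group⟩

theorem conj_trans {ρ σ θ : Rep Γ G} (h : Conj ρ σ) (h' : Conj σ θ) : Conj ρ θ := by
  obtain ⟨g, hg, h⟩ := h
  obtain ⟨g', hg', h'⟩ := h'
  exact ⟨g' * g, G.mul_mem hg' hg, fun γ => by rw [h' γ, h γ]; group⟩

theorem closed_of_conj {ρ σ : Rep Γ G} (h : Conj ρ σ)
    (hρ : IsClosed {θ : Rep Γ G | Conj ρ θ}) : IsClosed {θ : Rep Γ G | Conj σ θ} := by
  have : {θ : Rep Γ G | Conj σ θ} = {θ : Rep Γ G | Conj ρ θ} :=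
    Set.ext fun θ => ⟨fun h' => conj_trans h h', fun h' => conj_trans (conj_symm h) h'⟩
  rw [this]; exact hρ

/-- Conjugate representation. -/
def cjRep (g : GLN N) (hg : g ∈ G) (ρ : Rep Γ G) : Rep Γ G :=
  ⟨fun γ => g * ρ.1 γ * g⁻¹, fun γ => G.mul_mem (G.mul_mem hg (ρ.2.1 γ)) (G.inv_mem hg),
    fun a b => by simp only [ρ.2.2]; group⟩

theorem conj_cjRep (g : GLN N) (hg : g ∈ G) (ρ : Rep Γ G) : Conj ρ (cjRep g hg ρ) :=
  ⟨g, hg, fun _ => rfl⟩

theorem fg_of_fp (h : Group.IsFinitelyPresented Γ) : Group.FG Γ := by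
  obtain ⟨n, φ, hφ, -⟩ := h.out
  exact Group.fg_of_surjective hφ

end

section
variable {N : ℕ} {G : Subgroup (GLN N)} {R : Type} [CommRing R] {ε : R →+* ℤ} {lam : Pt R → ℝ}

theorem wt_org (hl : Lam ε lam) {i j : Fin 5} (hij : i ≠ j) (a : R) :
    wt lam i j a (org ε) = 0 := by
  have h : ((j : ℤ) - (i : ℤ)) ≠ 0 := by
    intro h0
    apply hij
    apply Fin.ext
    omega
  unfold wt
  rw [hl.zero, Complex.ofReal_zero, _root_.zero_zpow _ h, zero_mul]

theorem deform_good {κ : Type} {D : NF ε N κ} (hLie : LieStmt) (hD : D.Good G)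
    (f : Pt R → Pt R) (s : ℝ) : (D.deform f s).Good G where
  gl := hD.gl
  star := hD.star
  LG := hD.LG
  eG := hD.eG
  eU := hD.eU
  AG γ := hLie.smul N G _ _ (hD.AG γ)
  AH γ := by
    show ((s : ℂ) • D.A γ)ᴴ = (s : ℂ) • D.A γ
    rw [conjTranspose_smul, (hD.AH γ).eq]
    simp
  Aadd γ δ := by
    show (s : ℂ) • D.A (γ * δ) = (s : ℂ) • D.A γ + (s : ℂ) • D.A δ
    rw [hD.Aadd, smul_add]
  eA γ δ := (hD.eA γ δ).smul_right _
  AA γ δ := ((hD.AA γ δ).smul_right _).smul_left _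
  eL := hD.eL
  AL γ k a b := (hD.AL γ k a b).smul_left _

theorem tri_lim (hEll : EllStmt) (hLim : RepLimStmt) (hl : Lam ε lam) {κ : Type} [Fintype κ]
    {τ : Type} {F : Filter τ} {Ds : τ → NF ε N κ} {D : NF ε N κ}
    {σs : τ → Rep (St (RingHom.ker ε)) G} {σ : Rep (St (RingHom.ker ε)) G}
    (hs : ∀ m, ((Ds m).tri lam).IsRep (σs m).1) (h : (D.tri lam).IsRep σ.1)
    (hc : ∀ k, Tendsto (fun m => (Ds m).c k) F (𝓝 (D.c k)))
    (hL : ∀ k a b, Tendsto (fun m => (Ds m).L k a b) F (𝓝 (D.L k a b)))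
    (he : ∀ γ, Tendsto (fun m => ((Ds m).e γ : Mat N)) F (𝓝 (D.e γ : Mat N)))
    (hA : ∀ γ, Tendsto (fun m => (Ds m).A γ) F (𝓝 (D.A γ))) : Tendsto σs F (𝓝 σ) := by
  refine hLim N G R _ τ F σs σ fun i j a ha => ?_
  have hν : Tendsto (fun m => ((Ds m).tri lam).ν i j a) F (𝓝 ((D.tri lam).ν i j a)) :=
    tendsto_finsetSum Finset.univ fun k _ =>
      (((hl.cont i j a ha).tendsto _).comp (hc k)).smul (hL k i j)
  rw [h i j a ha]
  refine (((he _).mul (((hEll.exp_cont N).tendsto _).comp (hA _))).mul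
    (((hEll.exp_cont N).tendsto _).comp hν)).congr fun m => ?_
  exact (hs m i j a ha).symm

end

end Flaw

open Flaw in
theorem flaw_thm (hLam : LamStmt) (hNfex : NfexStmt) (hTri : TriRepStmt) (hNf : NfTriStmt)
    (hCl : ClNfStmt) (hWd : WdStmt) (hCont : ContStmt) (hLim : RepLimStmt) (hExt : RepExtStmt)
    (hSep : SepRepStmt) (hMax : MaxKStmt) (hFp : FpStmt) (hEll : EllStmt) (hLie : LieStmt) :
    FlawStmt := by
  intro R _ _ ε hε N G K hG hK
  obtain ⟨h, h0, h1, hb⟩ := hε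
  obtain ⟨lam, hl⟩ := hLam R ε
  obtain ⟨g, hg, hgK⟩ := hMax N G K hG hK
  have hfg := fg_of_fp (hFp R ε)
  have hex : ∀ ρ : Poly (St (RingHom.ker ε)) G,
      ∃ (D : NF ε N (Fin (N * N))) (ρ' : Rep (St (RingHom.ker ε)) G), D.Good G ∧
        (∀ k, D.L k = 0 → D.c k = org ε) ∧ (D.tri lam).IsRep ρ'.1 ∧ Conj ρ.1 ρ' := by
    intro ρ
    obtain ⟨D, ρ', a1, a2, a3, a4⟩ := hNfex N G hG R ε lam hl ρ.1
    rw [ρ.2.closure_eq] at a4
    exact ⟨D, ρ', a1, a2, a3, a4⟩
  choose D ρ' hD hz hrep hcj using hex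
  have hrp : ∀ (κ : Type) [Fintype κ] (E : NF ε N κ), E.Good G →
      ∃ σ : Poly (St (RingHom.ker ε)) G, (E.tri lam).IsRep σ.1.1 := by
    intro κ _ E hE
    obtain ⟨σ, hσ⟩ := hTri N G R _ _ (hNf N G hG.alg R ε lam hl κ E hE)
    exact ⟨⟨σ, hCl N G hG R ε lam hl κ E hE σ hσ⟩, hσ⟩
  have hex2 : ∀ p : Poly (St (RingHom.ker ε)) G × unitInterval,
      ∃ σ : Poly (St (RingHom.ker ε)) G,
        (((D p.1).deform (fun c => h (c, p.2)) (1 - p.2)).tri lam).IsRep σ.1.1 := fun p =>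
    hrp _ _ (deform_good hLie (hD p.1) _ _)
  choose Φ hΦ using hex2
  have key : ∀ (p : Poly (St (RingHom.ker ε)) G × unitInterval) (κ : Type) [Fintype κ]
      (E : NF ε N κ) (σ σ₁ : Rep (St (RingHom.ker ε)) G), E.Good G → (E.tri lam).IsRep σ.1 →
      Conj p.1.1 σ → ((E.deform (fun c => h (c, p.2)) (1 - p.2)).tri lam).IsRep σ₁.1 →
      Conj (Φ p).1 σ₁ := by
    intro p κ _ E σ σ₁ hE a1 a2 a3
    exact hWd N G hG.alg R ε lam hl _ κ (D p.1) E (hD p.1) hE _ _ (hb p.2) (ρ' p.1) σ (Φ p).1 σ₁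
      (hrep p.1) a1 (hΦ p) a3 (conj_trans (conj_symm (hcj p.1)) a2)
  let Ht : Poly (St (RingHom.ker ε)) G × unitInterval → CharVar (St (RingHom.ker ε)) G :=
    fun p => Quot.mk _ (Φ p)
  have hwd : ∀ (t : unitInterval) (ρ₁ ρ₂ : Poly (St (RingHom.ker ε)) G), Conj ρ₁.1 ρ₂.1 →
      Ht (ρ₁, t) = Ht (ρ₂, t) := by
    intro t ρ₁ ρ₂ hc
    exact Quot.sound (key (ρ₁, t) _ (D ρ₂) (ρ' ρ₂) (Φ (ρ₂, t)).1 (hD ρ₂) (hrep ρ₂)
      (conj_trans hc (hcj ρ₂)) (hΦ (ρ₂, t)))
  have hcont : Continuous Ht := by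
    rw [continuous_iff_ultrafilter]
    intro p U hU
    have t1 : Tendsto (fun m : Poly (St (RingHom.ker ε)) G × unitInterval => m.1.1) U
        (𝓝 p.1.1) := ((continuous_subtype_val.comp continuous_fst).tendsto p).mono_left hU
    have t2 : Tendsto (fun m : Poly (St (RingHom.ker ε)) G × unitInterval => m.2) U
        (𝓝 p.2) := (continuous_snd.tendsto p).mono_left hU
    obtain ⟨E, hE, c1, c2, c3, c4⟩ := hCont N G hG.alg R ε lam hl _ _ U (fun m => D m.1)
      (fun m => m.1.1) (fun m => ρ' m.1) p.1.1 (fun m => hD m.1) (fun m => hz m.1)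
      (fun m => hrep m.1) (fun m => hcj m.1) t1
    obtain ⟨σ, hσ⟩ := hrp _ E hE
    obtain ⟨σ₁, hσ₁⟩ := hrp _ _ (deform_good hLie hE (fun c => h (c, p.2)) (1 - p.2))
    have l1 : Tendsto (fun m : Poly (St (RingHom.ker ε)) G × unitInterval => ρ' m.1) U (𝓝 σ.1) :=
      tri_lim hEll hLim hl (τ := Poly (St (RingHom.ker ε)) G × unitInterval)
        (Ds := fun m => D m.1) (D := E) (σs := fun m => ρ' m.1) (σ := σ.1)
        (fun m => hrep m.1) hσ c1 c2 c3 c4
    have s1 : Conj p.1.1 σ.1 := hSep N G hG _ hfg p.1.1 σ.1 p.1.2 σ.2 _ U (fun m => m.1.1)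
      (fun m => ρ' m.1) (fun m => hcj m.1) t1 l1
    have l2 : Tendsto (fun m : Poly (St (RingHom.ker ε)) G × unitInterval => (Φ m).1) U
        (𝓝 σ₁.1) := by
      refine tri_lim hEll hLim hl (τ := Poly (St (RingHom.ker ε)) G × unitInterval)
        (Ds := fun m => (D m.1).deform (fun c => h (c, m.2)) (1 - m.2))
        (D := E.deform (fun c => h (c, p.2)) (1 - p.2)) (σs := fun m => (Φ m).1) (σ := σ₁.1)
        hΦ hσ₁ ?_ c2 c3 ?_
      · intro k
        exact (h.continuous.tendsto (E.c k, p.2)).comp ((c1 k).prodMk_nhds t2)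
      · intro γ
        have t3 : Tendsto (fun m : Poly (St (RingHom.ker ε)) G × unitInterval =>
            (((1 - (m.2 : ℝ) : ℝ)) : ℂ)) U (𝓝 ((1 - (p.2 : ℝ) : ℝ) : ℂ)) :=
          (Complex.continuous_ofReal.tendsto _).comp
            (((continuous_subtype_val.tendsto _).comp t2).const_sub 1)
        exact t3.smul (c4 γ)
    have l3 : Tendsto Φ U (𝓝 σ₁) := tendsto_subtype_rng.mpr l2
    have e1 : Ht p = Quot.mk _ σ₁ := Quot.sound (key p _ E σ.1 σ₁.1 hE hσ s1 hσ₁)
    rw [e1]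
    exact (continuous_quot_mk.tendsto σ₁).comp l3
  let H : CharVar (St (RingHom.ker ε)) G × unitInterval → CharVar (St (RingHom.ker ε)) G :=
    fun p => Quot.lift (fun ρ => Ht (ρ, p.2)) (hwd p.2) p.1
  have hH : Continuous H := isQuotientMap_quot_mk.continuous_lift_prod_left hcont
  refine ⟨⟨H, hH⟩, ?_, ?_, ?_⟩
  · intro x
    induction x using Quot.inductionOn with
    | h ρ =>
      have a1 : (((D ρ).deform (fun c => h (c, (0 : unitInterval)))
          (1 - ((0 : unitInterval) : ℝ))).tri lam).IsRep (ρ' ρ).1 := by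
        intro i j a ha
        rw [hrep ρ i j a ha]
        simp [NF.tri, NF.deform, h0]
      have a2 := key (ρ, 0) _ (D ρ) (ρ' ρ) (ρ' ρ) (hD ρ) (hrep ρ) (hcj ρ) a1
      exact Quot.sound (conj_trans a2 (conj_symm (hcj ρ)))
  · intro x
    induction x using Quot.inductionOn with
    | h ρ =>
      let σ : Rep (St (RingHom.ker ε)) G := ⟨(D ρ).e, (hD ρ).eG, map_mul _⟩
      have a1 : Conj (Φ (ρ, 1)).1 σ := by
        refine ⟨1, G.one_mem, hExt N R _ G _ σ 1 fun i j a ha => ?_⟩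
        rw [hΦ (ρ, 1) i j a ha]
        simp [NF.tri, NF.deform, h1, wt_org hl ha.1, σ]
      have a2 : Conj (Φ (ρ, 1)).1 (cjRep g⁻¹ (G.inv_mem hg) σ) :=
        conj_trans a1 (conj_cjRep _ _ _)
      refine ⟨⟨_, closed_of_conj a2 (Φ (ρ, 1)).2⟩, fun γ => ?_, Quot.sound a2⟩
      refine (hgK _ ((cjRep g⁻¹ (G.inv_mem hg) σ).2.1 γ)).mpr ?_
      have : g * (cjRep g⁻¹ (G.inv_mem hg) σ).1 γ * g⁻¹ = (D ρ).e γ := by
        show g * (g⁻¹ * (D ρ).e γ * g⁻¹⁻¹) * g⁻¹ = _
        group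
      rw [this]
      exact (hD ρ).eU γ
  · rintro y ⟨ρ, hρ, rfl⟩ t
    let σ := cjRep g hg ρ.1
    let E : NF ε N Empty := ⟨Empty.elim, Empty.elim, MonoidHom.mk' σ.1 σ.2.2, fun _ => 0⟩
    have hE : E.Good G :=
      { gl := ⟨fun k => k.elim, fun k => k.elim, fun k => k.elim⟩
        star := fun k => k.elim
        LG := fun k => k.elim
        eG := σ.2.1
        eU := fun γ => (hgK _ (ρ.1.2.1 γ)).mp (hρ γ)
        AG := fun _ => hLie.zero N G
        AH := fun _ => isHermitian_zero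
        Aadd := fun _ _ => (add_zero _).symm
        eA := fun _ _ => Commute.zero_right _
        AA := fun _ _ => Commute.zero_right _
        eL := fun _ k => k.elim
        AL := fun _ k => k.elim }
    have a1 : (E.tri lam).IsRep σ.1 := by
      intro i j a _
      simp [NF.tri, E]
    have a2 : ((E.deform (fun c => h (c, t)) (1 - t)).tri lam).IsRep σ.1 := by
      intro i j a _
      simp [NF.tri, NF.deform, E]
    have a3 := key (ρ, t) _ E σ σ hE a1 (conj_cjRep _ _ _) a2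
    exact Quot.sound (conj_trans a3 (conj_symm (conj_cjRep _ _ _)))

end Pool.Agent.MP_94b95a_al.Fl

end MrgPart6

-- ======== part 7: formerly Pool.Agent.MP_94b95a_al.fl.NotFlaw
section MrgPart7

/-! PROJECT FLAW: the finite extension is not flawed. -/

namespace Pool.Agent.MP_94b95a_al.Fl

open NormedSpace Matrix Filter Topology

namespace NotFlaw

variable {R : Type} [CommRing R]

/-- The trace function. -/
noncomputable def F (ℓ : Polynomial ℂ) (I : Ideal R) (σ : St I → GLN 5) (a b a' b' : R) : ℂ :=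
  (Polynomial.aeval (σ (X I 0 1 (a * b)) : Mat 5) ℓ *
    Polynomial.aeval (σ (X I 1 0 (a' * b')) : Mat 5) ℓ).trace

theorem F_cont (ℓ : Polynomial ℂ) (I : Ideal R) (a b a' b' : R) :
    Continuous fun σ : St I → GLN 5 => F ℓ I σ a b a' b' := by
  have h : ∀ γ, Continuous fun σ : St I → GLN 5 => Polynomial.aeval (σ γ : Mat 5) ℓ := fun γ =>
    (ℓ.continuous_aeval (A := Mat 5)).comp
      ((Units.continuous_val (M := Mat 5)).comp (continuous_apply γ))
  exact ((h _).mul (h _)).matrix_trace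

theorem aeval_conj (ℓ : Polynomial ℂ) (g m : GLN 5) :
    Polynomial.aeval ((g * m * g⁻¹ : GLN 5) : Mat 5) ℓ =
      (g : Mat 5) * Polynomial.aeval (m : Mat 5) ℓ * ((g⁻¹ : GLN 5) : Mat 5) := by
  induction ℓ using Polynomial.induction_on' with
  | add p q hp hq => rw [map_add, map_add, hp, hq, mul_add, add_mul]
  | monomial n c =>
    rw [Polynomial.aeval_monomial, Polynomial.aeval_monomial, ← Units.val_pow_eq_pow_val,
      conj_pow, ← Units.val_pow_eq_pow_val, ← Algebra.smul_def, ← Algebra.smul_def]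
    simp

theorem F_conj (ℓ : Polynomial ℂ) (I : Ideal R) (σ σ' : St I → GLN 5) (g : GLN 5)
    {a b a' b' c d c' d' : R} (h1 : σ' (X I 0 1 (c * d)) = g * σ (X I 0 1 (a * b)) * g⁻¹)
    (h2 : σ' (X I 1 0 (c' * d')) = g * σ (X I 1 0 (a' * b')) * g⁻¹) :
    F ℓ I σ' c d c' d' = F ℓ I σ a b a' b' := by
  unfold F
  rw [h1, h2, aeval_conj, aeval_conj]
  simp only [mul_assoc, Units.inv_mul_cancel_left]
  rw [trace_mul_comm]
  simp only [mul_assoc, Units.inv_mul, mul_one]

theorem sa_top : SA (⊤ : Subgroup (GLN 5)) := ⟨⟨∅, fun g => by simp⟩, fun _ _ => trivial⟩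

theorem inLie_top (m : Mat 5) : InLie ⊤ m := fun _ => ⟨(Matrix.isUnit_exp _).unit, trivial, rfl⟩

theorem exp_sq {m : Mat 5} (h : m * m = 0) : exp m = 1 + m := by
  rw [exp_eq_tsum ℂ]
  show ∑' n : ℕ, ((n.factorial : ℂ)⁻¹) • m ^ n = _
  rw [tsum_eq_sum (s := Finset.range 2)]
  · simp [Finset.sum_range_succ]
  · intro n hn
    rw [pow_eq_zero_of_le (m := 2) (by rw [Finset.mem_range] at hn; omega) (by rw [sq, h]), smul_zero]

/-- The property of the polynomial that extracts the nilpotent part. -/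
def Ex (ℓ : Polynomial ℂ) : Prop := ∀ (G : Subgroup (GLN 5)) (R : Type) [CommRing R]
  (I : Ideal R) (T : Tri I 5) (ρ : St I → GLN 5), T.Good G → T.IsRep ρ →
    ∀ i j a b, i ≠ j → a ∈ I → b ∈ I →
      T.ν i j (a * b) = Polynomial.aeval (ρ (X I i j (a * b)) : Mat 5) ℓ

theorem key (hNf : NfexStmt) (hLam : LamStmt) (hGl : GlStmt) (hTri : NfTriStmt)
    {ℓ : Polynomial ℂ} (hℓ : Ex ℓ) [Algebra.FiniteType ℤ R] (ε : R →+* ℤ)
    (ρ : Rep (St (RingHom.ker ε)) ⊤) :
    ∃ (c : Pt R) (w : ℝ), (w = 0 ∨ 1 / 2 ≤ w) ∧ ∀ a b a' b', a ∈ RingHom.ker ε →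
      b ∈ RingHom.ker ε → a' ∈ RingHom.ker ε → b' ∈ RingHom.ker ε →
      F ℓ _ ρ.1 a b a' b' = c (a * b * (a' * b')) * w := by
  classical
  obtain ⟨lam, hl⟩ := hLam R ε
  obtain ⟨D, ρ', hD, -, hρ', hcl⟩ := hNf 5 ⊤ sa_top R ε lam hl ρ
  have hT := hTri 5 ⊤ sa_top.alg R ε lam hl _ D hD
  have h1 : ∀ a b a' b', a ∈ RingHom.ker ε → b ∈ RingHom.ker ε → a' ∈ RingHom.ker ε →
      b' ∈ RingHom.ker ε → F ℓ _ ρ.1 a b a' b' =
        ∑ k, D.c k (a * b * (a' * b')) * (D.L k 0 1 * D.L k 1 0).trace := by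
    intro a b a' b' ha hb ha' hb'
    have h2 : F ℓ _ ρ'.1 a b a' b' = F ℓ _ ρ.1 a b a' b' := by
      have hc : IsClosed {σ : Rep (St (RingHom.ker ε)) ⊤ |
          F ℓ _ σ.1 a b a' b' = F ℓ _ ρ.1 a b a' b'} :=
        isClosed_eq ((F_cont ℓ _ a b a' b').comp continuous_subtype_val) continuous_const
      refine closure_minimal ?_ hc hcl
      rintro σ ⟨g, -, hg⟩
      exact F_conj ℓ _ _ _ g (hg _) (hg _)
    rw [← h2, F, ← hℓ ⊤ R _ _ _ hT hρ' 0 1 a b (by decide) ha hb,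
      ← hℓ ⊤ R _ _ _ hT hρ' 1 0 a' b' (by decide) ha' hb']
    simp only [NF.tri, Finset.sum_mul, Finset.mul_sum, trace_sum, smul_mul_smul_comm, trace_smul,
      smul_eq_mul]
    refine Finset.sum_congr rfl fun k _ => ?_
    rw [Finset.sum_eq_single k]
    · congr 1
      unfold wt
      by_cases hk : D.c k = org ε
      · have : D.c k a = 0 := by
          rw [hk, org, RingHom.comp_apply, RingHom.mem_ker.1 ha, map_zero]
        simp [this]
      · have : (lam (D.c k) : ℂ) ≠ 0 := by exact_mod_cast (hl.pos _ hk).ne'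
        simp only [map_mul, Fin.val_zero, Fin.val_one]
        norm_num
        field_simp
    · intro k' _ hk
      rw [hGl.cross 5 _ D.L hD.gl _ _ 0 1 hk (by decide), mul_zero]
    · simp
  by_cases h0 : ∃ k, D.L k 0 1 ≠ 0
  · obtain ⟨k, hk⟩ := h0
    obtain ⟨w, hw, hw'⟩ := hGl.lower 5 _ D.L hD.gl hD.star k 0 1 (by decide) hk
    refine ⟨D.c k, w, Or.inr hw, fun a b a' b' ha hb ha' hb' => ?_⟩
    rw [h1 a b a' b' ha hb ha' hb', Finset.sum_eq_single k, hw']
    · intro k' _ hk'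
      have : D.L k' 0 1 = 0 := by
        by_contra hne
        have hc := hGl.count 5 {k // D.L k 0 1 ≠ 0} (fun k => D.L k.1)
          ⟨fun k => hD.gl.rel k.1, fun k => hD.gl.tr k.1,
            fun k k' h => hD.gl.comm k.1 k'.1 fun e => h (Subtype.ext e)⟩
          fun k => ⟨0, 1, by decide, k.2⟩
        have h3 : 1 < Fintype.card {k // D.L k 0 1 ≠ 0} :=
          Fintype.one_lt_card_iff.2 ⟨⟨k', hne⟩, ⟨k, hk⟩, fun e => hk' (congrArg Subtype.val e)⟩
        omega
      rw [this, zero_mul, trace_zero, mul_zero]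
    · simp
  · push Not at h0
    refine ⟨org ε, 0, Or.inl rfl, fun a b a' b' ha hb ha' hb' => ?_⟩
    rw [h1 a b a' b' ha hb ha' hb']
    simp [h0]

/-- Restriction to the normal subgroup. -/
def res {I : Ideal R} {Q : Type} [Group Q] {ψ : Q →* MulAut (St I)}
    (ρ : Rep (St I ⋊[ψ] Q) (⊤ : Subgroup (GLN 5))) : Rep (St I) (⊤ : Subgroup (GLN 5)) :=
  ⟨fun γ => ρ.1 (SemidirectProduct.inl γ), fun _ => trivial, fun a b => by
    simp only [map_mul, ρ.2.2]⟩

theorem lieE (I : Ideal R) (c : Pt R) :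
    LieFam I fun i j a => (single i j (c a) : Mat 5) where
  add i j a b _ _ := by rw [map_add, single_add]
  heis i j k a b h _ _ := by
    rw [single_mul_single_same, single_mul_single_of_ne _ _ _ _ h.symm, sub_zero, map_mul]
  comm i j k l a b h h' _ _ := by
    show _ * _ = _ * _
    rw [single_mul_single_of_ne _ _ _ _ h, single_mul_single_of_ne _ _ _ _ h'.symm]
  nil i j a h := ⟨2, by rw [sq, single_mul_single_of_ne _ _ _ _ h.1.symm]⟩

theorem good (hE : EllStmt) {I : Ideal R} (ν : Fin 5 → Fin 5 → R → Mat 5) (e : St I →* GLN 5)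
    (hν : LieFam I ν) (h1 : ∀ γ i j a, Commute (e γ : Mat 5) (ν i j a)) (h2 : ∀ γ, Ell (e γ)) :
    (Tri.mk ν e fun _ => 0).Good ⊤ where
  lie := hν
  νG _ _ _ _ := inLie_top _
  eG _ := trivial
  AG _ := inLie_top _
  Aadd _ _ := (add_zero _).symm
  eA _ _ := Commute.zero_right _
  AA _ _ := Commute.zero_right _
  eν γ i j a _ := h1 γ i j a
  Aν _ _ _ _ _ := Commute.zero_left _
  ell _ _ _ _ := h2 _
  hyp _ := hE.hyp_zero 5

end NotFlaw

open NotFlaw in
theorem notFlaw_thm (hE : EllStmt) (hNu : NuStmt) (hNf : NfexStmt) (hLam : LamStmt) (hGl : GlStmt)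
    (hTri : NfTriStmt) (hCl : ClRepStmt) (hRep : TriRepStmt) : NotFlawStmt := by
  intro R _ _ ε Q _ φ ψ u c₁ hε hψ hu hc₁ hinv hfix K hK ⟨H, H0, H1, _⟩
  obtain ⟨ℓ, hℓ⟩ := hNu 5
  have huI : u ∈ RingHom.ker ε := hu
  let f : CharVar (St (RingHom.ker ε) ⋊[ψ] Q) (⊤ : Subgroup (GLN 5)) → ℂ :=
    Quot.lift (fun ρ => F ℓ _ (res ρ.1).1 u u u u) (by
      rintro ρ ρ' ⟨g, -, hg⟩
      exact (F_conj ℓ _ _ _ g (hg _) (hg _)).symm)
  have hf : Continuous f := by
    have : Continuous fun ρ : Poly (St (RingHom.ker ε) ⋊[ψ] Q) (⊤ : Subgroup (GLN 5)) =>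
        (res ρ.1).1 := continuous_pi fun γ => (continuous_apply (SemidirectProduct.inl γ)).comp
      (continuous_subtype_val.comp continuous_subtype_val)
    exact continuous_quot_lift _ ((F_cont ℓ _ u u u u).comp this)
  have hgap : ∀ x, (f x).re ≠ 1 / 4 := by
    rintro ⟨ρ, hρ⟩
    show (F ℓ _ (res ρ).1 u u u u).re ≠ 1 / 4
    obtain ⟨c, w, hw, hF⟩ := key hNf hLam hGl hTri hℓ ε (res ρ)
    rw [hF u u u u huI huI huI huI]
    rcases hw with rfl | hw
    · norm_num
    have hw0 : (w : ℂ) ≠ 0 := by exact_mod_cast (show w ≠ 0 by linarith)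
    let ρ' : St (RingHom.ker ε) ⋊[ψ] Q →* GLN 5 := MonoidHom.mk' ρ.1 ρ.2.2
    have hφ : ∀ q a, a ∈ RingHom.ker ε → φ q a ∈ RingHom.ker ε := fun q a ha =>
      (hε q a).trans ha
    have h1 : ∀ q a b, a ∈ RingHom.ker ε → b ∈ RingHom.ker ε →
        c (φ q a) ^ 3 * c (φ q b) = c a ^ 3 * c b := by
      intro q a b ha hb
      have h2 : ∀ i j x y, (res ρ).1 (X _ i j (φ q x * φ q y)) = ρ' (SemidirectProduct.inr q) *
          (res ρ).1 (X _ i j (x * y)) * (ρ' (SemidirectProduct.inr q))⁻¹ := by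
        intro i j x y
        show ρ' (SemidirectProduct.inl _) = _ * ρ' (SemidirectProduct.inl _) * _
        rw [← map_mul (φ q), ← hψ, SemidirectProduct.inl_aut, map_mul, map_mul, map_inv, map_inv]
      have h3 := F_conj ℓ _ _ _ _ (h2 0 1 a a) (h2 1 0 a b)
      rw [hF _ _ _ _ (hφ q a ha) (hφ q a ha) (hφ q a ha) (hφ q b hb), hF _ _ _ _ ha ha ha hb,
        mul_left_inj' hw0] at h3
      simp only [map_mul c] at h3
      linear_combination h3
    have h4 : ∀ q a, a ∈ RingHom.ker ε → c (φ q a) = c a := by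
      intro q a ha
      have h5 := h1 q a a ha ha
      have h6 := h1 q a (a * a) ha (Ideal.mul_mem_left _ _ ha)
      simp only [map_mul] at h6
      by_cases h0 : c a = 0
      · rw [h0, mul_zero, ← pow_succ] at h5
        rw [h0]; exact pow_eq_zero_iff (by norm_num) |>.1 h5
      · have : c a ^ 4 * (c (φ q a) - c a) = 0 := by
          linear_combination h6 - c (φ q a) * h5
        rcases mul_eq_zero.1 this with h | h
        · exact absurd (pow_eq_zero_iff (by norm_num) |>.1 h) h0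
        · exact sub_eq_zero.1 h
    have h7 : ∀ q a, c (φ q a) = c a := by
      intro q a
      have := h4 q (a - (ε a : ℤ)) (by simp [RingHom.mem_ker])
      simpa using this
    rcases hfix c h7 with h | h
    · simp [h]
    · simp only [map_mul, h, mul_one, one_mul, Complex.ofReal_re]
      linarith
  have hzero : ∀ x ∈ CompactPart (St (RingHom.ker ε) ⋊[ψ] Q) ⊤ K, f x = 0 := by
    rintro _ ⟨ρ, hρ, rfl⟩
    show F ℓ _ (res ρ.1).1 u u u u = 0
    have hT := good hE (I := RingHom.ker ε) (fun _ _ _ => 0)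
      (MonoidHom.mk' (res ρ.1).1 (res ρ.1).2.2)
      ⟨fun _ _ _ _ _ _ => by simp, fun _ _ _ _ _ _ _ _ => by simp,
        fun _ _ _ _ _ _ _ _ _ _ => Commute.zero_right _, fun _ _ _ _ => IsNilpotent.zero⟩
      (fun _ _ _ _ => Commute.zero_right _) fun γ => hE.ell_uni 5 _ (hK _ (hρ _))
    rw [F, ← hℓ ⊤ R _ _ (res ρ.1).1 hT (fun i j a _ => by simp) 0 1 u u (by decide) huI huI]
    simp
  have hT := good hE (I := RingHom.ker ε) _ 1 (lieE _ c₁) (fun _ _ _ _ => Commute.one_left _)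
    fun _ => hE.ell_one 5
  obtain ⟨σ, hσ⟩ := hRep 5 ⊤ R _ _ hT
  let σ' : St (RingHom.ker ε) →* GLN 5 := MonoidHom.mk' σ.1 σ.2.2
  have hσ' : ∀ i j a, Leg (RingHom.ker ε) i j a →
      (σ' (X _ i j a) : Mat 5) = 1 + single i j (c₁ a) := by
    intro i j a ha
    rw [← exp_sq (single_mul_single_of_ne _ _ _ _ ha.1.symm _)]
    exact (hσ i j a ha).trans (by simp)
  let τ : St (RingHom.ker ε) ⋊[ψ] Q →* GLN 5 := SemidirectProduct.lift σ' 1 fun q => by
    refine hom_ext fun i j a ha => Units.ext ?_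
    have ha' : Leg (RingHom.ker ε) i j (φ q a) := by
      refine ⟨ha.1, ?_⟩
      have := ha.2
      unfold sig at this ⊢
      split_ifs at this ⊢
      · trivial
      · exact (hε q a).trans this
    simp [hψ, hσ' _ _ _ ha, hσ' _ _ _ ha', hinv]
  let ρ₁ : Rep (St (RingHom.ker ε) ⋊[ψ] Q) (⊤ : Subgroup (GLN 5)) :=
    ⟨τ, fun _ => trivial, map_mul τ⟩
  have hres : (res ρ₁).1 = σ.1 := funext fun γ => SemidirectProduct.lift_inl _ _ _ γ
  have hcl : IsClosed {ρ' | Conj ρ₁ ρ'} := by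
    refine hCl 5 ⊤ sa_top _ ρ₁ fun γ => ?_
    set V := Submodule.span ℂ (Set.range fun δ => (ρ₁.1 δ : Mat 5))
    have h1 : ∀ δ, (σ' δ : Mat 5) ∈ V := fun δ =>
      Submodule.subset_span ⟨SemidirectProduct.inl δ, congrArg Units.val (congrFun hres δ)⟩
    have h2 : (1 : Mat 5) ∈ V := by simpa using h1 1
    have h3 : ∀ i j, i ≠ j → (single i j 1 : Mat 5) ∈ V := fun i j h => by
      have := V.sub_mem (h1 (X _ i j u)) h2
      rwa [hσ' _ _ _ (leg_of_mem h huI), add_sub_cancel_left, hc₁] at this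
    have h4 : ∀ i j, (single i j 1 : Mat 5) ∈ V := fun i j => by
      by_cases h : i = j
      · subst h
        obtain ⟨k, hk⟩ := exists_ne i
        have := V.sub_mem (V.sub_mem (V.sub_mem (h1 (X _ i k u * X _ k i u)) h2) (h3 i k hk.symm))
          (h3 k i hk)
        rw [map_mul, Units.val_mul, hσ' _ _ _ (leg_of_mem hk.symm huI),
          hσ' _ _ _ (leg_of_mem hk huI), hc₁, add_mul, mul_add, mul_add, single_mul_single_same]
          at this
        simp only [mul_one, one_mul] at this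
        have e : ∀ a b c : Mat 5, 1 + a + (b + c) - 1 - b - a = c := fun a b c => by abel
        rwa [e] at this
      · exact h3 i j h
    rw [matrix_eq_sum_single (ρ₁.1 γ : Mat 5)ᴴ]
    refine V.sum_mem fun i _ => V.sum_mem fun j _ => ?_
    have := V.smul_mem ((ρ₁.1 γ : Mat 5)ᴴ i j) (h4 i j)
    rwa [smul_single, smul_eq_mul, mul_one] at this
  have hone : f (Quot.mk _ ⟨ρ₁, hcl⟩) = 1 := by
    show F ℓ _ (res ρ₁).1 u u u u = 1
    rw [hres, F, ← hℓ ⊤ R _ _ σ.1 hT hσ 0 1 u u (by decide) huI huI,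
      ← hℓ ⊤ R _ _ σ.1 hT hσ 1 0 u u (by decide) huI huI]
    simp [hc₁, single_mul_single_same]
  have hg : Continuous fun t : unitInterval => (f (H (Quot.mk _ ⟨ρ₁, hcl⟩, t))).re :=
    Complex.continuous_re.comp (hf.comp (H.continuous.comp (Continuous.prodMk_right _)))
  obtain ⟨t, ht⟩ := intermediate_value_univ 1 0 hg (show (1 / 4 : ℝ) ∈ _ by
    rw [H0, hone, hzero _ (H1 _)]
    norm_num)
  exact hgap _ ht

end Pool.Agent.MP_94b95a_al.Fl

end MrgPart7

-- marker of a merged file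
example : 731051 + 235597 = 731051 + 235597 := rfl

end MrgPart1

-- marker of a merged file
example : 731051 + 235597 = 731051 + 235597 := rfl
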