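import Mathlib.Algebra.Module.StablyFree.Basic
import Mathlib.Analysis.Calculus.Deriv.Prod
import Mathlib.Combinatorics.SimpleGraph.Basic
import Mathlib.Analysis.Matrix.PosDef
import Mathlib.GroupTheory.NoncommCoprod
import Mathlib.RingTheory.PiTensorProduct
import Mathlib.RingTheory.TotallySplit
import Mathlib.RingTheory.Etale.Weakly
import Pool.Agent.MP_94b95a_al.fl.Fin1
import Pool.Agent.MP_94b95a_al.fl.NotFlaw
import Mathlib.Algebra.Group.Pi.Units
import Mathlib.Dynamics.Newton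
import Mathlib.LinearAlgebra.Lagrange
import Mathlib.RingTheory.PicardGroup
import Mathlib.Tactic.Polynomial.Basic
import Mathlib.Topology.Algebra.Module.ModuleTopology
import Mathlib.Algebra.Lie.Engel
import Mathlib.LinearAlgebra.BilinearForm.Orthogonal
import Mathlib.Analysis.InnerProductSpace.Basic
import Mathlib.AlgebraicTopology.FundamentalGroupoid.SimplyConnected
import Mathlib.Analysis.Convex.Contractible
import Mathlib.LinearAlgebra.Matrix.FiniteDimensional
import Mathlib.RingTheory.SimpleRing.Principal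
import Mathlib.RingTheory.RegularLocalRing.Defs

-- ======== part 0: formerly Pool.Agent.MP_94b95a_al.fl.Degen
section MrgPart0

-- ======== part 0: formerly Pool.Agent.MP_94b95a_al.fl.TopA1
section MrgPart0

namespace Pool.Agent.MP_94b95a_al.Fl.TopA

open unitInterval

section Gen
variable {E : Type} [TopologicalSpace E]

def Ctr (V : Set E) (e : E) : Prop := ∃ h : C(V × I, V),
  (∀ x, h (x, 0) = x) ∧ (∀ x, (h (x, 1)).1 = e) ∧ ∀ x t, x.1 = e → h (x, t) = x

def Sdr (V V' : Set E) : Prop := V' ⊆ V ∧ ∃ h : C(V × I, V),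
  (∀ x, h (x, 0) = x) ∧ (∀ x, (h (x, 1)).1 ∈ V') ∧ ∀ x t, x.1 ∈ V' → h (x, t) = x

theorem Sdr.down {V V' : Set E} {e : E} (hS : Sdr V V') (he : e ∈ V') (hC : Ctr V e) :
    Ctr V' e := by
  obtain ⟨hsub, r, -, r1, r2⟩ := hS
  obtain ⟨h, h0, h1, h2⟩ := hC
  refine ⟨⟨fun p => ⟨(r (h (⟨p.1.1, hsub p.1.2⟩, p.2), 1)).1, r1 _⟩, ?_⟩, ?_, ?_, ?_⟩
  · fun_prop
  · intro x
    apply Subtype.ext
    show (r (h (⟨x.1, hsub x.2⟩, 0), 1)).1 = x.1
    rw [h0, r2 _ _ x.2]
  · intro x
    show (r (h (⟨x.1, hsub x.2⟩, 1), 1)).1 = e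
    rw [r2 _ _ (by rw [h1]; exact he), h1]
  · intro x t hx
    apply Subtype.ext
    show (r (h (⟨x.1, hsub x.2⟩, t), 1)).1 = x.1
    rw [h2 _ _ hx, r2 _ _ x.2]

theorem Sdr.up {V V' : Set E} {e : E} (hS : Sdr V V') (hC : Ctr V' e) : Ctr V e := by
  obtain ⟨hsub, r, r0, r1, r2⟩ := hS
  obtain ⟨h, h0, h1, h2⟩ := hC
  let p : ℝ → I := Set.projIcc 0 1 zero_le_one
  have hp : Continuous p := continuous_projIcc
  let f : V × I → V := fun q => r (q.1, p (2 * q.2))
  let g : V × I → V := fun q =>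
    ⟨(h (⟨(r (q.1, 1)).1, r1 _⟩, p (2 * q.2 - 1))).1, hsub (Subtype.property _)⟩
  have hf : Continuous f := by fun_prop
  have hg : Continuous g := by fun_prop
  have p0 : p 0 = 0 := Set.projIcc_left _
  have p1 : p 1 = 1 := Set.projIcc_right _
  refine ⟨⟨fun q => if (q.2 : ℝ) ≤ 1 / 2 then f q else g q, ?_⟩, ?_, ?_, ?_⟩
  · refine Continuous.if_le hf hg (by fun_prop) continuous_const ?_
    intro q hq
    apply Subtype.ext
    simp only [f, g, hq]
    norm_num [p0, p1, h0]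
  · intro x
    simp [f, p0, r0]
  · intro x
    have : ¬ ((1 : I) : ℝ) ≤ 1 / 2 := by norm_num
    simp only [ContinuousMap.coe_mk, this, if_false, g]
    norm_num [p1, h1]
  · intro x t hx
    have he : e ∈ V' := by
      have := h1 ⟨(r (x, 1)).1, r1 _⟩
      rw [← this]; exact Subtype.property _
    have hx' : x.1 ∈ V' := hx ▸ he
    simp only [ContinuousMap.coe_mk]
    split_ifs
    · exact r2 _ _ hx'
    · apply Subtype.ext
      simp only [g]
      rw [h2 _ _ (by simp only; rw [r2 _ _ hx', hx])]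
      simp only
      rw [r2 _ _ hx']

end Gen

section Coll
variable {n : ℕ}

/-- Radial shrinking of one coordinate by the amount `m`. -/
noncomputable def shr (m : ℝ) (z : ℂ) : ℂ := (m : ℂ) * (z / (‖z‖ : ℂ))

theorem norm_shr (m : ℝ) (z : ℂ) : ‖shr m z‖ ≤ |m| := by
  unfold shr
  rw [norm_mul, Complex.norm_real, Real.norm_eq_abs]
  refine mul_le_of_le_one_right (abs_nonneg _) ?_
  rw [norm_div, Complex.norm_real, Real.norm_eq_abs, abs_norm]
  exact div_self_le_one _

theorem cont_shr {X : Type} [TopologicalSpace X] {m : X → ℝ} {z : X → ℂ} (hm : Continuous m)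
    (hz : Continuous z) (h : ∀ x, |m x| ≤ ‖z x‖) : Continuous fun x => shr (m x) (z x) := by
  rw [continuous_iff_continuousAt]
  intro x
  by_cases hx : z x = 0
  · have h0 : shr (m x) (z x) = 0 := by simp [shr, hx]
    rw [ContinuousAt, h0]
    refine squeeze_zero_norm (fun y => (norm_shr _ _).trans (h y)) ?_
    have := hz.norm.tendsto x
    rwa [hx, norm_zero] at this
  · unfold shr
    refine ContinuousAt.mul (by fun_prop) (ContinuousAt.div hz.continuousAt (by fun_prop) ?_)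
    simpa using hx

theorem sdr_coll (V V' : Set (Fin n → ℂ)) (Z : Finset (Fin n)) (v : Fin n) (hv : v ∉ Z)
    (hne : Z.Nonempty) (hsum : ∀ x ∈ V, ∑ i, x i = 1) (hsub : V' ⊆ V)
    (h0 : ∀ x ∈ V', ∃ s ∈ Z, x s = 0) (h1 : ∀ x ∈ V, (∃ s ∈ Z, x s = 0) → x ∈ V')
    (h2 : ∀ x ∈ V, (∀ s ∈ Z, x s ≠ 0) → ∀ y : Fin n → ℂ, ∑ i, y i = 1 →
      (∀ i, y i ≠ 0 → i = v ∨ x i ≠ 0) → y ∈ V) : Sdr V V' := by
  let μ : (Fin n → ℂ) → ℝ := fun x => Z.inf' hne fun s => ‖x s‖
  have μc : Continuous μ := Continuous.finset_inf'_apply (f := fun s (x : Fin n → ℂ) => ‖x s‖) hne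
    fun s _ => by fun_prop
  have μ0 : ∀ x, 0 ≤ μ x := fun x => Finset.le_inf' _ _ fun s _ => norm_nonneg _
  have μle : ∀ x, ∀ s ∈ Z, μ x ≤ ‖x s‖ := fun x s hs => Finset.inf'_le _ hs
  let d : (Fin n → ℂ) × I → Fin n → ℂ := fun q i => if i ∈ Z then shr (q.2 * μ q.1) (q.1 i) else 0
  have dc : ∀ i, Continuous fun q => d q i := by
    intro i
    by_cases hi : i ∈ Z
    · simp only [d, hi, if_true]
      refine cont_shr (by fun_prop) (by fun_prop) fun q => ?_
      rw [abs_of_nonneg (mul_nonneg q.2.2.1 (μ0 _))]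
      exact (mul_le_of_le_one_left (μ0 _) q.2.2.2).trans (μle _ _ hi)
    · simp only [d, hi, if_false]; exact continuous_const
  let F : (Fin n → ℂ) × I → Fin n → ℂ := fun q i =>
    q.1 i - d q i + if i = v then ∑ j, d q j else 0
  have Fc : Continuous F := by
    refine continuous_pi fun i => ?_
    refine ((continuous_apply i).comp continuous_fst |>.sub (dc i)).add ?_
    by_cases hi : i = v
    · simp only [hi, if_true]; exact continuous_finsetSum _ fun j _ => dc j
    · simp only [hi, if_false]; exact continuous_const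
  have Fsum : ∀ q, ∑ i, F q i = ∑ i, q.1 i := by
    intro q
    simp [F, Finset.sum_add_distrib, Finset.sum_sub_distrib]
  have Ffix : ∀ q : (Fin n → ℂ) × I, (q.2 : ℝ) * μ q.1 = 0 → F q = q.1 := by
    intro q hq
    have hd : ∀ i, d q i = 0 := fun i => by simp only [d, hq, shr]; simp
    funext i
    simp [F, hd]
  have Fz : ∀ x t, (∃ s ∈ Z, x s = 0) → F (x, t) = x := by
    rintro x t ⟨s, hs, hx⟩
    refine Ffix _ ?_
    have : μ x = 0 := le_antisymm (by simpa [hx] using μle x s hs) (μ0 x)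
    simp [this]
  have Fm : ∀ x ∈ V, ∀ t, F (x, t) ∈ V := by
    intro x hx t
    by_cases hz : ∃ s ∈ Z, x s = 0
    · rw [Fz x t hz]; exact hx
    · push Not at hz
      refine h2 x hx hz _ (by rw [Fsum]; exact hsum x hx) fun i hi => ?_
      by_contra hc
      push Not at hc
      apply hi
      have : d (x, t) i = 0 := by simp [d, shr, hc.2]
      simp [F, hc.1, hc.2, this]
  refine ⟨hsub, ⟨fun q => ⟨F (q.1.1, q.2), Fm _ q.1.2 _⟩, by fun_prop⟩, ?_, ?_, ?_⟩
  · intro x
    apply Subtype.ext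
    exact Ffix _ (by simp)
  · intro x
    refine h1 _ (Fm _ x.2 _) ?_
    obtain ⟨s, hs, hμ⟩ := Finset.exists_mem_eq_inf' hne fun s => ‖x.1 s‖
    refine ⟨s, hs, ?_⟩
    have hsv : s ≠ v := fun h => hv (h ▸ hs)
    have hμ' : μ x.1 = ‖x.1 s‖ := hμ
    show F (x.1, 1) s = 0
    simp only [F, d, hs, hsv, if_true, if_false, hμ', shr]
    by_cases hx : x.1 s = 0
    · simp [hx]
    · have : ((‖x.1 s‖ : ℝ) : ℂ) ≠ 0 := by simpa using hx
      simp only [Set.Icc.coe_one, one_mul, add_zero]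
      field_simp
      ring
  · intro x t hx
    apply Subtype.ext
    exact Fz _ _ (h0 _ hx)

end Coll

end Pool.Agent.MP_94b95a_al.Fl.TopA

end MrgPart0

-- ======== part 1: formerly Pool.Agent.MP_94b95a_al.fl.TopA2
section MrgPart1

namespace Pool.Agent.MP_94b95a_al.Fl.TopA

def sb (a b : ℕ) : Bool := Nat.beq (a &&& b) a

def bits (a : ℕ) : List ℕ := (List.range 19).filter a.testBit

def okS (r z v : ℕ) : Bool :=
  Nat.blt z (2 ^ 19) && Nat.blt v 19 && !z.testBit v && Nat.ble 2 z && r.testBit v && sb z r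

def chkC (L : List ℕ) (r z v : ℕ) : Bool :=
  okS r z v && L.all (fun q => !sb z q || sb q r) && L.any (sb r)

def newC (K : List ℕ) (r z : ℕ) : List ℕ :=
  (((bits z).map fun s => r ^^^ 2 ^ s).filter fun f => !K.any (sb f)) ++ K

def chkE (L : List ℕ) (r z v : ℕ) : Bool :=
  okS r z v && L.all (fun q => !sb z q) && (bits z).all fun s => L.any (sb (r ^^^ 2 ^ s))

def force : List ℕ → (List ℕ → Bool) → Bool
  | [], k => k []
  | 0 :: l, k => force l fun l' => k (0 :: l')
  | (n + 1) :: l, k => force l fun l' => k (n.succ :: l')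

theorem force_eq (L : List ℕ) (k : List ℕ → Bool) : force L k = k L := by
  induction L generalizing k with
  | nil => rfl
  | cons a l ih => cases a <;> simp [force, ih]

def run : List ℕ → List ℕ → List ℕ → Bool
  | [], L, M => L == M
  | c :: st, L, M =>
    if Nat.beq (c % 2) 0 then
      chkC L (c / 33554432) (c / 64 % 524288) (c / 2 % 32) &&
        force (L.filter fun q => !sb (c / 64 % 524288) q) fun K =>
          force (newC K (c / 33554432) (c / 64 % 524288)) fun L' => run st L' M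
    else chkE L (c / 33554432) (c / 64 % 524288) (c / 2 % 32) &&
      force (c / 33554432 :: L) fun L' => run st L' M

theorem sb_iff {a b : ℕ} : sb a b = true ↔ ∀ i, a.testBit i = true → b.testBit i = true := by
  unfold sb
  rw [Nat.beq_eq]
  constructor
  · intro h i hi
    rw [← h, Nat.testBit_and] at hi
    simp_all
  · intro h
    apply Nat.eq_of_testBit_eq
    intro i
    rw [Nat.testBit_and]
    have := h i
    cases ha : a.testBit i <;> simp_all

theorem mem_bits {a s : ℕ} : s ∈ bits a ↔ s < 19 ∧ a.testBit s = true := by simp [bits]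

def fs (z : ℕ) : Finset (Fin 19) := Finset.univ.filter fun i => z.testBit i = true

theorem mem_fs {z : ℕ} {i : Fin 19} : i ∈ fs z ↔ z.testBit i = true := by simp [fs]

structure OkS (r z v : ℕ) : Prop where
  lt : ∀ i, z.testBit i = true → i < 19
  vlt : v < 19
  zv : z.testBit v = false
  two : ∃ s : Fin 19, s ≠ 0 ∧ z.testBit s = true
  rv : r.testBit v = true
  zr : ∀ i, z.testBit i = true → r.testBit i = true

theorem okS_spec {r z v : ℕ} (h : okS r z v = true) : OkS r z v := by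
  simp only [okS, Bool.and_eq_true, Nat.blt_eq, Nat.ble_eq, Bool.not_eq_true'] at h
  obtain ⟨⟨⟨⟨⟨h1, h2⟩, h3⟩, h4⟩, h5⟩, h6⟩ := h
  have hlt : ∀ i, z.testBit i = true → i < 19 := by
    intro i hi
    by_contra hc
    have : z < 2 ^ i := h1.trans_le (Nat.pow_le_pow_right (by norm_num) (by omega))
    rw [Nat.testBit_lt_two_pow this] at hi
    exact absurd hi (by simp)
  refine ⟨hlt, h2, h3, ?_, h5, sb_iff.mp h6⟩
  obtain ⟨i, hi, hb⟩ := Nat.exists_ge_and_testBit_of_ge_two_pow (x := z) (n := 1) (by simpa using h4)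
  exact ⟨⟨i, hlt i hb⟩, fun h => by simp at h; omega, hb⟩

theorem xor_bit {r s i : ℕ} (hs : r.testBit s = true) :
    (r ^^^ 2 ^ s).testBit i = true ↔ r.testBit i = true ∧ i ≠ s := by
  rw [Nat.testBit_xor, Nat.testBit_two_pow]
  by_cases h : s = i
  · subst h; simp [hs]
  · simp [h, Ne.symm h]

/-- Semantic form of one collapse. -/
theorem sdr_step {L L' : List ℕ} {r z v : ℕ} (ok : OkS r z v)
    (free : ∀ q ∈ L, sb z q = true → sb q r = true) (top : ∃ q ∈ L, sb r q = true)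
    (sub : ∀ q ∈ L', ∃ q' ∈ L, sb q q' = true) (no : ∀ q ∈ L', sb z q = false)
    (keep : ∀ q ∈ L, sb z q = false → q ∈ L')
    (faces : ∀ s, z.testBit s = true → ∃ q ∈ L', sb (r ^^^ 2 ^ s) q = true) :
    Sdr (VV L) (VV L') := by
  obtain ⟨s0, -, hs0⟩ := ok.two
  refine sdr_coll _ _ (fs z) ⟨v, ok.vlt⟩ (by simp [mem_fs, ok.zv]) ⟨s0, mem_fs.mpr hs0⟩
    (fun x hx => hx.1) ?_ ?_ ?_ ?_
  · rintro x ⟨hx, q, hq, h⟩
    obtain ⟨q', hq', hs⟩ := sub q hq
    exact ⟨hx, q', hq', fun i hi => sb_iff.mp hs _ (h i hi)⟩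
  · rintro x ⟨-, q, hq, h⟩
    by_contra hc
    push Not at hc
    have : sb z q = true := sb_iff.mpr fun i hi => h ⟨i, ok.lt i hi⟩ (hc _ (mem_fs.mpr hi))
    rw [no q hq] at this
    exact absurd this (by simp)
  · rintro x ⟨hx, q, hq, h⟩ ⟨s, hs, hxs⟩
    refine ⟨hx, ?_⟩
    cases hz : sb z q
    · exact ⟨q, keep q hq hz, h⟩
    · obtain ⟨q', hq', hs'⟩ := faces s (mem_fs.mp hs)
      refine ⟨q', hq', fun i hi => sb_iff.mp hs' _ ?_⟩
      rw [xor_bit (ok.zr _ (mem_fs.mp hs))]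
      refine ⟨sb_iff.mp (free q hq hz) _ (h i hi), fun he => hi ?_⟩
      rw [Fin.ext he]; exact hxs
  · rintro x ⟨-, q, hq, h⟩ hne y hy hs
    obtain ⟨q', hq', ht⟩ := top
    have hz : sb z q = true := sb_iff.mpr fun i hi => h ⟨i, ok.lt i hi⟩ (hne _ (mem_fs.mpr hi))
    refine ⟨hy, q', hq', fun i hi => sb_iff.mp ht _ ?_⟩
    rcases hs i hi with rfl | hx
    · exact ok.rv
    · exact sb_iff.mp (free q hq hz) _ (h i hx)

theorem sb_refl (a : ℕ) : sb a a = true := sb_iff.mpr fun _ h => h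

theorem stepC {L : List ℕ} {r z v : ℕ} (h : chkC L r z v = true) :
    Sdr (VV L) (VV (newC (L.filter fun q => !sb z q) r z)) := by
  simp only [chkC, Bool.and_eq_true, List.all_eq_true, List.any_eq_true] at h
  obtain ⟨⟨h1, h2⟩, h3⟩ := h
  have ok := okS_spec h1
  refine sdr_step ok (fun q hq hz => by simpa [hz] using h2 q hq) h3 ?_ ?_ ?_ ?_
  · intro q hq
    simp only [newC, List.mem_append, List.mem_filter, List.mem_map] at hq
    rcases hq with ⟨⟨s, hs, rfl⟩, -⟩ | hq
    · obtain ⟨q', hq', ht⟩ := h3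
      refine ⟨q', hq', sb_iff.mpr fun i hi => sb_iff.mp ht _ ?_⟩
      exact ((xor_bit (ok.zr _ (mem_bits.mp hs).2)).mp hi).1
    · exact ⟨q, hq.1, sb_refl q⟩
  · intro q hq
    simp only [newC, List.mem_append, List.mem_filter, List.mem_map] at hq
    rcases hq with ⟨⟨s, hs, rfl⟩, -⟩ | hq
    · have hs' := (mem_bits.mp hs).2
      by_contra hc
      rw [Bool.not_eq_false] at hc
      exact ((xor_bit (ok.zr _ hs')).mp (sb_iff.mp hc s hs')).2 rfl
    · simpa using hq.2
  · intro q hq hz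
    simp only [newC, List.mem_append, List.mem_filter]
    exact Or.inr ⟨hq, by simp [hz]⟩
  · intro s hs
    cases hK : (L.filter fun q => !sb z q).any (sb (r ^^^ 2 ^ s))
    · refine ⟨r ^^^ 2 ^ s, ?_, sb_refl _⟩
      unfold newC
      refine List.mem_append_left _ (List.mem_filter.mpr ⟨List.mem_map.mpr
        ⟨s, mem_bits.mpr ⟨ok.lt s hs, hs⟩, rfl⟩, by rw [hK]; rfl⟩)
    · obtain ⟨q, hq, hq'⟩ := List.any_eq_true.mp hK
      exact ⟨q, List.mem_append_right _ hq, hq'⟩

theorem stepE {L : List ℕ} {r z v : ℕ} (h : chkE L r z v = true)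
    (hC : Ctr (VV (r :: L)) (Pi.single 0 1)) : Ctr (VV L) (Pi.single 0 1) := by
  simp only [chkE, Bool.and_eq_true, List.all_eq_true, List.any_eq_true] at h
  obtain ⟨⟨h1, h2⟩, h3⟩ := h
  have ok := okS_spec h1
  have no : ∀ q ∈ L, sb z q = false := fun q hq => by simpa using h2 q hq
  have hS : Sdr (VV (r :: L)) (VV L) := by
    refine sdr_step ok ?_ ⟨r, by simp, sb_refl r⟩ (fun q hq => ⟨q, by simp [hq], sb_refl q⟩) no ?_
      fun s hs => h3 s (mem_bits.mpr ⟨ok.lt s hs, hs⟩)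
    · intro q hq hz
      rcases List.mem_cons.mp hq with rfl | hq
      · exact sb_refl _
      · rw [no q hq] at hz; exact absurd hz (by simp)
    · intro q hq hz
      rcases List.mem_cons.mp hq with rfl | hq
      · rw [sb_iff.mpr ok.zr] at hz; exact absurd hz (by simp)
      · exact hq
  by_cases hne : (VV L).Nonempty
  · refine hS.down ?_ hC
    obtain ⟨x, hx⟩ := hne
    obtain ⟨hh, -, e1, -⟩ := hC
    have he : (Pi.single 0 1 : Fin 19 → ℂ) ∈ VV (r :: L) := by
      rw [← e1 ⟨x, hS.1 hx⟩]; exact Subtype.property _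
    obtain ⟨hs, q, hq, hb⟩ := he
    rcases List.mem_cons.mp hq with rfl | hq
    · obtain ⟨s, hs0, hz⟩ := ok.two
      obtain ⟨q', hq', ht⟩ := h3 s (mem_bits.mpr ⟨s.2, hz⟩)
      refine ⟨hs, q', hq', fun i hi => sb_iff.mp ht _ ?_⟩
      rw [xor_bit (ok.zr _ hz)]
      refine ⟨hb i hi, fun he => hi ?_⟩
      rw [Fin.ext he]
      exact Pi.single_eq_of_ne hs0 _
    · exact ⟨hs, q, hq, hb⟩
  · exact ⟨⟨fun p => p.1, continuous_fst⟩, fun _ => rfl, fun x => absurd ⟨x.1, x.2⟩ hne,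
      fun _ _ _ => rfl⟩

theorem run_ok {st L M : List ℕ} (h : run st L M = true) (hM : Ctr (VV M) (Pi.single 0 1)) :
    Ctr (VV L) (Pi.single 0 1) := by
  induction st generalizing L with
  | nil => simp only [run, beq_iff_eq] at h; exact h ▸ hM
  | cons c st ih =>
    unfold run at h
    split_ifs at h
    · rw [Bool.and_eq_true, force_eq, force_eq] at h
      exact (stepC h.1).up (ih h.2)
    · rw [Bool.and_eq_true, force_eq] at h
      exact stepE h.1 (ih h.2)

theorem ctr_one : Ctr (VV [1]) (Pi.single 0 1) := by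
  refine ⟨⟨fun p => p.1, continuous_fst⟩, fun _ => rfl, ?_, fun _ _ _ => rfl⟩
  rintro ⟨x, hx, q, hq, hb⟩
  rw [List.mem_singleton] at hq
  subst hq
  have h0 : ∀ i : Fin 19, i ≠ 0 → x i = 0 := by
    intro i hi
    by_contra hc
    have := hb i hc
    rw [Nat.testBit_one_eq_true_iff_self_eq_zero] at this
    exact hi (Fin.ext this)
  funext i
  by_cases hi : i = 0
  · subst hi
    rw [Finset.sum_eq_single 0 (fun j _ hj => h0 j hj) (by simp)] at hx
    simpa using hx
  · show x i = _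
    rw [h0 i hi, Pi.single_eq_of_ne hi]

end Pool.Agent.MP_94b95a_al.Fl.TopA

end MrgPart1

-- ======== part 2: formerly Pool.Agent.MP_94b95a_al.fl.StLem
section MrgPart2

/-! PROJECT FLAW: shared lemmas on Steinberg families. -/

namespace Pool.Agent.MP_94b95a_al.Fl.StLem

open scoped commutatorElement

theorem third (i j : Fin 5) : ∃ m : Fin 5, m ≠ i ∧ m ≠ j := by revert i j; decide

theorem fourth (i j k : Fin 5) : ∃ m : Fin 5, m ≠ i ∧ m ≠ j ∧ m ≠ k := by revert i j k; decide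

theorem fifth (i j k l : Fin 5) : ∃ m : Fin 5, m ≠ i ∧ m ≠ j ∧ m ≠ k ∧ m ≠ l := by
  revert i j k l; decide

section Grp
variable {H : Type} [Group H]

theorem comm_comm {a b c : H} (ha : Commute a c) (hb : Commute b c) : Commute ⁅a, b⁆ c := by
  rw [commutatorElement_def]
  exact ((ha.mul_left hb).mul_left ha.inv_left).mul_left hb.inv_left

theorem conj_eq (a b : H) : a * b * a⁻¹ = ⁅a, b⁆ * b := by
  rw [commutatorElement_def]; group

theorem key {a b c : H} (hac : Commute a c) (h1 : Commute ⁅b, c⁆ ⁅a, b⁆) (h2 : Commute ⁅b, c⁆ c) :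
    ⁅a, ⁅b, c⁆⁆ = ⁅⁅a, b⁆, c⁆ := by
  have e1 : a * ⁅b, c⁆ * a⁻¹ = ⁅a, b⁆ * ⁅b, c⁆ * ⁅a, b⁆⁻¹ * ⁅⁅a, b⁆, c⁆ := by
    have : a * ⁅b, c⁆ * a⁻¹ = ⁅a * b * a⁻¹, a * c * a⁻¹⁆ := by
      simp only [commutatorElement_def]; group
    rw [this, hac.mul_inv_cancel, conj_eq a b]
    generalize ⁅a, b⁆ = d
    simp only [commutatorElement_def]; group
  rw [commutatorElement_def a, e1, h1.symm.mul_inv_cancel]
  exact (comm_comm h1.symm h2.symm).symm.mul_inv_cancel

end Grp

variable {R : Type} [CommRing R] {I : Ideal R} {H : Type} [Group H] {x : Fin 5 → Fin 5 → R → H}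

theorem leg_top {i j : Fin 5} (h : i ≠ j) (a : R) : Leg ⊤ i j a := leg_of_mem h trivial

theorem commute_of_mul (hx : StFam I x) {i j k : Fin 5} {a b : R} (hik : i ≠ k) (ha : Leg I i j a)
    (hb : Leg I j k b) (h : x i k (a * b) = 1) : Commute (x i j a) (x j k b) :=
  commutatorElement_eq_one_iff_commute.1 ((hx.heis i j k a b hik ha hb).trans h)

/-- The common kernel of the root maps. -/
def kerId (hx : StFam I x) (hI : ∀ r : R, ∃ n : ℤ, r - n ∈ I) : Ideal R :=
  let A : AddSubgroup R :=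
    { carrier := {a | a ∈ I ∧ ∀ i j, i ≠ j → x i j a = 1}
      zero_mem' := ⟨I.zero_mem, fun i j h => hx.zero h⟩
      add_mem' := fun {a b} ha hb => ⟨I.add_mem ha.1 hb.1, fun i j h => by
        rw [hx.add i j a b (leg_of_mem h ha.1) (leg_of_mem h hb.1), ha.2 i j h, hb.2 i j h,
          one_mul]⟩
      neg_mem' := fun {a} ha => ⟨I.neg_mem ha.1, fun i j h => by
        rw [hx.neg (leg_of_mem h ha.1), ha.2 i j h, inv_one]⟩ }
  { A with
    smul_mem' := fun r a ha => by
      obtain ⟨n, hn⟩ := hI r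
      have h1 : (r - n) * a ∈ A := ⟨I.mul_mem_left _ ha.1, fun i j h => by
        obtain ⟨m, hi, hj⟩ := third i j
        rw [← hx.heis i m j _ _ h (leg_of_mem hi.symm hn) (leg_of_mem hj ha.1), ha.2 m j hj,
          commutatorElement_one_right]⟩
      have h2 := A.add_mem h1 (A.zsmul_mem (show a ∈ A from ha) n)
      have e : (r - n) * a + n • a = r • a := by simp; ring
      rw [e] at h2
      exact h2 }

theorem mem_kerId (hx : StFam I x) (hI : ∀ r : R, ∃ n : ℤ, r - n ∈ I) {a : R} :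
    a ∈ kerId hx hI ↔ a ∈ I ∧ ∀ i j, i ≠ j → x i j a = 1 := Iff.rfl

theorem ker_int (ε : R →+* ℤ) (r : R) : ∃ n : ℤ, r - n ∈ RingHom.ker ε :=
  ⟨ε r, by simp [RingHom.mem_ker]⟩

theorem leg_iff {R' : Type} [CommRing R'] {I' : Ideal R'} (π : R →+* R')
    (hI : ∀ a, π a ∈ I' ↔ a ∈ I) (i j : Fin 5) (a : R) : Leg I' i j (π a) ↔ Leg I i j a := by
  unfold Leg sig
  split_ifs <;> simp [hI]

/-- Descent of a family along a surjection. -/
theorem descend (hx : StFam I x) {R' : Type} [CommRing R'] {I' : Ideal R'} (π : R →+* R')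
    (hπ : Function.Surjective π) (hI : ∀ a, π a ∈ I' ↔ a ∈ I)
    (h0 : ∀ a, π a = 0 → ∀ i j, i ≠ j → x i j a = 1) :
    ∃ y : Fin 5 → Fin 5 → R' → H, StFam I' y ∧ ∀ i j a, Leg I i j a → y i j (π a) = x i j a := by
  have hy : ∀ i j a, Leg I i j a → x i j (Function.surjInv hπ (π a)) = x i j a := by
    intro i j a ha
    set a' := Function.surjInv hπ (π a)
    have e : π (a' - a) = 0 := by rw [map_sub, Function.surjInv_eq hπ, sub_self]
    have hm : a' - a ∈ I := (hI _).1 (e ▸ I'.zero_mem)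
    have := hx.add i j a (a' - a) ha (leg_of_mem ha.1 hm)
    rw [h0 _ e i j ha.1, mul_one, add_sub_cancel] at this
    exact this
  refine ⟨fun i j b => x i j (Function.surjInv hπ b), ⟨?_, ?_, ?_⟩, hy⟩
  · intro i j a b ha hb
    obtain ⟨a, rfl⟩ := hπ a
    obtain ⟨b, rfl⟩ := hπ b
    rw [leg_iff π hI] at ha hb
    rw [← map_add, hy i j _ (ha.add hb), hy i j _ ha, hy i j _ hb, hx.add i j a b ha hb]
  · intro i j k a b hik ha hb
    obtain ⟨a, rfl⟩ := hπ a
    obtain ⟨b, rfl⟩ := hπ b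
    rw [leg_iff π hI] at ha hb
    rw [← map_mul, hy i k _ (ha.mul hik hb), hy i j _ ha, hy j k _ hb, hx.heis i j k a b hik ha hb]
  · intro i j k l a b h1 h2 ha hb
    obtain ⟨a, rfl⟩ := hπ a
    obtain ⟨b, rfl⟩ := hπ b
    rw [leg_iff π hI] at ha hb
    rw [hy i j _ ha, hy k l _ hb]
    exact hx.comm i j k l a b h1 h2 ha hb

open Classical in
/-- The family inside the subgroup that it generates. -/
theorem sub (hx : StFam I x) :
    ∃ y : Fin 5 → Fin 5 → R → Subgroup.closure (gens I x), StFam I y ∧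
      Subgroup.closure (gens I y) = ⊤ ∧ ∀ i j a, Leg I i j a → (y i j a : H) = x i j a := by
  let y : Fin 5 → Fin 5 → R → Subgroup.closure (gens I x) := fun i j a =>
    if h : Leg I i j a then ⟨x i j a, Subgroup.subset_closure ⟨i, j, a, h, rfl⟩⟩ else 1
  have hy : ∀ i j a, Leg I i j a → (y i j a : H) = x i j a := fun i j a h => by simp [y, h]
  refine ⟨y, ⟨?_, ?_, ?_⟩, ?_, hy⟩
  · intro i j a b ha hb
    apply Subtype.ext
    rw [Subgroup.coe_mul, hy _ _ _ ha, hy _ _ _ hb, hy _ _ _ (ha.add hb), hx.add i j a b ha hb]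
  · intro i j k a b hik ha hb
    apply Subtype.ext
    have := map_commutatorElement (Subgroup.closure (gens I x)).subtype (y i j a) (y j k b)
    simp only [Subgroup.coe_subtype] at this
    rw [this, hy _ _ _ ha, hy _ _ _ hb, hy _ _ _ (ha.mul hik hb), hx.heis i j k a b hik ha hb]
  · intro i j k l a b h1 h2 ha hb
    apply Subtype.ext
    rw [Subgroup.coe_mul, Subgroup.coe_mul, hy _ _ _ ha, hy _ _ _ hb]
    exact hx.comm i j k l a b h1 h2 ha hb
  · rw [eq_top_iff, ← Subgroup.closure_closure_coe_preimage]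
    apply Subgroup.closure_mono
    rintro ⟨g, hg⟩ ⟨i, j, a, h, e⟩
    exact ⟨i, j, a, h, Subtype.ext (e.trans (hy i j a h).symm)⟩

theorem rootSet_sub {K : Subgroup H} {y : Fin 5 → Fin 5 → R → K}
    (hy : ∀ i j a, Leg I i j a → (y i j a : H) = x i j a) {i j : Fin 5}
    (h : (rootSet I x i j).Finite) : (rootSet I y i j).Finite := by
  refine Set.Finite.of_finite_image (f := fun g : K => (g : H)) (h.subset ?_)
    Subtype.val_injective.injOn
  rintro _ ⟨_, ⟨a, ha, rfl⟩, rfl⟩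
  exact ⟨a, ha, hy i j a ha⟩

theorem gens_finite (h : ∀ i j, (rootSet I x i j).Finite) : (gens I x).Finite := by
  refine (Set.finite_iUnion fun p : Fin 5 × Fin 5 => h p.1 p.2).subset ?_
  rintro _ ⟨i, j, a, ha, rfl⟩
  exact Set.mem_iUnion.2 ⟨(i, j), a, ha, rfl⟩

/-- The image of `I` modulo the common kernel is finite. -/
theorem finite_map (hx : StFam I x) (hI : ∀ r : R, ∃ n : ℤ, r - n ∈ I)
    (h : ∀ i j, (rootSet I x i j).Finite) :
    (Ideal.Quotient.mk (kerId hx hI) '' (I : Set R)).Finite := by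
  classical
  let F : R → Fin 5 × Fin 5 → H := fun a p => if p.1 = p.2 then 1 else x p.1 p.2 a
  have hF : (F '' (I : Set R)).Finite := by
    refine (Set.Finite.pi' (t := fun p : Fin 5 × Fin 5 => insert 1 (rootSet I x p.1 p.2))
      fun p => (h p.1 p.2).insert 1).subset ?_
    rintro _ ⟨a, ha, rfl⟩ p
    by_cases hp : p.1 = p.2
    · simp [F, hp]
    · exact Or.inr ⟨a, leg_of_mem hp ha, by simp [F, hp]⟩
  refine (hF.image fun t => Ideal.Quotient.mk (kerId hx hI) (Function.invFunOn F I t)).subset ?_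
  rintro _ ⟨a, ha, rfl⟩
  refine ⟨F a, ⟨a, ha, rfl⟩, ?_⟩
  have h1 : Function.invFunOn F I (F a) ∈ (I : Set R) := Function.invFunOn_mem ⟨a, ha, rfl⟩
  have h2 : F (Function.invFunOn F I (F a)) = F a := Function.invFunOn_eq ⟨a, ha, rfl⟩
  dsimp only
  generalize Function.invFunOn F I (F a) = b at h1 h2 ⊢
  refine Ideal.Quotient.eq.2 ⟨I.sub_mem h1 ha, fun i j hij => ?_⟩
  have h3 : x i j b = x i j a := by simpa [F, hij] using congrFun h2 (i, j)
  rw [sub_eq_add_neg, hx.add i j b (-a) (leg_of_mem hij h1) (leg_of_mem hij ha).neg,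
    hx.neg (leg_of_mem hij ha), h3, mul_inv_cancel]

end Pool.Agent.MP_94b95a_al.Fl.StLem

end MrgPart2

-- ======== part 3: formerly Pool.Agent.MP_94b95a_al.fl.Fin
section MrgPart3

/-! PROJECT FLAW: finite root groups generate a finite group. -/

namespace Pool.Agent.MP_94b95a_al.Fl

open scoped commutatorElement
open StLem

namespace FinAux

theorem exists_idem {R : Type} [CommRing R] (I : Ideal R) (hI : (I : Set R).Finite) :
    ∃ (e : R) (K : ℕ), e * e = e ∧ e ∈ I ∧ ∀ a ∈ I ^ K, e * a = a := by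
  have hle : ∀ n, I ^ (n + 1) ≤ I := fun n => Ideal.pow_le_self (Nat.succ_ne_zero n)
  have hfin : (Set.range fun n : ℕ => ((I ^ (n + 1) : Ideal R) : Set R)).Finite :=
    hI.finite_subsets.subset (by rintro _ ⟨n, rfl⟩; exact hle n)
  obtain ⟨n, m, hnm, e⟩ : ∃ n m : ℕ, n < m ∧ I ^ (n + 1) = I ^ (m + 1) := by
    have := hfin.to_subtype
    obtain ⟨n, m, h1, h2⟩ := Finite.exists_ne_map_eq_of_infinite
      (fun n : ℕ => (⟨_, n, rfl⟩ : Set.range fun n : ℕ => ((I ^ (n + 1) : Ideal R) : Set R)))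
    have h3 : I ^ (n + 1) = I ^ (m + 1) := SetLike.coe_injective (congrArg Subtype.val h2)
    rcases lt_or_gt_of_ne h1 with h | h
    · exact ⟨n, m, h, h3⟩
    · exact ⟨m, n, h, h3.symm⟩
  have e1 : I ^ (n + 1) * I = I ^ (n + 1) := by
    rw [← pow_succ]
    exact le_antisymm (Ideal.pow_le_pow_right (by omega))
      (e.le.trans (Ideal.pow_le_pow_right (by omega)))
  have e2 : ∀ k, I ^ (n + 1) * I ^ k = I ^ (n + 1) := by
    intro k
    induction k with
    | zero => simp
    | succ k ih => rw [pow_succ I k, ← mul_assoc, ih, e1]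
  have hfg : (I ^ (n + 1)).FG :=
    Submodule.fg_def.2 ⟨_, hI.subset (hle n), Submodule.span_eq _⟩
  obtain ⟨η, h1, h2⟩ := (Ideal.isIdempotentElem_iff_of_fg _ hfg).1 (e2 _)
  refine ⟨η, n + 1, h1, hle n (h2 ▸ Submodule.mem_span_singleton_self η), fun a ha => ?_⟩
  rw [h2] at ha
  obtain ⟨r, rfl⟩ := Submodule.mem_span_singleton.1 ha
  rw [smul_eq_mul, mul_left_comm, h1.eq]

theorem main (h0 : Fin0Stmt) (h1 : Fin1Stmt) {R : Type} [CommRing R] {I : Ideal R}
    (hI : (I : Set R).Finite) {H : Type} [Group H] {x : Fin 5 → Fin 5 → R → H} (hx : StFam I x)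
    (hg : Subgroup.closure (gens I x) = ⊤) (hf : ∀ i j, (rootSet I x i j).Finite) : Finite H := by
  obtain ⟨e, K, he, heI, hK⟩ := exists_idem I hI
  have le : ∀ {i j : Fin 5} (a : R), i ≠ j → Leg I i j (e * a) := fun a h =>
    leg_of_mem h (I.mul_mem_right a heI)
  have hy : StFam I fun i j a => x i j ((1 - e) * a) := by
    refine ⟨fun i j a b ha hb => ?_, fun i j k a b hik ha hb => ?_,
      fun i j k l a b h1 h2 ha hb => hx.comm _ _ _ _ _ _ h1 h2 (ha.mul_left _) (hb.mul_left _)⟩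
    · rw [mul_add, hx.add _ _ _ _ (ha.mul_left _) (hb.mul_left _)]
    · rw [hx.heis _ _ _ _ _ hik (ha.mul_left _) (hb.mul_left _)]
      congr 1
      linear_combination a * b * he
  have hw : StFam ⊤ fun i j a => x i j (e * a) := by
    refine ⟨fun i j a b ha hb => ?_, fun i j k a b hik ha hb => ?_,
      fun i j k l a b h1 h2 ha hb => hx.comm _ _ _ _ _ _ h1 h2 (le _ ha.1) (le _ hb.1)⟩
    · rw [mul_add, hx.add _ _ _ _ (le _ ha.1) (le _ hb.1)]
    · rw [hx.heis _ _ _ _ _ hik (le _ ha.1) (le _ hb.1)]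
      congr 1
      linear_combination a * b * he
  have c1 : ∀ i j p q a b, Leg I i j a → p ≠ q → ¬ (j = p ∧ i = q) →
      Commute (x i j ((1 - e) * a)) (x p q (e * b)) := by
    intro i j p q a b ha hpq h
    by_cases h1 : j = p
    · subst h1
      have h2 : i ≠ q := fun h' => h ⟨rfl, h'⟩
      refine commute_of_mul hx h2 (ha.mul_left _) (le _ hpq) ?_
      rw [← hx.zero h2]
      congr 1
      linear_combination (-a * b) * he
    · by_cases h2 : i = q
      · subst h2
        refine (commute_of_mul hx (Ne.symm h1) (le _ hpq) (ha.mul_left _) ?_).symm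
        rw [← hx.zero (Ne.symm h1)]
        congr 1
        linear_combination (-a * b) * he
      · exact hx.comm _ _ _ _ _ _ h1 h2 (ha.mul_left _) (le _ hpq)
  have c2 : ∀ i j p q a b, Leg I i j a → p ≠ q → Commute (x i j ((1 - e) * a)) (x p q (e * b)) := by
    intro i j p q a b ha hpq
    by_cases h : j = p ∧ i = q
    · obtain ⟨rfl, rfl⟩ := h
      obtain ⟨m, m1, m2⟩ := third i j
      have := hw.heis j m i b 1 hpq (leg_top m2.symm _) (leg_top m1 _)
      rw [mul_one b] at this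
      rw [← this]
      exact (comm_comm (c1 i j j m a b ha m2.symm fun h => m1 h.2.symm).symm
        (c1 i j m i a 1 ha m1 fun h => m2 h.1.symm).symm).symm
    · exact c1 i j p q a b ha hpq h
  set Y := Subgroup.closure (gens I fun i j a => x i j ((1 - e) * a)) with hY
  set W := Subgroup.closure (gens ⊤ fun i j a => x i j (e * a)) with hW
  have : Finite Y := by
    obtain ⟨y, a1, a2, a3⟩ := sub hy
    refine h0 R I _ y a1 a2 (fun i j => rootSet_sub a3 ((hf i j).subset ?_)) ⟨K, ?_⟩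
    · rintro _ ⟨a, ha, rfl⟩
      exact ⟨_, ha.mul_left _, rfl⟩
    · intro i j a ha hK'
      apply Subtype.ext
      rw [a3 i j a ha, sub_mul, one_mul, hK a hK', sub_self, hx.zero ha.1]
      rfl
  have : Finite W := by
    obtain ⟨y, a1, a2, a3⟩ := sub hw
    refine h1 R _ y a1 a2 fun i j => rootSet_sub a3 ((hf i j).subset ?_)
    rintro _ ⟨a, ha, rfl⟩
    exact ⟨_, le _ ha.1, rfl⟩
  have hc : ∀ (a : Y) (b : W), Commute (Y.subtype a) (W.subtype b) := by
    rintro ⟨a, ha⟩ ⟨b, hb⟩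
    have : Y ≤ Subgroup.centralizer W := by
      rw [hY, Subgroup.closure_le]
      rintro _ ⟨i, j, a, ha, rfl⟩
      have : W ≤ Subgroup.centralizer {x i j ((1 - e) * a)} := by
        rw [hW, Subgroup.closure_le]
        rintro _ ⟨p, q, b, hb, rfl⟩ _ rfl
        exact c2 i j p q a b ha hb.1
      exact fun g hg => (this hg _ rfl).symm
    exact (this ha b hb).symm
  refine Finite.of_surjective (Y.subtype.noncommCoprod W.subtype hc) ?_
  rw [← MonoidHom.range_eq_top, eq_top_iff, ← hg, Subgroup.closure_le]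
  rintro _ ⟨i, j, a, ha, rfl⟩
  refine ⟨(⟨_, Subgroup.subset_closure ⟨i, j, a, ha, rfl⟩⟩,
    ⟨_, Subgroup.subset_closure ⟨i, j, a, leg_top ha.1 a, rfl⟩⟩), ?_⟩
  change x i j ((1 - e) * a) * x i j (e * a) = x i j a
  rw [← hx.add _ _ _ _ (ha.mul_left _) (le _ ha.1)]
  congr 1
  ring

end FinAux

theorem fin_thm (h0 : Fin0Stmt) (h1 : Fin1Stmt) : FinStmt := by
  intro R _ ε H _ x hx hg hf
  set J := kerId hx (ker_int ε) with hJ
  have hJI : J ≤ RingHom.ker ε := fun a ha => ha.1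
  have hI : ∀ a, Ideal.Quotient.mk J a ∈ (RingHom.ker ε).map (Ideal.Quotient.mk J) ↔
      a ∈ RingHom.ker ε := fun a => by
    rw [Ideal.mem_quotient_iff_mem hJI]
  obtain ⟨y, hy, hy'⟩ := descend hx (Ideal.Quotient.mk J) Ideal.Quotient.mk_surjective hI
    fun a ha => (Ideal.Quotient.eq_zero_iff_mem.1 ha).2
  refine FinAux.main h0 h1 ((finite_map hx (ker_int ε) hf).subset fun b hb => ?_) hy ?_
    fun i j => (hf i j).subset ?_
  · obtain ⟨a, rfl⟩ := Ideal.Quotient.mk_surjective b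
    exact ⟨a, (hI a).1 hb, rfl⟩
  · rw [eq_top_iff, ← hg]
    apply Subgroup.closure_mono
    rintro _ ⟨i, j, a, ha, rfl⟩
    exact ⟨i, j, _, (leg_iff _ hI i j a).2 ha, (hy' i j a ha).symm⟩
  · rintro _ ⟨b, hb, rfl⟩
    obtain ⟨a, rfl⟩ := Ideal.Quotient.mk_surjective b
    have ha := (leg_iff _ hI i j a).1 hb
    exact ⟨a, ha, hy' i j a ha⟩

end Pool.Agent.MP_94b95a_al.Fl

end MrgPart3

-- ======== part 4: formerly Pool.Agent.MP_94b95a_al.fl.Cont
section MrgPart4

/-! Compactness of normal forms along convergent families. -/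

namespace Pool.Agent.MP_94b95a_al.Fl

open NormedSpace Matrix Filter Topology

namespace Cont

theorem jd_of {N : ℕ} {R : Type} [CommRing R] {I : Ideal R} {G : Subgroup (GLN N)} {T : Tri I N}
    (hT : T.Good G) {ρ : St I → GLN N} (h : T.IsRep ρ) {i j : Fin 5} {a : R} (ha : Leg I i j a) :
    JD (ρ (X I i j a)) (T.e (X I i j a)) (T.A (X I i j a)) (T.ν i j a) :=
  ⟨h i j a ha, hT.ell i j a ha, hT.hyp _, hT.lie.nil i j a ha, hT.eA _ _, hT.eν _ i j a ha,
    hT.Aν _ i j a ha⟩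

theorem ulimC {τ : Type} (U : Ultrafilter τ) (x : τ → ℂ) (C : ℝ)
    (h : ∀ᶠ m in (U : Filter τ), ‖x m‖ ≤ C) : ∃ y, Tendsto x U (𝓝 y) := by
  have hc : IsCompact (Metric.closedBall (0 : ℂ) C) := isCompact_closedBall 0 C
  have hm : Metric.closedBall (0 : ℂ) C ∈ (U.map x : Filter ℂ) := by
    show Metric.closedBall (0 : ℂ) C ∈ Filter.map x U
    rw [Filter.mem_map]
    filter_upwards [h] with m hm
    simpa using hm
  obtain ⟨y, -, hy⟩ := hc.ultrafilter_le_nhds' (U.map x) hm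
  exact ⟨y, hy⟩

theorem bdd_of_tendsto {N : ℕ} {τ : Type} {F : Filter τ} {x : τ → Mat N} {y : Mat N}
    (h : Tendsto x F (𝓝 y)) : ∃ C : ℝ, ∀ᶠ m in F, ∀ a b, ‖x m a b‖ ≤ C := by
  refine ⟨∑ a, ∑ b, (‖y a b‖ + 1), ?_⟩
  rw [Filter.eventually_all]
  intro a
  rw [Filter.eventually_all]
  intro b
  have h1 : Tendsto (fun m => x m a b) F (𝓝 (y a b)) :=
    ((continuous_apply_apply a b).tendsto y).comp h
  have h2 : ∀ᶠ m in F, ‖x m a b‖ < ‖y a b‖ + 1 :=
    h1.norm.eventually (gt_mem_nhds (lt_add_one _))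
  filter_upwards [h2] with m hm
  refine hm.le.trans ?_
  have h3 : ‖y a b‖ + 1 ≤ ∑ b, (‖y a b‖ + 1) :=
    Finset.single_le_sum (f := fun b => ‖y a b‖ + 1) (fun _ _ => by positivity) (Finset.mem_univ b)
  exact h3.trans (Finset.single_le_sum (f := fun a => ∑ b, (‖y a b‖ + 1))
    (fun _ _ => by positivity) (Finset.mem_univ a))

theorem eig_bd {N : ℕ} (H L : Mat N) (z : ℂ) (C : ℝ) (hL : L ≠ 0)
    (h : H * L - L * H = z • L) (hH : ∀ a b, ‖H a b‖ ≤ C) : ‖z‖ ≤ 2 * N * C := by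
  obtain ⟨a₀, b₀, h0⟩ : ∃ a b, L a b ≠ 0 := by
    by_contra hc
    push Not at hc
    exact hL (Matrix.ext hc)
  obtain ⟨p, -, hp⟩ := Finset.exists_max_image (Finset.univ : Finset (Fin N × Fin N))
    (fun p => ‖L p.1 p.2‖) ⟨(a₀, b₀), Finset.mem_univ _⟩
  have hpos : 0 < ‖L p.1 p.2‖ :=
    (norm_pos_iff.mpr h0).trans_le (hp (a₀, b₀) (Finset.mem_univ _))
  have hC : 0 ≤ C := (norm_nonneg _).trans (hH a₀ b₀)
  have e1 : z * L p.1 p.2 = ∑ c, H p.1 c * L c p.2 - ∑ c, L p.1 c * H c p.2 := by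
    have := congrFun (congrFun h p.1) p.2
    simp only [Matrix.sub_apply, Matrix.mul_apply, Matrix.smul_apply, smul_eq_mul] at this
    exact this.symm
  have b1 : ‖∑ c, H p.1 c * L c p.2‖ ≤ N * (C * ‖L p.1 p.2‖) := by
    refine (norm_sum_le _ _).trans ?_
    have : ∑ c, ‖H p.1 c * L c p.2‖ ≤ ∑ _c : Fin N, C * ‖L p.1 p.2‖ :=
      Finset.sum_le_sum fun c _ => by
        rw [norm_mul]
        exact mul_le_mul (hH _ _) (hp (c, p.2) (Finset.mem_univ _)) (norm_nonneg _) hC
    simpa using this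
  have b2 : ‖∑ c, L p.1 c * H c p.2‖ ≤ N * (C * ‖L p.1 p.2‖) := by
    refine (norm_sum_le _ _).trans ?_
    have : ∑ c, ‖L p.1 c * H c p.2‖ ≤ ∑ _c : Fin N, C * ‖L p.1 p.2‖ :=
      Finset.sum_le_sum fun c _ => by
        rw [norm_mul, mul_comm]
        exact mul_le_mul (hH _ _) (hp (p.1, c) (Finset.mem_univ _)) (norm_nonneg _) hC
    simpa using this
  have b3 : ‖z‖ * ‖L p.1 p.2‖ ≤ (2 * N * C) * ‖L p.1 p.2‖ := by
    rw [← norm_mul, e1]
    refine (norm_sub_le _ _).trans ?_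
    linarith
  exact le_of_mul_le_mul_right b3 hpos

theorem aeval_conj {N : ℕ} (g : GLN N) (x : Mat N) (ℓ : Polynomial ℂ) :
    Polynomial.aeval ((g : Mat N) * x * ((g⁻¹ : GLN N) : Mat N)) ℓ =
      (g : Mat N) * Polynomial.aeval x ℓ * ((g⁻¹ : GLN N) : Mat N) := by
  induction ℓ using Polynomial.induction_on' with
  | add p q hp hq => rw [map_add, map_add, hp, hq, mul_add, add_mul]
  | monomial n a =>
    rw [Polynomial.aeval_monomial, Polynomial.aeval_monomial, Units.conj_pow,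
      Algebra.algebraMap_eq_smul_one, smul_mul_assoc, smul_mul_assoc, one_mul, one_mul,
      mul_smul_comm, smul_mul_assoc]

theorem aeval_cont {N : ℕ} (ℓ : Polynomial ℂ) :
    Continuous fun x : Mat N => Polynomial.aeval x ℓ := ℓ.continuous_aeval

theorem wt_mul {R : Type} [CommRing R] {ε : R →+* ℤ} {lam : Pt R → ℝ} (hl : Lam ε lam)
    {y : R} (hy : y ∈ RingHom.ker ε) (c : Pt R) :
    wt lam 0 1 (y * y) c * wt lam 1 0 (y * y) c = c y ^ 4 := by
  by_cases hc : c = org ε
  · have : c y = 0 := by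
      rw [hc]
      have : ε y = 0 := hy
      simp [org, this]
    simp [wt, this]
  · have h0 : (lam c : ℂ) ≠ 0 := by exact_mod_cast (hl.pos c hc).ne'
    unfold wt
    have e1 : (((1 : Fin 5) : ℕ) : ℤ) - (((0 : Fin 5) : ℕ) : ℤ) = 1 := by decide
    have e2 : (((0 : Fin 5) : ℕ) : ℤ) - (((1 : Fin 5) : ℕ) : ℤ) = -1 := by decide
    rw [e1, e2, map_mul, zpow_one, _root_.zpow_neg_one]
    field_simp

theorem br_eq {N : ℕ} {κ : Type} [Fintype κ] {L : κ → Fin 5 → Fin 5 → Mat N} (hL : GlFam L)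
    (u v : κ → ℂ) (k : κ) :
    ((∑ l, u l • L l 0 1) * (∑ l, v l • L l 1 0) - (∑ l, v l • L l 1 0) * (∑ l, u l • L l 0 1)) *
        L k 0 1 -
      L k 0 1 * ((∑ l, u l • L l 0 1) * (∑ l, v l • L l 1 0) -
        (∑ l, v l • L l 1 0) * (∑ l, u l • L l 0 1)) = (2 * (u k * v k)) • L k 0 1 := by
  classical
  have e1 : (∑ l, u l • L l 0 1) * (∑ l, v l • L l 1 0) -
      (∑ l, v l • L l 1 0) * (∑ l, u l • L l 0 1) = ∑ l, (u l * v l) • (L l 0 0 - L l 1 1) := by
    rw [Finset.sum_mul_sum, Finset.sum_mul_sum, Finset.sum_comm (f := fun i j =>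
      (v i • L i 1 0) * (u j • L j 0 1)), ← Finset.sum_sub_distrib]
    refine Finset.sum_congr rfl fun l _ => ?_
    rw [← Finset.sum_sub_distrib, Finset.sum_eq_single l]
    · have := hL.rel l 0 1 1 0
      simp only [if_true] at this
      rw [← this, smul_mul_smul_comm, smul_mul_smul_comm, mul_comm (v l), smul_sub]
    · intro l' _ hl'
      rw [smul_mul_smul_comm, smul_mul_smul_comm, mul_comm (v l'),
        (hL.comm l l' hl'.symm 0 1 1 0).eq, sub_self]
    · intro h; exact absurd (Finset.mem_univ l) h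
  rw [e1, Finset.sum_mul, Finset.mul_sum, ← Finset.sum_sub_distrib, Finset.sum_eq_single k]
  · have h1 := hL.rel k 0 0 0 1
    have h2 := hL.rel k 1 1 0 1
    simp only [if_true, show ¬ ((1 : Fin 5) = 0) by decide, if_false, sub_zero, zero_sub] at h1 h2
    rw [smul_mul_assoc, mul_smul_comm, ← smul_sub, mul_comm 2, mul_smul (u k * v k) 2, two_smul]
    congr 1
    have : (L k 0 0 - L k 1 1) * L k 0 1 - L k 0 1 * (L k 0 0 - L k 1 1) =
        (L k 0 0 * L k 0 1 - L k 0 1 * L k 0 0) - (L k 1 1 * L k 0 1 - L k 0 1 * L k 1 1) := by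
      noncomm_ring
    rw [this, h1, h2, sub_neg_eq_add]
  · intro l _ hl
    have h1 := (hL.comm l k hl 0 0 0 1).sub_left (hL.comm l k hl 1 1 0 1)
    rw [smul_mul_assoc, mul_smul_comm, h1.eq, sub_self]
  · intro h; exact absurd (Finset.mem_univ k) h

theorem comm_lim {N : ℕ} {τ : Type} {F : Filter τ} [F.NeBot] {x y : τ → Mat N} {x₀ y₀ : Mat N}
    (hx : Tendsto x F (𝓝 x₀)) (hy : Tendsto y F (𝓝 y₀)) (h : ∀ m, Commute (x m) (y m)) :
    Commute x₀ y₀ :=
  tendsto_nhds_unique (hx.mul hy) ((hy.mul hx).congr fun m => (h m).eq.symm)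

theorem ct_lim {N : ℕ} {τ : Type} {F : Filter τ} {x : τ → Mat N} {x₀ : Mat N}
    (hx : Tendsto x F (𝓝 x₀)) : Tendsto (fun m => (x m)ᴴ) F (𝓝 x₀ᴴ) :=
  ((continuous_id.matrix_conjTranspose).tendsto x₀).comp hx

theorem rep_val {N : ℕ} {G : Subgroup (GLN N)} {Γ : Type} [Group Γ] {τ : Type} {F : Filter τ}
    {ρs : τ → Rep Γ G} {ρ : Rep Γ G} (h : Tendsto ρs F (𝓝 ρ)) (γ : Γ) :
    Tendsto (fun m => (ρs m).1 γ) F (𝓝 (ρ.1 γ)) :=
  (((continuous_apply γ).comp continuous_subtype_val).tendsto ρ).comp h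

theorem pt_lim {R : Type} [CommRing R] {τ : Type} (U : Ultrafilter τ) (c : τ → Pt R)
    (h : ∀ a, ∃ y, Tendsto (fun m => c m a) U (𝓝 y)) : ∃ c₀ : Pt R, Tendsto c U (𝓝 c₀) := by
  choose y hy using h
  let c₀ : Pt R :=
    { toFun := y
      map_one' := tendsto_nhds_unique (hy 1) (by simp)
      map_mul' := fun a b => tendsto_nhds_unique (hy (a * b))
        (((hy a).mul (hy b)).congr fun m => (map_mul _ _ _).symm)
      map_zero' := tendsto_nhds_unique (hy 0) (by simp)
      map_add' := fun a b => tendsto_nhds_unique (hy (a + b))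
        (((hy a).add (hy b)).congr fun m => (map_add _ _ _).symm) }
  refine ⟨c₀, ?_⟩
  rw [nhds_induced, tendsto_comap_iff, tendsto_pi_nhds]
  exact hy

theorem hom_lim {N : ℕ} {Γ : Type} [Group Γ] {τ : Type} (U : Ultrafilter τ)
    (e : τ → Γ →* GLN N) (h : ∀ γ, ∃ y, Tendsto (fun m => (e m γ : Mat N)) U (𝓝 y)) :
    ∃ e₀ : Γ →* GLN N, ∀ γ, Tendsto (fun m => (e m γ : Mat N)) U (𝓝 (e₀ γ : Mat N)) := by
  choose y hy using h
  have hm : ∀ γ δ, y (γ * δ) = y γ * y δ := fun γ δ => tendsto_nhds_unique (hy (γ * δ))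
    (((hy γ).mul (hy δ)).congr fun m => by rw [map_mul, Units.val_mul])
  have h1 : y 1 = 1 := tendsto_nhds_unique (hy 1) (by simp)
  let f : Γ →* Mat N := ⟨⟨y, h1⟩, hm⟩
  exact ⟨f.toHomUnits, hy⟩

end Cont

open Cont in
theorem cont_thm (hNu : NuStmt) (hGl : GlStmt) (hHyp : HypBdStmt) (hNf : NfTriStmt)
    (hEll : EllStmt) (hLie : LieStmt) : ContStmt := by
  intro N G hG R _ ε lam hl κ _ τ U Ds ρs σs ρ hD hz hrep hc hlim
  choose g hg hc using hc
  have hT := fun m => hNf N G hG R ε lam hl κ (Ds m) (hD m)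
  have hval : ∀ γ, Tendsto (fun m => ((ρs m).1 γ : Mat N)) U (𝓝 (ρ.1 γ : Mat N)) := fun γ =>
    (Units.continuous_val.tendsto _).comp (rep_val hlim γ)
  have hinv : ∀ γ, Tendsto (fun m => ((((ρs m).1 γ)⁻¹ : GLN N) : Mat N)) U
      (𝓝 (((ρ.1 γ)⁻¹ : GLN N) : Mat N)) := fun γ =>
    (Units.continuous_coe_inv.tendsto _).comp (rep_val hlim γ)
  -- the matrices
  obtain ⟨CL, hCL⟩ := hGl.upper N
  have hL : ∀ k a b, ∃ y, Tendsto (fun m => (Ds m).L k a b) U (𝓝 y) := fun k a b =>
    hEll.ulim N τ U _ CL (Eventually.of_forall fun m =>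
      hCL κ (Ds m).L (hD m).gl (hD m).star k a b)
  choose L hL using hL
  -- the points
  obtain ⟨ℓ, hℓ⟩ := hNu N
  have hcI : ∀ k, ∀ y ∈ RingHom.ker ε, ∃ w, Tendsto (fun m => (Ds m).c k y) U (𝓝 w) := by
    intro k y hy
    let P : τ → Mat N := fun m => Polynomial.aeval ((ρs m).1 (X _ 0 1 (y * y)) : Mat N) ℓ
    let Q : τ → Mat N := fun m => Polynomial.aeval ((ρs m).1 (X _ 1 0 (y * y)) : Mat N) ℓ
    have hP := ((aeval_cont ℓ).tendsto _).comp (hval (X _ 0 1 (y * y)))
    have hQ := ((aeval_cont ℓ).tendsto _).comp (hval (X _ 1 0 (y * y)))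
    obtain ⟨C, hC⟩ := bdd_of_tendsto (x := fun m => P m * Q m - Q m * P m)
      ((hP.mul hQ).sub (hQ.mul hP))
    refine ulimC U _ (1 + N * |C|) ?_
    filter_upwards [hC] with m hm
    by_cases h0 : (Ds m).L k = 0
    · have : ε y = 0 := hy
      rw [hz m k h0]
      simp only [org, RingHom.comp_apply, this, map_zero, norm_zero]
      positivity
    have h1 := hGl.off N κ _ (hD m).gl k h0 0 1 (by decide)
    have eP : ((Ds m).tri lam).ν 0 1 (y * y) =
        (g m : Mat N) * P m * (((g m)⁻¹ : GLN N) : Mat N) := by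
      rw [hℓ G R _ _ _ (hT m) (hrep m) 0 1 y y (by decide) hy hy, hc m, Units.val_mul,
        Units.val_mul, aeval_conj]
    have eQ : ((Ds m).tri lam).ν 1 0 (y * y) =
        (g m : Mat N) * Q m * (((g m)⁻¹ : GLN N) : Mat N) := by
      rw [hℓ G R _ _ _ (hT m) (hrep m) 1 0 y y (by decide) hy hy, hc m, Units.val_mul,
        Units.val_mul, aeval_conj]
    have hb := br_eq (hD m).gl (fun l => wt lam 0 1 (y * y) ((Ds m).c l))
      (fun l => wt lam 1 0 (y * y) ((Ds m).c l)) k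
    rw [wt_mul hl hy] at hb
    change (((Ds m).tri lam).ν 0 1 (y * y) * ((Ds m).tri lam).ν 1 0 (y * y) -
      ((Ds m).tri lam).ν 1 0 (y * y) * ((Ds m).tri lam).ν 0 1 (y * y)) * (Ds m).L k 0 1 -
      (Ds m).L k 0 1 * (((Ds m).tri lam).ν 0 1 (y * y) * ((Ds m).tri lam).ν 1 0 (y * y) -
      ((Ds m).tri lam).ν 1 0 (y * y) * ((Ds m).tri lam).ν 0 1 (y * y)) = _ at hb
    rw [eP, eQ] at hb
    set L' : Mat N := (((g m)⁻¹ : GLN N) : Mat N) * (Ds m).L k 0 1 * (g m : Mat N) with hL'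
    have eL : (Ds m).L k 0 1 = (g m : Mat N) * L' * (((g m)⁻¹ : GLN N) : Mat N) := by
      rw [hL']
      simp only [mul_assoc, Units.mul_inv_cancel_left, Units.mul_inv, mul_one]
    have h2 : L' ≠ 0 := by
      intro h
      apply h1
      rw [eL, h, mul_zero, zero_mul]
    have h3 : (P m * Q m - Q m * P m) * L' - L' * (P m * Q m - Q m * P m) =
        (2 * (Ds m).c k y ^ 4) • L' := by
      have h4 := congrArg (fun Z : Mat N => (((g m)⁻¹ : GLN N) : Mat N) * Z * (g m : Mat N)) hb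
      simp only [mul_smul_comm, smul_mul_assoc] at h4
      rw [← hL'] at h4
      rw [← h4, eL]
      simp only [mul_sub, sub_mul, mul_assoc, Units.inv_mul_cancel_left, Units.inv_mul, mul_one]
    have h5 := eig_bd _ _ _ |C| h2 h3 fun a b => (hm a b).trans (le_abs_self C)
    rw [norm_mul, norm_pow, Complex.norm_two] at h5
    by_contra h6
    push Not at h6
    have h7 : (0 : ℝ) ≤ N * |C| := by positivity
    have h8 : ‖(Ds m).c k y‖ ≤ ‖(Ds m).c k y‖ ^ 4 := le_self_pow₀ (by linarith) (by norm_num)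
    linarith
  have hcA : ∀ k, ∃ c₀ : Pt R, Tendsto (fun m => (Ds m).c k) U (𝓝 c₀) := by
    intro k
    refine pt_lim U _ fun a => ?_
    have hy : a - ((ε a : ℤ) : R) ∈ RingHom.ker ε := by
      rw [RingHom.mem_ker]; simp
    obtain ⟨w, hw⟩ := hcI k _ hy
    refine ⟨w + ((ε a : ℤ) : ℂ), (hw.add_const _).congr fun m => ?_⟩
    simp
  choose c hc' using hcA
  -- the unitary part
  obtain ⟨e, he⟩ := hom_lim U (fun m => (Ds m).e) fun γ =>
    hEll.ulim N τ U _ 1 (Eventually.of_forall fun m => hEll.uni_bdd N _ ((hD m).eU γ))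
  -- the hyperbolic part
  have hA : ∀ γ, ∃ y, Tendsto (fun m => (Ds m).A γ) U (𝓝 y) := by
    have hA1 : ∀ m, (Ds m).A 1 = 0 := fun m => by
      have := (hD m).Aadd 1 1
      rw [mul_one] at this
      exact left_eq_add.mp this
    intro γ
    have hγ : γ ∈ Subgroup.closure (gens (RingHom.ker ε) (X (RingHom.ker ε))) := by
      rw [closure_gens_X]; trivial
    induction hγ using Subgroup.closure_induction with
    | mem γ hγ =>
      obtain ⟨i, j, a, ha, rfl⟩ := hγ
      obtain ⟨C₁, h₁⟩ := bdd_of_tendsto (hval (X _ i j a))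
      obtain ⟨C₂, h₂⟩ := bdd_of_tendsto (hinv (X _ i j a))
      obtain ⟨C', hC'⟩ := hHyp N (max C₁ C₂)
      refine hEll.ulim N τ U _ C' ?_
      filter_upwards [h₁, h₂] with m m₁ m₂
      have hj := jd_of (hT m) (hrep m) ha
      rw [hc m] at hj
      exact hC' _ _ _ _ _ hj ((hD m).AH _) (fun a b => (m₁ a b).trans (le_max_left _ _))
        (fun a b => (m₂ a b).trans (le_max_right _ _))
    | one => exact ⟨0, by simp [hA1]⟩
    | mul γ δ _ _ h₁ h₂ =>
      obtain ⟨y₁, h₁⟩ := h₁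
      obtain ⟨y₂, h₂⟩ := h₂
      exact ⟨y₁ + y₂, (h₁.add h₂).congr fun m => ((hD m).Aadd _ _).symm⟩
    | inv γ _ h₁ =>
      obtain ⟨y₁, h₁⟩ := h₁
      refine ⟨-y₁, h₁.neg.congr fun m => ?_⟩
      have := (hD m).Aadd γ γ⁻¹
      rw [mul_inv_cancel, hA1] at this
      exact neg_eq_of_add_eq_zero_right this.symm
  choose A hA using hA
  refine ⟨⟨c, L, e, A⟩, ⟨⟨?_, ?_, ?_⟩, ?_, ?_, ?_, ?_, ?_, ?_, ?_, ?_, ?_, ?_, ?_⟩, hc', hL, he, hA⟩
  · intro k a b p q
    refine tendsto_nhds_unique (((hL k a b).mul (hL k p q)).sub ((hL k p q).mul (hL k a b))) ?_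
    have h1 : Tendsto (fun m => if b = p then (Ds m).L k a q else 0) U
        (𝓝 (if b = p then L k a q else 0)) := by
      split_ifs
      · exact hL k a q
      · exact tendsto_const_nhds
    have h2 : Tendsto (fun m => if q = a then (Ds m).L k p b else 0) U
        (𝓝 (if q = a then L k p b else 0)) := by
      split_ifs
      · exact hL k p b
      · exact tendsto_const_nhds
    exact (h1.sub h2).congr fun m => ((hD m).gl.rel k a b p q).symm
  · intro k
    refine tendsto_nhds_unique (tendsto_finsetSum Finset.univ fun a _ => hL k a a) ?_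
    exact tendsto_const_nhds.congr fun m => ((hD m).gl.tr k).symm
  · intro k k' hk a b p q
    exact comm_lim (hL k a b) (hL k' p q) fun m => (hD m).gl.comm k k' hk a b p q
  · intro k a b
    exact tendsto_nhds_unique (ct_lim (hL k a b))
      ((hL k b a).congr fun m => ((hD m).star k a b).symm)
  · intro k a b
    exact (hLie.closedL N G hG).mem_of_tendsto (hL k a b)
      (Eventually.of_forall fun m => (hD m).LG k a b)
  · intro γ
    exact hLie.closedG N G hG _ (mem_closure_of_tendsto (he γ)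
      (Eventually.of_forall fun m => ⟨_, (hD m).eG γ, rfl⟩))
  · intro γ
    exact tendsto_nhds_unique ((ct_lim (he γ)).mul (he γ))
      (tendsto_const_nhds.congr fun m => ((hD m).eU γ).symm)
  · intro γ
    exact (hLie.closedL N G hG).mem_of_tendsto (hA γ)
      (Eventually.of_forall fun m => (hD m).AG γ)
  · intro γ
    exact tendsto_nhds_unique (ct_lim (hA γ)) ((hA γ).congr fun m => ((hD m).AH γ).symm)
  · intro γ δ
    exact tendsto_nhds_unique (hA (γ * δ))
      (((hA γ).add (hA δ)).congr fun m => ((hD m).Aadd γ δ).symm)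
  · intro γ δ
    exact comm_lim (he γ) (hA δ) fun m => (hD m).eA γ δ
  · intro γ δ
    exact comm_lim (hA γ) (hA δ) fun m => (hD m).AA γ δ
  · intro γ k a b
    exact comm_lim (he γ) (hL k a b) fun m => (hD m).eL γ k a b
  · intro γ k a b
    exact comm_lim (hA γ) (hL k a b) fun m => (hD m).AL γ k a b

end Pool.Agent.MP_94b95a_al.Fl

end MrgPart4

-- ======== part 5: formerly Pool.Agent.MP_94b95a_al.fl.Degen
section MrgPart5

/-! Degeneration of a projector to a critical point along a real diagonal direction. -/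

namespace Pool.Agent.MP_94b95a_al.Fl

open NormedSpace Matrix Filter Topology Kn

namespace Degen

variable {N : ℕ}

theorem act_apply (h : GLN N) (w : Op N) (X : Mat N) : act h w X =
    (h : Mat N) * w (((h⁻¹ : GLN N) : Mat N) * X * (h : Mat N)) * ((h⁻¹ : GLN N) : Mat N) := by
  simp only [act, Ad, LinearMap.comp_apply, LinearMap.mulLeftRight_apply, inv_inv]

theorem act_mul (g h : GLN N) (w : Op N) : act (g * h) w = act g (act h w) := by
  ext1 X
  simp only [act_apply, _root_.mul_inv_rev, Units.val_mul, Matrix.mul_assoc]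

theorem expand (φ : Op N) (X : Mat N) : φ X = ∑ a, ∑ b, X a b • φ (single a b 1) := by
  conv_lhs => rw [matrix_eq_sum_single X]
  simp only [map_sum, ← map_smul, smul_single, smul_eq_mul, mul_one]

/-- the squared norm of an operator -/
noncomputable def F (φ : Op N) : ℝ := ∑ a, ∑ b, fn (φ (single a b 1))

theorem F_nonneg (φ : Op N) : 0 ≤ F φ :=
  Finset.sum_nonneg fun _ _ => Finset.sum_nonneg fun _ _ => fn_nonneg _

/-- a unitary matrix as a unit -/
def uU {u : Mat N} (hu : uᴴ * u = 1) : GLN N := ⟨u, uᴴ, uni_symm hu, hu⟩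

/-- the exponential of a real diagonal matrix as a unit -/
noncomputable def eU (D : Fin N → ℝ) : GLN N :=
  ⟨ex D, ex (-D), ex_neg D, mul_eq_one_comm.1 (ex_neg D)⟩

theorem F_swap (φ : Op N) : F φ = ∑ p, ∑ q, fn (of fun d c => φ (single c d 1) p q) := by
  simp only [F, fn, of_apply]
  rw [Finset.sum_comm, ← Finset.sum_product', ← Finset.sum_product' (f := fun p q => ∑ d, ∑ c,
    ‖φ (single c d 1) p q‖ ^ 2)]
  simp only [← Finset.sum_product' (s := (Finset.univ : Finset (Fin N)))]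
  exact Finset.sum_comm

theorem entry_F (φ : Op N) (a b p q : Fin N) : ‖φ (single a b 1) p q‖ ^ 2 ≤ F φ :=
  (entry_le _ p q).trans ((Finset.single_le_sum (f := fun b => fn (φ (single a b 1)))
    (fun _ _ => fn_nonneg _) (Finset.mem_univ b)).trans (Finset.single_le_sum
      (f := fun a => ∑ b, fn (φ (single a b 1)))
      (fun _ _ => Finset.sum_nonneg fun _ _ => fn_nonneg _) (Finset.mem_univ a)))

theorem F_uni {u : Mat N} (hu : uᴴ * u = 1) (φ : Op N) : F (act (uU hu) φ) = F φ := by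
  have h1 : F (act (uU hu) φ) = F (φ ∘ₗ Ad (uU hu)⁻¹) :=
    Finset.sum_congr rfl fun a _ => Finset.sum_congr rfl fun b _ => fn_conj hu _
  rw [h1, F_swap, F_swap φ]
  refine Finset.sum_congr rfl fun p _ => Finset.sum_congr rfl fun q _ => ?_
  rw [← fn_conj hu (of fun d c => φ (single c d 1) p q)]
  congr 1
  ext b a
  have e : (φ ∘ₗ Ad (uU hu)⁻¹) (single a b 1) = φ (uᴴ * single a b 1 * u) := rfl
  have e2 : ∀ c d, (uᴴ * single a b (1 : ℂ) * u) c d = uᴴ c a * u b d := fun c d => by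
    simp [mul_apply, single, ite_and]
  rw [of_apply, e, expand]
  simp only [Matrix.sum_apply, Matrix.smul_apply, smul_eq_mul, e2]
  simp only [mul_apply, of_apply, Finset.sum_mul]
  exact Finset.sum_congr rfl fun c _ => Finset.sum_congr rfl fun d _ => by ring

/-- the weight of an entry -/
def ow (ε : (Fin N × Fin N) × Fin N × Fin N) : (Fin N → ℝ) →ₗ[ℝ] ℝ where
  toFun D := (D ε.2.1 - D ε.2.2) - (D ε.1.1 - D ε.1.2)
  map_add' D D' := by simp only [Pi.add_apply]; ring
  map_smul' c D := by simp only [Pi.smul_apply, smul_eq_mul, RingHom.id_apply]; ring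

theorem act_eU (D : Fin N → ℝ) (φ : Op N) (a b p q : Fin N) : act (eU D) φ (single a b 1) p q =
    (Real.exp (ow ((a, b), p, q) D) : ℝ) * φ (single a b 1) p q := by
  have e : ex (-D) * single a b (1 : ℂ) * ex D =
      ((Real.exp ((-D) a + D b) : ℝ) : ℂ) • single a b (1 : ℂ) := by
    ext c d
    rw [ex_apply, Matrix.smul_apply, smul_eq_mul]
    by_cases h : a = c ∧ b = d
    · rw [h.1, h.2]
    · simp [h]
  have e2 : act (eU D) φ (single a b 1) = ex D * φ (ex (-D) * single a b 1 * ex D) * ex (-D) :=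
    act_apply _ _ _
  rw [e2, ex_apply, e, map_smul, Matrix.smul_apply, smul_eq_mul, ← mul_assoc,
    ← Complex.ofReal_mul, ← Real.exp_add]
  congr 3
  simp only [ow, Pi.neg_apply, LinearMap.coe_mk, AddHom.coe_mk]
  ring

open scoped ComplexOrder in
theorem kak (h : GLN N) : ∃ (k u : Mat N) (hk : kᴴ * k = 1) (hu : uᴴ * u = 1) (D : Fin N → ℝ),
    h = uU hk * (eU D * uU hu) := by
  have hp : ((h : Mat N)ᴴ * (h : Mat N)).PosDef :=
    PosDef.conjTranspose_mul_self _ (mulVec_injective_of_isUnit h.isUnit)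
  have hu : (hp.1.eigenvectorUnitary : Mat N)ᴴ * hp.1.eigenvectorUnitary = 1 :=
    hp.1.eigenvectorUnitary.2.1
  have hs : (h : Mat N)ᴴ * (h : Mat N) = hm hp.1.eigenvectorUnitary hp.1.eigenvalues :=
    hp.1.spectral_theorem
  have hpos := hp.eigenvalues_pos
  generalize hp.1.eigenvalues = l at hs hpos
  generalize (hp.1.eigenvectorUnitary : Mat N) = u at hs hu
  let D : Fin N → ℝ := fun a => Real.log (l a) / 2
  have h1 : diagonal (fun a => (l a : ℂ)) = ex D * ex D := by
    rw [← ex_add, ex]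
    congr 1
    funext a
    rw [Pi.add_apply, add_halves, Real.exp_log (hpos a)]
  have h2 : (ex (-D))ᴴ = ex (-D) := by
    rw [ex, diagonal_conjTranspose]
    congr 1
    funext a
    exact Complex.conj_ofReal _
  have h3 : ex (-D) * ex D = 1 := mul_eq_one_comm.1 (ex_neg D)
  refine ⟨h * u * ex (-D), uᴴ, ?_, uni_star hu, D, Units.ext ?_⟩
  · calc ((h : Mat N) * u * ex (-D))ᴴ * (h * u * ex (-D))
        = ex (-D) * (uᴴ * ((h : Mat N)ᴴ * h) * u) * ex (-D) := by
          simp only [conjTranspose_mul, h2, Matrix.mul_assoc]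
      _ = ex (-D) * ((uᴴ * u) * (ex D * ex D) * (uᴴ * u)) * ex (-D) := by
          rw [hs, hm, h1]
          simp only [Matrix.mul_assoc]
      _ = 1 := by
          rw [hu, Matrix.one_mul, Matrix.mul_one, ← Matrix.mul_assoc, h3, Matrix.one_mul, ex_neg]
  · show (h : Mat N) = h * u * ex (-D) * (ex D * uᴴ)
    rw [Matrix.mul_assoc, ← Matrix.mul_assoc (ex (-D)), h3, Matrix.one_mul, Matrix.mul_assoc,
      uni_symm hu, Matrix.mul_one]

theorem lin {I τ : Type} [Fintype I] (o : I → (Fin N → ℝ) →ₗ[ℝ] ℝ) (U : Filter τ) [U.NeBot]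
    (D : τ → Fin N → ℝ) (S : I → Prop) (r : I → ℝ)
    (h : ∀ ε, S ε → Tendsto (fun m => Real.exp (o ε (D m))) U (𝓝 (r ε))) :
    ∃ D' H : Fin N → ℝ, ∀ ε, S ε → (r ε ≠ 0 → Real.exp (o ε D') = r ε ∧ o ε H = 0) ∧
      (r ε = 0 → 0 < o ε H) := by
  classical
  let L : (Fin N → ℝ) →ₗ[ℝ] I → ℝ := LinearMap.pi fun ε => if S ε ∧ r ε ≠ 0 then o ε else 0
  have hL : ∀ ε, S ε → r ε ≠ 0 → ∀ x, L x ε = o ε x := fun ε h1 h2 x => by
    simp only [L, LinearMap.pi_apply, if_pos (And.intro h1 h2)]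
  obtain ⟨s₀, hs₀⟩ := L.rangeRestrict.exists_rightInverse_of_surjective L.range_rangeRestrict
  obtain ⟨s, hs⟩ := LinearMap.exists_extend s₀
  have h1 : ∀ x, L (s (L x)) = L x := fun x => by
    have e : s (L x) = s₀ (L.rangeRestrict x) := LinearMap.congr_fun hs (L.rangeRestrict x)
    rw [e]
    exact congrArg Subtype.val (LinearMap.congr_fun hs₀ (L.rangeRestrict x))
  have h2 : Tendsto (fun m => L (D m)) U
      (𝓝 fun ε => if S ε ∧ r ε ≠ 0 then Real.log (r ε) else 0) := tendsto_pi_nhds.2 fun ε => by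
    split_ifs with hε
    · simpa only [Real.log_exp, hL ε hε.1 hε.2] using (h ε hε.1).log hε.2
    · simp only [L, LinearMap.pi_apply, if_neg hε, LinearMap.zero_apply, tendsto_const_nhds]
  generalize (fun ε => if S ε ∧ r ε ≠ 0 then Real.log (r ε) else 0) = y at h2
  have h3 : ∀ ε, Tendsto (fun m => Real.exp (o ε (s (L (D m))))) U (𝓝 (Real.exp (o ε (s y)))) :=
    fun ε => ((((o ε ∘ₗ s).continuous_of_finiteDimensional.tendsto y).comp h2)).rexp
  have h4 : ∀ᶠ m in U, ∀ ε, S ε → r ε = 0 → o ε (D m) < o ε (s (L (D m))) :=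
    eventually_all.2 fun ε => by
      by_cases hε : S ε ∧ r ε = 0
      · filter_upwards [(h ε hε.1).eventually_lt (h3 ε) (hε.2.trans_lt (Real.exp_pos _))]
          with m hm _ _ using Real.exp_lt_exp.1 hm
      · exact Eventually.of_forall fun m a b => absurd ⟨a, b⟩ hε
  obtain ⟨m, hm⟩ := h4.exists
  refine ⟨s y, s (L (D m)) - D m, fun ε hε => ⟨fun hr => ⟨?_, ?_⟩, fun hr => ?_⟩⟩
  · refine tendsto_nhds_unique (h3 ε) ((h ε hε).congr fun m => ?_)
    rw [← hL ε hε hr (s _), h1, hL ε hε hr]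
  · rw [map_sub, ← hL ε hε hr (s _), h1, hL ε hε hr, sub_self]
  · rw [map_sub]
    exact sub_pos.2 (hm ε hε hr)

theorem tend {τ : Type} {U : Filter τ} {φ : τ → Op N} {ψ : Op N}
    (h : ∀ a b, Tendsto (fun m => φ m (single a b 1)) U (𝓝 (ψ (single a b 1))))
    {X : τ → Mat N} {Y : Mat N} (hX : Tendsto X U (𝓝 Y)) :
    Tendsto (fun m => φ m (X m)) U (𝓝 (ψ Y)) := by
  rw [expand ψ]
  refine Tendsto.congr (fun m => (expand _ _).symm)
    (tendsto_finsetSum _ fun a _ => tendsto_finsetSum _ fun b _ => Tendsto.smul ?_ (h a b))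
  exact tendsto_pi_nhds.1 (tendsto_pi_nhds.1 hX a) b

theorem gp_lim {τ : Type} {U : Filter τ} [U.NeBot] {φ : τ → Op N} {ψ : Op N} (hg : ∀ m, GP (φ m))
    (h : ∀ a b, Tendsto (fun m => φ m (single a b 1)) U (𝓝 (ψ (single a b 1)))) : GP ψ := by
  have h1 : ∀ X, Tendsto (fun m => φ m X) U (𝓝 (ψ X)) := fun X => tend h tendsto_const_nhds
  have h2 : Continuous (trace : Mat N → ℂ) := continuous_id.matrix_trace
  refine ⟨fun X => tendsto_nhds_unique (tend h (h1 X)) ((h1 X).congr fun m => ((hg m).idem X).symm),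
    fun X Y => tendsto_nhds_unique ((h2.tendsto _).comp ((h1 X).mul_const Y))
      (((h2.tendsto _).comp ((h1 Y).const_mul X)).congr fun m => ((hg m).symm X Y).symm),
    fun X Y => ?_⟩
  have h3 := ((h1 X).mul (h1 Y)).sub ((h1 Y).mul (h1 X))
  exact tendsto_nhds_unique (tend h h3) (h3.congr fun m => ((hg m).lie X Y).symm)

theorem F_lim {τ : Type} {U : Filter τ} {φ : τ → Op N} {ψ : Op N}
    (h : ∀ a b, Tendsto (fun m => φ m (single a b 1)) U (𝓝 (ψ (single a b 1)))) (g : GLN N) :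
    Tendsto (fun m => F (act g (φ m))) U (𝓝 (F (act g ψ))) := by
  refine tendsto_finsetSum _ fun a _ => tendsto_finsetSum _ fun b _ => (cont_fn.tendsto _).comp ?_
  simp only [act_apply]
  exact ((tend h tendsto_const_nhds).const_mul _).mul_const _

open scoped Matrix.Norms.Operator in
theorem crit {w : Op N} (h : ∀ g, F w ≤ F (act g w)) : Crit w := by
  have key : ∀ Y : Mat N, (∑ a, ∑ b,
      ((Y * w (single a b 1) - w (single a b 1) * Y - w (Y * single a b 1 - single a b 1 * Y)) *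
        (w (single a b 1))ᴴ).trace).re = 0 := fun Y => by
    have e1 : ∀ Z : Mat N, HasDerivAt (fun t : ℝ => exp (t • Z)) Z 0 := fun Z => by
      have h1 := hasDerivAt_exp_smul_const (𝕂 := ℝ) Z 0
      rw [zero_smul, exp_zero, one_mul] at h1
      exact h1
    have e2 : ∀ E : Mat N, HasDerivAt
        (fun t : ℝ => exp (t • Y) * w (exp (t • -Y) * E * exp (t • Y)) * exp (t • -Y))
        (Y * w E - w E * Y - w (Y * E - E * Y)) 0 := fun E => by
      have h1 : HasDerivAt (fun t : ℝ => w (exp (t • -Y) * E * exp (t • Y)))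
          (w (-Y * E * exp ((0 : ℝ) • Y) + exp ((0 : ℝ) • -Y) * E * Y)) 0 :=
        (w.restrictScalars ℝ).toContinuousLinearMap.hasFDerivAt.comp_hasDerivAt (0 : ℝ)
          (((e1 (-Y)).mul_const E).mul (e1 Y))
      have h2 := ((e1 Y).mul h1).mul (e1 (-Y))
      refine h2.congr_deriv ?_
      simp only [Pi.mul_apply, zero_smul, exp_zero, mul_one, one_mul, map_add, map_sub, neg_mul,
        mul_neg, map_neg]
      abel
    have e3 : ∀ E : Mat N, HasDerivAt (fun t : ℝ =>
        fn (exp (t • Y) * w (exp (t • -Y) * E * exp (t • Y)) * exp (t • -Y)))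
        (2 * ((Y * w E - w E * Y - w (Y * E - E * Y)) * (w E)ᴴ).trace.re) 0 := fun E => by
      have h1 := fun p q => (((hasDerivAt_pi.1 (hasDerivAt_pi.1 (e2 E) p)) q)).norm_sq
      refine (HasDerivAt.fun_sum fun p _ => HasDerivAt.fun_sum fun q _ => h1 p q).congr_deriv ?_
      generalize Y * w E - w E * Y - w (Y * E - E * Y) = M
      simp only [zero_smul, exp_zero, mul_one, one_mul]
      simp [trace, mul_apply, Finset.mul_sum]
    have e4 := IsLocalMin.hasDerivAt_eq_zero (Eventually.of_forall fun t => by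
      have h3 := h (JA.expU (t • Y))
      simp only [F, act_apply, JA.expU_inv, JA.expU_val, ← smul_neg] at h3
      simpa using h3)
      (HasDerivAt.fun_sum (u := Finset.univ) fun a _ => HasDerivAt.fun_sum (u := Finset.univ)
        fun b _ => e3 (single a b 1))
    simp only [← Finset.mul_sum] at e4
    simp only [Complex.re_sum]
    linarith
  intro Y
  refine Complex.ext (key Y) ?_
  have h1 := key (Complex.I • Y)
  simp only [Matrix.smul_mul, Matrix.mul_smul, ← smul_sub, map_smul, trace_smul, smul_eq_mul,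
    ← Finset.mul_sum, Complex.I_mul_re, neg_eq_zero] at h1
  exact h1

end Degen

open Degen in
theorem degen_thm (ha : AjStmt) : DegenStmt := by
  intro N z hz
  classical
  have hb : BddBelow (Set.range fun h => F (act h z)) := ⟨0, by
    rintro _ ⟨h, rfl⟩
    exact F_nonneg _⟩
  obtain ⟨c, -, hc, hc'⟩ := exists_seq_tendsto_sInf (Set.range_nonempty _) hb
  have hμ : ∀ h, sInf (Set.range fun h => F (act h z)) ≤ F (act h z) := fun h =>
    csInf_le hb ⟨h, rfl⟩
  generalize sInf (Set.range fun h => F (act h z)) = μ at hc hμ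
  choose g hg using hc'
  choose k u hk hu D hD using fun m => kak (g m)
  let U := hyperfilter ℕ
  obtain ⟨u₀, hu₀, hlim⟩ := ulim_uni U hu
  have h1 : Tendsto (fun m => F (act (eU (D m)) (act (uU (hu m)) z))) U (𝓝 μ) :=
    (hc.mono_left Nat.hyperfilter_le_atTop).congr fun m => by
      rw [← hg m]
      simp only [hD m, act_mul, F_uni]
  have h2 : ∀ a b p q, Tendsto (fun m => act (uU (hu m)) z (single a b 1) p q) U
      (𝓝 (act (uU hu₀) z (single a b 1) p q)) := fun a b p q => by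
    have h3 : Tendsto (fun m => (u m)ᴴ) U (𝓝 u₀ᴴ) :=
      (continuous_id.matrix_conjTranspose.tendsto _).comp hlim
    exact tendsto_pi_nhds.1 (tendsto_pi_nhds.1 ((hlim.mul (tend (φ := fun _ => z)
      (fun _ _ => tendsto_const_nhds) ((h3.mul_const (single a b 1)).mul hlim))).mul h3) p) q
  have hz₀ := ha.gpAct N (uU hu₀) z hz
  have hμ₀ : ∀ h, μ ≤ F (act h (act (uU hu₀) z)) := fun h => act_mul h _ z ▸ hμ _
  have hfin : ∀ D', act (eU D' * uU hu₀) z = act (eU D') (act (uU hu₀) z) := fun _ => act_mul _ _ _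
  generalize act (uU hu₀) z = z₀ at h2 hz₀ hμ₀ hfin
  have h4 : ∀ ε : (Fin N × Fin N) × Fin N × Fin N, ∃ r : ℝ,
      z₀ (single ε.1.1 ε.1.2 1) ε.2.1 ε.2.2 ≠ 0 →
        Tendsto (fun m => Real.exp (ow ε (D m))) U (𝓝 r) := by
    rintro ⟨⟨a, b⟩, p, q⟩
    by_cases h0 : z₀ (single a b 1) p q = 0
    · exact ⟨0, fun h => absurd h0 h⟩
    obtain ⟨v, -, hv⟩ := (isCompact_closedBall (0 : ℂ) (μ + 2)).ultrafilter_le_nhds
      (U.map fun m => act (eU (D m)) (act (uU (hu m)) z) (single a b 1) p q)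
      (le_principal_iff.2 (mem_map.2 (by
        filter_upwards [h1.eventually (gt_mem_nhds (lt_add_one μ))] with m hm
        have h5 := (entry_F _ a b p q).trans hm.le
        rw [Set.mem_preimage, mem_closedBall_zero_iff]
        nlinarith [sq_nonneg (‖act (eU (D m)) (act (uU (hu m)) z) (single a b 1) p q‖ - 1)])))
    refine ⟨(v / z₀ (single a b 1) p q).re, fun _ => ?_⟩
    refine ((Complex.continuous_re.tendsto _).comp
      (Tendsto.div (f := fun m => act (eU (D m)) (act (uU (hu m)) z) (single a b 1) p q) hv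
        (h2 a b p q) h0)).congr' ?_
    filter_upwards [(h2 a b p q).eventually_ne h0] with m hm
    simp only [Function.comp_apply, Pi.div_apply, act_eU, mul_div_cancel_right₀ _ hm,
      Complex.ofReal_re]
  choose r hr using h4
  obtain ⟨w, hw⟩ : ∃ w : Op N, ∀ a b p q,
      w (single a b 1) p q = r ((a, b), p, q) * z₀ (single a b 1) p q :=
    ⟨∑ a, ∑ b, (entryLinearMap ℂ ℂ a b).smulRight
      (of fun p q => r ((a, b), p, q) * z₀ (single a b 1) p q), fun a b p q => by
        simp [LinearMap.sum_apply, Matrix.single_apply, ite_and]⟩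
  have h5 : ∀ a b, Tendsto (fun m => act (eU (D m)) z₀ (single a b 1)) U (𝓝 (w (single a b 1))) :=
    fun a b => tendsto_pi_nhds.2 fun p => tendsto_pi_nhds.2 fun q => by
      simp only [act_eU, hw]
      by_cases h0 : z₀ (single a b 1) p q = 0
      · simp only [h0, mul_zero, tendsto_const_nhds]
      · exact ((Complex.continuous_ofReal.tendsto _).comp (hr ((a, b), p, q) h0)).mul_const _
  have h6 : F w ≤ μ := by
    let f : ℕ → Fin N → Fin N → Fin N → Fin N → ℝ := fun m a b p q =>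
      if z₀ (single a b 1) p q = 0 then 0
      else ‖act (eU (D m)) (act (uU (hu m)) z) (single a b 1) p q‖ ^ 2
    refine le_of_tendsto_of_tendsto' (f := fun m => ∑ a, ∑ b, ∑ p, ∑ q, f m a b p q)
      (tendsto_finsetSum _ fun a _ => tendsto_finsetSum _ fun b _ =>
        tendsto_finsetSum _ fun p _ => tendsto_finsetSum _ fun q _ => ?_) h1 fun m =>
      Finset.sum_le_sum fun a _ => Finset.sum_le_sum fun b _ =>
        Finset.sum_le_sum fun p _ => Finset.sum_le_sum fun q _ => ?_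
    · by_cases h0 : z₀ (single a b 1) p q = 0
      · simp [f, h0, hw]
      · simp only [f, if_neg h0, act_eU, hw]
        exact (((Complex.continuous_ofReal.tendsto _).comp (hr ((a, b), p, q) h0)).mul
          (h2 a b p q)).norm.pow 2
    · simp only [f]
      split_ifs
      · positivity
      · exact le_rfl
  obtain ⟨D', H, hH⟩ := lin ow U D _ r hr
  refine ⟨eU D' * uU hu₀, H, w, gp_lim (fun m => ha.gpAct N _ _ hz₀) h5, crit fun g => h6.trans
    (ge_of_tendsto' (F_lim h5 g) fun m => act_mul g _ z₀ ▸ hμ₀ _), fun a b p q h => ?_,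
    fun a b p q h => ?_⟩
  · rw [hw] at h
    exact ((hH ((a, b), p, q) (right_ne_zero_of_mul h)).1
      (Complex.ofReal_ne_zero.1 (left_ne_zero_of_mul h))).2
  · rw [hfin, LinearMap.sub_apply, Matrix.sub_apply, act_eU, hw, ← sub_mul] at h
    have h7 := hH ((a, b), p, q) (right_ne_zero_of_mul h)
    refine h7.2 (by_contra fun h8 => left_ne_zero_of_mul h ?_)
    rw [(h7.1 h8).1, sub_self]

end Pool.Agent.MP_94b95a_al.Fl

end MrgPart5

-- marker of a merged file
example : 731051 + 873394 = 731051 + 873394 := rfl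

end MrgPart0

-- ======== part 1: formerly Pool.Agent.MP_94b95a_al.fl.Jex
section MrgPart1

/-! Existence of the complete Jordan decomposition. -/

namespace Pool.Agent.MP_94b95a_al.Fl

open NormedSpace Matrix Polynomial JA
open scoped Nat Matrix.Norms.Operator

namespace Jex

variable {N : ℕ}

theorem exists_phi (g : Mat N) : ∃ (R : Finset ℂ) (Φ : (R → ℂ) →ₐ[ℂ] Mat N),
    (∀ a ∈ R, a ∈ spectrum ℂ g) ∧ (∀ ψ, Φ ψ ∈ Algebra.adjoin ℂ {g}) ∧
      IsNilpotent (g - Φ fun a => a) := by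
  classical
  let R := g.charpoly.roots.toFinset
  let P : ℂ[X] := ∏ a ∈ R, (Polynomial.X - C a)
  have sep : P.Separable := separable_prod_X_sub_C_iff'.2 fun _ _ _ _ h => h
  have hk : aeval g (P ^ g.charpoly.roots.card) = 0 := by
    have h1 := (IsAlgClosed.splits g.charpoly).eq_prod_roots_of_monic g.charpoly_monic
    have h2 : g.charpoly ∣ P ^ g.charpoly.roots.card := by
      rw [← Multiset.prod_replicate, ← Multiset.map_const']
      conv_lhs => rw [h1]
      exact Multiset.prod_dvd_prod_of_dvd _ _ fun a ha =>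
        Finset.dvd_prod_of_mem _ (Multiset.mem_toFinset.2 ha)
    obtain ⟨q, hq⟩ := h2
    rw [hq, map_mul, Matrix.aeval_self_charpoly, zero_mul]
  let ff : Algebra.adjoin ℂ {g} := ⟨g, Algebra.self_mem_adjoin_singleton ℂ g⟩
  have hk' : aeval ff (P ^ g.charpoly.roots.card) = 0 :=
    Subtype.ext (by rw [coe_aeval_mk_apply]; exact hk)
  have nil : IsNilpotent (aeval ff P) := ⟨_, by rw [← map_pow]; exact hk'⟩
  have sep' : IsUnit (aeval ff (derivative P)) := by
    obtain ⟨a, b, h⟩ : IsCoprime (P ^ g.charpoly.roots.card) (derivative P) := sep.pow_left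
    have := congrArg (aeval ff) h
    rw [map_add, map_mul, hk', mul_zero, zero_add, map_mul, map_one] at this
    exact .of_mul_eq_one_right _ this
  obtain ⟨s, ⟨hn, hs⟩, -⟩ := existsUnique_nilpotent_sub_and_aeval_eq_zero nil sep'
  let ev : ℂ[X] →ₐ[ℂ] (R → ℂ) := aeval fun a : R => (a : ℂ)
  have hev : ∀ (p : ℂ[X]) (a : R), ev p a = p.eval (a : ℂ) := fun p a => by
    rw [aeval_fn_apply, coe_aeval_eq_eval]
  have hsurj : Function.Surjective ev := fun ψ =>
    ⟨Lagrange.interpolate Finset.univ (fun a : R => (a : ℂ)) ψ, funext fun a => by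
      rw [hev, Lagrange.eval_interpolate_at_node _ Subtype.val_injective.injOn (Finset.mem_univ a)]⟩
  have hker : RingHom.ker ev.toRingHom ≤ RingHom.ker (aeval s : ℂ[X] →ₐ[ℂ] _).toRingHom := by
    intro p hp
    obtain ⟨q, rfl⟩ : P ∣ p := Finset.prod_dvd_of_coprime
      ((pairwise_coprime_X_sub_C Function.injective_id).set_pairwise _) fun a ha =>
        dvd_iff_isRoot.2 ((hev p ⟨a, ha⟩).symm.trans (congrFun hp ⟨a, ha⟩))
    change aeval s (P * q) = 0
    rw [map_mul, hs, zero_mul]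
  let Φ := AlgHom.liftOfSurjective ev hsurj (aeval s) hker
  refine ⟨R, (Subalgebra.val _).comp Φ, fun a ha => Matrix.mem_spectrum_iff_isRoot_charpoly.2
    (isRoot_of_mem_roots (Multiset.mem_toFinset.1 ha)), fun ψ => (Φ ψ).2, ?_⟩
  have h := AlgHom.liftOfSurjective_apply ev hsurj (aeval s) hker Polynomial.X
  rw [aeval_X, aeval_X] at h
  rw [AlgHom.comp_apply, h]
  exact hn.map (Subalgebra.val _)

theorem ep (s : Finset ℂˣ) : ∀ q : ℂˣ → ℂ[X],
    (∀ k : ℕ, ∑ μ ∈ s, (q μ).eval (k : ℂ) * (μ : ℂ) ^ k = 0) → ∀ μ ∈ s, q μ = 0 := by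
  classical
  induction s using Finset.induction_on with
  | empty => simp
  | insert a s ha ih =>
    have key : ∀ (d : ℕ) (q : ℂˣ → ℂ[X]), (q a).degree < d →
        (∀ k : ℕ, ∑ μ ∈ insert a s, (q μ).eval (k : ℂ) * (μ : ℂ) ^ k = 0) → ∀ μ ∈ s, q μ = 0 := by
      intro d
      induction d with
      | zero =>
        intro q hd h
        have h0 : q a = 0 := degree_eq_bot.1 (Nat.WithBot.lt_zero_iff.1 (by exact_mod_cast hd))
        exact ih q fun k => by simpa [Finset.sum_insert ha, h0] using h k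
      | succ d ihd =>
        intro q hd h μ hμ
        have h1 := ihd (fun μ => C (μ : ℂ) * taylor 1 (q μ) - C (a : ℂ) * q μ) ?_ ?_ μ hμ
        · have h2 := congrArg leadingCoeff (sub_eq_zero.1 h1)
          rw [leadingCoeff_mul, leadingCoeff_mul, leadingCoeff_C, leadingCoeff_C,
            leadingCoeff_taylor] at h2
          by_contra h0
          exact ha ((Units.ext (mul_right_cancel₀ (leadingCoeff_ne_zero.2 h0) h2) : μ = a) ▸ hμ)
        · rw [← mul_sub, degree_C_mul a.ne_zero]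
          by_cases h0 : q a = 0
          · simp [h0]
          · refine (degree_sub_lt_left (degree_taylor _ _) (by simpa using h0)
              (leadingCoeff_taylor _ _)).trans_le ?_
            rw [degree_taylor]
            rw [degree_eq_natDegree h0] at hd ⊢
            exact_mod_cast Nat.lt_succ_iff.1 (by exact_mod_cast hd)
        · intro k
          have h2 := h (k + 1)
          have h3 := congrArg ((a : ℂ) * ·) (h k)
          simp only [Finset.mul_sum, mul_zero] at h3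
          rw [← sub_zero 0]
          conv_rhs => rw [← h2]; enter [2]; rw [h2, ← h3]
          rw [← Finset.sum_sub_distrib]
          refine Finset.sum_congr rfl fun μ _ => ?_
          simp only [eval_sub, eval_mul, eval_C, taylor_eval]
          push_cast
          ring
    intro q h μ hμ
    have h1 := key ((q a).natDegree + 1) q
      (degree_le_natDegree.trans_lt (by exact_mod_cast Nat.lt_succ_self _)) h
    rcases Finset.mem_insert.1 hμ with rfl | hμ
    · refine eq_zero_of_infinite_isRoot _ (Set.infinite_of_injective_forall_mem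
        (f := fun k : ℕ => (k : ℂ)) Nat.cast_injective fun k => ?_)
      have h2 := h k
      rw [Finset.sum_insert ha, Finset.sum_eq_zero fun μ hμ => by rw [h1 μ hμ, eval_zero, zero_mul],
        add_zero] at h2
      exact (mul_eq_zero.1 h2).resolve_right (pow_ne_zero _ μ.ne_zero)
    · exact h1 μ hμ

/-- Evaluation of formal exponential polynomials. -/
noncomputable def ev (χ : ℂˣ →* ℂ) (z : ℂ) : MonoidAlgebra ℂ[X] ℂˣ →+* ℂ :=
  (evalRingHom z).comp
    (MonoidAlgebra.lift ℂ[X] ℂ[X] ℂˣ ((C : ℂ →+* ℂ[X]).toMonoidHom.comp χ)).toRingHom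

theorem ev_apply (χ : ℂˣ →* ℂ) (z : ℂ) (f : MonoidAlgebra ℂ[X] ℂˣ) :
    ev χ z f = ∑ μ ∈ f.coeff.support, (f.coeff μ).eval z * χ μ := by
  simp [ev, MonoidAlgebra.lift_apply, Finsupp.sum, eval_finsetSum]

theorem ev_single (χ : ℂˣ →* ℂ) (z : ℂ) (μ : ℂˣ) (q : ℂ[X]) :
    ev χ z (MonoidAlgebra.single μ q) = q.eval z * χ μ := by
  simp [ev]

theorem phi_sum {R : Type} [Fintype R] [DecidableEq R] (Φ : (R → ℂ) →ₐ[ℂ] Mat N) (ψ : R → ℂ) :
    Φ ψ = ∑ i, ψ i • Φ (Pi.single i 1) := by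
  conv_lhs => rw [pi_eq_sum_univ' ψ]
  simp

theorem vanish {R : Type} [Fintype R] (Φ : (R → ℂ) →ₐ[ℂ] Mat N) (lam : R → ℂˣ) {ν : Mat N}
    (hν : IsNilpotent ν) (p : MvPolynomial (Fin N × Fin N) ℂ)
    (h : ∀ k : ℕ, MvPolynomial.eval (fun ij =>
      (Φ (fun i => (lam i : ℂ) ^ k) * exp ((k : ℂ) • ν)) ij.1 ij.2) p = 0) (χ : ℂˣ →* ℂ) (z : ℂ) :
    MvPolynomial.eval (fun ij => (Φ (fun i => χ (lam i)) * exp (z • ν)) ij.1 ij.2) p = 0 := by
  classical
  let M : Fin N × Fin N → MonoidAlgebra ℂ[X] ℂˣ := fun ij => ∑ i, ∑ k ∈ Finset.range N,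
    MonoidAlgebra.single (lam i)
      (monomial k ((k !⁻¹ : ℂ) * (Φ (Pi.single i 1) * ν ^ k) ij.1 ij.2))
  let f := MvPolynomial.eval₂ (MonoidAlgebra.singleOneRingHom.comp C) M p
  have key : ∀ (χ : ℂˣ →* ℂ) (z : ℂ), MvPolynomial.eval
      (fun ij => (Φ (fun i => χ (lam i)) * exp (z • ν)) ij.1 ij.2) p = ev χ z f := by
    intro χ z
    rw [MvPolynomial.eval₂_comp_left, MvPolynomial.eval, MvPolynomial.coe_eval₂Hom]
    congr 1
    · ext c
      simp [ev_single]
    · funext ij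
      rw [phi_sum, exp_sum (nil_pow (hν.smul z)), Finset.sum_mul_sum]
      simp only [M, Function.comp, map_sum, ev_single, eval_monomial, Matrix.sum_apply,
        _root_.smul_pow, smul_mul_assoc, mul_smul_comm, Matrix.smul_apply, smul_eq_mul]
      refine Finset.sum_congr rfl fun i _ => Finset.sum_congr rfl fun k _ => by ring
  rw [key, ev_apply]
  have h1 := ep f.coeff.support f.coeff fun k => by
    have := (key ((powMonoidHom k).comp (Units.coeHom ℂ)) k).symm.trans (h k)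
    rwa [ev_apply] at this
  exact Finset.sum_eq_zero fun μ hμ => by rw [h1 μ hμ, eval_zero, zero_mul]

/-- The phase. -/
noncomputable def ph : ℂˣ →* ℂ where
  toFun u := u / (‖(u : ℂ)‖ : ℝ)
  map_one' := by simp
  map_mul' u v := by simp [mul_div_mul_comm]

/-- Complex powers of the modulus. -/
noncomputable def pw (z : ℂ) : ℂˣ →* ℂ where
  toFun u := Complex.exp (z * Real.log ‖(u : ℂ)‖)
  map_one' := by simp
  map_mul' u v := by
    rw [Units.val_mul, norm_mul, Real.log_mul (norm_ne_zero_iff.2 u.ne_zero)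
      (norm_ne_zero_iff.2 v.ne_zero), Complex.ofReal_add, mul_add, Complex.exp_add]

theorem norm_ph (u : ℂˣ) : ‖ph u‖ = 1 := by
  simp [ph]

theorem ph_mul (u : ℂˣ) : ph u * pw 1 u = u := by
  have h := norm_pos_iff.2 u.ne_zero
  simp only [ph, pw, MonoidHom.coe_mk, OneHom.coe_mk, one_mul]
  rw [← Complex.ofReal_exp, Real.exp_log h, div_mul_cancel₀ _ (Complex.ofReal_ne_zero.2 h.ne')]

theorem idem {P η : Mat N} (hP : P * P = P) (h : Commute P (P * η - η * P)) : Commute P η := by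
  have h1 : P * η - η * P = P * (P * η - η * P) + (P * η - η * P) * P := by
    rw [mul_sub, sub_mul, ← mul_assoc, hP, mul_assoc η, hP, mul_assoc]; abel
  rw [← h.eq] at h1
  have h2 := congrArg (P * ·) h1
  simp only [mul_add, ← mul_assoc P P, hP] at h2
  rw [left_eq_add.1 h2, add_zero] at h1
  exact sub_eq_zero.1 h1

end Jex

open Jex in
theorem jex_thm (hl : LogStmt) : JexStmt := by
  classical
  intro N g
  obtain ⟨ℓ, -, hℓ⟩ := hl N
  obtain ⟨R, Φ, hsp, hΦ, hn⟩ := exists_phi (g : Mat N)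
  have h0 : ∀ a : R, (a : ℂ) ≠ 0 := fun a h =>
    spectrum.zero_notMem ℂ g.isUnit (h ▸ hsp a a.2)
  let lam : R → ℂˣ := fun a => Units.mk0 a (h0 a)
  have hg : (g : Mat N) ∈ Algebra.adjoin ℂ {(g : Mat N)} := Algebra.self_mem_adjoin_singleton ℂ _
  let s := Φ fun a => a
  let s' := Φ fun a => (a : ℂ)⁻¹
  have hss : s * s' = 1 := by
    rw [← map_mul, ← map_one Φ]; congr 1; funext a; exact mul_inv_cancel₀ (h0 a)
  have hss' : s' * s = 1 := (comm_adj' (hΦ _) (hΦ _)).eq.trans hss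
  have hu : s' * g ∈ Algebra.adjoin ℂ {(g : Mat N)} := mul_mem (hΦ _) hg
  obtain ⟨hν, hexp⟩ := hℓ (s' * g) (by
    rw [← hss', ← mul_sub]
    exact (comm_adj' (hΦ _) (sub_mem hg (hΦ _))).isNilpotent_mul_left hn)
  set ν := aeval (s' * g) ℓ
  have hνg : ν ∈ Algebra.adjoin ℂ {(g : Mat N)} :=
    Algebra.adjoin_le (Set.singleton_subset_iff.2 hu) (aeval_mem_adjoin_singleton ℂ _)
  have hge : (g : Mat N) = s * exp ν := by rw [hexp, ← mul_assoc, hss, one_mul]
  let L := ∑ i, ‖Φ (Pi.single i 1)‖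
  have hb : ∀ ψ : R → ℂ, (∀ a, ‖ψ a‖ = 1) → ‖Φ ψ‖ ≤ L := fun ψ h => by
    rw [phi_sum]
    exact norm_sum_le_of_le _ fun i _ => by rw [norm_smul, h, one_mul]
  let A := Φ fun a => (Real.log ‖(a : ℂ)‖ : ℝ)
  have hA : ∀ z : ℂ, exp (z • A) = Φ fun a => pw z (lam a) := fun z => by
    rw [← map_smul]
    refine (map_exp Φ Φ.toLinearMap.continuous_of_finiteDimensional _).symm.trans ?_
    rw [Pi.exp_def]
    congr 1
    funext a
    rw [← Complex.exp_eq_exp_ℂ]
    rfl
  let U : (R → ℂˣ) →* GLN N := (Units.map (Φ : (R → ℂ) →* Mat N)).comp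
    (MulEquiv.piUnits.symm : (R → ℂˣ) ≃* (R → ℂ)ˣ).toMonoidHom
  have hU : ∀ ψ, (U ψ : Mat N) = Φ fun a => ψ a := fun ψ => rfl
  let ε : R → ℂˣ := fun a => Units.mk0 (ph (lam a)) (norm_ne_zero_iff.1 (by simp [norm_ph]))
  refine ⟨U ε, A, ν, ⟨?_, bdd_range.2 ⟨L, fun k => ?_⟩, bdd_range.2 ⟨L, fun t => ?_⟩, hν,
    comm_adj' (hΦ _) (hΦ _), comm_adj' (hΦ _) hνg, comm_adj' (hΦ _) hνg⟩, hΦ _, hΦ _, hνg,
    fun G ⟨S, hS⟩ hG => ?_, fun η ζ h hc => ?_⟩
  · rw [← one_smul ℂ A, hA, hU, ← map_mul]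
    exact hge.trans (congrArg (Φ · * exp ν) (funext fun a => (ph_mul (lam a)).symm))
  · rw [← map_zpow, hU]
    exact hb _ fun a => by simp [ε, norm_ph]
  · rw [hA]
    exact hb _ fun a => by simp [pw, Complex.norm_exp]
  · have key : ∀ (χ : ℂˣ →* ℂ) (z : ℂ) (x : GLN N),
        (x : Mat N) = Φ (fun i => χ (lam i)) * exp (z • ν) → x ∈ G := fun χ z x hx =>
      (hS x).2 fun p hp => hx ▸ vanish Φ lam hν p (fun k => by
        have := (hS _).1 (G.pow_mem hG k) p hp
        rwa [Units.val_pow_eq_pow_val, hge, (comm_adj' (hΦ _) hνg).exp_right.mul_pow,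
          ← Matrix.exp_nsmul, ← map_pow, ← Nat.cast_smul_eq_nsmul ℂ] at this) χ z
    refine ⟨key ph 0 _ (by rw [zero_smul, exp_zero, mul_one]; rfl), fun z => inG_exp.2
      (key (pw z) 0 _ (by rw [zero_smul, exp_zero, mul_one, expU_val, hA])), fun z => inG_exp.2
      (key 1 z _ ?_)⟩
    rw [expU_val, show (fun i => (1 : ℂˣ →* ℂ) (lam i)) = 1 from rfl, map_one, one_mul]
  · have hD : (g : Mat N) * η - η * g = ζ * g := by rw [h]; noncomm_ring
    have hc' : Commute (g : Mat N) (ζ * g) := hc.mul_right (Commute.refl _)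
    have hder : ∀ x ∈ Algebra.adjoin ℂ {(g : Mat N)}, Commute x (x * η - η * x) := fun x hx => by
      refine comm_adj hx ?_
      rw [Algebra.adjoin_singleton_eq_range_aeval] at hx
      obtain ⟨p, rfl⟩ := hx
      exact der_aeval hc' hD p ▸
        (comm_adj' hg (Polynomial.aeval_mem_adjoin_singleton ℂ _)).mul_right hc'
    have hP : ∀ ψ, Commute (Φ ψ) η := fun ψ => by
      rw [phi_sum]
      refine Commute.sum_left _ _ _ fun i _ => Commute.smul_left (idem ?_ (hder _ (hΦ _))) _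
      rw [← map_mul, ← Pi.single_mul, mul_one]
    refine ⟨hP _, hP _, (Matrix.isUnit_exp ν).mul_left_cancel ?_⟩
    have h1 : η * s' = s' * η := (hP _).eq.symm
    rw [← der_exp hν (hder ν hνg) rfl, hexp, ← mul_assoc η, h1, mul_assoc, mul_assoc, mul_assoc,
      ← mul_sub, hD, hc.eq]

end Pool.Agent.MP_94b95a_al.Fl

end MrgPart1

-- ======== part 2: formerly Pool.Agent.MP_94b95a_al.fl.Nondeg
section MrgPart2

/-! The trace form on the Lie algebra of a reductive group is nondegenerate. -/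

namespace Pool.Agent.MP_94b95a_al.Fl

open NormedSpace Matrix Filter Topology

namespace Nondeg

variable {N : ℕ}

/-- The flag attached to a space of matrices. -/
noncomputable def V (P : Submodule ℂ (Mat N)) : ℕ → Submodule ℂ (Mat N)
  | 0 => ⊤
  | k + 1 => P * V P k

theorem V_anti (P : Submodule ℂ (Mat N)) (k : ℕ) : V P (k + 1) ≤ V P k := by
  induction k with
  | zero => exact le_top
  | succ k ih => exact mul_le_mul_right ih P

theorem engel (P : Submodule ℂ (Mat N)) (hb : ∀ X ∈ P, ∀ Y ∈ P, X * Y - Y * X ∈ P)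
    (hn : ∀ X ∈ P, IsNilpotent X) : ∃ K, V P K = ⊥ := by
  let : LieRing (Module.End ℂ (Mat N)) := LieRing.ofAssociativeRing
  let : LieAlgebra ℂ (Module.End ℂ (Mat N)) := LieAlgebra.ofAssociativeAlgebra
  let L : LieSubalgebra ℂ (Module.End ℂ (Mat N)) :=
    { P.map (Algebra.lmul ℂ (Mat N)).toLinearMap with
      lie_mem' := by
        rintro _ _ ⟨X, hX, rfl⟩ ⟨Y, hY, rfl⟩
        refine ⟨_, hb X hX Y hY, ?_⟩
        rw [Ring.lie_def]
        simp only [AlgHom.toLinearMap_apply, map_sub, map_mul] }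
  have h1 : LieModule.IsNilpotent L (Mat N) := by
    rw [LieModule.isNilpotent_iff_forall' (R := ℂ)]
    rintro ⟨_, X, hX, rfl⟩
    exact (hn X hX).map (Algebra.lmul ℂ (Mat N))
  obtain ⟨K, hK⟩ := LieModule.IsNilpotent.nilpotent ℂ L (Mat N)
  have h2 : ∀ k, ∀ m ∈ V P k, m ∈ LieModule.lowerCentralSeries ℂ L (Mat N) k := by
    intro k
    induction k with
    | zero => intro m _; simp
    | succ k ih =>
      intro m hm
      rw [LieModule.lowerCentralSeries_succ]
      refine Submodule.mul_induction_on hm (fun X hX y hy => ?_) fun x y => add_mem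
      exact LieSubmodule.lie_mem_lie (x := (⟨_, X, hX, rfl⟩ : L)) (LieSubmodule.mem_top _) (ih y hy)
  refine ⟨K, eq_bot_iff.mpr fun m hm => ?_⟩
  have := h2 K m hm
  rw [hK] at this
  exact this

/-- Matrices that move the flag down. -/
def J (P : Submodule ℂ (Mat N)) : Submodule ℂ (Mat N) where
  carrier := {n | ∀ k, ∀ m ∈ V P k, n * m ∈ V P (k + 1)}
  add_mem' := fun ha hb k m hm => by rw [add_mul]; exact add_mem (ha k m hm) (hb k m hm)
  zero_mem' := fun k m _ => by rw [zero_mul]; exact zero_mem _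
  smul_mem' := fun c n hn k m hm => by rw [smul_mul_assoc]; exact Submodule.smul_mem _ c (hn k m hm)

theorem J_mul {P : Submodule ℂ (Mat N)} {a b : Mat N} (ha : a ∈ J P) (hb : b ∈ J P) :
    a * b ∈ J P := fun k m hm => by
  rw [mul_assoc]; exact V_anti P _ (ha _ _ (hb k m hm))

theorem le_J {P : Submodule ℂ (Mat N)} {a : Mat N} (ha : a ∈ P) : a ∈ J P :=
  fun _ _ hm => Submodule.mul_mem_mul ha hm

theorem J_nil {P : Submodule ℂ (Mat N)} {K : ℕ} (hK : V P K = ⊥) {a : Mat N} (ha : a ∈ J P) :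
    IsNilpotent a := by
  have : ∀ k, a ^ k ∈ V P k := fun k => by
    induction k with
    | zero => trivial
    | succ k ih => rw [pow_succ']; exact ha k _ ih
  exact ⟨K, by simpa [hK] using this K⟩

theorem exp_J {P : Submodule ℂ (Mat N)} {a : Mat N} (ha : a ∈ J P) (h : IsNilpotent a) :
    exp a - 1 ∈ J P := by
  obtain ⟨n, hn⟩ := h
  have hp : ∀ k, a ^ (k + 1) ∈ J P := fun k => by
    induction k with
    | zero => simpa using ha
    | succ k ih => rw [pow_succ']; exact J_mul ha ih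
  rw [exp_eq_tsum ℂ]
  dsimp only
  rw [tsum_eq_sum (s := Finset.range (n + 1)), Finset.sum_range_succ']
  · simp only [Nat.factorial_zero, Nat.cast_one, inv_one, pow_zero, one_smul, add_sub_cancel_right]
    exact Submodule.sum_mem _ fun k _ => Submodule.smul_mem _ _ (hp k)
  · intro k hk
    rw [Finset.mem_range, not_lt] at hk
    rw [pow_eq_zero_of_le (by omega) hn, smul_zero]

theorem V_stab {P : Submodule ℂ (Mat N)} {g : GLN N}
    (h : ∀ X ∈ P, (g : Mat N) * X * ((g⁻¹ : GLN N) : Mat N) ∈ P) (k : ℕ) :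
    ∀ m ∈ V P k, (g : Mat N) * m ∈ V P k := by
  induction k with
  | zero => intro m _; trivial
  | succ k ih =>
    intro m hm
    refine Submodule.mul_induction_on hm (fun X hX y hy => ?_) fun x y hx hy => ?_
    · have e : (g : Mat N) * (X * y) = (g : Mat N) * X * ((g⁻¹ : GLN N) : Mat N) * (g * y) := by
        rw [mul_assoc _ _ ((g : Mat N) * y), Units.inv_mul_cancel_left, mul_assoc]
      rw [e]; exact Submodule.mul_mem_mul (h X hX) (ih y hy)
    · rw [mul_add]; exact add_mem hx hy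

/-- The unipotent group of the flag. -/
def U (G : Subgroup (GLN N)) (P : Submodule ℂ (Mat N))
    (h : ∀ g ∈ G, ∀ X ∈ P, (g : Mat N) * X * ((g⁻¹ : GLN N) : Mat N) ∈ P) : Subgroup (GLN N) where
  carrier := {g | g ∈ G ∧ (g : Mat N) - 1 ∈ J P}
  one_mem' := ⟨G.one_mem, by simp⟩
  mul_mem' := fun {a b} ha hb => ⟨G.mul_mem ha.1 hb.1, by
    have e : ((a * b : GLN N) : Mat N) - 1
        = ((a : Mat N) - 1) * ((b : Mat N) - 1) + ((a : Mat N) - 1) + ((b : Mat N) - 1) := by
      rw [Units.val_mul]; noncomm_ring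
    rw [e]; exact add_mem (add_mem (J_mul ha.2 hb.2) ha.2) hb.2⟩
  inv_mem' := fun {a} ha => ⟨G.inv_mem ha.1, fun k m hm => by
    have e : (((a⁻¹ : GLN N) : Mat N) - 1) * m
        = -(((a : Mat N) - 1) * (((a⁻¹ : GLN N) : Mat N) * m)) := by
      rw [sub_mul, sub_mul, Units.mul_inv_cancel_left, one_mul, one_mul, neg_sub]
    rw [e]
    exact neg_mem (ha.2 k _ (V_stab (h _ (G.inv_mem ha.1)) k m hm))⟩

theorem alg_lin {G H : Subgroup (GLN N)} (hG : Alg G) (W : Submodule ℂ (Mat N))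
    (hH : ∀ g, g ∈ H ↔ g ∈ G ∧ (g : Mat N) - 1 ∈ W) : Alg H := by
  obtain ⟨S, hS⟩ := hG
  let p : Module.Dual ℂ (Mat N) → MvPolynomial (Fin N × Fin N) ℂ := fun φ =>
    ∑ ij : Fin N × Fin N, MvPolynomial.C (φ (single ij.1 ij.2 1)) * MvPolynomial.X ij -
      MvPolynomial.C (φ 1)
  have hp : ∀ (φ : Module.Dual ℂ (Mat N)) (m : Mat N),
      MvPolynomial.eval (fun ij => m ij.1 ij.2) (p φ) = φ (m - 1) := fun φ m => by
    rw [map_sub φ]
    conv_rhs => rw [matrix_eq_sum_single m]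
    simp only [p, map_sub, map_sum, map_mul, MvPolynomial.eval_C, MvPolynomial.eval_X,
      Fintype.sum_prod_type]
    congr 1
    refine Finset.sum_congr rfl fun i _ => Finset.sum_congr rfl fun j _ => ?_
    rw [mul_comm, ← smul_eq_mul, ← map_smul, smul_single, smul_eq_mul, mul_one]
  refine ⟨S ∪ p '' W.dualAnnihilator, fun g => ?_⟩
  rw [hH, hS, ← Subspace.forall_mem_dualAnnihilator_apply_eq_zero_iff]
  constructor
  · rintro ⟨h1, h2⟩ q (hq | ⟨φ, hφ, rfl⟩)
    exacts [h1 q hq, (hp φ g).trans (h2 φ hφ)]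
  · exact fun h => ⟨fun q hq => h q (Or.inl hq),
      fun φ hφ => (hp φ g).symm.trans (h _ (Or.inr ⟨φ, hφ, rfl⟩))⟩

theorem conn (hJ : JexStmt) (hU : JunStmt) (hE : EllStmt) (hL : LogStmt) {H : Subgroup (GLN N)}
    (hH : Alg H) (hn : ∀ u ∈ H, IsNilpotent ((u : Mat N) - 1)) : IsConnected (H : Set (GLN N)) := by
  obtain ⟨ℓ, -, hℓ⟩ := hL N
  refine ⟨⟨1, H.one_mem⟩, isPreconnected_of_forall_pair fun x hx y hy => ?_⟩
  have key : ∀ u ∈ H, ∃ t ⊆ (H : Set (GLN N)), (1 : GLN N) ∈ t ∧ u ∈ t ∧ IsPreconnected t := by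
    intro u hu
    obtain ⟨h1, h2⟩ := hℓ u (hn u hu)
    have jd : JD u 1 0 (Polynomial.aeval (u : Mat N) ℓ) :=
      ⟨by rw [h2]; simp, hE.ell_one N, hE.hyp_zero N, h1, by simp, by simp, by simp⟩
    obtain ⟨e, A, ν, j1, -, -, -, j2, -⟩ := hJ N u
    obtain ⟨-, -, rfl⟩ := hU N _ _ _ _ _ _ _ j1 jd
    choose γ hγ hγv using (j2 H hH hu).2.2
    have hc : Continuous γ := continuous_iff_continuousAt.mpr fun z =>
      hE.gl_tendsto N _ _ _ _ (by
        simp only [hγv]
        exact ((hE.exp_cont N).comp (continuous_id.smul continuous_const)).continuousAt)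
    refine ⟨Set.range γ, by rintro _ ⟨z, rfl⟩; exact hγ z, ⟨0, Units.ext ?_⟩, ⟨1, Units.ext ?_⟩,
      isPreconnected_range hc⟩
    · rw [hγv]; simp
    · rw [hγv, one_smul, h2]
  obtain ⟨s, s1, s2, s3, s4⟩ := key x hx
  obtain ⟨t, t1, t2, t3, t4⟩ := key y hy
  exact ⟨s ∪ t, Set.union_subset s1 t1, Or.inl s3, Or.inr t3, s4.union 1 s2 t2 t4⟩

theorem tr_nil {a b : Mat N} (ha : IsNilpotent a) (h : Commute a b) : (a * b).trace = 0 :=
  (Matrix.isNilpotent_trace_of_isNilpotent (h.isNilpotent_mul_right ha)).eq_zero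

end Nondeg

open Nondeg in
theorem nondeg_thm (hA : AjStmt) (hJ : JexStmt) (hU : JunStmt) (hE : EllStmt) (hL : LieStmt)
    (hLog : LogStmt) : NondegStmt := by
  intro N G ⟨hG, _, hR⟩
  let g : Submodule ℂ (Mat N) :=
    { carrier := {X | InLie G X}
      add_mem' := fun ha hb => hL.add N G hG _ _ ha hb
      zero_mem' := hL.zero N G
      smul_mem' := fun c X hX => hL.smul N G c X hX }
  let P : Submodule ℂ (Mat N) :=
    { carrier := {X | InLie G X ∧ ∀ Y, InLie G Y → (X * Y).trace = 0}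
      add_mem' := fun ha hb => ⟨hL.add N G hG _ _ ha.1 hb.1, fun Y hY => by
        rw [add_mul, trace_add, ha.2 Y hY, hb.2 Y hY, add_zero]⟩
      zero_mem' := ⟨hL.zero N G, fun Y _ => by simp⟩
      smul_mem' := fun c X hX => ⟨hL.smul N G c X hX.1, fun Y hY => by
        rw [smul_mul_assoc, trace_smul, hX.2 Y hY, smul_zero]⟩ }
  have hb : ∀ X ∈ P, ∀ Y ∈ P, X * Y - Y * X ∈ P := fun X hX Y hY =>
    ⟨hL.br N G hG _ _ hX.1 hY.1, fun Z hZ => by
      have := hX.2 _ (hL.br N G hG _ _ hY.1 hZ)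
      rw [mul_sub, trace_sub] at this
      rw [sub_mul, trace_sub, mul_assoc, mul_assoc, trace_mul_comm Y, mul_assoc, this]⟩
  have hn : ∀ X ∈ P, IsNilpotent X := fun X hX => by
    obtain ⟨A, B, ν, j, -⟩ := hA.ex N X
    obtain ⟨a, b, -⟩ := hA.lie N G X A B ν hG hX.1 j
    have h1 := hX.2 A a
    have h2 := hX.2 B b
    rw [j.eq, add_mul, add_mul, trace_add, trace_add, smul_mul_assoc, trace_smul] at h1 h2
    rw [tr_nil j.nil j.Aν.symm, ← j.AB.eq] at h1
    rw [tr_nil j.nil j.Bν.symm] at h2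
    obtain ⟨rfl, rfl⟩ := hA.sq N A B j.rdA j.rdB (by
      rw [smul_eq_mul] at h1 h2
      linear_combination h1 - Complex.I * h2 + (B * B).trace * Complex.I_mul_I)
    rw [j.eq]; simpa using j.nil
  have hc : ∀ h ∈ G, ∀ X ∈ P, (h : Mat N) * X * ((h⁻¹ : GLN N) : Mat N) ∈ P := fun h hh X hX =>
    ⟨hL.conj N G h X hh hX.1, fun Y hY => by
      have := hX.2 _ (hL.conj N G h⁻¹ Y (G.inv_mem hh) hY)
      rw [inv_inv] at this
      rw [mul_assoc, mul_assoc, trace_mul_comm, ← this]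
      simp only [mul_assoc]⟩
  obtain ⟨K, hK⟩ := engel P hb hn
  have hUa : Alg (U G P hc) := alg_lin hG (J P) fun _ => Iff.rfl
  have hUn : ∀ u ∈ U G P hc, IsNilpotent ((u : Mat N) - 1) := fun u hu => J_nil hK hu.2
  have hU0 := hR (U G P hc) (fun _ h => h.1) hUa (conn hJ hU hE hLog hUa hUn)
    (fun h hh u hu => ⟨G.mul_mem (G.mul_mem hh hu.1) (G.inv_mem hh), fun k m hm => by
      have e : (((h * u * h⁻¹ : GLN N) : Mat N) - 1) * m
          = (h : Mat N) * (((u : Mat N) - 1) * (((h⁻¹ : GLN N) : Mat N) * m)) := by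
        rw [Units.val_mul, Units.val_mul, sub_mul, sub_mul, mul_sub, one_mul, one_mul,
          Units.mul_inv_cancel_left]
        simp only [mul_assoc]
      rw [e]
      exact V_stab (hc h hh) _ _ (hu.2 k _ (V_stab (hc _ (G.inv_mem hh)) k m hm))⟩) hUn
  have hP : ∀ X ∈ P, X = 0 := fun X hX => by
    obtain ⟨ℓ, hℓ, -⟩ := hLog N
    obtain ⟨u, hu, huv⟩ := hX.1 1
    rw [one_smul] at huv
    have : u ∈ U G P hc := ⟨hu, by rw [huv]; exact exp_J (le_J hX) (hn X hX)⟩
    rw [hU0, Subgroup.mem_bot] at this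
    rw [← hℓ X (hn X hX), ← huv, this, Units.val_one, ← exp_zero (𝔸 := Mat N),
      hℓ _ IsNilpotent.zero]
  let B : LinearMap.BilinForm ℂ (Mat N) :=
    (LinearMap.mul ℂ (Mat N)).compr₂ (Matrix.traceLinearMap (Fin N) ℂ ℂ)
  have hB : ∀ X Y, B X Y = (X * Y).trace := fun _ _ => rfl
  have hco : IsCompl g (B.orthogonal g) := by
    refine B.isCompl_orthogonal_of_restrict_nondegenerate
      (fun X Y h => by rw [hB] at h ⊢; rw [trace_mul_comm, h]) ⟨fun X h => ?_, fun X h => ?_⟩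
    · exact Subtype.ext (hP X ⟨X.2, fun Y hY => h ⟨Y, hY⟩⟩)
    · exact Subtype.ext (hP X ⟨X.2, fun Y hY => by rw [trace_mul_comm]; exact h ⟨Y, hY⟩⟩)
  have hw : ∀ X, g.projection _ hco X = X ↔ X ∈ g := Submodule.projection_eq_self_iff hco
  have ho : ∀ X Y, (g.projection _ hco X * Y).trace =
      (g.projection _ hco X * g.projection _ hco Y).trace := fun X Y => by
    have := Submodule.sub_projection_mem hco Y _ (Submodule.projection_apply_mem hco X)
    rw [hB, mul_sub, trace_sub] at this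
    exact sub_eq_zero.mp this
  refine ⟨g.projection _ hco, ⟨fun X => (hw _).mpr (Submodule.projection_apply_mem hco X),
    fun X Y => ?_, fun X Y => (hw _).mpr (hL.br N G hG _ _ (Submodule.projection_apply_mem hco X)
      (Submodule.projection_apply_mem hco Y))⟩, hw⟩
  rw [ho X Y, trace_mul_comm X, ho Y X, trace_mul_comm]

end Pool.Agent.MP_94b95a_al.Fl

end MrgPart2

-- marker of a merged file
example : 731051 + 182484 = 731051 + 182484 := rfl
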