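import Mathlib.Topology.Algebra.OpenSubgroup
import Mathlib.RingTheory.Finiteness.ModuleFinitePresentation
import Mathlib.AlgebraicTopology.FundamentalGroupoid.SimplyConnected
import Mathlib.Analysis.Normed.Module.Connected
import Mathlib.Analysis.CStarAlgebra.Matrix
import Mathlib.LinearAlgebra.Matrix.FiniteDimensional
import Mathlib.Analysis.Calculus.TangentCone.ProperSpace
import Mathlib.GroupTheory.FiniteAbelian.Basic
import Mathlib.RingTheory.RegularLocalRing.Defs
import Pool.Agent.MP_94b95a_al.fl.Fin1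
import Pool.Agent.MP_94b95a_al.fl.Nondeg
import Pool.Agent.MP_94b95a_al.fl.NotFlaw

-- ======== part 0: formerly Pool.Agent.MP_94b95a_al.fl.Final
section MrgPart0

namespace Pool.Agent.MP_94b95a_al.Fl

theorem final_thm (hTop : TopStmt) (hAct : ActStmt) (hFp : FpStmt) (hSemi : SemiStmt)
    (hFlaw : FlawStmt) (hRed : MostowStmt) (hTrans : TransStmt) (hNot : NotFlawStmt)
    (hGl5 : Gl5Stmt) (hC : Gl5CStmt) :
    ∃ (Γ₁ Γ₂ : Type) (_ : Group Γ₁) (_ : Group Γ₂),
      Group.IsFinitelyPresented Γ₁ ∧ Group.IsFinitelyPresented Γ₂ ∧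
      (∃ (H₁ : Subgroup Γ₁) (H₂ : Subgroup Γ₂),
        H₁.FiniteIndex ∧ H₂.FiniteIndex ∧ Nonempty (H₁ ≃* H₂)) ∧
      Flawed Γ₁ ∧ ¬ Flawed Γ₂ := by
  obtain ⟨R, _, _, ε, Q, _, _, φ, u, c₁, h1, h2, h3, h4, h5, h6⟩ := hTop
  obtain ⟨ψ, hψ⟩ := hAct R ε Q φ h1
  refine ⟨St (RingHom.ker ε), St (RingHom.ker ε) ⋊[ψ] Q, inferInstance, inferInstance,
    hFp R ε, hSemi _ _ ψ (hFp R ε), ?_, ?_, ?_⟩
  · refine ⟨⊤, (SemidirectProduct.inl : St (RingHom.ker ε) →* _ ⋊[ψ] Q).range,
      inferInstance, ?_, ⟨Subgroup.topEquiv.trans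
        (MonoidHom.ofInjective SemidirectProduct.inl_injective)⟩⟩
    rw [SemidirectProduct.range_inl_eq_ker_rightHom]
    exact Subgroup.finiteIndex_ker _
  · intro N G K hG hK
    obtain ⟨h, hh⟩ := hRed N G hG
    exact hTrans.sdr _ N G K h (hFlaw R ε h2 N _ _ hh (hTrans.maxc N G K h hK))
  · intro hF
    obtain ⟨-, K, hK, hU⟩ := hGl5
    exact hNot R ε Q φ ψ u c₁ h1 hψ h3 h4 h5 h6 K hU (hF 5 ⊤ K hC hK)

end Pool.Agent.MP_94b95a_al.Fl

end MrgPart0

-- ======== part 1: formerly Pool.Agent.MP_94b95a_al.fl.Filt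
section MrgPart1

/-! PROJECT FLAW: the level filtration is central. -/

namespace Pool.Agent.MP_94b95a_al.Fl

open scoped commutatorElement
open StLem

namespace Filt

section Grp
variable {H : Type} [Group H]

theorem two {a b y : H} (h1 : Commute a y) (h2 : Commute a ⁅b⁻¹, y⁆) : Commute ⁅a, b⁆ y := by
  have h3 : Commute a⁻¹ (b⁻¹ * y * b⁻¹⁻¹) := by
    rw [conj_eq]; exact (h2.mul_right h1).inv_left
  have e : ⁅a, b⁆ * y * ⁅a, b⁆⁻¹ = a * b * (a⁻¹ * (b⁻¹ * y * b⁻¹⁻¹) * a⁻¹⁻¹) * b⁻¹ * a⁻¹ := by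
    simp only [commutatorElement_def]; group
  rw [h3.mul_inv_cancel, show a * b * (b⁻¹ * y * b⁻¹⁻¹) * b⁻¹ * a⁻¹ = a * y * a⁻¹ by group,
    h1.mul_inv_cancel] at e
  exact mul_inv_eq_iff_eq_mul.1 e

theorem three {x u v α β : H} (hα : ⁅x, u⁆ = α) (hβ : ⁅x, v⁆ = β) (h1 : Commute α β)
    (h2 : Commute β ⁅u, v⁆) (h3 : Commute α ⁅u, v⁆) (h4 : Commute β ⁅α, v⁆)
    (h5 : Commute α ⁅u, β⁆) (h6 : Commute ⁅α, v⁆ ⁅u, v⁆) :
    ⁅x, ⁅u, v⁆⁆ = ⁅u, β⁆ * ⁅α, v⁆ := by
  have e1 : x * ⁅u, v⁆ * x⁻¹ = ⁅x * u * x⁻¹, x * v * x⁻¹⁆ := by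
    simp only [commutatorElement_def]; group
  have e2 : ⁅α * u, β * v⁆ = α * (⁅u, β⁆ * (β * ⁅u, v⁆ * β⁻¹)) * α⁻¹ *
      (⁅α, β⁆ * (β * ⁅α, v⁆ * β⁻¹)) := by
    simp only [commutatorElement_def]; group
  rw [h2.mul_inv_cancel, h4.mul_inv_cancel, commutatorElement_eq_one_iff_commute.2 h1, one_mul,
    (h5.mul_right h3).mul_inv_cancel] at e2
  rw [commutatorElement_def x, e1, conj_eq x u, conj_eq x v, hα, hβ, e2, mul_assoc ⁅u, β⁆,
    ← h6.eq, ← mul_assoc, mul_inv_cancel_right]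

end Grp

variable {R : Type} [CommRing R] {I : Ideal R} {H : Type} [Group H] {x : Fin 5 → Fin 5 → R → H}

/-- level at least `n` -/
def W (I : Ideal R) (i j : Fin 5) (a : R) (n : ℤ) : Prop :=
  1 ≤ n ∧ ∃ e : ℕ, a ∈ I ^ e ∧ n ≤ lev i j e

theorem W.mul {i j k : Fin 5} {a b : R} {n m : ℤ} (ha : W I i j a n) (hb : W I j k b m) :
    W I i k (a * b) (n + m) := by
  obtain ⟨a1, e, a2, a3⟩ := ha
  obtain ⟨b1, f, b2, b3⟩ := hb
  refine ⟨by omega, e + f, pow_add I e f ▸ Ideal.mul_mem_mul a2 b2, ?_⟩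
  unfold lev at *
  push_cast
  omega

theorem W.neg {i j : Fin 5} {a : R} {n : ℤ} (ha : W I i j a n) : W I i j (-a) n := by
  obtain ⟨a1, e, a2, a3⟩ := ha
  exact ⟨a1, e, neg_mem a2, a3⟩

theorem W.leg {i j : Fin 5} {a : R} {n : ℤ} (ha : W I i j a n) (h : i ≠ j) : Leg I i j a := by
  obtain ⟨a1, e, a2, a3⟩ := ha
  by_cases hij : i < j
  · exact leg_of_lt a hij
  · refine leg_of_mem h (Ideal.pow_le_self ?_ a2)
    rintro rfl
    unfold lev at a3
    omega

theorem of_leg {i j : Fin 5} {a : R} (h : Leg I i j a) : W I i j a 1 := by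
  refine ⟨le_rfl, ?_⟩
  by_cases hij : i < j
  · exact ⟨0, by simp, by unfold lev; omega⟩
  · have := h.2
    rw [sig, if_neg hij] at this
    exact ⟨1, by simpa using this, by unfold lev; omega⟩

section Main
variable (hx : StFam I x) {k : ℤ} (hk : ∀ s ∈ levSet I x (k + 1), s = 1)
include hk

theorem z1 {i j : Fin 5} {a : R} {n : ℤ} (h : i ≠ j) (ha : W I i j a n) (hn : k + 1 ≤ n) :
    x i j a = 1 := by
  obtain ⟨a1, e, a2, a3⟩ := ha
  exact hk _ (Or.inl ⟨i, j, a, e, h, a2, by omega, by omega, rfl⟩)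

theorem z2 {i j : Fin 5} {a b : R} {n m : ℤ} (h : i ≠ j) (ha : W I i j a n) (hb : W I j i b m)
    (hn : k + 1 ≤ n + m) : Commute (x i j a) (x j i b) := by
  obtain ⟨a1, e, a2, a3⟩ := ha
  obtain ⟨b1, f, b2, b3⟩ := hb
  exact commutatorElement_eq_one_iff_commute.1
    (hk _ (Or.inr ⟨i, j, a, b, e, f, h, a2, b2, by omega, by omega, by omega, rfl⟩))

include hx

theorem z3 {i j p q : Fin 5} {a b : R} {n m : ℤ} (h : i ≠ j) (h' : p ≠ q) (ha : W I i j a n)
    (hb : W I p q b m) (hn : k + 1 ≤ n + m) : Commute (x i j a) (x p q b) := by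
  by_cases h1 : j = p
  · subst h1
    by_cases h2 : i = q
    · subst h2
      exact z2 hk h ha hb hn
    · exact commute_of_mul hx h2 (ha.leg h) (hb.leg h') (z1 hk h2 (ha.mul hb) hn)
  · by_cases h2 : i = q
    · subst h2
      exact (commute_of_mul hx (Ne.symm h1) (hb.leg h') (ha.leg h)
        (z1 hk (Ne.symm h1) (hb.mul ha) (by omega))).symm
    · exact hx.comm i j p q a b h1 h2 (ha.leg h) (hb.leg h')

theorem step2a {i j p q : Fin 5} {a b c : R} {n m : ℤ} (h : i ≠ j) (ha : W I i j a n)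
    (hb : W I j i b m) (hn : k ≤ n + m) (hc : Leg I p q c) (h1 : j ≠ p) (h2 : i ≠ q)
    (h3 : ¬ (p = i ∧ q = j)) : Commute ⁅x i j a, x j i b⁆ (x p q c) := by
  have wc := of_leg hc
  refine two (hx.comm i j p q a c h1 h2 (ha.leg h) hc) ?_
  rw [← hx.neg (hb.leg h.symm)]
  by_cases e1 : p = i
  · subst e1
    have : j ≠ q := fun e => h3 ⟨rfl, e.symm⟩
    rw [hx.heis j p q _ _ this (hb.neg.leg h.symm) hc]
    exact z3 hx hk h this ha (hb.neg.mul wc) (by omega)
  · by_cases e2 : q = j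
    · subst e2
      rw [← commutatorElement_inv, hx.heis p q i _ _ e1 hc (hb.neg.leg h.symm)]
      exact (z3 hx hk h e1 ha (wc.mul hb.neg) (by omega)).inv_right
    · rw [commutatorElement_eq_one_iff_commute.2
        (hx.comm j i p q _ c (Ne.symm e1) (Ne.symm e2) (hb.neg.leg h.symm) hc)]
      exact Commute.one_right _

theorem step2 {i j p q : Fin 5} {a b c : R} {n m : ℤ} (h : i ≠ j) (ha : W I i j a n)
    (hb : W I j i b m) (hn : k ≤ n + m) (hc : Leg I p q c) (h3 : ¬ (p = i ∧ q = j))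
    (h4 : ¬ (p = j ∧ q = i)) : Commute ⁅x i j a, x j i b⁆ (x p q c) := by
  by_cases h1 : j ≠ p ∧ i ≠ q
  · exact step2a hx hk h ha hb hn hc h1.1 h1.2 h3
  · have := hc.1
    rw [← commutatorElement_inv]
    exact (step2a hx hk h.symm hb ha (by omega) hc (by omega) (by omega) h4).inv_left

theorem step3 {i j p q : Fin 5} {a b c : R} {n : ℤ} {f : ℕ} (h : i ≠ j) (hs : ¬ Simple j i)
    (ha : W I i j a n) (hb : b ∈ I ^ f) (hf : 1 ≤ lev j i f) (hn : k ≤ n + lev j i f)
    (hc : Leg I p q c) (h3 : (p = i ∧ q = j) ∨ (p = j ∧ q = i)) :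
    Commute ⁅x i j a, x j i b⁆ (x p q c) := by
  obtain ⟨m, mj, mi, hm⟩ := exists_mid h.symm hs
  obtain ⟨b', b'', n', n'', w1, w2, e, rfl⟩ : ∃ b' b'' n' n'', W I j m b' n' ∧ W I m i b'' n'' ∧
      n' + n'' = lev j i f ∧ b = b' * b'' := by
    unfold lev at hf
    rcases hm with hm | hm
    · exact ⟨1, b, lev j m 0, lev m i f, ⟨by unfold lev; omega, 0, by simp, le_rfl⟩,
        ⟨by unfold lev; omega, f, hb, le_rfl⟩, by unfold lev; omega, (one_mul b).symm⟩
    · exact ⟨b, 1, lev j m f, lev m i 0, ⟨by unfold lev; omega, f, hb, le_rfl⟩,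
        ⟨by unfold lev; omega, 0, by simp, le_rfl⟩, by unfold lev; omega, (mul_one b).symm⟩
  have n0 := ha.1
  have n1 := w1.1
  have n2 := w2.1
  have wy := w1.mul w2
  have wα := ha.mul w1
  have wβ := (w2.mul ha).neg
  have hy := hx.heis j m i _ _ h.symm (w1.leg mj.symm) (w2.leg mi)
  have hα := hx.heis i j m _ _ mi.symm (ha.leg h) (w1.leg mj.symm)
  have hβ : ⁅x i j a, x m i b''⁆ = x m j (-(b'' * a)) := by
    rw [← commutatorElement_inv, hx.heis m i j _ _ mj (w2.leg mi) (ha.leg h),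
      hx.neg ((w2.mul ha).leg mj)]
  have hP : ∀ r s d, Leg I r s d → ¬ (r = i ∧ s = m) → ¬ (r = m ∧ s = i) →
      Commute ⁅x i m (a * b'), x m i b''⁆ (x r s d) := fun r s d hd d1 d2 =>
    step2 hx hk mi.symm wα w2 (by omega) hd d1 d2
  have hP' : ∀ r s d, Leg I r s d → ¬ (r = j ∧ s = m) → ¬ (r = m ∧ s = j) →
      Commute ⁅x j m b', x m j (-(b'' * a))⁆ (x r s d) := fun r s d hd d1 d2 =>
    step2 hx hk mj.symm w1 wβ (by omega) hd d1 d2
  rw [← hy, three hα hβ (z3 hx hk mi.symm mj wα wβ (by omega))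
    (hy ▸ z3 hx hk mj h.symm wβ wy (by omega)) (hy ▸ z3 hx hk mi.symm h.symm wα wy (by omega))
    (hP _ _ _ (wβ.leg mj) (by omega) (by omega)).symm
    (hP' _ _ _ (wα.leg mi.symm) (by omega) (by omega)).symm
    (hy ▸ hP _ _ _ (wy.leg h.symm) (by omega) (by omega))]
  exact (hP' _ _ _ hc (by omega) (by omega)).mul_left (hP _ _ _ hc (by omega) (by omega))

end Main

end Filt

open Filt in
theorem filt_thm : FiltStmt := by
  intro R _ I H _ x hx k hk s hs g hg
  obtain ⟨p, q, c, hc, rfl⟩ := hg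
  rcases hs with ⟨i, j, a, e, h, ha, h1, h2, rfl⟩ | ⟨i, j, a, b, e, f, h, ha, hb, h1, h2, h3, rfl⟩
  · exact z3 hx hk h hc.1 ⟨h1, e, ha, le_rfl⟩ (of_leg hc) (by omega)
  · have wa : W I i j a (lev i j e) := ⟨h1, e, ha, le_rfl⟩
    have wb : W I j i b (lev j i f) := ⟨h2, f, hb, le_rfl⟩
    by_cases h4 : (p = i ∧ q = j) ∨ (p = j ∧ q = i)
    · rcases not_simple_or i j with h5 | h5
      · rw [← commutatorElement_inv]
        exact (step3 hx hk h.symm h5 wb ha h1 (by omega) hc h4.symm).inv_left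
      · exact step3 hx hk h h5 wa hb h2 h3 hc h4
    · exact step2 hx hk h wa wb h3 hc (fun h => h4 (Or.inl h)) fun h => h4 (Or.inr h)

end Pool.Agent.MP_94b95a_al.Fl

end MrgPart1

-- ======== part 2: formerly Pool.Agent.MP_94b95a_al.fl.Ph2
section MrgPart2

/-! Vanishing of the nilpotent phase. -/

namespace Pool.Agent.MP_94b95a_al.Fl

open NormedSpace Matrix Filter Topology
open scoped commutatorElement

namespace Ph2

variable {N : ℕ}

theorem exp_poly {ν : Mat N} (h : IsNilpotent ν) :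
    ∃ q ∈ Algebra.adjoin ℂ {ν}, exp ν = 1 + ν * q := by
  obtain ⟨n, hn⟩ := h
  refine ⟨∑ k ∈ Finset.range n, (((k + 1).factorial : ℂ)⁻¹) • ν ^ k, ?_, ?_⟩
  · exact Subalgebra.sum_mem _ fun k _ => Subalgebra.smul_mem _
      (Subalgebra.pow_mem _ (Algebra.self_mem_adjoin_singleton ℂ ν) _) _
  · rw [exp_eq_tsum ℂ]
    dsimp only
    rw [tsum_eq_sum (s := Finset.range (n + 1)), Finset.sum_range_succ', add_comm, Finset.mul_sum]
    · congr 1
      · simp
      · refine Finset.sum_congr rfl fun k _ => ?_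
        rw [mul_smul_comm, pow_succ']
    · intro k hk
      rw [Finset.mem_range, not_lt] at hk
      rw [pow_eq_zero_of_le (by omega) hn, smul_zero]

theorem exp_uni {ν : Mat N} (h : IsNilpotent ν) : IsNilpotent (exp ν - 1) := by
  obtain ⟨q, hq, e⟩ := exp_poly h
  rw [e, add_sub_cancel_left]
  exact (Algebra.commute_of_mem_adjoin_self hq).isNilpotent_mul_right h

theorem exp_adj {ν : Mat N} (h : IsNilpotent ν) {S : Subalgebra ℂ (Mat N)} (hν : ν ∈ S) :
    exp ν ∈ S := by
  obtain ⟨q, hq, e⟩ := exp_poly h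
  rw [e]
  exact S.add_mem S.one_mem (S.mul_mem hν (Algebra.adjoin_singleton_le hν hq))

theorem uni_mul {u v : Mat N} (hu : IsNilpotent (u - 1)) (hv : IsNilpotent (v - 1))
    (h : Commute u v) : IsNilpotent (u * v - 1) := by
  have e : u * v - 1 = (u - 1) * v + (v - 1) := by noncomm_ring
  have c : Commute (u - 1) v := h.sub_left (Commute.one_left v)
  rw [e]
  exact Commute.isNilpotent_add
    ((c.sub_right (Commute.one_right _)).mul_left ((Commute.refl v).sub_right (Commute.one_right v)))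
    (c.isNilpotent_mul_right hu) hv

theorem uni_conj {u : Mat N} (hu : IsNilpotent (u - 1)) (g : GLN N) :
    IsNilpotent ((g : Mat N) * u * ((g⁻¹ : GLN N) : Mat N) - 1) := by
  obtain ⟨n, hn⟩ := hu
  refine ⟨n, ?_⟩
  have e : (g : Mat N) * u * ((g⁻¹ : GLN N) : Mat N) - 1
      = (g : Mat N) * (u - 1) * ((g⁻¹ : GLN N) : Mat N) := by
    rw [mul_sub, sub_mul, mul_one, Units.mul_inv]
  rw [e, Units.conj_pow, hn, mul_zero, zero_mul]

theorem leg_of_lev {R : Type} [CommRing R] {I : Ideal R} {i j : Fin 5} {a : R} {e : ℕ}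
    (hij : i ≠ j) (ha : a ∈ I ^ e) (h : 1 ≤ lev i j e) : Leg I i j a := by
  rcases Nat.eq_zero_or_pos e with rfl | he
  · refine leg_of_lt a ?_
    unfold lev at h
    rw [Fin.lt_def]; omega
  · exact leg_of_mem hij (Ideal.pow_le_self he.ne' ha)

end Ph2

open Ph2 in
theorem ph2_thm (hX : ExpFamStmt) (hF : FiltStmt) (hL : LogStmt) : Ph2Stmt := by
  intro N R _ I ν hν ⟨K, hK⟩ hM
  obtain ⟨x, hx, hxv⟩ := hX N R I ν hν
  obtain ⟨ℓ, hℓ, -⟩ := hL N
  have hcom : ∀ m : Mat N, (∀ i j a, Leg I i j a → Commute m (x i j a : Mat N)) →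
      ∀ y ∈ gens I ν, Commute m y := by
    rintro m h _ ⟨i, j, a, ha, rfl⟩
    rw [← hℓ _ (hν.nil i j a ha), ← hxv]
    exact Algebra.commute_of_mem_adjoin_singleton_of_commute
      (Polynomial.aeval_mem_adjoin_singleton ℂ _) (h i j a ha)
  have hone : ∀ i j a, ν i j a = 0 → x i j a = 1 := fun i j a h =>
    Units.ext (by rw [hxv, h, exp_zero, Units.val_one])
  have hadj : ∀ i j a, Leg I i j a → (x i j a : Mat N) ∈ Algebra.adjoin ℂ (gens I ν) :=
    fun i j a ha => by
      rw [hxv]; exact exp_adj (hν.nil i j a ha) (Algebra.subset_adjoin ⟨i, j, a, ha, rfl⟩)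
  have huni : ∀ i j a, Leg I i j a → IsNilpotent ((x i j a : Mat N) - 1) := fun i j a ha => by
    rw [hxv]; exact exp_uni (hν.nil i j a ha)
  have step : ∀ k : ℤ, (∀ s ∈ levSet I x (k + 1), s = 1) → ∀ s ∈ levSet I x k, s = 1 := by
    intro k hk s hs
    have hc : ∀ i j a, Leg I i j a → Commute s (x i j a) := fun i j a ha =>
      hF R I _ x hx k hk s hs _ ⟨i, j, a, ha, rfl⟩
    have fin : (s : Mat N) ∈ Algebra.adjoin ℂ (gens I ν) → IsNilpotent ((s : Mat N) - 1) →
        s = 1 := fun h1 h2 => by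
      have := hM _ (Subalgebra.sub_mem _ h1 (Subalgebra.one_mem _)) h2 (hcom _ fun i j a ha =>
        ((hc i j a ha).map (Units.coeHom (Mat N))).sub_left (Commute.one_left _))
      exact Units.ext (sub_eq_zero.mp this)
    rcases hs with ⟨i, j, a, e, hij, ha, h1, -, rfl⟩ | ⟨i, j, a, b, e, f, hij, ha, hb, h1, h2, -, rfl⟩
    · exact fin (hadj i j a (leg_of_lev hij ha h1)) (huni i j a (leg_of_lev hij ha h1))
    · have la := leg_of_lev hij ha h1
      have lb := leg_of_lev hij.symm hb h2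
      have ev : ((⁅x i j a, x j i b⁆ : GLN N) : Mat N) = (x i j a : Mat N) * (x j i b : Mat N) *
          (((x i j a)⁻¹ : GLN N) : Mat N) * (x j i (-b) : Mat N) := by
        rw [hx.neg lb, commutatorElement_def]; simp only [Units.val_mul]
      apply fin
      · rw [ev, ← hx.neg la]
        exact Subalgebra.mul_mem _ (Subalgebra.mul_mem _ (Subalgebra.mul_mem _ (hadj _ _ _ la)
          (hadj _ _ _ lb)) (hadj _ _ _ la.neg)) (hadj _ _ _ lb.neg)
      · rw [ev]
        refine uni_mul (uni_conj (huni _ _ _ lb) _) (huni _ _ _ lb.neg) ?_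
        have h3 : Commute (x i j a * x j i b * (x i j a)⁻¹) (x j i (-b)) := by
          have : x i j a * x j i b * (x i j a)⁻¹ = ⁅x i j a, x j i b⁆ * x j i b := by
            rw [commutatorElement_def]; group
          rw [this, hx.neg lb]
          exact ((hc j i b lb).mul_left (Commute.refl _)).inv_right
        exact h3.map (Units.coeHom (Mat N))
  have top : ∀ s ∈ levSet I x (10 * K + 5), s = 1 := by
    have z : ∀ i j a e, i ≠ j → a ∈ I ^ e → 1 ≤ lev i j e → K ≤ e → x i j a = 1 :=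
      fun i j a e hij ha h he => hone i j a
        (hK i j a (leg_of_lev hij ha h) (Ideal.pow_le_pow_right he ha))
    rintro s (⟨i, j, a, e, hij, ha, h1, h2, rfl⟩ | ⟨i, j, a, b, e, f, hij, ha, hb, h1, h2, h3, rfl⟩)
    · refine z i j a e hij ha h1 ?_
      unfold lev at h2
      have := i.2; have := j.2; omega
    · have : K ≤ e ∨ K ≤ f := by unfold lev at h3; omega
      rcases this with h | h
      · rw [z i j a e hij ha h1 h, commutatorElement_one_left]
      · rw [z j i b f hij.symm hb h2 h, commutatorElement_one_right]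
  have all : ∀ n : ℕ, ∀ s ∈ levSet I x (10 * K + 5 - n), s = 1 := by
    intro n
    induction n with
    | zero => simpa using top
    | succ n ih =>
      apply step
      have : (10 * K + 5 - ((n + 1 : ℕ) : ℤ) + 1 : ℤ) = 10 * K + 5 - n := by push_cast; ring
      rw [this]; exact ih
  intro i j a ha
  have h1 : x i j a = 1 := by
    apply all (10 * K + 5)
    by_cases hij : i < j
    · refine Or.inl ⟨i, j, a, 0, ha.1, by simp, ?_, ?_, rfl⟩ <;>
      · unfold lev; rw [Fin.lt_def] at hij; omega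
    · have hI : a ∈ I := by have := ha.2; unfold sig at this; rwa [if_neg hij] at this
      refine Or.inl ⟨i, j, a, 1, ha.1, by simpa using hI, ?_, ?_, rfl⟩ <;>
      · unfold lev; have := i.2; have := j.2; omega
  rw [← hℓ _ (hν.nil i j a ha), ← hxv, h1, Units.val_one, ← exp_zero (𝔸 := Mat N),
    hℓ _ IsNilpotent.zero]

end Pool.Agent.MP_94b95a_al.Fl

end MrgPart2

-- ======== part 3: formerly Pool.Agent.MP_94b95a_al.fl.Nil
section MrgPart3

/-! Commuting nilpotent ideals vanish when the moment map vanishes. -/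

namespace Pool.Agent.MP_94b95a_al.Fl

open NormedSpace Matrix Filter Topology Kn

namespace Nil

theorem proj {N : ℕ} (W : Submodule ℂ (Fin N → ℂ)) : ∃ P : Mat N, Pᴴ = P ∧ (∀ v, P *ᵥ v ∈ W) ∧
    ∀ v ∈ W, P *ᵥ v = v := by
  let W' : Submodule ℂ (EuclideanSpace ℂ (Fin N)) :=
    W.comap (WithLp.linearEquiv 2 ℂ (Fin N → ℂ)).toLinearMap
  let P : Mat N := (toEuclideanCLM (n := Fin N) (𝕜 := ℂ)).symm W'.starProjection
  have hP : ∀ v, WithLp.toLp 2 (P *ᵥ v) = W'.starProjection (WithLp.toLp 2 v) := fun v => by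
    rw [← toEuclideanCLM_toLp]
    simp [P]
  refine ⟨P, ?_, fun v => ?_, fun v hv => ?_⟩
  · rw [← star_eq_conjTranspose, ← map_star, isSelfAdjoint_starProjection]
  · have := W'.starProjection_apply_mem (WithLp.toLp 2 v)
    rw [← hP] at this
    exact this
  · have := hP v
    rw [Submodule.starProjection_eq_self_iff.2 (show WithLp.toLp 2 v ∈ W' from hv)] at this
    exact congrArg WithLp.ofLp this

end Nil

theorem nil_thm : NilStmt := by
  intro N ι _ x hx M hadj hnil hcomm hbr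
  let W : Submodule ℂ (Fin N → ℂ) := ⨅ m : M, LinearMap.ker (toLin' (m : Mat N))
  have hW : ∀ v, v ∈ W ↔ ∀ m ∈ M, m *ᵥ v = 0 := fun v => by simp [W]
  obtain ⟨P, hP, h1, h2⟩ := Nil.proj W
  have hPP : P * P = P := toLin'.injective (LinearMap.ext fun v => by
    rw [toLin'_apply, toLin'_apply, ← mulVec_mulVec, h2 _ (h1 v)])
  have hst : ∀ j, ∀ v ∈ W, x j *ᵥ v ∈ W := by
    intro j v hv
    refine (hW _).2 fun m hm => ?_
    have : ∀ y ∈ Submodule.span ℂ M, y *ᵥ v = 0 := fun y hy => by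
      induction hy using Submodule.span_induction with
      | mem y hy => exact (hW v).1 hv y hy
      | zero => exact zero_mulVec v
      | add a b _ _ ha hb => rw [add_mulVec, ha, hb, add_zero]
      | smul c a _ ha => rw [smul_mulVec, ha, smul_zero]
    have h3 := this _ (hbr j m hm)
    rwa [sub_mulVec, ← mulVec_mulVec, ← mulVec_mulVec, (hW v).1 hv m hm, mulVec_zero, zero_sub,
      neg_eq_zero] at h3
  have hxP : ∀ j, P * x j * P = x j * P := fun j => toLin'.injective (LinearMap.ext fun v => by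
    rw [toLin'_apply, toLin'_apply, ← mulVec_mulVec, ← mulVec_mulVec, ← mulVec_mulVec,
      h2 _ (hst j _ (h1 v))])
  have hsum : ∑ j, fn (P * x j - x j * P) = 0 := by
    apply Complex.ofReal_injective
    have h3 : (P * mu x).trace = 0 := by rw [hx, Matrix.mul_zero, trace_zero]
    rw [Complex.ofReal_sum, Complex.ofReal_zero, ← h3, mu, Finset.mul_sum, trace_sum]
    refine Finset.sum_congr rfl fun j _ => ?_
    have h4 : P * (x j)ᴴ * P = P * (x j)ᴴ := by
      have := congrArg conjTranspose (hxP j)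
      rwa [conjTranspose_mul, conjTranspose_mul, conjTranspose_mul, hP, ← Matrix.mul_assoc] at this
    have e1 : (P * x j * ((x j)ᴴ * P)).trace = (P * (x j * (x j)ᴴ)).trace := by
      rw [← Matrix.mul_assoc, trace_mul_comm, ← Matrix.mul_assoc, ← Matrix.mul_assoc, hPP,
        Matrix.mul_assoc]
    have e2 : (x j * P * (P * (x j)ᴴ)).trace = (P * ((x j)ᴴ * x j)).trace := by
      rw [Matrix.mul_assoc, ← Matrix.mul_assoc P, hPP, trace_mul_comm, Matrix.mul_assoc]
    have e3 : x j * P * ((x j)ᴴ * P) = x j * P * (P * (x j)ᴴ) := by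
      rw [Matrix.mul_assoc, Matrix.mul_assoc, ← Matrix.mul_assoc P, ← Matrix.mul_assoc P, h4, hPP]
    have e4 : P * x j * (P * (x j)ᴴ) = x j * P * (P * (x j)ᴴ) := by
      rw [← Matrix.mul_assoc, hxP, ← Matrix.mul_assoc, Matrix.mul_assoc (x j) P P, hPP]
    rw [fn_tr, conjTranspose_sub, conjTranspose_mul, conjTranspose_mul, hP, Matrix.sub_mul,
      Matrix.mul_sub, Matrix.mul_sub, Matrix.mul_sub, e3, e4, sub_self, sub_zero, trace_sub,
      trace_sub, e1, e2]
  have hc : ∀ j, Commute P (x j) := fun j => sub_eq_zero.1 (fn_eq_zero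
    ((Finset.sum_eq_zero_iff_of_nonneg fun _ _ => fn_nonneg _).1 hsum j (Finset.mem_univ j)))
  have hcM : ∀ m ∈ M, Commute P m := fun m hm =>
    Algebra.commute_of_mem_adjoin_of_forall_mem_commute (hadj m hm) (by
      rintro _ ⟨j, rfl⟩
      exact hc j)
  have hker : LinearMap.ker (toLin' P) = ⊥ := by
    by_contra hne
    obtain ⟨V, ⟨hV0, hV1, hV2⟩, hVm⟩ := (wellFounded_lt (α := Submodule ℂ (Fin N → ℂ))).has_min
      {V | V ≠ ⊥ ∧ (∀ v ∈ V, P *ᵥ v = 0) ∧ ∀ m ∈ M, ∀ v ∈ V, m *ᵥ v ∈ V}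
      ⟨_, hne, fun v hv => hv, fun m hm v hv => by
        have hv' : P *ᵥ v = 0 := hv
        show P *ᵥ (m *ᵥ v) = 0
        rw [mulVec_mulVec, (hcM m hm).eq, ← mulVec_mulVec, hv', mulVec_zero]⟩
    refine hV0 (eq_bot_iff.2 fun v hv => ?_)
    rw [Submodule.mem_bot, ← h2 v ((hW v).2 fun m hm => ?_), hV1 v hv]
    by_contra hmv
    have hle : V.map (toLin' m) ≤ V := by
      rintro _ ⟨w, hw, rfl⟩
      exact hV2 m hm w hw
    have heq : V.map (toLin' m) = V := by
      refine eq_of_le_of_not_lt hle (hVm _ ⟨fun h => hmv ?_, fun w hw => hV1 w (hle hw), ?_⟩)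
      · exact (Submodule.mem_bot ℂ).1 (h ▸ Submodule.mem_map_of_mem (f := toLin' m) hv)
      · rintro m' hm' _ ⟨w, hw, rfl⟩
        refine ⟨m' *ᵥ w, hV2 m' hm' w hw, ?_⟩
        rw [toLin'_apply, toLin'_apply, mulVec_mulVec, mulVec_mulVec, (hcomm m hm m' hm').eq]
    obtain ⟨k, hk⟩ := hnil m hm
    have hall : ∀ i : ℕ, ∀ w ∈ V, ∃ w' ∈ V, (m ^ i) *ᵥ w' = w := by
      intro i
      induction i with
      | zero => exact fun w hw => ⟨w, hw, by simp⟩
      | succ i ih =>
        intro w hw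
        obtain ⟨w', hw', rfl⟩ := ih w hw
        obtain ⟨w'', h5, rfl⟩ := heq.symm.le hw'
        exact ⟨w'', h5, by rw [pow_succ, ← mulVec_mulVec, toLin'_apply]⟩
    obtain ⟨w, -, hw⟩ := hall k v hv
    rw [hk, zero_mulVec] at hw
    exact hmv (by rw [← hw, mulVec_zero])
  intro m hm
  refine toLin'.injective (LinearMap.ext fun v => ?_)
  have hv : P *ᵥ v = v := by
    have : toLin' P (P *ᵥ v - v) = 0 := by
      rw [toLin'_apply, mulVec_sub, mulVec_mulVec, hPP, sub_self]
    exact sub_eq_zero.1 (LinearMap.ker_eq_bot'.1 hker _ this)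
  rw [toLin'_apply, toLin'_apply, zero_mulVec, ← hv]
  exact (hW _).1 (h1 v) m hm

end Pool.Agent.MP_94b95a_al.Fl

end MrgPart3

-- ======== part 4: formerly Pool.Agent.MP_94b95a_al.fl.Points
section MrgPart4

/-! A Steinberg family with vanishing moment is a sum over complex points. -/

namespace Pool.Agent.MP_94b95a_al.Fl

open NormedSpace Matrix Filter Topology
open scoped TensorProduct

namespace Points

variable {N : ℕ} {R : Type} [CommRing R] {ε : R →+* ℤ} {ν : Fin 5 → Fin 5 → R → Mat N}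

/-- Projection of the ring to the ideal of the net. -/
def pj (ε : R →+* ℤ) (i j : Fin 5) (a : R) : R := if i < j then a else a - (ε a : R)

theorem pj_leg {i j : Fin 5} (h : i ≠ j) (a : R) : Leg (RingHom.ker ε) i j (pj ε i j a) := by
  unfold pj
  split_ifs with hij
  · exact leg_of_lt a hij
  · exact leg_of_mem h (by simp [RingHom.mem_ker])

theorem pj_add (i j : Fin 5) (a b : R) : pj ε i j (a + b) = pj ε i j a + pj ε i j b := by
  unfold pj
  split_ifs
  · rfl
  · rw [map_add]; push_cast; ring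

theorem pj_of_leg {i j : Fin 5} {a : R} (h : Leg (RingHom.ker ε) i j a) : pj ε i j a = a := by
  have h2 := h.2
  unfold sig at h2
  unfold pj
  split_ifs at h2 ⊢
  · rfl
  · rw [RingHom.mem_ker] at h2; simp [h2]

/-- The additive extension. -/
noncomputable def ad (hν : LieFam (RingHom.ker ε) ν) (i j : Fin 5) : R →+ Mat N :=
  if h : i = j then 0 else AddMonoidHom.mk' (fun a => ν i j (pj ε i j a)) fun a b => by
    rw [pj_add, hν.add i j _ _ (pj_leg h a) (pj_leg h b)]

/-- The linear extension. -/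
noncomputable def lin (hν : LieFam (RingHom.ker ε) ν) (i j : Fin 5) : ℂ ⊗[ℤ] R →ₗ[ℂ] Mat N :=
  (ad hν i j).toIntLinearMap.liftBaseChange ℂ

theorem lin_one (hν : LieFam (RingHom.ker ε) ν) {i j : Fin 5} {a : R}
    (h : Leg (RingHom.ker ε) i j a) : lin hν i j (1 ⊗ₜ a) = ν i j a := by
  unfold lin ad
  rw [LinearMap.liftBaseChange_one_tmul, dif_neg h.1]
  change ν i j (pj ε i j a) = _
  rw [pj_of_leg h]

/-- The complexified augmentation. -/
noncomputable def eS (ε : R →+* ℤ) : ℂ ⊗[ℤ] R →ₐ[ℂ] ℂ :=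
  Algebra.TensorProduct.lift (AlgHom.id ℂ ℂ) (org ε).toIntAlgHom fun _ _ => Commute.all _ _

theorem eS_tmul (z : ℂ) (a : R) : eS ε (z ⊗ₜ a) = z * (ε a : ℂ) := by
  simp [eS, org]

theorem leg_one {i j : Fin 5} {a : R} (h : Leg (RingHom.ker ε) i j a) :
    Leg (RingHom.ker (eS ε)) i j ((1 : ℂ) ⊗ₜ[ℤ] a) := by
  refine ⟨h.1, ?_⟩
  have h2 := h.2
  unfold sig at h2 ⊢
  split_ifs at h2 ⊢
  · trivial
  · rw [RingHom.mem_ker] at h2 ⊢; rw [eS_tmul, h2]; simp

/-- The legitimate pure tensors. -/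
def pure (ε : R →+* ℤ) (i j : Fin 5) : Set (ℂ ⊗[ℤ] R) :=
  {s | ∃ a, Leg (RingHom.ker ε) i j a ∧ s = (1 : ℂ) ⊗ₜ[ℤ] a}

theorem leg_span {i j : Fin 5} {s : ℂ ⊗[ℤ] R} (h : Leg (RingHom.ker (eS ε)) i j s) :
    s ∈ Submodule.span ℂ (pure ε i j) := by
  have key : ∀ t : ℂ ⊗[ℤ] R, (if i < j then t else t - eS ε t • (1 : ℂ ⊗[ℤ] R)) ∈
      Submodule.span ℂ (pure ε i j) := by
    intro t
    induction t using TensorProduct.induction_on with
    | zero => simp
    | tmul z a =>
      have h1 := Submodule.smul_mem _ z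
        (Submodule.subset_span (R := ℂ) (s := pure ε i j) ⟨_, pj_leg h.1 a, rfl⟩)
      convert h1 using 1
      unfold pj
      split_ifs
      · simp [TensorProduct.smul_tmul']
      · rw [eS_tmul, TensorProduct.tmul_sub, smul_sub, TensorProduct.smul_tmul', smul_eq_mul,
          mul_one, mul_smul]
        congr 2
        rw [← zsmul_one (R := R), TensorProduct.tmul_smul, Int.cast_smul_eq_zsmul,
          Algebra.TensorProduct.one_def]
    | add x y hx hy =>
      convert Submodule.add_mem _ hx hy using 1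
      split_ifs
      · rfl
      · rw [map_add, add_smul]; ring
  have h1 := key s
  have h2 := h.2
  unfold sig at h2
  split_ifs at h1 h2
  · exact h1
  · rw [RingHom.mem_ker] at h2
    rwa [h2, zero_smul, sub_zero] at h1

theorem lieFam (hν : LieFam (RingHom.ker ε) ν) :
    LieFam (RingHom.ker (eS ε)) (fun i j a => lin hν i j a) := by
  have hc : ∀ i j k l s t, j ≠ k → i ≠ l → s ∈ Submodule.span ℂ (pure ε i j) →
      t ∈ Submodule.span ℂ (pure ε k l) → Commute (lin hν i j s) (lin hν k l t) := by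
    intro i j k l s t p q hs ht
    induction hs, ht using Submodule.span_induction₂ with
    | mem_mem x y hx hy =>
      obtain ⟨a, ha, rfl⟩ := hx
      obtain ⟨b, hb, rfl⟩ := hy
      rw [lin_one hν ha, lin_one hν hb]; exact hν.comm i j k l a b p q ha hb
    | zero_left => simp
    | zero_right => simp
    | add_left x y z _ _ _ h h' => rw [map_add]; exact h.add_left h'
    | add_right x y z _ _ _ h h' => rw [map_add]; exact h.add_right h'
    | smul_left r x y _ _ h => rw [map_smul]; exact h.smul_left r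
    | smul_right r x y _ _ h => rw [map_smul]; exact h.smul_right r
  refine ⟨fun i j a b _ _ => map_add _ a b, fun i j k s t hik hs ht => ?_,
    fun i j k l s t p q hs ht => hc i j k l s t p q (leg_span hs) (leg_span ht),
    fun i j s hs => ?_⟩
  · have hs' := leg_span hs
    have ht' := leg_span ht
    clear hs ht
    induction hs', ht' using Submodule.span_induction₂ with
    | mem_mem x y hx hy =>
      obtain ⟨a, ha, rfl⟩ := hx
      obtain ⟨b, hb, rfl⟩ := hy
      rw [Algebra.TensorProduct.tmul_mul_tmul, one_mul, lin_one hν ha, lin_one hν hb,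
        lin_one hν (ha.mul hik hb)]
      exact hν.heis i j k a b hik ha hb
    | zero_left => simp
    | zero_right => simp
    | add_left x y z _ _ _ h h' => rw [add_mul, map_add, map_add, ← h, ← h']; noncomm_ring
    | add_right x y z _ _ _ h h' => rw [mul_add, map_add, map_add, ← h, ← h']; noncomm_ring
    | smul_left r x y _ _ h =>
      rw [smul_mul_assoc, map_smul, map_smul, ← h, smul_mul_assoc, mul_smul_comm, smul_sub]
    | smul_right r x y _ _ h =>
      rw [mul_smul_comm, map_smul, map_smul, ← h, smul_mul_assoc, mul_smul_comm, smul_sub]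
  · have hs' := leg_span hs
    have hij := hs.1
    clear hs
    induction hs' using Submodule.span_induction with
    | mem x hx => obtain ⟨a, ha, rfl⟩ := hx; rw [lin_one hν ha]; exact hν.nil i j a ha
    | zero => rw [map_zero]; exact IsNilpotent.zero
    | add x y hx hy h h' =>
      rw [map_add]; exact (hc i j i j x y hij.symm hij hx hy).isNilpotent_add h h'
    | smul r x _ h => rw [map_smul]; exact h.smul r

theorem span_eq (hν : LieFam (RingHom.ker ε) ν) :
    Submodule.span ℂ (gens (RingHom.ker ε) ν) =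
      Submodule.span ℂ (gens (RingHom.ker (eS ε)) (fun i j a => lin hν i j a)) := by
  apply le_antisymm <;> rw [Submodule.span_le]
  · rintro _ ⟨i, j, a, ha, rfl⟩
    exact Submodule.subset_span ⟨i, j, _, leg_one ha, (lin_one hν ha).symm⟩
  · rintro _ ⟨i, j, s, hs, rfl⟩
    have h := Submodule.mem_map_of_mem (f := lin hν i j) (leg_span hs)
    rw [Submodule.map_span] at h
    refine Submodule.span_mono ?_ h
    rintro _ ⟨_, ⟨a, ha, rfl⟩, rfl⟩
    exact ⟨i, j, a, ha, lin_one hν ha⟩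

end Points

open Points in
theorem points_thm (hP : PhaseStmt) : PointsStmt := by
  intro N R _ ε ν hν ι _ x hx hsp
  obtain ⟨r, φ, L, h1, h2, h3, h4, h5⟩ := hP N (ℂ ⊗[ℤ] R) (eS ε) (lin hν) (lieFam hν) ι x hx
    (hsp.trans (span_eq hν))
  refine ⟨r, fun k => (φ k).toRingHom.comp
    (Algebra.TensorProduct.includeRight (R := ℤ) (A := ℂ) (B := R)).toRingHom, L, fun k hk => ?_,
    h2, fun i j a ha => ?_, fun k i j h => ?_, h5⟩
  · apply h1 k
    refine AlgHom.ext fun s => ?_
    induction s using TensorProduct.induction_on with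
    | zero => simp
    | tmul z a =>
      have e : φ k (1 ⊗ₜ a) = (ε a : ℂ) := DFunLike.congr_fun hk a
      have e' : (z ⊗ₜ[ℤ] a : ℂ ⊗[ℤ] R) = z • ((1 : ℂ) ⊗ₜ[ℤ] a) := by
        simp [TensorProduct.smul_tmul']
      rw [eS_tmul, e', map_smul, e, smul_eq_mul]
    | add y z hy hz => rw [map_add, map_add, hy, hz]
  · rw [← lin_one hν ha, h3 i j _ (leg_one ha)]; rfl
  · obtain ⟨b, hb, e⟩ := h4 k i j h
    rw [span_eq hν, e]
    exact Submodule.subset_span ⟨i, j, b, hb, rfl⟩

end Pool.Agent.MP_94b95a_al.Fl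

end MrgPart4

-- ======== part 5: formerly Pool.Agent.MP_94b95a_al.fl.Fin0
section MrgPart5

/-! PROJECT FLAW: finiteness in the nilpotent case. -/

namespace Pool.Agent.MP_94b95a_al.Fl

open scoped commutatorElement
open StLem

namespace Fin0

theorem finite_closure {H : Type} [Group H] {S : Set H} (hS : S.Finite)
    (hc : ∀ s ∈ S, ∀ g, Commute s g) (ht : ∀ s ∈ S, IsOfFinOrder s) :
    Finite (Subgroup.closure S) := by
  have : IsMulCommutative (Subgroup.closure S) :=
    Subgroup.isMulCommutative_closure fun a ha b _ => hc a ha b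
  let : CommGroup (Subgroup.closure S) :=
    { (inferInstance : Group (Subgroup.closure S)) with mul_comm := this.is_comm.comm }
  have : Group.FG (Subgroup.closure S) :=
    (Group.fg_iff_subgroup_fg _).2 ((Subgroup.fg_iff _).2 ⟨S, rfl, hS⟩)
  refine CommGroup.finite_of_fg_isMulTorsion _ fun g => ?_
  rw [← (Subgroup.closure S).subtype_injective.isOfFinOrder_iff]
  obtain ⟨g, hg⟩ := g
  change IsOfFinOrder g
  induction hg using Subgroup.closure_induction_left with
  | one => exact IsOfFinOrder.one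
  | mul_left s hs y _ ih => exact (hc s hs y).isOfFinOrder_mul (ht s hs) ih
  | inv_mul_cancel s hs y _ ih => exact (hc s hs y).inv_left.isOfFinOrder_mul (ht s hs).inv ih

theorem comm_pow {H : Type} [Group H] {a b : H} (h : Commute ⁅a, b⁆ a) (n : ℕ) :
    ⁅a, b⁆ ^ n = ⁅a ^ n, b⁆ := by
  induction n with
  | zero => simp
  | succ n ih =>
    rw [pow_succ', ih, pow_succ, ← (h.pow_right n).symm.mul_inv_cancel]
    simp only [commutatorElement_def]; group

variable {R : Type} [CommRing R] {I : Ideal R}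

theorem root_tors {H : Type} [Group H] {x : Fin 5 → Fin 5 → R → H} (hx : StFam I x) {i j : Fin 5}
    (hf : (rootSet I x i j).Finite) {a : R} (ha : Leg I i j a) : IsOfFinOrder (x i j a) := by
  rw [← finite_powers]
  refine hf.subset ?_
  rintro _ ⟨n, rfl⟩
  refine ⟨n * a, ha.mul_left _, ?_⟩
  induction n with
  | zero => simp [hx.zero ha.1]
  | succ n ih =>
    dsimp only at ih ⊢
    rw [pow_succ, ih, Nat.cast_succ, add_mul, one_mul, hx.add i j _ _ (ha.mul_left _) ha]

theorem leg_of_lev {i j : Fin 5} {a : R} {e : ℕ} (h : i ≠ j) (ha : a ∈ I ^ e)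
    (h1 : 1 ≤ lev i j e) : Leg I i j a := by
  by_cases hij : i < j
  · exact leg_of_lt a hij
  · refine leg_of_mem h (Ideal.pow_le_self ?_ ha)
    rintro rfl
    unfold lev at h1
    omega

theorem main (hF : FiltStmt) (n : ℕ) : ∀ (H : Type) [Group H] (x : Fin 5 → Fin 5 → R → H),
    StFam I x → Subgroup.closure (gens I x) = ⊤ → (∀ i j, (rootSet I x i j).Finite) →
    (∀ s ∈ levSet I x (n + 1), s = 1) → Finite H := by
  induction n with
  | zero =>
    intro H _ x hx hg hf h1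
    have : Subgroup.closure (gens I x) ≤ ⊥ := by
      rw [Subgroup.closure_le]
      rintro _ ⟨i, j, a, ha, rfl⟩
      refine h1 _ (Or.inl ?_)
      by_cases hij : i < j
      · exact ⟨i, j, a, 0, ha.1, by simp, by unfold lev; omega, by unfold lev; omega, rfl⟩
      · have := ha.2
        rw [sig, if_neg hij] at this
        exact ⟨i, j, a, 1, ha.1, by simpa using this, by unfold lev; omega, by unfold lev; omega,
          rfl⟩
    rw [hg] at this
    have : Subsingleton H := ⟨fun a b => (Subgroup.mem_bot.1 (this (Subgroup.mem_top a))).trans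
      (Subgroup.mem_bot.1 (this (Subgroup.mem_top b))).symm⟩
    infer_instance
  | succ n ih =>
    intro H _ x hx hg hf h1
    have hc : ∀ s ∈ levSet I x (n + 1), ∀ g, Commute s g := by
      intro s hs g
      have : Subgroup.closure (gens I x) ≤ Subgroup.centralizer {s} := by
        rw [Subgroup.closure_le]
        rintro g hg _ rfl
        exact hF R I H x hx (n + 1) (by simpa using h1) _ hs g hg
      exact this (hg ▸ Subgroup.mem_top g) s rfl
    have hG := gens_finite hf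
    have hS : (levSet I x (n + 1)).Finite := by
      refine (hG.union (hG.image2 (fun a b => ⁅a, b⁆) hG)).subset ?_
      rintro _ (⟨i, j, a, e, h, ha, h1, -, rfl⟩ | ⟨i, j, a, b, e, f, h, ha, hb, h1, h2, -, rfl⟩)
      · exact Or.inl ⟨i, j, a, leg_of_lev h ha h1, rfl⟩
      · exact Or.inr ⟨_, ⟨i, j, a, leg_of_lev h ha h1, rfl⟩, _,
          ⟨j, i, b, leg_of_lev h.symm hb h2, rfl⟩, rfl⟩
    have ht : ∀ s ∈ levSet I x (n + 1), IsOfFinOrder s := by
      intro s hs
      have hcs := hc s hs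
      rcases hs with ⟨i, j, a, e, h, ha, h1, -, rfl⟩ | ⟨i, j, a, b, e, f, h, ha, hb, h1, h2, -, rfl⟩
      · exact root_tors hx (hf i j) (leg_of_lev h ha h1)
      · obtain ⟨m, hm, e⟩ := isOfFinOrder_iff_pow_eq_one.1
          (root_tors hx (hf i j) (leg_of_lev h ha h1))
        exact isOfFinOrder_iff_pow_eq_one.2 ⟨m, hm, by rw [comm_pow (hcs _), e]; simp⟩
    set Z := Subgroup.closure (levSet I x (n + 1)) with hZ
    have : Finite Z := finite_closure hS hc ht
    have : Z.Normal := by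
      refine ⟨fun z hz g => ?_⟩
      have : Z ≤ Subgroup.centralizer {g} := by
        rw [hZ, Subgroup.closure_le]
        rintro s hs _ rfl
        exact (hc s hs _).symm
      rw [this hz g rfl, mul_inv_cancel_right]
      exact hz
    have : Finite (H ⧸ Z) := by
      refine ih _ _ (hx.map (QuotientGroup.mk' Z)) ?_ (fun i j => ?_) ?_
      · rw [eq_top_iff, ← Subgroup.map_top_of_surjective _ (QuotientGroup.mk'_surjective Z), ← hg,
          MonoidHom.map_closure]
        apply Subgroup.closure_mono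
        rintro _ ⟨_, ⟨i, j, a, ha, rfl⟩, rfl⟩
        exact ⟨i, j, a, ha, rfl⟩
      · refine ((hf i j).image (QuotientGroup.mk' Z)).subset ?_
        rintro _ ⟨a, ha, rfl⟩
        exact ⟨_, ⟨a, ha, rfl⟩, rfl⟩
      · rintro _ (⟨i, j, a, e, h, ha, h1, h2, rfl⟩ | ⟨i, j, a, b, e, f, h, ha, hb, h1, h2, h3, rfl⟩)
        · exact (QuotientGroup.eq_one_iff _).2
            (Subgroup.subset_closure (Or.inl ⟨i, j, a, e, h, ha, h1, h2, rfl⟩))
        · rw [← map_commutatorElement]
          exact (QuotientGroup.eq_one_iff _).2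
            (Subgroup.subset_closure (Or.inr ⟨i, j, a, b, e, f, h, ha, hb, h1, h2, h3, rfl⟩))
    exact Finite.of_subgroup_quotient Z

end Fin0

open Fin0 in
theorem fin0_thm (hF : FiltStmt) : Fin0Stmt := by
  rintro R _ I H _ x hx hg hf ⟨K, hK⟩
  refine main hF (10 * K + 10) H x hx hg hf ?_
  rintro _ (⟨i, j, a, e, h, ha, h1, h2, rfl⟩ | ⟨i, j, a, b, e, f, h, ha, hb, h1, h2, h3, rfl⟩)
  · refine hK i j a (leg_of_lev h ha h1) (Ideal.pow_le_pow_right ?_ ha)
    unfold lev at h2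
    omega
  · have : K ≤ e ∨ K ≤ f := by
      unfold lev at h3
      omega
    rcases this with h4 | h4
    · rw [hK i j a (leg_of_lev h ha h1) (Ideal.pow_le_pow_right h4 ha), commutatorElement_one_left]
    · rw [hK j i b (leg_of_lev h.symm hb h2) (Ideal.pow_le_pow_right h4 hb),
        commutatorElement_one_right]

end Pool.Agent.MP_94b95a_al.Fl

end MrgPart5

-- ======== part 6: formerly Pool.Agent.MP_94b95a_al.fl.Nfex
section MrgPart6

/-! Existence of normal forms in orbit closures. -/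

namespace Pool.Agent.MP_94b95a_al.Fl

open NormedSpace Matrix Filter Topology NfB

namespace Nfex

variable {N : ℕ}

theorem off_scale {κ : Type} {L : κ → Fin 5 → Fin 5 → Mat N} (h : OffFam L) (s : κ → ℂ)
    (hs : ∀ k, s k ≠ 0) : OffFam fun k i j => s k ^ ((i : ℤ) - (j : ℤ)) • L k i j where
  heis k i j l h1 h2 h3 := by
    rw [smul_mul_smul_comm, smul_mul_smul_comm, mul_comm (s k ^ ((j : ℤ) - (l : ℤ))), ← smul_sub,
      h.heis k i j l h1 h2 h3, ← zpow_add₀ (hs k), sub_add_sub_cancel]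
  comm k i j p q h1 h2 h3 h4 := ((h.comm k i j p q h1 h2 h3 h4).smul_left _).smul_right _
  cross k k' h0 i j p q h1 h2 := ((h.cross k k' h0 i j p q h1 h2).smul_left _).smul_right _

theorem gl_map {κ : Type} {L : κ → Fin 5 → Fin 5 → Mat N} (h : GlFam L) (P : Mat N →ₗ[ℂ] Mat N)
    (hP : ∀ k a b k' c d, P (L k a b * L k' c d) = P (L k a b) * P (L k' c d)) :
    GlFam fun k a b => P (L k a b) where
  rel k a b c d := by
    rw [← hP, ← hP, ← map_sub, h.rel, map_sub, apply_ite P, apply_ite P, map_zero]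
  tr k := by rw [← map_sum, h.tr, map_zero]
  comm k k' hk a b c d := by
    rw [Commute, SemiconjBy, ← hP, ← hP, (h.comm k k' hk a b c d).eq]

theorem pad {κ κ' : Type} (e : κ → κ') (he : Function.Injective e) {α : Type} (f : κ → α)
    (z : α) : ∃ f' : κ' → α, (∀ k, f' (e k) = f k) ∧ ∀ k', k' ∉ Set.range e → f' k' = z :=
  ⟨Function.extend e f fun _ => z, fun k => he.extend_apply _ _ k,
    fun k' h => Function.extend_apply' _ _ k' h⟩

end Nfex

open Nfex in
theorem nfex_thm (hl : LieStmt) (hb : BochStmt) (hgr : GlRelStmt) (hp : PointsStmt)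
    (hg : GlStmt) (hA : NfAStmt) (hd : DegStmt) : NfexStmt := by
  classical
  intro N G hG R _ _ ε lam hlam ρ
  obtain ⟨T, ρ₁, hT, hρ₁, hc, hU, hH⟩ := hA N G hG R ε ρ
  obtain ⟨x, hx1, hx2, -⟩ := Submodule.exists_fun_fin_finrank_span_eq ℂ
    (gens (RingHom.ker ε) T.ν)
  generalize Module.finrank ℂ (Submodule.span ℂ (gens (RingHom.ker ε) T.ν)) = n at x hx1 hx2
  obtain ⟨P, ρ₂, hmu, -, -, -, -, hT₂, hρ₂, hcl₂⟩ := hd N G hG R _ T ρ₁ hT hρ₁ hU hH _ x
    (fun j => by obtain ⟨i, k, a, ha, e⟩ := hx1 j; exact e ▸ hT.νG i k a ha)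
    (fun j γ => by obtain ⟨i, k, a, ha, e⟩ := hx1 j; exact e ▸ hT.eν γ i k a ha)
    (fun j γ => by obtain ⟨i, k, a, ha, e⟩ := hx1 j; exact e ▸ hT.Aν γ i k a ha)
    fun y hy => hx2.ge (Submodule.subset_span hy)
  obtain ⟨r, c, L, hc0, hL, hν, hLs, hL0⟩ := hp N R ε _ hT₂.lie _ _ hmu (by
    have e1 : gens (RingHom.ker ε) (fun i j a => P (T.ν i j a)) =
        P '' gens (RingHom.ker ε) T.ν := by
      ext y
      constructor
      · rintro ⟨i, j, a, ha, rfl⟩
        exact ⟨_, ⟨i, j, a, ha, rfl⟩, rfl⟩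
      · rintro ⟨_, ⟨i, j, a, ha, rfl⟩, rfl⟩
        exact ⟨i, j, a, ha, rfl⟩
    rw [e1, Submodule.span_image, ← hx2, ← Submodule.span_image, ← Set.range_comp]
    rfl)
  generalize (fun i j a => P (T.ν i j a)) = ν at hT₂ hρ₂ hν hLs
  have hs : ∀ k, (lam (c k) : ℂ) ≠ 0 := fun k =>
    Complex.ofReal_ne_zero.2 (hlam.pos _ (hc0 k)).ne'
  obtain ⟨L', hL', e1, e2⟩ := hgr N _ _ (off_scale hL (fun k => (lam (c k) : ℂ)) hs)
  have hν' : ∀ i j a, Leg (RingHom.ker ε) i j a →
      ν i j a = ∑ k, wt lam i j a (c k) • L' k i j := fun i j a ha => by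
    rw [show ν i j a = _ from hν i j a ha]
    refine Finset.sum_congr rfl fun k _ => ?_
    rw [e1 k i j ha.1, smul_smul, wt, mul_right_comm, ← zpow_add₀ (hs k), sub_add_sub_cancel,
      sub_self, zpow_zero, one_mul]
  have key : ∀ Q : Mat N → Prop, Q 0 → (∀ a b, Q a → Q b → Q (a + b)) →
      (∀ (z : ℂ) a, Q a → Q (z • a)) → (∀ a b, Q a → Q b → Q (a * b - b * a)) →
      (∀ i j a, Leg (RingHom.ker ε) i j a → Q (ν i j a)) → ∀ k a b, Q (L' k a b) := by
    intro Q q0 q1 q2 q3 q4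
    have h1 : ∀ k a b, a ≠ b → Q (L k a b) := fun k a b hab => by
      have := hLs k a b hab
      generalize L k a b = m at this
      induction this using Submodule.span_induction with
      | mem y hy =>
        obtain ⟨i, j, a, ha, rfl⟩ := hy
        exact q4 i j a ha
      | zero => exact q0
      | add a b _ _ ha hb => exact q1 a b ha hb
      | smul c a _ ha => exact q2 c a ha
    intro k a b
    by_cases hab : a = b
    · subst hab
      rw [e2]
      refine q2 _ _ (Finset.sum_induction _ Q q1 q0 fun b _ => ?_)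
      by_cases hab : a = b
      · subst hab
        rw [sub_self]
        exact q0
      · exact q3 _ _ (q2 _ _ (h1 k a b hab)) (q2 _ _ (h1 k b a (Ne.symm hab)))
    · rw [e1 k a b hab]
      exact q2 _ _ (h1 k a b hab)
  have kc : ∀ s : Mat N, (∀ i j a, Leg (RingHom.ker ε) i j a → Commute s (ν i j a)) →
      ∀ k a b, Commute s (L' k a b) := fun s => key _ (Commute.zero_right s)
    (fun _ _ => Commute.add_right) (fun z _ h => h.smul_right z)
    fun _ _ h h' => (h.mul_right h').sub_right (h'.mul_right h)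
  obtain ⟨P', ρ₃, hmu', hmul, q1, q2, q3, -, hρ₃, hcl₃⟩ := hd N G hG R _ _ ρ₂ hT₂ hρ₂ hU hH _
    (fun p : Fin r × Fin 5 × Fin 5 => L' p.1 p.2.1 p.2.2)
    (fun p => key _ (hl.zero N G) (hl.add N G hG.alg) (hl.smul N G) (hl.br N G hG.alg) hT₂.νG _ _ _)
    (fun p γ => kc _ (hT₂.eν γ) _ _ _) (fun p γ => kc _ (hT₂.Aν γ) _ _ _) (by
      rintro _ ⟨i, j, a, ha, rfl⟩
      rw [show (Tri.mk ν T.e T.A).ν i j a = _ from hν' i j a ha]
      exact Submodule.sum_mem _ fun k _ => Submodule.smul_mem _ _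
        (Submodule.subset_span ⟨(k, i, j), rfl⟩))
  have hgl := gl_map hL' P' fun k a b k' c d =>
    hmul _ (Algebra.subset_adjoin ⟨(k, a, b), rfl⟩) _ (Algebra.subset_adjoin ⟨(k', c, d), rfl⟩)
  have hst := hb N _ _ hgl hmu'
  have hr : r ≤ N * N := by
    have := hg.count N _ L' hL' fun k => by
      obtain ⟨i, j, h1, h2⟩ := hL0 k
      exact ⟨i, j, h1, by rw [e1 k i j h1]; exact smul_ne_zero (zpow_ne_zero _ (hs k)) h2⟩
    rw [Fintype.card_fin] at this
    omega
  obtain ⟨M, m1, m2⟩ := pad (Fin.castLE hr) (Fin.castLE_injective hr)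
    (fun k a b => P' (L' k a b)) 0
  obtain ⟨c', c1, c2⟩ := pad (Fin.castLE hr) (Fin.castLE_injective hr)
    (fun k => if (fun a b => P' (L' k a b)) = 0 then org ε else c k) (org ε)
  have all : ∀ Q : (Fin 5 → Fin 5 → Mat N) → Prop, Q 0 → (∀ k, Q fun a b => P' (L' k a b)) →
      ∀ k, Q (M k) := fun Q h0 h1 k => by
    by_cases h : k ∈ Set.range (Fin.castLE hr)
    · obtain ⟨k, rfl⟩ := h
      rw [m1]
      exact h1 k
    · rw [m2 k h]
      exact h0
  refine ⟨⟨c', M, T.e, T.A⟩, ρ₃,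
    { gl := ⟨all (fun m => ∀ a b c d, m a b * m c d - m c d * m a b =
          (if b = c then m a d else 0) - if d = a then m c b else 0) (by simp) hgl.rel,
        all (fun m => ∑ a, m a a = 0) (by simp) hgl.tr, fun k k' hk a b p q => ?_⟩
      star := all (fun m => ∀ a b, (m a b)ᴴ = m b a) (by simp) hst
      LG := all (fun m => ∀ a b, InLie G (m a b)) (fun _ _ => hl.zero N G)
        fun k a b => q1 (k, a, b)
      eG := hT.eG
      eU := hU
      AG := hT.AG
      AH := hH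
      Aadd := hT.Aadd
      eA := hT.eA
      AA := hT.AA
      eL := fun γ => all (fun m => ∀ a b, Commute (T.e γ : Mat N) (m a b))
        (fun _ _ => Commute.zero_right _) fun k a b => q2 (k, a, b) γ
      AL := fun γ => all (fun m => ∀ a b, Commute (T.A γ) (m a b))
        (fun _ _ => Commute.zero_right _) fun k a b => q3 (k, a, b) γ },
    fun k hk => ?_, fun i j a ha => ?_, nest (nest (subset_closure hc) hcl₂) hcl₃⟩
  · dsimp only
    by_cases h : k ∈ Set.range (Fin.castLE hr)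
    · by_cases h' : k' ∈ Set.range (Fin.castLE hr)
      · obtain ⟨k, rfl⟩ := h
        obtain ⟨k', rfl⟩ := h'
        rw [m1, m1]
        exact hgl.comm k k' (fun e => hk (by rw [e])) a b p q
      · rw [m2 k' h']
        exact Commute.zero_right _
    · rw [m2 k h]
      exact Commute.zero_left _
  · dsimp only at hk ⊢
    by_cases h : k ∈ Set.range (Fin.castLE hr)
    · obtain ⟨k, rfl⟩ := h
      rw [m1] at hk
      rw [c1, if_pos hk]
    · exact c2 k h
  · rw [hρ₃ i j a ha]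
    congr 2
    show P' (ν i j a) = ∑ k, wt lam i j a (c' k) • M k i j
    rw [hν' i j a ha, map_sum]
    refine Fintype.sum_of_injective (Fin.castLE hr) (Fin.castLE_injective hr) _ _
      (fun k hk => by rw [m2 k hk]; simp) fun k => ?_
    simp only [m1, c1, map_smul]
    split_ifs with h
    · rw [show P' (L' k i j) = 0 from congrFun (congrFun h i) j, smul_zero, smul_zero]
    · rfl

end Pool.Agent.MP_94b95a_al.Fl

end MrgPart6

-- ======== part 7: formerly Pool.Agent.MP_94b95a_al.fl.ClNf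
section MrgPart7

/-! Normal forms have closed orbits. -/

namespace Pool.Agent.MP_94b95a_al.Fl

open NormedSpace Matrix Filter Topology

namespace ClNf

theorem jd_of {N : ℕ} {R : Type} [CommRing R] {I : Ideal R} {G : Subgroup (GLN N)} {T : Tri I N}
    (hT : T.Good G) {ρ : St I → GLN N} (h : T.IsRep ρ) {i j : Fin 5} {a : R} (ha : Leg I i j a) :
    JD (ρ (X I i j a)) (T.e (X I i j a)) (T.A (X I i j a)) (T.ν i j a) :=
  ⟨h i j a ha, hT.ell i j a ha, hT.hyp _, hT.lie.nil i j a ha, hT.eA _ _, hT.eν _ i j a ha,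
    hT.Aν _ i j a ha⟩

theorem wt_org {R : Type} [CommRing R] {ε : R →+* ℤ} {lam : Pt R → ℝ} (hl : Lam ε lam)
    {i j : Fin 5} (hij : i ≠ j) (a : R) : wt lam i j a (org ε) = 0 := by
  have h : ((j : ℤ) - (i : ℤ)) ≠ 0 := by
    intro h0
    apply hij
    apply Fin.ext
    omega
  unfold wt
  rw [hl.zero, Complex.ofReal_zero, _root_.zero_zpow _ h, zero_mul]

theorem comb {N : ℕ} {κ R : Type} [Fintype κ] (s : Finset R) (z : R → ℂ) (w : R → κ → ℂ)
    (u : κ → ℂ) (L : κ → Mat N) (h : ∀ k, ∑ b ∈ s, z b * w b k = u k) :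
    ∑ k, u k • L k = ∑ b ∈ s, z b • ∑ k, w b k • L k := by
  simp only [Finset.smul_sum, smul_smul]
  rw [Finset.sum_comm]
  refine Finset.sum_congr rfl fun k _ => ?_
  rw [← Finset.sum_smul, h]

theorem exp_mem_alg {N : ℕ} (V : Subalgebra ℂ (Mat N)) {x : Mat N} (hx : x ∈ V) : exp x ∈ V := by
  have hc : IsClosed (V : Set (Mat N)) := (Subalgebra.toSubmodule V).closed_of_finiteDimensional
  exact NormedSpace.exp_mem (R := ℂ) hc hx

end ClNf

theorem clNf_thm (hJex : JexStmt) (hJun : JunStmt) (hFun : FunStmt) (hNf : NfTriStmt)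
    (hCl : ClRepStmt) : ClNfStmt := by
  intro N G hG R _ ε lam hl κ _ D hD ρ h
  have hT := hNf N G hG.alg R ε lam hl κ D hD
  let f : St (RingHom.ker ε) →* GLN N := MonoidHom.mk' ρ.1 ρ.2.2
  have hf : ∀ γ, f γ = ρ.1 γ := fun _ => rfl
  let W : Submodule ℂ (Mat N) := Submodule.span ℂ (Set.range fun δ => (ρ.1 δ : Mat N))
  have hW1 : (1 : Mat N) ∈ W := Submodule.subset_span ⟨1, by
    show ((f 1 : GLN N) : Mat N) = 1
    rw [map_one]; rfl⟩
  have hWm : ∀ x y, x ∈ W → y ∈ W → x * y ∈ W := by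
    intro x y hx hy
    have h1 : x * y ∈ W * W := Submodule.mul_mem_mul hx hy
    rw [Submodule.span_mul_span] at h1
    refine Submodule.span_mono ?_ h1
    rintro _ ⟨_, ⟨γ, rfl⟩, _, ⟨δ, rfl⟩, rfl⟩
    exact ⟨γ * δ, by simp only [ρ.2.2, Units.val_mul]⟩
  let V : Subalgebra ℂ (Mat N) := W.toSubalgebra hW1 hWm
  have hV : ∀ γ, (ρ.1 γ : Mat N) ∈ V := fun γ => Submodule.subset_span ⟨γ, rfl⟩
  have parts : ∀ i j a, Leg (RingHom.ker ε) i j a →
      (D.e (X _ i j a) : Mat N) ∈ V ∧ D.A (X _ i j a) ∈ V ∧ (D.tri lam).ν i j a ∈ V := by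
    intro i j a ha
    obtain ⟨e, A, ν, hj, he, hA, hν, -⟩ := hJex N (ρ.1 (X _ i j a))
    obtain ⟨h1, h2, h3⟩ := hJun N _ _ _ _ _ _ _ hj (ClNf.jd_of hT h ha)
    have hle : Algebra.adjoin ℂ {(ρ.1 (X _ i j a) : Mat N)} ≤ V :=
      Algebra.adjoin_le (Set.singleton_subset_iff.mpr (hV _))
    rw [h1] at he; rw [h2] at hA; rw [h3] at hν
    exact ⟨hle he, hle hA, hle hν⟩
  have gen : ∀ i j a, Leg (RingHom.ker ε) i j a → (ρ.1 (X _ i j a) : Mat N)ᴴ ∈ V := by
    intro i j a ha
    rw [h i j a ha, conjTranspose_mul, conjTranspose_mul, ← Matrix.exp_conjTranspose,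
      ← Matrix.exp_conjTranspose]
    refine V.mul_mem (ClNf.exp_mem_alg V ?_) (V.mul_mem (ClNf.exp_mem_alg V ?_) ?_)
    · obtain ⟨t, z, ht, hz⟩ := hFun R ε lam hl κ D.c (fun c => star (wt lam i j a c))
        (by rw [ClNf.wt_org hl ha.1 a, star_zero]) j i ha.1.symm
      have e1 : ((D.tri lam).ν i j a)ᴴ = ∑ k, star (wt lam i j a (D.c k)) • D.L k j i := by
        show (∑ k, wt lam i j a (D.c k) • D.L k i j)ᴴ = _
        rw [conjTranspose_sum]
        refine Finset.sum_congr rfl fun k _ => ?_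
        rw [conjTranspose_smul, hD.star]
      rw [e1, ClNf.comb t z (fun b k => wt lam j i b (D.c k)) _ (fun k => D.L k j i) hz]
      exact V.sum_mem fun b hb =>
        V.smul_mem (parts j i b (leg_of_mem ha.1.symm (ht b hb))).2.2 _
    · show (D.A _)ᴴ ∈ V
      rw [(hD.AH _).eq]
      exact (parts i j a ha).2.1
    · show ((D.e (X _ i j a) : GLN N) : Mat N)ᴴ ∈ V
      have e1 : ((D.e (X _ i j a) : GLN N) : Mat N)ᴴ = (D.e (X _ i j (-a)) : GLN N) := by
        rw [(stFam_X _).neg ha, map_inv]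
        exact (Units.inv_eq_of_mul_eq_one_left (hD.eU _)).symm
      rw [e1]
      exact (parts i j (-a) ha.neg).1
  refine hCl N G hG _ ρ fun γ => ?_
  have hγ : γ ∈ Subgroup.closure (gens (RingHom.ker ε) (X (RingHom.ker ε))) := by
    rw [closure_gens_X]; trivial
  show (ρ.1 γ : Mat N)ᴴ ∈ V
  induction hγ using Subgroup.closure_induction'' with
  | mem x hx =>
    obtain ⟨i, j, a, ha, rfl⟩ := hx
    exact gen i j a ha
  | inv_mem x hx =>
    obtain ⟨i, j, a, ha, rfl⟩ := hx
    rw [← (stFam_X _).neg ha]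
    exact gen i j (-a) ha.neg
  | one =>
    show ((f 1 : GLN N) : Mat N)ᴴ ∈ V
    rw [map_one, Units.val_one, conjTranspose_one]
    exact V.one_mem
  | mul x y _ _ hx hy =>
    rw [ρ.2.2, Units.val_mul, conjTranspose_mul]
    exact V.mul_mem hy hx

end Pool.Agent.MP_94b95a_al.Fl

end MrgPart7

-- ======== part 8: formerly Pool.Agent.MP_94b95a_al.fl.Rat
section MrgPart8

/-! Limits of eigenvector frames of elements of the Lie algebra. -/

namespace Pool.Agent.MP_94b95a_al.Fl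

open NormedSpace Matrix Filter Topology Kn

namespace Rt

variable {N : ℕ}

theorem expand (p : MvPolynomial (Fin N × Fin N) ℂ) : ∃ (κ : Type) (_ : Fintype κ)
    (q : κ → Mat N → ℂ) (l : κ → (Fin N → ℝ) → ℝ), (∀ k, Continuous (q k)) ∧
    ∀ (u : Mat N) (D : Fin N → ℝ) (z : ℂ), MvPolynomial.eval (fun ij =>
      (u * diagonal (fun a => Complex.exp (z * D a)) * uᴴ) ij.1 ij.2) p =
        ∑ k, q k u * Complex.exp (z * l k D) := by
  induction p using MvPolynomial.induction_on with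
  | C c => exact ⟨Unit, inferInstance, fun _ _ => c, fun _ _ => 0, fun _ => continuous_const,
      fun u D z => by simp⟩
  | add p p' h h' =>
    obtain ⟨κ, _, q, l, h1, h2⟩ := h
    obtain ⟨κ', _, q', l', h1', h2'⟩ := h'
    refine ⟨κ ⊕ κ', inferInstance, Sum.elim q q', Sum.elim l l', ?_, fun u D z => ?_⟩
    · rintro (k | k)
      · exact h1 k
      · exact h1' k
    · rw [map_add, h2, h2', Fintype.sum_sum_type]
      rfl
  | mul_X p ij h =>
    obtain ⟨κ, _, q, l, h1, h2⟩ := h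
    refine ⟨κ × Fin N, inferInstance, fun k u => q k.1 u * (u ij.1 k.2 * star (u ij.2 k.2)),
      fun k D => l k.1 D + D k.2, fun k => (h1 k.1).mul (by fun_prop), fun u D z => ?_⟩
    rw [map_mul, h2, MvPolynomial.eval_X, mul_apply, Finset.sum_mul_sum, Fintype.sum_prod_type]
    refine Finset.sum_congr rfl fun k _ => Finset.sum_congr rfl fun a _ => ?_
    rw [mul_diagonal, conjTranspose_apply, Complex.ofReal_add, mul_add, Complex.exp_add]
    ring

/-- an exponential as a character -/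
noncomputable def chi (b : ℝ) : Multiplicative ℂ →* ℂ where
  toFun z := Complex.exp (z.toAdd * b)
  map_one' := by simp
  map_mul' z w := by rw [toAdd_mul, add_mul, Complex.exp_add]

theorem chi_inj : Function.Injective chi := fun a b h => by
  have := congrArg (fun f : Multiplicative ℂ →* ℂ => f (Multiplicative.ofAdd 1)) h
  simp only [chi, MonoidHom.coe_mk, OneHom.coe_mk, toAdd_ofAdd, one_mul, ← Complex.ofReal_exp,
    Complex.ofReal_inj] at this
  exact Real.exp_injective this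

open Classical in
theorem indep {κ : Type} [Fintype κ] (c : κ → ℂ) (l : κ → ℝ) :
    (∀ z : ℂ, ∑ k, c k * Complex.exp (z * l k) = 0) ↔
      ∀ k₀, ∑ k with l k = l k₀, c k = 0 := by
  have e : ∀ z : ℂ, ∑ k, c k * Complex.exp (z * l k) =
      ∑ b ∈ Finset.univ.image l, (∑ k with l k = b, c k) * Complex.exp (z * b) := fun z => by
    rw [← Finset.sum_fiberwise_of_maps_to (fun k hk => Finset.mem_image_of_mem l hk)]
    refine Finset.sum_congr rfl fun b _ => ?_
    rw [Finset.sum_mul]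
    exact Finset.sum_congr rfl fun k hk => by rw [(Finset.mem_filter.1 hk).2]
  simp only [e]
  refine ⟨fun h k₀ => ?_, fun h z => Finset.sum_eq_zero fun b hb => ?_⟩
  · refine linearIndependent_iff'.1 ((linearIndependent_monoidHom (Multiplicative ℂ) ℂ).comp chi
      chi_inj) (Finset.univ.image l) (fun b => ∑ k with l k = b, c k) (funext fun z => ?_) _
        (Finset.mem_image_of_mem l (Finset.mem_univ k₀))
    rw [Finset.sum_apply]
    exact h z.toAdd
  · obtain ⟨k, -, rfl⟩ := Finset.mem_image.1 hb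
    rw [h, zero_mul]

theorem one {ι : Type} (U : Ultrafilter ι) {u : ι → Mat N} {u₀ : Mat N} (D : ι → Fin N → ℝ)
    (hu : Tendsto u U (𝓝 u₀)) (p : MvPolynomial (Fin N × Fin N) ℂ)
    (h : ∀ m (z : ℂ), MvPolynomial.eval (fun ij =>
      (u m * diagonal (fun a => Complex.exp (z * D m a)) * (u m)ᴴ) ij.1 ij.2) p = 0) :
    ∀ᶠ m in (U : Filter ι), ∀ z : ℂ, MvPolynomial.eval (fun ij =>
      (u₀ * diagonal (fun a => Complex.exp (z * D m a)) * u₀ᴴ) ij.1 ij.2) p = 0 := by
  classical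
  obtain ⟨κ, _, q, l, h1, h2⟩ := expand p
  simp only [h2, indep] at h ⊢
  refine eventually_all.2 fun k₀ => ?_
  obtain ⟨s, hs⟩ := Ultrafilter.eq_pure_of_finite
    (U.map fun m => Finset.univ.filter fun k => l k (D m) = l k₀ (D m))
  have h3 : ∀ᶠ m in (U : Filter ι), (Finset.univ.filter fun k => l k (D m) = l k₀ (D m)) = s := by
    have : {s} ∈ U.map fun m => Finset.univ.filter fun k => l k (D m) = l k₀ (D m) := by
      rw [hs]
      exact Ultrafilter.mem_pure.2 rfl
    exact this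
  have h4 : ∑ k ∈ s, q k u₀ = 0 := tendsto_nhds_unique
    (tendsto_finsetSum s fun k _ => ((h1 k).tendsto u₀).comp hu)
    (tendsto_const_nhds.congr' (h3.mono fun m hm => by rw [← hm]; exact (h m k₀).symm))
  exact h3.mono fun m hm => by rw [hm, h4]

end Rt

theorem rat_thm : RatStmt := by
  intro N G ⟨S, hS⟩ ι U u u₀ D hu hlim hL
  have hu₀ : u₀ᴴ * u₀ = 1 := compact_uni.isClosed.mem_of_tendsto hlim (Eventually.of_forall hu)
  obtain ⟨T, hT⟩ := (isNoetherianRing_iff_ideal_fg _).1 inferInstance (Ideal.span S)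
  have key : ∀ g : GLN N, g ∈ G ↔
      ∀ p ∈ T, MvPolynomial.eval (fun ij => (g : Mat N) ij.1 ij.2) p = 0 := fun g => by
    rw [hS]
    exact (Ideal.span_le (I := RingHom.ker (MvPolynomial.eval fun ij : Fin N × Fin N =>
      (g : Mat N) ij.1 ij.2))).symm.trans (by rw [← hT]; exact Ideal.span_le)
  have h := (eventually_all_finset T).2 fun p hp => Rt.one U D hlim p fun m z => by
    obtain ⟨g, hg, e⟩ := hL m z
    rw [← exp_hm (hu m), hm, ← e]
    exact (key g).1 hg p hp
  refine h.mono fun m hm z => ⟨(Matrix.isUnit_exp _).unit, (key _).2 fun p hp => ?_, rfl⟩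
  have := hm p hp z
  rwa [← exp_hm hu₀] at this

end Pool.Agent.MP_94b95a_al.Fl

end MrgPart8

-- ======== part 9: formerly Pool.Agent.MP_94b95a_al.fl.SepRep
section MrgPart9

/-! Separation of closed orbits of representations. -/

namespace Pool.Agent.MP_94b95a_al.Fl

open NormedSpace Matrix Filter Topology Kn

namespace SepRep

variable {N : ℕ} {G : Subgroup (GLN N)} {Γ : Type} [Group Γ]

/-- a representation as a homomorphism -/
def hom (ρ : Rep Γ G) : Γ →* GLN N := MonoidHom.mk' ρ.1 ρ.2.2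

/-- the values at a family and at the inverses -/
def tup (S : Finset Γ) (ρ : Rep Γ G) : S ⊕ S → Mat N :=
  Sum.elim (fun s => (ρ.1 s : Mat N)) fun s => (((ρ.1 s)⁻¹ : GLN N) : Mat N)

theorem cont_tup (S : Finset Γ) : Continuous (tup S : Rep Γ G → _) := by
  refine continuous_pi ?_
  rintro (s | s)
  · exact Units.continuous_val.comp ((continuous_apply s.1).comp continuous_subtype_val)
  · exact Units.continuous_coe_inv.comp ((continuous_apply s.1).comp continuous_subtype_val)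

theorem tup_conj (S : Finset Γ) {ρ σ : Rep Γ G} {g : GLN N}
    (h : ∀ γ, σ.1 γ = g * ρ.1 γ * g⁻¹) : tup S σ = cj g (tup S ρ) := by
  funext j
  rcases j with s | s <;> simp [tup, cj, h, Matrix.mul_assoc]

theorem conj_of_tup {S : Finset Γ} (hS : Subgroup.closure (S : Set Γ) = ⊤) {ρ σ : Rep Γ G}
    {g : GLN N} (h : tup S σ = cj g (tup S ρ)) (γ : Γ) : σ.1 γ = g * ρ.1 γ * g⁻¹ := by
  have := MonoidHom.eq_of_eqOn_dense hS (f := hom σ)
    (g := (MulAut.conj g).toMonoidHom.comp (hom ρ)) fun s hs =>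
      Units.ext (congrFun h (Sum.inl ⟨s, hs⟩))
  exact DFunLike.congr_fun this γ

theorem closed (he : EllStmt) (hl : LieStmt) (hG : Alg G) {S : Finset Γ}
    (hS : Subgroup.closure (S : Set Γ) = ⊤) {ρ : Rep Γ G}
    (hρ : IsClosed {σ : Rep Γ G | Conj ρ σ}) : IsClosed (orb G (tup S ρ)) := by
  refine isClosed_of_closure_subset fun y hy => ?_
  obtain ⟨U, hU, hlim⟩ := mem_closure_iff_ultrafilter.1 hy
  have H : ∀ z : S ⊕ S → Mat N, ∃ g ∈ G, z ∈ orb G (tup S ρ) → z = cj g (tup S ρ) := fun z => by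
    by_cases h : z ∈ orb G (tup S ρ)
    · obtain ⟨g, h1, h2⟩ := h
      exact ⟨g, h1, fun _ => h2⟩
    · exact ⟨1, G.one_mem, fun h' => absurd h' h⟩
  choose g hg hgz using H
  have h0 : Tendsto (fun z => cj (g z) (tup S ρ)) U (𝓝 y) :=
    (tendsto_id'.2 hlim).congr' (mem_of_superset hU fun z hz => hgz z hz)
  let σ : (S ⊕ S → Mat N) → Rep Γ G := fun z => ⟨fun γ => g z * ρ.1 γ * (g z)⁻¹,
    fun γ => G.mul_mem (G.mul_mem (hg z) (ρ.2.1 γ)) (G.inv_mem (hg z)),
    fun a b => by simp only [ρ.2.2, mul_assoc, inv_mul_cancel_left]⟩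
  have hσ : ∀ z, tup S (σ z) = cj (g z) (tup S ρ) := fun z => tup_conj S fun _ => rfl
  simp only [← hσ] at h0
  have h1 : ∀ γ, ∃ l, Tendsto (fun z => hom (σ z) γ) U (𝓝 l) := by
    intro γ
    have hγ : γ ∈ Subgroup.closure (S : Set Γ) := hS ▸ Subgroup.mem_top γ
    induction hγ using Subgroup.closure_induction with
    | mem s hs =>
      have t1 := tendsto_pi_nhds.1 h0 (Sum.inl ⟨s, hs⟩)
      have t2 := tendsto_pi_nhds.1 h0 (Sum.inr ⟨s, hs⟩)
      have e : y (Sum.inl ⟨s, hs⟩) * y (Sum.inr ⟨s, hs⟩) = 1 :=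
        tendsto_nhds_unique (t1.mul t2) (tendsto_const_nhds.congr fun z => (Units.mul_inv _).symm)
      exact ⟨⟨_, _, e, mul_eq_one_comm.1 e⟩, he.gl_tendsto N _ _ _ _ t1⟩
    | one => exact ⟨1, by simp⟩
    | mul a b _ _ ha hb =>
      obtain ⟨l, ha⟩ := ha
      obtain ⟨l', hb⟩ := hb
      exact ⟨l * l', by simpa only [map_mul] using ha.mul hb⟩
    | inv a _ ha =>
      obtain ⟨l, ha⟩ := ha
      exact ⟨l⁻¹, by simpa only [map_inv] using ha.inv⟩
  choose l hl' using h1
  let ρ' : Rep Γ G := ⟨l, fun γ => (closed_G hl hG).mem_of_tendsto (hl' γ)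
    (Eventually.of_forall fun z => (σ z).2.1 γ), fun a b => tendsto_nhds_unique (hl' (a * b))
      (by simpa only [map_mul] using (hl' a).mul (hl' b))⟩
  have h2 : Tendsto σ U (𝓝 ρ') := tendsto_subtype_rng.2 (tendsto_pi_nhds.2 hl')
  obtain ⟨c, hc, e⟩ := hρ.mem_of_tendsto h2
    (Eventually.of_forall fun z => ⟨g z, hg z, fun _ => rfl⟩)
  refine ⟨c, hc, ?_⟩
  rw [← tup_conj S e]
  exact tendsto_nhds_unique h0 (((cont_tup S).tendsto ρ').comp h2)

theorem exists_min {ι : Type} [Fintype ι] {x : ι → Mat N} (h : IsClosed (orb G x)) :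
    ∃ g ∈ G, IsMinV G (cj g x) := by
  obtain ⟨_, ⟨g, hg, rfl⟩, hm⟩ := min_FN h ⟨1, G.one_mem, (cj_one x).symm⟩
  exact ⟨g, hg, fun k hk => hm _ ⟨k * g, G.mul_mem hk hg, (cj_mul k g x).symm⟩⟩

end SepRep

open SepRep in
theorem sepRep_thm (he : EllStmt) (hl : LieStmt) (hs : SepStmt) : SepRepStmt := by
  intro N G hG Γ _ hΓ ρ ρ' h1 h2 τ U ρs σs hc t1 t2
  obtain ⟨S, hS⟩ := hΓ.out
  obtain ⟨a, ha, ha'⟩ := exists_min (closed he hl hG.alg hS h1)
  obtain ⟨b, hb, hb'⟩ := exists_min (closed he hl hG.alg hS h2)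
  choose h hh hh' using hc
  obtain ⟨c, hc, e⟩ := hs N G hG _ _ _ ha' hb' τ U (fun m => cj a (tup S (ρs m)))
    (fun m => b * h m * a⁻¹) (fun m => G.mul_mem (G.mul_mem hb (hh m)) (G.inv_mem ha))
    (((cont_cj2 a).tendsto _).comp (((cont_tup S).tendsto ρ).comp t1))
    ((((cont_cj2 b).tendsto _).comp (((cont_tup S).tendsto ρ').comp t2)).congr fun m => by
      rw [cj_mul, cj_inv, cj_mul, ← tup_conj S (hh' m)]
      rfl)
  refine ⟨b⁻¹ * c * a, G.mul_mem (G.mul_mem (G.inv_mem hb) hc) ha, conj_of_tup hS ?_⟩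
  rw [cj_mul, cj_mul, ← e, cj_inv]

end Pool.Agent.MP_94b95a_al.Fl

end MrgPart9

-- ======== part 10: formerly Pool.Agent.MP_94b95a_al.fl.MaxKA
section MrgPart10

/-! The unitary group inside `GL`, closedness of algebraic groups, polynomial functions. -/

namespace Pool.Agent.MP_94b95a_al.Fl

open NormedSpace Matrix Filter Topology

namespace MaxK

variable {N : ℕ}

theorem uni_inv_eq {g : GLN N} (h : Uni g) : ((g⁻¹ : GLN N) : Mat N) = (g : Mat N)ᴴ :=
  Units.inv_eq_of_mul_eq_one_left h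

/-- The unitary group. -/
def UG (N : ℕ) : Subgroup (GLN N) where
  carrier := {g | Uni g}
  one_mem' := by simp [Uni]
  mul_mem' := fun {a b} ha hb => by
    show ((a * b : GLN N) : Mat N)ᴴ * ((a * b : GLN N) : Mat N) = 1
    have ha' : (a : Mat N)ᴴ * (a : Mat N) = 1 := ha
    have hb' : (b : Mat N)ᴴ * (b : Mat N) = 1 := hb
    rw [Units.val_mul, conjTranspose_mul, mul_assoc, ← mul_assoc _ (a : Mat N), ha', one_mul, hb']
  inv_mem' := fun {a} ha => by
    show ((a⁻¹ : GLN N) : Mat N)ᴴ * ((a⁻¹ : GLN N) : Mat N) = 1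
    have h := uni_inv_eq ha
    nth_rewrite 1 [h]
    rw [conjTranspose_conjTranspose, Units.mul_inv]

theorem entry_le {m : Mat N} (h : mᴴ * m = 1) (a b : Fin N) : ‖m a b‖ ≤ 1 :=
  entry_norm_bound_of_unitary (Matrix.mem_unitaryGroup_iff'.mpr h) a b

theorem box_compact (C : ℝ) : IsCompact {m : Mat N | ∀ a b, ‖m a b‖ ≤ C} := by
  have h : IsCompact (Set.pi Set.univ fun _ : Fin N =>
      Set.pi Set.univ fun _ : Fin N => Metric.closedBall (0 : ℂ) C) :=
    isCompact_univ_pi fun _ => isCompact_univ_pi fun _ => isCompact_closedBall _ _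
  have e : {m : Mat N | ∀ a b, ‖m a b‖ ≤ C} = Set.pi Set.univ fun _ : Fin N =>
      Set.pi Set.univ fun _ : Fin N => Metric.closedBall (0 : ℂ) C := by
    ext m
    exact ⟨fun h a _ b _ => mem_closedBall_zero_iff.mpr (h a b),
      fun h a b => mem_closedBall_zero_iff.mp (h a trivial b trivial)⟩
  rw [e]; exact h

theorem UG_compact : IsCompact (UG N : Set (GLN N)) := by
  have h1 : IsCompact (Units.embedProduct (Mat N) ⁻¹'
      ({m : Mat N | ∀ a b, ‖m a b‖ ≤ 1} ×ˢ (MulOpposite.op '' {m : Mat N | ∀ a b, ‖m a b‖ ≤ 1}))) :=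
    Units.isClosedEmbedding_embedProduct.isCompact_preimage
      ((box_compact 1).prod ((box_compact 1).image MulOpposite.continuous_op))
  refine h1.of_isClosed_subset ?_ ?_
  · exact isClosed_eq (Units.continuous_val.matrix_conjTranspose.mul Units.continuous_val)
      continuous_const
  · intro g hg
    exact ⟨entry_le hg, ((g⁻¹ : GLN N) : Mat N), entry_le ((UG N).inv_mem hg), rfl⟩

theorem alg_closed {G : Subgroup (GLN N)} (h : Alg G) : IsClosed (G : Set (GLN N)) := by
  obtain ⟨S, hS⟩ := h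
  have e : (G : Set (GLN N)) = ⋂ p ∈ S,
      {g : GLN N | MvPolynomial.eval (fun ij => (g : Mat N) ij.1 ij.2) p = 0} := by
    ext g; simp [hS g]
  rw [e]
  refine isClosed_biInter fun p _ => isClosed_eq ?_ continuous_const
  exact (MvPolynomial.continuous_eval p).comp
    (continuous_pi fun ij => Units.continuous_val.matrix_elem ij.1 ij.2)

theorem bdd_of_compact {K : Subgroup (GLN N)} (h : IsCompact (K : Set (GLN N))) :
    BddM {m | InG K m} := by
  have h1 : Continuous fun g : GLN N => ∑ a, ∑ b, ‖(g : Mat N) a b‖ :=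
    continuous_finsetSum _ fun a _ => continuous_finsetSum _ fun b _ =>
      (Units.continuous_val.matrix_elem a b).norm
  obtain ⟨C, hC⟩ := (h.image h1).bddAbove
  refine ⟨C, ?_⟩
  rintro _ ⟨g, hg, rfl⟩ a b
  refine le_trans ?_ (hC ⟨g, hg, rfl⟩)
  refine le_trans (Finset.single_le_sum (f := fun b => ‖(g : Mat N) a b‖)
    (fun _ _ => norm_nonneg _) (Finset.mem_univ b)) ?_
  exact Finset.single_le_sum (f := fun a => ∑ b, ‖(g : Mat N) a b‖)
    (fun _ _ => Finset.sum_nonneg fun _ _ => norm_nonneg _) (Finset.mem_univ a)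

theorem sa_top : SA (⊤ : Subgroup (GLN N)) :=
  ⟨⟨∅, fun g => by simp⟩, fun _ _ => trivial⟩

end MaxK

end Pool.Agent.MP_94b95a_al.Fl

end MrgPart10

-- ======== part 11: formerly Pool.Agent.MP_94b95a_al.fl.MaxK
section MrgPart11

/-! Maximal compact subgroups of self adjoint groups. -/

namespace Pool.Agent.MP_94b95a_al.Fl

open NormedSpace Matrix Filter Topology

theorem maxK_thm (hUnit : UnitStmt) : MaxKStmt := by
  intro N G K hG hK
  obtain ⟨g, hg, hU⟩ := hUnit N G K hG hK.1 (MaxK.bdd_of_compact hK.2.1)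
  let K' : Subgroup (GLN N) := G ⊓ (MaxK.UG N).comap (MulAut.conj g).toMonoidHom
  have hmem : ∀ k, k ∈ K' ↔ k ∈ G ∧ Uni (g * k * g⁻¹) := fun k => Iff.rfl
  have hc : IsCompact (K' : Set (GLN N)) := by
    have h1 : IsCompact ((fun u : GLN N => g⁻¹ * u * g) '' (MaxK.UG N : Set (GLN N))) :=
      MaxK.UG_compact.image ((continuous_const.mul continuous_id).mul continuous_const)
    have e : (K' : Set (GLN N)) =
        (G : Set (GLN N)) ∩ ((fun u : GLN N => g⁻¹ * u * g) '' (MaxK.UG N : Set (GLN N))) := by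
      ext k
      constructor
      · intro hk
        exact ⟨hk.1, g * k * g⁻¹, hk.2, by group⟩
      · rintro ⟨h1, u, hu, rfl⟩
        refine (hmem _).mpr ⟨h1, ?_⟩
        have : g * (g⁻¹ * u * g) * g⁻¹ = u := by group
        rw [this]; exact hu
    rw [e]
    exact h1.inter_left (MaxK.alg_closed hG.alg)
  have hKK : K' = K :=
    hK.2.2 K' (fun k hk => (hmem k).mpr ⟨hK.1 hk, hU k hk⟩) (fun k hk => hk.1) hc
  refine ⟨g, hg, fun k hk => ?_⟩
  rw [← hKK, hmem]
  exact ⟨fun h => h.2, fun h => ⟨hk, h⟩⟩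

end Pool.Agent.MP_94b95a_al.Fl

end MrgPart11

-- ======== part 12: formerly Pool.Agent.MP_94b95a_al.fl.Aj
section MrgPart12

/-! The additive complete Jordan decomposition. -/

namespace Pool.Agent.MP_94b95a_al.Fl

open NormedSpace Matrix Polynomial JA
open scoped Matrix.Norms.Operator

namespace Aj

variable {N : ℕ}

theorem rd_phi {ι : Type} [Fintype ι] (Φ : (ι → ℂ) →ₐ[ℂ] Mat N) (r : ι → ℝ) :
    RD (Φ fun i => r i) := by
  classical
  refine ⟨Finset.univ.image r, ?_⟩
  rw [aeval_algHom_apply, ← map_zero Φ]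
  congr 1
  funext i
  rw [aeval_fn_apply, coe_aeval_eq_eval, eval_prod]
  exact Finset.prod_eq_zero (Finset.mem_image_of_mem r (Finset.mem_univ i)) (by simp)

theorem RD.phi {A : Mat N} (h : RD A) :
    ∃ (s : Finset ℝ) (Φ : (s → ℂ) →ₐ[ℂ] Mat N), A = Φ fun i => (i : ℝ) := by
  classical
  obtain ⟨s, hs⟩ := h
  let ff : Algebra.adjoin ℂ {A} := ⟨A, Algebra.self_mem_adjoin_singleton ℂ A⟩
  have hs' : aeval ff (∏ r ∈ s, (Polynomial.X - C (r : ℂ))) = 0 :=
    Subtype.ext (by rw [coe_aeval_mk_apply]; exact hs)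
  let ev : ℂ[X] →ₐ[ℂ] (s → ℂ) := aeval fun a : s => ((a : ℝ) : ℂ)
  have hev : ∀ (p : ℂ[X]) (a : s), ev p a = p.eval ((a : ℝ) : ℂ) := fun p a => by
    rw [aeval_fn_apply, coe_aeval_eq_eval]
  have hsurj : Function.Surjective ev := fun ψ =>
    ⟨Lagrange.interpolate Finset.univ (fun a : s => ((a : ℝ) : ℂ)) ψ, funext fun a => by
      rw [hev]
      exact Lagrange.eval_interpolate_at_node _
        (fun a _ b _ h => Subtype.ext (Complex.ofReal_injective h)) (Finset.mem_univ a)⟩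
  have hker : RingHom.ker ev.toRingHom ≤ RingHom.ker (aeval ff : ℂ[X] →ₐ[ℂ] _).toRingHom := by
    intro p hp
    obtain ⟨q, rfl⟩ : ∏ r ∈ s, (Polynomial.X - C (r : ℂ)) ∣ p := Finset.prod_dvd_of_coprime
      ((pairwise_coprime_X_sub_C Complex.ofReal_injective).set_pairwise _) fun a ha =>
        dvd_iff_isRoot.2 ((hev p ⟨a, ha⟩).symm.trans (congrFun hp ⟨a, ha⟩))
    change aeval ff (_ * q) = 0
    rw [map_mul, hs', zero_mul]
  refine ⟨s, (Subalgebra.val _).comp (AlgHom.liftOfSurjective ev hsurj (aeval ff) hker), ?_⟩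
  have h := AlgHom.liftOfSurjective_apply ev hsurj (aeval ff) hker Polynomial.X
  rw [aeval_X, aeval_X] at h
  rw [AlgHom.comp_apply, h]
  rfl

theorem RD.hyp {A : Mat N} (h : RD A) : Hyp A := by
  classical
  obtain ⟨s, Φ, rfl⟩ := RD.phi h
  refine bdd_range.2 ⟨∑ i, ‖Φ (Pi.single i 1)‖, fun t => ?_⟩
  rw [← map_smul]
  refine (congrArg norm
    (map_exp Φ Φ.toLinearMap.continuous_of_finiteDimensional _).symm).trans_le ?_
  rw [Pi.exp_def, Jex.phi_sum]
  refine norm_sum_le_of_le _ fun i _ => ?_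
  rw [norm_smul, ← Complex.exp_eq_exp_ℂ, Complex.norm_exp]
  simp

theorem jd {X A B ν : Mat N} (h : AJ X A B ν) : JD (expU X) (expU (Complex.I • B)) A ν := by
  refine ⟨?_, ?_, RD.hyp h.rdA, h.nil, (h.AB.symm.smul_left _).exp_left,
    (h.Bν.smul_left _).exp_left, h.Aν⟩
  · rw [expU_val, expU_val, h.eq, exp_add' (h.Aν.add_left (h.Bν.smul_left _)), add_comm,
      exp_add' (h.AB.symm.smul_left _)]
  · obtain ⟨C, hC⟩ := bdd_range.1 (RD.hyp h.rdB)
    refine bdd_range.2 ⟨C, fun k => ?_⟩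
    rw [Matrix.coe_units_zpow, expU_val, ← Matrix.exp_zsmul, ← Int.cast_smul_eq_zsmul ℂ, smul_smul,
      mul_comm]
    exact_mod_cast hC k

theorem idem {P : Mat N} (h : P * P = P) : ∃ n : ℕ, P.trace = n ∧ (n = 0 → P = 0) := by
  have h1 : IsIdempotentElem (toLin' P) := by
    rw [IsIdempotentElem, Module.End.mul_eq_comp, ← toLin'_mul, h]
  have h2 := (LinearMap.IsIdempotentElem.isProj_range _ h1).trace
  refine ⟨_, (trace_toLin'_eq P).symm.trans h2, fun h0 => ?_⟩
  rw [h0, Nat.cast_zero] at h2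
  exact toLin'.map_eq_zero_iff.1 (LinearMap.IsIdempotentElem.eq_zero_of_trace_eq_zero h1 h2)

theorem RD.sq {A : Mat N} (h : RD A) :
    ∃ t : ℝ, 0 ≤ t ∧ (A * A).trace = t ∧ (t = 0 → A = 0) := by
  classical
  obtain ⟨s, Φ, rfl⟩ := RD.phi h
  choose n hn hn' using fun i : s => idem (P := Φ (Pi.single i 1))
    (by rw [← map_mul, ← Pi.single_mul, mul_one])
  refine ⟨∑ i : s, (i : ℝ) ^ 2 * n i, by positivity, ?_, fun h0 => ?_⟩
  · rw [← map_mul, Jex.phi_sum, trace_sum]
    simp [hn, pow_two]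
  · rw [Finset.sum_eq_zero_iff_of_nonneg fun i _ => by positivity] at h0
    rw [Jex.phi_sum]
    refine Finset.sum_eq_zero fun i hi => ?_
    rcases mul_eq_zero.1 (h0 i hi) with h1 | h1
    · rw [pow_eq_zero_iff two_ne_zero] at h1
      rw [h1, Complex.ofReal_zero, zero_smul]
    · rw [hn' i (Nat.cast_eq_zero.1 h1), smul_zero]

theorem RD.map {A : Mat N} (h : RD A) (f : Mat N →ₐ[ℂ] Mat N) : RD (f A) :=
  h.imp fun s hs => by rw [aeval_algHom_apply, hs, map_zero]

theorem map {X A B ν : Mat N} (h : AJ X A B ν) (f : Mat N →ₐ[ℂ] Mat N) :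
    AJ (f X) (f A) (f B) (f ν) :=
  ⟨by rw [h.eq, map_add, map_add, map_smul], RD.map h.rdA f, RD.map h.rdB f, h.nil.map f,
    h.AB.map f, h.Aν.map f, h.Bν.map f⟩

theorem Ad_apply (h : GLN N) (X : Mat N) :
    Ad h X = (h : Mat N) * X * ((h⁻¹ : GLN N) : Mat N) := rfl

theorem Ad_mul (h : GLN N) (X Y : Mat N) : Ad h (X * Y) = Ad h X * Ad h Y := by
  simp only [Ad_apply, mul_assoc, Units.inv_mul_cancel_left]

theorem Ad_inv (h : GLN N) (X : Mat N) : Ad h⁻¹ (Ad h X) = X := by
  simp only [Ad_apply, mul_assoc, Units.inv_mul_cancel_left, inv_inv, Units.inv_mul, mul_one]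

theorem Ad_inv' (h : GLN N) (X : Mat N) : Ad h (Ad h⁻¹ X) = X := by
  simpa using Ad_inv h⁻¹ X

theorem Ad_trace (h : GLN N) (X : Mat N) : (Ad h X).trace = X.trace := by
  rw [Ad_apply, trace_mul_cycle, Units.inv_mul, one_mul]

theorem act_apply (h : GLN N) (w : Op N) (X : Mat N) : act h w X = Ad h (w (Ad h⁻¹ X)) := rfl

/-- Conjugation as an algebra homomorphism. -/
noncomputable def AdA (h : GLN N) : Mat N →ₐ[ℂ] Mat N :=
  AlgHom.ofLinearMap (Ad h) (by rw [Ad_apply, mul_one, Units.mul_inv]) (Ad_mul h)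

end Aj

open Aj in
theorem aj_thm (hj : JexStmt) (hu : JunStmt) (hl : LieStmt) : AjStmt where
  ex N X := by
    obtain ⟨R, Φ, -, hΦ, hn⟩ := Jex.exists_phi X
    have hν := sub_mem (Algebra.self_mem_adjoin_singleton ℂ X) (hΦ fun a => a)
    refine ⟨Φ fun a => (a : ℂ).re, Φ fun a => (a : ℂ).im, _, ⟨?_, rd_phi Φ _, rd_phi Φ _, hn,
      comm_adj' (hΦ _) (hΦ _), comm_adj' (hΦ _) hν, comm_adj' (hΦ _) hν⟩, hΦ _, hΦ _, hν⟩
    rw [← map_smul, ← map_add, eq_comm, add_comm, sub_add, ← map_sub, sub_eq_self, ← map_zero Φ]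
    congr 1
    funext a
    simp [mul_comm Complex.I]
  un N X A B ν A' B' ν' h h' := by
    obtain ⟨-, rfl, rfl⟩ := hu N _ _ _ _ _ _ _ (jd h) (jd h')
    exact ⟨rfl, smul_right_injective _ Complex.I_ne_zero
      (add_left_cancel (add_right_cancel (h.eq.symm.trans h'.eq))), rfl⟩
  lie N G X A B ν hG hX h := by
    obtain ⟨e, A', ν', H, -, -, -, hm, -⟩ := hj N (expU X)
    obtain ⟨-, rfl, rfl⟩ := hu N _ _ _ _ _ _ _ H (jd h)
    obtain ⟨-, h1, h2⟩ := hm G hG (inG_exp.1 (by simpa using hX 1))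
    refine ⟨h1, ?_, h2⟩
    have := hl.smul N G (-Complex.I) _ (hl.add N G hG _ _ hX
      (hl.smul N G (-1) _ (hl.add N G hG _ _ h1 h2)))
    rwa [h.eq, show A' + Complex.I • B + ν' + (-1 : ℂ) • (A' + ν') = Complex.I • B by module,
      smul_smul, neg_mul, Complex.I_mul_I, neg_neg, one_smul] at this
  herm N A h := by
    rw [h.spectral_theorem]
    exact rd_phi ((Unitary.conjStarAlgAut ℂ _ h.eigenvectorUnitary).toAlgEquiv.toAlgHom.comp
      (diagonalAlgHom ℂ)) h.eigenvalues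
  sq N A B hA hB h := by
    obtain ⟨s, hs, h1, h2⟩ := RD.sq hA
    obtain ⟨t, ht, h3, h4⟩ := RD.sq hB
    rw [h1, h3, ← Complex.ofReal_add, Complex.ofReal_eq_zero] at h
    exact ⟨h2 (by linarith), h4 (by linarith)⟩
  gpAct N h w hw := by
    refine ⟨fun X => ?_, fun X Y => ?_, fun X Y => ?_⟩
    · simp only [act_apply, Ad_inv, hw.idem]
    · rw [act_apply, act_apply, ← Ad_trace h⁻¹, Ad_mul, Ad_inv, hw.symm, ← Ad_trace h, Ad_mul,
        Ad_inv']
    · simp only [act_apply, ← Ad_mul, ← map_sub, Ad_inv, hw.lie]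
  jcAct N h w hw X A B ν hX H := by
    have h1 := congrArg (Ad h⁻¹) hX
    rw [act_apply, Ad_inv] at h1
    obtain ⟨a, b, c⟩ := hw _ (Ad h⁻¹ A) (Ad h⁻¹ B) (Ad h⁻¹ ν) h1 (map H (AdA h⁻¹))
    simp only [act_apply, a, b, c, Ad_inv', and_self]

end Pool.Agent.MP_94b95a_al.Fl

end MrgPart12

-- ======== part 13: formerly Pool.Agent.MP_94b95a_al.fl.Conn
section MrgPart13

/-! A connected Zariski closed group with self adjoint Lie algebra is self adjoint. -/

namespace Pool.Agent.MP_94b95a_al.Fl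

open NormedSpace Matrix Filter Topology JA
open scoped Matrix.Norms.Operator

namespace Conn

variable {N : ℕ}

theorem diff (g : Mat N) (p : MvPolynomial (Fin N × Fin N) ℂ) :
    DifferentiableAt ℂ (fun Z : Mat N => Lie.evm (g * exp Z) p) 0 := by
  induction p using MvPolynomial.induction_on with
  | C a => simp [Lie.evm]
  | add p q hp hq =>
    simp only [map_add]
    exact hp.fun_add hq
  | mul_X p ij hp =>
    let L : Mat N →ₗ[ℂ] ℂ := entryLinearMap ℂ ℂ ij.1 ij.2
    have h := (L.mkContinuous 1 fun m => by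
      rw [one_mul]; exact entry_le m ij.1 ij.2).differentiableAt.comp (0 : Mat N)
        ((hasFDerivAt_exp_zero (𝕂 := ℂ) (𝔸 := Mat N)).differentiableAt.const_mul g)
    simp only [map_mul]
    refine hp.fun_mul (h.congr_of_eventuallyEq (Eventually.of_forall fun Z => ?_))
    simp only [Lie.evm, MvPolynomial.eval_X]
    rfl

theorem tangent {G : Subgroup (GLN N)} (hG : Alg G) {s : Set (Mat N)} (h0 : 0 ∈ s)
    (hs : ∀ Z ∈ s, InG G (exp Z)) {Z : Mat N} (hZ : Z ∈ tangentConeAt ℂ s 0) : InLie G Z := by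
  refine (Lie.iff hG).2 fun p hp g hg => ?_
  have h1 := (diff (g : Mat N) p).hasFDerivAt
  have h2 : ∀ Y ∈ s, Lie.evm ((g : Mat N) * exp Y) p = 0 := fun Y hY =>
    hp (g * expU Y) (G.mul_mem hg (inG_exp.1 (hs Y hY)))
  have h3 := h1.hasFDerivWithinAt.unique_on
    ((hasFDerivWithinAt_const (0 : ℂ) 0 s).congr h2 (h2 0 h0)) hZ
  have h4 : HasDerivAt (fun z : ℂ => z • Z) Z 0 := by
    have := (hasDerivAt_id (0 : ℂ)).smul_const Z
    rw [one_smul] at this
    exact this
  have h5 := HasFDerivAt.comp_hasDerivAt_of_eq (0 : ℂ) h1 h4 (zero_smul _ _).symm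
  have h6 := Lie.deriv_ev (g : Mat N) Z p 0
  rw [zero_smul, exp_zero, mul_one] at h6
  exact (h6.unique h5).trans h3

theorem local_exp {G : Subgroup (GLN N)} (hG : Alg G) :
    ∀ᶠ m in 𝓝 (1 : Mat N), InG G m → ∃ Y, InLie G Y ∧ m = exp Y := by
  obtain ⟨Q, hQ⟩ := (Lie.sub hG).subtype.exists_leftInverse_of_injective (Submodule.ker_subtype _)
  let P : Mat N →L[ℂ] Mat N := LinearMap.toContinuousLinearMap ((Lie.sub hG).subtype ∘ₗ Q)
  have hP1 : ∀ Z, InLie G (P Z) := fun Z => (Q Z).2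
  have hP2 : ∀ Z, InLie G Z → P Z = Z := fun Z hZ =>
    congrArg Subtype.val (LinearMap.congr_fun hQ ⟨Z, hZ⟩)
  have hA : ∀ᶠ Z in 𝓝 (0 : Mat N), P Z = 0 → InG G (exp Z) → Z = 0 := by
    by_contra hc
    have h1 : AccPt (0 : Mat N) (𝓟 {Z | P Z = 0 ∧ InG G (exp Z)}) := by
      rw [accPt_iff_frequently]
      refine (not_eventually.1 hc).mono fun Z hZ => ?_
      push Not at hZ
      exact ⟨hZ.2.2, hZ.1, hZ.2.1⟩
    obtain ⟨Z, h2, h3⟩ := tangentConeAt_nonempty_of_properSpace (𝕜 := ℂ) h1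
    have h4 := tangent hG (s := {Z | P Z = 0 ∧ InG G (exp Z)})
      ⟨map_zero _, 1, G.one_mem, by rw [exp_zero]; rfl⟩ (fun Z hZ => hZ.2) h2
    have h5 := P.hasFDerivWithinAt.unique_on ((hasFDerivWithinAt_const (0 : Mat N) 0 _).congr
      (fun Z hZ => hZ.1) (map_zero _)) h2
    exact h3 ((hP2 Z h4).symm.trans h5)
  let R : Mat N →L[ℂ] Mat N := ContinuousLinearMap.id ℂ _ - P
  have e := hasStrictFDerivAt_exp_zero (𝕂 := ℂ) (𝔸 := Mat N)
  have d1 : HasStrictFDerivAt (fun Z => exp (P Z)) P 0 := by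
    have := HasStrictFDerivAt.comp (0 : Mat N) (g := exp) (f := P) (by rwa [map_zero])
      P.hasStrictFDerivAt
    exact this
  have d2 : HasStrictFDerivAt (fun Z => exp (R Z)) R 0 := by
    have := HasStrictFDerivAt.comp (0 : Mat N) (g := exp) (f := R) (by rwa [map_zero])
      R.hasStrictFDerivAt
    exact this
  have d3 := (d1.fun_mul' d2).map_nhds_eq_of_surj (by
    rw [LinearMap.range_eq_top]
    exact fun Z => ⟨Z, by simp [R]⟩)
  simp only [map_zero, exp_zero, mul_one] at d3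
  have hB : ∀ᶠ Z in 𝓝 (0 : Mat N), P (R Z) = 0 → InG G (exp (R Z)) → R Z = 0 :=
    (R.continuous.tendsto' 0 0 (map_zero _)).eventually hA
  refine d3.ge (eventually_map.2 ?_)
  filter_upwards [hB] with Z hZ
  rintro ⟨g, hg, e⟩
  have h1 : expU (P Z) ∈ G := inG_exp.1 (by simpa using hP1 Z 1)
  have h2 := hZ (by simp [R, hP2 _ (hP1 Z)]) ⟨(expU (P Z))⁻¹ * g, G.mul_mem (G.inv_mem h1) hg, by
    rw [Units.val_mul, e, expU_inv, ← mul_assoc, exp_neg_mul, one_mul]⟩
  exact ⟨P Z, hP1 Z, by rw [h2, exp_zero, mul_one]⟩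

end Conn

theorem conn_thm : ConnStmt := by
  intro N G hG hc hs g hg
  let H : Subgroup G :=
    { carrier := {x | star (x : GLN N) ∈ G}
      one_mem' := by simp
      mul_mem' := fun ha hb => by
        simp only [Set.mem_ofPred_eq, Subgroup.coe_mul, star_mul] at ha hb ⊢
        exact G.mul_mem hb ha
      inv_mem' := fun ha => by
        simp only [Set.mem_ofPred_eq, Subgroup.coe_inv, star_inv] at ha ⊢
        exact G.inv_mem ha }
  have h1 : (H : Set G) ∈ 𝓝 1 := by
    have h2 : Continuous fun x : G => ((x : GLN N) : Mat N) :=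
      Units.continuous_val.comp continuous_subtype_val
    filter_upwards [(h2.tendsto' 1 1 rfl).eventually (Conn.local_exp hG)] with x hx
    obtain ⟨Y, hY, e⟩ := hx ⟨x, x.2, rfl⟩
    obtain ⟨y, hy, e'⟩ := hs Y hY 1
    have : star (x : GLN N) = y := Units.ext (by
      rw [Units.coe_star, e, e', one_smul, star_eq_conjTranspose, exp_conjTranspose])
    exact (this ▸ hy : star (x : GLN N) ∈ G)
  have h3 := H.isOpen_of_mem_nhds h1
  have : ConnectedSpace G := isConnected_iff_connectedSpace.1 hc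
  have h4 := IsClopen.eq_univ ⟨H.isClosed_of_isOpen h3, h3⟩ ⟨1, H.one_mem⟩
  exact (h4 ▸ Set.mem_univ _ : (⟨g, hg⟩ : G) ∈ (H : Set G))

end Pool.Agent.MP_94b95a_al.Fl

end MrgPart13

-- ======== part 14: formerly Pool.Agent.MP_94b95a_al.fl.Trans
section MrgPart14

/-! Transport along a conjugation. -/

namespace Pool.Agent.MP_94b95a_al.Fl

open NormedSpace Matrix Filter Topology

namespace Trans

variable {N : ℕ} {Γ : Type} [Group Γ]

/-- `G'` is the conjugate of `G` by `h`. -/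
def Cg (h : GLN N) (G G' : Subgroup (GLN N)) : Prop := ∀ g, g ∈ G ↔ h * g * h⁻¹ ∈ G'

theorem Cg.symm {h : GLN N} {G G' : Subgroup (GLN N)} (H : Cg h G G') : Cg h⁻¹ G' G := by
  intro g
  rw [H]
  have : h * (h⁻¹ * g * h⁻¹⁻¹) * h⁻¹ = g := by group
  rw [this]

theorem cg_map (h : GLN N) (G : Subgroup (GLN N)) :
    Cg h G (G.map (MulAut.conj h).toMonoidHom) := by
  intro g
  constructor
  · intro hg; exact ⟨g, hg, rfl⟩
  · rintro ⟨x, hx, e⟩
    have e' : h * x * h⁻¹ = h * g * h⁻¹ := e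
    rw [mul_left_inj, mul_right_inj] at e'
    rw [← e']; exact hx

/-- Transport of representations. -/
def tr {h : GLN N} {G G' : Subgroup (GLN N)} (H : Cg h G G') (ρ : Rep Γ G) : Rep Γ G' :=
  ⟨fun γ => h * ρ.1 γ * h⁻¹, fun γ => (H _).mp (ρ.2.1 γ), fun a b => by
    show h * ρ.1 (a * b) * h⁻¹ = h * ρ.1 a * h⁻¹ * (h * ρ.1 b * h⁻¹)
    rw [ρ.2.2]; group⟩

theorem tr_cont {h : GLN N} {G G' : Subgroup (GLN N)} (H : Cg h G G') :
    Continuous (tr (Γ := Γ) H) :=
  Continuous.subtype_mk (continuous_pi fun γ => (continuous_const.mul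
    ((continuous_apply γ).comp continuous_subtype_val)).mul continuous_const) _

theorem tr_tr {h : GLN N} {G G' : Subgroup (GLN N)} (H : Cg h G G') (ρ : Rep Γ G) :
    tr H.symm (tr H ρ) = ρ := by
  apply Subtype.ext
  funext γ
  show h⁻¹ * (h * ρ.1 γ * h⁻¹) * h⁻¹⁻¹ = _
  group

theorem tr_tr' {h : GLN N} {G G' : Subgroup (GLN N)} (H : Cg h G G') (ρ : Rep Γ G') :
    tr H (tr H.symm ρ) = ρ := by
  apply Subtype.ext
  funext γ
  show h * (h⁻¹ * ρ.1 γ * h⁻¹⁻¹) * h⁻¹ = _
  group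

theorem tr_conj {h : GLN N} {G G' : Subgroup (GLN N)} (H : Cg h G G') {ρ ρ' : Rep Γ G}
    (hc : Conj ρ ρ') : Conj (tr H ρ) (tr H ρ') := by
  obtain ⟨g, hg, e⟩ := hc
  refine ⟨h * g * h⁻¹, (H g).mp hg, fun γ => ?_⟩
  show h * ρ'.1 γ * h⁻¹ = h * g * h⁻¹ * (h * ρ.1 γ * h⁻¹) * (h * g * h⁻¹)⁻¹
  rw [e]; group

/-- Transport of closed orbits. -/
def trP {h : GLN N} {G G' : Subgroup (GLN N)} (H : Cg h G G') (ρ : Poly Γ G) : Poly Γ G' :=
  ⟨tr H ρ.1, by
    have e : {ρ' : Rep Γ G' | Conj (tr H ρ.1) ρ'} = tr H.symm ⁻¹' {σ | Conj ρ.1 σ} := by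
      ext σ
      constructor
      · intro hc
        have := tr_conj H.symm hc
        rw [tr_tr] at this
        exact this
      · intro hc
        have := tr_conj H hc
        rw [tr_tr'] at this
        exact this
    rw [e]
    exact ρ.2.preimage (tr_cont _)⟩

theorem trP_cont {h : GLN N} {G G' : Subgroup (GLN N)} (H : Cg h G G') :
    Continuous (trP (Γ := Γ) H) :=
  Continuous.subtype_mk ((tr_cont H).comp continuous_subtype_val) _

/-- Transport of classes. -/
def trC {h : GLN N} {G G' : Subgroup (GLN N)} (H : Cg h G G') : CharVar Γ G → CharVar Γ G' :=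
  Quot.lift (fun ρ => Quot.mk _ (trP H ρ)) fun _ _ hc => Quot.sound (tr_conj H hc)

theorem trC_cont {h : GLN N} {G G' : Subgroup (GLN N)} (H : Cg h G G') :
    Continuous (trC (Γ := Γ) H) :=
  continuous_quot_lift _ (continuous_quot_mk.comp (trP_cont H))

theorem trC_trC {h : GLN N} {G G' : Subgroup (GLN N)} (H : Cg h G G') (x : CharVar Γ G) :
    trC H.symm (trC H x) = x := by
  induction x using Quot.ind with
  | mk ρ => exact congrArg (Quot.mk _) (Subtype.ext (tr_tr H ρ.1))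

theorem trC_mem {h : GLN N} {G G' K K' : Subgroup (GLN N)} (H : Cg h G G') (H' : Cg h K K')
    {x : CharVar Γ G} (hx : x ∈ CompactPart Γ G K) : trC H x ∈ CompactPart Γ G' K' := by
  obtain ⟨ρ, hρ, rfl⟩ := hx
  exact ⟨trP H ρ, fun γ => (H' _).mp (hρ γ), rfl⟩

theorem compact_of {h : GLN N} {K K' : Subgroup (GLN N)} (H : Cg h K K')
    (hK : IsCompact (K : Set (GLN N))) : IsCompact (K' : Set (GLN N)) := by
  have e : (K' : Set (GLN N)) = (fun g : GLN N => h * g * h⁻¹) '' (K : Set (GLN N)) := by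
    ext g
    constructor
    · intro hg
      exact ⟨_, (H.symm g).mp hg, by group⟩
    · rintro ⟨x, hx, rfl⟩
      exact (H x).mp hx
  rw [e]
  exact hK.image ((continuous_const.mul continuous_id).mul continuous_const)

end Trans

theorem trans_thm : TransStmt where
  maxc N G K h hK := by
    have HG := Trans.cg_map h G
    have HK := Trans.cg_map h K
    refine ⟨Subgroup.map_mono hK.1, Trans.compact_of HK hK.2.1, fun K' h1 h2 h3 => ?_⟩
    have H' := Trans.cg_map h⁻¹ K'
    have e := hK.2.2 (K'.map (MulAut.conj h⁻¹).toMonoidHom)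
      (fun g hg => (H'.symm g).mpr (by rw [inv_inv h]; exact h1 ((HK g).mp hg)))
      (fun g hg => (HG g).mpr (h2 (by have := (H'.symm g).mp hg; rwa [inv_inv h] at this)))
      (Trans.compact_of H' h3)
    ext g
    rw [H' g, e, HK.symm g]
  sdr Γ _ N G K h hs := by
    have HG := Trans.cg_map h G
    have HK := Trans.cg_map h K
    obtain ⟨H, h0, h1, h2⟩ := hs
    refine ⟨⟨fun p => Trans.trC HG.symm (H (Trans.trC HG p.1, p.2)), (Trans.trC_cont _).comp
      (H.continuous.comp (((Trans.trC_cont HG).comp continuous_fst).prodMk continuous_snd))⟩,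
      fun x => ?_, fun x => ?_, fun y hy t => ?_⟩
    · show Trans.trC HG.symm (H (Trans.trC HG x, 0)) = x
      rw [h0, Trans.trC_trC]
    · exact Trans.trC_mem HG.symm HK.symm (h1 _)
    · show Trans.trC HG.symm (H (Trans.trC HG y, t)) = y
      rw [h2 _ (Trans.trC_mem HG HK hy), Trans.trC_trC]

end Pool.Agent.MP_94b95a_al.Fl

end MrgPart14

-- ======== part 15: formerly Pool.Agent.MP_94b95a_al.fl.Gl5
section MrgPart15

/-! The general linear group is reductive, with the unitary group as maximal compact subgroup. -/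

namespace Pool.Agent.MP_94b95a_al.Fl

open NormedSpace Matrix Filter Topology

namespace Gl5

variable {N : ℕ}

set_option backward.isDefEq.respectTransparency false in
theorem diff_exp (X : Mat N) (a b : Fin N) :
    Differentiable ℂ fun z : ℂ => (exp (z • X)) a b := by
  open scoped Matrix.Norms.Operator in
  intro z
  have h := (hasDerivAt_exp_smul_const (𝕂 := ℂ) X z).differentiableAt
  let l : Mat N →L[ℂ] ℂ := LinearMap.toContinuousLinearMap (Matrix.entryLinearMap ℂ ℂ a b)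
  exact l.differentiableAt.comp z h

set_option backward.isDefEq.respectTransparency false in
theorem val_inducing : IsInducing (Units.val : GLN N → Mat N) := by
  open scoped Matrix.Norms.Operator in
  exact (Units.isOpenEmbedding_val (R := Mat N)).isInducing

theorem exp_uni {X : Mat N} (hX : X.IsHermitian) (t : ℝ) :
    (exp ((Complex.I * t) • X))ᴴ * exp ((Complex.I * t) • X) = 1 := by
  have h1 : ((Complex.I * t) • X)ᴴ = -((Complex.I * t) • X) := by
    rw [conjTranspose_smul, hX.eq, ← neg_smul]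
    congr 1
    simp
  rw [← Matrix.exp_conjTranspose, h1, ← Matrix.exp_add_of_commute _ _
    (Commute.refl ((Complex.I * t) • X)).neg_left, neg_add_cancel, NormedSpace.exp_zero]

theorem hyp_herm {X : Mat N} (hX : X.IsHermitian) : Hyp X :=
  ⟨1, by rintro _ ⟨t, rfl⟩ a b; exact MaxK.entry_le (exp_uni hX t) a b⟩

theorem ell_of_compact {K : Subgroup (GLN N)} (h : IsCompact (K : Set (GLN N))) {u : GLN N}
    (hu : u ∈ K) : Ell u := by
  obtain ⟨C, hC⟩ := MaxK.bdd_of_compact h
  exact ⟨C, by rintro _ ⟨k, rfl⟩; exact hC _ ⟨u ^ k, K.zpow_mem hu k, rfl⟩⟩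

theorem conn : IsPreconnected (Set.univ : Set (GLN N)) := by
  refine isPreconnected_of_forall 1 fun g _ => ?_
  let γ : ℂ → Mat N := fun z => 1 + z • ((g : Mat N) - 1)
  have hγ : Continuous γ := continuous_const.add (continuous_id.smul continuous_const)
  let M : Matrix (Fin N) (Fin N) (Polynomial ℂ) := Matrix.of fun a b =>
    Polynomial.C ((1 : Mat N) a b) + Polynomial.X * Polynomial.C (((g : Mat N) - 1) a b)
  have hM : ∀ z, M.det.eval z = (γ z).det := by
    intro z
    have h := (Polynomial.evalRingHom z).map_det M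
    rw [Polynomial.coe_evalRingHom] at h
    rw [h]
    congr 1
    ext a b
    simp [M, γ]
  have hM0 : M.det ≠ 0 := by
    intro h
    have h1 := hM 0
    rw [h] at h1
    simp [γ] at h1
  have hfin : {z : ℂ | M.det.IsRoot z}.Finite := Polynomial.finite_setOfPred_isRoot hM0
  have hc : IsPreconnected (γ '' {z : ℂ | M.det.IsRoot z}ᶜ) :=
    (hfin.countable.isConnected_compl_of_one_lt_rank (by simp)).isPreconnected.image γ
      hγ.continuousOn
  refine ⟨Units.val ⁻¹' (γ '' {z : ℂ | M.det.IsRoot z}ᶜ), Set.subset_univ _, ?_, ?_, ?_⟩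
  · refine ⟨0, ?_, by simp [γ]⟩
    show ¬ M.det.eval 0 = 0
    rw [hM]; simp [γ]
  · refine ⟨1, ?_, by simp [γ]⟩
    show ¬ M.det.eval 1 = 0
    rw [hM]
    have : γ 1 = g := by simp [γ]
    rw [this]
    exact (Matrix.isUnits_det_units g).ne_zero
  · rw [← val_inducing.isPreconnected_image, Set.image_preimage_eq_of_subset]
    · exact hc
    · rintro _ ⟨z, hz, rfl⟩
      have h1 : (γ z).det ≠ 0 := by rw [← hM]; exact hz
      obtain ⟨u, hu⟩ := (Matrix.isUnit_iff_isUnit_det _).mpr (Ne.isUnit h1)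
      exact ⟨u, hu⟩

theorem dense (hPol : PolStmt) (p : MvPolynomial (Fin N × Fin N) ℂ)
    (hp : ∀ c ∈ MaxK.UG N, ev c p = 0) (g : GLN N) : ev g p = 0 := by
  obtain ⟨k, -, X, hk, hX, -, hg⟩ := hPol N ⊤ MaxK.sa_top g trivial
  let F : MvPolynomial (Fin N × Fin N) ℂ → ℂ → ℂ := fun q z =>
    MvPolynomial.eval (fun ij => ((k : Mat N) * exp (z • X)) ij.1 ij.2) q
  have hF : ∀ q, Differentiable ℂ (F q) := by
    intro q
    induction q using MvPolynomial.induction_on with
    | C z => simp only [F, MvPolynomial.eval_C]; exact differentiable_const _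
    | add p q hp hq => simp only [F, map_add]; exact hp.add hq
    | mul_X p ij hp =>
      simp only [F, map_mul, MvPolynomial.eval_X]
      refine hp.mul ?_
      simp only [Matrix.mul_apply]
      exact Differentiable.fun_sum fun c _ => (differentiable_const _).mul (diff_exp X c ij.2)
  have h0 : ∀ t : ℝ, F p (Complex.I * t) = 0 := by
    intro t
    obtain ⟨u, hu⟩ := Matrix.isUnit_exp ((Complex.I * t) • X)
    have h1 : u ∈ MaxK.UG N := by
      show (u : Mat N)ᴴ * (u : Mat N) = 1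
      rw [hu]; exact exp_uni hX t
    have h2 := hp _ ((MaxK.UG N).mul_mem hk h1)
    simp only [ev, Units.val_mul, hu] at h2
    exact h2
  have ht : Tendsto (fun t : ℝ => Complex.I * t) (𝓝[≠] 0) (𝓝[≠] 0) := by
    refine tendsto_nhdsWithin_iff.mpr ⟨?_, ?_⟩
    · have h1 : Continuous fun t : ℝ => Complex.I * t :=
        continuous_const.mul Complex.continuous_ofReal
      have h2 := h1.tendsto 0
      simp only [Complex.ofReal_zero, mul_zero] at h2
      exact h2.mono_left nhdsWithin_le_nhds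
    · filter_upwards [self_mem_nhdsWithin] with t ht
      exact mul_ne_zero Complex.I_ne_zero (Complex.ofReal_ne_zero.mpr ht)
  have h3 : F p = fun _ => 0 :=
    AnalyticOnNhd.eq_of_frequently_eq (fun z _ => (hF p).analyticAt z) analyticOnNhd_const
      (ht.frequently (Frequently.of_forall h0))
  have h4 := congrFun h3 1
  simp only [F, one_smul, ← hg] at h4
  exact h4

end Gl5

theorem gl5_thm (hPol : PolStmt) (hJun : JunStmt) : Gl5Stmt := by
  refine ⟨⟨⟨∅, fun g => by simp⟩, ⟨⟨1, trivial⟩, Gl5.conn⟩, MaxK.UG 5, le_top, MaxK.UG_compact,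
    fun p hp g _ => Gl5.dense hPol p hp g⟩, MaxK.UG 5, ⟨le_top, MaxK.UG_compact, ?_⟩, fun g hg => hg⟩
  intro K' hK _ hc
  refine le_antisymm (fun g hg => ?_) hK
  obtain ⟨k, -, X, hk, hX, -, he⟩ := hPol 5 ⊤ MaxK.sa_top g trivial
  have hu : k⁻¹ * g ∈ K' := K'.mul_mem (K'.inv_mem (hK hk)) hg
  have h1 : JD (k⁻¹ * g) (k⁻¹ * g) 0 0 :=
    ⟨by simp, Gl5.ell_of_compact hc hu, Gl5.hyp_herm isHermitian_zero, IsNilpotent.zero,
      Commute.zero_right _, Commute.zero_right _, Commute.zero_right _⟩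
  have h2 : JD (k⁻¹ * g) 1 X 0 :=
    ⟨by rw [Units.val_mul, he]; simp, Gl5.ell_of_compact hc K'.one_mem, Gl5.hyp_herm hX,
      IsNilpotent.zero, Commute.one_left _, Commute.zero_right _, Commute.zero_right _⟩
  have h3 := (hJun 5 _ _ _ _ _ _ _ h1 h2).1
  rw [inv_mul_eq_one] at h3
  rw [← h3]; exact hk

end Pool.Agent.MP_94b95a_al.Fl

end MrgPart15

-- marker of a merged file
example : 731051 + 89371 = 731051 + 89371 := rfl
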