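import Mathlib.LinearAlgebra.BilinearForm.Orthogonal
import Mathlib.RingTheory.Flat.TorsionFree
import Mathlib.LinearAlgebra.Matrix.PosDef
import Mathlib.Analysis.Complex.Polynomial.Basic
import Mathlib.LinearAlgebra.Matrix.FiniteDimensional
import Mathlib.RingTheory.SimpleRing.Principal
import Mathlib.RingTheory.TotallySplit
import Pool.Agent.MP_94b95a_al.fl.Fin1

/-! PROJECT FLAW, part M: a critical limit projector commutes with the conjugate transpose. -/

namespace Pool.Agent.MP_94b95a_al.Fl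

open Matrix

namespace StarM

variable {N : ℕ}

/-! ### Traces -/

theorem tr_zero {X : Mat N} (h : (X * Xᴴ).trace = 0) : X = 0 := by
  open scoped ComplexOrder in exact trace_mul_conjTranspose_self_eq_zero_iff.mp h

theorem tr_br {n : Type} [Fintype n] (A B C : Matrix n n ℂ) :
    ((A * B - B * A) * C).trace = (A * (B * C - C * B)).trace := by
  have h1 : (B * A * C).trace = (A * (C * B)).trace := by
    rw [Matrix.mul_assoc, trace_mul_comm, Matrix.mul_assoc]
  rw [Matrix.sub_mul, Matrix.mul_sub, trace_sub, trace_sub, h1, Matrix.mul_assoc]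

/-! ### Operators as matrices -/

noncomputable def adO (Y : Mat N) : Op N := LinearMap.mulLeft ℂ Y - LinearMap.mulRight ℂ Y

theorem adO_apply (Y X : Mat N) : adO Y X = Y * X - X * Y := rfl

noncomputable def mx (φ : Op N) : Matrix (Fin N × Fin N) (Fin N × Fin N) ℂ :=
  of fun p a => φ (single a.1 a.2 1) p.1 p.2

theorem app (φ : Op N) (X : Mat N) (p q : Fin N) :
    φ X p q = ∑ a, ∑ b, X a b * φ (single a b 1) p q := by
  conv_lhs => rw [matrix_eq_sum_single X]
  simp only [map_sum, Matrix.sum_apply]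
  refine Finset.sum_congr rfl fun a _ => Finset.sum_congr rfl fun b _ => ?_
  have : single a b (X a b) = X a b • (single a b 1 : Mat N) := by
    rw [smul_single, smul_eq_mul, mul_one]
  rw [this, map_smul, Matrix.smul_apply, smul_eq_mul]

theorem mx_comp (φ ψ : Op N) : mx (φ ∘ₗ ψ) = mx φ * mx ψ := by
  ext p a
  simp only [mx, of_apply, LinearMap.comp_apply, Matrix.mul_apply, Fintype.sum_prod_type]
  rw [app]
  exact Finset.sum_congr rfl fun c _ => Finset.sum_congr rfl fun d _ => mul_comm _ _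

theorem mx_sub (φ ψ : Op N) : mx (φ - ψ) = mx φ - mx ψ := by
  ext p a
  simp [mx]

theorem mx_eq_zero {φ : Op N} (h : mx φ = 0) : φ = 0 := by
  ext X p q
  have h0 : ∀ a b, φ (single a b 1) p q = 0 := fun a b => congrFun (congrFun h (p, q)) (a, b)
  rw [app]
  simp [h0]

theorem mul_E (Y : Mat N) (a b p q : Fin N) :
    (Y * single a b (1 : ℂ)) p q = if q = b then Y p a else 0 := by
  by_cases h : q = b
  · subst h; simp
  · simp [h]

theorem E_mul (Y : Mat N) (a b p q : Fin N) :
    (single a b (1 : ℂ) * Y) p q = if p = a then Y b q else 0 := by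
  by_cases h : p = a
  · subst h; simp
  · simp [h]

theorem mx_ad_star (Y : Mat N) : (mx (adO Y))ᴴ = mx (adO Yᴴ) := by
  ext p a
  simp only [mx, conjTranspose_apply, of_apply, adO_apply, Matrix.sub_apply, mul_E, E_mul,
    star_sub]
  congr 1
  · by_cases h : a.2 = p.2
    · rw [if_pos h, if_pos h.symm]
    · rw [if_neg h, if_neg fun h' => h h'.symm, star_zero]
  · by_cases h : a.1 = p.1
    · rw [if_pos h, if_pos h.symm]
    · rw [if_neg h, if_neg fun h' => h h'.symm, star_zero]

theorem mx_tr (φ ψ : Op N) : (mx φ * (mx ψ)ᴴ).trace =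
    ∑ a, ∑ b, (φ (single a b 1) * (ψ (single a b 1))ᴴ).trace := by
  simp only [Matrix.trace, Matrix.diag, Matrix.mul_apply, conjTranspose_apply, mx, of_apply]
  rw [Finset.sum_comm, Fintype.sum_prod_type]
  refine Finset.sum_congr rfl fun a _ => Finset.sum_congr rfl fun b _ => ?_
  rw [Fintype.sum_prod_type]

/-- The normalizer condition. -/
def InN (w : Op N) (Z : Mat N) : Prop := ∀ X, w (Z * X - X * Z) = Z * w X - w X * Z

theorem mx_rho (w : Op N) (Y : Mat N) :
    mx (adO Y ∘ₗ w - w ∘ₗ adO Y) = mx (adO Y) * mx w - mx w * mx (adO Y) := by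
  rw [mx_sub, mx_comp, mx_comp]

theorem crit_mx {w : Op N} (hc : Crit w) (Y : Mat N) :
    ((mx (adO Y) * mx w - mx w * mx (adO Y)) * (mx w)ᴴ).trace = 0 := by
  rw [← mx_rho, mx_tr]
  exact hc Y

theorem inN_star {w : Op N} (hc : Crit w) {Z : Mat N} (hZ : InN w Z) : InN w Zᴴ := by
  have h0 : adO Z ∘ₗ w - w ∘ₗ adO Z = 0 := by
    ext X p q
    have := hZ X
    simp only [LinearMap.sub_apply, LinearMap.comp_apply, adO_apply, this, sub_self,
      LinearMap.zero_apply]
  have h1 : mx (adO Z) * mx w - mx w * mx (adO Z) = 0 := by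
    rw [← mx_rho, h0]; ext p a; simp [mx]
  have h2 : mx (adO (Z * Zᴴ - Zᴴ * Z)) =
      mx (adO Z) * mx (adO Zᴴ) - mx (adO Zᴴ) * mx (adO Z) := by
    rw [← mx_comp, ← mx_comp, ← mx_sub]
    congr 1
    ext X p q
    have : adO (Z * Zᴴ - Zᴴ * Z) X = adO Z (adO Zᴴ X) - adO Zᴴ (adO Z X) := by
      simp only [adO_apply]; noncomm_ring
    simp only [LinearMap.sub_apply, LinearMap.comp_apply, this]
  have h3 := crit_mx hc (Z * Zᴴ - Zᴴ * Z)
  rw [h2] at h3
  have hs : (mx (adO Zᴴ))ᴴ = mx (adO Z) := by rw [mx_ad_star, conjTranspose_conjTranspose]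
  generalize mx (adO Z) = A at h1 h3 hs
  have key : ∀ B W : Matrix (Fin N × Fin N) (Fin N × Fin N) ℂ, Bᴴ = A → A * W - W * A = 0 →
      (((A * B - B * A) * W - W * (A * B - B * A)) * Wᴴ).trace = 0 → B * W - W * B = 0 := by
    intro B W hB h1 h3
    have e1 : (A * B - B * A) * W - W * (A * B - B * A) =
        (A * (B * W - W * B) - (B * W - W * B) * A) -
          (B * (A * W - W * A) - (A * W - W * A) * B) := by noncomm_ring
    rw [e1, h1, Matrix.mul_zero, Matrix.zero_mul, sub_zero, sub_zero] at h3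
    have e2 : (B * W - W * B)ᴴ = Wᴴ * A - A * Wᴴ := by
      rw [conjTranspose_sub, conjTranspose_mul, conjTranspose_mul, hB]
    have e3 : ((B * W - W * B) * (B * W - W * B)ᴴ).trace = 0 := by
      have e4 := tr_br (B * W - W * B) A Wᴴ
      have e5 : ((B * W - W * B) * A - A * (B * W - W * B)) * Wᴴ =
          -((A * (B * W - W * B) - (B * W - W * B) * A) * Wᴴ) := by noncomm_ring
      have e6 : (B * W - W * B) * (Wᴴ * A - A * Wᴴ) =
          -((B * W - W * B) * (A * Wᴴ - Wᴴ * A)) := by noncomm_ring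
      rw [e2, e6, trace_neg, ← e4, e5, trace_neg, h3]
      simp
    open scoped ComplexOrder in exact trace_mul_conjTranspose_self_eq_zero_iff.mp e3
  have h4 := key _ _ hs h1 h3
  rw [← mx_rho] at h4
  have h5 := mx_eq_zero h4
  intro X
  have := LinearMap.congr_fun h5 X
  simp only [LinearMap.sub_apply, LinearMap.comp_apply, adO_apply, LinearMap.zero_apply] at this
  exact (sub_eq_zero.mp this).symm

theorem inN_of_mem {w : Op N} (hw : GP w) {Y : Mat N} (hY : w Y = Y) : InN w Y := by
  intro X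
  have hC : w (X - w X) = 0 := by rw [map_sub, hw.idem, sub_self]
  have h1 : w (Y * (X - w X) - (X - w X) * Y) = 0 := by
    have : ∀ T, (w (Y * (X - w X) - (X - w X) * Y) * T).trace = 0 := by
      intro T
      have e1 : Y * (X - w X) - (X - w X) * Y = -((X - w X) * Y - Y * (X - w X)) := by abel
      have e2 := hw.lie Y T
      rw [hY] at e2
      rw [hw.symm, e1, Matrix.neg_mul, trace_neg, tr_br, ← e2, ← hw.symm, hC]
      simp
    exact tr_zero (this _)
  have h2 := hw.lie Y X
  rw [hY] at h2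
  have e : Y * X - X * Y = (Y * w X - w X * Y) + (Y * (X - w X) - (X - w X) * Y) := by
    noncomm_ring
  rw [e, map_add, h1, h2, add_zero]

theorem inN_diag {D : Fin N → ℝ} {w : Op N} (h : OPure D 0 w) :
    InN w (diagonal fun a => (D a : ℂ)) := by
  intro X
  ext p q
  rw [app, Matrix.sub_apply, diagonal_mul, mul_diagonal, app w X p q, Finset.mul_sum,
    Finset.sum_mul, ← Finset.sum_sub_distrib]
  refine Finset.sum_congr rfl fun a _ => ?_
  rw [Finset.mul_sum, Finset.sum_mul, ← Finset.sum_sub_distrib]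
  refine Finset.sum_congr rfl fun b _ => ?_
  rw [Matrix.sub_apply, diagonal_mul, mul_diagonal]
  by_cases h0 : w (single a b 1) p q = 0
  · simp [h0]
  · have h1 := h a b p q h0
    have h2 : ((D p : ℂ) - D q) - (D a - D b) = 0 := by exact_mod_cast h1
    linear_combination (-(X a b * w (single a b 1) p q)) * h2

/-! ### The filtration -/

/-- Matrices of non negative weights. -/
def FF (D : Fin N → ℝ) : Subalgebra ℂ (Mat N) where
  carrier := {X | ∀ a b, X a b ≠ 0 → D b ≤ D a}
  mul_mem' := by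
    intro X Y hX hY a b h
    rw [Matrix.mul_apply] at h
    obtain ⟨c, _, hc⟩ := Finset.exists_ne_zero_of_sum_ne_zero h
    exact (hY c b (right_ne_zero_of_mul hc)).trans (hX a c (left_ne_zero_of_mul hc))
  add_mem' := by
    intro X Y hX hY a b h
    by_cases h1 : X a b = 0
    · rw [Matrix.add_apply, h1, zero_add] at h
      exact hY a b h
    · exact hX a b h1
  algebraMap_mem' := by
    intro r a b h
    by_cases h1 : a = b
    · rw [h1]
    · exact absurd (by simp [Matrix.algebraMap_matrix_apply, h1]) h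

open Classical in
/-- The part of weight zero. -/
noncomputable def pr (D : Fin N → ℝ) : Op N where
  toFun X := of fun a b => if D a = D b then X a b else 0
  map_add' X Y := by
    ext a b
    by_cases h : D a = D b <;> simp [h]
  map_smul' r X := by
    ext a b
    by_cases h : D a = D b <;> simp [h]

open Classical in
theorem pr_apply (D : Fin N → ℝ) (X : Mat N) (a b : Fin N) :
    pr D X a b = if D a = D b then X a b else 0 := rfl

theorem pr_mul (D : Fin N → ℝ) {X Y : Mat N} (hX : X ∈ FF D) (hY : Y ∈ FF D) :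
    pr D (X * Y) = pr D X * pr D Y := by
  ext a b
  rw [pr_apply, Matrix.mul_apply, Matrix.mul_apply]
  by_cases h : D a = D b
  · rw [if_pos h]
    refine Finset.sum_congr rfl fun c _ => ?_
    rw [pr_apply, pr_apply]
    by_cases h1 : X a c = 0
    · simp [h1]
    · by_cases h2 : Y c b = 0
      · simp [h2]
      · have i1 : D c ≤ D a := hX a c h1
        have i2 : D b ≤ D c := hY c b h2
        rw [if_pos (by linarith), if_pos (by linarith)]
  · rw [if_neg h]
    refine (Finset.sum_eq_zero fun c _ => ?_).symm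
    rw [pr_apply, pr_apply]
    by_cases h1 : D a = D c
    · rw [if_neg (fun h2 : D c = D b => h (h1.trans h2)), mul_zero]
    · rw [if_neg h1, zero_mul]

theorem pr_one (D : Fin N → ℝ) : pr D 1 = 1 := by
  ext a b
  rw [pr_apply]
  by_cases h : a = b
  · rw [if_pos (by rw [h])]
  · simp [h]

/-- The part of weight zero as an algebra map. -/
noncomputable def prA (D : Fin N → ℝ) : FF D →ₐ[ℂ] Mat N :=
  AlgHom.ofLinearMap (pr D ∘ₗ (FF D).val.toLinearMap) (pr_one D)
    (fun x y => pr_mul D x.2 y.2)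

theorem pr_rd (D : Fin N → ℝ) {A : Mat N} (hA : A ∈ FF D) (h : RD A) : RD (pr D A) := by
  obtain ⟨s, hs⟩ := h
  refine ⟨s, ?_⟩
  have h1 : Polynomial.aeval (⟨A, hA⟩ : FF D)
      (∏ r ∈ s, (Polynomial.X - Polynomial.C (r : ℂ))) = 0 := by
    apply Subtype.ext
    rw [Polynomial.aeval_subalgebra_coe]
    exact hs
  have h2 := Polynomial.aeval_algHom_apply (prA D) (⟨A, hA⟩ : FF D)
    (∏ r ∈ s, (Polynomial.X - Polynomial.C (r : ℂ)))
  rw [h1, map_zero] at h2
  exact h2

theorem pr_nil (D : Fin N → ℝ) {A : Mat N} (hA : A ∈ FF D) (h : IsNilpotent A) :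
    IsNilpotent (pr D A) := by
  obtain ⟨k, hk⟩ := h
  have h1 : IsNilpotent (⟨A, hA⟩ : FF D) := ⟨k, Subtype.ext (by simpa using hk)⟩
  exact h1.map (prA D)

theorem pr_comm (D : Fin N → ℝ) {A B : Mat N} (hA : A ∈ FF D) (hB : B ∈ FF D)
    (h : Commute A B) : Commute (pr D A) (pr D B) := by
  show pr D A * pr D B = pr D B * pr D A
  rw [← pr_mul D hA hB, ← pr_mul D hB hA, h.eq]

theorem pr_w {D : Fin N → ℝ} {w : Op N} (h : OPure D 0 w) (A : Mat N) :
    pr D (w A) = w (pr D A) := by
  ext p q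
  rw [pr_apply, app w (pr D A)]
  by_cases h1 : D p = D q
  · rw [if_pos h1, app]
    refine Finset.sum_congr rfl fun a _ => Finset.sum_congr rfl fun b _ => ?_
    by_cases h0 : w (single a b 1) p q = 0
    · simp [h0]
    · have := h a b p q h0
      rw [pr_apply, if_pos (by linarith)]
  · rw [if_neg h1]
    refine (Finset.sum_eq_zero fun a _ => Finset.sum_eq_zero fun b _ => ?_).symm
    by_cases h0 : w (single a b 1) p q = 0
    · simp [h0]
    · have := h a b p q h0
      rw [pr_apply, if_neg (fun h2 => h1 (by linarith)), zero_mul]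

theorem pos_lt {D : Fin N → ℝ} {φ : Op N} (h : OPos D φ) {A : Mat N} (hA : A ∈ FF D)
    {p q : Fin N} (h0 : φ A p q ≠ 0) : D q < D p := by
  rw [app] at h0
  obtain ⟨a, _, ha⟩ := Finset.exists_ne_zero_of_sum_ne_zero h0
  obtain ⟨b, _, hb⟩ := Finset.exists_ne_zero_of_sum_ne_zero ha
  have i1 : D b ≤ D a := hA a b (left_ne_zero_of_mul hb)
  have i2 := h a b p q (right_ne_zero_of_mul hb)
  linarith

theorem pr_pos {D : Fin N → ℝ} {φ : Op N} (h : OPos D φ) {A : Mat N} (hA : A ∈ FF D) :
    pr D (φ A) = 0 := by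
  ext p q
  rw [pr_apply]
  by_cases h1 : D p = D q
  · rw [if_pos h1]
    by_contra h0
    exact absurd h1 (pos_lt h hA h0).ne'
  · rw [if_neg h1]; rfl

theorem rd_herm_part (ha : AjStmt) {X : Mat N} (hn : X * Xᴴ - Xᴴ * X = 0) :
    AJ X ((1 / 2 : ℂ) • (X + Xᴴ)) ((-Complex.I / 2) • (X - Xᴴ)) 0 where
  eq := by
    rw [smul_smul, add_zero]
    have : Complex.I * (-Complex.I / 2) = 1 / 2 := by
      linear_combination (-1 / 2 : ℂ) * Complex.I_mul_I
    rw [this]
    module
  rdA := ha.herm N _ (by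
    show _ = _
    rw [conjTranspose_smul, conjTranspose_add, conjTranspose_conjTranspose, add_comm]
    simp)
  rdB := ha.herm N _ (by
    show _ = _
    rw [conjTranspose_smul, conjTranspose_sub, conjTranspose_conjTranspose]
    have : star (-Complex.I / 2 : ℂ) = Complex.I / 2 := by simp
    rw [this]
    module)
  nil := IsNilpotent.zero
  AB := by
    have h1 : Commute X Xᴴ := sub_eq_zero.mp hn
    have h2 : Commute (X + Xᴴ) (X - Xᴴ) :=
      ((Commute.refl X).sub_right h1).add_left (h1.symm.sub_right (Commute.refl _))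
    exact (h2.smul_left _).smul_right _
  Aν := Commute.zero_right _
  Bν := Commute.zero_right _

/-- A normal element of weight zero of the range has its adjoint in the range. -/
theorem star_mem (ha : AjStmt) {D : Fin N → ℝ} {z w : Op N} (hz : GP z) (hj : JC z)
    (hp : OPure D 0 w) (ho : OPos D (z - w)) {X : Mat N} (hX : w X = X)
    (hn : X * Xᴴ - Xᴴ * X = 0) (h0 : ∀ a b, X a b ≠ 0 → D a = D b) : w Xᴴ = Xᴴ := by
  have hXF : X ∈ FF D := fun a b h => (h0 a b h).ge
  have hXp : pr D X = X := by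
    ext a b
    rw [pr_apply]
    by_cases h : X a b = 0
    · simp [h]
    · rw [if_pos (h0 a b h)]
  have e1 : z X = X + (z - w) X := by rw [LinearMap.sub_apply, hX]; abel
  have hzF : z X ∈ FF D := by
    rw [e1]
    exact (FF D).add_mem hXF fun a b h => (pos_lt ho hXF h).le
  have hzp : pr D (z X) = X := by rw [e1, map_add, hXp, pr_pos ho hXF, add_zero]
  obtain ⟨A, B, ν, hAJ, hA, hB, hν⟩ := ha.ex N (z X)
  have hle : Algebra.adjoin ℂ {z X} ≤ FF D := Algebra.adjoin_le (by simpa using hzF)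
  have hAF := hle hA
  have hBF := hle hB
  have hνF := hle hν
  have hAJ' : AJ X (pr D A) (pr D B) (pr D ν) :=
    { eq := by rw [← hzp, hAJ.eq, map_add, map_add, map_smul]
      rdA := pr_rd D hAF hAJ.rdA
      rdB := pr_rd D hBF hAJ.rdB
      nil := pr_nil D hνF hAJ.nil
      AB := pr_comm D hAF hBF hAJ.AB
      Aν := pr_comm D hAF hνF hAJ.Aν
      Bν := pr_comm D hBF hνF hAJ.Bν }
  have hzA : z A = A := (hj (z X) A B ν (hz.idem X) hAJ).1
  have e2 : A = w A + (z - w) A := by rw [LinearMap.sub_apply, hzA]; abel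
  have e3 : w (pr D A) = pr D A := by
    rw [← pr_w hp]
    conv_rhs => rw [e2]
    rw [map_add, pr_pos ho hAF, add_zero]
  have e4 := (ha.un N X _ _ _ _ _ _ hAJ' (rd_herm_part ha hn)).1
  rw [e4, map_smul, map_add, hX] at e3
  have e5 := smul_right_injective (Mat N) (by norm_num : (1 / 2 : ℂ) ≠ 0) e3
  exact add_left_cancel e5

/-- The trace form. -/
noncomputable def TB (N : ℕ) : LinearMap.BilinForm ℂ (Mat N) :=
  LinearMap.mk₂ ℂ (fun X Y => (X * Y).trace)
    (fun X X' Y => by rw [Matrix.add_mul, trace_add])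
    (fun c X Y => by rw [Matrix.smul_mul, trace_smul])
    (fun X Y Y' => by rw [Matrix.mul_add, trace_add])
    (fun c X Y => by rw [Matrix.mul_smul, trace_smul])

/-- Elements of the range whose adjoint is in the range. -/
def mm (w : Op N) : Submodule ℂ (Mat N) where
  carrier := {X | w X = X ∧ w Xᴴ = Xᴴ}
  add_mem' := by
    intro X Y hX hY
    exact ⟨by rw [map_add, hX.1, hY.1], by rw [conjTranspose_add, map_add, hX.2, hY.2]⟩
  zero_mem' := ⟨map_zero _, by rw [conjTranspose_zero, map_zero]⟩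
  smul_mem' := by
    intro c X hX
    exact ⟨by rw [map_smul, hX.1], by rw [conjTranspose_smul, map_smul, hX.2]⟩

theorem mm_star {w : Op N} {X : Mat N} (h : X ∈ mm w) : Xᴴ ∈ mm w :=
  ⟨h.2, by rw [conjTranspose_conjTranspose]; exact h.1⟩

theorem br_mem {w : Op N} {Z Y : Mat N} (hZ : InN w Z) (hY : w Y = Y) :
    w (Z * Y - Y * Z) = Z * Y - Y * Z := by rw [hZ Y, hY]

theorem br_mm {w : Op N} (hc : Crit w) {Z M : Mat N} (hZ : InN w Z) (hM : M ∈ mm w) :
    Z * M - M * Z ∈ mm w := by
  refine ⟨br_mem hZ hM.1, ?_⟩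
  have e : (Z * M - M * Z)ᴴ = -(Zᴴ * Mᴴ - Mᴴ * Zᴴ) := by
    rw [conjTranspose_sub, conjTranspose_mul, conjTranspose_mul]; abel
  rw [e, map_neg, br_mem (inN_star hc hZ) hM.2]

/-- The orthogonal ideal. -/
def InA (w : Op N) (X : Mat N) : Prop := w X = X ∧ ∀ M ∈ mm w, (M * X).trace = 0

theorem inA_br {w : Op N} (hc : Crit w) {Z X : Mat N} (hZ : InN w Z) (hX : InA w X) :
    InA w (Z * X - X * Z) := by
  refine ⟨br_mem hZ hX.1, fun M hM => ?_⟩
  have h1 := hX.2 _ (br_mm hc hZ hM)
  have e : M * Z - Z * M = -(Z * M - M * Z) := by abel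
  rw [← tr_br, e, Matrix.neg_mul, trace_neg, h1, neg_zero]

theorem inA_mm {w : Op N} {X : Mat N} (hX : InA w X) (h : w Xᴴ = Xᴴ) : X = 0 := by
  have h1 := hX.2 Xᴴ (mm_star ⟨hX.1, h⟩)
  rw [trace_mul_comm] at h1
  exact tr_zero h1

theorem inA_star {w : Op N} (hw : GP w) (hc : Crit w) {X X' : Mat N} (hX : InA w X)
    (hX' : InA w X') : X'ᴴ * X - X * X'ᴴ = 0 := by
  refine inA_mm (inA_br hc (inN_star hc (inN_of_mem hw hX'.1)) hX) ?_
  have e : (X'ᴴ * X - X * X'ᴴ)ᴴ = Xᴴ * X' - X' * Xᴴ := by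
    rw [conjTranspose_sub, conjTranspose_mul, conjTranspose_mul, conjTranspose_conjTranspose]
  rw [e, br_mem (inN_star hc (inN_of_mem hw hX.1)) hX'.1]

theorem inA_central {w : Op N} (hw : GP w) (hc : Crit w) {Z X : Mat N} (hZ : InN w Z)
    (hX : InA w X) : Z * X - X * Z = 0 := by
  have h1 := inA_star hw hc hX (inA_br hc hZ hX)
  apply tr_zero
  have e : X * (Z * X - X * Z)ᴴ - (Z * X - X * Z)ᴴ * X =
      -((Z * X - X * Z)ᴴ * X - X * (Z * X - X * Z)ᴴ) := by abel
  rw [tr_br, e, h1]
  simp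

end StarM

open StarM in
theorem star_thm (ha : AjStmt) : StarStmt := by
  intro N D z w hz hj hw hc hp ho
  have hA : ∀ X, InA w X → X = 0 := by
    intro X hX
    have hn : X * Xᴴ - Xᴴ * X = 0 := by
      have := inA_star hw hc hX hX
      rw [← neg_sub, this, neg_zero]
    have h0 : ∀ a b, X a b ≠ 0 → D a = D b := by
      intro a b h
      have h1 := congrFun (congrFun (inA_central hw hc (inN_diag hp) hX) a) b
      rw [Matrix.sub_apply, diagonal_mul, mul_diagonal, Matrix.zero_apply] at h1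
      have h2 : X a b * ((D a : ℂ) - D b) = 0 := by linear_combination h1
      have h3 := (mul_eq_zero.mp h2).resolve_left h
      exact_mod_cast sub_eq_zero.mp h3
    exact inA_mm hX (star_mem ha hz hj hp ho hX.1 hn h0)
  have hrefl : (TB N).IsRefl := by
    intro X Y h
    show (Y * X).trace = 0
    rw [trace_mul_comm]
    exact h
  have hcompl : IsCompl (mm w) ((TB N).orthogonal (mm w)) := by
    rw [LinearMap.BilinForm.isCompl_orthogonal_iff_disjoint hrefl, Submodule.disjoint_def]
    intro X h1 h2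
    exact inA_mm ⟨h1.1, fun M hM => h2 M hM⟩ h1.2
  have hg : ∀ Y, w Y = Y → w Yᴴ = Yᴴ := by
    intro Y hY
    have hm : Y ∈ mm w ⊔ (TB N).orthogonal (mm w) := by
      rw [hcompl.sup_eq_top]; trivial
    obtain ⟨M, hM, X, hX, e⟩ := Submodule.mem_sup.mp hm
    have hX1 : w X = X := by
      have : X = Y - M := by rw [← e]; abel
      rw [this, map_sub, hY, hM.1]
    have hX0 := hA X ⟨hX1, fun M' hM' => hX M' hM'⟩
    rw [hX0, add_zero] at e
    rw [← e]
    exact hM.2
  intro X
  have hC : w (X - w X) = 0 := by rw [map_sub, hw.idem, sub_self]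
  have h1 : w (X - w X)ᴴ = 0 := by
    have : ∀ T, (w (X - w X)ᴴ * T).trace = 0 := by
      intro T
      have e1 : ((X - w X) * (w T)ᴴ).trace = 0 := by
        rw [← hg (w T) (hw.idem T), ← hw.symm, hC]
        simp
      have e2 : (X - w X)ᴴ * w T = ((w T)ᴴ * (X - w X))ᴴ := by
        rw [conjTranspose_mul, conjTranspose_conjTranspose]
      rw [hw.symm, e2, trace_conjTranspose, trace_mul_comm, e1, star_zero]
    exact tr_zero (this _)
  have e : Xᴴ = (w X)ᴴ + (X - w X)ᴴ := by rw [conjTranspose_sub]; abel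
  rw [e, map_add, h1, add_zero, hg (w X) (hw.idem X)]

end Pool.Agent.MP_94b95a_al.Fl
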