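import Mathlib.Tactic.Polynomial.Basic
import Pool.Agent.MP_94b95a_al.fl.Nondeg
import Pool.Agent.MP_94b95a_al.fl.Star
import Pool.Agent.MP_94b95a_al.fl.Fin1
import Pool.Agent.MP_94b95a_al.fl.Gl5

-- ======== part 0: formerly Pool.Agent.MP_94b95a_al.fl.Rigid
section MrgPart0

-- ======== part 0: formerly Pool.Agent.MP_94b95a_al.fl.FpA
section MrgPart0

/-! PROJECT FLAW: finite presentation for polynomial rings. -/

namespace Pool.Agent.MP_94b95a_al.Fl

open scoped commutatorElement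
open StLem Finsupp

namespace FpA

variable {σ : Type} {H : Type} [Group H]

/-- legitimate monomial root elements -/
def Lg (i j : Fin 5) (u : σ →₀ ℕ) : Prop := i ≠ j ∧ (i < j ∨ u ≠ 0)

theorem Lg.add {i j k : Fin 5} {u v : σ →₀ ℕ} (hu : Lg i j u) (hv : Lg j k v) (h : i ≠ k) :
    Lg i k (u + v) := by
  refine ⟨h, ?_⟩
  rcases hu.2 with h1 | h1
  · rcases hv.2 with h2 | h2
    · exact Or.inl (h1.trans h2)
    · exact Or.inr fun e => h2 (add_eq_zero.1 e).2
  · exact Or.inr fun e => h1 (add_eq_zero.1 e).1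

def R1 (x : Fin 5 → Fin 5 → (σ →₀ ℕ) → H) (a b : ℕ) : Prop :=
  ∀ i j k l u v, j ≠ k → i ≠ l → Lg i j u → Lg k l v → u.degree ≤ a → v.degree ≤ b →
    Commute (x i j u) (x k l v)

def R2 (x : Fin 5 → Fin 5 → (σ →₀ ℕ) → H) (n : ℕ) : Prop :=
  ∀ i j k u v, i ≠ k → Lg i j u → Lg j k v → (u + v).degree ≤ n →
    ⁅x i j u, x j k v⁆ = x i k (u + v)

def R3 (x : Fin 5 → Fin 5 → (σ →₀ ℕ) → H) (n : ℕ) : Prop :=
  ∀ i j k u v, i ≠ k → i ≠ j → j ≠ k → u ≠ 0 → v ≠ 0 → (u + v).degree ≤ n →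
    ⁅x i j u, x j k v⁆ = x i k (u + v)

variable {x : Fin 5 → Fin 5 → (σ →₀ ℕ) → H}

theorem move {N : ℕ} (h1 : R1 x N N) {i j l k : Fin 5} (hik : i ≠ k) (hil : i ≠ l) (hjk : j ≠ k)
    {u v z : σ →₀ ℕ} (hu : Lg i j u) (hv : Lg j l v) (hz : Lg l k z)
    (d1 : (u + v).degree ≤ N) (d2 : (v + z).degree ≤ N)
    (hd : ⁅x i j u, x j l v⁆ = x i l (u + v)) (hf : ⁅x j l v, x l k z⁆ = x j k (v + z)) :
    ⁅x i j u, x j k (v + z)⁆ = ⁅x i l (u + v), x l k z⁆ := by
  have e1 := map_add degree u v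
  have e2 := map_add degree v z
  rw [← hd, ← hf]
  refine key (h1 i j l k u z hv.1 hik hu hz (by omega) (by omega)) ?_ ?_
  · rw [hd, hf]
    exact h1 j k i l _ _ hik.symm hv.1 (hv.add hz hjk) (hu.add hv hil) d2 d1
  · rw [hf]
    exact h1 j k l k _ _ hz.1.symm hjk (hv.add hz hjk) hz d2 (by omega)

theorem deg_pos {u : σ →₀ ℕ} (h : u ≠ 0) : 1 ≤ u.degree :=
  Nat.one_le_iff_ne_zero.2 fun e => h ((degree_eq_zero_iff u).1 e)

theorem split_at {u : σ →₀ ℕ} {a : σ} (h : u a ≠ 0) : ∃ w, u = single a 1 + w :=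
  exists_add_of_le (single_le_iff.2 (Nat.one_le_iff_ne_zero.2 h))

theorem split {u : σ →₀ ℕ} (h : u ≠ 0) : ∃ a w, u = single a 1 + w := by
  obtain ⟨a, ha⟩ := Finsupp.ne_iff.1 h
  exact ⟨a, split_at ha⟩

section Step
variable {n : ℕ} (h1 : R1 x n n) (h2 : R2 x n) {i k : Fin 5} (hik : i ≠ k)
include h1 h2 hik

theorem mid {j l : Fin 5} (hij : i ≠ j) (hjk : j ≠ k) (hil : i ≠ l) (hlk : l ≠ k)
    {u v : σ →₀ ℕ} (hu : u ≠ 0) (hv : v ≠ 0) (hd : (u + v).degree ≤ n + 1) :
    ⁅x i j u, x j k v⁆ = ⁅x i l u, x l k v⁆ := by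
  wlog h : j < l generalizing j l
  · rcases eq_or_lt_of_le (not_lt.1 h) with h | h
    · rw [h]
    · exact (this hil hlk hij hjk h).symm
  have := deg_pos hu
  have := deg_pos hv
  rw [map_add] at hd
  have d1 : (u + 0).degree ≤ n := by rw [add_zero]; omega
  have d2 : (0 + v).degree ≤ n := by rw [zero_add]; omega
  have a1 : Lg i j u := ⟨hij, Or.inr hu⟩
  have a2 : Lg j l (0 : σ →₀ ℕ) := ⟨h.ne, Or.inl h⟩
  have a3 : Lg l k v := ⟨hlk, Or.inr hv⟩
  simpa using move h1 hik hil hjk a1 a2 a3 d1 d2 (h2 _ _ _ _ _ hil a1 a2 d1)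
    (h2 _ _ _ _ _ hjk a2 a3 d2)

theorem grow {j : Fin 5} (hij : i ≠ j) (hjk : j ≠ k) {u v z : σ →₀ ℕ} (hu : u ≠ 0) (hz : z ≠ 0)
    (hd : (u + v + z).degree ≤ n + 1) :
    ⁅x i j u, x j k (v + z)⁆ = ⁅x i j (u + v), x j k z⁆ := by
  by_cases hv : v = 0
  · simp [hv]
  obtain ⟨l, l1, l2, l3⟩ := fourth i j k
  have := deg_pos hu
  have := deg_pos hz
  have hd' := hd
  rw [map_add, map_add] at hd'
  have d1 : (u + v).degree ≤ n := by rw [map_add]; omega
  have d2 : (v + z).degree ≤ n := by rw [map_add]; omega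
  have a1 : Lg i j u := ⟨hij, Or.inr hu⟩
  have a2 : Lg j l v := ⟨l2.symm, Or.inr hv⟩
  have a3 : Lg l k z := ⟨l3, Or.inr hz⟩
  rw [move h1 hik l1.symm hjk a1 a2 a3 d1 d2 (h2 _ _ _ _ _ l1.symm a1 a2 d1)
    (h2 _ _ _ _ _ hjk a2 a3 d2)]
  exact mid h1 h2 hik l1.symm l3 hij hjk (fun e => hu (add_eq_zero.1 e).1) hz hd

theorem indep (hn : 2 ≤ n) {j : Fin 5} (hij : i ≠ j) (hjk : j ≠ k) {u v u' v' : σ →₀ ℕ}
    (hu : u ≠ 0) (hv : v ≠ 0) (hu' : u' ≠ 0) (hv' : v' ≠ 0) (e : u + v = u' + v')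
    (hd : (u + v).degree = n + 1) : ⁅x i j u, x j k v⁆ = ⁅x i j u', x j k v'⁆ := by
  obtain ⟨a, w, rfl⟩ := split hu
  obtain ⟨a', w', rfl⟩ := split hu'
  have s0 : ∀ a : σ, (single a 1 : σ →₀ ℕ) ≠ 0 := fun a => single_ne_zero.2 one_ne_zero
  rw [← grow h1 h2 hik hij hjk (s0 a) hv hd.le, ← grow h1 h2 hik hij hjk (s0 a') hv' (e ▸ hd.le)]
  rw [add_assoc, add_assoc] at e
  rw [add_assoc] at hd
  generalize w + v = t at e hd
  generalize w' + v' = t' at e
  by_cases h : a = a'
  · subst h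
    rw [add_left_cancel e]
  · have h3 : t a' ≠ 0 := by
      have := DFunLike.congr_fun e a'
      simp [single_apply, h] at this
      omega
    obtain ⟨z, rfl⟩ := split_at h3
    have e' : t' = single a 1 + z := by
      rw [add_left_comm] at e
      exact (add_left_cancel e).symm
    have hz : z ≠ 0 := by
      rintro rfl
      simp at hd
      omega
    rw [e', grow h1 h2 hik hij hjk (s0 a) hz (by rw [add_assoc]; exact hd.le),
      grow h1 h2 hik hij hjk (s0 a') hz (by rw [add_assoc, add_left_comm]; exact hd.le), add_comm]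

end Step

/-- the recursive description of the elements of large degree -/
def Rec (x : Fin 5 → Fin 5 → (σ →₀ ℕ) → H) : Prop :=
  ∀ i k μ, i ≠ k → 3 ≤ degree μ → ∃ j u v, i ≠ j ∧ j ≠ k ∧ u ≠ 0 ∧ v ≠ 0 ∧ u + v = μ ∧
    x i k μ = ⁅x i j u, x j k v⁆

theorem split2 {μ : σ →₀ ℕ} (h : 2 ≤ μ.degree) : ∃ u v, u ≠ 0 ∧ v ≠ 0 ∧ μ = u + v := by
  obtain ⟨a, w, rfl⟩ := split (u := μ) (by rintro rfl; simp at h)
  refine ⟨_, w, single_ne_zero.2 one_ne_zero, ?_, rfl⟩
  rintro rfl
  simp at h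

theorem step (hr : Rec x) {n : ℕ} (hn : 2 ≤ n) (h1 : R1 x n n) (h2 : R2 x n) :
    R1 x (n + 1) (n + 1) ∧ R2 x (n + 1) := by
  have h3 : R3 x (n + 1) := by
    intro i j k u v hik hij hjk hu hv hd
    rcases eq_or_lt_of_le hd with hd' | hd'
    · obtain ⟨l, u', v', hil, hlk, hu', hv', e, e'⟩ := hr i k (u + v) hik (by omega)
      rw [e', mid h1 h2 hik hij hjk hil hlk hu hv hd]
      exact indep h1 h2 hik hn hil hlk hu hv hu' hv' e.symm hd'
    · exact h2 i j k u v hik ⟨hij, Or.inr hu⟩ ⟨hjk, Or.inr hv⟩ (by omega)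
  have up : ∀ b, R1 x n b → R1 x (n + 1) b := by
    intro b hb i j k l u v hjk hil hu hv du dv
    rcases eq_or_lt_of_le du with du' | du'
    · obtain ⟨u', u'', a1, a2, rfl⟩ := split2 (μ := u) (by omega)
      obtain ⟨p, p1, p2, p3, p4⟩ := fifth i j k l
      have := deg_pos a1
      have := deg_pos a2
      rw [← h3 i p j u' u'' hu.1 p1.symm p2 a1 a2 du]
      rw [map_add] at du
      exact comm_comm (hb i p k l _ _ p3 hil ⟨p1.symm, Or.inr a1⟩ hv (by omega) dv)
        (hb p j k l _ _ hjk p4 ⟨p2, Or.inr a2⟩ hv (by omega) dv)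
    · exact hb i j k l u v hjk hil hu hv (by omega) dv
  have sy : ∀ a b, R1 x a b → R1 x b a := fun a b h i j k l u v hjk hil hu hv du dv =>
    (h k l i j v u hil.symm hjk.symm hv hu dv du).symm
  have h4 : R1 x (n + 1) (n + 1) := up _ (sy _ _ (up _ h1))
  refine ⟨h4, fun i j k u v hik hu hv hd => ?_⟩
  rcases eq_or_lt_of_le hd with hd' | hd'
  swap
  · exact h2 i j k u v hik hu hv (by omega)
  obtain ⟨l, l1, l2, l3⟩ := fourth i j k
  by_cases u0 : u = 0
  · subst u0
    rw [zero_add] at hd hd' ⊢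
    obtain ⟨v', v'', a1, a2, rfl⟩ := split2 (μ := v) (by omega)
    have := deg_pos a2
    have e := map_add degree v' v''
    have d1 : (0 + v').degree ≤ n := by rw [zero_add]; omega
    rw [move h4 hik l1.symm hv.1 hu ⟨l2.symm, Or.inr a1⟩ ⟨l3, Or.inr a2⟩ (by omega) hd
      (h2 _ _ _ _ _ l1.symm hu ⟨l2.symm, Or.inr a1⟩ d1) (h3 _ _ _ _ _ hv.1 l2.symm l3 a1 a2 hd),
      zero_add]
    exact h3 _ _ _ _ _ hik l1.symm l3 a1 a2 hd
  by_cases v0 : v = 0
  · subst v0
    rw [add_zero] at hd hd' ⊢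
    obtain ⟨u', u'', a1, a2, rfl⟩ := split2 (μ := u) (by omega)
    have := deg_pos a1
    have e := map_add degree u' u''
    have d1 : (u'' + 0).degree ≤ n := by rw [add_zero]; omega
    rw [← move h4 hik hu.1 l3 ⟨l1.symm, Or.inr a1⟩ ⟨l2, Or.inr a2⟩ hv hd (by omega)
      (h3 _ _ _ _ _ hu.1 l1.symm l2 a1 a2 hd) (h2 _ _ _ _ _ l3 ⟨l2, Or.inr a2⟩ hv d1), add_zero]
    exact h3 _ _ _ _ _ hik l1.symm l3 a1 a2 hd
  exact h3 i j k u v hik hu.1 hv.1 u0 v0 hd

theorem all (hr : Rec x) (h1 : R1 x 2 2) (h2 : R2 x 2) (n : ℕ) :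
    R1 x (n + 2) (n + 2) ∧ R2 x (n + 2) := by
  induction n with
  | zero => exact ⟨h1, h2⟩
  | succ n ih => exact step hr (by omega) ih.1 ih.2

/-- extension of a family given in small degrees -/
theorem exists_rec (g : Fin 5 → Fin 5 → (σ →₀ ℕ) → H) :
    ∃ x : Fin 5 → Fin 5 → (σ →₀ ℕ) → H, Rec x ∧ ∀ i j μ, degree μ ≤ 2 → x i j μ = g i j μ := by
  classical
  choose md m1 m2 using third
  have hs : ∀ μ : σ →₀ ℕ, ∃ p : (σ →₀ ℕ) × (σ →₀ ℕ), μ ≠ 0 →
      p.1.degree = 1 ∧ μ = p.1 + p.2 := fun μ => by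
    by_cases h : μ = 0
    · exact ⟨0, fun h' => absurd h h'⟩
    · obtain ⟨a, w, e⟩ := split h
      exact ⟨(single a 1, w), fun _ => ⟨by simp, e⟩⟩
  choose sp hsp using hs
  let xx : ℕ → Fin 5 → Fin 5 → (σ →₀ ℕ) → H := fun n => Nat.rec g
    (fun n y i k μ => if n + 1 ≤ 2 then g i k μ else
      ⁅g i (md i k) (sp μ).1, y (md i k) k (sp μ).2⁆) n
  have h0 : ∀ n i j μ, n ≤ 2 → xx n i j μ = g i j μ := by
    intro n i j μ hn
    cases n with
    | zero => rfl
    | succ n => exact if_pos hn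
  refine ⟨fun i j μ => xx (degree μ) i j μ, fun i k μ hik hd => ?_, fun i j μ h => h0 _ i j μ h⟩
  obtain ⟨e1, e2⟩ := hsp μ (by rintro rfl; simp at hd)
  have e3 : degree μ = degree (sp μ).2 + 1 := by
    conv_lhs => rw [e2, map_add, e1, add_comm]
  refine ⟨md i k, (sp μ).1, (sp μ).2, (m1 i k).symm, m2 i k, ?_, ?_, e2.symm, ?_⟩
  · intro e; rw [e] at e1; simp at e1
  · intro e; rw [e] at e3; simp at e3; omega
  · dsimp only
    rw [h0 (degree (sp μ).1) i _ _ (by omega), e3]
    exact if_neg (by omega)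

open MvPolynomial

/-- additive extension from monomials to polynomials -/
theorem exists_ext (z : (σ →₀ ℕ) → H) (hz : ∀ u v, Commute (z u) (z v)) :
    ∃ Y : MvPolynomial σ ℤ → H, (∀ f g, Y (f + g) = Y f * Y g) ∧
      ∀ u, Y (monomial u 1) = z u := by
  have : IsMulCommutative (Subgroup.closure (Set.range z)) :=
    Subgroup.isMulCommutative_closure (by rintro _ ⟨u, rfl⟩ _ ⟨v, rfl⟩; exact hz u v)
  let : CommGroup (Subgroup.closure (Set.range z)) :=
    { (inferInstance : Group (Subgroup.closure (Set.range z))) with mul_comm := this.is_comm.comm }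
  let L := (basisMonomials σ ℤ).constr ℤ fun u =>
    Additive.ofMul (⟨z u, Subgroup.subset_closure ⟨u, rfl⟩⟩ : Subgroup.closure (Set.range z))
  refine ⟨fun f => (Additive.toMul (L f)).1, fun f g => by simp only [map_add]; rfl,
    fun u => ?_⟩
  have := (basisMonomials σ ℤ).constr_basis ℤ (fun u =>
    Additive.ofMul (⟨z u, Subgroup.subset_closure ⟨u, rfl⟩⟩ : Subgroup.closure (Set.range z))) u
  rw [coe_basisMonomials] at this
  simp only [L, this]
  rfl

/-- the ideal of the origin -/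
noncomputable abbrev I0 (σ : Type) : Ideal (MvPolynomial σ ℤ) :=
  RingHom.ker (constantCoeff : MvPolynomial σ ℤ →+* ℤ)

theorem leg_mon {i j : Fin 5} {u : σ →₀ ℕ} : Leg (I0 σ) i j (monomial u 1) ↔ Lg i j u := by
  classical
  unfold Leg Lg sig
  split_ifs with h <;> simp [h, RingHom.mem_ker, constantCoeff_monomial]

theorem leg_ind {i j : Fin 5} (hij : i ≠ j) {P : MvPolynomial σ ℤ → Prop}
    (h0 : P 0) (h1 : ∀ u, Lg i j u → P (monomial u 1))
    (ha : ∀ f g, Leg (I0 σ) i j f → Leg (I0 σ) i j g → P f → P g → P (f + g))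
    (hn : ∀ f, Leg (I0 σ) i j f → P f → P (-f)) (f : MvPolynomial σ ℤ)
    (hf : Leg (I0 σ) i j f) : P f := by
  let A : AddSubgroup (MvPolynomial σ ℤ) :=
    { carrier := {f | Leg (I0 σ) i j f ∧ P f}
      zero_mem' := ⟨Leg.zero hij, h0⟩
      add_mem' := fun a b => ⟨a.1.add b.1, ha _ _ a.1 b.1 a.2 b.2⟩
      neg_mem' := fun a => ⟨a.1.neg, hn _ a.1 a.2⟩ }
  have : f ∈ A := by
    rw [f.as_sum]
    refine A.sum_mem fun u hu => ?_
    have hl : Lg i j u := by
      refine ⟨hij, ?_⟩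
      by_cases h : i < j
      · exact Or.inl h
      · refine Or.inr ?_
        rintro rfl
        have := hf.2
        rw [sig, if_neg h, RingHom.mem_ker] at this
        exact MvPolynomial.mem_support_iff.1 hu this
    have := A.zsmul_mem (show monomial u 1 ∈ A from ⟨leg_mon.2 hl, h1 u hl⟩) (coeff u f)
    simpa [smul_monomial] using this
  exact this.2

theorem exists_fam (h1 : ∀ n, R1 x n n) (h2 : ∀ n, R2 x n) :
    ∃ y : Fin 5 → Fin 5 → MvPolynomial σ ℤ → H, StFam (I0 σ) y ∧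
      ∀ i j u, Lg i j u → y i j (monomial u 1) = x i j u := by
  classical
  have c1 : ∀ i j k l u v, j ≠ k → i ≠ l → Lg i j u → Lg k l v → Commute (x i j u) (x k l v) :=
    fun i j k l u v a b c d => h1 _ i j k l u v a b c d (le_max_left _ _) (le_max_right _ _)
  have hz : ∀ i j u v, Commute (if Lg i j u then x i j u else 1) (if Lg i j v then x i j v else 1) := by
    intro i j u v
    split_ifs with a b
    · exact c1 i j i j u v a.1.symm a.1 a b
    all_goals simp
  choose y ya ym using fun i j => exists_ext _ (hz i j)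
  have ym' : ∀ i j u, Lg i j u → y i j (monomial u 1) = x i j u := fun i j u h => by
    rw [ym, if_pos h]
  have y0 : ∀ i j, y i j 0 = 1 := fun i j => by
    have := ya i j 0 0
    rw [add_zero] at this
    exact left_eq_mul.mp this
  have yn : ∀ i j f, y i j (-f) = (y i j f)⁻¹ := fun i j f => by
    have := ya i j f (-f)
    rw [add_neg_cancel, y0] at this
    exact eq_inv_of_mul_eq_one_right this.symm
  have ext1 : ∀ i j c, i ≠ j → (∀ u, Lg i j u → Commute (x i j u) c) →
      ∀ f, Leg (I0 σ) i j f → Commute (y i j f) c := by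
    intro i j c hij hc
    refine leg_ind hij ?_ ?_ ?_ ?_
    · rw [y0]; exact Commute.one_left c
    · intro u hu; rw [ym' i j u hu]; exact hc u hu
    · intro f g _ _ a b; rw [ya]; exact a.mul_left b
    · intro f _ a; rw [yn]; exact a.inv_left
  have cm : ∀ i j k l a b, j ≠ k → i ≠ l → Leg (I0 σ) i j a → Leg (I0 σ) k l b →
      Commute (y i j a) (y k l b) := fun i j k l a b hjk hil ha hb =>
    ext1 i j _ ha.1 (fun u hu => (ext1 k l _ hb.1
      (fun v hv => (c1 i j k l u v hjk hil hu hv).symm) b hb).symm) a ha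
  refine ⟨y, ⟨fun i j a b _ _ => ya i j a b, fun i j k a b hik ha hb => ?_, cm⟩, ym'⟩
  have hij := ha.1
  have hjk := hb.1
  revert a
  refine leg_ind hij ?_ ?_ ?_ ?_
  · simp [y0]
  · intro u hu
    have lu := leg_mon.2 hu
    revert b
    refine leg_ind hjk ?_ ?_ ?_ ?_
    · simp [y0]
    · intro v hv
      rw [monomial_mul, mul_one, ym' _ _ _ hu, ym' _ _ _ hv, ym' _ _ _ (hu.add hv hik)]
      exact h2 _ i j k u v hik hu hv le_rfl
    · intro f g lf lg a b
      have := cm j k i k f _ hik.symm hjk lf (lu.mul hik lg)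
      rw [mul_add, ya, ya, ← a, ← this.mul_inv_cancel, ← b]
      simp only [commutatorElement_def]; group
    · intro f lf a
      have := (cm j k i k f _ hik.symm hjk lf (lu.mul hik lf)).inv_inv
      rw [mul_neg, yn, yn, ← this.mul_inv_cancel, ← a]
      simp only [commutatorElement_def]; group
  · intro f g lf lg a a'
    have := cm i j i k f _ hij.symm hik lf (lg.mul hik hb)
    rw [add_mul, add_comm (f * b), ya i k, ya, ← a, ← this.mul_inv_cancel, ← a']
    simp only [commutatorElement_def]; group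
  · intro f lf a
    have := (cm i j i k f _ hij.symm hik lf (lf.mul hik hb)).inv_inv
    rw [neg_mul, yn, yn, ← this.mul_inv_cancel, ← a]
    simp only [commutatorElement_def]; group

end FpA

open FpA MvPolynomial in
theorem fpA_thm : FpAStmt := by
  classical
  intro m
  let α := Fin 5 × Fin 5 × {u : Fin m →₀ ℕ // degree u ≤ 2}
  have : Finite {u : Fin m →₀ ℕ // degree u ≤ 2} := (finite_of_degree_le 2).to_subtype
  let X0 : α → St (I0 (Fin m)) := fun p => X _ p.1 p.2.1 (monomial p.2.2.1 1)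
  let sh : α × α × α → FreeGroup α := fun t =>
    ⁅FreeGroup.of t.1, FreeGroup.of t.2.1⁆ * (FreeGroup.of t.2.2)⁻¹
  let S : Set (FreeGroup α) := {r | r ∈ Set.range sh ∧ FreeGroup.lift X0 r = 1}
  have : Finite S := ((Set.finite_range sh).subset fun r h => h.1).to_subtype
  let ψ : PresentedGroup S →* St (I0 (Fin m)) := PresentedGroup.toGroup fun r h => h.2
  have hψ : ∀ a, ψ (PresentedGroup.of a) = X0 a := fun a => PresentedGroup.toGroup.of _
  have hrel : ∀ a b c : α, ⁅X0 a, X0 b⁆ = X0 c → ⁅(PresentedGroup.of a : PresentedGroup S),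
      (PresentedGroup.of b : PresentedGroup S)⁆ = PresentedGroup.of c := by
    intro a b c h
    have h1 : PresentedGroup.mk S (sh (a, b, c)) = 1 := PresentedGroup.one_of_mem
      ⟨⟨_, rfl⟩, by simp only [sh, map_mul, map_commutatorElement, map_inv,
        FreeGroup.lift_apply_of, h, mul_inv_cancel]⟩
    simp only [sh, map_mul, map_commutatorElement, map_inv, mul_inv_eq_one] at h1
    exact h1
  have hone : ∀ a : α, ¬ Lg a.1 a.2.1 a.2.2.1 → (PresentedGroup.of a : PresentedGroup S) = 1 := by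
    intro a ha
    have h : X0 a = 1 := X_of_not_leg _ (mt leg_mon.1 ha)
    rw [← hrel a a a (by simp [h]), commutatorElement_self]
  obtain ⟨x, hr, hx⟩ := exists_rec (H := PresentedGroup S) fun i j (u : Fin m →₀ ℕ) =>
    if h : degree u ≤ 2 then PresentedGroup.of ((i, j, ⟨u, h⟩) : α) else 1
  have hx' : ∀ i j u (h : degree u ≤ 2), x i j u = PresentedGroup.of ((i, j, ⟨u, h⟩) : α) :=
    fun i j u h => by rw [hx i j u h, dif_pos h]
  have b1 : R1 x 2 2 := by
    intro i j k l u v hjk hil hu hv du dv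
    rw [hx' _ _ _ du, hx' _ _ _ dv, ← commutatorElement_eq_one_iff_commute,
      hrel _ _ (0, 0, ⟨0, by simp⟩), hone _ fun h => h.1 rfl]
    rw [show X0 (0, 0, ⟨0, by simp⟩) = 1 from X_of_not_leg _ fun h => h.1 rfl,
      commutatorElement_eq_one_iff_commute]
    exact (stFam_X _).comm i j k l _ _ hjk hil (leg_mon.2 hu) (leg_mon.2 hv)
  have b2 : R2 x 2 := by
    intro i j k u v hik hu hv d
    have e := map_add degree u v
    rw [hx' _ _ u (by omega), hx' _ _ v (by omega), hx' _ _ _ d]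
    apply hrel
    have := (stFam_X _).heis i j k _ _ hik (leg_mon.2 hu) (leg_mon.2 hv)
    rwa [monomial_mul, mul_one] at this
  have a1 : ∀ n, R1 x n n := fun n i j k l u v a b c d e f =>
    (all hr b1 b2 n).1 i j k l u v a b c d (by omega) (by omega)
  have a2 : ∀ n, R2 x n := fun n i j k u v a b c d => (all hr b1 b2 n).2 i j k u v a b c (by omega)
  obtain ⟨y, hy, hy'⟩ := exists_fam a1 a2
  obtain ⟨φ, hφ⟩ := exists_lift hy
  have e1 : φ.comp ψ = MonoidHom.id _ := by
    apply PresentedGroup.ext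
    rintro ⟨i, j, u, hu⟩
    rw [MonoidHom.comp_apply, hψ, MonoidHom.id_apply]
    by_cases h : Lg i j u
    · exact (hφ i j _ (leg_mon.2 h)).trans ((hy' i j u h).trans (hx' i j u hu))
    · rw [hone _ h, show X0 (i, j, ⟨u, hu⟩) = 1 from X_of_not_leg _ (mt leg_mon.1 h), map_one]
  have mon : ∀ n i j (u : Fin m →₀ ℕ), degree u = n → i ≠ j →
      X (I0 (Fin m)) i j (monomial u 1) ∈ ψ.range := by
    intro n
    induction n using Nat.strong_induction_on with
    | _ n ih =>
      intro i j u hu hij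
      by_cases h : degree u ≤ 2
      · exact ⟨_, hψ (i, j, ⟨u, h⟩)⟩
      · obtain ⟨v, w, a, b, rfl⟩ := split2 (μ := u) (by omega)
        obtain ⟨l, l1, l2⟩ := third i j
        have := deg_pos a
        have := deg_pos b
        rw [map_add] at hu
        have h3 := (stFam_X _).heis i l j _ _ hij (leg_mon.2 ⟨l1.symm, Or.inr a⟩)
          (leg_mon.2 ⟨l2, Or.inr b⟩)
        rw [monomial_mul, mul_one] at h3
        have p := ih _ (by omega) i l v rfl l1.symm
        have q := ih _ (by omega) l j w rfl l2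
        rw [← h3, commutatorElement_def]
        exact mul_mem (mul_mem (mul_mem p q) (inv_mem p)) (inv_mem q)
  have hs : Function.Surjective ψ := by
    rw [← MonoidHom.range_eq_top, eq_top_iff, ← closure_gens_X, Subgroup.closure_le]
    rintro _ ⟨i, j, f, hf, rfl⟩
    have hij := hf.1
    revert f
    refine leg_ind hij ?_ ?_ ?_ ?_
    · rw [(stFam_X _).zero hij]; exact one_mem _
    · exact fun u _ => mon _ i j u rfl hij
    · intro f g lf lg a b
      rw [(stFam_X _).add i j f g lf lg]; exact mul_mem a b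
    · intro f lf a
      rw [(stFam_X _).neg lf]; exact inv_mem a
  have hi : Function.Injective ψ :=
    Function.LeftInverse.injective (g := φ) fun g => DFunLike.congr_fun e1 g
  exact Group.IsFinitelyPresented.equiv (MulEquiv.ofBijective ψ ⟨hi, hs⟩)

end Pool.Agent.MP_94b95a_al.Fl

end MrgPart0

-- ======== part 1: formerly Pool.Agent.MP_94b95a_al.fl.RigA
section MrgPart1

/-! PROJECT FLAW, part M: weights of matrices and of operators. -/

namespace Pool.Agent.MP_94b95a_al.Fl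

open Matrix Set

namespace Rigid

variable {N : ℕ} {D : Fin N → ℝ} {S T U : Set ℝ}

/-- Matrices all of whose weights lie in `S`. -/
def W (D : Fin N → ℝ) (S : Set ℝ) : Submodule ℂ (Mat N) where
  carrier := {X | ∀ a b, X a b ≠ 0 → D a - D b ∈ S}
  add_mem' := by
    intro X Y hX hY a b h
    by_cases h1 : X a b = 0
    · rw [Matrix.add_apply, h1, zero_add] at h
      exact hY a b h
    · exact hX a b h1
  zero_mem' := fun a b h => absurd rfl h
  smul_mem' := fun c X hX a b h => hX a b (right_ne_zero_of_mul h)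

/-- Operators all of whose weights lie in `S`. -/
def OW (D : Fin N → ℝ) (S : Set ℝ) : Submodule ℂ (Op N) where
  carrier := {φ | ∀ a b p q, φ (single a b 1) p q ≠ 0 → (D p - D q) - (D a - D b) ∈ S}
  add_mem' := by
    intro X Y hX hY a b p q h
    by_cases h1 : X (single a b 1) p q = 0
    · rw [LinearMap.add_apply, Matrix.add_apply, h1, zero_add] at h
      exact hY a b p q h
    · exact hX a b p q h1
  zero_mem' := fun a b p q h => absurd rfl h
  smul_mem' := fun c X hX a b p q h => hX a b p q (right_ne_zero_of_mul h)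

theorem mono {X : Mat N} (hX : X ∈ W D S) (h : S ⊆ T) : X ∈ W D T :=
  fun a b h0 => h (hX a b h0)

theorem omono {φ : Op N} (hX : φ ∈ OW D S) (h : S ⊆ T) : φ ∈ OW D T :=
  fun a b p q h0 => h (hX a b p q h0)

theorem mul {X Y : Mat N} (hX : X ∈ W D S) (hY : Y ∈ W D T) (h : ∀ s ∈ S, ∀ t ∈ T, s + t ∈ U) :
    X * Y ∈ W D U := by
  intro a b h0
  rw [Matrix.mul_apply] at h0
  obtain ⟨c, _, hc⟩ := Finset.exists_ne_zero_of_sum_ne_zero h0
  have := h _ (hX a c (left_ne_zero_of_mul hc)) _ (hY c b (right_ne_zero_of_mul hc))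
  rwa [sub_add_sub_cancel] at this

theorem brm {X Y : Mat N} (hX : X ∈ W D S) (hY : Y ∈ W D T) (h : ∀ s ∈ S, ∀ t ∈ T, s + t ∈ U) :
    X * Y - Y * X ∈ W D U :=
  sub_mem (mul hX hY h) (mul hY hX fun t ht s hs => add_comm s t ▸ h s hs t ht)

theorem app {φ : Op N} {X : Mat N} (hφ : φ ∈ OW D S) (hX : X ∈ W D T)
    (h : ∀ s ∈ S, ∀ t ∈ T, s + t ∈ U) : φ X ∈ W D U := by
  intro p q h0
  rw [StarM.app] at h0
  obtain ⟨a, _, ha⟩ := Finset.exists_ne_zero_of_sum_ne_zero h0
  obtain ⟨b, _, hb⟩ := Finset.exists_ne_zero_of_sum_ne_zero ha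
  have := h _ (hφ a b p q (right_ne_zero_of_mul hb)) _ (hX a b (left_ne_zero_of_mul hb))
  rwa [sub_add_cancel] at this

theorem single_mem (a b : Fin N) (x : ℂ) : single a b x ∈ W D {D a - D b} := by
  intro p q h
  by_cases h1 : a = p ∧ b = q
  · rw [h1.1, h1.2]; rfl
  · exact absurd (single_apply_of_ne _ _ _ _ _ h1) h

theorem omul {φ ψ : Op N} (hφ : φ ∈ OW D S) (hψ : ψ ∈ OW D T)
    (h : ∀ s ∈ S, ∀ t ∈ T, s + t ∈ U) : φ * ψ ∈ OW D U := by
  intro a b p q h0
  have h1 : ψ (single a b 1) ∈ W D {x | x - (D a - D b) ∈ T} := fun p q h => hψ a b p q h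
  have h2 : φ (ψ (single a b 1)) ∈ W D {x | x - (D a - D b) ∈ U} :=
    app hφ h1 fun s hs t ht => by
      have := h s hs _ ht
      rwa [mem_ofPred_eq, add_sub_assoc]
  exact h2 p q h0

theorem left_mem {X : Mat N} (hX : X ∈ W D S) : LinearMap.mulLeft ℂ X ∈ OW D S := by
  intro a b p q h0
  have h2 : X * single a b 1 ∈ W D {x | x - (D a - D b) ∈ S} :=
    mul hX (single_mem a b 1) fun s hs t ht => by
      rw [mem_singleton_iff.mp ht, mem_ofPred_eq, add_sub_cancel_right]; exact hs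
  exact h2 p q h0

theorem right_mem {X : Mat N} (hX : X ∈ W D S) : LinearMap.mulRight ℂ X ∈ OW D S := by
  intro a b p q h0
  have h2 : single a b 1 * X ∈ W D {x | x - (D a - D b) ∈ S} :=
    mul (single_mem a b 1) hX fun t ht s hs => by
      rw [mem_singleton_iff.mp ht, mem_ofPred_eq, add_sub_cancel_left]; exact hs
  exact h2 p q h0

theorem eq_zero_of {X : Mat N} {c : ℝ} (h1 : X ∈ W D {c}) (h2 : X ∈ W D (Ioi c)) : X = 0 := by
  ext a b
  by_contra h
  exact absurd (mem_singleton_iff.mp (h1 a b h)) (ne_of_gt (h2 a b h))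

theorem op_ext {φ : Op N} (h : ∀ a b p q, φ (single a b 1) p q = 0) : φ = 0 := by
  ext X p q
  rw [StarM.app]
  simp [h]

theorem oeq_zero_of {φ : Op N} {c : ℝ} (h1 : φ ∈ OW D {c}) (h2 : φ ∈ OW D (Ioi c)) : φ = 0 := by
  refine op_ext fun a b p q => ?_
  by_contra h
  exact absurd (mem_singleton_iff.mp (h1 a b p q h)) (ne_of_gt (h2 a b p q h))

theorem tr0 {X : Mat N} (hX : X ∈ W D S) (h : (0 : ℝ) ∉ S) : X.trace = 0 := by
  refine Finset.sum_eq_zero fun a _ => ?_
  by_contra h0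
  have := hX a a h0
  rw [sub_self] at this
  exact h this

theorem one_mem : (1 : Mat N) ∈ W D {0} := by
  intro a b h
  by_cases h1 : a = b
  · rw [h1, sub_self]; rfl
  · exact absurd (one_apply_ne h1) h

theorem mem_FF {X : Mat N} : X ∈ StarM.FF D ↔ X ∈ W D (Ici 0) :=
  ⟨fun h a b h0 => sub_nonneg.mpr (h a b h0), fun h a b h0 => sub_nonneg.mp (h a b h0)⟩

theorem up {X s : Mat N} (hU : IsUpperSet U) (hs : s ∈ W D (Ioi 0)) (h : X + X * s ∈ W D U) :
    X ∈ W D U := by
  classical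
  intro a b h0
  obtain ⟨m, hm, hmin⟩ := Finset.exists_min_image
    (Finset.univ.filter fun x : Fin N × Fin N => X x.1 x.2 ≠ 0) (fun x => D x.1 - D x.2)
    ⟨(a, b), by simpa using h0⟩
  have hm0 : X m.1 m.2 ≠ 0 := by simpa using hm
  have h1 : X ∈ W D (Ici (D m.1 - D m.2)) := fun p q h => hmin (p, q) (by simpa using h)
  have h2 : X * s ∈ W D (Ioi (D m.1 - D m.2)) := mul h1 hs (by grind)
  have h3 : (X * s) m.1 m.2 = 0 := by
    by_contra h3
    exact lt_irrefl _ (mem_Ioi.mp (h2 _ _ h3))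
  exact hU (h1 a b h0) (h m.1 m.2 (by rw [Matrix.add_apply, h3, add_zero]; exact hm0))

theorem nilp {X : Mat N} {k : ℝ} (hk : 0 < k) (hX : X ∈ W D {k}) : IsNilpotent X := by
  have h1 : ∀ n : ℕ, X ^ n ∈ W D {n * k} := by
    intro n
    induction n with
    | zero => simpa using one_mem
    | succ n ih =>
      rw [pow_succ]
      exact mul ih hX (by push_cast; grind)
  obtain ⟨M, hM⟩ := Finite.exists_le fun x : Fin N × Fin N => D x.1 - D x.2
  obtain ⟨n, hn⟩ := exists_nat_gt (M / k)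
  refine ⟨n, ?_⟩
  ext a b
  by_contra h
  have h2 := mem_singleton_iff.mp (h1 n a b h)
  have h3 := hM (a, b)
  rw [div_lt_iff₀ hk] at hn
  linarith

theorem split {y : Op N} {k : ℝ} (hy : y ∈ OW D (Ici k)) :
    ∃ φ ρ : Op N, φ ∈ OW D {k} ∧ ρ ∈ OW D (Ioi k) ∧ y = φ + ρ := by
  classical
  let φ : Op N := (Matrix.stdBasis ℂ (Fin N) (Fin N)).constr ℂ fun x =>
    of fun p q => if (D p - D q) - (D x.1 - D x.2) = k then y (single x.1 x.2 1) p q else 0
  have hφ : ∀ a b p q, φ (single a b 1) p q =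
      if (D p - D q) - (D a - D b) = k then y (single a b 1) p q else 0 := by
    intro a b p q
    rw [← Matrix.stdBasis_eq_single ℂ, Module.Basis.constr_basis, Matrix.stdBasis_eq_single]
    rfl
  refine ⟨φ, y - φ, fun a b p q h => ?_, fun a b p q h => ?_, by abel⟩
  · rw [hφ] at h
    by_contra h1
    exact h (if_neg h1)
  · rw [LinearMap.sub_apply, Matrix.sub_apply, hφ] at h
    by_cases h1 : (D p - D q) - (D a - D b) = k
    · rw [if_pos h1, sub_self] at h
      exact absurd rfl h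
    · rw [if_neg h1, sub_zero] at h
      exact lt_of_le_of_ne (hy a b p q h) (Ne.symm h1)

/-- Reduction of a bilinear identity to pure arguments. -/
theorem bil {V : Type} [AddCommGroup V] (f : Mat N → Mat N → V)
    (h1 : ∀ X X' Y, f (X + X') Y = f X Y + f X' Y) (h2 : ∀ X Y Y', f X (Y + Y') = f X Y + f X Y')
    (h : ∀ c d X Y, X ∈ W D {c} → Y ∈ W D {d} → f X Y = 0) (X Y : Mat N) : f X Y = 0 := by
  induction X using Matrix.induction_on' with
  | h_zero =>
    have := h1 0 0 Y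
    rwa [add_zero, left_eq_add] at this
  | h_add X X' a b => rw [h1, a, b, add_zero]
  | h_std_basis a b x =>
    induction Y using Matrix.induction_on' with
    | h_zero => exact h _ 0 _ _ (single_mem a b x) (zero_mem _)
    | h_add Y Y' a b => rw [h2, a, b, add_zero]
    | h_std_basis c d y => exact h _ _ _ _ (single_mem a b x) (single_mem c d y)

end Rigid

end Pool.Agent.MP_94b95a_al.Fl

end MrgPart1

-- ======== part 2: formerly Pool.Agent.MP_94b95a_al.fl.RigB
section MrgPart2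

/-! PROJECT FLAW, part M: linearised identities and vanishing of the leading term. -/

namespace Pool.Agent.MP_94b95a_al.Fl

open Matrix Set

namespace Rigid

open Hodge (br br_apply factB factB')

variable {N : ℕ} {D : Fin N → ℝ} {z w φ ρ : Op N} {k : ℝ}

theorem lin1 (hz : GP z) (hw : GP w) (hk : 0 < k) (h0 : w ∈ OW D {0}) (hφ : φ ∈ OW D {k})
    (hρ : ρ ∈ OW D (Ioi k)) (e : z = w + φ + ρ) : φ * w + w * φ = φ := by
  have hzz : z * z = z := LinearMap.ext hz.idem
  have hww : w * w = w := LinearMap.ext hw.idem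
  rw [e] at hzz
  have e1 : φ * w + w * φ - φ = ρ - (w * ρ + ρ * w + φ * φ + φ * ρ + ρ * φ + ρ * ρ) := by
    linear_combination (norm := noncomm_ring) hzz - hww
  refine sub_eq_zero.mp (oeq_zero_of (D := D) (c := k) ?_ ?_)
  · exact sub_mem (add_mem (omul hφ h0 (by grind)) (omul h0 hφ (by grind))) hφ
  · rw [e1]
    exact sub_mem hρ (add_mem (add_mem (add_mem (add_mem (add_mem (omul h0 hρ (by grind))
      (omul hρ h0 (by grind))) (omul hφ hφ (by grind))) (omul hφ hρ (by grind)))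
      (omul hρ hφ (by grind))) (omul hρ hρ (by grind)))

theorem lin2 (hz : GP z) (hw : GP w) (hφ : φ ∈ OW D {k})
    (hρ : ρ ∈ OW D (Ioi k)) (e : z = w + φ + ρ) (X Y : Mat N) :
    (φ X * Y).trace = (X * φ Y).trace := by
  refine sub_eq_zero.mp (bil (D := D) (fun X Y => (φ X * Y).trace - (X * φ Y).trace)
    (fun X X' Y => ?_) (fun X Y Y' => ?_) (fun c d X Y hX hY => ?_) X Y)
  · simp only [map_add, add_mul, trace_add]; ring
  · simp only [map_add, mul_add, trace_add]; ring
  · by_cases h : k + c + d = 0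
    · have h1 := hz.symm X Y
      have h2 : (ρ X * Y).trace = 0 :=
        tr0 (mul (U := Ioi 0) (app (U := Ioi (k + c)) hρ hX (by grind)) hY (by grind)) (by grind)
      have h3 : (X * ρ Y).trace = 0 :=
        tr0 (mul (U := Ioi 0) hX (app (U := Ioi (k + d)) hρ hY (by grind)) (by grind)) (by grind)
      rw [e] at h1
      simp only [LinearMap.add_apply, add_mul, mul_add, trace_add] at h1
      linear_combination h1 - hw.symm X Y - h2 + h3
    · have h2 : (φ X * Y).trace = 0 :=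
        tr0 (mul (U := {k + c + d}) (app (U := {k + c}) hφ hX (by grind)) hY (by grind)) (by grind)
      have h3 : (X * φ Y).trace = 0 :=
        tr0 (mul (U := {k + c + d}) hX (app (U := {k + d}) hφ hY (by grind)) (by grind)) (by grind)
      rw [h2, h3, sub_zero]

theorem lin3 (hz : GP z) (hw : GP w) (hk : 0 < k) (h0 : w ∈ OW D {0}) (hφ : φ ∈ OW D {k})
    (hρ : ρ ∈ OW D (Ioi k)) (e : z = w + φ + ρ) (X Y : Mat N) :
    φ (br (w X) (w Y)) + w (br (φ X) (w Y) + br (w X) (φ Y)) =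
      br (φ X) (w Y) + br (w X) (φ Y) := by
  refine sub_eq_zero.mp (bil (D := D) (fun X Y => φ (br (w X) (w Y)) +
    w (br (φ X) (w Y) + br (w X) (φ Y)) - (br (φ X) (w Y) + br (w X) (φ Y)))
    (fun X X' Y => ?_) (fun X Y Y' => ?_) (fun c d X Y hX hY => ?_) X Y)
  · simp only [map_add, LinearMap.add_apply]; abel
  · simp only [map_add]; abel
  · have x0 : w X ∈ W D {c} := app h0 hX (by grind)
    have x1 : φ X ∈ W D {k + c} := app hφ hX (by grind)
    have x2 : ρ X ∈ W D (Ioi (k + c)) := app hρ hX (by grind)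
    have y0 : w Y ∈ W D {d} := app h0 hY (by grind)
    have y1 : φ Y ∈ W D {k + d} := app hφ hY (by grind)
    have y2 : ρ Y ∈ W D (Ioi (k + d)) := app hρ hY (by grind)
    have b0 : br (w X) (w Y) ∈ W D {c + d} := brm x0 y0 (by grind)
    have b1 : br (φ X) (w Y) + br (w X) (φ Y) ∈ W D {k + c + d} :=
      add_mem (brm x1 y0 (by grind)) (brm x0 y1 (by grind))
    have b2 : br (w X) (ρ Y) + br (φ X) (φ Y) + br (φ X) (ρ Y) + br (ρ X) (w Y) +
        br (ρ X) (φ Y) + br (ρ X) (ρ Y) ∈ W D (Ioi (k + c + d)) :=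
      add_mem (add_mem (add_mem (add_mem (add_mem (brm x0 y2 (by grind)) (brm x1 y1 (by grind)))
        (brm x1 y2 (by grind))) (brm x2 y0 (by grind))) (brm x2 y1 (by grind)))
        (brm x2 y2 (by grind))
    have h1 : z (br (z X) (z Y)) = br (z X) (z Y) := hz.lie X Y
    have h2 : w (br (w X) (w Y)) = br (w X) (w Y) := hw.lie X Y
    have h3 : br (z X) (z Y) = br (w X) (w Y) + (br (φ X) (w Y) + br (w X) (φ Y)) +
        (br (w X) (ρ Y) + br (φ X) (φ Y) + br (φ X) (ρ Y) + br (ρ X) (w Y) +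
        br (ρ X) (φ Y) + br (ρ X) (ρ Y)) := by
      rw [e]
      simp only [map_add, LinearMap.add_apply]
      abel
    rw [h3] at h1
    generalize br (w X) (w Y) = B0 at h1 h2 b0 ⊢
    generalize br (φ X) (w Y) + br (w X) (φ Y) = B1 at h1 b1 ⊢
    generalize br (w X) (ρ Y) + br (φ X) (φ Y) + br (φ X) (ρ Y) + br (ρ X) (w Y) +
        br (ρ X) (φ Y) + br (ρ X) (ρ Y) = B2 at h1 b2
    rw [e] at h1
    simp only [map_add, LinearMap.add_apply] at h1
    have e1 : φ B0 + w B1 - B1 = B2 - (ρ B0 + φ B1 + ρ B1 + w B2 + φ B2 + ρ B2) := by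
      linear_combination (norm := abel) h1 - h2
    refine eq_zero_of (D := D) (c := k + c + d) ?_ ?_
    · exact sub_mem (add_mem (app hφ b0 (by grind)) (app h0 b1 (by grind))) b1
    · rw [e1]
      exact sub_mem b2 (add_mem (add_mem (add_mem (add_mem (add_mem (app hρ b0 (by grind))
        (app hφ b1 (by grind))) (app hρ b1 (by grind))) (app h0 b2 (by grind)))
        (app hφ b2 (by grind))) (app hρ b2 (by grind)))

open Polynomial in
theorem aeval_mem {Z : Mat N} (hZ : Z ∈ W D (Ici 0)) (p : ℂ[X]) : aeval Z p ∈ W D (Ici 0) := by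
  have := (aeval (⟨Z, mem_FF.mpr hZ⟩ : StarM.FF D) p).2
  rw [aeval_subalgebra_coe] at this
  exact mem_FF.mp this

open Polynomial in
theorem taylor {Z n r : Mat N} (hk : 0 < k) (hZ : Z ∈ W D (Ici 0)) (hn : n ∈ W D (Ioi 0))
    (hr : r ∈ W D (Ioi k)) (hc : Commute Z n) (p : ℂ[X]) :
    ∃ q r', q ∈ W D (Ioi 0) ∧ r' ∈ W D (Ioi k) ∧
      aeval (Z + n + r) p = aeval Z p + n * (aeval Z (derivative p) + q) + r' := by
  induction p using Polynomial.induction_on with
  | C a => exact ⟨0, 0, zero_mem _, zero_mem _, by simp⟩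
  | add p p' h h' =>
    obtain ⟨q, r', h1, h2, e⟩ := h
    obtain ⟨q', r'', h1', h2', e'⟩ := h'
    refine ⟨q + q', r' + r'', add_mem h1 h1', add_mem h2 h2', ?_⟩
    simp only [map_add, e, e']
    noncomm_ring
  | monomial m a h =>
    obtain ⟨q, r', h1, h2, e⟩ := h
    rw [pow_succ, ← mul_assoc]
    generalize C a * Polynomial.X ^ m = p at e ⊢
    have hp := aeval_mem hZ p
    have hp' := aeval_mem hZ (derivative p)
    have hq : aeval Z (derivative p) + q ∈ W D (Ici 0) := add_mem hp' (mono h1 (by grind))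
    have hA : Z + n + r ∈ W D (Ici 0) :=
      add_mem (add_mem hZ (mono hn (by grind))) (mono hr (by grind))
    have hcm : aeval Z p * n = n * aeval Z p := by
      have : aeval Z p ∈ Subalgebra.centralizer ℂ {n} := by
        have h3 : Z ∈ Subalgebra.centralizer ℂ ({n} : Set (Mat N)) := by
          rw [Subalgebra.mem_centralizer_iff]
          rintro _ rfl
          exact hc.symm.eq
        have := (aeval (⟨Z, h3⟩ : Subalgebra.centralizer ℂ ({n} : Set (Mat N))) p).2
        rwa [aeval_subalgebra_coe] at this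
      exact ((Subalgebra.mem_centralizer_iff ℂ).mp this n rfl).symm
    refine ⟨q * Z + (aeval Z (derivative p) + q) * n,
      aeval Z p * r + n * (aeval Z (derivative p) + q) * r + r' * (Z + n + r), ?_, ?_, ?_⟩
    · exact add_mem (mul h1 hZ (by grind)) (mul hq hn (by grind))
    · exact add_mem (add_mem (mul hp hr (by grind))
        (mul (mul (U := Ici 0) hn hq (by grind)) hr (by grind))) (mul h2 hA (by grind))
    · rw [map_mul, e, derivative_mul, derivative_X, mul_one, map_add, map_mul, map_mul, aeval_X,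
        aeval_X]
      linear_combination (norm := noncomm_ring) hcm

open Polynomial in
theorem sep {Z n r : Mat N} (hk : 0 < k) (hZ : Z ∈ W D (Ici 0)) (hn : n ∈ W D (Ioi 0))
    (hr : r ∈ W D (Ioi k)) (hc : Commute Z n) {m : ℂ[X]} (hm : m.Separable)
    (h1 : aeval (Z + n + r) m = 0) (h2 : aeval Z m = 0) : n ∈ W D (Ioi k) := by
  obtain ⟨q, r', hq, hr', e⟩ := taylor hk hZ hn hr hc m
  obtain ⟨a, b, hab⟩ := hm
  have h3 : aeval Z (derivative m) * aeval Z b = 1 := by
    have := congrArg (aeval Z) hab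
    rwa [map_add, map_mul, h2, mul_zero, zero_add, mul_comm, map_mul, map_one] at this
  have hb := aeval_mem hZ b
  rw [h1, h2, zero_add] at e
  have e1 : n + n * (q * aeval Z b) = -(r' * aeval Z b) := by
    have e2 : n * (aeval Z (derivative m) + q) = -r' := eq_neg_of_add_eq_zero_left e.symm
    rw [← neg_mul, ← e2, mul_assoc, add_mul, h3, mul_add, mul_one]
  refine up (isUpperSet_Ioi k) (s := q * aeval Z b) (mul hq hb (by grind)) ?_
  rw [e1]
  exact neg_mem (mul hr' hb (by grind))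

end Rigid

end Pool.Agent.MP_94b95a_al.Fl

end MrgPart2

-- ======== part 3: formerly Pool.Agent.MP_94b95a_al.fl.Rigid
section MrgPart3

/-! PROJECT FLAW, part M: a degeneration to a self adjoint projector is a conjugation. -/

namespace Pool.Agent.MP_94b95a_al.Fl

open Matrix Set

namespace Rigid

open Hodge (br br_apply factB factB')
open StarM (pr pr_apply FF)

variable {N : ℕ} {D : Fin N → ℝ} {z w φ ρ : Op N} {k : ℝ}

theorem pr_zero {X : Mat N} (h : X ∈ W D {0}) : pr D X = X := by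
  ext a b
  rw [pr_apply]
  by_cases h1 : X a b = 0
  · simp [h1]
  · rw [if_pos (sub_eq_zero.mp (h a b h1))]

theorem pr_gt {X : Mat N} (h : X ∈ W D (Ioi 0)) : pr D X = 0 := by
  ext a b
  rw [pr_apply]
  by_cases h1 : X a b = 0
  · simp [h1]
  · rw [if_neg (sub_pos.mp (h a b h1)).ne']; rfl

theorem sub_pr {X : Mat N} (h : X ∈ W D (Ici 0)) : X - pr D X ∈ W D (Ioi 0) := by
  intro a b h0
  rw [Matrix.sub_apply, pr_apply] at h0
  by_cases h1 : D a = D b
  · rw [if_pos h1, sub_self] at h0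
    exact absurd rfl h0
  · rw [if_neg h1, sub_zero] at h0
    exact lt_of_le_of_ne (h a b h0) (sub_ne_zero.mpr h1).symm

theorem pr_aeval {A : Mat N} (hA : A ∈ FF D) {p : Polynomial ℂ} (h : Polynomial.aeval A p = 0) :
    Polynomial.aeval (pr D A) p = 0 := by
  have h1 : Polynomial.aeval (⟨A, hA⟩ : FF D) p = 0 := by
    apply Subtype.ext
    rw [Polynomial.aeval_subalgebra_coe]
    exact h
  have h2 := Polynomial.aeval_algHom_apply (StarM.prA D) (⟨A, hA⟩ : FF D) p
  rw [h1, map_zero] at h2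
  exact h2

theorem wφw (hw : GP w) (h : φ * w + w * φ = φ) (X : Mat N) : w (φ (w X)) = 0 := by
  have h1 := LinearMap.congr_fun h (w X)
  simp only [LinearMap.add_apply, Module.End.mul_apply, hw.idem] at h1
  exact add_eq_left.mp h1

theorem central (hA : AjStmt) (hz : GP z) (hj : JC z) (hw : GP w) (hk : 0 < k)
    (h0 : w ∈ OW D {0}) (hφ : φ ∈ OW D {k}) (hρ : ρ ∈ OW D (Ioi k)) (e : z = w + φ + ρ)
    (hc : ∀ X Y, Commute (w Y) (φ (w X))) {Z : Mat N} (hZh : Zᴴ = Z) (hZ : w Z = Z)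
    (hZc : ∀ Y, Commute (w Y) Z) : φ Z = 0 := by
  have hZ0 : Z ∈ W D {0} := by
    have h1 := StarM.inN_diag (D := D) h0 Z
    have h2 := factB' hw Z (diagonal fun a => (D a : ℂ))
    rw [hZ] at h1 h2
    rw [br_apply, h1, br_apply, (hZc _).eq, sub_self] at h2
    exact (Hodge.pure_iff D 0 Z).mpr (by rw [br_apply, h2]; simp)
  have hφZ : φ Z ∈ W D {k} := app hφ hZ0 (by grind)
  have hρZ : ρ Z ∈ W D (Ioi k) := app hρ hZ0 (by grind)
  have e1 : z Z = Z + φ Z + ρ Z := by rw [e, LinearMap.add_apply, LinearMap.add_apply, hZ]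
  have hzF : z Z ∈ FF D := by
    rw [e1, mem_FF]
    exact add_mem (add_mem (mono hZ0 (by grind)) (mono hφZ (by grind))) (mono hρZ (by grind))
  have hzp : pr D (z Z) = Z := by
    rw [e1, map_add, map_add, pr_zero hZ0, pr_gt (mono hφZ (by grind)),
      pr_gt (mono hρZ (by grind)), add_zero, add_zero]
  obtain ⟨A, B, ν, hAJ, hA1, hB1, hν1⟩ := hA.ex N (z Z)
  have hle : Algebra.adjoin ℂ {z Z} ≤ FF D := Algebra.adjoin_le (by simpa using hzF)
  have hAF := hle hA1
  have hBF := hle hB1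
  have hνF := hle hν1
  have hAJ' : AJ Z (pr D A) (pr D B) (pr D ν) :=
    { eq := by rw [← hzp, hAJ.eq, map_add, map_add, map_smul]
      rdA := StarM.pr_rd D hAF hAJ.rdA
      rdB := StarM.pr_rd D hBF hAJ.rdB
      nil := StarM.pr_nil D hνF hAJ.nil
      AB := StarM.pr_comm D hAF hBF hAJ.AB
      Aν := StarM.pr_comm D hAF hνF hAJ.Aν
      Bν := StarM.pr_comm D hBF hνF hAJ.Bν }
  have hAJ'' : AJ Z Z 0 0 :=
    { eq := by simp
      rdA := hA.herm N Z hZh
      rdB := hA.herm N 0 isHermitian_zero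
      nil := IsNilpotent.zero
      AB := Commute.zero_right _
      Aν := Commute.zero_right _
      Bν := Commute.zero_right _ }
  have hpA : pr D A = Z := (hA.un N Z _ _ _ _ _ _ hAJ' hAJ'').1
  have hzA : z A = A := (hj (z Z) A B ν (hz.idem Z) hAJ).1
  have hs : A - Z ∈ W D (Ioi 0) := hpA ▸ sub_pr (mem_FF.mp hAF)
  obtain ⟨s, hm⟩ := hAJ.rdA
  have hm' := pr_aeval hAF hm
  rw [hpA] at hm'
  have e2 : A = Z + (w (A - Z) + φ Z) + (φ (A - Z) + ρ A) := by
    rw [e, LinearMap.add_apply, LinearMap.add_apply] at hzA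
    rw [map_sub, map_sub, hZ]
    linear_combination (norm := abel) -hzA
  have hn : w (A - Z) + φ Z ∈ W D (Ioi k) := by
    refine sep hk (mono hZ0 (by grind)) (add_mem (app h0 hs (by grind)) (mono hφZ (by grind)))
      (add_mem (app hφ hs (by grind)) (app hρ (mem_FF.mp hAF) (by grind))) ?_
      (Polynomial.separable_prod_X_sub_C_iff'.mpr fun x _ y _ h => Complex.ofReal_injective h)
      (e2 ▸ hm) hm'
    have h1 := hc Z Z
    rw [hZ] at h1
    exact (hZc _).symm.add_right h1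
  have h3 := wφw hw (lin1 hz hw hk h0 hφ hρ e) Z
  rw [hZ] at h3
  have e3 : φ Z = (w (A - Z) + φ Z) - w (w (A - Z) + φ Z) := by
    rw [map_add, hw.idem, h3]; abel
  exact eq_zero_of hφZ (e3 ▸ sub_mem hn (app h0 hn (by grind)))

theorem key (hA : AjStmt) (hz : GP z) (hj : JC z) (hw : GP w) (hs : ∀ X, w Xᴴ = (w X)ᴴ)
    (hk : 0 < k) (h0 : w ∈ OW D {0}) (hφ : φ ∈ OW D {k}) (hρ : ρ ∈ OW D (Ioi k))
    (e : z = w + φ + ρ) (hc : ∀ X Y, Commute (w Y) (φ (w X))) : φ = 0 := by
  have l1 := lin1 hz hw hk h0 hφ hρ e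
  have l2 := lin2 hz hw hφ hρ e
  have l3 : ∀ X Y, φ (br (w X) (w Y)) = 0 := by
    intro X Y
    have h1 := lin3 hz hw hk h0 hφ hρ e (w X) (w Y)
    have h2 : br (φ (w X)) (w Y) = 0 := sub_eq_zero.mpr (hc X Y).symm.eq
    have h3 : br (w X) (φ (w Y)) = 0 := sub_eq_zero.mpr (hc Y X).eq
    rwa [hw.idem, hw.idem, h2, h3, add_zero, map_zero, add_zero] at h1
  have h1 : ∀ T, w (φ T) = 0 := by
    intro T
    have hu : w (w (φ T)) = w (φ T) := hw.idem _
    have hf : ∀ X, (φ (w X) * T).trace = (X * w (φ T)).trace := fun X => by rw [l2, hw.symm]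
    generalize w (φ T) = u at hu hf
    have hcu : ∀ Y, Commute (w Y) u := by
      intro Y
      refine sub_eq_zero.mp (Hodge.eq_zero_of_tr fun X => ?_)
      have h2 := hf (br (w X) (w Y))
      have h3 : w (br (w X) (w Y)) = br (w X) (w Y) := hw.lie X Y
      have h4 := factB hw Y u
      rw [hu] at h4
      rw [h3, l3, zero_mul, trace_zero, br_apply, StarM.tr_br, hw.symm, ← br_apply, h4] at h2
      rw [trace_mul_comm]
      exact h2.symm
    have hcu' : ∀ Y, Commute (w Y) uᴴ := by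
      intro Y
      have h2 := congrArg conjTranspose (hcu Yᴴ).eq
      rw [conjTranspose_mul, conjTranspose_mul, hs, conjTranspose_conjTranspose] at h2
      exact h2.symm
    have hu' : w uᴴ = uᴴ := by rw [hs, hu]
    have z1 : φ (u + uᴴ) = 0 :=
      central hA hz hj hw hk h0 hφ hρ e hc
        (by rw [conjTranspose_add, conjTranspose_conjTranspose, add_comm])
        (by rw [map_add, hu, hu']) fun Y => (hcu Y).add_right (hcu' Y)
    have z2 : φ (Complex.I • (u - uᴴ)) = 0 :=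
      central hA hz hj hw hk h0 hφ hρ e hc
        (by
          rw [conjTranspose_smul, conjTranspose_sub, conjTranspose_conjTranspose]
          have : star Complex.I = -Complex.I := by simp
          rw [this, neg_smul, ← smul_neg, neg_sub])
        (by rw [map_smul, map_sub, hu, hu']) fun Y => ((hcu Y).sub_right (hcu' Y)).smul_right _
    rw [map_smul, smul_eq_zero, map_sub] at z2
    rw [map_add] at z1
    have z3 := z2.resolve_left Complex.I_ne_zero
    have z4 : φ uᴴ = 0 := by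
      have : (2 : ℂ) • φ uᴴ = 0 := by linear_combination (norm := module) z1 - z3
      exact (smul_eq_zero.mp this).resolve_left two_ne_zero
    have h2 := hf uᴴ
    rw [hu', z4, zero_mul, trace_zero, trace_mul_comm] at h2
    exact StarM.tr_zero h2.symm
  have h2 : ∀ X, φ (w X) = 0 := fun X => Hodge.eq_zero_of_tr fun T => by
    rw [l2, hw.symm, h1, mul_zero, trace_zero]
  rw [← l1]
  refine LinearMap.ext fun X => ?_
  rw [LinearMap.add_apply, Module.End.mul_apply, Module.End.mul_apply, h1, h2, add_zero]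
  rfl

theorem ad_apply (h : GLN N) (X : Mat N) : Ad h X = (h : Mat N) * X * ((h⁻¹ : GLN N) : Mat N) :=
  rfl

theorem act_mul (g h : GLN N) (z : Op N) : act g (act h z) = act (g * h) z := by
  refine LinearMap.ext fun X => ?_
  simp only [act, LinearMap.comp_apply, ad_apply, _root_.mul_inv_rev, inv_inv, Units.val_mul,
    mul_assoc]

theorem act_one (z : Op N) : act 1 z = z := by
  refine LinearMap.ext fun X => ?_
  simp [act, ad_apply]

theorem expand {R : Type} [Ring R] (w φ ρ α R1 R2 : R) :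
    (1 + α + R1) * ((w + φ + ρ) * (1 - α + R2)) = w + (φ + α * w - w * α) + (ρ + R1 * w + w * R2 +
      (α + R1) * (φ + ρ) + (φ + ρ) * (R2 - α) + (α + R1) * w * (R2 - α) +
      (α + R1) * (φ + ρ) * (R2 - α)) := by
  noncomm_ring

theorem step (hA : AjStmt) (hH : HodgeStmt) (hz : GP z) (hj : JC z) (hw : GP w)
    (hs : ∀ X, w Xᴴ = (w X)ᴴ) (hk : 0 < k) (h0 : w ∈ OW D {0}) (hy : z - w ∈ OW D (Ici k)) :
    ∃ h : GLN N, act h z - w ∈ OW D (Ioi k) := by
  obtain ⟨φ, ρ, hφ, hρ, e0⟩ := split hy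
  have e : z = w + φ + ρ := by linear_combination (norm := abel) e0
  have l1 := wφw hw (lin1 hz hw hk h0 hφ hρ e)
  obtain ⟨ω, hω, hwω, hc⟩ := hH N D k w (φ * w) hw hs h0 (omul (U := {k}) hφ h0 (by grind)) l1
    (fun X => by simp only [Module.End.mul_apply, hw.idem]) (fun X Y => by
      have h1 := lin3 hz hw hk h0 hφ hρ e (w X) (w Y)
      have h2 : w (br (w X) (w Y)) = br (w X) (w Y) := hw.lie X Y
      rw [hw.idem, hw.idem, map_add, factB hw, factB' hw, l1, l1, map_zero, map_zero,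
        LinearMap.zero_apply, add_zero, add_zero] at h1
      simp only [Module.End.mul_apply, ← br_apply, h2, h1])
  have hω' : ω ∈ W D {k} := hω
  obtain ⟨h, hh⟩ := (nilp hk hω').isUnit_one_add
  have i1 : (h⁻¹ : GLN N) * (1 + ω) = (1 : Mat N) := by rw [← hh, Units.inv_mul]
  have hi : ((h⁻¹ : GLN N) : Mat N) ∈ W D (Ici 0) := by
    refine up (isUpperSet_Ici 0) (s := ω) (mono hω' (by grind)) ?_
    rw [← mul_one_add, i1]
    exact mono one_mem (by grind)
  obtain ⟨r, hr, hh'⟩ : ∃ r ∈ W D (Ioi k), ((h⁻¹ : GLN N) : Mat N) = 1 - ω + r := by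
    refine ⟨(h⁻¹ : GLN N) * (ω * ω), mul hi (mul (U := Ioi k) hω' hω' (by grind)) (by grind), ?_⟩
    linear_combination (norm := noncomm_ring) i1 - congrArg (· * ω) i1
  have hL := left_mem hω'
  have hR := right_mem hω'
  have hLr := left_mem hr
  have hRr := right_mem hr
  obtain ⟨R1, hR1, a1⟩ : ∃ R1 ∈ OW D (Ioi k),
      Ad h = 1 + (LinearMap.mulLeft ℂ ω - LinearMap.mulRight ℂ ω) + R1 := by
    refine ⟨_, add_mem (sub_mem hRr (omul hL hR (by grind))) (omul hL hRr (by grind)), ?_⟩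
    refine LinearMap.ext fun X => ?_
    simp only [ad_apply, hh, hh', LinearMap.add_apply, LinearMap.sub_apply, Module.End.mul_apply,
      Module.End.one_apply, LinearMap.mulLeft_apply, LinearMap.mulRight_apply]
    noncomm_ring
  obtain ⟨R2, hR2, a2⟩ : ∃ R2 ∈ OW D (Ioi k),
      Ad h⁻¹ = 1 - (LinearMap.mulLeft ℂ ω - LinearMap.mulRight ℂ ω) + R2 := by
    refine ⟨_, add_mem (sub_mem hLr (omul hL hR (by grind))) (omul hLr hR (by grind)), ?_⟩
    refine LinearMap.ext fun X => ?_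
    simp only [ad_apply, inv_inv, hh, hh', LinearMap.add_apply, LinearMap.sub_apply,
      Module.End.mul_apply, Module.End.one_apply, LinearMap.mulLeft_apply,
      LinearMap.mulRight_apply]
    noncomm_ring
  have hα : LinearMap.mulLeft ℂ ω - LinearMap.mulRight ℂ ω ∈ OW D {k} := sub_mem hL hR
  have hαa : ∀ X, (LinearMap.mulLeft ℂ ω - LinearMap.mulRight ℂ ω) X = br ω X := fun X => rfl
  generalize LinearMap.mulLeft ℂ ω - LinearMap.mulRight ℂ ω = α at a1 a2 hα hαa
  have hu : α + R1 ∈ OW D (Ici k) := add_mem (omono hα (by grind)) (omono hR1 (by grind))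
  have hv : R2 - α ∈ OW D (Ici k) := sub_mem (omono hR2 (by grind)) (omono hα (by grind))
  have hy' : φ + ρ ∈ OW D (Ici k) := e0 ▸ hy
  have e1 : act h z = w + (φ + α * w - w * α) + (ρ + R1 * w + w * R2 + (α + R1) * (φ + ρ) +
      (φ + ρ) * (R2 - α) + (α + R1) * w * (R2 - α) + (α + R1) * (φ + ρ) * (R2 - α)) := by
    show Ad h * (z * Ad h⁻¹) = _
    rw [a1, a2, e]
    exact expand w φ ρ α R1 R2
  have hρ' : ρ + R1 * w + w * R2 + (α + R1) * (φ + ρ) + (φ + ρ) * (R2 - α) +
      (α + R1) * w * (R2 - α) + (α + R1) * (φ + ρ) * (R2 - α) ∈ OW D (Ioi k) :=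
    add_mem (add_mem (add_mem (add_mem (add_mem (add_mem hρ (omul hR1 h0 (by grind)))
      (omul h0 hR2 (by grind))) (omul hu hy' (by grind))) (omul hy' hv (by grind)))
      (omul (omul (U := Ici k) hu h0 (by grind)) hv (by grind)))
      (omul (omul (U := Ici k) hu hy' (by grind)) hv (by grind))
  have hφ' : φ + α * w - w * α ∈ OW D {k} :=
    sub_mem (add_mem hφ (omul hα h0 (by grind))) (omul h0 hα (by grind))
  have hz' := key hA (hA.gpAct N h z hz) (hA.jcAct N h z hj) hw hs hk h0 hφ' hρ' e1 fun X Y => by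
    have h1 := hc X Y
    have h2 : (φ + α * w - w * α) (w X) = (φ * w) X - (w X * ω - ω * w X) := by
      simp only [LinearMap.add_apply, LinearMap.sub_apply, Module.End.mul_apply, hαa, hw.idem]
      rw [factB' hw, hwω, map_zero, LinearMap.zero_apply, br_apply]
      abel
    rwa [h2]
  refine ⟨h, ?_⟩
  rw [e1, hz', add_zero, add_sub_cancel_left]
  exact hρ'

end Rigid

open Rigid in
theorem rigid_thm (hA : AjStmt) (hH : HodgeStmt) : RigidStmt := by
  classical
  intro N D z w hz hj hw hs h0 ho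
  let Δ : Finset ℝ := Finset.univ.image fun x : (Fin N × Fin N) × Fin N × Fin N =>
    (D x.2.1 - D x.2.2) - (D x.1.1 - D x.1.2)
  have hΔ : ∀ a b p q, (D p - D q) - (D a - D b) ∈ Δ := fun a b p q =>
    Finset.mem_image.mpr ⟨((a, b), p, q), Finset.mem_univ _, rfl⟩
  have main : ∀ (n : ℕ) (z : Op N) (c : ℝ), 0 ≤ c → GP z → JC z → z - w ∈ OW D (Ioi c) →
      (Δ.filter (c < ·)).card = n → ∃ h : GLN N, act h z = w := by
    intro n
    induction n using Nat.strong_induction_on with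
    | _ n ih =>
      intro z c hc hz hj hy hn
      rcases (Δ.filter (c < ·)).eq_empty_or_nonempty with h1 | h1
      · refine ⟨1, ?_⟩
        rw [act_one, ← sub_eq_zero]
        refine op_ext fun a b p q => ?_
        by_contra h2
        have : (D p - D q) - (D a - D b) ∈ Δ.filter (c < ·) :=
          Finset.mem_filter.mpr ⟨hΔ a b p q, hy a b p q h2⟩
        rw [h1] at this
        exact Finset.notMem_empty _ this
      · obtain ⟨k, hk, hmin⟩ := Finset.exists_min_image _ id h1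
        have hck : c < k := (Finset.mem_filter.mp hk).2
        obtain ⟨h, hh⟩ := step (D := D) hA hH hz hj hw hs (hc.trans_lt hck) h0
          fun a b p q h2 => hmin _ (Finset.mem_filter.mpr ⟨hΔ a b p q, hy a b p q h2⟩)
        obtain ⟨g, hg⟩ := ih _ (hn ▸ Finset.card_lt_card ⟨fun x hx => Finset.mem_filter.mpr
          ⟨(Finset.mem_filter.mp hx).1, hck.trans (Finset.mem_filter.mp hx).2⟩,
          fun h2 => lt_irrefl k (Finset.mem_filter.mp (h2 hk)).2⟩) (act h z) k
          (hc.trans hck.le) (hA.gpAct N h z hz) (hA.jcAct N h z hj) hh rfl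
        exact ⟨g * h, by rw [← act_mul, hg]⟩
  exact main _ z 0 le_rfl hz hj ho rfl

end Pool.Agent.MP_94b95a_al.Fl

end MrgPart3

-- marker of a merged file
example : 731051 + 503245 = 731051 + 503245 := rfl

end MrgPart0

-- ======== part 1: formerly Pool.Agent.MP_94b95a_al.fl.Mostow
section MrgPart1

-- ======== part 0: formerly Pool.Agent.MP_94b95a_al.fl.Phase
section MrgPart0

/-! A linear Steinberg family with vanishing moment is a sum over points. -/

namespace Pool.Agent.MP_94b95a_al.Fl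

open NormedSpace Matrix Filter Topology

namespace Phase

section Alg
variable {S : Type} [CommRing S] [Algebra ℂ S]

theorem exists_eta (I J : Ideal S) [Module.Finite ℂ (S ⧸ J)] :
    ∃ K : ℕ, ∃ η ∈ I, η * η - η ∈ J ∧ ∀ a ∈ I ^ K, (1 - η) * a ∈ J := by
  have : IsArtinianRing (S ⧸ J) := isArtinian_of_tower ℂ inferInstance
  have : IsNoetherianRing (S ⧸ J) := isNoetherian_of_tower ℂ inferInstance
  let I' : Ideal (S ⧸ J) := I.map (Ideal.Quotient.mk J)
  obtain ⟨n, hn⟩ := IsArtinian.monotone_stabilizes (R := S ⧸ J) (M := S ⧸ J)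
    ⟨fun k => OrderDual.toDual (I' ^ k), fun a b h => Ideal.pow_le_pow_right h⟩
  have h1 : I' ^ (n + 1) = I' ^ (n + 1 + 1) :=
    ((hn (n + 1) (by omega)).symm.trans (hn (n + 1 + 1) (by omega)) : _)
  obtain ⟨r, hr, hr'⟩ := Submodule.exists_mem_and_smul_eq_self_of_fg_of_le_smul I' (I' ^ (n + 1))
    (IsNoetherian.noetherian _) (by rw [smul_eq_mul, ← pow_succ', ← h1])
  obtain ⟨s, hs, rfl⟩ := (Ideal.mem_map_iff_of_surjective _ Ideal.Quotient.mk_surjective).mp hr
  have key : ∀ a ∈ I ^ (n + 1), (1 - s ^ (n + 1)) * a ∈ J := fun a ha => by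
    have ha' : Ideal.Quotient.mk J a ∈ I' ^ (n + 1) := by
      rw [← Ideal.map_pow]; exact Ideal.mem_map_of_mem _ ha
    have h2 : ∀ k : ℕ, Ideal.Quotient.mk J s ^ k * Ideal.Quotient.mk J a
        = Ideal.Quotient.mk J a := fun k => by
      induction k with
      | zero => simp
      | succ k ih => rw [pow_succ', mul_assoc, ih]; exact hr' _ ha'
    rw [← Ideal.Quotient.eq_zero_iff_mem, map_mul, map_sub, map_one, map_pow, sub_mul, h2,
      one_mul, sub_self]
  refine ⟨n + 1, s ^ (n + 1), Ideal.pow_mem_of_mem I hs _ n.succ_pos, ?_, key⟩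
  have := J.neg_mem (key _ (Ideal.pow_mem_pow hs (n + 1)))
  convert this using 1; ring

theorem rad_pow (J : Ideal S) [Module.Finite ℂ (S ⧸ J)] : ∃ K : ℕ, J.radical ^ K ≤ J := by
  have : IsArtinianRing (S ⧸ J) := isArtinian_of_tower ℂ inferInstance
  obtain ⟨K, hK⟩ := IsArtinianRing.isNilpotent_nilradical (R := S ⧸ J)
  refine ⟨K, fun a ha => ?_⟩
  have h1 : J.radical.map (Ideal.Quotient.mk J) ≤ nilradical (S ⧸ J) := by
    rw [Ideal.map_le_iff_le_comap]
    rintro b ⟨n, hn⟩
    exact mem_nilradical.mpr ⟨n, by rw [← map_pow, Ideal.Quotient.eq_zero_iff_mem]; exact hn⟩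
  have h2 : Ideal.Quotient.mk J a ∈ nilradical (S ⧸ J) ^ K := by
    apply Ideal.pow_right_mono h1 K
    rw [← Ideal.map_pow]; exact Ideal.mem_map_of_mem _ ha
  rw [hK] at h2
  exact Ideal.Quotient.eq_zero_iff_mem.mp h2

theorem pts (T : Type) [CommRing T] [Algebra ℂ T] [Module.Finite ℂ T] :
    ∃ (κ : Type) (_ : Fintype κ) (_ : DecidableEq κ) (φ : κ → T →ₐ[ℂ] ℂ) (f : κ → T),
      (∀ k l, φ k (f l) = if k = l then 1 else 0) ∧ ∀ a, (∀ k, φ k a = 0) → IsNilpotent a := by
  classical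
  have : IsArtinianRing T := isArtinian_of_tower ℂ inferInstance
  have h1 : ∀ m : MaximalSpectrum T, ∃ ψ : (T ⧸ m.asIdeal) →ₐ[ℂ] ℂ, Function.Injective ψ := by
    intro m
    have := m.isMaximal
    let e := AlgEquiv.ofBijective (Algebra.ofId ℂ (T ⧸ m.asIdeal))
      IsAlgClosed.algebraMap_bijective_of_isIntegral
    exact ⟨e.symm, e.symm.injective⟩
  choose ψ hψ using h1
  have h2 : ∀ l : MaximalSpectrum T, ∃ f : T, ∀ k : MaximalSpectrum T,
      Ideal.Quotient.mk k.asIdeal f = if k = l then 1 else 0 := fun l =>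
    Ideal.pi_quotient_surjective (I := fun k : MaximalSpectrum T => k.asIdeal)
      (fun k _ h => k.isCoprime_of_ne h) fun k => if k = l then 1 else 0
  choose f hf using h2
  refine ⟨MaximalSpectrum T, Fintype.ofFinite _, inferInstance,
    fun k => (ψ k).comp (Ideal.Quotient.mkₐ ℂ k.asIdeal), f, fun k l => ?_, fun a ha => ?_⟩
  · rw [AlgHom.comp_apply, Ideal.Quotient.mkₐ_eq_mk, hf]
    split_ifs <;> simp
  · rw [← mem_nilradical, nilradical, ← IsArtinianRing.jacobson_eq_radical, Ideal.jacobson,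
      Ideal.mem_sInf]
    rintro m ⟨-, hm⟩
    have := ha ⟨m, hm⟩
    rw [AlgHom.comp_apply, Ideal.Quotient.mkₐ_eq_mk, ← map_zero (ψ ⟨m, hm⟩)] at this
    exact Ideal.Quotient.eq_zero_iff_mem.mp (hψ _ this)

theorem pts' (J : Ideal S) [Module.Finite ℂ (S ⧸ J)] :
    ∃ (κ : Type) (_ : Fintype κ) (_ : DecidableEq κ) (φ : κ → S →ₐ[ℂ] ℂ) (f : κ → S),
      (∀ k l, φ k (f l) = if k = l then 1 else 0) ∧ ∀ a, (∀ k, φ k a = 0) → a ∈ J.radical := by
  obtain ⟨κ, i1, i2, φ, f, h1, h2⟩ := pts (S ⧸ J)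
  choose g hg using fun k => Ideal.Quotient.mk_surjective (f k)
  refine ⟨κ, i1, i2, fun k => (φ k).comp (Ideal.Quotient.mkₐ ℂ J), g, fun k l => ?_, fun a ha => ?_⟩
  · rw [AlgHom.comp_apply, Ideal.Quotient.mkₐ_eq_mk, hg, h1]
  · obtain ⟨n, hn⟩ := h2 _ ha
    exact ⟨n, by rw [← Ideal.Quotient.eq_zero_iff_mem, map_pow]; exact hn⟩

end Alg

theorem mid {i j : Fin 5} (h : i ≠ j) : ∃ m : Fin 5, m ≠ i ∧ m ≠ j := by revert i j; decide

variable {N : ℕ} {S : Type} [CommRing S] [Algebra ℂ S] {ε : S →ₐ[ℂ] ℂ}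
  {ν : Fin 5 → Fin 5 → S →ₗ[ℂ] Mat N}

/-- The common kernel. -/
def kerI (hν : LieFam (RingHom.ker ε) (fun i j a => ν i j a)) : Ideal S where
  carrier := {a | a ∈ RingHom.ker ε ∧ ∀ i j, i ≠ j → ν i j a = 0}
  add_mem' := fun ha hb => ⟨add_mem ha.1 hb.1, fun i j h => by
    rw [map_add, ha.2 i j h, hb.2 i j h, add_zero]⟩
  zero_mem' := ⟨zero_mem _, fun i j _ => map_zero _⟩
  smul_mem' := fun r a ha => ⟨Ideal.mul_mem_left _ r ha.1, fun i j h => by
    obtain ⟨m, hmi, hmj⟩ := mid h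
    have e : r • a = ε r • a + (r - algebraMap ℂ S (ε r)) * a := by
      rw [smul_eq_mul, Algebra.smul_def]; ring
    have hr : r - algebraMap ℂ S (ε r) ∈ RingHom.ker ε := by simp [RingHom.mem_ker]
    have := hν.heis i m j _ a h (leg_of_mem hmi.symm hr) (leg_of_mem hmj ha.1)
    rw [e, map_add, map_smul, ha.2 i j h, smul_zero, zero_add, ← this, ha.2 m j hmj]
    simp⟩

theorem kerI_finite (hν : LieFam (RingHom.ker ε) (fun i j a => ν i j a)) :
    Module.Finite ℂ (S ⧸ kerI hν) := by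
  let Φ : S →ₗ[ℂ] ℂ × (Fin 5 × Fin 5 → Mat N) :=
    ε.toLinearMap.prod (LinearMap.pi fun p => ν p.1 p.2)
  have : Module.Finite ℂ (S ⧸ LinearMap.ker Φ) := Module.Finite.equiv Φ.quotKerEquivRange.symm
  refine Module.Finite.of_surjective
    ((LinearMap.ker Φ).liftQ (Ideal.Quotient.mkₐ ℂ (kerI hν)).toLinearMap ?_) ?_
  · intro a ha
    rw [LinearMap.mem_ker] at ha ⊢
    exact Ideal.Quotient.eq_zero_iff_mem.mpr
      ⟨congrArg Prod.fst ha, fun i j _ => congrFun (congrArg Prod.snd ha) (i, j)⟩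
  · intro y
    obtain ⟨a, rfl⟩ := Ideal.Quotient.mk_surjective y
    exact ⟨Submodule.Quotient.mk a, rfl⟩

theorem congr' (hν : LieFam (RingHom.ker ε) (fun i j a => ν i j a)) {i j : Fin 5} (h : i ≠ j)
    {a b : S} (hab : a - b ∈ kerI hν) : ν i j a = ν i j b := by
  rw [← sub_eq_zero, ← map_sub]; exact hab.2 i j h

theorem cross0 (hν : LieFam (RingHom.ker ε) (fun i j a => ν i j a)) {i j k l : Fin 5} {a b : S}
    (ha : Leg (RingHom.ker ε) i j a) (hkl : k ≠ l) (hb : b ∈ RingHom.ker ε)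
    (hab : a * b ∈ kerI hν) (h : ¬ (j = k ∧ i = l)) : Commute (ν i j a) (ν k l b) := by
  by_cases h1 : j = k
  · subst h1
    have h2 : i ≠ l := fun h2 => h ⟨rfl, h2⟩
    exact sub_eq_zero.mp ((hν.heis i j l a b h2 ha (leg_of_mem hkl hb)).trans (hab.2 i l h2))
  · by_cases h2 : i = l
    · subst h2
      refine Commute.symm (sub_eq_zero.mp
        ((hν.heis k i j b a (Ne.symm h1) (leg_of_mem hkl hb) ha).trans ?_))
      rw [mul_comm]; exact hab.2 k j (Ne.symm h1)
    · exact hν.comm i j k l a b h1 h2 ha (leg_of_mem hkl hb)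

theorem cross (hν : LieFam (RingHom.ker ε) (fun i j a => ν i j a)) {i j k l : Fin 5} {a b c : S}
    (ha : Leg (RingHom.ker ε) i j a) (hkl : k ≠ l) (hb : b ∈ RingHom.ker ε)
    (hc : c ∈ RingHom.ker ε) (hab : a * b ∈ kerI hν) (hac : a * c ∈ kerI hν) :
    Commute (ν i j a) (ν k l (b * c)) := by
  by_cases h : j = k ∧ i = l
  · obtain ⟨rfl, rfl⟩ := h
    obtain ⟨m, hmj, hmi⟩ := mid hkl
    have e := hν.heis j m i b c hkl (leg_of_mem hmj.symm hb) (leg_of_mem hmi hc)
    have c1 := cross0 hν ha hmj.symm hb hab (fun h => hmi h.2.symm)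
    have c2 := cross0 hν ha hmi hc hac (fun h => hmj h.1.symm)
    rw [← e]
    exact (c1.mul_right c2).sub_right (c2.mul_right c1)
  · refine cross0 hν ha hkl (Ideal.mul_mem_right _ _ hb) ?_ h
    rw [← mul_assoc]; exact Ideal.mul_mem_right _ _ hab

end Phase

open Phase in
theorem phase_thm (h1 : Ph1Stmt) (h2 : Ph2Stmt) (hN : NilStmt) : PhaseStmt := by
  intro N S _ _ ε ν hν ι _ x hx hsp
  classical
  have := kerI_finite hν
  set I := RingHom.ker ε with hI
  set J := kerI hν with hJ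
  obtain ⟨K, η, hη, hηη, hηK⟩ := exists_eta I J
  obtain ⟨K', hK'⟩ := rad_pow J
  obtain ⟨κ, _, _, φ, f, hφ, hrad⟩ := pts' J
  have lη : ∀ {i j : Fin 5} (a : S), i ≠ j → Leg I i j (η * a) := fun a h =>
    leg_of_mem h (Ideal.mul_mem_right _ _ hη)
  have adj : ∀ i j a, Leg I i j a → ν i j a ∈ Algebra.adjoin ℂ (Set.range x) := fun i j a ha => by
    apply Algebra.span_le_adjoin ℂ
    rw [hsp]; exact Submodule.subset_span ⟨i, j, a, ha, rfl⟩
  have xsp : ∀ t, x t ∈ Submodule.span ℂ (gens I fun i j a => ν i j a) := fun t => by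
    rw [← hsp]; exact Submodule.subset_span ⟨t, rfl⟩
  have hν1 : LieFam I (fun i j a => ν i j ((1 - η) * a)) :=
    ⟨fun i j a b _ _ => by rw [mul_add, map_add],
      fun i j k a b h ha hb => (hν.heis i j k _ _ h (ha.mul_left _) (hb.mul_left _)).trans
        (congr' hν h (by convert J.mul_mem_right (a * b) hηη using 1; ring)),
      fun i j k l a b p q ha hb => hν.comm i j k l _ _ p q (ha.mul_left _) (hb.mul_left _),
      fun i j a ha => hν.nil i j _ (ha.mul_left _)⟩
  have hν2 : LieFam ⊤ (fun i j a => ν i j (η * a)) :=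
    ⟨fun i j a b _ _ => by rw [mul_add, map_add],
      fun i j k a b h ha hb => (hν.heis i j k _ _ h (lη a ha.1) (lη b hb.1)).trans
        (congr' hν h (by convert J.mul_mem_right (a * b) hηη using 1; ring)),
      fun i j k l a b p q ha hb => hν.comm i j k l _ _ p q (lη a ha.1) (lη b hb.1),
      fun i j a ha => hν.nil i j _ (lη a ha.1)⟩
  have hz1 : ∀ i j a, Leg I i j a → ν i j ((1 - η) * a) = 0 := by
    refine h2 N S I _ hν1 ⟨K, fun i j a ha haK => (hηK a haK).2 i j ha.1⟩ fun m hm hn hc => ?_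
    refine hN N ι x hx {m} ?_ ?_ ?_ ?_ m rfl
    · rintro _ rfl
      refine Algebra.adjoin_le ?_ hm
      rintro _ ⟨i, j, a, ha, rfl⟩
      exact adj i j _ (ha.mul_left _)
    · rintro _ rfl; exact hn
    · rintro _ rfl _ rfl; exact Commute.refl _
    · rintro t m' rfl
      have : Commute m' (x t) := by
        refine Submodule.span_induction (p := fun y _ => Commute m' y) ?_ (Commute.zero_right _)
          (fun _ _ _ _ => Commute.add_right) (fun z _ _ h => h.smul_right z) (xsp t)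
        rintro _ ⟨k, l, b, hb, rfl⟩
        have e : ν k l b = ν k l ((1 - η) * b) + ν k l (η * (η * b)) := by
          rw [← map_add]
          exact congr' hν hb.1 (by convert J.neg_mem (J.mul_mem_right b hηη) using 1; ring)
        change Commute m' (ν k l b)
        rw [e]
        refine (hc _ ⟨k, l, b, hb, rfl⟩).add_right
          (Algebra.commute_of_mem_adjoin_of_forall_mem_commute hm ?_).symm
        rintro _ ⟨i, j, a, ha, rfl⟩
        refine (cross hν (ha.mul_left _) hb.1 hη (Ideal.mul_mem_right _ _ hη) ?_ ?_).symm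
        · convert J.neg_mem (J.mul_mem_right a hηη) using 1; ring
        · convert J.neg_mem (J.mul_mem_right (a * b) hηη) using 1; ring
      rw [this.eq, sub_self]; exact Submodule.zero_mem _
  have hνη : ∀ i j a, Leg I i j a → ν i j a = ν i j (η * a) := fun i j a ha => by
    rw [← sub_eq_zero, ← map_sub, ← hz1 i j a ha]; congr 1; ring
  have hz2 : ∀ i j a, i ≠ j → a ∈ J.radical → ν i j (η * a) = 0 := by
    refine h1 N S J.radical _ hν2
      ⟨K', fun i j a h ha => (J.mul_mem_left η (hK' ha)).2 i j h⟩ fun M m1 m2 m3 m4 => ?_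
    refine hN N ι x hx M (fun m hm => Algebra.adjoin_le ?_ (m1 m hm)) m2 m3 fun t m hm => ?_
    · rintro _ ⟨i, j, a, ha, rfl⟩
      exact adj i j _ (lη a ha.1)
    · refine Submodule.span_induction (p := fun y _ => y * m - m * y ∈ Submodule.span ℂ M) ?_
        (by simp) (fun y z _ _ hy hz => ?_) (fun z y _ h => ?_) (xsp t)
      · rintro _ ⟨k, l, b, hb, rfl⟩
        exact m4 _ ⟨k, l, b, leg_of_mem hb.1 trivial, hνη k l b hb⟩ m hm
      · convert Submodule.add_mem _ hy hz using 1; noncomm_ring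
      · convert Submodule.smul_mem _ z h using 1
        rw [smul_sub, smul_mul_assoc, mul_smul_comm]
  have hηJ : ∀ a, (∀ k, φ k a = 0) → η * a ∈ J := fun a ha =>
    ⟨Ideal.mul_mem_right _ _ hη, fun i j h => hz2 i j a h (hrad a ha)⟩
  let L : κ → Fin 5 → Fin 5 → Mat N := fun k i j => ν i j (η * f k)
  have hff : ∀ k, η * f k * (η * f k) - η * f k ∈ J := fun k => by
    have a1 := hηJ (f k * f k - f k) fun l => by
      rw [map_sub, map_mul, hφ]; split_ifs <;> simp
    convert J.add_mem a1 (J.mul_mem_right (f k * f k) hηη) using 1; ring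
  have hL : OffFam L := by
    refine ⟨fun k i j l p q r => ?_, fun k i j p q a b c d => ?_, fun k k' hk i j p q a b => ?_⟩
    · exact (hν.heis i j l _ _ r (lη _ p) (lη _ q)).trans (congr' hν r (hff k))
    · exact hν.comm i j p q _ _ c d (lη _ a) (lη _ b)
    · have a1 : η * f k * (η * f k') ∈ J := by
        have a2 := hηJ (f k * f k') fun l => by
          rw [map_mul, hφ, hφ]
          by_cases h : l = k
          · rw [if_neg (h ▸ hk : l ≠ k'), mul_zero]
          · rw [if_neg h, zero_mul]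
        convert J.mul_mem_left η a2 using 1; ring
      change Commute _ (ν p q (η * f k'))
      rw [← congr' hν b (hff k')]
      exact cross hν (lη _ a) b (Ideal.mul_mem_right _ _ hη) (Ideal.mul_mem_right _ _ hη) a1 a1
  have hsum : ∀ i j a, Leg I i j a → ν i j a = ∑ k, φ k a • L k i j := fun i j a ha => by
    have a1 := hηJ (a - ∑ k, φ k a • f k) fun l => by
      simp [map_sum, hφ]
    rw [hνη i j a ha, congr' hν ha.1 (b := η * ∑ k, φ k a • f k) (by rwa [← mul_sub]),
      Finset.mul_sum, map_sum]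
    exact Finset.sum_congr rfl fun k _ => by rw [mul_smul_comm, map_smul]
  let P : κ → Prop := fun k => ∃ i j, i ≠ j ∧ L k i j ≠ 0
  let e := (Fintype.equivFin {k // P k}).symm
  refine ⟨_, fun t => φ (e t), fun t => L (e t), fun t ht => ?_,
    ⟨fun t => hL.heis _, fun t => hL.comm _, fun t t' h => hL.cross _ _
      fun h' => h (e.injective (Subtype.ext h'))⟩, fun i j a ha => ?_,
    fun t i j h => ⟨_, lη _ h, rfl⟩, fun t => (e t).2⟩
  · obtain ⟨i, j, h, hne⟩ := (e t).2
    apply hne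
    have a1 := hηJ (η * f (e t)) fun l => by
      rw [map_mul, hφ]
      by_cases hl : l = e t
      · have : φ l η = 0 := by rw [hl]; exact (congrArg (fun ψ : S →ₐ[ℂ] ℂ => ψ η) ht).trans hη
        rw [this, zero_mul]
      · rw [if_neg hl, mul_zero]
    change ν i j (η * f (e t)) = 0
    rw [hνη i j _ (lη _ h)]
    exact a1.2 i j h
  · rw [hsum i j a ha, e.sum_comp (fun k : {k // P k} => φ k a • L k i j),
      ← Finset.sum_subtype (Finset.univ.filter P) (by simp) (fun k => φ k a • L k i j),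
      Finset.sum_filter]
    refine Finset.sum_congr rfl fun k _ => ?_
    split_ifs with h
    · rfl
    · have : L k i j = 0 := by
        by_contra h'; exact h ⟨i, j, ha.1, h'⟩
      rw [this, smul_zero]

end Pool.Agent.MP_94b95a_al.Fl

end MrgPart0

-- ======== part 1: formerly Pool.Agent.MP_94b95a_al.fl.Bnd
section MrgPart1

/-! A representation with elliptic generators has bounded image. -/

namespace Pool.Agent.MP_94b95a_al.Fl

open NormedSpace Matrix Filter Topology
open scoped commutatorElement Pointwise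

namespace Bnd

variable {N : ℕ}

/-- Bounded sets of invertible matrices. -/
def Bd (S : Set (GLN N)) : Prop := ∃ C : ℝ, ∀ g ∈ S, ∀ a b, ‖(g : Mat N) a b‖ ≤ C

theorem Bd.mono {S T : Set (GLN N)} (h : Bd T) (hs : S ⊆ T) : Bd S :=
  let ⟨C, hC⟩ := h; ⟨C, fun g hg => hC g (hs hg)⟩

theorem Bd.mul {S T : Set (GLN N)} (hS : Bd S) (hT : Bd T) : Bd (S * T) := by
  obtain ⟨C, hC⟩ := hS
  obtain ⟨D, hD⟩ := hT
  refine ⟨N * (C * D), ?_⟩
  rintro _ ⟨g, hg, h, hh, rfl⟩ a b
  change ‖((g * h : GLN N) : Mat N) a b‖ ≤ _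
  rw [Units.val_mul, Matrix.mul_apply]
  refine (norm_sum_le _ _).trans ?_
  refine (Finset.sum_le_card_nsmul _ _ (C * D) fun c _ => ?_).trans (by simp)
  rw [norm_mul]
  exact mul_le_mul (hC g hg a c) (hD h hh c b) (norm_nonneg _) ((norm_nonneg _).trans (hC g hg a c))

theorem bd_finite {S : Set (GLN N)} (h : S.Finite) : Bd S := by
  obtain ⟨C, hC⟩ := ((h.prod (Set.finite_univ (α := Fin N × Fin N))).image
    fun p : GLN N × Fin N × Fin N => ‖(p.1 : Mat N) p.2.1 p.2.2‖).bddAbove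
  exact ⟨C, fun g hg a b => hC ⟨(g, a, b), ⟨hg, trivial⟩, rfl⟩⟩

theorem bd_closure {F : Set (GLN N)} (hF : F.Finite) (he : ∀ f ∈ F, Ell f)
    (hc : ∀ f ∈ F, ∀ g ∈ F, Commute f g) : Bd (Subgroup.closure F : Set (GLN N)) := by
  induction F, hF using Set.Finite.induction_on with
  | empty => exact bd_finite (by simp)
  | @insert f F _ _ ih =>
    have h1 := ih (fun g hg => he g (Or.inr hg)) fun g hg g' hg' => hc g (Or.inr hg) g' (Or.inr hg')
    have h2 : Bd (Subgroup.zpowers f : Set (GLN N)) := by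
      obtain ⟨C, hC⟩ := he f (Or.inl rfl)
      exact ⟨C, by rintro _ ⟨k, rfl⟩; exact hC _ ⟨k, rfl⟩⟩
    have h3 : ∀ s ∈ Subgroup.closure F, Commute f s := fun s hs => by
      induction hs using Subgroup.closure_induction with
      | mem x hx => exact hc f (Or.inl rfl) x (Or.inr hx)
      | one => exact Commute.one_right f
      | mul x y _ _ a b => exact a.mul_right b
      | inv x _ a => exact a.inv_right
    refine (h2.mul h1).mono fun g hg => ?_
    induction hg using Subgroup.closure_induction with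
    | mem x hx =>
      rcases hx with rfl | hx
      · exact ⟨x, Subgroup.mem_zpowers x, 1, Subgroup.one_mem _, mul_one x⟩
      · exact ⟨1, Subgroup.one_mem _, x, Subgroup.subset_closure hx, one_mul x⟩
    | one => exact ⟨1, Subgroup.one_mem _, 1, Subgroup.one_mem _, mul_one 1⟩
    | mul x y _ _ a b =>
      obtain ⟨_, ⟨k, rfl⟩, s, hs, rfl⟩ := a
      obtain ⟨_, ⟨l, rfl⟩, t, ht, rfl⟩ := b
      refine ⟨_, ⟨k + l, rfl⟩, s * t, Subgroup.mul_mem _ hs ht, ?_⟩
      change f ^ (k + l) * (s * t) = f ^ k * s * (f ^ l * t)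
      rw [_root_.zpow_add, mul_assoc, mul_assoc, ← mul_assoc s, ← ((h3 s hs).zpow_left l).eq,
        mul_assoc]
    | inv x _ a =>
      obtain ⟨_, ⟨k, rfl⟩, s, hs, rfl⟩ := a
      refine ⟨_, ⟨-k, rfl⟩, s⁻¹, Subgroup.inv_mem _ hs, ?_⟩
      change f ^ (-k) * s⁻¹ = (f ^ k * s)⁻¹
      rw [((h3 s hs).zpow_left k).eq, _root_.mul_inv_rev, _root_.zpow_neg]

theorem ell_pow {e : GLN N} (h : Ell e) (n : ℕ) : Ell (e ^ n) := by
  obtain ⟨C, hC⟩ := h
  refine ⟨C, ?_⟩
  rintro _ ⟨k, rfl⟩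
  exact hC _ ⟨n * k, by simp only [_root_.zpow_mul, zpow_natCast]⟩

theorem pow_comm {H : Type} [Group H] {x y : H} (h : Commute ⁅x, y⁆ x) {M : ℕ}
    (hM : ⁅x, y⁆ ^ M = 1) : Commute (x ^ M) y := by
  have e : y * x * y⁻¹ = ⁅x, y⁆⁻¹ * x := by rw [commutatorElement_def]; group
  have : y * x ^ M * y⁻¹ = x ^ M := by
    rw [← conj_pow, e, h.inv_left.mul_pow, inv_pow, hM, inv_one, one_mul]
  exact (mul_inv_eq_iff_eq_mul.mp this).symm

variable {R : Type} [CommRing R] {I : Ideal R} {x : Fin 5 → Fin 5 → R → GLN N}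

theorem one_comm (hH : HordStmt) (hx : StFam I x) (he : ∀ i j a, Leg I i j a → Ell (x i j a))
    {i j k : Fin 5} {a b : R} (hik : i ≠ k) (ha : Leg I i j a) (hb : Leg I j k b) :
    x i k (a * b) ^ N.factorial = 1 := by
  have h := hx.heis i j k a b hik ha hb
  rw [← h]
  apply hH N <;> rw [h]
  · exact hx.comm i k i j _ _ hik.symm ha.1 (ha.mul hik hb) ha
  · exact hx.comm i k j k _ _ hb.1.symm hik (ha.mul hik hb) hb
  · exact he _ _ _ (ha.mul hik hb)

theorem heis_comm (hH : HordStmt) (hx : StFam I x) (he : ∀ i j a, Leg I i j a → Ell (x i j a))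
    {i j k : Fin 5} {a b : R} (hik : i ≠ k) (ha : Leg I i j a) (hb : Leg I j k b) :
    Commute (x i j a ^ N.factorial) (x j k b) ∧ Commute (x j k b ^ N.factorial) (x i j a) := by
  have h := hx.heis i j k a b hik ha hb
  have h1 := one_comm hH hx he hik ha hb
  constructor
  · apply pow_comm <;> rw [h]
    · exact hx.comm i k i j _ _ hik.symm ha.1 (ha.mul hik hb) ha
    · exact h1
  · apply pow_comm <;> rw [← commutatorElement_inv, h]
    · exact (hx.comm i k j k _ _ hb.1.symm hik (ha.mul hik hb) hb).inv_left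
    · rw [inv_pow, h1, inv_one]

theorem central (hH : HordStmt) (hx : StFam I x) (he : ∀ i j a, Leg I i j a → Ell (x i j a))
    {i j k l : Fin 5} {a b : R} (ha : Leg I i j a) (hb : Leg I k l b) :
    Commute (x i j a ^ N.factorial) (x k l b) := by
  by_cases h1 : j = k
  · subst h1
    by_cases h2 : i = l
    · subst h2
      rcases not_simple_or i j with h | h
      · obtain ⟨m, a', a'', p, q, rfl⟩ := exists_dec ha h
        rw [one_comm hH hx he ha.1 p q]; exact Commute.one_left _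
      · obtain ⟨m, b', b'', p, q, rfl⟩ := exists_dec hb h
        have c1 := (heis_comm hH hx he q.1.symm ha p).1
        have c2 := (heis_comm hH hx he p.1.symm q ha).2
        rw [← hx.heis j m i b' b'' hb.1 p q, commutatorElement_def]
        exact ((c1.mul_right c2).mul_right c1.inv_right).mul_right c2.inv_right
    · exact (heis_comm hH hx he h2 ha hb).1
  · by_cases h2 : i = l
    · subst h2
      exact (heis_comm hH hx he (Ne.symm h1) hb ha).2
    · exact (hx.comm i j k l a b h1 h2 ha hb).pow_left _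

theorem mid {i j : Fin 5} (h : i ≠ j) : ∃ m : Fin 5, m ≠ i ∧ m ≠ j := by revert i j; decide

theorem small (hH : HordStmt) (hx : StFam I x) (he : ∀ i j a, Leg I i j a → Ell (x i j a))
    {i j : Fin 5} (hij : i ≠ j) {a : R} (ha : a ∈ I * sig I i j) :
    x i j a ^ N.factorial = 1 := by
  have leg : ∀ b ∈ I * sig I i j, Leg I i j b := fun b hb =>
    ⟨hij, Ideal.mul_le_right (I := I) (J := sig I i j) hb⟩
  refine (Submodule.mul_induction_on (C := fun b => b ∈ I * sig I i j ∧
    x i j b ^ N.factorial = 1) ha (fun a' h' a'' h'' => ⟨Ideal.mul_mem_mul h' h'', ?_⟩) ?_).2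
  · obtain ⟨m, hmi, hmj⟩ := mid hij
    by_cases h : i < j
    · by_cases h2 : i < m
      · rw [mul_comm]
        exact one_comm hH hx he hij (leg_of_lt a'' h2) (leg_of_mem hmj h')
      · exact one_comm hH hx he hij (leg_of_mem hmi.symm h')
          (leg_of_lt a'' ((not_lt.mp h2).trans_lt h))
    · unfold sig at h''
      rw [if_neg h] at h''
      exact one_comm hH hx he hij (leg_of_mem hmi.symm h') (leg_of_mem hmj h'')
  · rintro b c ⟨hb, pb⟩ ⟨hc, pc⟩
    refine ⟨add_mem hb hc, ?_⟩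
    rw [hx.add i j b c (leg b hb) (leg c hc),
      (hx.comm i j i j b c hij.symm hij (leg b hb) (leg c hc)).mul_pow, pb, pc, one_mul]

/-- A root subgroup as a homomorphism. -/
def rootHom {H : Type} [Group H] {y : Fin 5 → Fin 5 → R → H} (hy : StFam I y) {i j : Fin 5}
    (hij : i ≠ j) : Multiplicative (sig I i j) →* H :=
  MonoidHom.mk' (fun a => y i j (a.toAdd : R)) fun a b =>
    hy.add i j _ _ ⟨hij, a.toAdd.2⟩ ⟨hij, b.toAdd.2⟩

theorem fam_zsmul {H : Type} [Group H] {y : Fin 5 → Fin 5 → R → H} (hy : StFam I y)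
    {i j : Fin 5} {a : R} (ha : Leg I i j a) (n : ℤ) : y i j ((n : R) * a) = y i j a ^ n := by
  have := map_zpow (rootHom hy ha.1) (Multiplicative.ofAdd ⟨a, ha.2⟩) n
  rw [← zsmul_eq_mul]
  exact this

theorem decomp (ε : R →+* ℤ) (σ : Ideal R) (t : Finset R) (ht : Ideal.span (t : Set R) = σ)
    {a : R} (ha : a ∈ σ) :
    ∃ n : t → ℤ, a - ∑ s : t, (n s : R) * (s : R) ∈ RingHom.ker ε * σ := by
  rw [← ht] at ha
  obtain ⟨r, hr⟩ := (Submodule.mem_span_finset'.mp ha : ∃ r : t → R, ∑ s : t, r s • (s : R) = a)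
  refine ⟨fun s => ε (r s), ?_⟩
  rw [← hr, ← Finset.sum_sub_distrib]
  refine Submodule.sum_mem _ fun s _ => ?_
  rw [smul_eq_mul, ← sub_mul]
  exact Ideal.mul_mem_mul (by simp [RingHom.mem_ker]) (ht ▸ Ideal.subset_span s.2)

end Bnd

open Bnd in
theorem bnd_thm (hH : HordStmt) (hB : BurnStmt) (hF : FinStmt) : BndStmt := by
  intro N R _ _ ε e he
  classical
  have : IsNoetherianRing R := Algebra.FiniteType.isNoetherianRing ℤ R
  let I := RingHom.ker ε
  let M := N.factorial
  let x : Fin 5 → Fin 5 → R → GLN N := fun i j a => e (X I i j a)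
  have hx : StFam I x := (stFam_X I).map e
  choose t ht using fun i j => (IsNoetherian.noetherian (sig I i j) : (sig I i j).FG)
  have tleg : ∀ i j, i ≠ j → ∀ s : t i j, Leg I i j (s : R) := fun i j h s =>
    ⟨h, ht i j ▸ Submodule.subset_span s.2⟩
  let F : Set (GLN N) := {g | ∃ i j, i ≠ j ∧ ∃ s : t i j, g = x i j s ^ M}
  have hFfin : F.Finite := by
    refine (Set.finite_range fun p : (Σ q : Fin 5 × Fin 5, t q.1 q.2) =>
      x p.1.1 p.1.2 p.2 ^ M).subset ?_
    rintro _ ⟨i, j, -, s, rfl⟩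
    exact ⟨⟨(i, j), s⟩, rfl⟩
  have cen : ∀ i j a, Leg I i j a → ∀ γ, Commute (x i j a ^ M) (e γ) := fun i j a ha γ => by
    have h : Subgroup.closure (gens I (X I)) ≤ (Subgroup.centralizer {x i j a ^ M}).comap e := by
      refine (Subgroup.closure_le _).mpr ?_
      rintro _ ⟨k, l, b, hb, rfl⟩ _ rfl
      exact central hH hx he ha hb
    rw [closure_gens_X] at h
    exact h (Subgroup.mem_top γ) _ rfl
  let Z := Subgroup.closure F
  have hZ : Bd (Z : Set (GLN N)) := by
    refine bd_closure hFfin ?_ ?_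
    · rintro _ ⟨i, j, h, s, rfl⟩; exact ell_pow (he i j _ (tleg i j h s)) M
    · rintro _ ⟨i, j, h, s, rfl⟩ _ ⟨k, l, h', s', rfl⟩
      exact (cen i j _ (tleg i j h s) _).pow_right M
  have Zc : ∀ z ∈ Z, ∀ γ, Commute z (e γ) := fun z hz γ => by
    induction hz using Subgroup.closure_induction with
    | mem y hy => obtain ⟨i, j, h, s, rfl⟩ := hy; exact cen i j _ (tleg i j h s) γ
    | one => exact Commute.one_left _
    | mul y z _ _ a b => exact a.mul_left b
    | inv y _ a => exact a.inv_left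
  have hn : (Z.comap e).Normal := ⟨fun n hn g => by
    rw [Subgroup.mem_comap] at hn ⊢
    rw [map_mul, map_mul, map_inv, ← (Zc _ hn g).eq, mul_inv_cancel_right]; exact hn⟩
  let π := QuotientGroup.mk' (Z.comap e)
  let y : Fin 5 → Fin 5 → R → St I ⧸ Z.comap e := fun i j a => π (X I i j a)
  have hy : StFam I y := (stFam_X I).map π
  have hsum : ∀ i j, i ≠ j → ∀ n : t i j → ℤ, Leg I i j (∑ s : t i j, (n s : R) * (s : R)) :=
    fun i j h n => ⟨h, Submodule.sum_mem _ fun s _ => Ideal.mul_mem_left _ _ (tleg i j h s).2⟩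
  have hyM : ∀ i j, i ≠ j → ∀ n : t i j → ℤ,
      y i j (∑ s : t i j, ((M * n s : ℤ) : R) * (s : R)) = 1 := fun i j h n => by
    refine (Finset.sum_induction _ (fun b => Leg I i j b ∧ y i j b = 1) ?_
      ⟨Leg.zero h, hy.zero h⟩ fun s _ => ⟨(tleg i j h s).mul_left _, ?_⟩).2
    · rintro b c ⟨hb, pb⟩ ⟨hc, pc⟩
      exact ⟨hb.add hc, by rw [hy.add i j b c hb hc, pb, pc, one_mul]⟩
    · have : y i j s ^ M = 1 := by
        change π _ ^ M = 1
        rw [← map_pow]
        refine (QuotientGroup.eq_one_iff _).mpr ?_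
        rw [Subgroup.mem_comap, map_pow]
        exact Subgroup.subset_closure ⟨i, j, h, s, rfl⟩
      rw [fam_zsmul hy (tleg i j h s), _root_.zpow_mul, zpow_natCast, this, _root_.one_zpow]
  have hroot : ∀ i j, (rootSet I y i j).Finite := by
    intro i j
    by_cases h : i = j
    · refine Set.finite_empty.subset ?_
      rintro _ ⟨a, ha, -⟩; exact ha.1 h
    have leg : ∀ b ∈ I * sig I i j, Leg I i j b := fun b hb =>
      ⟨h, Ideal.mul_le_right (I := I) (J := sig I i j) hb⟩
    let U : Subgroup (GLN N) :=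
      { carrier := {g | ∃ a ∈ I * sig I i j, g = x i j a}
        one_mem' := ⟨0, zero_mem _, (hx.zero h).symm⟩
        mul_mem' := by
          rintro _ _ ⟨a, ha, rfl⟩ ⟨b, hb, rfl⟩
          exact ⟨a + b, add_mem ha hb, (hx.add i j a b (leg a ha) (leg b hb)).symm⟩
        inv_mem' := by
          rintro _ ⟨a, ha, rfl⟩
          exact ⟨-a, neg_mem ha, (hx.neg (leg a ha)).symm⟩ }
    have hU : Finite U := hB N U M N.factorial_pos (by
      rintro _ ⟨a, ha, rfl⟩; exact small hH hx he h ha)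
    have hV : {g | ∃ a ∈ I * sig I i j, g = y i j a}.Finite := by
      have h1 : ∀ u : U, ∃ a, (u : GLN N) = x i j a := fun u => let ⟨a, _, p⟩ := u.2; ⟨a, p⟩
      choose g hg using h1
      refine (Set.finite_range fun u : U => y i j (g u)).subset ?_
      rintro _ ⟨a, ha, rfl⟩
      refine ⟨⟨x i j a, a, ha, rfl⟩, QuotientGroup.eq.mpr ?_⟩
      rw [Subgroup.mem_comap, map_mul, map_inv]
      change (x i j _)⁻¹ * x i j a ∈ Z
      rw [← hg, inv_mul_cancel]; exact Z.one_mem
    have hW : (Set.range fun r : t i j → Fin M =>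
        y i j (∑ s : t i j, (((r s : ℕ) : ℤ) : R) * (s : R))).Finite := Set.finite_range _
    refine (hW.mul hV).subset ?_
    rintro _ ⟨a, ha, rfl⟩
    obtain ⟨n, hn⟩ := decomp ε _ _ (ht i j) ha.2
    have hM0 : (0 : ℤ) < M := by exact_mod_cast N.factorial_pos
    let r : t i j → Fin M := fun s => ⟨(n s % M).toNat, by
      have := Int.emod_lt_of_pos (n s) hM0
      have := Int.emod_nonneg (n s) hM0.ne'
      omega⟩
    have hr : ∀ s, n s = ((r s : ℕ) : ℤ) + M * (n s / M) := fun s => by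
      have := Int.emod_nonneg (n s) hM0.ne'
      change n s = ((n s % M).toNat : ℤ) + _
      rw [Int.toNat_of_nonneg this, Int.emod_add_mul_ediv]
    refine ⟨_, ⟨r, rfl⟩, _, ⟨_, hn, rfl⟩, ?_⟩
    have e1 : a = (∑ s : t i j, (((r s : ℕ) : ℤ) : R) * (s : R) +
        ∑ s : t i j, ((M * (n s / M) : ℤ) : R) * (s : R)) +
        (a - ∑ s : t i j, (n s : R) * (s : R)) := by
      rw [← Finset.sum_add_distrib]
      simp_rw [← add_mul, ← Int.cast_add, ← hr]
      ring
    conv_rhs => rw [e1]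
    rw [hy.add i j _ _ ((hsum i j h _).add (hsum i j h _)) (leg _ hn),
      hy.add i j _ _ (hsum i j h _) (hsum i j h _), hyM i j h, mul_one]
  have hfin : Finite (St I ⧸ Z.comap e) := by
    refine hF R ε _ y hy ?_ hroot
    have : gens I y = π '' gens I (X I) := by
      ext g
      constructor
      · rintro ⟨i, j, a, ha, rfl⟩; exact ⟨_, ⟨i, j, a, ha, rfl⟩, rfl⟩
      · rintro ⟨_, ⟨i, j, a, ha, rfl⟩, rfl⟩; exact ⟨i, j, a, ha, rfl⟩
    rw [this, ← MonoidHom.map_closure, closure_gens_X]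
    exact Subgroup.map_top_of_surjective _ (QuotientGroup.mk'_surjective _)
  obtain ⟨C, hC⟩ := (bd_finite (Set.finite_range fun q : St I ⧸ Z.comap e => e q.out)).mul hZ
  refine ⟨C, ?_⟩
  rintro _ ⟨γ, rfl⟩
  obtain ⟨z, hz⟩ := QuotientGroup.mk_out_eq_mul (Z.comap e) γ
  refine hC _ ⟨_, ⟨(γ : St I ⧸ Z.comap e), rfl⟩, (e z)⁻¹, Z.inv_mem z.2, ?_⟩
  change e _ * _ = _
  rw [hz, map_mul, mul_inv_cancel_right]

end Pool.Agent.MP_94b95a_al.Fl

end MrgPart1

-- ======== part 2: formerly Pool.Agent.MP_94b95a_al.fl.Red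
section MrgPart2

/-! Reductive groups are conjugate to self adjoint groups. -/

namespace Pool.Agent.MP_94b95a_al.Fl

open NormedSpace Matrix Filter Topology

namespace Red

variable {N : ℕ}

/-- Evaluation at the entries. -/
noncomputable def evm (m : Mat N) (p : MvPolynomial (Fin N × Fin N) ℂ) : ℂ :=
  MvPolynomial.eval (fun ij => m ij.1 ij.2) p

/-- Polynomial functions on matrices. -/
def PF (F : Mat N → ℂ) : Prop := ∃ q, ∀ m, evm m q = F m

theorem PF.const (z : ℂ) : PF (fun _ : Mat N => z) := ⟨MvPolynomial.C z, fun m => by simp [evm]⟩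

theorem PF.entry (a b : Fin N) : PF (fun m : Mat N => m a b) :=
  ⟨MvPolynomial.X (a, b), fun m => by simp [evm]⟩

theorem PF.add {F H : Mat N → ℂ} (h : PF F) (h' : PF H) : PF (fun m => F m + H m) := by
  obtain ⟨p, hp⟩ := h
  obtain ⟨q, hq⟩ := h'
  exact ⟨p + q, fun m => by simp only [← hp, ← hq, evm, map_add]⟩

theorem PF.mul {F H : Mat N → ℂ} (h : PF F) (h' : PF H) : PF (fun m => F m * H m) := by
  obtain ⟨p, hp⟩ := h
  obtain ⟨q, hq⟩ := h'
  exact ⟨p * q, fun m => by simp only [← hp, ← hq, evm, map_mul]⟩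

theorem PF.sum {ι : Type} (s : Finset ι) {F : ι → Mat N → ℂ} (h : ∀ i, PF (F i)) :
    PF (fun m => ∑ i ∈ s, F i m) := by
  classical
  induction s using Finset.induction_on with
  | empty => simpa using PF.const 0
  | insert a s ha ih => simpa [Finset.sum_insert ha] using (h a).add ih

theorem PF.comp (σ : ℂ →+* ℂ) (T : Mat N → Mat N) (hT : ∀ a b, PF (fun m => σ (T m a b)))
    (p : MvPolynomial (Fin N × Fin N) ℂ) : PF (fun m => σ (evm (T m) p)) := by
  induction p using MvPolynomial.induction_on with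
  | C z => simpa [evm] using PF.const (σ z)
  | add p q hp hq => simpa [evm] using hp.add hq
  | mul_X p ij hp => simpa [evm] using hp.mul (hT ij.1 ij.2)

theorem PF.lin (A B : Mat N) (a b : Fin N) : PF (fun m : Mat N => (A * m * B) a b) := by
  simp only [Matrix.mul_apply]
  exact PF.sum _ fun c => (PF.sum _ fun d => (PF.const _).mul (PF.entry d c)).mul (PF.const _)

end Red

theorem red_thm (hUnit : UnitStmt) : RedStmt := by
  intro N G hG
  obtain ⟨⟨S, hS⟩, -, C, hCG, hC, hZ⟩ := hG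
  obtain ⟨h, -, hU⟩ := hUnit N ⊤ C MaxK.sa_top le_top (MaxK.bdd_of_compact hC)
  have hmem : ∀ g, g ∈ G.map (MulAut.conj h).toMonoidHom ↔ h⁻¹ * g * h ∈ G := by
    intro g
    constructor
    · rintro ⟨x, hx, rfl⟩
      have : h⁻¹ * (MulAut.conj h).toMonoidHom x * h = x := by simp [mul_assoc]
      rw [this]; exact hx
    · intro hx
      exact ⟨_, hx, by simp [mul_assoc]⟩
  refine ⟨h, ⟨?_, ?_⟩⟩
  · have h1 : ∀ p, Red.PF (fun m : Mat N =>
        Red.evm (((h⁻¹ : GLN N) : Mat N) * m * (h : Mat N)) p) := fun p =>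
      Red.PF.comp (RingHom.id ℂ) _ (fun a b => Red.PF.lin _ _ a b) p
    choose q hq using h1
    refine ⟨q '' S, fun g => ?_⟩
    rw [hmem, hS]
    constructor
    · rintro H _ ⟨p, hp, rfl⟩
      exact (hq p g).trans (H p hp)
    · intro H p hp
      exact (hq p g).symm.trans (H _ ⟨p, hp, rfl⟩)
  · rintro _ ⟨x, hx, rfl⟩
    rw [hmem, hS]
    intro p hp
    let T : Mat N → Mat N := fun m => ((h⁻¹ : GLN N) : Mat N) *
      ((h : Mat N) * m * ((h⁻¹ : GLN N) : Mat N))ᴴ * (h : Mat N)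
    have hT : ∀ a b, Red.PF (fun m => starRingEnd ℂ (T m a b)) := by
      intro a b
      have e : ∀ m, starRingEnd ℂ (T m a b) = (((h : Mat N)ᴴ * (h : Mat N)) * m *
          (((h⁻¹ : GLN N) : Mat N) * ((h⁻¹ : GLN N) : Mat N)ᴴ)) b a := by
        intro m
        have : starRingEnd ℂ (T m a b) = (T m)ᴴ b a := rfl
        rw [this]
        simp only [T, conjTranspose_mul, conjTranspose_conjTranspose, mul_assoc]
      simp only [e]
      exact Red.PF.lin _ _ b a
    obtain ⟨q, hq⟩ := Red.PF.comp (starRingEnd ℂ) T hT p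
    have h2 : ev x q = 0 := by
      refine hZ q (fun c hc => ?_) x hx
      have e1 : T (c : Mat N) = ((c⁻¹ : GLN N) : Mat N) := by
        have h3 := MaxK.uni_inv_eq (hU c hc)
        have h4 : ((h * c * h⁻¹ : GLN N) : Mat N) =
            (h : Mat N) * (c : Mat N) * ((h⁻¹ : GLN N) : Mat N) := rfl
        simp only [T]
        rw [← h4, ← h3, ← Units.val_mul, ← Units.val_mul]
        congr 1
        group
      have h5 : ev c⁻¹ p = 0 := (hS _).mp (hCG (C.inv_mem hc)) p hp
      have h6 : Red.evm (T (c : Mat N)) p = 0 := by rw [e1]; exact h5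
      have h7 : Red.evm (c : Mat N) q = starRingEnd ℂ (Red.evm (T (c : Mat N)) p) := hq _
      rw [h6, map_zero] at h7
      exact h7
    have h8 := (hq (x : Mat N)).symm.trans h2
    rw [map_eq_zero] at h8
    exact h8

end Pool.Agent.MP_94b95a_al.Fl

end MrgPart2

-- ======== part 3: formerly Pool.Agent.MP_94b95a_al.fl.Mostow
section MrgPart3

/-! Groups with trivial unipotent radical are conjugate to self adjoint groups. -/

namespace Pool.Agent.MP_94b95a_al.Fl

open NormedSpace Matrix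

namespace Mostow

variable {N : ℕ}

theorem Ad_apply (h : GLN N) (X : Mat N) :
    Ad h X = (h : Mat N) * X * ((h⁻¹ : GLN N) : Mat N) := rfl

theorem act_apply (h : GLN N) (w : Op N) (X : Mat N) :
    act h w X = (h : Mat N) * w (((h⁻¹ : GLN N) : Mat N) * X * (h : Mat N)) *
      ((h⁻¹ : GLN N) : Mat N) := rfl

theorem act_mul (h h' : GLN N) (w : Op N) : act (h' * h) w = act h' (act h w) := by
  ext1 X
  simp only [act_apply, _root_.mul_inv_rev, Units.val_mul, mul_assoc]

theorem hmem (G : Subgroup (GLN N)) (h g : GLN N) :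
    g ∈ G.map (MulAut.conj h).toMonoidHom ↔ h⁻¹ * g * h ∈ G := by
  constructor
  · rintro ⟨x, hx, rfl⟩
    have : h⁻¹ * (MulAut.conj h).toMonoidHom x * h = x := by simp [mul_assoc]
    rw [this]; exact hx
  · intro hx
    exact ⟨_, hx, by simp [mul_assoc]⟩

theorem alg_map {G : Subgroup (GLN N)} (hG : Alg G) (h : GLN N) :
    Alg (G.map (MulAut.conj h).toMonoidHom) := by
  obtain ⟨S, hS⟩ := hG
  have h1 : ∀ p, Red.PF (fun m : Mat N =>
      Red.evm (((h⁻¹ : GLN N) : Mat N) * m * (h : Mat N)) p) := fun p =>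
    Red.PF.comp (RingHom.id ℂ) _ (fun a b => Red.PF.lin _ _ a b) p
  choose q hq using h1
  refine ⟨q '' S, fun g => ?_⟩
  rw [hmem, hS]
  constructor
  · rintro H _ ⟨p, hp, rfl⟩
    exact (hq p g).trans (H p hp)
  · intro H p hp
    exact (hq p g).symm.trans (H _ ⟨p, hp, rfl⟩)

theorem inG_map (G : Subgroup (GLN N)) (h : GLN N) (m : Mat N) :
    InG (G.map (MulAut.conj h).toMonoidHom) m ↔
      InG G (((h⁻¹ : GLN N) : Mat N) * m * (h : Mat N)) := by
  constructor
  · rintro ⟨g, hg, rfl⟩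
    exact ⟨_, (hmem G h g).1 hg, rfl⟩
  · rintro ⟨g, hg, e⟩
    refine ⟨h * g * h⁻¹, ⟨g, hg, rfl⟩, ?_⟩
    rw [Units.val_mul, Units.val_mul, e]
    simp [mul_assoc]

theorem inLie_map (G : Subgroup (GLN N)) (h : GLN N) (X : Mat N) :
    InLie (G.map (MulAut.conj h).toMonoidHom) X ↔
      InLie G (((h⁻¹ : GLN N) : Mat N) * X * (h : Mat N)) := by
  refine forall_congr' fun z => ?_
  rw [inG_map, ← Matrix.exp_units_conj', Matrix.mul_smul, Matrix.smul_mul]

theorem fix_act (h : GLN N) (z : Op N) (X : Mat N) :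
    act h z X = X ↔ z (((h⁻¹ : GLN N) : Mat N) * X * (h : Mat N)) =
      ((h⁻¹ : GLN N) : Mat N) * X * (h : Mat N) := by
  rw [act_apply]
  constructor
  · intro e
    conv_rhs => rw [← e]
    simp [mul_assoc]
  · intro e
    rw [e]
    simp [mul_assoc]

end Mostow

open Mostow in
theorem mostow_thm (hAj : AjStmt) (hN : NondegStmt) (hD : DegenStmt) (hS : StarStmt)
    (hR : RigidStmt) (hC : ConnStmt) : MostowStmt := by
  intro N G hG
  obtain ⟨z, hz, hzG⟩ := hN N G hG
  have hJ : JC z := fun X A B ν hX h => by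
    simp only [hzG] at hX ⊢
    exact hAj.lie N G X A B ν hG.1 hX h
  obtain ⟨h, D, w, hw, hc, hp, ho⟩ := hD N z hz
  have hs := hS N D _ w (hAj.gpAct N h z hz) (hAj.jcAct N h z hJ) hw hc hp ho
  obtain ⟨h', e⟩ := hR N D _ w (hAj.gpAct N h z hz) (hAj.jcAct N h z hJ) hw hs hp ho
  rw [← act_mul] at e
  have key : ∀ X, InLie (G.map (MulAut.conj (h' * h)).toMonoidHom) X ↔ w X = X := fun X => by
    rw [inLie_map, ← hzG, ← fix_act, e]
  refine ⟨h' * h, alg_map hG.1 _, hC N _ (alg_map hG.1 _) ?_ fun X hX => ?_⟩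
  · rw [Subgroup.coe_map]
    refine hG.2.1.image _ (Continuous.continuousOn ?_)
    change Continuous fun g : GLN N => h' * h * g * (h' * h)⁻¹
    fun_prop
  · rw [key] at hX ⊢
    rw [hs, hX]

end Pool.Agent.MP_94b95a_al.Fl

end MrgPart3

-- marker of a merged file
example : 731051 + 705008 = 731051 + 705008 := rfl

end MrgPart1

-- marker of a merged file
example : 731051 + 705008 = 731051 + 705008 := rfl
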