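import Mathlib.RingTheory.TotallySplit
import Mathlib.Topology.Algebra.MvPolynomial
import Pool.Agent.MP_94b95a_al.fl.Fin1

namespace Pool.Agent.MP_94b95a_al.Fl

namespace Top

open MvPolynomial

abbrev P : Type := MvPolynomial (Fin 19) ℤ

noncomputable def evc (x : Fin 19 → ℂ) : P →+* ℂ := eval₂Hom (Int.castRingHom ℂ) x

/-- Integral polynomials vanishing on the complex points. -/
def J : Ideal P where
  carrier := {p | ∀ x ∈ VV L0, evc x p = 0}
  add_mem' := fun ha hb x hx => by rw [map_add, ha x hx, hb x hx, add_zero]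
  zero_mem' := fun x _ => map_zero _
  smul_mem' := fun c p hp x hx => by rw [smul_eq_mul, map_mul, hp x hx, mul_zero]

abbrev R : Type := P ⧸ J

noncomputable def pt (x : VV L0) : Pt R := Ideal.Quotient.lift J (evc x.1) fun _ hp => hp x.1 x.2

theorem pt_mk (x : VV L0) (p : P) : pt x (Ideal.Quotient.mk J p) = evc x.1 p := rfl

theorem evc_X (x : Fin 19 → ℂ) (i : Fin 19) : evc x (MvPolynomial.X i) = x i := by simp [evc]

theorem comp_eq (c : Pt R) (p : P) :
    c (Ideal.Quotient.mk J p) = evc (fun i => c (Ideal.Quotient.mk J (MvPolynomial.X i))) p := by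
  have : c.comp (Ideal.Quotient.mk J) =
      evc (fun i => c (Ideal.Quotient.mk J (MvPolynomial.X i))) :=
    MvPolynomial.ringHom_ext (fun r => by simp [evc]) fun i => by simp [evc]
  exact DFunLike.congr_fun this p

theorem co_mem (c : Pt R) : (fun i => c (Ideal.Quotient.mk J (MvPolynomial.X i))) ∈ VV L0 := by
  classical
  have hJ : ∀ p ∈ J, evc (fun i => c (Ideal.Quotient.mk J (MvPolynomial.X i))) p = 0 := by
    intro p hp
    rw [← comp_eq, Ideal.Quotient.eq_zero_iff_mem.mpr hp, map_zero]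
  generalize (fun i => c (Ideal.Quotient.mk J (MvPolynomial.X i))) = x at hJ
  constructor
  · have := hJ (∑ i, MvPolynomial.X i - 1) fun y hy => by
      rw [map_sub, map_sum, map_one]; simp only [evc_X]; rw [hy.1, sub_self]
    rw [map_sub, map_sum, map_one] at this
    simp only [evc_X] at this
    exact sub_eq_zero.mp this
  · by_contra hc
    have := hJ (∏ i ∈ Finset.univ.filter fun i => x i ≠ 0, MvPolynomial.X i) fun y hy => by
      rw [map_prod]
      simp only [evc_X]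
      by_contra h0
      obtain ⟨ρ, hρ, hb⟩ := hy.2
      refine hc ⟨ρ, hρ, fun i hi => hb i ?_⟩
      exact Finset.prod_ne_zero_iff.mp h0 i (by simpa using hi)
    rw [map_prod] at this
    simp only [evc_X] at this
    obtain ⟨i, hi, h0⟩ := Finset.prod_eq_zero_iff.mp this
    exact (Finset.mem_filter.mp hi).2 h0

noncomputable def co (c : Pt R) : VV L0 := ⟨_, co_mem c⟩

theorem pt_co (c : Pt R) : pt (co c) = c := by
  refine RingHom.ext fun a => ?_
  obtain ⟨p, rfl⟩ := Ideal.Quotient.mk_surjective a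
  rw [pt_mk, comp_eq]; rfl

theorem co_pt (x : VV L0) : co (pt x) = x := by
  apply Subtype.ext
  funext i
  exact evc_X _ _

theorem cont_co : Continuous co := by
  refine Continuous.subtype_mk (continuous_pi fun i => ?_) _
  exact (continuous_apply _).comp (continuous_induced_dom (f := fun c : Pt R => (c : R → ℂ)))

theorem cont_pt : Continuous pt := by
  refine continuous_induced_rng.mpr (continuous_pi fun a => ?_)
  obtain ⟨p, rfl⟩ := Ideal.Quotient.mk_surjective a
  have : ∀ x : VV L0, pt x (Ideal.Quotient.mk J p) =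
      eval x.1 (MvPolynomial.map (Int.castRingHom ℂ) p) := fun x => by
    rw [pt_mk, eval_map]; rfl
  simp only [Function.comp_apply, this]
  exact (MvPolynomial.continuous_eval _).comp continuous_subtype_val

theorem single_mem (k : Fin 19) (h : ∃ ρ ∈ L0, ρ.testBit k = true) :
    (Pi.single k 1 : Fin 19 → ℂ) ∈ VV L0 := by
  obtain ⟨ρ, hρ, hb⟩ := h
  refine ⟨by simp, ρ, hρ, fun i hi => ?_⟩
  by_cases h : i = k
  · rw [h]; exact hb
  · exact absurd (Pi.single_eq_of_ne h _) hi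

theorem e0_mem : (Pi.single 0 1 : Fin 19 → ℂ) ∈ VV L0 := single_mem 0 (by decide +kernel)

theorem e1_mem : (Pi.single 1 1 : Fin 19 → ℂ) ∈ VV L0 := single_mem 1 (by decide +kernel)

theorem cast_eval (p : P) : ((eval (Pi.single 0 1) p : ℤ) : ℂ) = evc (Pi.single 0 1) p := by
  have : (Int.castRingHom ℂ).comp (eval (Pi.single 0 1)) = evc (Pi.single 0 1) :=
    MvPolynomial.ringHom_ext (fun r => by simp [evc]) fun i => by
      by_cases h : i = 0 <;> simp [evc, h]
  exact DFunLike.congr_fun this p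

noncomputable def eps : R →+* ℤ := Ideal.Quotient.lift J (eval (Pi.single 0 1)) fun p hp => by
  have := hp _ e0_mem
  rw [← cast_eval] at this
  exact_mod_cast this

theorem org_eps : org eps = pt ⟨_, e0_mem⟩ := by
  refine RingHom.ext fun a => ?_
  obtain ⟨p, rfl⟩ := Ideal.Quotient.mk_surjective a
  exact cast_eval p

theorem contr (h : TopAStmt) : Contr eps := by
  obtain ⟨h, h0, h1, h2⟩ := h
  refine ⟨⟨fun q => pt (h (co q.1, q.2)), ?_⟩, ?_, ?_, ?_⟩
  · exact cont_pt.comp (h.continuous.comp ((cont_co.comp continuous_fst).prodMk continuous_snd))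
  · intro c
    show pt (h (co c, 0)) = c
    rw [h0, pt_co]
  · intro c
    show pt (h (co c, 1)) = _
    rw [org_eps]
    exact congrArg pt (Subtype.ext (h1 _))
  · intro t
    show pt (h (co (org eps), t)) = _
    rw [h2 _ _ (by rw [org_eps, co_pt]), pt_co]

/-- Symmetries. -/
def Q : Subgroup (Equiv.Perm (Fin 19)) where
  carrier := {s | s 0 = 0 ∧ s 1 = 1 ∧ ∀ x, x ∈ VV L0 ↔ x ∘ s ∈ VV L0}
  one_mem' := ⟨rfl, rfl, fun _ => Iff.rfl⟩
  mul_mem' := fun {a b} ha hb => ⟨by simp [ha.1, hb.1], by simp [ha.2.1, hb.2.1], fun x => by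
    rw [ha.2.2 x, hb.2.2]; rfl⟩
  inv_mem' := fun {a} ha => ⟨by rw [Equiv.Perm.inv_eq_iff_eq, ha.1],
    by rw [Equiv.Perm.inv_eq_iff_eq, ha.2.1], fun x => by
      rw [ha.2.2 (x ∘ ⇑a⁻¹)]
      have : (x ∘ ⇑a⁻¹) ∘ ⇑a = x := by funext i; simp
      rw [this]⟩

theorem evc_rename (x : Fin 19 → ℂ) (s : Fin 19 → Fin 19) (p : P) :
    evc x (rename s p) = evc (x ∘ s) p := eval₂_rename _ _ _ _

noncomputable def ph0 (s : Q) : R →+* R :=
  Ideal.quotientMap J (rename (R := ℤ) s.1).toRingHom fun p hp x hx => by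
    show evc x (rename s.1 p) = 0
    rw [evc_rename]; exact hp _ ((s.2.2.2 x).mp hx)

theorem ph0_mk (s : Q) (p : P) :
    ph0 s (Ideal.Quotient.mk J p) = Ideal.Quotient.mk J (rename s.1 p) := rfl

theorem ph0_mul (s t : Q) (a : R) : ph0 (s * t) a = ph0 s (ph0 t a) := by
  obtain ⟨p, rfl⟩ := Ideal.Quotient.mk_surjective a
  rw [ph0_mk, ph0_mk, ph0_mk, rename_rename]; rfl

theorem ph0_one (a : R) : ph0 1 a = a := by
  obtain ⟨p, rfl⟩ := Ideal.Quotient.mk_surjective a
  rw [ph0_mk]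
  exact congrArg _ (rename_id_apply p)

noncomputable def ph : Q →* RingAut R where
  toFun s := { ph0 s with
    invFun := ph0 s⁻¹
    left_inv := fun a => by
      show ph0 s⁻¹ (ph0 s a) = a
      rw [← ph0_mul, inv_mul_cancel, ph0_one]
    right_inv := fun a => by
      show ph0 s (ph0 s⁻¹ a) = a
      rw [← ph0_mul, mul_inv_cancel, ph0_one] }
  map_one' := RingEquiv.ext ph0_one
  map_mul' s t := RingEquiv.ext (ph0_mul s t)

theorem ph_apply (s : Q) (a : R) : ph s a = ph0 s a := rfl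

theorem pt_ph (s : Q) (x : VV L0) (hx : x.1 ∘ s.1 = x.1) (a : R) : pt x (ph s a) = pt x a := by
  obtain ⟨p, rfl⟩ := Ideal.Quotient.mk_surjective a
  rw [ph_apply, ph0_mk, pt_mk, pt_mk, evc_rename, hx]

theorem single_comp (s : Equiv.Perm (Fin 19)) (k : Fin 19) (h : s k = k) :
    (Pi.single k 1 : Fin 19 → ℂ) ∘ s = Pi.single k 1 := by
  funext i
  by_cases hi : i = k
  · simp [hi, h]
  · have : s i ≠ k := fun h' => hi (s.injective (h'.trans h.symm))
    simp [hi, this]

def t1 : Fin 19 → Fin 19 := ![0, 1, 2, 3, 5, 6, 4, 8, 9, 7, 11, 12, 10, 14, 13, 16, 15, 18, 17]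
def t2 : Fin 19 → Fin 19 := ![0, 1, 2, 3, 6, 4, 5, 9, 7, 8, 12, 10, 11, 14, 13, 16, 15, 18, 17]

def tau : Equiv.Perm (Fin 19) := ⟨t1, t2, by decide +kernel, by decide +kernel⟩

theorem comp_mem (s : Equiv.Perm (Fin 19))
    (h : ∀ ρ ∈ L0, ∃ ρ' ∈ L0, ∀ i : Fin 19, ρ.testBit (s i) = true → ρ'.testBit i = true)
    {x : Fin 19 → ℂ} (hx : x ∈ VV L0) : x ∘ s ∈ VV L0 := by
  obtain ⟨h1, ρ, hρ, hb⟩ := hx
  obtain ⟨ρ', hρ', hb'⟩ := h ρ hρ
  exact ⟨by rw [← h1]; exact Equiv.sum_comp s x, ρ', hρ', fun i hi => hb' i (hb _ hi)⟩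

def img (s : Fin 19 → Fin 19) (r : ℕ) : ℕ :=
  ((List.finRange 19).map fun i => if r.testBit (s i) then 2 ^ i.1 else 0).sum

theorem inv1 : ∀ ρ ∈ L0, img t1 ρ ∈ L0 ∧
    ∀ i : Fin 19, ρ.testBit (t1 i) = true → (img t1 ρ).testBit i = true := by decide +kernel

theorem inv2 : ∀ ρ ∈ L0, img t2 ρ ∈ L0 ∧
    ∀ i : Fin 19, ρ.testBit (t2 i) = true → (img t2 ρ).testBit i = true := by decide +kernel

theorem tau_mem : tau ∈ Q := by
  refine ⟨rfl, rfl, fun x => ⟨comp_mem tau fun ρ hρ => ⟨_, inv1 ρ hρ⟩, fun hx => ?_⟩⟩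
  have := comp_mem tau⁻¹ (fun ρ hρ => ⟨_, inv2 ρ hρ⟩) hx
  have h : (x ∘ ⇑tau) ∘ ⇑tau⁻¹ = x := by funext i; simp
  rwa [h] at this

theorem fix1 : ∀ ρ ∈ L0, ∀ i : Fin 19, 4 ≤ i.1 → ρ.testBit i = true → ρ.testBit (t1 i) = true →
    ρ.testBit (t1 (t1 i)) = false := by decide +kernel

theorem fix2 : ∀ ρ ∈ L0, ρ.testBit 0 = true →
    ρ.testBit 1 = false ∧ ρ.testBit 2 = false ∧ ρ.testBit 3 = false := by decide +kernel

theorem fixed {x : Fin 19 → ℂ} (hx : x ∈ VV L0) (h : ∀ i, x (t1 i) = x i) :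
    x 1 + x 2 + x 3 = 0 ∨ x 1 + x 2 + x 3 = 1 := by
  obtain ⟨h1, ρ, hρ, hb⟩ := hx
  have h4 : ∀ i : Fin 19, 4 ≤ i.1 → x i = 0 := by
    intro i hi
    by_contra hc
    have := fix1 ρ hρ i hi (hb i hc) (hb _ (by rwa [h]))
    rw [hb _ (by rwa [h, h])] at this
    exact absurd this (by simp)
  by_cases h0 : x 0 = 0
  · right
    rw [← h1, ← Finset.sum_subset (Finset.subset_univ ({1, 2, 3} : Finset (Fin 19)))]
    · rw [Finset.sum_insert (by decide), Finset.sum_insert (by decide), Finset.sum_singleton,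
        add_assoc]
    · intro i _ hi
      by_cases hi0 : i = 0
      · rw [hi0, h0]
      · refine h4 i ?_
        revert i; decide
  · left
    obtain ⟨b1, b2, b3⟩ := fix2 ρ hρ (hb 0 h0)
    have z : ∀ i : Fin 19, ρ.testBit i = false → x i = 0 := fun i hi => by
      by_contra hc
      rw [hb i hc] at hi
      exact absurd hi (by simp)
    rw [z 1 b1, z 2 b2, z 3 b3]; simp

theorem ft : @Algebra.FiniteType ℤ R _ _ (Ring.toIntAlgebra R) := by
  have h : Algebra.FiniteType ℤ R := Algebra.FiniteType.of_surjective (Ideal.Quotient.mkₐ ℤ J)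
    (Ideal.Quotient.mkₐ_surjective ℤ J)
  have e : Ring.toIntAlgebra R = Ideal.instAlgebraQuotient ℤ J := Subsingleton.elim _ _
  rw [e]; exact h

end Top

open Pool.Agent.MP_94b95a_al.Fl.Top in
theorem top_thm (h : TopAStmt) : TopStmt := by
  refine ⟨R, inferInstance, ft, eps, Q, inferInstance, inferInstance, ph,
    Ideal.Quotient.mk J (MvPolynomial.X 1 + MvPolynomial.X 2 + MvPolynomial.X 3),
    pt ⟨_, e1_mem⟩, ?_, contr h, ?_, ?_, ?_, ?_⟩
  · intro q a
    have := pt_ph q ⟨_, e0_mem⟩ (single_comp _ _ q.2.1) a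
    rw [← org_eps] at this
    exact Int.cast_injective (α := ℂ) this
  · show MvPolynomial.eval _ _ = _
    simp
  · rw [pt_mk]; simp [evc]
  · intro q a
    exact pt_ph q ⟨_, e1_mem⟩ (single_comp _ _ q.2.2.1) a
  · intro c hc
    have := fixed (co_mem c) fun i => by
      have := hc ⟨tau, tau_mem⟩ (Ideal.Quotient.mk J (MvPolynomial.X i))
      rw [← this, ph_apply, ph0_mk, MvPolynomial.rename_X]; rfl
    simpa only [map_add] using this

end Pool.Agent.MP_94b95a_al.Fl
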