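import Mathlib.RingTheory.Flat.TorsionFree
import Mathlib.Analysis.Complex.Polynomial.Basic
import Mathlib.RingTheory.SimpleRing.Principal
import Mathlib.RingTheory.TotallySplit
import Pool.Agent.MP_94b95a_al.fl.Fin1
import Mathlib.LinearAlgebra.Eigenspace.Triangularizable
import Mathlib.Data.Multiset.Interval
import Mathlib.Order.CompletePartialOrder
import Pool.Agent.MP_94b95a_al.fl.Nondeg
import Pool.Agent.MP_94b95a_al.fl.NotFlaw
import Pool.Agent.MP_94b95a_al.fl.Gl5
import Pool.Agent.MP_94b95a_al.fl.TopA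
import Pool.Agent.MP_94b95a_al.fl.Top
import Pool.Agent.MP_94b95a_al.fl.Mostow
import Pool.Agent.MP_94b95a_al.fl.Boch
import Pool.Agent.MP_94b95a_al.fl.Gl
import Pool.Agent.MP_94b95a_al.fl.Star

-- ======== part 0: formerly Pool.Agent.MP_94b95a_al.fl.Ph1
section MrgPart0

/-! The radical acts trivially in the full phase. -/

namespace Pool.Agent.MP_94b95a_al.Fl

open NormedSpace Matrix Filter Topology

namespace Ph1

variable {N : ℕ}

/-- The commutator bracket. -/
def br (a b : Mat N) : Mat N := a * b - b * a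

theorem br_skew (a b : Mat N) : br a b = -br b a := by unfold br; abel

theorem jac (a b c : Mat N) : br (br a b) c = br a (br b c) - br b (br a c) := by
  unfold br; noncomm_ring

theorem der (d a b : Mat N) : br d (br a b) = br (br d a) b + br a (br d b) := by
  unfold br; noncomm_ring

theorem br_zero (a : Mat N) : br a 0 = 0 := by simp [br]

theorem zero_br (a : Mat N) : br 0 a = 0 := by simp [br]

theorem br_neg (a b : Mat N) : br a (-b) = -br a b := by unfold br; noncomm_ring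

theorem neg_br (a b : Mat N) : br (-a) b = -br a b := by unfold br; noncomm_ring

theorem br_smul (z : ℂ) (a b : Mat N) : br a (z • b) = z • br a b := by
  simp [br, smul_sub]

theorem br_eq_zero {a b : Mat N} : br a b = 0 ↔ Commute a b := sub_eq_zero

theorem pow_br {a b : Mat N} (h : Commute a (br a b)) (n : ℕ) :
    a ^ (n + 1) * b - b * a ^ (n + 1) = ((n + 1 : ℕ) : ℂ) • (a ^ n * br a b) := by
  induction n with
  | zero => simp [br]
  | succ n ih =>
    have e : a ^ (n + 1 + 1) * b - b * a ^ (n + 1 + 1)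
        = a * (a ^ (n + 1) * b - b * a ^ (n + 1)) + br a b * a ^ (n + 1) := by
      unfold br; rw [pow_succ' a (n + 1)]; noncomm_ring
    rw [e, ih, mul_smul_comm, ← mul_assoc, ← pow_succ', ← (h.pow_left (n + 1)).eq,
      Nat.cast_succ (n + 1), add_smul, one_smul]

theorem jacobson {a b : Mat N} (ha : IsNilpotent a) (h : Commute a (br a b)) :
    IsNilpotent (br a b) := by
  have key : ∀ m : ℕ, (∃ s, a ^ m * br a b ^ s = 0) → IsNilpotent (br a b) := by
    intro m
    induction m with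
    | zero => rintro ⟨s, hs⟩; exact ⟨s, by simpa using hs⟩
    | succ m ih =>
      rintro ⟨s, hs⟩
      refine ih ⟨s + 1 + s, ?_⟩
      have hs' : br a b ^ s * a ^ (m + 1) = 0 := by rw [← (h.pow_pow (m + 1) s).eq, hs]
      have e : br a b ^ s * (a ^ (m + 1) * b - b * a ^ (m + 1)) * br a b ^ s = 0 := by
        rw [mul_sub, sub_mul, ← mul_assoc, hs', mul_assoc _ (b * _), mul_assoc b, hs]; simp
      rw [pow_br h, mul_smul_comm, smul_mul_assoc, smul_eq_zero] at e
      rcases e with e | e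
      · exact absurd e (Nat.cast_ne_zero.mpr m.succ_ne_zero)
      · rw [← e, ← mul_assoc, ← (h.pow_pow m s).eq, pow_add, pow_succ]
        simp only [mul_assoc]
  obtain ⟨n, hn⟩ := ha
  exact key n ⟨0, by simp [hn]⟩

variable {R : Type} [CommRing R] {ν : Fin 5 → Fin 5 → R → Mat N}

theorem leg {i j : Fin 5} (h : i ≠ j) (a : R) : Leg ⊤ i j a := leg_of_mem h trivial

theorem hei (hν : LieFam ⊤ ν) {i j k : Fin 5} (hij : i ≠ j) (hjk : j ≠ k) (hik : i ≠ k)
    (a b : R) : br (ν i j a) (ν j k b) = ν i k (a * b) :=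
  hν.heis i j k a b hik (leg hij a) (leg hjk b)

theorem com (hν : LieFam ⊤ ν) {i j k l : Fin 5} (hij : i ≠ j) (hkl : k ≠ l) (hjk : j ≠ k)
    (hil : i ≠ l) (a b : R) : br (ν i j a) (ν k l b) = 0 :=
  br_eq_zero.mpr (hν.comm i j k l a b hjk hil (leg hij a) (leg hkl b))

/-- The diagonal elements act on root elements by a scalar. -/
def Wt (ν : Fin 5 → Fin 5 → R → Mat N) (p q r s : Fin 5) (κ : ℂ) : Prop :=
  ∀ f g c, br (br (ν p q f) (ν q p g)) (ν r s c) = κ • ν r s (c * f * g)

theorem Wt.symm {p q r s : Fin 5} {κ : ℂ} (h : Wt ν q p r s κ) : Wt ν p q r s (-κ) := by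
  intro f g c
  rw [br_skew (ν p q f), neg_br, h g f c, neg_smul, mul_right_comm]

theorem wtA (hν : LieFam ⊤ ν) {p q s : Fin 5} (hpq : p ≠ q) (hps : p ≠ s) (hqs : q ≠ s) :
    Wt ν p q p s 1 := by
  intro f g c
  rw [jac, hei hν hpq.symm hps hqs, hei hν hpq hqs hps, com hν hpq hps hpq.symm hps, br_zero,
    sub_zero, one_smul]
  congr 1; ring

theorem wtC (hν : LieFam ⊤ ν) {p q r : Fin 5} (hpq : p ≠ q) (hrp : r ≠ p) (hrq : r ≠ q) :
    Wt ν p q r p (-1) := by
  intro f g c
  rw [jac, com hν hpq.symm hrp hrp.symm hpq.symm, br_zero, br_skew (ν p q f),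
    hei hν hrp hpq hrq, br_neg, br_skew (ν q p g), hei hν hrq hpq.symm hrp]
  simp

theorem wtF (hν : LieFam ⊤ ν) {p q : Fin 5} (hpq : p ≠ q) : Wt ν p q p q 2 := by
  intro f g c
  obtain ⟨m, hmp, hmq⟩ : ∃ m : Fin 5, m ≠ p ∧ m ≠ q := by revert p q; decide
  have e := hei hν hmp.symm hmq hpq c 1
  rw [mul_one] at e
  rw [← e, der, wtA hν hpq hmp.symm hmq.symm f g c, (wtC hν hpq.symm hmq hmp).symm f g 1,
    neg_neg, one_smul, one_smul, hei hν hmp.symm hmq hpq, hei hν hmp.symm hmq hpq, two_smul]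
  congr 2 <;> ring

theorem wt_all (hν : LieFam ⊤ ν) {p q r s : Fin 5} (hpq : p ≠ q) (hrs : r ≠ s) :
    ∃ κ, Wt ν p q r s κ := by
  by_cases h1 : r = p
  · subst h1
    by_cases h2 : s = q
    · subst h2; exact ⟨_, wtF hν hpq⟩
    · exact ⟨_, wtA hν hpq hrs (Ne.symm h2)⟩
  by_cases h2 : r = q
  · subst h2
    by_cases h3 : s = p
    · subst h3; exact ⟨_, (wtF hν hrs).symm⟩
    · exact ⟨_, (wtA hν hpq.symm hrs (Ne.symm h3)).symm⟩
  by_cases h3 : s = p
  · subst h3; exact ⟨_, wtC hν hpq h1 h2⟩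
  by_cases h4 : s = q
  · subst h4; exact ⟨_, (wtC hν hpq.symm h2 h1).symm⟩
  refine ⟨0, fun f g c => ?_⟩
  rw [jac, com hν hpq.symm hrs (Ne.symm h1) (Ne.symm h4), com hν hpq hrs (Ne.symm h2) (Ne.symm h3),
    br_zero, br_zero, sub_zero, zero_smul]

/-- Brackets of two root elements. -/
theorem br_cases (hν : LieFam ⊤ ν) {i j k l : Fin 5} (hij : i ≠ j) (hkl : k ≠ l) (a b : R) :
    br (ν i j a) (ν k l b) = 0 ∨ (i ≠ l ∧ br (ν i j a) (ν k l b) = ν i l (a * b)) ∨
      (k ≠ j ∧ br (ν i j a) (ν k l b) = -ν k j (a * b)) ∨ (k = j ∧ l = i) := by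
  by_cases h1 : j = k
  · subst h1
    by_cases h2 : i = l
    · exact Or.inr (Or.inr (Or.inr ⟨rfl, h2.symm⟩))
    · exact Or.inr (Or.inl ⟨h2, hei hν hij hkl h2 a b⟩)
  · by_cases h2 : i = l
    · subst h2
      refine Or.inr (Or.inr (Or.inl ⟨Ne.symm h1, ?_⟩))
      rw [br_skew, hei hν hkl hij (Ne.symm h1), mul_comm]
    · exact Or.inl (com hν hij hkl h1 h2 a b)

end Ph1

open Ph1 in
theorem ph1_thm : Ph1Stmt := by
  intro N R _ J ν hν ⟨K, hK⟩ hM
  have gen : ∀ i j a, i ≠ j → ν i j a ∈ Algebra.adjoin ℂ (gens ⊤ ν) := fun i j a h =>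
    Algebra.subset_adjoin ⟨i, j, a, leg h a, rfl⟩
  have genD : ∀ i j a g, i ≠ j → br (ν i j a) (ν j i g) ∈ Algebra.adjoin ℂ (gens ⊤ ν) :=
    fun i j a g h => Subalgebra.sub_mem _ (Subalgebra.mul_mem _ (gen i j a h) (gen j i g h.symm))
      (Subalgebra.mul_mem _ (gen j i g h.symm) (gen i j a h))
  have step : ∀ k : ℕ, (∀ i j a, i ≠ j → a ∈ J ^ (k + 1 + 1) → ν i j a = 0) →
      ∀ i j a, i ≠ j → a ∈ J ^ (k + 1) → ν i j a = 0 := by
    intro k hk
    have hmul : ∀ a b, a ∈ J ^ (k + 1) → b ∈ J ^ (k + 1) → a * b ∈ J ^ (k + 1 + 1) :=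
      fun a b ha hb => by
        rw [pow_succ]; exact Ideal.mul_mem_mul ha (Ideal.pow_le_self k.succ_ne_zero hb)
    -- a diagonal element with one entry in the ideal kills root elements of the ideal
    have hD : ∀ i j a g r s c, i ≠ j → r ≠ s → c * a * g ∈ J ^ (k + 1 + 1) →
        br (br (ν i j a) (ν j i g)) (ν r s c) = 0 := fun i j a g r s c hij hrs h => by
      obtain ⟨κ, hκ⟩ := wt_all hν hij hrs
      rw [hκ, hk r s _ hrs h, smul_zero]
    have nilD : ∀ i j a g, i ≠ j → a ∈ J ^ (k + 1) → IsNilpotent (br (ν i j a) (ν j i g)) :=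
      fun i j a g hij ha => jacobson (hν.nil i j a (leg hij a)) (br_eq_zero.mp
        (hD i j a g i j a hij hij (Ideal.mul_mem_right _ _ (hmul a a ha ha)))).symm
    have hA : ∀ i j a b, i ≠ j → a ∈ J ^ (k + 1) → b ∈ J ^ (k + 1) →
        br (ν i j a) (ν j i b) = 0 := fun i j a b hij ha hb => by
      refine hM {br (ν i j a) (ν j i b)} ?_ ?_ ?_ ?_ _ rfl
      · rintro _ rfl; exact genD i j a b hij
      · rintro _ rfl; exact nilD i j a b hij ha
      · rintro _ rfl _ rfl; exact Commute.refl _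
      · rintro _ ⟨r, s, c, hc, rfl⟩ _ rfl
        change br _ _ ∈ _
        rw [br_skew (ν r s c), hD i j a b r s c hij hc.1 (by
          rw [mul_assoc]; exact Ideal.mul_mem_left _ _ (hmul a b ha hb)), neg_zero]
        exact Submodule.zero_mem _
    let M : Set (Mat N) := {m | ∃ i j a, i ≠ j ∧ a ∈ J ^ (k + 1) ∧ m = ν i j a} ∪
      {m | ∃ i j a g, i ≠ j ∧ a ∈ J ^ (k + 1) ∧ m = br (ν i j a) (ν j i g)}
    intro i j a hij ha
    refine hM M ?_ ?_ ?_ ?_ _ (Or.inl ⟨i, j, a, hij, ha, rfl⟩)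
    · rintro _ (⟨p, q, b, h, -, rfl⟩ | ⟨p, q, b, g, h, -, rfl⟩)
      exacts [gen p q b h, genD p q b g h]
    · rintro _ (⟨p, q, b, h, -, rfl⟩ | ⟨p, q, b, g, h, hb, rfl⟩)
      exacts [hν.nil p q b (leg h b), nilD p q b g h hb]
    · have hDν : ∀ p q b g r s c, p ≠ q → r ≠ s → b ∈ J ^ (k + 1) → c ∈ J ^ (k + 1) →
          br (br (ν p q b) (ν q p g)) (ν r s c) = 0 := fun p q b g r s c h h' hb hc =>
        hD p q b g r s c h h' (Ideal.mul_mem_right _ _ (hmul c b hc hb))
      rintro _ (⟨p, q, b, h, hb, rfl⟩ | ⟨p, q, b, g, h, hb, rfl⟩)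
        _ (⟨r, s, c, h', hc, rfl⟩ | ⟨r, s, c, g', h', hc, rfl⟩)
      · rw [← br_eq_zero]
        rcases br_cases hν h h' b c with e | ⟨h1, e⟩ | ⟨h1, e⟩ | ⟨rfl, rfl⟩
        · exact e
        · rw [e, hk _ _ _ h1 (hmul b c hb hc)]
        · rw [e, hk _ _ _ h1 (hmul b c hb hc), neg_zero]
        · exact hA _ _ b c h hb hc
      · exact (br_eq_zero.mp (hDν r s c g' p q b h' h hc hb)).symm
      · exact br_eq_zero.mp (hDν p q b g r s c h h' hb hc)
      · obtain ⟨κ, hκ⟩ := wt_all hν h h'.symm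
        rw [← br_eq_zero, der, hDν p q b g r s c h h' hb hc, zero_br, zero_add, hκ, br_smul,
          hA r s c _ h' hc (Ideal.mul_mem_right _ _ (Ideal.mul_mem_left _ _ hb)), smul_zero]
    · rintro _ ⟨r, s, c, hc, rfl⟩ _ (⟨p, q, b, h, hb, rfl⟩ | ⟨p, q, b, g, h, hb, rfl⟩)
      · change br _ _ ∈ _
        rw [br_skew]
        apply Submodule.neg_mem
        rcases br_cases hν h hc.1 b c with e | ⟨h1, e⟩ | ⟨h1, e⟩ | ⟨rfl, rfl⟩
        · rw [e]; exact Submodule.zero_mem _
        · rw [e]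
          exact Submodule.subset_span (Or.inl ⟨_, _, _, h1, Ideal.mul_mem_right _ _ hb, rfl⟩)
        · rw [e]
          exact Submodule.neg_mem _
            (Submodule.subset_span (Or.inl ⟨_, _, _, h1, Ideal.mul_mem_right _ _ hb, rfl⟩))
        · exact Submodule.subset_span (Or.inr ⟨_, _, b, c, h, hb, rfl⟩)
      · change br _ _ ∈ _
        obtain ⟨κ, hκ⟩ := wt_all hν h hc.1
        rw [br_skew, hκ]
        exact Submodule.neg_mem _ (Submodule.smul_mem _ _ (Submodule.subset_span (Or.inl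
          ⟨_, _, _, hc.1, Ideal.mul_mem_right _ _ (Ideal.mul_mem_left _ _ hb), rfl⟩)))
  have all : ∀ n : ℕ, (∀ i j a, i ≠ j → a ∈ J ^ (n + 1) → ν i j a = 0) →
      ∀ i j a, i ≠ j → a ∈ J → ν i j a = 0 := by
    intro n
    induction n with
    | zero => intro h i j a hij ha; exact h i j a hij (by simpa using ha)
    | succ n ih => exact fun h => ih (step n h)
  exact all K fun i j a hij ha => hK i j a hij (Ideal.pow_le_pow_right K.le_succ ha)

end Pool.Agent.MP_94b95a_al.Fl

end MrgPart0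

-- ======== part 1: formerly Pool.Agent.MP_94b95a_al.fl.All
section MrgPart1

-- ======== part 0: formerly Pool.Agent.MP_94b95a_al.fl.Act
section MrgPart0

/-! PROJECT FLAW: the action on the Steinberg group. -/

namespace Pool.Agent.MP_94b95a_al.Fl

theorem act_thm : ActStmt := by
  intro R _ ε Q _ φ hφ
  have hleg : ∀ q i j a, Leg (RingHom.ker ε) i j (φ q a) ↔ Leg (RingHom.ker ε) i j a := by
    intro q i j a
    unfold Leg sig
    split_ifs <;> simp [RingHom.mem_ker, hφ]
  have hfam : ∀ q, StFam (RingHom.ker ε) (fun i j a => X (RingHom.ker ε) i j (φ q a)) := by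
    intro q
    refine ⟨fun i j a b ha hb => ?_, fun i j k a b hik ha hb => ?_,
      fun i j k l a b h1 h2 ha hb => ?_⟩
    · rw [map_add]
      exact (stFam_X _).add i j _ _ ((hleg q i j a).2 ha) ((hleg q i j b).2 hb)
    · rw [map_mul]
      exact (stFam_X _).heis i j k _ _ hik ((hleg q i j a).2 ha) ((hleg q j k b).2 hb)
    · exact (stFam_X _).comm i j k l _ _ h1 h2 ((hleg q i j a).2 ha) ((hleg q k l b).2 hb)
  choose f hf using fun q => exists_lift (hfam q)
  have hf' : ∀ q i j a, f q (X (RingHom.ker ε) i j a) = X (RingHom.ker ε) i j (φ q a) := by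
    intro q i j a
    by_cases h : Leg (RingHom.ker ε) i j a
    · exact hf q i j a h
    · rw [X_of_not_leg _ h, X_of_not_leg _ (mt (hleg q i j a).1 h), map_one]
  have hmul : ∀ q q', (f q).comp (f q') = f (q * q') := fun q q' =>
    hom_ext fun i j a _ => by simp [hf']
  have h1 : f 1 = MonoidHom.id _ := hom_ext fun i j a _ => by simp [hf']
  refine ⟨MonoidHom.mk' (fun q => MonoidHom.toMulEquiv (f q) (f q⁻¹)
    (by rw [hmul, inv_mul_cancel, h1]) (by rw [hmul, mul_inv_cancel, h1])) fun q q' => ?_,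
    fun q i j a => hf' q i j a⟩
  ext g
  exact (DFunLike.congr_fun (hmul q q') g).symm

end Pool.Agent.MP_94b95a_al.Fl

end MrgPart0

-- ======== part 1: formerly Pool.Agent.MP_94b95a_al.fl.Fp
section MrgPart1

/-! PROJECT FLAW: finite presentation for finitely generated rings. -/

namespace Pool.Agent.MP_94b95a_al.Fl

open StLem MvPolynomial

theorem fp_thm (hA : FpAStmt) : FpStmt := by
  intro R _ _ ε
  obtain ⟨m, π0, hπ0⟩ := Algebra.FiniteType.iff_quotient_mvPolynomial''.1
    (inferInstance : Algebra.FiniteType ℤ R)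
  let πa : MvPolynomial (Fin m) ℤ →ₐ[ℤ] R :=
    aeval fun i => π0 (MvPolynomial.X i) - (ε (π0 (MvPolynomial.X i)) : R)
  have hsur : Function.Surjective πa := by
    intro r
    obtain ⟨f, rfl⟩ := hπ0 r
    change π0 f ∈ πa.range
    induction f using MvPolynomial.induction_on with
    | C a => rw [algHom_C]; exact Subalgebra.algebraMap_mem _ _
    | add f g hf hg => rw [map_add]; exact add_mem hf hg
    | mul_X f i hf =>
      rw [map_mul]
      refine mul_mem hf ?_
      have h1 : πa (MvPolynomial.X i) ∈ πa.range := ⟨_, rfl⟩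
      have h2 := add_mem h1 (intCast_mem πa.range (ε (π0 (MvPolynomial.X i))))
      simpa [πa] using h2
  let π : MvPolynomial (Fin m) ℤ →+* R := πa
  have hε : ε.comp π = constantCoeff := by
    apply MvPolynomial.ringHom_ext
    · intro r; simp
    · intro i; simp [π, πa]
  set I0 := RingHom.ker (constantCoeff : MvPolynomial (Fin m) ℤ →+* ℤ) with hI0
  have hI : ∀ a, π a ∈ RingHom.ker ε ↔ a ∈ I0 := fun a => by
    rw [hI0, RingHom.mem_ker, RingHom.mem_ker, ← hε, RingHom.comp_apply]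
  have hfam : StFam I0 (fun i j a => X (RingHom.ker ε) i j (π a)) := by
    refine ⟨fun i j a b ha hb => ?_, fun i j k a b hik ha hb => ?_,
      fun i j k l a b h1 h2 ha hb => ?_⟩
    · rw [map_add]
      exact (stFam_X _).add i j _ _ ((leg_iff π hI i j a).2 ha) ((leg_iff π hI i j b).2 hb)
    · rw [map_mul]
      exact (stFam_X _).heis i j k _ _ hik ((leg_iff π hI i j a).2 ha) ((leg_iff π hI j k b).2 hb)
    · exact (stFam_X _).comm i j k l _ _ h1 h2 ((leg_iff π hI i j a).2 ha)
        ((leg_iff π hI k l b).2 hb)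
  obtain ⟨f, hf⟩ := exists_lift hfam
  have hfs : Function.Surjective f := by
    rw [← MonoidHom.range_eq_top, eq_top_iff, ← closure_gens_X, Subgroup.closure_le]
    rintro _ ⟨i, j, b, hb, rfl⟩
    obtain ⟨a, rfl⟩ : ∃ a, π a = b := hsur b
    exact ⟨_, hf i j a ((leg_iff π hI i j a).1 hb)⟩
  obtain ⟨S, hS⟩ : (RingHom.ker π).FG := IsNoetherian.noetherian _
  have hSI : ∀ a, π a = 0 → a ∈ I0 := fun a h => (hI a).1 (h ▸ Ideal.zero_mem _)
  have hS0 : ∀ a ∈ S, π a = 0 := fun a h => by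
    rw [← RingHom.mem_ker, ← hS]; exact Ideal.subset_span h
  let T : Set (St I0) := (fun p : Fin 5 × Fin 5 × MvPolynomial (Fin m) ℤ => X I0 p.1 p.2.1 p.2.2) ''
    (Set.univ ×ˢ Set.univ ×ˢ (S : Set _))
  have := hA m
  refine Group.IsFinitelyPresented.of_surjective f hfs
    ⟨T, (Set.finite_univ.prod (Set.finite_univ.prod S.finite_toSet)).image _, ?_⟩
  set N := Subgroup.normalClosure T with hN
  apply le_antisymm
  · apply Subgroup.normalClosure_le_normal
    rintro _ ⟨⟨i, j, a⟩, ⟨-, -, ha⟩, rfl⟩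
    change f (X I0 i j a) = 1
    by_cases h : i = j
    · rw [X_of_not_leg _ fun h' => h'.1 h, map_one]
    · rw [hf i j a (leg_of_mem h (hSI a (hS0 a ha))), hS0 a ha, (stFam_X _).zero h]
  · have hy := (stFam_X I0).map (QuotientGroup.mk' N)
    have hle : RingHom.ker π ≤ kerId hy (ker_int _) := by
      rw [← hS, Ideal.span_le]
      intro a ha
      exact ⟨hSI a (hS0 a ha), fun i j _ => (QuotientGroup.eq_one_iff _).2
        (Subgroup.subset_normalClosure ⟨(i, j, a), ⟨trivial, trivial, ha⟩, rfl⟩)⟩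
    obtain ⟨z, hz, hz'⟩ := descend hy π hsur hI fun a ha => (hle ha).2
    obtain ⟨g, hg⟩ := exists_lift hz
    have hc : g.comp f = QuotientGroup.mk' N := hom_ext fun i j a ha => by
      rw [MonoidHom.comp_apply, hf i j a ha, hg i j _ ((leg_iff π hI i j a).2 ha), hz' i j a ha]
    intro t ht
    rw [← QuotientGroup.eq_one_iff, ← QuotientGroup.mk'_apply, ← hc, MonoidHom.comp_apply,
      (MonoidHom.mem_ker).1 ht, map_one]

end Pool.Agent.MP_94b95a_al.Fl

end MrgPart1

-- ======== part 2: formerly Pool.Agent.MP_94b95a_al.fl.Semi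
section MrgPart2

/-! PROJECT FLAW: semidirect products with finite groups are finitely presented. -/

namespace Pool.Agent.MP_94b95a_al.Fl

open Monoid

theorem semi_thm : SemiStmt := by
  intro Γ Q _ _ _ ψ hΓ
  obtain ⟨n, φ, hφ, -⟩ := hΓ.out
  let π : Coprod Γ Q →* Γ ⋊[ψ] Q := Coprod.lift SemidirectProduct.inl SemidirectProduct.inr
  have hπ : Function.Surjective π := by
    intro g
    refine ⟨Coprod.inl g.left * Coprod.inr g.right, ?_⟩
    simp [π]
  let S : Set (Coprod Γ Q) := Set.range fun p : Q × Fin n =>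
    Coprod.inr p.1 * Coprod.inl (φ (FreeGroup.of p.2)) * (Coprod.inr p.1)⁻¹ *
      (Coprod.inl (ψ p.1 (φ (FreeGroup.of p.2))))⁻¹
  refine Group.IsFinitelyPresented.of_surjective π hπ ⟨S, Set.finite_range _, ?_⟩
  set N := Subgroup.normalClosure S with hN
  apply le_antisymm
  · apply Subgroup.normalClosure_le_normal
    rintro _ ⟨p, rfl⟩
    simp [π, MonoidHom.mem_ker, SemidirectProduct.inl_aut]
  · let a : Γ →* Coprod Γ Q ⧸ N := (QuotientGroup.mk' N).comp Coprod.inl
    let b : Q →* Coprod Γ Q ⧸ N := (QuotientGroup.mk' N).comp Coprod.inr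
    have hab : ∀ q, a.comp (ψ q).toMonoidHom = (MulAut.conj (b q)).toMonoidHom.comp a := by
      intro q
      rw [← MonoidHom.cancel_right hφ]
      ext i
      have h : (QuotientGroup.mk' N) (Coprod.inr q * Coprod.inl (φ (FreeGroup.of i)) *
          (Coprod.inr q)⁻¹ * (Coprod.inl (ψ q (φ (FreeGroup.of i))))⁻¹) = 1 :=
        (QuotientGroup.eq_one_iff _).2 (Subgroup.subset_normalClosure ⟨(q, i), rfl⟩)
      rw [map_mul, map_mul, map_mul, map_inv, map_inv, mul_inv_eq_one] at h
      exact h.symm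
    have hc : (SemidirectProduct.lift a b hab).comp π = QuotientGroup.mk' N := by
      ext x <;> simp [π, a, b]
    intro g hg
    rw [← QuotientGroup.eq_one_iff, ← QuotientGroup.mk'_apply, ← hc, MonoidHom.comp_apply,
      (MonoidHom.mem_ker).1 hg, map_one]

end Pool.Agent.MP_94b95a_al.Fl

end MrgPart2

-- ======== part 3: formerly Pool.Agent.MP_94b95a_al.fl.Lam
section MrgPart3

/-! Existence of the scaling function. -/

namespace Pool.Agent.MP_94b95a_al.Fl

open NormedSpace Matrix Filter Topology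

namespace Lam

theorem cont_ev {R : Type} [CommRing R] (a : R) : Continuous fun c : Pt R => c a :=
  (continuous_apply a).comp continuous_induced_dom

theorem eq_org {R : Type} [CommRing R] {ε : R →+* ℤ} {c : Pt R}
    (h : ∀ b ∈ RingHom.ker ε, c b = 0) : c = org ε := by
  refine RingHom.ext fun a => ?_
  have hb : a - (ε a : R) ∈ RingHom.ker ε := by simp [RingHom.mem_ker]
  have h2 := h _ hb
  rw [map_sub, map_intCast, sub_eq_zero] at h2
  rw [h2]; simp [org]

end Lam

theorem lam_thm : LamStmt := by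
  intro R _ _ ε
  have : IsNoetherianRing R := Algebra.FiniteType.isNoetherianRing ℤ R
  obtain ⟨S, hS⟩ : (RingHom.ker ε).FG := IsNoetherian.noetherian _
  let m : Pt R → ℝ := fun c => ∑ t ∈ S, ‖c t‖
  have hm0 : ∀ c, 0 ≤ m c := fun c => Finset.sum_nonneg fun _ _ => norm_nonneg _
  have hmc : Continuous m := continuous_finsetSum _ fun t _ => (Lam.cont_ev t).norm
  let lam : Pt R → ℝ := fun c => m c ^ ((5 : ℕ)⁻¹ : ℝ)
  have hl0 : ∀ c, 0 ≤ lam c := fun c => Real.rpow_nonneg (hm0 c) _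
  have hl5 : ∀ c, lam c ^ 5 = m c := fun c => Real.rpow_inv_natCast_pow (hm0 c) (by norm_num)
  have hlc : Continuous lam := hmc.rpow_const fun _ => Or.inr (by positivity)
  have hbd : ∀ a ∈ RingHom.ker ε, ∃ B : Pt R → ℝ, Continuous B ∧ ∀ c, ‖c a‖ ≤ B c * m c := by
    intro a ha
    rw [← hS] at ha
    obtain ⟨r, -, hr⟩ := Submodule.mem_span_finset.mp ha
    refine ⟨fun c => ∑ t ∈ S, ‖c (r t)‖,
      continuous_finsetSum _ fun t _ => (Lam.cont_ev _).norm, fun c => ?_⟩
    rw [← hr, map_sum, Finset.sum_mul]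
    refine (norm_sum_le _ _).trans (Finset.sum_le_sum fun t ht => ?_)
    rw [smul_eq_mul, map_mul, norm_mul]
    exact mul_le_mul_of_nonneg_left
      (Finset.single_le_sum (f := fun t => ‖c t‖) (fun _ _ => norm_nonneg _) ht) (norm_nonneg _)
  have hz : lam (org ε) = 0 := by
    have : m (org ε) = 0 := by
      refine Finset.sum_eq_zero fun t ht => ?_
      have h1 : t ∈ RingHom.ker ε := hS ▸ Ideal.subset_span ht
      rw [RingHom.mem_ker] at h1
      simp [org, h1]
    simp only [lam, this]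
    exact Real.zero_rpow (by positivity)
  have hpos : ∀ c, c ≠ org ε → 0 < lam c := by
    intro c hc
    refine lt_of_le_of_ne (hl0 c) fun h0 => hc (Lam.eq_org fun b hb => ?_)
    obtain ⟨B, -, hB⟩ := hbd b hb
    have h1 := hB c
    rw [← hl5, ← h0] at h1
    simpa using h1
  refine ⟨lam, hpos, hz, fun i j a ha => ?_⟩
  have hcc : Continuous fun c => (lam c : ℂ) := Complex.continuous_ofReal.comp hlc
  unfold wt
  by_cases hij : i < j
  · obtain ⟨n, hn⟩ : ∃ n : ℕ, (j : ℤ) - (i : ℤ) = n :=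
      ⟨(j : ℕ) - (i : ℕ), by have : (i : ℕ) < j := hij; omega⟩
    simp only [hn, zpow_natCast]
    exact (hcc.pow n).mul (Lam.cont_ev a)
  · have haI : a ∈ RingHom.ker ε := by
      have := ha.2; unfold sig at this; rwa [if_neg hij] at this
    have hji : (j : ℕ) < i := by
      have h1 : ¬ (i : ℕ) < j := hij
      have h2 : (i : ℕ) ≠ j := fun h => ha.1 (Fin.ext h)
      omega
    obtain ⟨n, k, hn, hn0, hk⟩ : ∃ n k : ℕ, (j : ℤ) - (i : ℤ) = -(n : ℤ) ∧ n ≠ 0 ∧ n + (k + 1) = 5 :=
      ⟨(i : ℕ) - (j : ℕ), 4 - ((i : ℕ) - (j : ℕ)), by omega, by omega, by have := i.2; omega⟩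
    simp only [hn, _root_.zpow_neg, zpow_natCast]
    rw [continuous_iff_continuousAt]
    intro c
    by_cases hc : c = org ε
    · obtain ⟨B, hBc, hB⟩ := hbd a haI
      subst hc
      have h0 : ((lam (org ε) : ℂ) ^ n)⁻¹ * (org ε) a = 0 := by
        rw [hz]; simp [hn0]
      rw [ContinuousAt, h0]
      have h1 : Tendsto (fun c => B c * lam c ^ (k + 1)) (𝓝 (org ε)) (𝓝 0) := by
        have h5 : Continuous fun c => B c * lam c ^ (k + 1) := hBc.mul (hlc.pow (k + 1))
        have := h5.tendsto (org ε)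
        simpa [hz] using this
      refine squeeze_zero_norm (fun c => ?_) h1
      rw [norm_mul, norm_inv, norm_pow, Complex.norm_real, Real.norm_of_nonneg (hl0 c)]
      have h2 := hB c
      rw [← hl5, ← hk, pow_add] at h2
      rcases (hl0 c).eq_or_lt with h3 | h3
      · rw [← h3]; simp [hn0]
      · rw [inv_mul_le_iff₀ (pow_pos h3 n)]
        calc ‖c a‖ ≤ _ := h2
          _ = _ := by ring
    · have h1 : (lam c : ℂ) ^ n ≠ 0 := pow_ne_zero _ (by exact_mod_cast (hpos c hc).ne')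
      exact (((hcc.pow n).continuousAt).inv₀ h1).mul (Lam.cont_ev a).continuousAt

end Pool.Agent.MP_94b95a_al.Fl

end MrgPart3

-- ======== part 4: formerly Pool.Agent.MP_94b95a_al.fl.ExpFam
section MrgPart4

/-! Exponentiating a nilpotent Steinberg family. -/

namespace Pool.Agent.MP_94b95a_al.Fl

open NormedSpace Matrix JA
open scoped commutatorElement

namespace ExpFam

variable {N : ℕ}

theorem heis {x y z : Mat N} (hx : IsNilpotent x) (hxz : Commute x z) (hyz : Commute y z)
    (h : x * y - y * x = z) : ⁅expU x, expU y⁆ = expU z := by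
  have h1 : (expU x : Mat N) * y * (((expU x)⁻¹ : GLN N) : Mat N) = z + y := by
    rw [expU_val, expU_inv, sub_eq_iff_eq_add.1 (der_exp hx hxz h), hxz.exp_left.eq, ← add_mul,
      mul_assoc, exp_mul_neg, mul_one]
  have h2 := Matrix.exp_units_conj (expU x) y
  rw [h1, exp_add' hyz.symm] at h2
  rw [commutatorElement_def, mul_inv_eq_iff_eq_mul]
  exact Units.ext h2.symm

end ExpFam

theorem expFam_thm : ExpFamStmt := by
  intro N R _ I ν h
  refine ⟨fun i j a => expU (ν i j a), ⟨?_, ?_, ?_⟩, fun _ _ _ => rfl⟩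
  · intro i j a b ha hb
    refine Units.ext ?_
    rw [Units.val_mul, expU_val, expU_val, expU_val, h.add i j a b ha hb,
      exp_add' (h.comm i j i j a b ha.1.symm ha.1 ha hb)]
  · intro i j k a b hik ha hb
    exact ExpFam.heis (h.nil i j a ha) (h.comm i j i k _ _ ha.1.symm hik ha (ha.mul hik hb))
      (h.comm j k i k _ _ hik.symm hb.1 hb (ha.mul hik hb)) (h.heis i j k a b hik ha hb)
  · intro i j k l a b h1 h2 ha hb
    exact Units.ext (h.comm i j k l a b h1 h2 ha hb).exp

end Pool.Agent.MP_94b95a_al.Fl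

end MrgPart4

-- ======== part 5: formerly Pool.Agent.MP_94b95a_al.fl.Log
section MrgPart5

/-! The logarithm of unipotent matrices. -/

namespace Pool.Agent.MP_94b95a_al.Fl

open NormedSpace Matrix Polynomial JA
open scoped Nat

namespace Log

theorem inv (r : ℂ[X]) (n : ℕ) : ∃ s : ℂ[X], Polynomial.X ^ (n + 2) ∣
    (Polynomial.X + Polynomial.X ^ 2 * s).comp (Polynomial.X + Polynomial.X ^ 2 * r) -
      Polynomial.X := by
  induction n with
  | zero => exact ⟨0, r, by simp⟩
  | succ n ih =>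
    obtain ⟨s, t, ht⟩ := ih
    obtain ⟨t', h1⟩ : Polynomial.X ∣ t - C (t.coeff 0) := by simp [X_dvd_iff]
    obtain ⟨w, h2⟩ : Polynomial.X ∣ (1 + Polynomial.X * r) ^ (n + 2) - 1 := by
      simp [X_dvd_iff, coeff_zero_eq_eval_zero]
    refine ⟨s - C (t.coeff 0) * Polynomial.X ^ n, t' - C (t.coeff 0) * w, ?_⟩
    simp only [add_comp, mul_comp, sub_comp, X_comp, pow_comp, C_comp] at ht ⊢
    have e : (Polynomial.X + Polynomial.X ^ 2 * r) ^ (n + 2) =
        Polynomial.X ^ (n + 2) * (1 + Polynomial.X * r) ^ (n + 2) := by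
      rw [← mul_pow]; congr 1; ring
    linear_combination ht + Polynomial.X ^ (n + 2) * h1 - C (t.coeff 0) * e -
      C (t.coeff 0) * Polynomial.X ^ (n + 2) * h2

variable {N : ℕ}

theorem nil {ν : Mat N} (h : IsNilpotent ν) (s : ℂ[X]) :
    IsNilpotent (aeval ν (Polynomial.X + Polynomial.X ^ 2 * s)) := by
  refine ⟨N, ?_⟩
  rw [← map_pow, show Polynomial.X + Polynomial.X ^ 2 * s =
    Polynomial.X * (1 + Polynomial.X * s) by ring, mul_pow, map_mul, map_pow, aeval_X, nil_pow h,
    zero_mul]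

theorem left {ν : Mat N} (h : IsNilpotent ν) {p q : ℂ[X]}
    (hd : Polynomial.X ^ (N + 2) ∣ q.comp p - Polynomial.X) : aeval (aeval ν p) q = ν := by
  obtain ⟨t, ht⟩ := hd
  have := congrArg (aeval ν) ht
  rwa [map_mul, map_pow, aeval_X, pow_add, nil_pow h, zero_mul, zero_mul, map_sub, aeval_X,
    sub_eq_zero, aeval_comp] at this

theorem exp_eq (N : ℕ) : ∃ r : ℂ[X], ∀ ν : Mat N, IsNilpotent ν →
    exp ν = 1 + aeval ν (Polynomial.X + Polynomial.X ^ 2 * r) := by
  refine ⟨∑ k ∈ Finset.range N, C ((k + 2)!⁻¹ : ℂ) * Polynomial.X ^ k, fun ν h => ?_⟩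
  rw [exp_sum (pow_eq_zero_of_le (Nat.le_add_right N 2) (nil_pow h)), Finset.sum_range_succ',
    Finset.sum_range_succ', map_add, Finset.mul_sum, map_sum]
  simp only [zero_add, Nat.factorial_one, Nat.factorial_zero, Nat.cast_one, inv_one, one_smul,
    pow_one, pow_zero, aeval_X]
  rw [add_comm _ (1 : Mat N), add_comm _ ν]
  congr 2
  refine Finset.sum_congr rfl fun k _ => ?_
  rw [mul_left_comm, ← pow_add, map_mul, aeval_C, map_pow, aeval_X, ← Algebra.smul_def, add_comm 2]

end Log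

theorem log_thm : LogStmt := by
  intro N
  obtain ⟨r, hr⟩ := Log.exp_eq N
  obtain ⟨s, hs⟩ := Log.inv r N
  obtain ⟨s', hs'⟩ := Log.inv s N
  refine ⟨(Polynomial.X + Polynomial.X ^ 2 * s).comp (Polynomial.X - 1), fun ν h => ?_,
    fun u h => ?_⟩
  · rw [aeval_comp, map_sub, aeval_X, map_one, hr ν h, add_sub_cancel_left, Log.left h hs]
  · rw [aeval_comp, map_sub, aeval_X, map_one]
    have h1 := Log.nil h s
    refine ⟨h1, ?_⟩
    have h2 := Log.left (Log.nil h1 r) hs'
    rw [Log.left h1 hs, Log.left h hs'] at h2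
    rw [hr _ h1, ← h2, add_sub_cancel]

end Pool.Agent.MP_94b95a_al.Fl

end MrgPart5

-- ======== part 6: formerly Pool.Agent.MP_94b95a_al.fl.Jun
section MrgPart6

/-! Uniqueness of the complete Jordan decomposition. -/

namespace Pool.Agent.MP_94b95a_al.Fl

open NormedSpace Matrix Filter Topology JA
open scoped Matrix.Norms.Operator

namespace Jun

variable {N : ℕ}

theorem re_le {A : Mat N} {c : ℂ} (h : c ∈ spectrum ℂ A) {K : ℝ}
    (hK : ∀ k : ℕ, ‖exp ((k : ℂ) • A)‖ ≤ K) : c.re ≤ 0 :=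
  Real.exp_le_one_iff.1 (spec_le h (K := K) zero_le_one fun k => by simpa using hK k)

theorem im_zero {A : Mat N} (hA : Hyp A) {c : ℂ} (h : c ∈ spectrum ℂ A) : c.im = 0 := by
  obtain ⟨K, hK⟩ := bdd_range.1 hA
  have h1 := re_le (spec_smul h Complex.I) fun k => by
    simpa only [smul_smul, mul_comm Complex.I, Complex.ofReal_natCast] using hK k
  have h2 := re_le (spec_smul h (-Complex.I)) fun k => by
    simpa only [smul_smul, mul_comm Complex.I, Complex.ofReal_natCast, Complex.ofReal_neg, mul_neg,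
      neg_mul] using hK (-k)
  simp at h1 h2
  linarith

theorem one {E : GLN N} {B n : Mat N} (H : JD 1 E B n) : E = 1 ∧ B = 0 ∧ n = 0 := by
  obtain ⟨K, hK⟩ := bdd_range.1 H.ell
  have h1 : E = expU (-(B + n)) := by
    have := H.eq
    rw [mul_assoc, ← exp_add' H.Aν] at this
    exact (eq_inv_of_mul_eq_one_left (b := expU (B + n)) (Units.ext this.symm)).trans
      (Units.ext rfl)
  have h2 : ∀ k : ℕ, ‖exp ((k : ℂ) • (B + n))‖ ≤ K := fun k => by
    have := hK (-k)
    rwa [h1, ← _root_.inv_zpow', zpow_natCast, Units.val_pow_eq_pow_val, expU_inv, neg_neg,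
      ← Matrix.exp_nsmul, ← Nat.cast_smul_eq_nsmul ℂ] at this
  have h3 : ∀ k : ℕ, ‖exp ((k : ℂ) • (-1 : ℂ) • (B + n))‖ ≤ K := fun k => by
    have := hK k
    rwa [h1, zpow_natCast, Units.val_pow_eq_pow_val, expU_val,
      ← Matrix.exp_nsmul, ← Nat.cast_smul_eq_nsmul ℂ, ← neg_one_smul ℂ (B + n)] at this
  have h4 : IsNilpotent B := nil_of_spec fun c hc => by
    have h5 := spec_add H.nil H.Aν.symm hc
    have h6 := re_le h5 h2
    have h7 := re_le (spec_smul h5 (-1)) h3
    simp at h7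
    exact Complex.ext (le_antisymm h6 h7) (im_zero H.hyp hc)
  obtain ⟨L, hL⟩ := bdd_range.1 H.hyp
  have h5 : B = 0 := (smul_eq_zero.1 (nil_bdd (h4.smul Complex.I) fun k => by
    simpa only [smul_smul, mul_comm Complex.I, Complex.ofReal_natCast] using hL k)).resolve_left
      Complex.I_ne_zero
  rw [h5, zero_add] at h1 h2
  have h6 := nil_bdd H.nil h2
  refine ⟨Units.ext ?_, h5, h6⟩
  rw [h1, h6, expU_val, neg_zero, exp_zero, Units.val_one]

theorem jd_inv (he : EllStmt) {g e : GLN N} {A ν : Mat N} (H : JD g e A ν) :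
    JD g⁻¹ e⁻¹ (-A) (-ν) := by
  refine ⟨?_, he.ell_inv N e H.ell, by simpa using he.hyp_smul N A (-1) H.hyp, H.nil.neg,
    H.eA.units_inv_left.neg_right, H.eν.units_inv_left.neg_right, H.Aν.neg_left.neg_right⟩
  refine Units.inv_eq_of_mul_eq_one_right ?_
  rw [H.eq]
  simp only [mul_assoc]
  rw [← H.eν.units_inv_left.exp_right.left_comm, ← H.eA.units_inv_left.exp_right.left_comm,
    Units.mul_inv_cancel_left, ← H.Aν.neg_left.exp.left_comm, exp_mul_neg, mul_one, exp_mul_neg]

theorem comm {g e : GLN N} {A ν : Mat N} (H : JD g e A ν) :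
    Commute (g : Mat N) e ∧ Commute (g : Mat N) A ∧ Commute (g : Mat N) ν := by
  rw [H.eq]
  exact ⟨((Commute.refl _).mul_left H.eA.symm.exp_left).mul_left H.eν.symm.exp_left,
    (H.eA.mul_left (Commute.refl _).exp_left).mul_left H.Aν.symm.exp_left,
    (H.eν.mul_left H.Aν.exp_left).mul_left (Commute.refl _).exp_left⟩

end Jun

theorem jun_thm (hj : JexStmt) (he : EllStmt) : JunStmt := by
  intro N g
  obtain ⟨e₀, A₀, ν₀, H₀, h1, h2, h3, -⟩ := hj N g
  have key : ∀ (e : GLN N) (A ν : Mat N), JD g e A ν → e = e₀ ∧ A = A₀ ∧ ν = ν₀ := by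
    intro e A ν H
    obtain ⟨c1, c2, c3⟩ := Jun.comm H
    have h := he.jd_mul N _ _ _ _ _ _ _ _ (Jun.jd_inv he H₀) H (by
      simp only [Set.mem_insert_iff, Set.mem_singleton_iff, forall_eq_or_imp, forall_eq]
      exact ⟨⟨(comm_adj h1 c1).units_inv_left, (comm_adj h1 c2).units_inv_left,
        (comm_adj h1 c3).units_inv_left⟩, ⟨(comm_adj h2 c1).neg_left, (comm_adj h2 c2).neg_left,
        (comm_adj h2 c3).neg_left⟩, (comm_adj h3 c1).neg_left, (comm_adj h3 c2).neg_left,
        (comm_adj h3 c3).neg_left⟩)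
    rw [inv_mul_cancel] at h
    obtain ⟨a, b, c⟩ := Jun.one h
    exact ⟨(inv_mul_eq_one.1 a).symm, (neg_add_eq_zero.1 b).symm, (neg_add_eq_zero.1 c).symm⟩
  intro e e' A ν A' ν' H H'
  obtain ⟨rfl, rfl, rfl⟩ := key _ _ _ H
  obtain ⟨rfl, rfl, rfl⟩ := key _ _ _ H'
  exact ⟨rfl, rfl, rfl⟩

end Pool.Agent.MP_94b95a_al.Fl

end MrgPart6

-- ======== part 7: formerly Pool.Agent.MP_94b95a_al.fl.Pol
section MrgPart7

/-! The polar decomposition in a self adjoint group. -/

namespace Pool.Agent.MP_94b95a_al.Fl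

open NormedSpace Matrix JA
open scoped ComplexOrder

namespace Pol

variable {N : ℕ}

theorem log {p : Mat N} (hp : p.PosDef) : ∃ A : Mat N, A.IsHermitian ∧ exp A = p := by
  let u := Unitary.toUnits hp.1.eigenvectorUnitary
  refine ⟨(u : Mat N) * diagonal (fun i => (Real.log (hp.1.eigenvalues i) : ℂ)) *
    ((u⁻¹ : GLN N) : Mat N), isHermitian_mul_mul_conjTranspose _ ?_, ?_⟩
  · exact isHermitian_diagonal_of_self_adjoint _ (funext fun i => Complex.conj_ofReal _)
  · rw [Matrix.exp_units_conj, exp_diagonal, Pi.exp_def]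
    conv_rhs => rw [hp.1.spectral_theorem]
    simp only [← Complex.exp_eq_exp_ℂ, ← Complex.ofReal_exp, Real.exp_log (hp.eigenvalues_pos _)]
    rfl

end Pol

theorem pol_thm (hj : JexStmt) (hu : JunStmt) (he : EllStmt) (hl : LieStmt) : PolStmt := by
  intro N G hG g hg
  obtain ⟨A, hA, hp⟩ := Pol.log (p := (g : Mat N)ᴴ * (g : Mat N))
    (PosDef.conjTranspose_mul_self _ (mulVec_injective_of_isUnit g.isUnit))
  obtain ⟨e, B, ν, H, -, -, -, hm, -⟩ := hj N (star g * g)
  have H' : JD (star g * g) 1 A 0 :=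
    ⟨by rw [exp_zero, mul_one, Units.val_one, one_mul, hp]; rfl, he.ell_one N, he.hyp_herm N A hA,
      IsNilpotent.zero, Commute.one_left _, Commute.one_left _, Commute.zero_right _⟩
  obtain rfl := (hu N _ _ _ _ _ _ _ H H').2.1
  have h1 := hl.smul N G (1 / 2) B (hm G hG.alg (G.mul_mem (hG.star_mem g hg) hg)).2.1
  have h2 : ((1 / 2 : ℂ) • B).IsHermitian := by
    rw [IsHermitian, conjTranspose_smul, hA.eq]; simp
  have h3 : B = (1 / 2 : ℂ) • B + (1 / 2 : ℂ) • B := by rw [← add_smul]; norm_num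
  generalize (1 / 2 : ℂ) • B = Y at *
  have h4 := inG_exp.1 (h1 1)
  rw [one_smul] at h4
  refine ⟨g * (expU Y)⁻¹, G.mul_mem hg (G.inv_mem h4), Y, ?_, h2, h1, ?_⟩
  · rw [Uni, Units.val_mul, expU_inv, conjTranspose_mul, h2.neg.exp.eq, mul_assoc,
      ← mul_assoc _ (g : Mat N), ← hp, h3, exp_add' (Commute.refl Y), mul_assoc, exp_mul_neg,
      mul_one, exp_neg_mul]
  · rw [Units.val_mul, expU_inv, mul_assoc, exp_neg_mul, mul_one]

end Pool.Agent.MP_94b95a_al.Fl

end MrgPart7

-- ======== part 8: formerly Pool.Agent.MP_94b95a_al.fl.Hord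
section MrgPart8

/-! A central elliptic commutator has finite order. -/

namespace Pool.Agent.MP_94b95a_al.Fl

open NormedSpace Matrix JA
open scoped commutatorElement Matrix.Norms.Operator

namespace Hord

variable {N : ℕ}

theorem pow_mul_of {n w : Mat N} (h : n * n * w = 0) (k : ℕ) :
    (1 + n) ^ k * w = w + (k : ℂ) • (n * w) := by
  induction k with
  | zero => simp
  | succ k ih =>
    rw [pow_succ', mul_assoc, ih, add_mul, one_mul, mul_add, mul_smul_comm, ← mul_assoc, h,
      smul_zero, add_zero, Nat.cast_succ, add_smul, one_smul, add_assoc]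

/-- A unipotent matrix with bounded powers is the identity. -/
theorem unip {u : Mat N} (hn : IsNilpotent (u - 1)) {C : ℝ} (h : ∀ k : ℕ, ‖u ^ k‖ ≤ C) :
    u = 1 := by
  classical
  rw [← sub_eq_zero]
  obtain ⟨n, rfl⟩ : ∃ n, u = 1 + n := ⟨u - 1, by abel⟩
  rw [add_sub_cancel_left] at hn ⊢
  have hex : ∃ j, n ^ (j + 1) = 0 := ⟨N, pow_eq_zero_of_le (Nat.le_succ N) (nil_pow hn)⟩
  have h0 := Nat.find_spec hex
  rcases hj : Nat.find hex with _ | j
  · rwa [hj, zero_add, pow_one] at h0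
  have h1 := norm_pos_iff.2 (Nat.find_min hex (m := j) (by omega))
  rw [hj] at h0
  obtain ⟨k, hk⟩ := exists_nat_gt ((C * ‖n ^ j‖ + ‖n ^ j‖) / ‖n ^ (j + 1)‖)
  have h2 := pow_mul_of (n := n) (w := n ^ j) (by rw [mul_assoc, ← pow_succ', ← pow_succ', h0]) k
  rw [← pow_succ', ← sub_eq_iff_eq_add'] at h2
  have h3 := (norm_sub_le _ _).trans (add_le_add_left ((norm_mul_le _ _).trans
    (mul_le_mul_of_nonneg_right (h k) (norm_nonneg (n ^ j)))) ‖n ^ j‖)
  rw [h2, norm_smul, Complex.norm_natCast] at h3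
  rw [div_lt_iff₀ h1] at hk
  linarith

theorem spec_iff {m : Mat N} {c : ℂ} : c ∈ spectrum ℂ m ↔ ∃ v ≠ 0, m *ᵥ v = c • v := by
  rw [spectrum.mem_iff, Matrix.isUnit_iff_isUnit_det, isUnit_iff_ne_zero, not_not,
    ← Matrix.exists_mulVec_eq_zero_iff]
  simp only [sub_mulVec, Algebra.algebraMap_eq_smul_one, smul_mulVec, one_mulVec, sub_eq_zero,
    eq_comm (b := m *ᵥ _)]

theorem common {z y : Mat N} (h : Commute z y) {c : ℂ} (hc : c ∈ spectrum ℂ z) :
    ∃ (μ : ℂ) (v : Fin N → ℂ), v ≠ 0 ∧ z *ᵥ v = c • v ∧ y *ᵥ v = μ • v := by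
  obtain ⟨v, hv, hz⟩ := spec_iff.1 hc
  let W : Submodule ℂ (Fin N → ℂ) := Module.End.eigenspace (toLin' z) c
  have hW : ∀ w, w ∈ W ↔ z *ᵥ w = c • w := fun w => Module.End.mem_eigenspace_iff
  have hm : ∀ w ∈ W, toLin' y w ∈ W := fun w hw => by
    rw [hW] at hw ⊢
    rw [toLin'_apply, mulVec_mulVec, h.eq, ← mulVec_mulVec, hw, mulVec_smul]
  have : Nontrivial W := ⟨⟨⟨v, (hW v).2 hz⟩, 0, fun e => hv (congrArg Subtype.val e)⟩⟩
  obtain ⟨μ, hμ⟩ := Module.End.exists_eigenvalue ((toLin' y).restrict hm)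
  obtain ⟨w, hw⟩ := hμ.exists_hasEigenvector
  exact ⟨μ, w, fun e => hw.2 (Subtype.ext e), (hW w).1 w.2,
    congrArg Subtype.val hw.apply_eq_smul⟩

theorem root {x y z : GLN N} (hx : Commute z x) (hy : Commute z y) (h : x * y * x⁻¹ = z * y)
    {c : ℂ} (hc : c ∈ spectrum ℂ (z : Mat N)) : c ^ N.factorial = 1 := by
  classical
  obtain ⟨μ, v, hv, h1, h2⟩ := common (hy.map (Units.coeHom (Mat N))) hc
  simp only [Units.coeHom_apply] at h1 h2
  have h3 : ∀ k : ℕ, x ^ k * y * (x ^ k)⁻¹ = z ^ k * y := fun k => by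
    induction k with
    | zero => simp
    | succ k ih =>
      calc _ = x * (x ^ k * y * (x ^ k)⁻¹) * x⁻¹ := by rw [pow_succ']; group
        _ = z ^ k * (x * y * x⁻¹) := by
          rw [ih, ← mul_assoc, ← (hx.pow_left k).eq]; group
        _ = _ := by rw [h, pow_succ, mul_assoc]
  have h4 : ∀ k : ℕ, (z : Mat N) ^ k *ᵥ v = c ^ k • v := fun k => by
    induction k with
    | zero => simp
    | succ k ih => rw [pow_succ, ← mulVec_mulVec, h1, mulVec_smul, ih, smul_smul, pow_succ']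
  have h5 : ∀ k : ℕ, c ^ k * μ ∈ (y : Mat N).charpoly.roots.toFinset := fun k => by
    have h6 : c ^ k * μ ∈ spectrum ℂ ((z ^ k * y : GLN N) : Mat N) := spec_iff.2 ⟨v, hv, by
      rw [Units.val_mul, Units.val_pow_eq_pow_val, ← mulVec_mulVec, h2, mulVec_smul, h4,
        smul_smul, mul_comm]⟩
    rw [← h3, Units.val_mul, Units.val_mul, spectrum.units_conjugate,
      Matrix.mem_spectrum_iff_isRoot_charpoly] at h6
    exact Multiset.mem_toFinset.2 ((Polynomial.mem_roots (charpoly_monic _).ne_zero).2 h6)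
  have h6 : (y : Mat N).charpoly.roots.toFinset.card < (Finset.range (N + 1)).card := by
    have := (Multiset.toFinset_card_le _).trans (Polynomial.card_roots' (y : Mat N).charpoly)
    rw [charpoly_natDegree_eq_dim, Fintype.card_fin] at this
    rw [Finset.card_range]; omega
  have hμ : μ ≠ 0 := fun e => spectrum.zero_notMem ℂ y.isUnit (spec_iff.2 ⟨v, hv, e ▸ h2⟩)
  have hc0 : c ≠ 0 := fun e => spectrum.zero_notMem ℂ z.isUnit (e ▸ hc)
  have key : ∀ i j : ℕ, i < j → j < N + 1 → c ^ i * μ = c ^ j * μ → c ^ N.factorial = 1 := by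
    intro i j hij hj e
    obtain ⟨d, rfl⟩ := Nat.exists_eq_add_of_le hij.le
    obtain ⟨q, hq⟩ := Nat.dvd_factorial (m := d) (n := N) (by omega) (by omega)
    have e1 := mul_right_cancel₀ hμ e
    rw [pow_add] at e1
    rw [hq, pow_mul, ← mul_left_cancel₀ (pow_ne_zero i hc0) ((mul_one _).trans e1), one_pow]
  obtain ⟨i, hi, j, hj, hij, e⟩ :=
    Finset.exists_ne_map_eq_of_card_lt_of_maps_to h6 (f := fun k => c ^ k * μ) fun k _ => h5 k
  rcases lt_or_gt_of_ne hij with hl | hl
  · exact key i j hl (Finset.mem_range.1 hj) e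
  · exact key j i hl (Finset.mem_range.1 hi) e.symm

theorem nil_sub {u : Mat N} (h : ∀ c ∈ spectrum ℂ u, c = 1) : IsNilpotent (u - 1) := by
  refine nil_of_spec fun c hc => ?_
  obtain ⟨v, hv, e⟩ := spec_iff.1 hc
  rw [sub_mulVec, one_mulVec, sub_eq_iff_eq_add] at e
  have := h (c + 1) (spec_iff.2 ⟨v, hv, by rw [e, add_smul, one_smul]⟩)
  simpa using this

end Hord

theorem hord_thm : HordStmt := by
  intro N x y hx hy he
  obtain ⟨K, hK⟩ := bdd_range.1 he
  refine Units.ext (Hord.unip (C := K) (Hord.nil_sub fun c hc => ?_) fun k => ?_)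
  · rw [Units.val_pow_eq_pow_val, spectrum.map_pow_of_pos _ N.factorial_pos] at hc
    obtain ⟨d, hd, rfl⟩ := hc
    exact Hord.root hx hy (by rw [commutatorElement_def]; group) hd
  · have := hK ((N.factorial * k : ℕ) : ℤ)
    rwa [zpow_natCast, pow_mul, Units.val_pow_eq_pow_val] at this

end Pool.Agent.MP_94b95a_al.Fl

end MrgPart8

-- ======== part 9: formerly Pool.Agent.MP_94b95a_al.fl.Burn
section MrgPart9

/-! Burnside: a complex linear group of finite exponent is finite. -/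

namespace Pool.Agent.MP_94b95a_al.Fl

open NormedSpace Matrix JA
open scoped Matrix.Norms.Operator

namespace Burn

variable {N M : ℕ}

theorem root_pow {g : Mat N} (h : g ^ M = 1) {c : ℂ} (hc : c ∈ spectrum ℂ g) : c ^ M = 1 := by
  obtain ⟨v, hv, e⟩ := Hord.spec_iff.1 hc
  have h4 : ∀ k : ℕ, g ^ k *ᵥ v = c ^ k • v := fun k => by
    induction k with
    | zero => simp
    | succ k ih => rw [pow_succ, ← mulVec_mulVec, e, mulVec_smul, ih, smul_smul, pow_succ']
  have h5 := h4 M
  rw [h, one_mulVec] at h5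
  exact smul_left_injective ℂ hv (h5.symm.trans (one_smul ℂ v).symm)

theorem card_roots (g : Mat N) : g.charpoly.roots.card = N := by
  rw [← (IsAlgClosed.splits g.charpoly).natDegree_eq_card_roots, charpoly_natDegree_eq_dim,
    Fintype.card_fin]

theorem mem_roots {g : Mat N} {c : ℂ} : c ∈ g.charpoly.roots ↔ c ∈ spectrum ℂ g := by
  rw [Polynomial.mem_roots (charpoly_monic _).ne_zero, Matrix.mem_spectrum_iff_isRoot_charpoly]

theorem fin_tr (hM : 0 < M) : {t : ℂ | ∃ g : Mat N, g ^ M = 1 ∧ t = g.trace}.Finite := by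
  classical
  refine ((Set.finite_Iic (N • Polynomial.nthRoots M (1 : ℂ))).image Multiset.sum).subset ?_
  rintro _ ⟨g, hg, rfl⟩
  refine ⟨g.charpoly.roots, ?_,
    (trace_eq_sum_roots_charpoly_of_splits (IsAlgClosed.splits _)).symm⟩
  have := (Multiset.le_card_smul_iff_subset (s := g.charpoly.roots)
    (t := Polynomial.nthRoots M (1 : ℂ))).2 fun c hc =>
      (Polynomial.mem_nthRoots hM).2 (root_pow hg (mem_roots.1 hc))
  rwa [card_roots] at this

theorem eq_one (hM : 0 < M) {g : Mat N} (h : g ^ M = 1) (ht : g.trace = N) : g = 1 := by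
  have h1 : ∀ c ∈ g.charpoly.roots, ‖c‖ = 1 := fun c hc => by
    have := congrArg norm (root_pow h (mem_roots.1 hc))
    rwa [norm_pow, norm_one, pow_eq_one_iff_of_nonneg (norm_nonneg _) hM.ne'] at this
  have h2 : (g.charpoly.roots.map fun c => 1 - c.re).sum = 0 := by
    have := congrArg Complex.reAddGroupHom
      ((trace_eq_sum_roots_charpoly_of_splits (IsAlgClosed.splits g.charpoly)).symm.trans ht)
    rw [map_multiset_sum] at this
    rw [Multiset.sum_map_sub, Multiset.map_const', Multiset.sum_replicate, card_roots]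
    simp only [Complex.coe_reAddGroupHom, Complex.natCast_re] at this
    rw [show (g.charpoly.roots.map fun c => c.re) = g.charpoly.roots.map Complex.re from rfl, this]
    simp
  have h3 : ∀ c ∈ spectrum ℂ g, c = 1 := fun c hc => by
    have hc' := mem_roots.2 hc
    have h4 := Multiset.single_le_sum (s := g.charpoly.roots.map fun c => 1 - c.re)
      (fun x hx => by
        obtain ⟨d, hd, rfl⟩ := Multiset.mem_map.1 hx
        linarith [Complex.re_le_norm d, h1 d hd]) _ (Multiset.mem_map_of_mem _ hc')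
    have h5 := Complex.sq_norm_sub_sq_re c
    have h6 : c.re = 1 := by linarith [Complex.re_le_norm c, h1 c hc']
    rw [h1 c hc', h6, sub_self, eq_comm, sq_eq_zero_iff] at h5
    exact Complex.ext h6 h5
  refine Hord.unip (C := ∑ j ∈ Finset.range M, ‖g ^ j‖) (Hord.nil_sub h3) fun k => ?_
  rw [pow_eq_pow_mod k h]
  exact Finset.single_le_sum (f := fun j => ‖g ^ j‖) (fun _ _ => norm_nonneg _)
    (Finset.mem_range.2 (Nat.mod_lt _ hM))

end Burn

theorem burn_thm : BurnStmt := by
  intro N S M hM hS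
  obtain ⟨b, hb, hs, hl⟩ := exists_linearIndependent ℂ {m : Mat N | ∃ g ∈ S, (g : Mat N) = m}
  have hf : Finite b := hl.set_finite_of_isNoetherian
  have hT := (Burn.fin_tr (N := N) hM).to_subtype
  have hv : ∀ g ∈ S, (g : Mat N) ^ M = 1 := fun g hg => by
    rw [← Units.val_pow_eq_pow_val, hS g hg, Units.val_one]
  refine Finite.of_injective
    (β := b → {t : ℂ | ∃ g : Mat N, g ^ M = 1 ∧ t = g.trace})
    (fun g m => ⟨(((g : GLN N) : Mat N) * m).trace, _, ?_, rfl⟩) fun g g' e => ?_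
  · obtain ⟨h, hh, e⟩ := hb m.2
    rw [← e]
    exact hv _ (S.mul_mem g.2 hh)
  · have h1 : ∀ m ∈ Submodule.span ℂ b, (((g : GLN N) : Mat N) * m).trace =
        (((g' : GLN N) : Mat N) * m).trace := fun m hm => by
      induction hm using Submodule.span_induction with
      | mem m hm => exact congrArg Subtype.val (congrFun e ⟨m, hm⟩)
      | zero => simp
      | add m m' _ _ h h' => rw [mul_add, mul_add, trace_add, trace_add, h, h']
      | smul c m _ h => rw [mul_smul_comm, mul_smul_comm, trace_smul, trace_smul, h]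
    have h2 := h1 (((g' : GLN N)⁻¹ : GLN N) : Mat N) (by
      rw [hs]
      exact Submodule.subset_span ⟨_, S.inv_mem g'.2, rfl⟩)
    rw [Units.mul_inv, trace_one, Fintype.card_fin, ← Units.val_mul] at h2
    exact Subtype.ext (mul_inv_eq_one.1
      (Units.ext (Burn.eq_one hM (hv _ (S.mul_mem g.2 (S.inv_mem g'.2))) h2)))

end Pool.Agent.MP_94b95a_al.Fl

end MrgPart9

-- ======== part 10: formerly Pool.Agent.MP_94b95a_al.fl.Min
section MrgPart10

/-! Existence of a zero of the moment map in an orbit closure. -/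

namespace Pool.Agent.MP_94b95a_al.Fl

open NormedSpace Matrix Filter Topology Kn

theorem min_thm (hl : LieStmt) : MinStmt := by
  intro N G hG ι _ x hx
  obtain ⟨y, hy, hmin⟩ := min_FN (isClosed_closure (s := orb G x))
    (subset_closure ⟨1, G.one_mem, (cj_one x).symm⟩)
  refine ⟨y, hy, ?_⟩
  have hst : IsMinV G y := fun g hg => hmin _ (map_mem_closure (cont_cj2 g) hy (by
    rintro _ ⟨h, hh, rfl⟩
    exact ⟨g * h, G.mul_mem hg hh, (cj_mul g h x).symm⟩))
  have hyL : ∀ j, InLie G (y j) := fun j =>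
    (hl.closedL N G hG.alg).closure_subset (map_mem_closure (f := fun z : ι → Mat N => z j)
      (continuous_apply j) hy (by
      rintro _ ⟨h, hh, rfl⟩
      exact hl.conj N G h _ hh (hx j)))
  have hL : InLie G (mu y) := by
    refine Finset.sum_induction _ _ (hl.add N G hG.alg) (hl.zero N G) fun j _ => ?_
    exact hl.br N G hG.alg _ _ (hyL j) (hl.star N G hG _ (hyL j))
  have hH : (mu y).IsHermitian := by
    simp only [IsHermitian, mu, conjTranspose_sum, conjTranspose_sub, conjTranspose_mul,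
      conjTranspose_conjTranspose]
  obtain ⟨u, D, hu, e⟩ := exists_hm hH
  have h1 := lin (fun j => uᴴ * y j * u) D
  have h2 : uᴴ * hm u D * u = diagonal fun a => (D a : ℂ) := by
    rw [hm, ← Matrix.mul_assoc, ← Matrix.mul_assoc, hu, Matrix.one_mul, Matrix.mul_assoc, hu,
      Matrix.mul_one]
  rw [crit hst hu (e ▸ hL), mu_conj hu, e, h2] at h1
  simp only [diagonal_apply_eq] at h1
  have h3 : ∑ a, D a * D a = 0 := by exact_mod_cast h1.symm
  have h4 : D = 0 := funext fun a => mul_self_eq_zero.1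
    ((Finset.sum_eq_zero_iff_of_nonneg fun _ _ => mul_self_nonneg _).1 h3 a (Finset.mem_univ a))
  rw [e, h4, hm]
  simp

end Pool.Agent.MP_94b95a_al.Fl

end MrgPart10

-- ======== part 11: formerly Pool.Agent.MP_94b95a_al.fl.TriRep
section MrgPart11

/-! A good triple defines a representation. -/

namespace Pool.Agent.MP_94b95a_al.Fl

open NormedSpace Matrix Filter Topology
open scoped commutatorElement

namespace TriRep

theorem comm_mul {H : Type} [Group H] (a b u v : H) (h1 : Commute a v) (h2 : Commute b u)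
    (h3 : Commute a u) (h4 : Commute b v) : ⁅a * u, b * v⁆ = ⁅a, b⁆ * ⁅u, v⁆ := by
  have e1 : a * u * (b * v) = a * b * (u * v) := by
    rw [mul_assoc, ← mul_assoc u, ← h2.eq]; group
  have e2 : (a * u)⁻¹ * (b * v)⁻¹ = a⁻¹ * b⁻¹ * (u⁻¹ * v⁻¹) := by
    rw [h3.eq, h4.eq, _root_.mul_inv_rev, _root_.mul_inv_rev, mul_assoc, ← mul_assoc u⁻¹,
      ← h2.inv_inv.eq]
    group
  have e3 : Commute (u * v) (a⁻¹ * b⁻¹) :=
    ((h3.symm.inv_right.mul_right h2.symm.inv_right).mul_left
      (h1.symm.inv_right.mul_right h4.symm.inv_right))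
  rw [commutatorElement_def, mul_assoc, e1, e2, commutatorElement_def, commutatorElement_def]
  calc a * b * (u * v) * (a⁻¹ * b⁻¹ * (u⁻¹ * v⁻¹))
      = a * b * ((u * v) * (a⁻¹ * b⁻¹)) * (u⁻¹ * v⁻¹) := by group
    _ = a * b * ((a⁻¹ * b⁻¹) * (u * v)) * (u⁻¹ * v⁻¹) := by rw [e3.eq]
    _ = _ := by group

theorem stFam_mul {R : Type} [CommRing R] {I : Ideal R} {H : Type} [Group H]
    {x y : Fin 5 → Fin 5 → R → H} (hx : StFam I x) (hy : StFam I y)
    (hc : ∀ i j a k l b, Leg I i j a → Leg I k l b → Commute (x i j a) (y k l b)) :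
    StFam I (fun i j a => x i j a * y i j a) where
  add i j a b ha hb := by
    rw [hx.add i j a b ha hb, hy.add i j a b ha hb, mul_assoc, ← mul_assoc (x i j b),
      (hc i j b i j a hb ha).eq]
    group
  heis i j k a b hik ha hb := by
    rw [comm_mul _ _ _ _ (hc _ _ _ _ _ _ ha hb) (hc _ _ _ _ _ _ hb ha) (hc _ _ _ _ _ _ ha ha)
      (hc _ _ _ _ _ _ hb hb), hx.heis i j k a b hik ha hb, hy.heis i j k a b hik ha hb]
  comm i j k l a b h1 h2 ha hb :=
    ((hx.comm i j k l a b h1 h2 ha hb).mul_right (hc _ _ _ _ _ _ ha hb)).mul_left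
      ((hc _ _ _ _ _ _ hb ha).symm.mul_right (hy.comm i j k l a b h1 h2 ha hb))

end TriRep

theorem triRep_thm (hX : ExpFamStmt) : TriRepStmt := by
  intro N G R _ I T hT
  obtain ⟨y, hy, hyv⟩ := hX N R I T.ν hT.lie
  have hA : ∀ γ, ∃ g ∈ G, (g : Mat N) = exp (T.A γ) := fun γ => by
    simpa [InG] using hT.AG γ 1
  choose α hαG hα using hA
  have hαmul : ∀ γ δ, α (γ * δ) = α γ * α δ := fun γ δ => by
    apply Units.ext
    rw [Units.val_mul, hα, hα, hα, hT.Aadd, Matrix.exp_add_of_commute _ _ (hT.AA γ δ)]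
  have heα : ∀ γ δ, Commute (T.e γ) (α δ) := fun γ δ => by
    apply Units.ext
    rw [Units.val_mul, Units.val_mul, hα]
    exact (hT.eA γ δ).exp_right
  let f : St I →* GLN N := MonoidHom.mk' (fun γ => T.e γ * α γ) (fun γ δ => by
    rw [map_mul, hαmul, mul_assoc, ← mul_assoc (T.e δ), (heα δ γ).eq]; group)
  have hfy : ∀ γ k l b, Leg I k l b → Commute (f γ) (y k l b) := fun γ k l b hb => by
    apply Units.ext
    change ((T.e γ * α γ : GLN N) : Mat N) * _ = _ * ((T.e γ * α γ : GLN N) : Mat N)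
    rw [Units.val_mul, hα, hyv]
    exact (hT.eν γ k l b hb).exp_right.mul_left (hT.Aν γ k l b hb).exp
  have hS := TriRep.stFam_mul ((stFam_X I).map f) hy (fun i j a k l b _ hb => hfy _ k l b hb)
  obtain ⟨F, hF⟩ := exists_lift hS
  have hyG : ∀ i j a, Leg I i j a → y i j a ∈ G := fun i j a ha => by
    obtain ⟨g, hg, hgv⟩ := hT.νG i j a ha 1
    have : y i j a = g := Units.ext (by rw [hyv, hgv, one_smul])
    rw [this]; exact hg
  have hFG : ∀ γ, F γ ∈ G := fun γ => by
    have h : Subgroup.closure (gens I (X I)) ≤ G.comap F := by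
      refine (Subgroup.closure_le _).mpr ?_
      rintro _ ⟨i, j, a, ha, rfl⟩
      change F (X I i j a) ∈ G
      rw [hF i j a ha]
      exact G.mul_mem (G.mul_mem (hT.eG _) (hαG _)) (hyG i j a ha)
    rw [closure_gens_X] at h
    exact h (Subgroup.mem_top γ)
  refine ⟨⟨F, hFG, map_mul F⟩, fun i j a ha => ?_⟩
  change ((F (X I i j a) : GLN N) : Mat N) = _
  rw [hF i j a ha]
  change ((T.e _ * α _ * y i j a : GLN N) : Mat N) = _
  rw [Units.val_mul, Units.val_mul, hα, hyv]

end Pool.Agent.MP_94b95a_al.Fl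

end MrgPart11

-- ======== part 12: formerly Pool.Agent.MP_94b95a_al.fl.RepLim
section MrgPart12

/-! Convergence of representations can be tested on the generators. -/

namespace Pool.Agent.MP_94b95a_al.Fl

open NormedSpace Matrix Filter Topology

theorem repLim_thm (hE : EllStmt) : RepLimStmt := by
  intro N G R _ I τ F ρs ρ h
  have key : ∀ γ : St I, Tendsto (fun m => (ρs m).1 γ) F (𝓝 (ρ.1 γ)) := by
    intro γ
    have hγ : γ ∈ Subgroup.closure (gens I (X I)) := by rw [closure_gens_X]; trivial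
    let f : Rep (St I) G → (St I →* GLN N) := fun σ => MonoidHom.mk' σ.1 σ.2.2
    change Tendsto (fun m => f (ρs m) γ) F (𝓝 (f ρ γ))
    induction hγ using Subgroup.closure_induction with
    | mem x hx =>
      obtain ⟨i, j, a, ha, rfl⟩ := hx
      exact hE.gl_tendsto N τ F _ _ (h i j a ha)
    | one => simp only [map_one]; exact tendsto_const_nhds
    | mul x y _ _ hx hy => simp only [map_mul]; exact hx.mul hy
    | inv x _ hx => simp only [map_inv]; exact hx.inv
  rw [tendsto_subtype_rng, tendsto_pi_nhds]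
  exact key

end Pool.Agent.MP_94b95a_al.Fl

end MrgPart12

-- ======== part 13: formerly Pool.Agent.MP_94b95a_al.fl.NfTri
section MrgPart13

/-! Normal form data give a good triple. -/

namespace Pool.Agent.MP_94b95a_al.Fl

open NormedSpace Matrix Filter Topology

namespace NfTri

theorem ne_int {i j : Fin 5} (h : i ≠ j) : ((j : ℤ) - (i : ℤ)) ≠ 0 := by
  intro h0
  apply h
  apply Fin.ext
  omega

theorem wt_mul {R : Type} [CommRing R] {ε : R →+* ℤ} {lam : Pt R → ℝ} (hl : Lam ε lam)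
    {i j l : Fin 5} (hij : i ≠ j) (hil : i ≠ l) (a b : R) (c : Pt R) :
    wt lam i j a c * wt lam j l b c = wt lam i l (a * b) c := by
  unfold wt
  by_cases hc : c = org ε
  · rw [hc, hl.zero]
    rw [Complex.ofReal_zero, _root_.zero_zpow _ (ne_int hij), _root_.zero_zpow _ (ne_int hil)]
    simp
  · have h0 : (lam c : ℂ) ≠ 0 := by exact_mod_cast (hl.pos _ hc).ne'
    have : ((l : ℤ) - (i : ℤ)) = ((j : ℤ) - (i : ℤ)) + ((l : ℤ) - (j : ℤ)) := by ring
    rw [this, zpow_add₀ h0, map_mul]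
    ring

theorem br_sum {N : ℕ} {κ : Type} [Fintype κ] {L : κ → Fin 5 → Fin 5 → Mat N} (h : GlFam L)
    (u v : κ → ℂ) (a b c d : Fin 5) :
    (∑ k, u k • L k a b) * (∑ k, v k • L k c d) - (∑ k, v k • L k c d) * (∑ k, u k • L k a b) =
      ∑ k, (u k * v k) • (L k a b * L k c d - L k c d * L k a b) := by
  classical
  rw [Finset.sum_mul_sum, Finset.sum_mul_sum, Finset.sum_comm (f := fun x y => _ • L x c d * _),
    ← Finset.sum_sub_distrib]
  refine Finset.sum_congr rfl fun k _ => ?_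
  rw [← Finset.sum_sub_distrib, Finset.sum_eq_single k]
  · simp only [smul_mul_smul_comm, smul_sub, mul_comm (v k) (u k)]
  · intro k' _ hk
    simp only [smul_mul_smul_comm, mul_comm (v k') (u k)]
    rw [(h.comm k k' hk.symm a b c d).eq, sub_self]
  · intro hk; exact absurd (Finset.mem_univ k) hk

end NfTri

theorem nfTri_thm (hGl : GlStmt) (hLie : LieStmt) (hEll : EllStmt) : NfTriStmt := by
  intro N G hG R _ ε lam hl κ _ D hD
  refine ⟨⟨?_, ?_, ?_, ?_⟩, ?_, hD.eG, hD.AG, hD.Aadd, hD.eA, hD.AA, ?_, ?_, ?_, ?_⟩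
  · intro i j a b _ _
    simp only [NF.tri, wt, map_add, mul_add, add_smul, Finset.sum_add_distrib]
  · intro i j k a b hik ha hb
    simp only [NF.tri]
    rw [NfTri.br_sum hD.gl]
    refine Finset.sum_congr rfl fun m _ => ?_
    rw [hD.gl.rel, NfTri.wt_mul hl ha.1 hik, if_pos rfl, if_neg hik.symm, sub_zero]
  · intro i j k l a b hjk hil _ _
    simp only [NF.tri]
    rw [Commute, SemiconjBy, ← sub_eq_zero, NfTri.br_sum hD.gl]
    refine Finset.sum_eq_zero fun m _ => ?_
    rw [hD.gl.rel, if_neg hjk, if_neg hil.symm, sub_zero, smul_zero]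
  · intro i j a ha
    exact hGl.nil N κ D.L hD.gl _ i j ha.1
  · intro i j a _
    simp only [NF.tri]
    refine Finset.sum_induction _ (InLie G) (fun x y => hLie.add N G hG x y) (hLie.zero N G) ?_
    intro k _
    exact hLie.smul N G _ _ (hD.LG k i j)
  · intro γ i j a _
    exact Commute.sum_right _ _ _ fun k _ => (hD.eL γ k i j).smul_right _
  · intro γ i j a _
    exact Commute.sum_right _ _ _ fun k _ => (hD.AL γ k i j).smul_right _
  · intro i j a _
    exact hEll.ell_uni N _ (hD.eU _)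
  · intro γ
    exact hEll.hyp_herm N _ (hD.AH γ)

end Pool.Agent.MP_94b95a_al.Fl

end MrgPart13

-- ======== part 14: formerly Pool.Agent.MP_94b95a_al.fl.Fun
section MrgPart14

/-! Interpolation at finitely many points by rescaled evaluations. -/

namespace Pool.Agent.MP_94b95a_al.Fl

open NormedSpace Matrix Filter Topology

namespace Fun

theorem indep (R : Type) [CommRing R] :
    LinearIndependent ℂ (fun c : Pt R => (c : R → ℂ)) :=
  (linearIndependent_monoidHom R ℂ).comp (fun c : Pt R => (c : R →* ℂ))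
    (fun _ _ h => RingHom.ext fun a => DFunLike.congr_fun h a)

end Fun

theorem fun_thm : FunStmt := by
  intro R _ ε lam hl κ _ c φ hφ i j hij
  classical
  let v : R → κ → ℂ := fun b k => wt lam i j b (c k)
  have key : (fun k => φ (c k)) ∈ Submodule.span ℂ (v '' (RingHom.ker ε : Set R)) := by
    by_contra hn
    obtain ⟨f, hf, hf0⟩ := Submodule.exists_dual_map_eq_bot_of_notMem hn inferInstance
    let y : κ → ℂ := fun k => f (Pi.single k 1)
    have hfy : ∀ w : κ → ℂ, f w = ∑ k, y k * w k := by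
      intro w
      have hw : w = ∑ k, w k • (Pi.single k (1 : ℂ) : κ → ℂ) := by
        funext k
        simp [Finset.sum_apply, Pi.single_apply]
      conv_lhs => rw [hw]
      rw [map_sum]
      refine Finset.sum_congr rfl fun k _ => ?_
      rw [map_smul, smul_eq_mul, mul_comm]
    have hv : ∀ b ∈ RingHom.ker ε, f (v b) = 0 := by
      intro b hb
      have : f (v b) ∈ (Submodule.span ℂ (v '' (RingHom.ker ε : Set R))).map f :=
        Submodule.mem_map_of_mem (Submodule.subset_span ⟨b, hb, rfl⟩)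
      rw [hf0] at this
      exact (Submodule.mem_bot ℂ).mp this
    let y' : κ → ℂ := fun k => y k * (lam (c k) : ℂ) ^ ((j : ℤ) - (i : ℤ))
    let l : Pt R →₀ ℂ := ∑ k, Finsupp.single (c k) (y' k) - Finsupp.single (org ε) (∑ k, y' k)
    have hlc : ∀ w : Pt R → ℂ,
        Finsupp.linearCombination ℂ w l = ∑ k, y' k * w (c k) - (∑ k, y' k) * w (org ε) := by
      intro w
      simp only [l, map_sub, map_sum, Finsupp.linearCombination_single, smul_eq_mul]
    have hl0 : l = 0 := by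
      refine linearIndependent_iff.mp (Fun.indep R) l ?_
      funext a
      have h1 : Finsupp.linearCombination ℂ (fun c : Pt R => (c : R → ℂ)) l a =
          Finsupp.linearCombination ℂ (fun c : Pt R => c a) l := by
        simp only [Finsupp.linearCombination_apply, Finsupp.sum, Finset.sum_apply, Pi.smul_apply]
      rw [h1, hlc]
      have hb : a - (ε a : R) ∈ RingHom.ker ε := by simp [RingHom.mem_ker]
      have h2 := hv _ hb
      rw [hfy] at h2
      have h3 : org ε a = (ε a : ℂ) := by simp [org]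
      rw [h3, Finset.sum_mul, ← Finset.sum_sub_distrib, Pi.zero_apply, ← h2]
      refine Finset.sum_congr rfl fun k _ => ?_
      simp only [v, wt, y', map_sub, map_intCast]
      ring
    have h4 := hlc (fun p => φ p / (lam p : ℂ) ^ ((j : ℤ) - (i : ℤ)))
    rw [hl0, map_zero, hφ, zero_div, mul_zero, sub_zero] at h4
    apply hf
    rw [hfy, h4]
    refine Finset.sum_congr rfl fun k _ => ?_
    by_cases hk : c k = org ε
    · rw [hk, hφ]; simp
    · have : (lam (c k) : ℂ) ^ ((j : ℤ) - (i : ℤ)) ≠ 0 :=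
        zpow_ne_zero _ (by exact_mod_cast (hl.pos _ hk).ne')
      simp only [y']
      field_simp
  obtain ⟨s, hs, z, hz⟩ := (Submodule.mem_span_image_iff_exists_fun ℂ).mp key
  refine ⟨s, fun b => if h : b ∈ s then z ⟨b, h⟩ else 0, fun b hb => hs hb, fun k => ?_⟩
  have := congrFun hz k
  rw [← this, Finset.sum_apply, ← Finset.sum_coe_sort]
  refine Finset.sum_congr rfl fun b _ => ?_
  simp [v]

end Pool.Agent.MP_94b95a_al.Fl

end MrgPart14

-- ======== part 15: formerly Pool.Agent.MP_94b95a_al.fl.MuMin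
section MrgPart15

/-! Vanishing moment map implies minimal. -/

namespace Pool.Agent.MP_94b95a_al.Fl

open NormedSpace Matrix Filter Topology Kn

theorem muMin_thm (hp : PolStmt) : MuMinStmt := by
  intro N G hG ι _ x hx g hg
  obtain ⟨k, u, D, -, -, h⟩ := polar hp hG hg
  have h1 := lin (fun j => uᴴ * x j * u) D
  rw [mu_conj h.hu, hx] at h1
  simp only [Matrix.zero_mul, Matrix.zero_apply, mul_zero, Finset.sum_const_zero,
    Complex.ofReal_eq_zero] at h1
  rw [h.FN_cj, ← FN_conj h.hu]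
  calc _ = ∑ j, ∑ a, ∑ b, ‖(uᴴ * x j * u) a b‖ ^ 2 +
        2 * ∑ j, ∑ a, ∑ b, ‖(uᴴ * x j * u) a b‖ ^ 2 * (D a - D b) := by rw [h1, mul_zero, add_zero]
    _ ≤ _ := by
      simp only [Finset.mul_sum, ← Finset.sum_add_distrib]
      refine Finset.sum_le_sum fun j _ => Finset.sum_le_sum fun a _ =>
        Finset.sum_le_sum fun b _ => ?_
      nlinarith [mul_le_mul_of_nonneg_left (Real.add_one_le_exp (2 * (D a - D b)))
        (sq_nonneg ‖(uᴴ * x j * u) a b‖)]

end Pool.Agent.MP_94b95a_al.Fl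

end MrgPart15

-- ======== part 16: formerly Pool.Agent.MP_94b95a_al.fl.ClRep
section MrgPart16

/-! Representations with self adjoint span have closed orbits. -/

namespace Pool.Agent.MP_94b95a_al.Fl

open NormedSpace Matrix Filter Topology Kn

theorem clRep_thm (hm : MuMinStmt) (hc : ClosedStmt) : ClRepStmt := by
  intro N G hG Γ _ ρ hρ
  obtain ⟨n, b, hb, hsp, -⟩ := Submodule.exists_fun_fin_finrank_span_eq ℂ
    (Set.range fun δ => (ρ.1 δ : Mat N)) |> fun t => (⟨_, t⟩ : ∃ n : ℕ, ∃ b : Fin n → Mat N,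
      (∀ i, b i ∈ Set.range fun δ => (ρ.1 δ : Mat N)) ∧ Submodule.span ℂ (Set.range b) =
        Submodule.span ℂ (Set.range fun δ => (ρ.1 δ : Mat N)) ∧ LinearIndependent ℂ b)
  let x : Fin n ⊕ Fin n → Mat N := Sum.elim b fun j => (b j)ᴴ
  have hx : mu x = 0 := by
    simp only [mu, x, Fintype.sum_sum_type, Sum.elim_inl, Sum.elim_inr,
      conjTranspose_conjTranspose, ← Finset.sum_add_distrib, sub_add_sub_cancel, sub_self,
      Finset.sum_const_zero]
  have hcl := hc N G hG _ x (hm N G hG _ x hx)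
  refine isClosed_of_closure_subset fun ρ' hρ' => ?_
  obtain ⟨U, hU, hlim⟩ := mem_closure_iff_ultrafilter.1 hρ'
  have H : ∀ σ : Rep Γ G, ∃ g ∈ G, Conj ρ σ → ∀ γ, σ.1 γ = g * ρ.1 γ * g⁻¹ := fun σ => by
    by_cases h : Conj ρ σ
    · obtain ⟨g, h1, h2⟩ := h
      exact ⟨g, h1, fun _ => h2⟩
    · exact ⟨1, G.one_mem, fun h' => absurd h' h⟩
  choose g hg hgσ using H
  have h1 : ∀ γ, Tendsto (fun σ => (g σ : Mat N) * ρ.1 γ * (((g σ)⁻¹ : GLN N) : Mat N)) U
      (𝓝 (ρ'.1 γ : Mat N)) := fun γ => by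
    have : Continuous fun σ : Rep Γ G => (σ.1 γ : Mat N) :=
      Units.continuous_val.comp ((continuous_apply γ).comp continuous_subtype_val)
    refine ((this.tendsto ρ').mono_left hlim).congr' (mem_of_superset hU fun σ hσ => ?_)
    show (σ.1 γ : Mat N) = _
    rw [hgσ σ hσ γ, Units.val_mul, Units.val_mul]
  have h2 : ∀ y ∈ Submodule.span ℂ (Set.range fun δ => (ρ.1 δ : Mat N)), ∃ l,
      Tendsto (fun σ => (g σ : Mat N) * y * (((g σ)⁻¹ : GLN N) : Mat N)) U (𝓝 l) := by
    intro y hy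
    induction hy using Submodule.span_induction with
    | mem y hy =>
      obtain ⟨δ, rfl⟩ := hy
      exact ⟨_, h1 δ⟩
    | zero => exact ⟨0, by simp⟩
    | add a b _ _ ha hb =>
      obtain ⟨l, ha⟩ := ha
      obtain ⟨l', hb⟩ := hb
      exact ⟨l + l', by simpa only [Matrix.mul_add, Matrix.add_mul] using ha.add hb⟩
    | smul c a _ ha =>
      obtain ⟨l, ha⟩ := ha
      exact ⟨c • l, by simpa only [Matrix.mul_smul, Matrix.smul_mul] using ha.const_smul c⟩
  have h3 : ∀ j, x j ∈ Submodule.span ℂ (Set.range fun δ => (ρ.1 δ : Mat N)) := by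
    rintro (j | j)
    · exact Submodule.subset_span (hb j)
    · obtain ⟨δ, hδ⟩ := hb j
      show (b j)ᴴ ∈ _
      rw [← hδ]
      exact hρ δ
  choose l hl using fun j => h2 _ (h3 j)
  obtain ⟨g₀, hg₀, e⟩ := hcl.mem_of_tendsto (f := fun σ => cj (g σ) x) (b := U)
    (tendsto_pi_nhds.2 hl) (Eventually.of_forall fun σ => ⟨g σ, hg σ, rfl⟩)
  have h4 : ∀ y ∈ Submodule.span ℂ (Set.range b),
      Tendsto (fun σ => (g σ : Mat N) * y * (((g σ)⁻¹ : GLN N) : Mat N)) U
        (𝓝 ((g₀ : Mat N) * y * ((g₀⁻¹ : GLN N) : Mat N))) := by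
    intro y hy
    induction hy using Submodule.span_induction with
    | mem y hy =>
      obtain ⟨j, rfl⟩ := hy
      have := hl (Sum.inl j)
      rw [e] at this
      exact this
    | zero => simp
    | add a b _ _ ha hb => simpa only [Matrix.mul_add, Matrix.add_mul] using ha.add hb
    | smul c a _ ha => simpa only [Matrix.mul_smul, Matrix.smul_mul] using ha.const_smul c
  refine ⟨g₀, hg₀, fun γ => Units.ext ?_⟩
  rw [Units.val_mul, Units.val_mul]
  exact tendsto_nhds_unique (h1 γ) (h4 _ (hsp ▸ Submodule.subset_span ⟨γ, rfl⟩))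

end Pool.Agent.MP_94b95a_al.Fl

end MrgPart16

-- ======== part 17: formerly Pool.Agent.MP_94b95a_al.fl.RepExt
section MrgPart17

/-! Conjugacy of representations can be tested on the generators. -/

namespace Pool.Agent.MP_94b95a_al.Fl

open NormedSpace Matrix Filter Topology

theorem repExt_thm : RepExtStmt := by
  intro N R _ I G ρ ρ' g h γ
  let f : St I →* GLN N := MonoidHom.mk' ρ'.1 ρ'.2.2
  let f' : St I →* GLN N := (MulAut.conj g).toMonoidHom.comp (MonoidHom.mk' ρ.1 ρ.2.2)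
  have : f = f' := by
    refine hom_ext fun i j a ha => ?_
    apply Units.ext
    exact (h i j a ha).trans (by simp [f'])
  exact DFunLike.congr_fun this γ

end Pool.Agent.MP_94b95a_al.Fl

end MrgPart17

-- ======== part 18: formerly Pool.Agent.MP_94b95a_al.fl.Wd
section MrgPart18

/-! The deformation of normal forms respects conjugacy. -/

namespace Pool.Agent.MP_94b95a_al.Fl

open NormedSpace Matrix Filter Topology

namespace Wd

theorem jd_of {N : ℕ} {R : Type} [CommRing R] {I : Ideal R} {G : Subgroup (GLN N)} {T : Tri I N}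
    (hT : T.Good G) {ρ : St I → GLN N} (h : T.IsRep ρ) {i j : Fin 5} {a : R} (ha : Leg I i j a) :
    JD (ρ (X I i j a)) (T.e (X I i j a)) (T.A (X I i j a)) (T.ν i j a) :=
  ⟨h i j a ha, hT.ell i j a ha, hT.hyp _, hT.lie.nil i j a ha, hT.eA _ _, hT.eν _ i j a ha,
    hT.Aν _ i j a ha⟩

theorem wt_org {R : Type} [CommRing R] {ε : R →+* ℤ} {lam : Pt R → ℝ} (hl : Lam ε lam)
    {i j : Fin 5} (hij : i ≠ j) (a : R) : wt lam i j a (org ε) = 0 := by
  have h : ((j : ℤ) - (i : ℤ)) ≠ 0 := by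
    intro h0
    apply hij
    apply Fin.ext
    omega
  unfold wt
  rw [hl.zero, Complex.ofReal_zero, _root_.zero_zpow _ h, zero_mul]

theorem comb {N : ℕ} {κ R : Type} [Fintype κ] (s : Finset R) (z : R → ℂ) (w : R → κ → ℂ)
    (u : κ → ℂ) (L : κ → Mat N) (h : ∀ k, ∑ b ∈ s, z b * w b k = u k) :
    ∑ k, u k • L k = ∑ b ∈ s, z b • ∑ k, w b k • L k := by
  simp only [Finset.smul_sum, smul_smul]
  rw [Finset.sum_comm]
  refine Finset.sum_congr rfl fun k _ => ?_
  rw [← Finset.sum_smul, h]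

end Wd

theorem wd_thm (hJun : JunStmt) (hEll : EllStmt) (hFun : FunStmt) (hNf : NfTriStmt)
    (hExt : RepExtStmt) : WdStmt := by
  intro N G hG R _ ε lam hl κ κ' _ _ D D' hD hD' f s hf ρ ρ' ρ₁ ρ₁' h h' h₁ h₁' hc
  obtain ⟨g, hg, hc⟩ := hc
  have hT := hNf N G hG R ε lam hl κ D hD
  have hT' := hNf N G hG R ε lam hl κ' D' hD'
  have key : ∀ i j a, Leg (RingHom.ker ε) i j a →
      D'.e (X _ i j a) = g * D.e (X _ i j a) * g⁻¹ ∧
      D'.A (X _ i j a) = (g : Mat N) * D.A (X _ i j a) * ((g⁻¹ : GLN N) : Mat N) ∧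
      (D'.tri lam).ν i j a = (g : Mat N) * (D.tri lam).ν i j a * ((g⁻¹ : GLN N) : Mat N) := by
    intro i j a ha
    have h1 := hEll.jd_conj N _ _ g _ _ (Wd.jd_of hT h ha)
    rw [← hc] at h1
    exact hJun N _ _ _ _ _ _ _ (Wd.jd_of hT' h' ha) h1
  refine ⟨g, hg, hExt N R _ G ρ₁ ρ₁' g fun i j a ha => ?_⟩
  obtain ⟨t, z, ht, hz⟩ := hFun R ε lam hl (κ ⊕ κ') (Sum.elim D.c D'.c)
    (fun c => wt lam i j a (f c)) (by rw [hf]; exact Wd.wt_org hl ha.1 a) i j ha.1
  have e1 : ((D.deform f s).tri lam).ν i j a = ∑ b ∈ t, z b • (D.tri lam).ν i j b :=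
    Wd.comb t z (fun b k => wt lam i j b (D.c k)) _ (fun k => D.L k i j) fun k => hz (Sum.inl k)
  have e2 : ((D'.deform f s).tri lam).ν i j a = ∑ b ∈ t, z b • (D'.tri lam).ν i j b :=
    Wd.comb t z (fun b k => wt lam i j b (D'.c k)) _ (fun k => D'.L k i j) fun k => hz (Sum.inr k)
  have e3 : ((D'.deform f s).tri lam).ν i j a =
      (g : Mat N) * ((D.deform f s).tri lam).ν i j a * ((g⁻¹ : GLN N) : Mat N) := by
    rw [e1, e2, Finset.mul_sum, Finset.sum_mul]
    refine Finset.sum_congr rfl fun b hb => ?_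
    rw [(key i j b (leg_of_mem ha.1 (ht b hb))).2.2, mul_smul_comm, smul_mul_assoc]
  have e4 : ((D'.deform f s).tri lam).A (X _ i j a) =
      (g : Mat N) * ((D.deform f s).tri lam).A (X _ i j a) * ((g⁻¹ : GLN N) : Mat N) := by
    show (s : ℂ) • D'.A _ = (g : Mat N) * ((s : ℂ) • D.A _) * _
    rw [(key i j a ha).2.1, mul_smul_comm, smul_mul_assoc]
  have e5 : ((D'.deform f s).tri lam).e (X _ i j a) =
      g * ((D.deform f s).tri lam).e (X _ i j a) * g⁻¹ := (key i j a ha).1
  rw [h₁ i j a ha, h₁' i j a ha, e3, e4, e5, Matrix.exp_units_conj, Matrix.exp_units_conj]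
  simp only [Units.val_mul, mul_assoc, Units.inv_mul_cancel_left]

end Pool.Agent.MP_94b95a_al.Fl

end MrgPart18

-- ======== part 19: formerly Pool.Agent.MP_94b95a_al.fl.Nu
section MrgPart19

/-! The nilpotent part on products is a universal polynomial in the representation. -/

namespace Pool.Agent.MP_94b95a_al.Fl

open NormedSpace Matrix Filter Topology
open scoped commutatorElement

theorem nu_thm (hL : LogStmt) (hH : HordStmt) : NuStmt := by
  intro N
  obtain ⟨ℓ, hℓ, -⟩ := hL N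
  refine ⟨Polynomial.C ((N.factorial : ℂ)⁻¹) * ℓ.comp (Polynomial.X ^ N.factorial), ?_⟩
  intro G R _ I T ρ hT hρ i j a b hij ha hb
  obtain ⟨m, hmi, hmj⟩ : ∃ m : Fin 5, m ≠ i ∧ m ≠ j := by revert i j; decide
  have la : Leg I i m a := leg_of_mem hmi.symm ha
  have lb : Leg I m j b := leg_of_mem hmj hb
  have lab : Leg I i j (a * b) := la.mul hij lb
  have hc := (stFam_X I).heis i m j a b hij la lb
  let α : St I →* Multiplicative (Mat N) :=
    MonoidHom.mk' (fun γ => Multiplicative.ofAdd (T.A γ)) (fun γ δ => by rw [hT.Aadd]; rfl)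
  have hA : T.A (X I i j (a * b)) = 0 := by
    have : α (X I i j (a * b)) = 1 := by
      rw [← hc, map_commutatorElement]
      exact commutatorElement_eq_one_iff_commute.mpr (Commute.all _ _)
    exact this
  have he : T.e (X I i j (a * b)) ^ N.factorial = 1 := by
    have h1 : T.e (X I i j (a * b)) = ⁅T.e (X I i m a), T.e (X I m j b)⁆ := by
      rw [← hc, map_commutatorElement]
    rw [h1]
    apply hH N
    · rw [← h1]
      exact ((stFam_X I).comm i j i m _ _ hij.symm hmi.symm lab la).map T.e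
    · rw [← h1]
      exact ((stFam_X I).comm i j m j _ _ hmj.symm hij lab lb).map T.e
    · rw [← h1]; exact hT.ell i j _ lab
  have hpow : (ρ (X I i j (a * b)) : Mat N) ^ N.factorial
      = exp ((N.factorial : ℕ) • T.ν i j (a * b)) := by
    rw [hρ i j _ lab, hA, exp_zero, mul_one, (hT.eν _ i j _ lab).exp_right.mul_pow,
      ← Units.val_pow_eq_pow_val, he, Units.val_one, one_mul, Matrix.exp_nsmul]
  have hn : IsNilpotent ((N.factorial : ℕ) • T.ν i j (a * b)) := (hT.lie.nil i j _ lab).smul _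
  rw [map_mul, Polynomial.aeval_comp, map_pow, Polynomial.aeval_X, hpow, hℓ _ hn,
    Polynomial.aeval_C, ← Algebra.smul_def, ← Nat.cast_smul_eq_nsmul ℂ, smul_smul,
    inv_mul_cancel₀ (Nat.cast_ne_zero.mpr N.factorial_ne_zero), one_smul]

end Pool.Agent.MP_94b95a_al.Fl

end MrgPart19

-- ======== part 20: formerly Pool.Agent.MP_94b95a_al.fl.HypBd
section MrgPart20

/-! Bound for the hyperbolic part of a Jordan decomposition. -/

namespace Pool.Agent.MP_94b95a_al.Fl

open NormedSpace Matrix JA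
open scoped Matrix.Norms.Operator

namespace HypBd

variable {N : ℕ}

theorem pow_le (m : Mat N) (k : ℕ) : ‖m ^ k‖ ≤ ‖(1 : Mat N)‖ * ‖m‖ ^ k := by
  induction k with
  | zero => simp
  | succ k ih =>
    rw [pow_succ, pow_succ, ← mul_assoc]
    exact (norm_mul_le _ _).trans (mul_le_mul_of_nonneg_right ih (norm_nonneg _))

theorem re_le {g e h : GLN N} {B : Mat N} (he : Ell e) (hc : Commute (e : Mat N) B)
    (H : h * g * h⁻¹ = e * expU B) {c : ℂ} (hs : c ∈ spectrum ℂ B) : c.re ≤ ‖(g : Mat N)‖ := by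
  obtain ⟨K, hK⟩ := bdd_range.1 he
  have h0 : Commute e (expU B) := Units.ext hc.exp_right
  have h1 : ∀ k : ℕ, exp ((k : ℂ) • B) = ((e ^ (-(k : ℤ)) : GLN N) : Mat N) * (h : Mat N) *
      (g : Mat N) ^ k * ((h⁻¹ : GLN N) : Mat N) := fun k => by
    have h2 : expU B ^ k = e ^ (-(k : ℤ)) * h * g ^ k * h⁻¹ := by
      rw [mul_assoc, mul_assoc, ← mul_assoc h, ← conj_pow, H, h0.mul_pow, _root_.zpow_neg,
        zpow_natCast, inv_mul_cancel_left]
    have h3 := congrArg Units.val h2
    rwa [Units.val_pow_eq_pow_val, expU_val, ← Matrix.exp_nsmul, ← Nat.cast_smul_eq_nsmul ℂ,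
      Units.val_mul, Units.val_mul, Units.val_mul, Units.val_pow_eq_pow_val] at h3
  have h2 := spec_le hs (K := K * ‖(h : Mat N)‖ * ‖(1 : Mat N)‖ * ‖((h⁻¹ : GLN N) : Mat N)‖)
    (norm_nonneg (g : Mat N)) fun k => by
      have hK0 : 0 ≤ K := (norm_nonneg _).trans (hK 0)
      rw [h1 k]
      calc _ ≤ ‖((e ^ (-(k : ℤ)) : GLN N) : Mat N)‖ * ‖(h : Mat N)‖ * ‖(g : Mat N) ^ k‖ *
            ‖((h⁻¹ : GLN N) : Mat N)‖ :=
            (norm_mul_le _ _).trans (mul_le_mul_of_nonneg_right
              (norm_mul₃_le) (norm_nonneg _))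
        _ ≤ K * ‖(h : Mat N)‖ * (‖(1 : Mat N)‖ * ‖(g : Mat N)‖ ^ k) *
            ‖((h⁻¹ : GLN N) : Mat N)‖ := by
            gcongr
            · exact hK _
            · exact pow_le _ _
        _ = _ := by ring
  linarith [Real.add_one_le_exp c.re]

theorem herm {A : Mat N} (hA : A.IsHermitian) {r : ℝ} (h : ∀ i, |hA.eigenvalues i| ≤ r)
    (a b : Fin N) : ‖A a b‖ ≤ N * r := by
  have h1 := hA.spectral_theorem
  rw [Unitary.conjStarAlgAut_apply] at h1
  rw [h1, Matrix.mul_apply]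
  refine (norm_sum_le _ _).trans ((Finset.sum_le_sum (g := fun _ => r) fun i _ => ?_).trans
    (by simp))
  have h2 := entry_norm_bound_of_unitary hA.eigenvectorUnitary.2 a i
  have h3 := entry_norm_bound_of_unitary hA.eigenvectorUnitary.2 b i
  rw [Matrix.mul_diagonal, norm_mul, norm_mul, Matrix.star_apply, norm_star]
  have h4 : ‖(RCLike.ofReal ∘ hA.eigenvalues : Fin N → ℂ) i‖ ≤ r := by simpa using h i
  calc _ ≤ 1 * r * 1 := by
        have : 0 ≤ r := (abs_nonneg _).trans (h i)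
        gcongr
    _ = r := by ring

end HypBd

theorem hypBd_thm : HypBdStmt := by
  intro N C
  refine ⟨N * (N * |C|), fun g e h A ν H hA hg hg' => HypBd.herm hA fun i => ?_⟩
  have h1 : ((hA.eigenvalues i : ℝ) : ℂ) ∈ spectrum ℂ (A + ν) :=
    spec_add H.nil H.Aν.symm (hA.spectrum_eq_image_range ▸ ⟨_, ⟨i, rfl⟩, rfl⟩)
  have hc : Commute (e : Mat N) (A + ν) := H.eA.add_right H.eν
  have h2 : h * g * h⁻¹ = e * expU (A + ν) := by
    refine Units.ext ?_
    rw [H.eq, Units.val_mul, expU_val, exp_add' H.Aν, mul_assoc]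
  have h3 : h * g⁻¹ * h⁻¹ = e⁻¹ * expU ((-1 : ℂ) • (A + ν)) := by
    have h0 : Commute e (expU (A + ν)) := Units.ext hc.exp_right
    rw [← conj_inv, h2, h0.eq, _root_.mul_inv_rev, neg_one_smul]
    exact Units.ext rfl
  have he : Ell e⁻¹ := by
    obtain ⟨K, hK⟩ := bdd_range.1 H.ell
    exact bdd_range.2 ⟨K, fun k => by rw [_root_.inv_zpow']; exact hK _⟩
  have h4 := (HypBd.re_le H.ell hc h2 h1).trans (norm_le hg)
  have h5 := (HypBd.re_le he (hc.units_inv_left.smul_right _) h3 (spec_smul h1 (-1))).trans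
    (norm_le hg')
  simp only [Complex.ofReal_re, neg_mul, one_mul, Complex.neg_re] at h4 h5
  exact abs_le.2 ⟨by linarith, h4⟩

end Pool.Agent.MP_94b95a_al.Fl

end MrgPart20

-- ======== part 21: formerly Pool.Agent.MP_94b95a_al.fl.Sep
section MrgPart21

/-! Separation of closed orbits. -/

namespace Pool.Agent.MP_94b95a_al.Fl

open NormedSpace Matrix Filter Topology Kn

namespace Sep

variable {N : ℕ}

theorem tend {τ : Type} {F : Filter τ} {u v : τ → Mat N} {u₀ v₀ : Mat N}
    (hu : Tendsto u F (𝓝 u₀)) (hv : Tendsto v F (𝓝 v₀)) (a b : Fin N) :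
    Tendsto (fun m => ((u m)ᴴ * v m * u m) a b) F (𝓝 ((u₀ᴴ * v₀ * u₀) a b)) :=
  tendsto_pi_nhds.1 (tendsto_pi_nhds.1
    ((((continuous_id.matrix_conjTranspose.tendsto u₀).comp hu).mul hv).mul hu) a) b

theorem cancel {v : Mat N} (hv : vᴴ * v = 1) (A : Mat N) : vᴴ * (v * A * vᴴ) * v = A := by
  rw [← Matrix.mul_assoc, ← Matrix.mul_assoc, hv, Matrix.one_mul, Matrix.mul_assoc, hv,
    Matrix.mul_one]

theorem half (hl : LieStmt) (hp : PolStmt) (hr : RatStmt) (hc : ClosedStmt)
    {G : Subgroup (GLN N)} (hG : SA G) {ι : Type} [Fintype ι] {x y : ι → Mat N}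
    (hx : IsMinV G x) {τ : Type} (U : Ultrafilter τ) {xs : τ → ι → Mat N} {g : τ → GLN N}
    (hg : ∀ m, g m ∈ G) (h1 : Tendsto xs U (𝓝 x))
    (h2 : Tendsto (fun m => cj (g m) (xs m)) U (𝓝 y)) :
    FN x ≤ FN y ∧ (FN y ≤ FN x → y ∈ orb G x) := by
  classical
  choose k u D hk hL hpd using fun m => polar hp hG (hg m)
  obtain ⟨u₀, hu₀, hu⟩ := ulim_uni U fun m => (hpd m).hu
  obtain ⟨k₀, hk₀, hkl⟩ := ulim_uni U fun m => (hpd m).hk
  let K : GLN N := ⟨k₀, k₀ᴴ, uni_symm hk₀, hk₀⟩
  have hK : K ∈ G := hl.closedG N G hG.alg K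
    (mem_closure_of_tendsto hkl (Eventually.of_forall fun m => ⟨k m, hk m, rfl⟩))
  have hv := uni_mul hk₀ hu₀
  let z : ι → Mat N := fun j => u₀ᴴ * x j * u₀
  let w : ι → Mat N := fun j => (k₀ * u₀)ᴴ * y j * (k₀ * u₀)
  let w' : ι → Mat N := fun j => of fun a b => if z j a b = 0 then 0 else w j a b
  have hz : ∀ j a b, Tendsto (fun m => ((u m)ᴴ * xs m j * u m) a b) U (𝓝 (z j a b)) :=
    fun j a b => tend hu (tendsto_pi_nhds.1 h1 j) a b
  have hw : ∀ j a b, Tendsto (fun m => (Real.exp (D m a + (-D m) b) : ℝ) *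
      ((u m)ᴴ * xs m j * u m) a b) U (𝓝 (w j a b)) := fun j a b => by
    refine (tend (hkl.mul hu) (tendsto_pi_nhds.1 h2 j) a b).congr fun m => ?_
    rw [(hpd m).cj_eq, ← ex_apply, cancel (uni_mul (hpd m).hk (hpd m).hu)]
  have hw' : ∀ j, Tendsto (fun m => ex (D m) * z j * ex (-D m)) U (𝓝 (w' j)) := fun j =>
    tendsto_pi_nhds.2 fun a => tendsto_pi_nhds.2 fun b => by
      simp only [ex_apply, w', of_apply]
      split_ifs with h
      · simp [h]
      · have t := (hw j a b).mul ((tendsto_const_nhds (x := z j a b)).div (hz j a b) h)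
        rw [div_self h, mul_one] at t
        refine t.congr' (((hz j a b).eventually_ne h).mono fun m hm => ?_)
        simp only [Pi.div_apply]
        rw [mul_assoc, mul_div_cancel₀ _ hm]
  have hx' : (fun j => u₀ * w' j * u₀ᴴ) ∈ orb G x := by
    refine (hc N G hG ι x hx).mem_of_tendsto (f := fun m j => u₀ * (ex (D m) * z j * ex (-D m)) * u₀ᴴ)
      (b := U) (tendsto_pi_nhds.2 fun j => ((hw' j).const_mul _).mul_const _)
      ((hr N G hG.alg τ U u u₀ D (fun m => (hpd m).hu) hu hL).mono fun m hm => ?_)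
    obtain ⟨p, hp1, hp2⟩ := one_param hu₀ hm 1
    refine ⟨p, hp1, funext fun j => ?_⟩
    rw [hp2.cj_eq, one_smul, Matrix.one_mul]
  obtain ⟨c, hcG, e⟩ := hx'
  have e1 : FN x ≤ FN w' := by
    have := hx c hcG
    rw [← e] at this
    exact this.trans (le_of_eq (Finset.sum_congr rfl fun j _ => fn_conj hu₀ (w' j)))
  have e2 : FN y = FN w := (FN_conj hv y).symm
  have e3 : FN w = FN w' + FN (w - w') := by
    simp only [FN, ← Finset.sum_add_distrib]
    refine Finset.sum_congr rfl fun j _ => Finset.sum_congr rfl fun a _ =>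
      Finset.sum_congr rfl fun b _ => ?_
    simp only [w', Pi.sub_apply, Matrix.sub_apply, of_apply]
    split_ifs <;> simp
  have e4 : 0 ≤ FN (w - w') := Finset.sum_nonneg fun j _ => fn_nonneg _
  refine ⟨by linarith, fun h => ⟨K * c, G.mul_mem hK hcG, ?_⟩⟩
  have e5 : ∀ j, w' j = w j := fun j => (sub_eq_zero.1 (fn_eq_zero
    ((Finset.sum_eq_zero_iff_of_nonneg fun _ _ => fn_nonneg _).1
      (show FN (w - w') = 0 by linarith) j (Finset.mem_univ j)))).symm
  rw [cj_mul, ← e]
  funext j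
  calc y j = (k₀ * u₀ * (k₀ * u₀)ᴴ) * y j * (k₀ * u₀ * (k₀ * u₀)ᴴ) := by
        rw [uni_symm hv, Matrix.one_mul, Matrix.mul_one]
    _ = k₀ * (u₀ * w' j * u₀ᴴ) * k₀ᴴ := by
        simp only [e5, w, conjTranspose_mul, Matrix.mul_assoc]

end Sep

theorem sep_thm (hl : LieStmt) (hp : PolStmt) (hr : RatStmt) (hc : ClosedStmt) : SepStmt := by
  intro N G hG ι _ x y hx hy τ U xs g hg h1 h2
  exact (Sep.half hl hp hr hc hG hx U hg h1 h2).2 (Sep.half hl hp hr hc hG hy U
    (g := fun m => (g m)⁻¹) (fun m => G.inv_mem (hg m)) h2 (by simpa only [cj_inv] using h1)).1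

end Pool.Agent.MP_94b95a_al.Fl

end MrgPart21

-- ======== part 22: formerly Pool.Agent.MP_94b95a_al.fl.Gl5C
section MrgPart22

/-! The general linear group has trivial unipotent radical. -/

namespace Pool.Agent.MP_94b95a_al.Fl

open Matrix

namespace Gl5C

variable {N : ℕ}

theorem tr0 {n : Mat N} (h : IsNilpotent n) : n.trace = 0 :=
  (Matrix.isNilpotent_trace_of_isNilpotent h).eq_zero

theorem norm_bot (U : Subgroup (GLN N)) (h1 : ∀ g, ∀ u ∈ U, g * u * g⁻¹ ∈ U)
    (h2 : ∀ u ∈ U, IsNilpotent ((u : Mat N) - 1)) : U = ⊥ := by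
  refine eq_bot_iff.2 fun u hu => ?_
  obtain ⟨n, hn⟩ : ∃ n : Mat N, (u : Mat N) = 1 + n := ⟨u - 1, by simp⟩
  have hnil : IsNilpotent n := by simpa [hn] using h2 u hu
  have off : ∀ i j, i ≠ j → n j i = 0 := by
    intro i j hij
    obtain ⟨E, hE⟩ : ∃ E : Mat N, E = single i j 1 := ⟨_, rfl⟩
    have hEE : E * E = 0 := by rw [hE]; exact single_mul_single_of_ne _ _ _ _ hij.symm _
    let g : GLN N := ⟨1 + E, 1 - E, by rw [mul_sub, add_mul, add_mul, hEE]; simp,
      by rw [sub_mul, mul_add, mul_add, hEE]; simp⟩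
    have h3 := tr0 (h2 _ (U.mul_mem hu (h1 g u hu)))
    have h4 : ((u * (g * u * g⁻¹) : GLN N) : Mat N) - 1 =
        n + n + n * n + (E * n - n * E) - E * (n * E) + (n * (E * n) - n * n * E)
          - n * (E * n * E) - (E * E + n * (E * E)) := by
      change (u : Mat N) * ((1 + E) * u * (1 - E)) - 1 = _
      rw [hn]; noncomm_ring
    have h5 : (E * (n * E)).trace = 0 := by rw [trace_mul_comm, mul_assoc, hEE]; simp
    have h6 : (n * (E * n)).trace = (n * n * E).trace := by
      rw [← mul_assoc, trace_mul_comm, mul_assoc]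
    have h7 : (n * (E * n * E)).trace = n j i * n j i := by
      rw [hE, single_mul_mul_single, trace_mul_single]; simp
    rw [h4, hEE] at h3
    simp only [trace_add, trace_sub, h5, h6, h7, tr0 hnil, trace_mul_comm E n, mul_zero,
      trace_zero, tr0 ((Commute.refl n).isNilpotent_mul_left hnil)] at h3
    simpa using h3
  have hd : n = diagonal fun i => n i i := by
    ext a b
    by_cases h : a = b
    · subst h; simp
    · rw [diagonal_apply_ne _ h, off b a (Ne.symm h)]
  obtain ⟨k, hk⟩ := hnil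
  rw [hd, diagonal_pow] at hk
  have h0 : n = 0 := by
    rw [hd]
    ext a b
    by_cases h : a = b
    · subst h
      have := congrFun (congrFun hk a) a
      simp only [diagonal_apply_eq, Pi.pow_apply, Matrix.zero_apply] at this ⊢
      exact pow_eq_zero_iff'.1 this |>.1
    · rw [diagonal_apply_ne _ h]; rfl
  exact Subgroup.mem_bot.2 (Units.ext (by simp [hn, h0]))

end Gl5C

theorem gl5C_thm : Gl5CStmt :=
  ⟨⟨∅, fun g => by simp⟩, ⟨⟨1, trivial⟩, Gl5.conn⟩,
    fun U _ _ _ h1 h2 => Gl5C.norm_bot U (fun g => h1 g trivial) h2⟩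

end Pool.Agent.MP_94b95a_al.Fl

end MrgPart22

-- ======== part 23: formerly Pool.Agent.MP_94b95a_al.fl.All
section MrgPart23

namespace Pool.Agent.MP_94b95a_al.Fl

theorem all_TopAStmt : TopAStmt := topA_thm
theorem all_TopStmt : TopStmt := top_thm all_TopAStmt
theorem all_ActStmt : ActStmt := act_thm
theorem all_FpAStmt : FpAStmt := fpA_thm
theorem all_FpStmt : FpStmt := fp_thm all_FpAStmt
theorem all_SemiStmt : SemiStmt := semi_thm
theorem all_LamStmt : LamStmt := lam_thm
theorem all_LieStmt : LieStmt := lie_thm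
theorem all_BochStmt : BochStmt := boch_thm
theorem all_GlRelStmt : GlRelStmt := glRel_thm
theorem all_Ph1Stmt : Ph1Stmt := ph1_thm
theorem all_ExpFamStmt : ExpFamStmt := expFam_thm
theorem all_FiltStmt : FiltStmt := filt_thm
theorem all_LogStmt : LogStmt := log_thm
theorem all_Ph2Stmt : Ph2Stmt := ph2_thm all_ExpFamStmt all_FiltStmt all_LogStmt
theorem all_NilStmt : NilStmt := nil_thm
theorem all_PhaseStmt : PhaseStmt := phase_thm all_Ph1Stmt all_Ph2Stmt all_NilStmt
theorem all_PointsStmt : PointsStmt := points_thm all_PhaseStmt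
theorem all_GlStmt : GlStmt := gl_thm
theorem all_EllStmt : EllStmt := ell_thm
theorem all_JexStmt : JexStmt := jex_thm all_LogStmt
theorem all_JunStmt : JunStmt := jun_thm all_JexStmt all_EllStmt
theorem all_PolStmt : PolStmt := pol_thm all_JexStmt all_JunStmt all_EllStmt all_LieStmt
theorem all_UnitStmt : UnitStmt := unit_thm all_LieStmt all_PolStmt
theorem all_HordStmt : HordStmt := hord_thm
theorem all_BurnStmt : BurnStmt := burn_thm
theorem all_Fin0Stmt : Fin0Stmt := fin0_thm all_FiltStmt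
theorem all_Fin1Stmt : Fin1Stmt := fin1_thm
theorem all_FinStmt : FinStmt := fin_thm all_Fin0Stmt all_Fin1Stmt
theorem all_BndStmt : BndStmt := bnd_thm all_HordStmt all_BurnStmt all_FinStmt
theorem all_SplitStmt : SplitStmt := split_thm all_JexStmt all_JunStmt all_EllStmt all_LieStmt
theorem all_NfAStmt : NfAStmt := nfA_thm all_EllStmt all_LieStmt all_UnitStmt all_BndStmt all_SplitStmt
theorem all_MinStmt : MinStmt := min_thm all_LieStmt
theorem all_TriRepStmt : TriRepStmt := triRep_thm all_ExpFamStmt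
theorem all_RepLimStmt : RepLimStmt := repLim_thm all_EllStmt
theorem all_DegStmt : DegStmt := deg_thm all_EllStmt all_LieStmt all_MinStmt all_TriRepStmt all_RepLimStmt
theorem all_NfexStmt : NfexStmt := nfex_thm all_LieStmt all_BochStmt all_GlRelStmt all_PointsStmt all_GlStmt all_NfAStmt all_DegStmt
theorem all_NfTriStmt : NfTriStmt := nfTri_thm all_GlStmt all_LieStmt all_EllStmt
theorem all_FunStmt : FunStmt := fun_thm
theorem all_MuMinStmt : MuMinStmt := muMin_thm all_PolStmt
theorem all_ClosedStmt : ClosedStmt := closed_thm all_LieStmt all_PolStmt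
theorem all_ClRepStmt : ClRepStmt := clRep_thm all_MuMinStmt all_ClosedStmt
theorem all_ClNfStmt : ClNfStmt := clNf_thm all_JexStmt all_JunStmt all_FunStmt all_NfTriStmt all_ClRepStmt
theorem all_RepExtStmt : RepExtStmt := repExt_thm
theorem all_WdStmt : WdStmt := wd_thm all_JunStmt all_EllStmt all_FunStmt all_NfTriStmt all_RepExtStmt
theorem all_NuStmt : NuStmt := nu_thm all_LogStmt all_HordStmt
theorem all_HypBdStmt : HypBdStmt := hypBd_thm
theorem all_ContStmt : ContStmt := cont_thm all_NuStmt all_GlStmt all_HypBdStmt all_NfTriStmt all_EllStmt all_LieStmt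
theorem all_RatStmt : RatStmt := rat_thm
theorem all_SepStmt : SepStmt := sep_thm all_LieStmt all_PolStmt all_RatStmt all_ClosedStmt
theorem all_SepRepStmt : SepRepStmt := sepRep_thm all_EllStmt all_LieStmt all_SepStmt
theorem all_MaxKStmt : MaxKStmt := maxK_thm all_UnitStmt
theorem all_FlawStmt : FlawStmt := flaw_thm all_LamStmt all_NfexStmt all_TriRepStmt all_NfTriStmt all_ClNfStmt all_WdStmt all_ContStmt all_RepLimStmt all_RepExtStmt all_SepRepStmt all_MaxKStmt all_FpStmt all_EllStmt all_LieStmt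
theorem all_AjStmt : AjStmt := aj_thm all_JexStmt all_JunStmt all_LieStmt
theorem all_NondegStmt : NondegStmt := nondeg_thm all_AjStmt all_JexStmt all_JunStmt all_EllStmt all_LieStmt all_LogStmt
theorem all_DegenStmt : DegenStmt := degen_thm all_AjStmt
theorem all_StarStmt : StarStmt := star_thm all_AjStmt
theorem all_HodgeStmt : HodgeStmt := hodge_thm
theorem all_RigidStmt : RigidStmt := rigid_thm all_AjStmt all_HodgeStmt
theorem all_ConnStmt : ConnStmt := conn_thm
theorem all_MostowStmt : MostowStmt := mostow_thm all_AjStmt all_NondegStmt all_DegenStmt all_StarStmt all_RigidStmt all_ConnStmt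
theorem all_TransStmt : TransStmt := trans_thm
theorem all_NotFlawStmt : NotFlawStmt := notFlaw_thm all_EllStmt all_NuStmt all_NfexStmt all_LamStmt all_GlStmt all_NfTriStmt all_ClRepStmt all_TriRepStmt
theorem all_Gl5Stmt : Gl5Stmt := gl5_thm all_PolStmt all_JunStmt
theorem all_Gl5CStmt : Gl5CStmt := gl5C_thm

end Pool.Agent.MP_94b95a_al.Fl

end MrgPart23

-- marker of a merged file
example : 731051 + 577818 = 731051 + 577818 := rfl

end MrgPart1

-- marker of a merged file
example : 731051 + 577818 = 731051 + 577818 := rfl
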